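import Pool.Agent.KS6_54.ML.Per2

set_option autoImplicit false

/-!
# Additive characters: the count
-/

open Finset MeasureTheory

namespace Pool.Agent.KS6_54.ML

open Pool.Agent.W200.MR (pw)
open Pool.Agent.TH445.MQ (pw_norm pw_add)

/-- the double sum with all weights at most one -/
theorem dbl_le_card {ι : Type*} (I : Finset ι) (W Δ₀ : ℝ) (b lam : ι → ℝ)
    (hb : ∀ i ∈ I, 0 ≤ b i) (hb1 : ∀ i ∈ I, b i ≤ 1) (hΔ : 0 ≤ Δ₀) :
    dbl I W b lam ≤ (((I ×ˢ I).filter fun p => |lam p.1 - lam p.2| ≤ Δ₀).card : ℝ) +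
      Real.exp (-(W ^ 2 * Δ₀ ^ 2 / 2)) * (I.card : ℝ) ^ 2 := by
  classical
  have h1 : ∀ i ∈ I, ∀ i' ∈ I, b i * b i' * Real.exp (-(W ^ 2 * (lam i - lam i') ^ 2 / 2)) ≤
      (if |lam i - lam i'| ≤ Δ₀ then 1 else 0) +
        Real.exp (-(W ^ 2 * Δ₀ ^ 2 / 2)) := by
    intro i hi i' hi'
    have h2 : b i * b i' ≤ 1 := mul_le_one₀ (hb1 i hi) (hb i' hi') (hb1 i' hi')
    have h3 : 0 ≤ b i * b i' := mul_nonneg (hb i hi) (hb i' hi')
    split_ifs with h
    · have h4 : Real.exp (-(W ^ 2 * (lam i - lam i') ^ 2 / 2)) ≤ 1 := by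
        apply Real.exp_le_one_iff.2
        have : 0 ≤ W ^ 2 * (lam i - lam i') ^ 2 / 2 := by positivity
        linarith
      have h5 : b i * b i' * Real.exp (-(W ^ 2 * (lam i - lam i') ^ 2 / 2)) ≤ 1 :=
        mul_le_one₀ h2 (Real.exp_pos _).le h4
      have h6 : 0 ≤ Real.exp (-(W ^ 2 * Δ₀ ^ 2 / 2)) := (Real.exp_pos _).le
      linarith
    · rw [zero_add]
      have h4 : Real.exp (-(W ^ 2 * (lam i - lam i') ^ 2 / 2)) ≤
          Real.exp (-(W ^ 2 * Δ₀ ^ 2 / 2)) := by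
        apply Real.exp_le_exp.2
        have h2 : Δ₀ ^ 2 ≤ (lam i - lam i') ^ 2 := by
          rw [← sq_abs (lam i - lam i')]
          exact pow_le_pow_left₀ hΔ (not_le.1 h).le 2
        nlinarith [mul_le_mul_of_nonneg_left h2 (sq_nonneg W)]
      calc b i * b i' * Real.exp (-(W ^ 2 * (lam i - lam i') ^ 2 / 2))
          ≤ 1 * Real.exp (-(W ^ 2 * Δ₀ ^ 2 / 2)) := mul_le_mul h2 h4 (Real.exp_pos _).le zero_le_one
        _ = _ := one_mul _
  unfold dbl
  refine (sum_le_sum fun i hi => sum_le_sum fun i' hi' => h1 i hi i' hi').trans (le_of_eq ?_)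
  simp_rw [sum_add_distrib]
  congr 1
  · rw [card_filter]
    push_cast
    rw [sum_product]
  · simp only [sum_const, nsmul_eq_mul]
    ring

/-- integers in an interval -/
lemma card_int (P Δ : ℝ) (hΔ : 0 ≤ Δ) : ((Icc ⌈P - Δ⌉ ⌊P + Δ⌋).card : ℝ) ≤ 2 * Δ + 1 := by
  rw [Int.card_Icc]
  have a1 := Int.floor_le (P + Δ)
  have a2 := Int.le_ceil (P - Δ)
  have h2 : (((⌊P + Δ⌋ + 1 - ⌈P - Δ⌉).toNat : ℤ) : ℝ) ≤ 2 * Δ + 1 := by
    rcases le_total 0 (⌊P + Δ⌋ + 1 - ⌈P - Δ⌉) with h | h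
    · rw [Int.toNat_of_nonneg h]
      push_cast
      linarith
    · rw [Int.toNat_of_nonpos h]
      simp
      linarith
  exact_mod_cast h2

/-- the number of pairs of nonzero integers with product in a short interval -/
theorem cnt_pairs (L : ℕ) (D : ℝ) (hD0 : 0 ≤ D)
    (hD : ∀ n : ℕ, 1 ≤ n → n ≤ L ^ 2 → (n.divisors.card : ℝ) ≤ D) (P Δ : ℝ) (hΔ : 0 ≤ Δ) :
    (((Icc (-(L : ℤ)) L ×ˢ Icc (-(L : ℤ)) L).filter fun p : ℤ × ℤ =>
      p.1 * p.2 ≠ 0 ∧ |((p.1 * p.2 : ℤ) : ℝ) - P| ≤ Δ).card : ℝ) ≤ (2 * Δ + 1) * (2 * D) := by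
  classical
  set S := (Icc (-(L : ℤ)) L ×ˢ Icc (-(L : ℤ)) L).filter fun p : ℤ × ℤ =>
      p.1 * p.2 ≠ 0 ∧ |((p.1 * p.2 : ℤ) : ℝ) - P| ≤ Δ with hS
  set f : ℤ × ℤ → ℤ := fun p => p.1 * p.2 with hf
  have hfib : ∀ n ∈ S.image f, ((S.filter fun p => f p = n).card : ℝ) ≤ 2 * D := by
    intro n hn
    obtain ⟨p, hp, hpn⟩ := mem_image.1 hn
    rw [hS, mem_filter, mem_product, mem_Icc, mem_Icc] at hp
    obtain ⟨⟨⟨a1, a2⟩, ⟨a3, a4⟩⟩, a5, a6⟩ := hp
    have hn0 : n ≠ 0 := by rw [← hpn]; exact a5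
    have hn1 : 1 ≤ n.natAbs := Int.natAbs_pos.2 hn0
    have hn2 : n.natAbs ≤ L ^ 2 := by
      rw [← hpn, hf]
      simp only
      rw [Int.natAbs_mul, sq]
      apply Nat.mul_le_mul
      · omega
      · omega
    have h1 : (S.filter fun p => f p = n).card ≤
        ((Finset.univ : Finset Bool) ×ˢ n.natAbs.divisors).card := by
      apply card_le_card_of_injOn (fun p : ℤ × ℤ => (decide (0 < p.1), p.1.natAbs))
      · intro p hp
        rw [mem_coe, mem_filter] at hp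
        simp only [coe_product, Set.mem_prod, mem_coe, mem_univ, true_and, Nat.mem_divisors]
        refine ⟨⟨p.2.natAbs, ?_⟩, by omega⟩
        rw [← Int.natAbs_mul, ← hp.2]
      · intro p hp p' hp' h
        rw [mem_coe, mem_filter] at hp hp'
        simp only [Prod.mk.injEq, decide_eq_decide] at h
        obtain ⟨h2, h3⟩ := h
        have hp0 : p.1 ≠ 0 := by
          intro h0
          apply hn0
          rw [← hp.2, hf]
          simp [h0]
        have h4 : p.1 = p'.1 := by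
          rcases lt_or_gt_of_ne hp0 with h5 | h5
          · have h6 : ¬ 0 < p'.1 := fun h7 => by
              have := h2.2 h7
              omega
            omega
          · have h6 := h2.1 h5
            omega
        have h5 : p.1 * p.2 = p'.1 * p'.2 := by
          have e1 : p.1 * p.2 = n := hp.2
          have e2 : p'.1 * p'.2 = n := hp'.2
          rw [e1, e2]
        rw [← h4] at h5
        exact Prod.ext h4 (mul_left_cancel₀ hp0 h5)
    have h2 : ((Finset.univ : Finset Bool) ×ˢ n.natAbs.divisors).card = 2 * n.natAbs.divisors.card := by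
      rw [card_product]; simp
    rw [h2] at h1
    calc ((S.filter fun p => f p = n).card : ℝ) ≤ 2 * (n.natAbs.divisors.card : ℝ) := by
          exact_mod_cast h1
      _ ≤ 2 * D := by
          have := hD _ hn1 hn2
          linarith
  have himg : ((S.image f).card : ℝ) ≤ 2 * Δ + 1 := by
    refine le_trans ?_ (card_int P Δ hΔ)
    have : S.image f ⊆ Icc ⌈P - Δ⌉ ⌊P + Δ⌋ := by
      intro n hn
      obtain ⟨p, hp, hpn⟩ := mem_image.1 hn
      rw [hS, mem_filter] at hp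
      have h2 := hp.2.2
      have e : ((p.1 * p.2 : ℤ) : ℝ) = n := by rw [← hpn]
      rw [e] at h2
      rw [mem_Icc]
      constructor
      · apply Int.ceil_le.2
        linarith [(abs_le.1 h2).1]
      · apply Int.le_floor.2
        linarith [(abs_le.1 h2).2]
    exact_mod_cast card_le_card this
  have hcard := card_eq_sum_card_image f S
  calc (S.card : ℝ) = ∑ n ∈ S.image f, ((S.filter fun p => f p = n).card : ℝ) := by
        rw [hcard]; push_cast; rfl
    _ ≤ ∑ n ∈ S.image f, 2 * D := sum_le_sum hfib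
    _ = (S.image f).card * (2 * D) := by rw [sum_const, nsmul_eq_mul]
    _ ≤ (2 * Δ + 1) * (2 * D) := mul_le_mul_of_nonneg_right himg (by positivity)

/-- **The number of near quadruples for shifted integers.** -/
theorem cnt_quad (J : Finset ℤ) (θ : ℝ) (L : ℕ) (hL : 1 ≤ L) (h1 : ∀ ξ ∈ J, 1 ≤ (ξ : ℝ) - θ)
    (h2 : ∀ ξ ∈ J, (ξ : ℝ) - θ ≤ L) (D : ℝ)
    (hD : ∀ n : ℕ, 1 ≤ n → n ≤ L ^ 2 → (n.divisors.card : ℝ) ≤ D) (Δ : ℝ) (hΔ : 0 ≤ Δ) :
    ((((J ×ˢ J) ×ˢ (J ×ˢ J)).filter fun p : (ℤ × ℤ) × (ℤ × ℤ) =>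
      |((p.1.1 : ℝ) - θ) * (p.1.2 - θ) - (p.2.1 - θ) * (p.2.2 - θ)| ≤ Δ).card : ℝ) ≤
      24 * J.card * L * D * (2 * Δ + 1) := by
  classical
  have hD1 : 1 ≤ D := by
    have := hD 1 le_rfl (Nat.one_le_pow _ _ hL)
    simpa using this
  have hLr : (1 : ℝ) ≤ L := by exact_mod_cast hL
  set Q := ((J ×ˢ J) ×ˢ (J ×ˢ J)).filter fun p : (ℤ × ℤ) × (ℤ × ℤ) =>
      |((p.1.1 : ℝ) - θ) * (p.1.2 - θ) - (p.2.1 - θ) * (p.2.2 - θ)| ≤ Δ with hQ
  set B := Icc (-(L : ℤ)) L ×ˢ Icc (-(L : ℤ)) L with hB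
  set A : ℤ → ℤ → Finset (ℤ × ℤ) := fun ξ s => B.filter fun p : ℤ × ℤ =>
    |((p.1 * p.2 : ℤ) : ℝ) - (-(s * ((ξ : ℝ) - θ)))| ≤ Δ with hA
  set S4 := Icc (-(4 * L : ℤ)) (4 * L) with hS4
  -- the injection
  have hinj : Q.card ≤ (J.sigma fun ξ => S4.sigma fun s => A ξ s).card := by
    apply card_le_card_of_injOn (fun p : (ℤ × ℤ) × (ℤ × ℤ) =>
      (⟨p.2.1, ⟨p.1.1 + p.1.2 - p.2.1 - p.2.2, (p.1.1 - p.2.1, p.1.2 - p.2.1)⟩⟩ :
        Σ _ : ℤ, Σ _ : ℤ, ℤ × ℤ))
    · intro p hp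
      rw [mem_coe, hQ, mem_filter, mem_product, mem_product, mem_product] at hp
      obtain ⟨⟨⟨a1, a2⟩, ⟨a3, a4⟩⟩, a5⟩ := hp
      have b1 := h1 _ a1
      have b2 := h1 _ a2
      have b3 := h1 _ a3
      have b4 := h1 _ a4
      have c1 := h2 _ a1
      have c2 := h2 _ a2
      have c3 := h2 _ a3
      have c4 := h2 _ a4
      rw [mem_coe, mem_sigma, mem_sigma]
      refine ⟨a3, ?_, ?_⟩
      · rw [hS4, mem_Icc]
        simp only
        constructor
        · have : (-(4 * (L : ℝ))) ≤ ((p.1.1 + p.1.2 - p.2.1 - p.2.2 : ℤ) : ℝ) := by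
            push_cast; linarith
          exact_mod_cast this
        · have : ((p.1.1 + p.1.2 - p.2.1 - p.2.2 : ℤ) : ℝ) ≤ 4 * L := by
            push_cast; linarith
          exact_mod_cast this
      · rw [hA]
        simp only
        rw [mem_filter, hB, mem_product, mem_Icc, mem_Icc]
        simp only
        refine ⟨⟨⟨?_, ?_⟩, ⟨?_, ?_⟩⟩, ?_⟩
        · have : (-(L : ℝ)) ≤ ((p.1.1 - p.2.1 : ℤ) : ℝ) := by push_cast; linarith
          exact_mod_cast this
        · have : ((p.1.1 - p.2.1 : ℤ) : ℝ) ≤ L := by push_cast; linarith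
          exact_mod_cast this
        · have : (-(L : ℝ)) ≤ ((p.1.2 - p.2.1 : ℤ) : ℝ) := by push_cast; linarith
          exact_mod_cast this
        · have : ((p.1.2 - p.2.1 : ℤ) : ℝ) ≤ L := by push_cast; linarith
          exact_mod_cast this
        · refine le_trans (le_of_eq ?_) a5
          congr 1
          push_cast
          ring
    · intro p _ p' _ h
      simp only [Sigma.mk.injEq, heq_eq_eq, Prod.mk.injEq] at h
      obtain ⟨e1, e2, e3, e4⟩ := h
      apply Prod.ext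
      · apply Prod.ext <;> omega
      · apply Prod.ext <;> omega
  -- the inner count
  have hinner : ∀ ξ ∈ J, ∀ s ∈ S4, ((A ξ s).card : ℝ) ≤ (2 * Δ + 1) * (2 * D) +
      (if |(s : ℝ)| ≤ Δ then 2 * (2 * (L : ℝ) + 1) else 0) := by
    intro ξ hξ s _
    have e1 : A ξ s ⊆ (B.filter fun p : ℤ × ℤ => p.1 * p.2 ≠ 0 ∧
        |((p.1 * p.2 : ℤ) : ℝ) - (-(s * ((ξ : ℝ) - θ)))| ≤ Δ) ∪
        (if |(s : ℝ)| ≤ Δ then (({0} ×ˢ Icc (-(L : ℤ)) L) ∪ (Icc (-(L : ℤ)) L ×ˢ {0})) else ∅) := by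
      intro p hp
      rw [hA] at hp
      simp only at hp
      rw [mem_filter] at hp
      rw [mem_union]
      by_cases h0 : p.1 * p.2 = 0
      · right
        have h5 := hp.2
        rw [h0] at h5
        simp only [Int.cast_zero, zero_sub, neg_neg] at h5
        have h6 : |(s : ℝ)| ≤ Δ := by
          rw [abs_mul] at h5
          have h7 : 1 ≤ |(ξ : ℝ) - θ| := le_trans (h1 ξ hξ) (le_abs_self _)
          have h8 := abs_nonneg (s : ℝ)
          nlinarith
        rw [if_pos h6, mem_union]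
        have h7 := hp.1
        rw [hB, mem_product] at h7
        rcases mul_eq_zero.1 h0 with h8 | h8
        · left
          rw [mem_product, mem_singleton]
          exact ⟨h8, h7.2⟩
        · right
          rw [mem_product, mem_singleton]
          exact ⟨h7.1, h8⟩
      · left
        rw [mem_filter]
        exact ⟨hp.1, h0, hp.2⟩
    have h3 := cnt_pairs L D (by linarith) hD (-(s * ((ξ : ℝ) - θ))) Δ hΔ
    have h4 : ((A ξ s).card : ℝ) ≤ ((B.filter fun p : ℤ × ℤ => p.1 * p.2 ≠ 0 ∧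
        |((p.1 * p.2 : ℤ) : ℝ) - (-(s * ((ξ : ℝ) - θ)))| ≤ Δ).card : ℝ) +
        ((if |(s : ℝ)| ≤ Δ then (({0} ×ˢ Icc (-(L : ℤ)) L) ∪ (Icc (-(L : ℤ)) L ×ˢ {0})) else
          (∅ : Finset (ℤ × ℤ))).card : ℝ) := by
      exact_mod_cast (card_le_card e1).trans (card_union_le _ _)
    refine h4.trans (add_le_add h3 ?_)
    split_ifs with h5
    · have h6 : (Icc (-(L : ℤ)) L).card = 2 * L + 1 := by
        rw [Int.card_Icc]; omega
      have h7 : ((({0} : Finset ℤ) ×ˢ Icc (-(L : ℤ)) L) ∪ (Icc (-(L : ℤ)) L ×ˢ {0})).card ≤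
          2 * (2 * L + 1) := by
        refine (card_union_le _ _).trans ?_
        rw [card_product, card_product, h6]
        simp
        omega
      exact_mod_cast h7
    · simp
  have hS4c : (S4.card : ℝ) ≤ 9 * L := by
    rw [hS4, Int.card_Icc]
    have : (4 * (L : ℤ) + 1 - -(4 * (L : ℤ))).toNat = 8 * L + 1 := by omega
    rw [this]
    push_cast
    linarith
  have hsc : ((S4.filter fun s : ℤ => |(s : ℝ)| ≤ Δ).card : ℝ) ≤ 2 * Δ + 1 := by
    refine le_trans ?_ (card_int 0 Δ hΔ)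
    have : (S4.filter fun s : ℤ => |(s : ℝ)| ≤ Δ) ⊆ Icc ⌈0 - Δ⌉ ⌊0 + Δ⌋ := by
      intro s hs
      rw [mem_filter] at hs
      rw [mem_Icc]
      constructor
      · apply Int.ceil_le.2
        linarith [(abs_le.1 hs.2).1]
      · apply Int.le_floor.2
        linarith [(abs_le.1 hs.2).2]
    exact_mod_cast card_le_card this
  have hJ0 : (0 : ℝ) ≤ J.card := by positivity
  calc (Q.card : ℝ) ≤ ((J.sigma fun ξ => S4.sigma fun s => A ξ s).card : ℝ) := by
        exact_mod_cast hinj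
    _ = ∑ ξ ∈ J, ∑ s ∈ S4, ((A ξ s).card : ℝ) := by
        rw [card_sigma]
        push_cast
        apply sum_congr rfl
        intro ξ _
        rw [card_sigma]
        push_cast
        rfl
    _ ≤ ∑ ξ ∈ J, ∑ s ∈ S4, ((2 * Δ + 1) * (2 * D) +
        (if |(s : ℝ)| ≤ Δ then 2 * (2 * (L : ℝ) + 1) else 0)) :=
        sum_le_sum fun ξ hξ => sum_le_sum fun s hs => hinner ξ hξ s hs
    _ = J.card * (S4.card * ((2 * Δ + 1) * (2 * D)) +
        ((S4.filter fun s : ℤ => |(s : ℝ)| ≤ Δ).card : ℝ) * (2 * (2 * (L : ℝ) + 1))) := by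
        rw [sum_const, nsmul_eq_mul, sum_add_distrib, sum_const, nsmul_eq_mul, ← sum_filter,
          sum_const, nsmul_eq_mul]
    _ ≤ J.card * ((9 * L) * ((2 * Δ + 1) * (2 * D)) + (2 * Δ + 1) * (2 * (2 * (L : ℝ) + 1))) := by
        gcongr
    _ = J.card * ((2 * Δ + 1) * (18 * (L * D) + (4 * L + 2))) := by ring
    _ ≤ J.card * ((2 * Δ + 1) * (24 * (L * D))) := by
        have h5 : (L : ℝ) ≤ L * D := le_mul_of_one_le_right (by linarith) hD1
        gcongr
        linarith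
    _ = _ := by ring

end Pool.Agent.KS6_54.ML
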