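import Pool.Agent.KS6_54.ML.Add

set_option autoImplicit false

/-!
# Additive characters: fourth moments
-/

open Finset MeasureTheory

namespace Pool.Agent.KS6_54.ML

open Pool.Agent.W200.MR (pw)
open Pool.Agent.TH445.MQ (pw_norm pw_add)

theorem dbl_add {N X : ℕ} (hN : 2 ≤ N) (hNX : N ≤ X)
    (hX2 : X ≤ N ^ 2) {Z : ℝ} (hZ : 1 ≤ Z) (hZN : Z ≤ N) (hZX : 8 * Z ^ 2 ≤ X)
    (hNZX : N * Z ≤ X) (hexp : (N : ℝ) ^ 10 ≤ Real.exp (Z / 16)) (θ : ℝ) (D : ℝ)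
    (hD : ∀ n : ℕ, 1 ≤ n → n ≤ (N ^ 3) ^ 2 → (n.divisors.card : ℝ) ≤ D) :
    dbl (IM (X / (N * Z)) (Z * X / N) (fun _ : Fin 1 => θ) ×ˢ
      IM (X / (N * Z)) (Z * X / N) (fun _ : Fin 1 => θ))
      (X / ⌈Z⌉₊) (fun p => ‖cv (fun _ : Fin 1 => (1 : ℂ)) p.1‖ * ‖cv (fun _ : Fin 1 => (1 : ℂ)) p.2‖)
      (lm N (yv (fun _ : Fin 1 => θ))) ≤
      3360 * Z ^ 8 * D * (Z * X / N) ^ 2 + 16 := by
  classical
  have hN1n : 1 ≤ N := by omega
  have hN1 : (1 : ℝ) ≤ N := by exact_mod_cast hN1n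
  have hN0 : (0 : ℝ) < N := by linarith
  have hN2r : (2 : ℝ) ≤ N := by exact_mod_cast hN
  have hX0 : (0 : ℝ) < X := by exact_mod_cast (by omega : 0 < X)
  have hXN : (N : ℝ) ≤ X := by exact_mod_cast hNX
  have hX2r : (X : ℝ) ≤ (N : ℝ) ^ 2 := by exact_mod_cast hX2
  have hZ0 : 0 < Z := by linarith
  have hp := Real.pi_gt_three
  set Y0 : ℝ := X / (N * Z) with hY0
  set Y1 : ℝ := Z * X / N with hY1
  have hY01 : 1 ≤ Y0 := by rw [hY0, le_div_iff₀ (by positivity)]; linarith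
  have hY00 : 0 < Y0 := by linarith
  have hY11 : 1 ≤ Y1 := by
    rw [hY1, le_div_iff₀ hN0]
    nlinarith
  set th : Fin 1 → ℝ := fun _ => θ with hth
  set I := IM Y0 Y1 th with hI
  have hmem : ∀ i ∈ I, Y0 ≤ yv th i ∧ yv th i ≤ Y1 := by
    intro i hi
    rw [hI] at hi
    unfold IM at hi
    rw [mem_sigma] at hi
    exact mem_MR.1 hi.2
  have hpos : ∀ i ∈ I, 0 < yv th i := fun i hi => lt_of_lt_of_le hY00 (hmem i hi).1
  set Δ₀ : ℝ := 2 * Z ^ 2 / X with hΔ₀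
  have hΔ₀0 : 0 ≤ Δ₀ := by positivity
  have hΔ₀1 : Δ₀ ≤ 1 / 4 := by
    rw [hΔ₀, div_le_div_iff₀ hX0 (by norm_num)]
    linarith
  set δ : ℝ := 1 / (2 * Real.pi * N) with hδ
  have hδ0 : 0 ≤ δ := by positivity
  have hδ2 : δ ≤ 1 := by
    rw [hδ, div_le_one (by positivity)]
    nlinarith
  have hδ1 : δ ≤ Y1 := by linarith
  set Δ : ℝ := 17 * Z ^ 8 with hΔ
  have hΔn : 0 ≤ Δ := by positivity
  set J := MR Y0 Y1 θ with hJ
  have hJmem : ∀ ξ ∈ J, Y0 ≤ (ξ : ℝ) - θ ∧ (ξ : ℝ) - θ ≤ Y1 := fun ξ hξ => mem_MR.1 hξ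
  set L : ℕ := ⌈Y1⌉₊ with hL
  have hLY : Y1 ≤ L := Nat.le_ceil _
  have hLY2 : (L : ℝ) ≤ 2 * Y1 := by
    have := Nat.ceil_lt_add_one (by linarith : 0 ≤ Y1)
    linarith
  have hL1 : 1 ≤ L := by
    have : (1 : ℝ) ≤ L := by linarith
    exact_mod_cast this
  have hY1N : Y1 ≤ (N : ℝ) ^ 2 := by
    rw [hY1, div_le_iff₀ hN0]
    calc Z * X ≤ N * (N : ℝ) ^ 2 := mul_le_mul hZN hX2r hX0.le hN0.le
      _ = _ := by ring
  have hLN : L ≤ N ^ 3 := by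
    have : (L : ℝ) ≤ (N : ℝ) ^ 3 := by nlinarith [sq_nonneg (N : ℝ)]
    exact_mod_cast this
  have hquad := cnt_quad J θ L hL1 (fun ξ hξ => hY01.trans (hJmem ξ hξ).1)
    (fun ξ hξ => (hJmem ξ hξ).2.trans hLY) D
    (fun n h1 h2 => hD n h1 (h2.trans (Nat.pow_le_pow_left hLN 2))) Δ hΔn
  have hD1 : 1 ≤ D := by
    have := hD 1 le_rfl (Nat.one_le_pow _ _ (Nat.one_le_pow _ _ hN1n))
    simpa using this
  have hdbl := dbl_le_card (I ×ˢ I) (X / ⌈Z⌉₊) Δ₀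
    (fun p => ‖cv (fun _ : Fin 1 => (1 : ℂ)) p.1‖ * ‖cv (fun _ : Fin 1 => (1 : ℂ)) p.2‖)
    (lm N (yv th)) (fun p _ => by positivity) (fun p _ => by simp [cv]) hΔ₀0
  refine hdbl.trans ?_
  have hJc : (J.card : ℝ) ≤ 2 * Y1 := card_MR hY00.le hY11
  apply add_le_add
  · have hcard : (((I ×ˢ I) ×ˢ (I ×ˢ I)).filter fun p => |lm N (yv th) p.1 - lm N (yv th) p.2| ≤
        Δ₀).card ≤ (((J ×ˢ J) ×ˢ (J ×ˢ J)).filter fun p : (ℤ × ℤ) × (ℤ × ℤ) =>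
        |((p.1.1 : ℝ) - θ) * (p.1.2 - θ) - (p.2.1 - θ) * (p.2.2 - θ)| ≤ Δ).card := by
      apply card_le_card_of_injOn (fun p => ((p.1.1.2, p.1.2.2), (p.2.1.2, p.2.2.2)))
      · intro p hp
        rw [mem_coe, mem_filter, mem_product, mem_product, mem_product] at hp
        obtain ⟨⟨⟨a1, a2⟩, ⟨a3, a4⟩⟩, h⟩ := hp
        rw [mem_coe, mem_filter, mem_product, mem_product, mem_product]
        have hJI : ∀ i ∈ I, i.2 ∈ J := by
          intro i hi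
          rw [hJ, mem_MR]
          exact hmem i hi
        refine ⟨⟨⟨hJI _ a1, hJI _ a2⟩, ⟨hJI _ a3, hJI _ a4⟩⟩, ?_⟩
        simp only
        have q1 := hpos _ a1
        have q2 := hpos _ a2
        have q3 := hpos _ a3
        have q4 := hpos _ a4
        unfold lm at h
        rw [log_zc hN1n q1, log_zc hN1n q2, log_zc hN1n q3, log_zc hN1n q4] at h
        have h2 := near_diff (Δ₀ := Δ₀) hY00 hδ0 hδ1 (hmem _ a1).1 (hmem _ a2).1 (hmem _ a3).1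
          (hmem _ a4).1 (hmem _ a1).2 (hmem _ a2).2 (hmem _ a3).2 (hmem _ a4).2 hΔ₀1 (by
            rw [abs_le] at h ⊢
            constructor
            · linarith [h.1]
            · linarith [h.2])
        refine h2.trans ?_
        have e2 : (8 * Δ₀ * Y1 ^ 4 + δ ^ 2 * Y1 ^ 2) / Y0 ^ 2 =
            16 * Z ^ 8 * (X / N ^ 2) + δ ^ 2 * Z ^ 4 := by
          rw [hΔ₀, hY0, hY1]
          field_simp
          ring
        rw [e2, hΔ]
        have a5 : (X : ℝ) / (N : ℝ) ^ 2 ≤ 1 := by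
          rw [div_le_one (by positivity)]
          exact hX2r
        have a6 : δ ^ 2 ≤ 1 := pow_le_one₀ hδ0 hδ2
        have a7 : Z ^ 4 ≤ Z ^ 8 := pow_le_pow_right₀ hZ (by norm_num)
        have a8 : 0 < Z ^ 8 := by positivity
        have a9 : 0 < Z ^ 4 := by positivity
        nlinarith
      · intro p hp p' hp' h
        simp only [Prod.mk.injEq] at h
        obtain ⟨⟨b1, b2⟩, ⟨b3, b4⟩⟩ := h
        have hsig : ∀ i i' : Σ _ : Fin 1, ℤ, i.2 = i'.2 → i = i' := by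
          rintro ⟨r, ξ⟩ ⟨r', ξ'⟩ h
          simp only at h
          have : r = r' := Subsingleton.elim _ _
          rw [this, h]
        exact Prod.ext (Prod.ext (hsig _ _ b1) (hsig _ _ b2)) (Prod.ext (hsig _ _ b3) (hsig _ _ b4))
    calc ((((I ×ˢ I) ×ˢ (I ×ˢ I)).filter fun p => |lm N (yv th) p.1 - lm N (yv th) p.2| ≤
        Δ₀).card : ℝ) ≤ 24 * J.card * L * D * (2 * Δ + 1) := le_trans (by exact_mod_cast hcard) hquad
      _ ≤ 24 * (2 * Y1) * (2 * Y1) * D * (35 * Z ^ 8) := by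
          have h9 : 2 * Δ + 1 ≤ 35 * Z ^ 8 := by
            have : 1 ≤ Z ^ 8 := one_le_pow₀ hZ
            rw [hΔ]; linarith
          have h10 : 0 ≤ 2 * Δ + 1 := by positivity
          gcongr
      _ = 3360 * Z ^ 8 * D * Y1 ^ 2 := by ring
  · have hceil : (⌈Z⌉₊ : ℝ) ≤ 2 * Z := by
      have := Nat.ceil_lt_add_one hZ0.le
      linarith
    have hc0 : (0 : ℝ) < ⌈Z⌉₊ := by
      have := Nat.le_ceil Z
      linarith
    have h1 : Z ≤ X / ⌈Z⌉₊ * Δ₀ := by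
      have : X / (⌈Z⌉₊ : ℝ) * Δ₀ = 2 * Z ^ 2 / ⌈Z⌉₊ := by rw [hΔ₀]; field_simp
      rw [this, le_div_iff₀ hc0]
      nlinarith
    have h2 : Real.exp (-((X / (⌈Z⌉₊ : ℝ)) ^ 2 * Δ₀ ^ 2 / 2)) ≤ ((N : ℝ) ^ 12)⁻¹ := by
      have h3 : Z ≤ (X / (⌈Z⌉₊ : ℝ)) ^ 2 * Δ₀ ^ 2 := by
        rw [← mul_pow]
        nlinarith
      have h4 : Real.exp (-((X / (⌈Z⌉₊ : ℝ)) ^ 2 * Δ₀ ^ 2 / 2)) ≤ Real.exp (-(Z / 2)) := by
        apply Real.exp_le_exp.2
        linarith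
      refine h4.trans ?_
      rw [Real.exp_neg]
      apply inv_anti₀ (by positivity)
      calc (N : ℝ) ^ 12 ≤ ((N : ℝ) ^ 10) ^ 8 := by
            rw [← pow_mul]
            exact pow_le_pow_right₀ hN1 (by norm_num)
        _ ≤ (Real.exp (Z / 16)) ^ 8 := pow_le_pow_left₀ (by positivity) hexp 8
        _ = Real.exp (Z / 2) := by
            rw [← Real.exp_nat_mul]
            congr 1
            push_cast
            ring
    have hIc : (I.card : ℝ) ≤ 2 * (N : ℝ) ^ 2 := by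
      have e1 : I.card = J.card := by
        rw [hI]
        unfold IM
        rw [card_sigma]
        simp [hth, hJ]
      rw [e1]
      exact hJc.trans (by linarith)
    rw [card_product]
    push_cast
    calc Real.exp (-((X / (⌈Z⌉₊ : ℝ)) ^ 2 * Δ₀ ^ 2 / 2)) * ((I.card : ℝ) * I.card) ^ 2
        ≤ ((N : ℝ) ^ 12)⁻¹ * ((2 * (N : ℝ) ^ 2) * (2 * (N : ℝ) ^ 2)) ^ 2 := by
          apply mul_le_mul h2 _ (by positivity) (by positivity)
          apply pow_le_pow_left₀ (by positivity)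
          exact mul_le_mul hIc hIc (by positivity) (by positivity)
      _ ≤ ((N : ℝ) ^ 12)⁻¹ * (16 * (N : ℝ) ^ 12) := by
          apply mul_le_mul_of_nonneg_left _ (by positivity)
          have : (N : ℝ) ^ 8 ≤ (N : ℝ) ^ 12 := pow_le_pow_right₀ hN1 (by norm_num)
          calc ((2 * (N : ℝ) ^ 2) * (2 * (N : ℝ) ^ 2)) ^ 2 = 16 * (N : ℝ) ^ 8 := by ring
            _ ≤ _ := by linarith
      _ = 16 := by
          field_simp

/-- **The fourth moment for additive characters over dyadic blocks, uniformly in the character.** -/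
theorem add_block (e : ℝ) (he : 0 < e) (he1 : e ≤ 1 / 4) : ∃ C : ℝ, 1 ≤ C ∧ ∃ N₀ : ℕ, 64 ≤ N₀ ∧
    ∀ N X : ℕ, N₀ ≤ N → (N : ℝ) ^ (1 + 3 * e) ≤ X → X ≤ N ^ 2 → ∀ θ : ℝ,
      ∀ g : ℕ → ℂ, (∀ n ∈ Icc N (2 * N), ‖g n‖ ≤ 1) →
      ∑ t ∈ Icc X (2 * X), ‖∑ n ∈ Icc N (2 * N), ee (θ * n) * g n * pw (t : ℝ) n‖ ^ 4 ≤
        C * (1 + tv N g) ^ 4 * (N : ℝ) ^ (17 * e) * (X * (N : ℝ) ^ 2) := by
  obtain ⟨C1, hC1, N₀, hN₀, hexp, hB⟩ := block e he he1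
  obtain ⟨C2, hC2, hdiv⟩ := Pool.Agent.H510R2.divisor_bound e he
  refine ⟨C1 * (3360 * (C2 + 1) + 17), by nlinarith, N₀, hN₀, ?_⟩
  intro N X hN hX hX2 θ g hg
  have hN64 : 64 ≤ N := hN₀.trans hN
  have hN1n : 1 ≤ N := by omega
  have hN1 : (1 : ℝ) ≤ N := by exact_mod_cast hN1n
  have hN0 : (0 : ℝ) < N := by linarith
  have hNX : N ≤ X := by
    have : (N : ℝ) ≤ X := by
      refine le_trans ?_ hX
      calc (N : ℝ) = (N : ℝ) ^ (1 : ℝ) := (Real.rpow_one _).symm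
        _ ≤ _ := Real.rpow_le_rpow_of_exponent_le hN1 (by linarith)
    exact_mod_cast this
  have hX0 : (0 : ℝ) < X := by exact_mod_cast (by omega : 0 < X)
  have hNXr : (N : ℝ) ≤ X := by exact_mod_cast hNX
  set Z := (N : ℝ) ^ e with hZ
  have hZ1 : 1 ≤ Z := Real.one_le_rpow hN1 he.le
  have hZ0 : 0 < Z := by linarith
  have hZN : Z ≤ N := by
    calc Z ≤ (N : ℝ) ^ (1 : ℝ) := Real.rpow_le_rpow_of_exponent_le hN1 (by linarith)
      _ = N := Real.rpow_one _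
  have hNZX : N * Z ≤ X := by
    refine le_trans ?_ hX
    calc N * Z = (N : ℝ) ^ (1 + e) := by rw [hZ, Real.rpow_add hN0, Real.rpow_one]
      _ ≤ _ := Real.rpow_le_rpow_of_exponent_le hN1 (by linarith)
  have hZX : 8 * Z ^ 2 ≤ X := by
    refine le_trans ?_ hX
    have h1 : (8 : ℝ) ≤ N := by exact_mod_cast (by omega : 8 ≤ N)
    calc 8 * Z ^ 2 ≤ N * Z ^ 2 := mul_le_mul_of_nonneg_right h1 (by positivity)
      _ = (N : ℝ) ^ (1 + 2 * e) := by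
          rw [hZ, ← Real.rpow_natCast, ← Real.rpow_mul hN0.le, Real.rpow_add hN0, Real.rpow_one]
          congr 2
          push_cast
          ring
      _ ≤ _ := Real.rpow_le_rpow_of_exponent_le hN1 (by linarith)
  set D : ℝ := (C2 + 1) * (N : ℝ) ^ (6 * e) with hD
  have hDb : ∀ n : ℕ, 1 ≤ n → n ≤ (N ^ 3) ^ 2 → (n.divisors.card : ℝ) ≤ D := by
    intro n h1 h2
    refine (hdiv n h1).trans ?_
    rw [hD]
    have h3 : (n : ℝ) ≤ (N : ℝ) ^ 6 := by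
      have : n ≤ N ^ 6 := h2.trans (le_of_eq (by ring))
      exact_mod_cast this
    have h4 : (n : ℝ) ^ e ≤ (N : ℝ) ^ (6 * e) := by
      calc (n : ℝ) ^ e ≤ ((N : ℝ) ^ 6) ^ e := Real.rpow_le_rpow (by positivity) h3 he.le
        _ = (N : ℝ) ^ (6 * e) := by
            rw [← Real.rpow_natCast, ← Real.rpow_mul hN0.le]
            norm_num
    exact mul_le_mul (by linarith) h4 (by positivity) (by positivity)
  have hd := dbl_add (by omega) hNX hX2 hZ1 hZN hZX hNZX (hexp N hN) θ D hDb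
  have hbco : ∀ n : ℕ, bco (fun _ : Fin 1 => θ) (fun _ => (1 : ℂ)) n = ee (θ * n) := by
    intro n
    unfold bco
    simp
  have hblk := hB hN hX hX2 (m := 1) hN1n (fun _ => θ) (fun _ => 1) (fun _ => by simp) (by
    intro n; rw [hbco, ee_norm]) g hg
  simp_rw [hbco] at hblk
  refine hblk.trans ?_
  set DB := dbl (IM (X / (N * Z)) (Z * X / N) (fun _ : Fin 1 => θ) ×ˢ
      IM (X / (N * Z)) (Z * X / N) (fun _ : Fin 1 => θ))
      (X / ⌈Z⌉₊) (fun p => ‖cv (fun _ : Fin 1 => (1 : ℂ)) p.1‖ * ‖cv (fun _ : Fin 1 => (1 : ℂ)) p.2‖)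
      (lm N (yv (fun _ : Fin 1 => θ))) with hDB
  set G : ℝ := X * (N : ℝ) ^ 2 with hG
  have hG0 : 0 < G := by positivity
  have hD1 : 1 ≤ D := by
    have := hDb 1 le_rfl (Nat.one_le_pow _ _ (Nat.one_le_pow _ _ hN1n))
    simpa using this
  have h1 : (N : ℝ) ^ 4 / X * DB + X ≤ (3360 * (C2 + 1) + 17) * (N : ℝ) ^ (16 * e) * G := by
    have h2 : (N : ℝ) ^ 4 / X * DB ≤ (N : ℝ) ^ 4 / X *
        (3360 * Z ^ 8 * D * (Z * X / N) ^ 2 + 16) :=
      mul_le_mul_of_nonneg_left hd (by positivity)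
    have h3 : (N : ℝ) ^ 4 / X *
        (3360 * Z ^ 8 * D * (Z * X / N) ^ 2 + 16) =
        3360 * (Z ^ 10 * D) * G + 16 * ((N : ℝ) ^ 4 / X) := by
      rw [hG]
      field_simp
    have h4 : Z ^ 10 * D = (C2 + 1) * (N : ℝ) ^ (16 * e) := by
      rw [hD, hZ, ← Real.rpow_natCast ((N : ℝ) ^ e), ← Real.rpow_mul hN0.le, mul_left_comm,
        ← Real.rpow_add hN0]
      congr 2
      push_cast
      ring
    have h5 : (N : ℝ) ^ 4 / X ≤ G := by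
      rw [div_le_iff₀ hX0, hG]
      have : (N : ℝ) ^ 4 ≤ (N : ℝ) ^ 2 * (X : ℝ) ^ 2 := by
        have a1 : (N : ℝ) ^ 2 ≤ (X : ℝ) ^ 2 := pow_le_pow_left₀ hN0.le hNXr 2
        nlinarith [sq_nonneg (N : ℝ)]
      nlinarith
    have h6 : (X : ℝ) ≤ G := by
      rw [hG]
      have a1 : 1 ≤ (N : ℝ) ^ 2 := one_le_pow₀ hN1
      nlinarith
    have h7 : 1 ≤ (N : ℝ) ^ (16 * e) := Real.one_le_rpow hN1 (by positivity)
    calc (N : ℝ) ^ 4 / X * DB + X ≤ 3360 * (Z ^ 10 * D) * G + 16 * ((N : ℝ) ^ 4 / X) + X := by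
          linarith
      _ ≤ 3360 * ((C2 + 1) * (N : ℝ) ^ (16 * e)) * G + 16 * G + G := by
          rw [h4]
          linarith
      _ ≤ (3360 * (C2 + 1) + 17) * (N : ℝ) ^ (16 * e) * G := by
          nlinarith
  have hV0 := tv_nonneg N g
  calc C1 * (1 + tv N g) ^ 4 * Z * ((N : ℝ) ^ 4 / X * DB + X)
      ≤ C1 * (1 + tv N g) ^ 4 * Z * ((3360 * (C2 + 1) + 17) * (N : ℝ) ^ (16 * e) * G) :=
        mul_le_mul_of_nonneg_left h1 (by positivity)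
    _ = C1 * (3360 * (C2 + 1) + 17) * (1 + tv N g) ^ 4 * (Z * (N : ℝ) ^ (16 * e)) * G := by ring
    _ = C1 * (3360 * (C2 + 1) + 17) * (1 + tv N g) ^ 4 * (N : ℝ) ^ (17 * e) * G := by
        rw [hZ, ← Real.rpow_add hN0]
        congr 3
        ring

end Pool.Agent.KS6_54.ML
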