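import Pool.Agent.KS6_54.ML.Add2

set_option autoImplicit false

/-!
# Additive characters: the conclusion, with twists `n^{iu}`
-/

open Finset MeasureTheory

namespace Pool.Agent.KS6_54.ML

open Pool.Agent.W200.MR (pw)
open Pool.Agent.TH445.MQ (pw_norm pw_add)

/-- **The conclusion, for twice the length.** -/
theorem conclude2 (q ε : ℝ) (hq : 2 ≤ q) (hε : 0 < ε) (δ : ℝ) (hδ : 0 < δ) (hδ1 : δ ≤ 1)
    (hδε : 18 * δ ≤ ε) : ∃ K : ℝ, 0 ≤ K ∧
    ∀ (N T : ℕ) (b : ℕ → ℂ) (P : ℝ), 1 ≤ N → N ≤ T → T ≤ N ^ 2 → 1 ≤ P →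
      (∀ n ∈ Icc N (2 * N), ‖b n‖ ≤ 1) →
      (∀ X : ℕ, (N : ℝ) ^ (1 + 3 * δ) ≤ X → X ≤ T →
        (q ≤ 4 ∧ ∑ t ∈ Icc X (2 * X), ‖∑ n ∈ Icc N (2 * N), b n * pw (t : ℝ) n‖ ^ 4 ≤
          P * (X * (N : ℝ) ^ 2)) ∨
        (4 ≤ q ∧ ∑ t ∈ Icc X (2 * X), ‖∑ n ∈ Icc N (2 * N), b n * pw (t : ℝ) n‖ ^ 4 ≤
          P * (N : ℝ) ^ 4)) →
      ∑ t ∈ Icc 1 (2 * T), ‖∑ n ∈ Icc N (2 * N), b n * pw (t : ℝ) n‖ ^ q ≤
        K * P * (N : ℝ) ^ ε * ((N : ℝ) ^ q + (N : ℝ) ^ (q / 2) * T) := by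
  obtain ⟨K1, hK1, hs⟩ := small_part q δ hq hδ hδ1
  obtain ⟨K2, hK2, hc⟩ := conclude q ε hq hε δ hδ hδ1 hδε
  refine ⟨K1 + K2 + 2 ^ q, by positivity, ?_⟩
  intro N T b P hN hNT hT2 hP hb h
  have hN1 : (1 : ℝ) ≤ N := by exact_mod_cast hN
  have hN0 : (0 : ℝ) < N := by linarith
  set F : ℕ → ℝ := fun t => ‖∑ n ∈ Icc N (2 * N), b n * pw (t : ℝ) n‖ ^ q with hF
  have hF0 : ∀ t, 0 ≤ F t := fun t => by rw [hF]; positivity
  set R := (N : ℝ) ^ q + (N : ℝ) ^ (q / 2) * T with hR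
  have hR0 : 0 ≤ R := by positivity
  have hNε : 1 ≤ (N : ℝ) ^ ε := Real.one_le_rpow hN1 hε.le
  set X₀ := ⌈(N : ℝ) ^ (1 + 3 * δ)⌉₊ with hX₀
  have hX₀r : (N : ℝ) ^ (1 + 3 * δ) ≤ X₀ := Nat.le_ceil _
  have hone : 1 ≤ (N : ℝ) ^ (1 + 3 * δ) := Real.one_le_rpow hN1 (by positivity)
  have hX₀2 : (X₀ : ℝ) ≤ 2 * (N : ℝ) ^ (1 + 3 * δ) := by
    have := Nat.ceil_lt_add_one (by positivity : 0 ≤ (N : ℝ) ^ (1 + 3 * δ))
    linarith
  have hNX₀ : N ≤ X₀ := by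
    have : (N : ℝ) ≤ X₀ := by
      refine le_trans ?_ hX₀r
      calc (N : ℝ) = (N : ℝ) ^ (1 : ℝ) := (Real.rpow_one _).symm
        _ ≤ _ := Real.rpow_le_rpow_of_exponent_le hN1 (by linarith)
    exact_mod_cast this
  have hPR : 0 ≤ P * (N : ℝ) ^ ε * R := by positivity
  rcases lt_or_ge T X₀ with hT | hT
  · have h1 : ∑ t ∈ Icc 1 (2 * T), F t ≤ ∑ t ∈ Icc 1 (2 * X₀), F t :=
      sum_le_sum_of_subset_of_nonneg (Icc_subset_Icc le_rfl (by omega)) fun t _ _ => hF0 t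
    have h2 := hs N X₀ hN hNX₀ hX₀2 b hb
    have a1 : (N : ℝ) ^ (q + 18 * δ) ≤ P * (N : ℝ) ^ ε * R := by
      calc (N : ℝ) ^ (q + 18 * δ) ≤ (N : ℝ) ^ (q + ε) :=
            Real.rpow_le_rpow_of_exponent_le hN1 (by linarith)
        _ = (N : ℝ) ^ ε * (N : ℝ) ^ q := by rw [← Real.rpow_add hN0]; congr 1; ring
        _ ≤ (N : ℝ) ^ ε * R := by
            apply mul_le_mul_of_nonneg_left _ (by positivity)
            have : 0 ≤ (N : ℝ) ^ (q / 2) * T := by positivity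
            linarith
        _ = 1 * ((N : ℝ) ^ ε * R) := (one_mul _).symm
        _ ≤ P * ((N : ℝ) ^ ε * R) := mul_le_mul_of_nonneg_right hP (by positivity)
        _ = _ := by ring
    calc ∑ t ∈ Icc 1 (2 * T), F t ≤ K1 * (N : ℝ) ^ (q + 18 * δ) := h1.trans h2
      _ ≤ K1 * (P * (N : ℝ) ^ ε * R) := mul_le_mul_of_nonneg_left a1 hK1
      _ ≤ _ := by
          have : 0 ≤ (K2 + 2 ^ q) * (P * (N : ℝ) ^ ε * R) := by positivity
          nlinarith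
  · have hTr : (N : ℝ) ^ (1 + 3 * δ) ≤ T := hX₀r.trans (by exact_mod_cast hT)
    have h1 := hc N T b P hN hNT hT2 hP hb h
    have h2 := four_to_q q hq N T T hN (by omega) le_rfl b hb P hP (h T hTr le_rfl)
    have h3 : ∑ t ∈ Icc 1 (2 * T), F t ≤ ∑ t ∈ Icc 1 T, F t + ∑ t ∈ Icc T (2 * T), F t := by
      have h4 : ∑ t ∈ Icc 1 (2 * T), F t ≤ ∑ t ∈ Icc 1 T ∪ Icc T (2 * T), F t := by
        apply sum_le_sum_of_subset_of_nonneg
        · intro t ht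
          rw [mem_union, mem_Icc, mem_Icc]
          rw [mem_Icc] at ht
          omega
        · intro t _ _
          exact hF0 t
      refine h4.trans ?_
      have h5 := sum_union_inter (s₁ := Icc 1 T) (s₂ := Icc T (2 * T)) (f := F)
      have h6 : 0 ≤ ∑ t ∈ Icc 1 T ∩ Icc T (2 * T), F t := sum_nonneg fun t _ => hF0 t
      linarith
    calc ∑ t ∈ Icc 1 (2 * T), F t ≤ K2 * P * (N : ℝ) ^ ε * R + 2 ^ q * P * R :=
          h3.trans (add_le_add h1 h2)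
      _ ≤ _ := by
          have b1 : 0 ≤ K1 * (P * (N : ℝ) ^ ε * R) := by positivity
          have b2 : 2 ^ q * P * R ≤ 2 ^ q * (P * (N : ℝ) ^ ε * R) := by
            have : 0 ≤ 2 ^ q * (P * R) := by positivity
            nlinarith
          nlinarith

lemma pw_zero (n : ℕ) : pw 0 n = 1 := by
  unfold Pool.Agent.W200.MR.pw
  simp

lemma pw_conj (τ : ℝ) (n : ℕ) : (starRingEnd ℂ) (pw τ n) = pw (-τ) n := by
  unfold Pool.Agent.W200.MR.pw
  rw [← Complex.exp_conj, map_mul, Complex.conj_ofReal, Complex.conj_I]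
  congr 1
  push_cast
  ring

lemma tv_pw (N : ℕ) (hN : 1 ≤ N) {u : ℝ} (hu : 0 ≤ u) (hu1 : u ≤ 1) :
    ∑ n ∈ Ioc N (2 * N), ‖pw u n - pw u (n - 1)‖ ≤ 1 := by
  have hN0 : (0 : ℝ) < N := by exact_mod_cast hN
  have h1 : ∀ n ∈ Ioc N (2 * N), ‖pw u n - pw u (n - 1)‖ ≤
      (-Real.log ((n - 1 : ℕ) : ℝ)) - (-Real.log (n : ℝ)) := by
    intro n hn
    rw [mem_Ioc] at hn
    have hn1 : (0 : ℝ) < ((n - 1 : ℕ) : ℝ) := by exact_mod_cast (by omega : 0 < n - 1)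
    have hlog : Real.log ((n - 1 : ℕ) : ℝ) ≤ Real.log (n : ℝ) :=
      Real.log_le_log hn1 (by exact_mod_cast Nat.sub_le n 1)
    have e1 : pw u n - pw u (n - 1) = pw u (n - 1) *
        (Complex.exp (((u * (Real.log n - Real.log ((n - 1 : ℕ) : ℝ)) : ℝ) : ℂ) * Complex.I) - 1) := by
      unfold Pool.Agent.W200.MR.pw
      rw [mul_sub, mul_one, ← Complex.exp_add]
      congr 2
      push_cast
      ring
    rw [e1, norm_mul, pw_norm, one_mul]
    set x := u * (Real.log n - Real.log ((n - 1 : ℕ) : ℝ)) with hx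
    have hx0 : 0 ≤ x := mul_nonneg hu (by linarith)
    have h2 : ‖Complex.exp ((x : ℂ) * Complex.I) - 1‖ ≤ ‖x‖ := by
      have := Real.norm_exp_I_mul_ofReal_sub_one_le (x := x)
      rwa [mul_comm] at this
    refine h2.trans ?_
    rw [Real.norm_of_nonneg hx0, hx]
    have h3 : 0 ≤ Real.log n - Real.log ((n - 1 : ℕ) : ℝ) := by linarith
    nlinarith
  refine (sum_le_sum h1).trans ?_
  rw [rtele N (fun n => -Real.log (n : ℝ)) (2 * N) (by omega)]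
  push_cast
  rw [Real.log_mul (by norm_num) hN0.ne']
  have := Real.log_two_lt_d9
  linarith

/-- total variation of a product -/
lemma tv_mul (N : ℕ) (g h : ℕ → ℂ) (hg : ∀ n ∈ Icc N (2 * N), ‖g n‖ ≤ 1)
    (hh : ∀ n ∈ Icc N (2 * N), ‖h n‖ ≤ 1) :
    tv N (fun n => g n * h n) ≤ tv N g + tv N h := by
  unfold tv
  rw [← sum_add_distrib]
  apply sum_le_sum
  intro n hn
  rw [mem_Ioc] at hn
  have h1 := hg (n - 1) (mem_Icc.2 (by omega))
  have h2 := hh n (mem_Icc.2 (by omega))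
  have e : g n * h n - g (n - 1) * h (n - 1) = (g n - g (n - 1)) * h n + g (n - 1) * (h n - h (n - 1)) := by
    ring
  rw [e]
  refine (norm_add_le _ _).trans ?_
  rw [norm_mul, norm_mul]
  have h3 := norm_nonneg (g n - g (n - 1))
  have h4 := norm_nonneg (h n - h (n - 1))
  exact add_le_add (mul_le_of_le_one_right h3 h2) (mul_le_of_le_one_left h4 h1)

/-- the moments for one additive character, integer points up to `2T` -/
theorem add_two (q ε : ℝ) (hq : 2 ≤ q) (hε : 0 < ε) : ∃ K : ℝ, 0 ≤ K ∧ ∀ (N T : ℕ), 1 ≤ N →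
    N ≤ T → T ≤ N ^ 2 → ∀ (θ : ℝ) (g : ℕ → ℂ), (∀ n ∈ Icc N (2 * N), ‖g n‖ ≤ 1) →
    ∑ t ∈ Icc 1 (2 * T), ‖∑ n ∈ Icc N (2 * N), ee (θ * n) * g n * pw (t : ℝ) n‖ ^ q ≤
      K * (1 + tv N g) ^ 4 * (N : ℝ) ^ ε * ((N : ℝ) ^ q + (N : ℝ) ^ (q / 2) * (T : ℝ)) := by
  set e : ℝ := min (ε / 40) (1 / 4) with he
  have he0 : 0 < e := by rw [he]; positivity
  have he1 : e ≤ 1 / 4 := min_le_right _ _
  have he2 : e ≤ ε / 40 := min_le_left _ _
  obtain ⟨C, hC, N₀, hN₀, hB⟩ := add_block e he0 he1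
  obtain ⟨K1, hK1, hc⟩ := conclude2 q (ε / 2) hq (by positivity) e he0 (by linarith)
    (by linarith)
  refine ⟨K1 * C + 2 * (N₀ : ℝ) ^ 2 * (2 * (N₀ : ℝ)) ^ q, by positivity, ?_⟩
  intro N T hN hNT hT2 θ g hg
  have hN1 : (1 : ℝ) ≤ N := by exact_mod_cast hN
  have hN0 : (0 : ℝ) < N := by linarith
  set V := tv N g with hV
  have hV0 : 0 ≤ V := tv_nonneg N g
  have hT1 : 1 ≤ T := by omega
  set b : ℕ → ℂ := fun n => ee (θ * n) * g n with hb
  have hb1 : ∀ n ∈ Icc N (2 * N), ‖b n‖ ≤ 1 := by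
    intro n hn
    rw [hb]
    simp only [norm_mul]
    rw [ee_norm, one_mul]
    exact hg n hn
  set R := (N : ℝ) ^ q + (N : ℝ) ^ (q / 2) * T with hR
  have hR0 : 0 ≤ R := by positivity
  have hR1 : 1 ≤ R := by
    have h1 : 1 ≤ (N : ℝ) ^ q := Real.one_le_rpow hN1 (by linarith)
    have h2 : 0 ≤ (N : ℝ) ^ (q / 2) * T := by positivity
    rw [hR]; linarith
  have hNε : 1 ≤ (N : ℝ) ^ ε := Real.one_le_rpow hN1 hε.le
  have hV4 : 1 ≤ (1 + V) ^ 4 := one_le_pow₀ (by linarith)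
  rcases lt_or_ge N N₀ with hlt | hge
  · have hN₀r : (N : ℝ) + 1 ≤ N₀ := by exact_mod_cast hlt
    have h1 : ∀ t ∈ Icc 1 (2 * T), ‖∑ n ∈ Icc N (2 * N), ee (θ * n) * g n * pw (t : ℝ) n‖ ^ q ≤
        (2 * (N₀ : ℝ)) ^ q := by
      intro t _
      apply Real.rpow_le_rpow (norm_nonneg _) _ (by linarith)
      have := D_le N b hb1 (t : ℝ)
      refine this.trans ?_
      linarith
    have hTr : (T : ℝ) ≤ (N₀ : ℝ) ^ 2 := by
      calc (T : ℝ) ≤ (N : ℝ) ^ 2 := by exact_mod_cast hT2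
        _ ≤ (N₀ : ℝ) ^ 2 := pow_le_pow_left₀ hN0.le (by linarith) 2
    calc ∑ t ∈ Icc 1 (2 * T), ‖∑ n ∈ Icc N (2 * N), ee (θ * n) * g n * pw (t : ℝ) n‖ ^ q
        ≤ ∑ _t ∈ Icc 1 (2 * T), (2 * (N₀ : ℝ)) ^ q := sum_le_sum h1
      _ = 2 * T * (2 * (N₀ : ℝ)) ^ q := by rw [sum_const, Nat.card_Icc, nsmul_eq_mul]; simp
      _ ≤ 2 * (N₀ : ℝ) ^ 2 * (2 * (N₀ : ℝ)) ^ q := by gcongr
      _ ≤ (K1 * C + 2 * (N₀ : ℝ) ^ 2 * (2 * (N₀ : ℝ)) ^ q) * 1 * 1 * 1 := by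
          have : 0 ≤ K1 * C := by positivity
          linarith
      _ ≤ _ := by gcongr
  · set P : ℝ := C * (1 + V) ^ 4 * (N : ℝ) ^ (17 * e) with hP
    have hNe : 1 ≤ (N : ℝ) ^ (17 * e) := Real.one_le_rpow hN1 (by positivity)
    have hP1 : 1 ≤ P := by
      rw [hP]
      exact one_le_mul_of_one_le_of_one_le (one_le_mul_of_one_le_of_one_le hC hV4) hNe
    have hmain := hc N T b P hN hNT hT2 hP1 hb1 (by
      intro X hX hXT
      have hX2 : X ≤ N ^ 2 := hXT.trans hT2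
      have h1 := hB N X hge hX hX2 θ g hg
      rcases le_total q 4 with h4 | h4
      · left
        exact ⟨h4, h1⟩
      · right
        refine ⟨h4, h1.trans ?_⟩
        have hX2r : (X : ℝ) ≤ (N : ℝ) ^ 2 := by exact_mod_cast hX2
        have h5 : (X : ℝ) * (N : ℝ) ^ 2 ≤ (N : ℝ) ^ 4 := by nlinarith [sq_nonneg (N : ℝ)]
        exact mul_le_mul_of_nonneg_left h5 (by positivity))
    refine hmain.trans ?_
    have h1 : (N : ℝ) ^ (17 * e) * (N : ℝ) ^ (ε / 2) ≤ (N : ℝ) ^ ε := by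
      rw [← Real.rpow_add hN0]
      apply Real.rpow_le_rpow_of_exponent_le hN1
      linarith
    calc K1 * P * (N : ℝ) ^ (ε / 2) * R = K1 * C * (1 + V) ^ 4 *
          ((N : ℝ) ^ (17 * e) * (N : ℝ) ^ (ε / 2)) * R := by rw [hP]; ring
      _ ≤ K1 * C * (1 + V) ^ 4 * (N : ℝ) ^ ε * R := by gcongr
      _ ≤ _ := by
          have h2 : 0 ≤ 2 * (N₀ : ℝ) ^ 2 * (2 * (N₀ : ℝ)) ^ q := by positivity
          have h3 : 0 ≤ (1 + V) ^ 4 * (N : ℝ) ^ ε * R := by positivity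
          nlinarith

/-- **The moments for one additive character and one twist `n^{iu}`, `|u| ≤ T`.** -/
theorem add_twist (q ε : ℝ) (hq : 2 ≤ q) (hε : 0 < ε) : ∃ K : ℝ, 0 ≤ K ∧ ∀ (N T : ℕ), 1 ≤ N →
    N ≤ T → T ≤ N ^ 2 → ∀ (θ u : ℝ), |u| ≤ T → ∀ g : ℕ → ℂ, (∀ n ∈ Icc N (2 * N), ‖g n‖ ≤ 1) →
    ∑ t ∈ Icc 1 T, ‖∑ n ∈ Icc N (2 * N), ee (θ * n) * g n * pw ((t : ℝ) + u) n‖ ^ q ≤
      K * (1 + tv N g) ^ 4 * (N : ℝ) ^ ε * ((N : ℝ) ^ q + (N : ℝ) ^ (q / 2) * (T : ℝ)) := by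
  obtain ⟨K, hK, h⟩ := add_two q ε hq hε
  refine ⟨2 * (K * 2 ^ 4) + 2 ^ q, by positivity, ?_⟩
  intro N T hN hNT hT2 θ u hu g hg
  have hN1 : (1 : ℝ) ≤ N := by exact_mod_cast hN
  have hN0 : (0 : ℝ) < N := by linarith
  have hT1 : 1 ≤ T := by omega
  set k : ℤ := ⌊u⌋ with hk
  set u₀ : ℝ := u - k with hu₀
  have hu0 : 0 ≤ u₀ := by have := Int.floor_le u; rw [hu₀]; linarith
  have hu1 : u₀ ≤ 1 := by have := Int.lt_floor_add_one u; rw [hu₀]; linarith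
  have hk1 : -(T : ℤ) ≤ k := by
    rw [hk]
    apply Int.le_floor.2
    push_cast
    exact (abs_le.1 hu).1
  have hk2 : k ≤ T := by
    have h1 : (k : ℝ) ≤ T := (Int.floor_le u).trans (abs_le.1 hu).2
    exact_mod_cast h1
  set g' : ℕ → ℂ := fun n => g n * pw u₀ n with hg'
  have hpw1 : ∀ n ∈ Icc N (2 * N), ‖pw u₀ n‖ ≤ 1 := fun n _ => (pw_norm _ _).le
  have hg'1 : ∀ n ∈ Icc N (2 * N), ‖g' n‖ ≤ 1 := by
    intro n hn
    rw [hg']
    simp only [norm_mul]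
    rw [pw_norm, mul_one]
    exact hg n hn
  have htv : tv N g' ≤ tv N g + 1 := by
    refine (tv_mul N g (pw u₀) hg hpw1).trans ?_
    have := tv_pw N hN hu0 hu1
    unfold tv
    linarith
  have htv0 := tv_nonneg N g
  have htv' := tv_nonneg N g'
  set F : ℤ → ℝ := fun s => ‖∑ n ∈ Icc N (2 * N), ee (θ * n) * g' n * pw (s : ℝ) n‖ ^ q with hF
  have hF0 : ∀ s, 0 ≤ F s := fun s => by rw [hF]; positivity
  have e1 : ∀ t : ℕ, ‖∑ n ∈ Icc N (2 * N), ee (θ * n) * g n * pw ((t : ℝ) + u) n‖ ^ q =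
      F ((t : ℤ) + k) := by
    intro t
    rw [hF]
    simp only
    congr 2
    apply sum_congr rfl
    intro n _
    have e2 : (t : ℝ) + u = ((((t : ℤ) + k : ℤ)) : ℝ) + u₀ := by
      rw [hu₀]; push_cast; ring
    rw [e2, pw_add, hg']
    ring
  simp_rw [e1]
  set R := (N : ℝ) ^ q + (N : ℝ) ^ (q / 2) * T with hR
  have hR0 : 0 ≤ R := by positivity
  have hNε : 1 ≤ (N : ℝ) ^ ε := Real.one_le_rpow hN1 hε.le
  have hV4 : (1 + tv N g') ^ 4 ≤ 2 ^ 4 * (1 + tv N g) ^ 4 := by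
    rw [← mul_pow]
    apply pow_le_pow_left₀ (by linarith)
    linarith
  have hVg : 1 ≤ (1 + tv N g) ^ 4 := one_le_pow₀ (by linarith)
  -- positive points
  have hpos : ∑ s ∈ Icc (1 : ℤ) (2 * T), F s ≤ K * 2 ^ 4 * ((1 + tv N g) ^ 4 * (N : ℝ) ^ ε * R) := by
    have h1 := h N T hN hNT hT2 θ g' hg'1
    have e2 : ∑ s ∈ Icc (1 : ℤ) (2 * T), F s = ∑ t ∈ Icc 1 (2 * T), F (t : ℤ) := by
      symm
      apply sum_bij (fun (t : ℕ) _ => (t : ℤ))
      · intro t ht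
        rw [mem_Icc] at ht ⊢
        omega
      · intro a _ b _ hab
        exact_mod_cast hab
      · intro s hs
        rw [mem_Icc] at hs
        refine ⟨s.toNat, ?_, ?_⟩
        · rw [mem_Icc]; omega
        · omega
      · intro t _
        rfl
    rw [e2]
    have e3 : ∀ t : ℕ, F (t : ℤ) =
        ‖∑ n ∈ Icc N (2 * N), ee (θ * n) * g' n * pw (t : ℝ) n‖ ^ q := by
      intro t
      rw [hF]
      simp
    simp_rw [e3]
    refine h1.trans ?_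
    calc K * (1 + tv N g') ^ 4 * (N : ℝ) ^ ε * R ≤ K * (2 ^ 4 * (1 + tv N g) ^ 4) * (N : ℝ) ^ ε * R := by
          gcongr
      _ = _ := by ring
  have hneg : ∑ s ∈ Icc (-(2 * T : ℤ)) (-1), F s ≤ K * 2 ^ 4 * ((1 + tv N g) ^ 4 * (N : ℝ) ^ ε * R) := by
    set g'' : ℕ → ℂ := fun n => (starRingEnd ℂ) (g' n) with hg''
    have hg''1 : ∀ n ∈ Icc N (2 * N), ‖g'' n‖ ≤ 1 := by
      intro n hn
      rw [hg'']
      simp only [RCLike.norm_conj]
      exact hg'1 n hn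
    have htv'' : tv N g'' = tv N g' := by
      unfold tv
      apply sum_congr rfl
      intro n _
      rw [hg'']
      simp only
      rw [← map_sub, RCLike.norm_conj]
    have h1 := h N T hN hNT hT2 (-θ) g'' hg''1
    have e2 : ∑ s ∈ Icc (-(2 * T : ℤ)) (-1), F s = ∑ t ∈ Icc 1 (2 * T), F (-(t : ℤ)) := by
      symm
      apply sum_bij (fun (t : ℕ) _ => (-(t : ℤ)))
      · intro t ht
        rw [mem_Icc] at ht ⊢
        omega
      · intro a _ b _ hab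
        omega
      · intro s hs
        rw [mem_Icc] at hs
        refine ⟨(-s).toNat, ?_, ?_⟩
        · rw [mem_Icc]; omega
        · omega
      · intro t _
        rfl
    rw [e2]
    have e3 : ∀ t : ℕ, F (-(t : ℤ)) =
        ‖∑ n ∈ Icc N (2 * N), ee (-θ * n) * g'' n * pw (t : ℝ) n‖ ^ q := by
      intro t
      rw [hF]
      simp only
      congr 1
      rw [← RCLike.norm_conj, map_sum]
      congr 1
      apply sum_congr rfl
      intro n _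
      rw [map_mul, map_mul, ee_conj, pw_conj, hg'']
      congr 2
      · congr 1; ring
      · push_cast; simp
    simp_rw [e3]
    refine h1.trans ?_
    rw [htv'']
    calc K * (1 + tv N g') ^ 4 * (N : ℝ) ^ ε * R ≤ K * (2 ^ 4 * (1 + tv N g) ^ 4) * (N : ℝ) ^ ε * R := by
          gcongr
      _ = _ := by ring
  have hzero : F 0 ≤ 2 ^ q * ((1 + tv N g) ^ 4 * (N : ℝ) ^ ε * R) := by
    have h1 : F 0 ≤ (2 * (N : ℝ)) ^ q := by
      rw [hF]
      apply Real.rpow_le_rpow (norm_nonneg _) _ (by linarith)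
      have := D_le N (fun n => ee (θ * n) * g' n) (by
        intro n hn
        simp only [norm_mul]
        rw [ee_norm, one_mul]
        exact hg'1 n hn) ((0 : ℤ) : ℝ)
      refine this.trans ?_
      linarith
    refine h1.trans ?_
    rw [Real.mul_rpow (by norm_num) hN0.le]
    apply mul_le_mul_of_nonneg_left _ (by positivity)
    have h2 : (N : ℝ) ^ q ≤ R := by
      have : 0 ≤ (N : ℝ) ^ (q / 2) * T := by positivity
      rw [hR]; linarith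
    calc (N : ℝ) ^ q ≤ R := h2
      _ = 1 * 1 * R := by ring
      _ ≤ _ := by gcongr
  have hsplit : ∑ t ∈ Icc 1 T, F ((t : ℤ) + k) ≤ ∑ s ∈ Icc (-(2 * T : ℤ)) (2 * T), F s := by
    have e2 : ∑ t ∈ Icc 1 T, F ((t : ℤ) + k) = ∑ s ∈ (Icc 1 T).image (fun t : ℕ => (t : ℤ) + k), F s := by
      rw [sum_image]
      intro a _ b _ hab
      simp only at hab
      omega
    rw [e2]
    apply sum_le_sum_of_subset_of_nonneg
    · intro s hs
      rw [mem_image] at hs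
      obtain ⟨t, ht, rfl⟩ := hs
      rw [mem_Icc] at ht ⊢
      omega
    · intro s _ _
      exact hF0 s
  have hdec : ∑ s ∈ Icc (-(2 * T : ℤ)) (2 * T), F s ≤
      ∑ s ∈ Icc (-(2 * T : ℤ)) (-1), F s + F 0 + ∑ s ∈ Icc (1 : ℤ) (2 * T), F s := by
    have e2 : Icc (-(2 * T : ℤ)) (2 * T) = Icc (-(2 * T : ℤ)) (-1) ∪ {0} ∪ Icc (1 : ℤ) (2 * T) := by
      ext s
      simp only [mem_union, mem_Icc, mem_singleton]
      omega
    rw [e2, sum_union, sum_union, sum_singleton]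
    · rw [Finset.disjoint_left]
      intro s hs hs'
      rw [mem_Icc] at hs
      rw [mem_singleton] at hs'
      omega
    · rw [Finset.disjoint_left]
      intro s hs hs'
      simp only [mem_union, mem_Icc, mem_singleton] at hs
      rw [mem_Icc] at hs'
      omega
  refine (hsplit.trans hdec).trans ?_
  have := add_le_add (add_le_add hneg hzero) hpos
  refine this.trans (le_of_eq ?_)
  ring

end Pool.Agent.KS6_54.ML
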