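import Pool.Agent.KS6_54.ML.BlkW

set_option autoImplicit false

/-!
# The sum over the pairs `m₁ h₁ < m₂ h₂`
-/

namespace Pool.Agent.KS6_54.ML

open Finset

/-- the sum over the pairs -/
noncomputable def SP (g : ℕ → ℝ) (V H : ℝ) (M m1 m2 : ℕ) : ℂ :=
  ∑ h1 ∈ Icc 1 M, ∑ h2 ∈ Icc 1 M, if m1 * h1 < m2 * h2 then
    ((g h1 * g h2 : ℝ) : ℂ) * Kx V H (Real.log ((m2 * h2 : ℕ) : ℝ) - Real.log ((m1 * h1 : ℕ) : ℝ)) else 0

/-- pairs and progressions -/
lemma bij (M m1 m2 : ℕ) (hm2 : 1 ≤ m2) (I : ℕ) (hI : M < 2 ^ I) (F : ℕ → ℕ → ℂ)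
    (hF : ∀ a b, M < a ∨ M < b → F a b = 0) :
    ∑ h1 ∈ Icc 1 M, ∑ h2 ∈ Icc 1 M, (if m1 * h1 < m2 * h2 then F h1 h2 else 0) =
    ∑ r ∈ range m2, ∑ s ∈ Icc 1 M, if m1 * r < m2 * s then
      ∑ j ∈ range (2 ^ I), (if 1 ≤ r + m2 * j then F (r + m2 * j) (s + m1 * j) else 0) else 0 := by
  have hL : ∑ h1 ∈ Icc 1 M, ∑ h2 ∈ Icc 1 M, (if m1 * h1 < m2 * h2 then F h1 h2 else 0) =
      ∑ p ∈ (Icc 1 M ×ˢ Icc 1 M).filter (fun p => m1 * p.1 < m2 * p.2), F p.1 p.2 := by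
    rw [sum_filter, sum_product]
  have hR : (∑ r ∈ range m2, ∑ s ∈ Icc 1 M, if m1 * r < m2 * s then
      ∑ j ∈ range (2 ^ I), (if 1 ≤ r + m2 * j then F (r + m2 * j) (s + m1 * j) else 0) else 0) =
      ∑ q ∈ (range m2 ×ˢ (Icc 1 M ×ˢ range (2 ^ I))).filter
        (fun q => m1 * q.1 < m2 * q.2.1 ∧ 1 ≤ q.1 + m2 * q.2.2),
        F (q.1 + m2 * q.2.2) (q.2.1 + m1 * q.2.2) := by
    rw [sum_filter, sum_product]
    refine sum_congr rfl fun r _ => ?_
    rw [sum_product]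
    refine sum_congr rfl fun s _ => ?_
    split_ifs with h
    · refine sum_congr rfl fun j _ => ?_
      simp only [h, true_and]
    · symm
      refine sum_eq_zero fun j _ => ?_
      simp only [h, false_and, if_false]
  rw [hL, hR]
  -- restrict the right side
  have hR2 : ∑ q ∈ (range m2 ×ˢ (Icc 1 M ×ˢ range (2 ^ I))).filter
        (fun q => m1 * q.1 < m2 * q.2.1 ∧ 1 ≤ q.1 + m2 * q.2.2),
        F (q.1 + m2 * q.2.2) (q.2.1 + m1 * q.2.2) =
      ∑ q ∈ (range m2 ×ˢ (Icc 1 M ×ˢ range (2 ^ I))).filter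
        (fun q => m1 * q.1 < m2 * q.2.1 ∧ 1 ≤ q.1 + m2 * q.2.2 ∧ q.1 + m2 * q.2.2 ≤ M ∧ q.2.1 + m1 * q.2.2 ≤ M),
        F (q.1 + m2 * q.2.2) (q.2.1 + m1 * q.2.2) := by
    symm
    refine sum_subset ?_ ?_
    · intro q hq
      rw [mem_filter] at hq ⊢
      exact ⟨hq.1, hq.2.1, hq.2.2.1⟩
    · intro q hq hq2
      rw [mem_filter] at hq hq2
      apply hF
      by_contra hcon
      push Not at hcon
      exact hq2 ⟨hq.1, hq.2.1, hq.2.2, hcon.1, hcon.2⟩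
  rw [hR2]
  refine sum_nbij' (fun p => (p.1 % m2, (p.2 - m1 * (p.1 / m2), p.1 / m2)))
    (fun q => (q.1 + m2 * q.2.2, q.2.1 + m1 * q.2.2)) ?_ ?_ ?_ ?_ ?_
  · rintro ⟨a, b⟩ hp
    rw [mem_filter, mem_product, mem_Icc, mem_Icc] at hp
    obtain ⟨⟨⟨a1, a2⟩, b1, b2⟩, hlt⟩ := hp
    simp only at a1 a2 b1 b2 hlt ⊢
    have hda := Nat.div_add_mod a m2
    have hmod := Nat.mod_lt a (by omega : 0 < m2)
    set q := a / m2 with hq
    set r := a % m2 with hr
    have h1 : m1 * (m2 * q) ≤ m1 * a := Nat.mul_le_mul_left _ (by omega)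
    have h2 : m2 * (m1 * q) < m2 * b := by
      have : m2 * (m1 * q) = m1 * (m2 * q) := by ring
      omega
    have h3 : m1 * q < b := lt_of_mul_lt_mul_left h2 (Nat.zero_le _)
    have hqM : q < 2 ^ I := by
      have : q ≤ a := Nat.div_le_self _ _
      omega
    rw [mem_filter, mem_product, mem_product, mem_range, mem_Icc, mem_range]
    simp only
    have e1 : r + m2 * q = a := by omega
    have e2 : b - m1 * q + m1 * q = b := by omega
    refine ⟨⟨hmod, ⟨by omega, by omega⟩, hqM⟩, ?_, by omega, by omega, by omega⟩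
    have h4 : m1 * a = m1 * (m2 * q) + m1 * r := by rw [← hda]; ring
    have h5 : m2 * b = m2 * (b - m1 * q) + m2 * (m1 * q) := by rw [← mul_add]; congr 1; omega
    have h6 : m2 * (m1 * q) = m1 * (m2 * q) := by ring
    omega
  · rintro ⟨r, s, j⟩ hq
    rw [mem_filter, mem_product, mem_product, mem_range, mem_Icc, mem_range] at hq
    simp only at hq
    obtain ⟨⟨hr, ⟨hs1, hs2⟩, hj⟩, h1, h2, h3, h4⟩ := hq
    rw [mem_filter, mem_product, mem_Icc, mem_Icc]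
    simp only
    refine ⟨⟨⟨h2, h3⟩, by omega, h4⟩, ?_⟩
    have e1 : m1 * (r + m2 * j) = m1 * r + m1 * m2 * j := by ring
    have e2 : m2 * (s + m1 * j) = m2 * s + m1 * m2 * j := by ring
    omega
  · rintro ⟨a, b⟩ hp
    rw [mem_filter, mem_product, mem_Icc, mem_Icc] at hp
    obtain ⟨⟨⟨a1, a2⟩, b1, b2⟩, hlt⟩ := hp
    simp only at a1 a2 b1 b2 hlt ⊢
    have hda := Nat.div_add_mod a m2
    set q := a / m2 with hq
    set r := a % m2 with hr
    have h1 : m1 * (m2 * q) ≤ m1 * a := Nat.mul_le_mul_left _ (by omega)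
    have h2 : m2 * (m1 * q) < m2 * b := by
      have : m2 * (m1 * q) = m1 * (m2 * q) := by ring
      omega
    have h3 : m1 * q < b := lt_of_mul_lt_mul_left h2 (Nat.zero_le _)
    refine Prod.ext ?_ ?_
    · simp only; omega
    · simp only; omega
  · rintro ⟨r, s, j⟩ hq
    rw [mem_filter, mem_product, mem_product, mem_range, mem_Icc, mem_range] at hq
    simp only at hq
    obtain ⟨⟨hr, ⟨hs1, hs2⟩, hj⟩, h1, h2, h3, h4⟩ := hq
    simp only
    have e1 : (r + m2 * j) / m2 = j := by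
      rw [Nat.add_mul_div_left _ _ (by omega : 0 < m2), Nat.div_eq_of_lt hr, zero_add]
    have e2 : (r + m2 * j) % m2 = r := by
      rw [Nat.add_mul_mod_self_left, Nat.mod_eq_of_lt hr]
    refine Prod.ext e2 (Prod.ext ?_ e1)
    simp only
    rw [e1]
    omega
  · rintro ⟨a, b⟩ hp
    rw [mem_filter, mem_product, mem_Icc, mem_Icc] at hp
    obtain ⟨⟨⟨a1, a2⟩, b1, b2⟩, hlt⟩ := hp
    simp only at a1 a2 b1 b2 hlt ⊢
    have hda := Nat.div_add_mod a m2
    set q := a / m2 with hq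
    set r := a % m2 with hr
    have h1 : m1 * (m2 * q) ≤ m1 * a := Nat.mul_le_mul_left _ (by omega)
    have h2 : m2 * (m1 * q) < m2 * b := by
      have : m2 * (m1 * q) = m1 * (m2 * q) := by ring
      omega
    have h3 : m1 * q < b := lt_of_mul_lt_mul_left h2 (Nat.zero_le _)
    have e1 : r + m2 * q = a := by omega
    have e2 : b - m1 * q + m1 * q = b := by omega
    rw [e1, e2]

/-- dyadic blocks -/
lemma dyad (f : ℕ → ℂ) (I : ℕ) : ∑ j ∈ Ico 1 (2 ^ I), f j = ∑ i ∈ range I, ∑ j ∈ Ico (2 ^ i) (2 * 2 ^ i), f j := by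
  induction I with
  | zero => simp
  | succ I ih =>
    rw [sum_range_succ, ← ih]
    have e : 2 * 2 ^ I = 2 ^ (I + 1) := by rw [pow_succ]; ring
    rw [e, sum_Ico_consecutive _ Nat.one_le_two_pow (Nat.pow_le_pow_right (by norm_num) (by omega))]

end Pool.Agent.KS6_54.ML
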