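import Pool.Agent.KS6_54.ML.Mom

set_option autoImplicit false

/-!
# Fourth moments of the sharply cut polynomials over dyadic blocks
-/

open Finset MeasureTheory

namespace Pool.Agent.KS6_54.ML

open Pool.Agent.W200.MR (pw)
open Pool.Agent.TH445.MQ (pw_norm pw_add)

/-- the inverse smoothing factor -/
noncomputable def gi (k N n : ℕ) : ℂ := (((sf k N n)⁻¹ : ℝ) : ℂ)

lemma sf_pos (k : ℕ) {N n : ℕ} (hn : 1 ≤ n) : 0 < sf k N n := by
  unfold sf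
  have : (0 : ℝ) < n := by exact_mod_cast hn
  positivity

lemma sf_step {k N : ℕ} (hk : 2 ≤ k) (hN : 1 ≤ N) {M : ℕ} (hM : N < M) (hM2 : M ≤ 2 * N) :
    sf k N (M - 1) ≤ sf k N M := by
  have hN0 : (0 : ℝ) < N := by exact_mod_cast hN
  have hM1 : 1 ≤ M := by omega
  have hM0 : (0 : ℝ) < M := by exact_mod_cast hM1
  have e1 : ((M - 1 : ℕ) : ℝ) = M - 1 := by rw [Nat.cast_sub hM1]; simp
  unfold sf
  rw [e1]
  have h1 : ((M : ℝ) - 1) ≤ M * Real.exp (-(1 / (M : ℝ))) := by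
    have h2 := Real.one_sub_le_exp_neg (1 / (M : ℝ))
    calc ((M : ℝ) - 1) = M * (1 - 1 / M) := by field_simp
      _ ≤ _ := mul_le_mul_of_nonneg_left h2 hM0.le
  have h3 : (0 : ℝ) ≤ (M : ℝ) - 1 := by
    have : (1 : ℝ) ≤ M := by exact_mod_cast hM1
    linarith
  have h4 : ((M : ℝ) - 1) ^ k ≤ (M : ℝ) ^ k * Real.exp (-(1 / (N : ℝ))) := by
    calc ((M : ℝ) - 1) ^ k ≤ (M * Real.exp (-(1 / (M : ℝ)))) ^ k := pow_le_pow_left₀ h3 h1 k
      _ = (M : ℝ) ^ k * Real.exp (-((k : ℝ) / M)) := by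
          rw [mul_pow, ← Real.exp_nat_mul]
          congr 2
          ring
      _ ≤ (M : ℝ) ^ k * Real.exp (-(1 / (N : ℝ))) := by
          apply mul_le_mul_of_nonneg_left _ (by positivity)
          apply Real.exp_le_exp.2
          apply neg_le_neg
          rw [div_le_div_iff₀ hN0 hM0]
          have a1 : (M : ℝ) ≤ 2 * N := by exact_mod_cast hM2
          have a2 : (2 : ℝ) ≤ k := by exact_mod_cast hk
          nlinarith
  calc ((M : ℝ) - 1) ^ k * Real.exp (-(((M : ℝ) - 1) / N))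
      ≤ ((M : ℝ) ^ k * Real.exp (-(1 / (N : ℝ)))) * Real.exp (-(((M : ℝ) - 1) / N)) :=
        mul_le_mul_of_nonneg_right h4 (Real.exp_pos _).le
    _ = (M : ℝ) ^ k * Real.exp (-((M : ℝ) / N)) := by
        rw [mul_assoc, ← Real.exp_add]
        congr 2
        field_simp
        ring

lemma rtele (N : ℕ) (g : ℕ → ℝ) (n : ℕ) (hn : N ≤ n) :
    ∑ M ∈ Ioc N n, (g (M - 1) - g M) = g N - g n := by
  induction n, hn using Nat.le_induction with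
  | base => simp
  | succ n hn ih =>
    rw [Finset.sum_Ioc_succ_top (by omega), ih, Nat.add_sub_cancel]
    ring

lemma vr_gi {k N : ℕ} (hk : 2 ≤ k) (hN : 1 ≤ N) : vr N (gi k N) ≤ 6 * ((N : ℝ) ^ k)⁻¹ := by
  have hN0 : (0 : ℝ) < N := by exact_mod_cast hN
  have h0 : ∀ n, 0 ≤ (sf k N n)⁻¹ := fun n => inv_nonneg.2 (sf_nonneg _ _ _)
  have e1 : ∀ M ∈ Ioc N (2 * N), ‖gi k N M - gi k N (M - 1)‖ =
      (sf k N (M - 1))⁻¹ - (sf k N M)⁻¹ := by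
    intro M hM
    rw [mem_Ioc] at hM
    unfold gi
    rw [← Complex.ofReal_sub, Complex.norm_real, Real.norm_eq_abs, abs_sub_comm, abs_of_nonneg]
    have h1 := sf_step hk hN hM.1 hM.2
    have h2 : 0 < sf k N (M - 1) := sf_pos k (by omega)
    linarith [inv_anti₀ h2 h1]
  unfold vr
  rw [sum_congr rfl e1, rtele N (fun n => (sf k N n)⁻¹) (2 * N) (by omega)]
  have e2 : ‖gi k N N‖ = (sf k N N)⁻¹ := by
    unfold gi
    rw [Complex.norm_real, Real.norm_of_nonneg (h0 N)]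
  rw [e2]
  have e3 : (sf k N N)⁻¹ = ((N : ℝ) ^ k)⁻¹ * Real.exp 1 := by
    unfold sf
    rw [div_self hN0.ne', mul_inv, Real.exp_neg, inv_inv]
  have h2 := Real.exp_one_lt_d9
  have h3 : 0 < ((N : ℝ) ^ k)⁻¹ := by positivity
  have h4 := h0 (2 * N)
  rw [e3]
  nlinarith

/-- the total variation over `[N, 2N]` -/
noncomputable def tv (N : ℕ) (g : ℕ → ℂ) : ℝ := ∑ n ∈ Ioc N (2 * N), ‖g n - g (n - 1)‖

lemma tv_nonneg (N : ℕ) (g : ℕ → ℂ) : 0 ≤ tv N g := sum_nonneg fun _ _ => norm_nonneg _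

lemma gi_norm (k N n : ℕ) : ‖gi k N n‖ = (sf k N n)⁻¹ := by
  unfold gi
  rw [Complex.norm_real, Real.norm_of_nonneg (inv_nonneg.2 (sf_nonneg _ _ _))]

lemma gi_le {k N : ℕ} (hk : 2 ≤ k) (hN : 1 ≤ N) (n : ℕ) (hn : N ≤ n) (hn2 : n ≤ 2 * N) :
    ‖gi k N n‖ ≤ ‖gi k N N‖ := by
  rw [gi_norm, gi_norm]
  apply inv_anti₀ (sf_pos k hN)
  induction n, hn using Nat.le_induction with
  | base => exact le_rfl
  | succ n hn ih =>
    have h1 := sf_step (k := k) hk hN (M := n + 1) (by omega) hn2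
    rw [Nat.add_sub_cancel] at h1
    exact (ih (by omega)).trans h1

lemma vr_gi_mul {k N : ℕ} (hk : 2 ≤ k) (hN : 1 ≤ N) (g : ℕ → ℂ)
    (hg : ∀ n ∈ Icc N (2 * N), ‖g n‖ ≤ 1) :
    vr N (fun n => gi k N n * g n) ≤ 6 * (1 + tv N g) * ((N : ℝ) ^ k)⁻¹ := by
  have hN0 : (0 : ℝ) < N := by exact_mod_cast hN
  have h1 : ∀ M ∈ Ioc N (2 * N), ‖gi k N M * g M - gi k N (M - 1) * g (M - 1)‖ ≤
      ((sf k N (M - 1))⁻¹ - (sf k N M)⁻¹) + ‖gi k N N‖ * ‖g M - g (M - 1)‖ := by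
    intro M hM
    rw [mem_Ioc] at hM
    have e1 : gi k N M * g M - gi k N (M - 1) * g (M - 1) =
        (gi k N M - gi k N (M - 1)) * g M + gi k N (M - 1) * (g M - g (M - 1)) := by ring
    rw [e1]
    refine (norm_add_le _ _).trans ?_
    rw [norm_mul, norm_mul]
    apply add_le_add
    · have e2 : ‖gi k N M - gi k N (M - 1)‖ = (sf k N (M - 1))⁻¹ - (sf k N M)⁻¹ := by
        unfold gi
        rw [← Complex.ofReal_sub, Complex.norm_real, Real.norm_eq_abs, abs_sub_comm, abs_of_nonneg]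
        have h1 := sf_step hk hN hM.1 hM.2
        have h2 : 0 < sf k N (M - 1) := sf_pos k (by omega)
        linarith [inv_anti₀ h2 h1]
      rw [← e2]
      exact mul_le_of_le_one_right (norm_nonneg _) (hg M (mem_Icc.2 ⟨hM.1.le, hM.2⟩))
    · exact mul_le_mul_of_nonneg_right (gi_le hk hN (M - 1) (by omega) (by omega)) (norm_nonneg _)
  have hgN : ‖gi k N N * g N‖ ≤ ‖gi k N N‖ := by
    rw [norm_mul]
    exact mul_le_of_le_one_right (norm_nonneg _) (hg N (mem_Icc.2 ⟨le_rfl, by omega⟩))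
  unfold vr
  have h2 : ∑ M ∈ Ioc N (2 * N), ‖gi k N M * g M - gi k N (M - 1) * g (M - 1)‖ ≤
      ((sf k N N)⁻¹ - (sf k N (2 * N))⁻¹) + ‖gi k N N‖ * tv N g := by
    refine (sum_le_sum h1).trans (le_of_eq ?_)
    rw [sum_add_distrib, rtele N (fun n => (sf k N n)⁻¹) (2 * N) (by omega), ← mul_sum]
    rfl
  have e3 : ‖gi k N N‖ = ((N : ℝ) ^ k)⁻¹ * Real.exp 1 := by
    rw [gi_norm]
    unfold sf
    rw [div_self hN0.ne', mul_inv, Real.exp_neg, inv_inv]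
  have e4 : (sf k N N)⁻¹ = ((N : ℝ) ^ k)⁻¹ * Real.exp 1 := by rw [← gi_norm, e3]
  have h5 := Real.exp_one_lt_d9
  have h3 : 0 < ((N : ℝ) ^ k)⁻¹ := by positivity
  have h4 : 0 ≤ (sf k N (2 * N))⁻¹ := inv_nonneg.2 (sf_nonneg _ _ _)
  have h6 := tv_nonneg N g
  rw [e4] at h2
  rw [e3] at h2 hgN
  have h7 : ((N : ℝ) ^ k)⁻¹ * Real.exp 1 ≤ 3 * ((N : ℝ) ^ k)⁻¹ := by nlinarith
  have h8 : ((N : ℝ) ^ k)⁻¹ * Real.exp 1 * tv N g ≤ 3 * ((N : ℝ) ^ k)⁻¹ * tv N g :=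
    mul_le_mul_of_nonneg_right h7 h6
  have h9 : 0 ≤ ((N : ℝ) ^ k)⁻¹ * tv N g := by positivity
  linarith

/-- **Fourth moments over dyadic blocks.** -/
theorem block (ε : ℝ) (hε : 0 < ε) (hε1 : ε ≤ 1 / 4) : ∃ C : ℝ, 1 ≤ C ∧ ∃ N₀ : ℕ, 64 ≤ N₀ ∧
    (∀ N : ℕ, N₀ ≤ N → (N : ℝ) ^ 10 ≤ Real.exp ((N : ℝ) ^ ε / 16)) ∧
    ∀ {N X : ℕ}, N₀ ≤ N → (N : ℝ) ^ (1 + 3 * ε) ≤ X → X ≤ N ^ 2 → ∀ {m : ℕ}, m ≤ N →
    ∀ (θ : Fin m → ℝ) (c : Fin m → ℂ), (∀ r, ‖c r‖ ≤ 1) → (∀ n, ‖bco θ c n‖ ≤ 1) →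
    ∀ g : ℕ → ℂ, (∀ n ∈ Icc N (2 * N), ‖g n‖ ≤ 1) →
    ∑ t ∈ Icc X (2 * X), ‖∑ n ∈ Icc N (2 * N), bco θ c n * g n * pw (t : ℝ) n‖ ^ 4 ≤
      C * (1 + tv N g) ^ 4 * (N : ℝ) ^ ε * ((N : ℝ) ^ 4 / X * dbl (IM (X / (N * (N : ℝ) ^ ε)) ((N : ℝ) ^ ε * X / N) θ ×ˢ
        IM (X / (N * (N : ℝ) ^ ε)) ((N : ℝ) ^ ε * X / N) θ) (X / ⌈(N : ℝ) ^ ε⌉₊)
          (fun p => ‖cv c p.1‖ * ‖cv c p.2‖) (lm N (yv θ)) + X) := by
  set j : ℕ := ⌈6 / ε⌉₊ with hj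
  obtain ⟨C1, hC1, hM⟩ := DS_moment j
  obtain ⟨C2, hC2, hT⟩ := transfer (ε / 4) ε 4 (by positivity) (by linarith) hε (by norm_num)
  set k := j + 3 with hk
  set a1 : ℝ := 4 * (k.factorial : ℝ) * 2 ^ k with ha1
  have hlim : ∃ N₁ : ℕ, ∀ N : ℕ, N₁ ≤ N → (N : ℝ) ^ (2 * j + 10) ≤ Real.exp ((N : ℝ) ^ ε / 16) := by
    have h1 := isLittleO_exp_neg_mul_rpow_atTop (a := 1 / 16) (by norm_num) (-((2 * j + 10 : ℕ) : ℝ) / ε)
    have h2 := (h1.bound one_pos)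
    have h3 : Filter.Tendsto (fun N : ℕ => (N : ℝ) ^ ε) Filter.atTop Filter.atTop :=
      (tendsto_rpow_atTop hε).comp tendsto_natCast_atTop_atTop
    have h4 := h3.eventually h2
    obtain ⟨N₁, hN₁⟩ := Filter.eventually_atTop.1 (h4.and (Filter.eventually_ge_atTop 1))
    refine ⟨N₁, fun N hN => ?_⟩
    obtain ⟨h5, h6⟩ := hN₁ N hN
    have hN0 : (0 : ℝ) < N := by exact_mod_cast h6
    rw [one_mul, Real.norm_of_nonneg (Real.exp_pos _).le, Real.norm_of_nonneg (by positivity),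
      ← Real.rpow_mul hN0.le, mul_div_cancel₀ _ hε.ne', Real.rpow_neg hN0.le,
      Real.rpow_natCast] at h5
    have e1 : -(1 / 16 : ℝ) * (N : ℝ) ^ ε = -((N : ℝ) ^ ε / 16) := by ring
    rw [e1, Real.exp_neg] at h5
    exact (inv_le_inv₀ (Real.exp_pos _) (by positivity)).1 h5
  obtain ⟨N₁, hN₁⟩ := hlim
  -- the constant for the exponentially small term
  obtain ⟨C3, hC3, hexp⟩ : ∃ C3 : ℝ, 0 ≤ C3 ∧ ∀ N : ℕ, 1 ≤ N →
      (N : ℝ) * Real.exp (-((N : ℝ) ^ (2 * ε) / 576)) ≤ C3 := by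
    set n : ℕ := ⌈1 / (2 * ε)⌉₊ with hn
    refine ⟨576 ^ n * (n.factorial : ℝ), by positivity, fun N hN => ?_⟩
    have hN1 : (1 : ℝ) ≤ N := by exact_mod_cast hN
    have hN0 : (0 : ℝ) < N := by linarith
    set x := (N : ℝ) ^ (2 * ε) / 576 with hx
    have hx0 : 0 ≤ x := by positivity
    have h1 := Real.pow_div_factorial_le_exp x hx0 n
    rw [div_le_iff₀ (by positivity)] at h1
    have h2 : (N : ℝ) ≤ ((N : ℝ) ^ (2 * ε)) ^ n := by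
      rw [← Real.rpow_natCast, ← Real.rpow_mul hN0.le]
      calc (N : ℝ) = (N : ℝ) ^ (1 : ℝ) := (Real.rpow_one _).symm
        _ ≤ _ := by
            apply Real.rpow_le_rpow_of_exponent_le hN1
            have : 1 / (2 * ε) ≤ n := Nat.le_ceil _
            rw [div_le_iff₀ (by positivity)] at this
            linarith
    have h3 : ((N : ℝ) ^ (2 * ε)) ^ n = 576 ^ n * x ^ n := by
      rw [hx, ← mul_pow]; congr 1; field_simp
    rw [Real.exp_neg, ← div_eq_mul_inv, div_le_iff₀ (Real.exp_pos _)]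
    calc (N : ℝ) ≤ 576 ^ n * x ^ n := by rw [← h3]; exact h2
      _ ≤ 576 ^ n * (Real.exp x * (n.factorial : ℝ)) := mul_le_mul_of_nonneg_left h1 (by positivity)
      _ = _ := by ring
  set C : ℝ := C2 * 6 ^ 4 * (C1 + (a1 * C3) ^ 4) with hC
  have hCge : 1 ≤ C := by
    rw [hC]
    have h1 : 0 ≤ (a1 * C3) ^ 4 := by positivity
    have h2 : 1 ≤ C1 + (a1 * C3) ^ 4 := by linarith
    nlinarith
  refine ⟨C, hCge, max 64 N₁, le_max_left _ _, ?_, ?_⟩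
  · intro N hN
    have hN64 : 64 ≤ N := (le_max_left _ _).trans hN
    have hN1 : (1 : ℝ) ≤ N := by exact_mod_cast (by omega : 1 ≤ N)
    refine le_trans ?_ (hN₁ N ((le_max_right _ _).trans hN))
    exact pow_le_pow_right₀ hN1 (by omega)
  intro N X hN hX hX2 m hm θ c hc hb g hg
  have hN64 : 64 ≤ N := (le_max_left _ _).trans hN
  have hN1n : 1 ≤ N := by omega
  have hN1 : (1 : ℝ) ≤ N := by exact_mod_cast hN1n
  have hN0 : (0 : ℝ) < N := by linarith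
  have hNX : N ≤ X := by
    have : (N : ℝ) ≤ X := by
      refine le_trans ?_ hX
      calc (N : ℝ) = (N : ℝ) ^ (1 : ℝ) := (Real.rpow_one _).symm
        _ ≤ _ := Real.rpow_le_rpow_of_exponent_le hN1 (by linarith)
    exact_mod_cast this
  have hX0 : (0 : ℝ) < X := by exact_mod_cast (by omega : 0 < X)
  set Z := (N : ℝ) ^ ε with hZ
  have hZ1 : 1 ≤ Z := Real.one_le_rpow hN1 hε.le
  have hZN : Z ≤ N := by
    calc Z ≤ (N : ℝ) ^ (1 : ℝ) := Real.rpow_le_rpow_of_exponent_le hN1 (by linarith)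
      _ = N := Real.rpow_one _
  have hZX : Z ≤ X := hZN.trans (by exact_mod_cast hNX)
  have hZ6 : (N : ℝ) ^ 6 ≤ Z ^ (j + 2) := by
    rw [hZ, ← Real.rpow_natCast (N : ℝ) 6, ← Real.rpow_natCast, ← Real.rpow_mul hN0.le]
    apply Real.rpow_le_rpow_of_exponent_le hN1
    have h1 : 6 / ε ≤ j := Nat.le_ceil _
    rw [div_le_iff₀ hε] at h1
    push_cast
    nlinarith
  have hM' := hM (by omega : 2 ≤ N) hNX hX2 hZ1 hZX hZ6 (hN₁ N ((le_max_right _ _).trans hN)) hm θ c hc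
  set DB := dbl (IM (X / (N * Z)) (Z * X / N) θ ×ˢ IM (X / (N * Z)) (Z * X / N) θ) (X / ⌈Z⌉₊)
    (fun p => ‖cv c p.1‖ * ‖cv c p.2‖) (lm N (yv θ)) with hDB
  have hDB0 : 0 ≤ DB := by rw [hDB]; unfold dbl; positivity
  obtain ⟨hs1, hs2⟩ := sm_summable k hN1n hb
  have ha0 : sm k N (bco θ c) 0 = 0 := by
    unfold sm sf
    simp [hk]
  set gg : ℕ → ℂ := fun n => gi k N n * g n with hgg
  set V1 := 1 + tv N g with hV1
  have hV10 : 0 < V1 := by have := tv_nonneg N g; linarith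
  have hT' := hT N X hN1n hX (sm k N (bco θ c)) gg ha0 hs1
  have e1 : ∀ t : ℕ, ∑ n ∈ Icc N (2 * N), sm k N (bco θ c) n * gg n * pw (t : ℝ) n =
      ∑ n ∈ Icc N (2 * N), bco θ c n * g n * pw (t : ℝ) n := by
    intro t
    apply sum_congr rfl
    intro n hn
    have h1 : 0 < sf k N n := sf_pos k (le_trans hN1n (mem_Icc.1 hn).1)
    have h2 : ((sf k N n : ℝ) : ℂ) * (((sf k N n)⁻¹ : ℝ) : ℂ) = 1 := by
      rw [← Complex.ofReal_mul, mul_inv_cancel₀ h1.ne', Complex.ofReal_one]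
    rw [hgg]
    unfold sm gi
    linear_combination (bco θ c n * g n * pw (t : ℝ) n) * h2
  simp_rw [e1] at hT'
  have e2 : ∀ x : ℝ, x ^ (4 : ℝ) = x ^ 4 := fun x => by
    rw [← Real.rpow_natCast]; norm_num
  simp_rw [e2] at hT'
  have e3 : (N : ℝ) ^ (4 * (ε / 4)) = (N : ℝ) ^ ε := by congr 1; ring
  rw [e3] at hT'
  refine hT'.trans ?_
  have hv : vr N gg ≤ 6 * V1 * ((N : ℝ) ^ k)⁻¹ := vr_gi_mul (k := k) (by omega) hN1n g hg
  have hv0 := vr_nonneg N gg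
  have hv4 : vr N gg ^ 4 ≤ 6 ^ 4 * V1 ^ 4 * ((N : ℝ) ^ (4 * k))⁻¹ := by
    calc vr N gg ^ 4 ≤ (6 * V1 * ((N : ℝ) ^ k)⁻¹) ^ 4 := pow_le_pow_left₀ hv0 hv 4
      _ = _ := by rw [mul_pow, mul_pow, inv_pow, ← pow_mul, mul_comm k 4]
  have hA : (∑' n, ‖sm k N (bco θ c) n‖) * Real.exp (-((N : ℝ) ^ (2 * ε) / 576)) ≤
      (a1 * C3) * (N : ℝ) ^ k := by
    calc (∑' n, ‖sm k N (bco θ c) n‖) * Real.exp (-((N : ℝ) ^ (2 * ε) / 576))
        ≤ (1 * (4 * (k.factorial : ℝ) * 2 ^ k * (N : ℝ) ^ (k + 1))) *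
          Real.exp (-((N : ℝ) ^ (2 * ε) / 576)) := by gcongr
      _ = a1 * ((N : ℝ) * Real.exp (-((N : ℝ) ^ (2 * ε) / 576))) * (N : ℝ) ^ k := by
          rw [ha1]; ring
      _ ≤ a1 * C3 * (N : ℝ) ^ k := by
          have := hexp N hN1n
          gcongr
  have hA0 : 0 ≤ (∑' n, ‖sm k N (bco θ c) n‖) * Real.exp (-((N : ℝ) ^ (2 * ε) / 576)) :=
    mul_nonneg (tsum_nonneg fun n => norm_nonneg _) (Real.exp_pos _).le
  have hA4 : ((∑' n, ‖sm k N (bco θ c) n‖) * Real.exp (-((N : ℝ) ^ (2 * ε) / 576))) ^ 4 ≤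
      (a1 * C3) ^ 4 * (N : ℝ) ^ (4 * k) := by
    calc _ ≤ ((a1 * C3) * (N : ℝ) ^ k) ^ 4 := pow_le_pow_left₀ hA0 hA 4
      _ = _ := by rw [mul_pow, ← pow_mul, mul_comm k 4]
  have hkk : k = j + 3 := hk
  have hNk : (0 : ℝ) < (N : ℝ) ^ (4 * k) := by positivity
  calc C2 * (N : ℝ) ^ ε * vr N gg ^ 4 *
        ((∫ τ in ((X : ℝ) / 2)..(5 * (X : ℝ) / 2), ‖DS (sm k N (bco θ c)) τ‖ ^ 4) +
          X * ((∑' n, ‖sm k N (bco θ c) n‖) * Real.exp (-((N : ℝ) ^ (2 * ε) / 576))) ^ 4)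
      ≤ C2 * (N : ℝ) ^ ε * (6 ^ 4 * V1 ^ 4 * ((N : ℝ) ^ (4 * k))⁻¹) *
        (C1 * (N : ℝ) ^ (4 * k) * ((N : ℝ) ^ 4 / X * DB + X) +
          X * ((a1 * C3) ^ 4 * (N : ℝ) ^ (4 * k))) := by
        have hJ0 : 0 ≤ ∫ τ in ((X : ℝ) / 2)..(5 * (X : ℝ) / 2), ‖DS (sm k N (bco θ c)) τ‖ ^ 4 := by
          apply intervalIntegral.integral_nonneg (by linarith)
          intro v _
          positivity
        apply mul_le_mul
        · exact mul_le_mul_of_nonneg_left hv4 (by positivity)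
        · apply add_le_add hM'
          exact mul_le_mul_of_nonneg_left hA4 hX0.le
        · exact add_nonneg hJ0 (mul_nonneg hX0.le (pow_nonneg hA0 4))
        · positivity
    _ = C2 * (N : ℝ) ^ ε * (6 ^ 4 * V1 ^ 4) * (C1 * ((N : ℝ) ^ 4 / X * DB + X) + X * (a1 * C3) ^ 4) := by
        field_simp
    _ ≤ C2 * (N : ℝ) ^ ε * (6 ^ 4 * V1 ^ 4) * ((C1 + (a1 * C3) ^ 4) * ((N : ℝ) ^ 4 / X * DB + X)) := by
        apply mul_le_mul_of_nonneg_left _ (by positivity)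
        have h1 : 0 ≤ (N : ℝ) ^ 4 / X * DB := by positivity
        have h2 : 0 ≤ (a1 * C3) ^ 4 := by positivity
        nlinarith
    _ = _ := by rw [hC]; ring

end Pool.Agent.KS6_54.ML
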