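import Pool.Agent.KS6_54.ML.VD

set_option autoImplicit false

/-!
# Sums over dyadic blocks with the phase `V log ((j + β) / (j + α))`
-/

namespace Pool.Agent.KS6_54.ML

open Finset
open Pool.Agent.Helper153.Vdc (ee)

/-- the phase -/
noncomputable def lj (α β : ℝ) (j : ℕ) : ℝ := Real.log (j + β) - Real.log (j + α)

lemma ee_eq (x : ℝ) : ee (x / (2 * Real.pi)) = Complex.exp ((x : ℂ) * Complex.I) := by
  unfold ee
  congr 1
  have : (Real.pi : ℂ) ≠ 0 := by exact_mod_cast Real.pi_ne_zero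
  push_cast
  field_simp

/-- the second difference of the logarithm -/
lemma log_dd {x : ℝ} (hx : 0 < x) : (Real.log (x + 1 + 1) - Real.log (x + 1)) - (Real.log (x + 1) - Real.log x) =
    Real.log (1 - 1 / (x + 1) ^ 2) := by
  have h1 : 0 < x + 1 := by linarith
  have h2 : 0 < x + 1 + 1 := by linarith
  have e : 1 - 1 / (x + 1) ^ 2 = ((x + 1 + 1) * x) / ((x + 1) * (x + 1)) := by field_simp; ring
  rw [e, Real.log_div (by positivity) (by positivity), Real.log_mul h2.ne' hx.ne', Real.log_mul h1.ne' h1.ne']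
  ring

/-- the second differences of the phase -/
lemma lj_dd {α β : ℝ} {J j : ℕ} (hα : 0 ≤ α) (hα1 : α ≤ 1) (hαβ : α < β) (hJ : 1 ≤ J) (hβ : β - α ≤ J) (hj : J ≤ j)
    (hj2 : j + 2 < 2 * J) :
    (β - α) / (48 * (J:ℝ) ^ 3) ≤ (lj α β (j + 1 + 1) - lj α β (j + 1)) - (lj α β (j + 1) - lj α β j) ∧
    (lj α β (j + 1 + 1) - lj α β (j + 1)) - (lj α β (j + 1) - lj α β j) ≤ 128 * ((β - α) / (48 * (J:ℝ) ^ 3)) := by
  have hJ1 : (1:ℝ) ≤ J := by exact_mod_cast hJ
  have hjJ : (J:ℝ) ≤ j := by exact_mod_cast hj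
  have hj2' : (j:ℝ) + 3 ≤ 2 * J := by exact_mod_cast (by omega : j + 3 ≤ 2 * J)
  set a : ℝ := j + α + 1 with ha
  set b : ℝ := j + β + 1 with hb
  have hxa : 0 < j + α := by linarith
  have hxb : 0 < j + β := by linarith
  have e0 : (lj α β (j + 1 + 1) - lj α β (j + 1)) - (lj α β (j + 1) - lj α β j) =
      Real.log (1 - 1 / b ^ 2) - Real.log (1 - 1 / a ^ 2) := by
    rw [ha, hb, ← log_dd hxa, ← log_dd hxb]
    unfold lj
    push_cast
    have e1 : (j:ℝ) + 1 + 1 + β = j + β + 1 + 1 := by ring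
    have e2 : (j:ℝ) + 1 + 1 + α = j + α + 1 + 1 := by ring
    have e3 : (j:ℝ) + 1 + β = j + β + 1 := by ring
    have e4 : (j:ℝ) + 1 + α = j + α + 1 := by ring
    rw [e1, e2, e3, e4]
    ring
  rw [e0]
  have ha2 : 2 ≤ a := by linarith
  have hab : a < b := by linarith
  have ha0 : 0 < a := by linarith
  have hb0 : 0 < b := by linarith
  have haJ : J ≤ a := by linarith
  have hbJ : b ≤ 4 * J := by linarith
  have ha21 : 0 < a ^ 2 - 1 := by nlinarith
  set Z : ℝ := (b ^ 2 - a ^ 2) / (b ^ 2 * (a ^ 2 - 1)) with hZ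
  have hba : 0 < b ^ 2 - a ^ 2 := by nlinarith
  have hZ0 : 0 < Z := by positivity
  have e1 : Real.log (1 - 1 / b ^ 2) - Real.log (1 - 1 / a ^ 2) = Real.log (1 + Z) := by
    have hb21 : 0 < b ^ 2 - 1 := by nlinarith
    have h1 : 0 < 1 - 1 / b ^ 2 := by
      have : 1 - 1 / b ^ 2 = (b ^ 2 - 1) / b ^ 2 := by field_simp
      rw [this]; positivity
    have h2 : 0 < 1 - 1 / a ^ 2 := by
      have : 1 - 1 / a ^ 2 = (a ^ 2 - 1) / a ^ 2 := by field_simp
      rw [this]; positivity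
    rw [← Real.log_div h1.ne' h2.ne']
    congr 1
    rw [hZ]
    field_simp
    ring
  rw [e1]
  have hd : b - a = β - α := by rw [ha, hb]; ring
  have hκ : 0 < β - α := by linarith
  have hJ3 : 0 < (J:ℝ) ^ 3 := by positivity
  -- bounds for `Z`
  have hZl : (β - α) * (1 / (32 * (J:ℝ) ^ 3)) ≤ Z := by
    have h1 : b ^ 2 - a ^ 2 = (β - α) * (a + b) := by rw [← hd]; ring
    rw [hZ, h1, mul_div_assoc]
    refine mul_le_mul_of_nonneg_left ?_ hκ.le
    rw [div_le_div_iff₀ (by positivity) (by positivity)]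
    have h2 : b ^ 2 * (a ^ 2 - 1) ≤ b ^ 2 * a ^ 2 := mul_le_mul_of_nonneg_left (by linarith) (by positivity)
    have h3 : b ^ 2 * a ^ 2 ≤ (4 * J) ^ 2 * (b * a) := by
      have : b ^ 2 * a ^ 2 = (b * a) * (b * a) := by ring
      rw [this]
      refine mul_le_mul_of_nonneg_right ?_ (by positivity)
      nlinarith
    have h4 : b * a ≤ 2 * J * (a + b) := by nlinarith
    nlinarith
  have hZu : Z ≤ (β - α) * (8 / 3 * (1 / (J:ℝ) ^ 3)) := by
    have h1 : b ^ 2 - a ^ 2 = (β - α) * (a + b) := by rw [← hd]; ring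
    rw [hZ, h1, mul_div_assoc]
    refine mul_le_mul_of_nonneg_left ?_ hκ.le
    rw [div_le_iff₀ (by positivity)]
    have h2 : 3 / 4 * a ^ 2 ≤ a ^ 2 - 1 := by nlinarith
    have h3 : (J:ℝ) ^ 3 ≤ b * a ^ 2 := by
      have : (J:ℝ) ^ 3 = J * J ^ 2 := by ring
      rw [this]
      exact mul_le_mul (by linarith) (pow_le_pow_left₀ (by linarith) haJ 2) (by positivity) (by positivity)
    have h5 : 8 / 3 * (1 / (J:ℝ) ^ 3) * (b ^ 2 * (a ^ 2 - 1)) ≥ 8 / 3 * (1 / (J:ℝ) ^ 3) * (b ^ 2 * (3 / 4 * a ^ 2)) :=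
      mul_le_mul_of_nonneg_left (mul_le_mul_of_nonneg_left h2 (by positivity)) (by positivity)
    have h6 : 8 / 3 * (1 / (J:ℝ) ^ 3) * (b ^ 2 * (3 / 4 * a ^ 2)) = 2 * b * ((b * a ^ 2) * (1 / (J:ℝ) ^ 3)) := by ring
    have h7 : 1 ≤ (b * a ^ 2) * (1 / (J:ℝ) ^ 3) := by
      rw [mul_one_div, le_div_iff₀ hJ3]; linarith
    have h8 : 2 * b * 1 ≤ 2 * b * ((b * a ^ 2) * (1 / (J:ℝ) ^ 3)) := mul_le_mul_of_nonneg_left h7 (by positivity)
    linarith
  have hZ1 : Z ≤ 1 / 3 := by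
    rw [hZ, div_le_iff₀ (by positivity)]
    have h2 : 3 / 4 * a ^ 2 ≤ a ^ 2 - 1 := by nlinarith
    have h3 : b ^ 2 * (3 / 4 * a ^ 2) ≤ b ^ 2 * (a ^ 2 - 1) := mul_le_mul_of_nonneg_left h2 (by positivity)
    have h4 : 4 * b ^ 2 ≤ b ^ 2 * a ^ 2 := by nlinarith
    nlinarith
  have hlogl : 3 / 4 * Z ≤ Real.log (1 + Z) := by
    have h1 := Real.one_sub_inv_le_log_of_pos (show 0 < 1 + Z by linarith)
    refine le_trans ?_ h1
    have : 1 - (1 + Z)⁻¹ = Z / (1 + Z) := by field_simp; ring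
    rw [this, le_div_iff₀ (by linarith)]
    nlinarith
  have hlogu : Real.log (1 + Z) ≤ Z := by
    have := Real.log_le_sub_one_of_pos (show 0 < 1 + Z by linarith)
    linarith
  constructor
  · refine le_trans ?_ hlogl
    have e3 : (β - α) / (48 * (J:ℝ) ^ 3) = (β - α) * (1 / (32 * (J:ℝ) ^ 3)) * (2 / 3) := by field_simp; ring
    rw [e3]
    nlinarith
  · refine hlogu.trans (hZu.trans (le_of_eq ?_))
    field_simp
    ring

/-- a block without weights -/
lemma block0 {α β V : ℝ} {J n : ℕ} (hα : 0 ≤ α) (hα1 : α ≤ 1) (hαβ : α < β) (hV : 0 < V) (hJ : 1 ≤ J)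
    (hβ : β - α ≤ J) (hn : J ≤ n) (hn2 : n ≤ 2 * J) :
    ‖∑ j ∈ Ico J n, Complex.exp (((V * lj α β j : ℝ) : ℂ) * Complex.I)‖ ≤
      50000 * (Real.sqrt (V * (β - α) / J) + Real.sqrt ((J:ℝ) ^ 3 / (V * (β - α)))) := by
  have hJ1 : (1:ℝ) ≤ J := by exact_mod_cast hJ
  have hκ : 0 < β - α := by linarith
  have hpi := Real.pi_pos
  set lam : ℝ := V / (2 * Real.pi) * ((β - α) / (48 * (J:ℝ) ^ 3)) with hlam
  have hlam0 : 0 < lam := by positivity
  have h1 := vdc_two (g := fun i => V / (2 * Real.pi) * lj α β (J + i)) (M := n - J) (lam := lam) (A := 128)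
    (by norm_num) hJ (by omega : n - J ≤ J) hlam0 (by
      intro i hi
      obtain ⟨g1, g2⟩ := lj_dd (j := J + i) hα hα1 hαβ hJ hβ (by omega) (by omega)
      have e1 : J + (i + 1 + 1) = J + i + 1 + 1 := by ring
      have e2 : J + (i + 1) = J + i + 1 := by ring
      simp only
      rw [e1, e2]
      have hVp : 0 ≤ V / (2 * Real.pi) := by positivity
      have e3 : (V / (2 * Real.pi) * lj α β (J + i + 1 + 1) - V / (2 * Real.pi) * lj α β (J + i + 1)) -
          (V / (2 * Real.pi) * lj α β (J + i + 1) - V / (2 * Real.pi) * lj α β (J + i)) =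
          V / (2 * Real.pi) * ((lj α β (J + i + 1 + 1) - lj α β (J + i + 1)) - (lj α β (J + i + 1) - lj α β (J + i))) := by
        ring
      rw [e3]
      constructor
      · exact mul_le_mul_of_nonneg_left g1 hVp
      · refine (mul_le_mul_of_nonneg_left g2 hVp).trans (le_of_eq ?_)
        rw [hlam]; ring)
  have e1 : ∑ j ∈ Ico J n, Complex.exp (((V * lj α β j : ℝ) : ℂ) * Complex.I) =
      ∑ i ∈ range (n - J), ee (V / (2 * Real.pi) * lj α β (J + i)) := by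
    rw [sum_Ico_eq_sum_range]
    refine sum_congr rfl fun i _ => ?_
    rw [← ee_eq]
    congr 1
    ring
  rw [e1]
  refine h1.trans ?_
  have hpi3 : 3 < Real.pi := Real.pi_gt_three
  have hpi4 : Real.pi < 3.15 := Real.pi_lt_d2
  -- first term
  have t1 : (J:ℝ) * Real.sqrt lam ≤ Real.sqrt (V * (β - α) / J) := by
    rw [← Real.sqrt_sq (by linarith : (0:ℝ) ≤ J), ← Real.sqrt_mul (by positivity)]
    rw [Real.sqrt_sq (by linarith : (0:ℝ) ≤ J)]
    refine Real.sqrt_le_sqrt ?_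
    have e2 : (J:ℝ) ^ 2 * lam = (V * (β - α) / J) * (1 / (96 * Real.pi)) := by
      rw [hlam]; field_simp; ring
    rw [e2]
    have h3 : 1 / (96 * Real.pi) ≤ 1 := by
      rw [div_le_one (by positivity)]; linarith
    exact mul_le_of_le_one_right (by positivity) h3
  have t2 : 1 / Real.sqrt lam ≤ 18 * Real.sqrt ((J:ℝ) ^ 3 / (V * (β - α))) := by
    have e3 : (18:ℝ) = Real.sqrt (18 ^ 2) := (Real.sqrt_sq (by norm_num)).symm
    rw [e3, ← Real.sqrt_mul (by positivity), one_div, ← Real.sqrt_inv]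
    refine Real.sqrt_le_sqrt ?_
    have e4 : lam⁻¹ = (96 * Real.pi) * ((J:ℝ) ^ 3 / (V * (β - α))) := by
      rw [hlam]; field_simp; ring
    rw [e4]
    refine mul_le_mul_of_nonneg_right ?_ (by positivity)
    linarith
  have s1 : 0 ≤ Real.sqrt (V * (β - α) / J) := Real.sqrt_nonneg _
  have s2 : 0 ≤ Real.sqrt ((J:ℝ) ^ 3 / (V * (β - α))) := Real.sqrt_nonneg _
  have : 20 * 128 * ((J:ℝ) * Real.sqrt lam + 1 / Real.sqrt lam) ≤
      20 * 128 * (Real.sqrt (V * (β - α) / J) + 18 * Real.sqrt ((J:ℝ) ^ 3 / (V * (β - α)))) := by gcongr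
  refine this.trans ?_
  linarith

end Pool.Agent.KS6_54.ML
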