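import Pool.Agent.KS6_54.ML.BlkV

set_option autoImplicit false

/-!
# Weighted sums over dyadic blocks
-/

namespace Pool.Agent.KS6_54.ML

open Finset

/-- the kernel -/
noncomputable def Kx (V H l : ℝ) : ℂ := (Real.exp (-(l * H) ^ 2 / 4) : ℂ) * Complex.exp (((V * l : ℝ) : ℂ) * Complex.I)

lemma Kx_norm (V H l : ℝ) : ‖Kx V H l‖ = Real.exp (-(l * H) ^ 2 / 4) := by
  unfold Kx
  rw [norm_mul, Complex.norm_exp_ofReal_mul_I, mul_one, Complex.norm_real, Real.norm_eq_abs,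
    abs_of_pos (Real.exp_pos _)]

lemma Kx_le (V H l : ℝ) : ‖Kx V H l‖ ≤ 1 := by
  rw [Kx_norm, Real.exp_le_one_iff]
  have := sq_nonneg (l * H)
  linarith

/-- the properties of the coefficients -/
structure Gw (g : ℕ → ℝ) (M : ℕ) : Prop where
  nn : ∀ n, 0 ≤ g n
  anti : ∀ m n, 1 ≤ m → m ≤ n → g n ≤ g m
  le : ∀ n, 1 ≤ n → g n ≤ 1 / Real.sqrt n
  z : ∀ n, M < n → g n = 0

lemma Gw.le1 {g : ℕ → ℝ} {M : ℕ} (h : Gw g M) {n : ℕ} (hn : 1 ≤ n) : g n ≤ 1 := by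
  refine (h.le n hn).trans ?_
  have h1 : (1:ℝ) ≤ Real.sqrt n := by
    rw [Real.one_le_sqrt]; exact_mod_cast hn
  rw [div_le_one (by linarith)]
  exact h1

lemma lj_pos {α β : ℝ} {j : ℕ} (h : 0 < j + α) (hαβ : α < β) : 0 < lj α β j := by
  unfold lj
  have := Real.log_lt_log h (by linarith : j + α < j + β)
  linarith

lemma lj_anti {α β : ℝ} {j : ℕ} (h : 0 < j + α) (hαβ : α < β) : lj α β (j + 1) ≤ lj α β j := by
  unfold lj
  have hb : 0 < j + β := by linarith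
  push_cast
  have h1 : 0 < (j:ℝ) + 1 + α := by linarith
  have h2 : 0 < (j:ℝ) + 1 + β := by linarith
  rw [← Real.log_div h2.ne' h1.ne', ← Real.log_div hb.ne' h.ne']
  refine Real.log_le_log (by positivity) ?_
  rw [div_le_div_iff₀ h1 h]
  nlinarith

/-- lower bound of the phase -/
lemma lj_low {α β x : ℝ} {j : ℕ} (h : 0 < j + α) (hx : 0 ≤ x) (hx1 : x ≤ 1) (hκ : x * (j + α) ≤ β - α) :
    x / 2 ≤ lj α β j := by
  unfold lj
  have hb : 0 < j + β := by nlinarith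
  rw [← Real.log_div hb.ne' h.ne']
  have h1 : 1 + x ≤ (j + β) / (j + α) := by
    rw [le_div_iff₀ h]; nlinarith
  have h2 := Real.log_le_log (by linarith) h1
  refine le_trans ?_ h2
  have h3 := Real.one_sub_inv_le_log_of_pos (show 0 < 1 + x by linarith)
  refine le_trans ?_ h3
  have : 1 - (1 + x)⁻¹ = x / (1 + x) := by field_simp; ring
  rw [this, div_le_div_iff₀ (by norm_num) (by linarith)]
  nlinarith

/-- the small weights -/
lemma Kx_small {V H l τ : ℝ} (hτ : 0 ≤ τ) (h : 2 * τ ≤ l * H) : ‖Kx V H l‖ ≤ Real.exp (-τ ^ 2) := by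
  rw [Kx_norm]
  refine Real.exp_le_exp.mpr ?_
  have : (2 * τ) ^ 2 ≤ (l * H) ^ 2 := pow_le_pow_left₀ (by linarith) h 2
  linarith

section
variable {g : ℕ → ℝ} {M : ℕ} {V H τ Y : ℝ} {m1 m2 r s J : ℕ}

/-- the terms of a progression -/
noncomputable def Fj (g : ℕ → ℝ) (V H : ℝ) (m1 m2 r s j : ℕ) : ℂ :=
  ((g (r + m2 * j) * g (s + m1 * j) : ℝ) : ℂ) * Kx V H (lj (r / m2) (s / m1) j)

/-- the sum over a block -/
lemma block1 (hg : Gw g M) (hm1 : 1 ≤ m1) (hm2 : 1 ≤ m2) (hr : r < m2) (hrs : m1 * r < m2 * s)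
    (hV : 0 < V) (hJ : 1 ≤ J) (hκ : (s:ℝ) / m1 - r / m2 ≤ J) :
    ‖∑ j ∈ Ico J (2 * J), Fj g V H m1 m2 r s j‖ ≤
      1 / J * (2 * (50000 * (Real.sqrt (V * ((s:ℝ) / m1 - r / m2) / J) +
        Real.sqrt ((J:ℝ) ^ 3 / (V * ((s:ℝ) / m1 - r / m2)))))) := by
  have hm1' : (0:ℝ) < m1 := by exact_mod_cast hm1
  have hm2' : (0:ℝ) < m2 := by exact_mod_cast hm2
  have hJ' : (0:ℝ) < J := by exact_mod_cast hJ
  set α : ℝ := r / m2 with hα
  set β : ℝ := s / m1 with hβ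
  have hα0 : 0 ≤ α := by positivity
  have hα1 : α ≤ 1 := by
    rw [hα, div_le_one hm2']; exact_mod_cast hr.le
  have hαβ : α < β := by
    rw [hα, hβ, div_lt_div_iff₀ hm2' hm1']
    have : ((m1 * r : ℕ) : ℝ) < ((m2 * s : ℕ) : ℝ) := by exact_mod_cast hrs
    push_cast at this
    linarith
  have hs1 : 1 ≤ s := by
    rcases Nat.eq_zero_or_pos s with h | h
    · rw [h] at hrs; omega
    · exact h
  have hjp : ∀ j : ℕ, J ≤ j → 0 < (j:ℝ) + α := by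
    intro j hj
    have : (0:ℝ) < j := by exact_mod_cast (by omega : 0 < j)
    linarith
  have hB := fun n h1 h2 => block0 (n := n) (V := V) hα0 hα1 hαβ hV hJ hκ h1 h2
  have hmain := abel2 (w := fun j => g (r + m2 * j) * g (s + m1 * j))
    (v := fun j => Real.exp (-(lj α β j * H) ^ 2 / 4)) (z := fun j => Complex.exp (((V * lj α β j : ℝ) : ℂ) * Complex.I))
    (a := J) (b := 2 * J) (by omega) (fun j => mul_nonneg (hg.nn _) (hg.nn _))
    (fun j hj _ => by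
      have a1 : m2 * j ≤ m2 * (j + 1) := Nat.mul_le_mul_left _ (by omega)
      have a2 : m1 * j ≤ m1 * (j + 1) := Nat.mul_le_mul_left _ (by omega)
      have a3 : 1 ≤ m2 * j := Nat.mul_pos hm2 (by omega)
      exact mul_le_mul (hg.anti _ _ (by omega) (by omega)) (hg.anti _ _ (by omega) (by omega)) (hg.nn _) (hg.nn _))
    (fun j => (Real.exp_pos _).le) (fun j => by
      rw [Real.exp_le_one_iff]
      have := sq_nonneg (lj α β j * H)
      linarith)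
    (fun j hj _ => by
      refine Real.exp_le_exp.mpr ?_
      have h1 := lj_anti (hjp j hj) hαβ
      have h2 := (lj_pos (j := j + 1) (hjp (j + 1) (by omega)) hαβ).le
      have h3 : (lj α β (j + 1) * H) ^ 2 ≤ (lj α β j * H) ^ 2 := by
        rw [mul_pow, mul_pow]
        exact mul_le_mul_of_nonneg_right (pow_le_pow_left₀ h2 h1 2) (sq_nonneg H)
      linarith)
    hB
  have e2 : ∑ j ∈ Ico J (2 * J), Fj g V H m1 m2 r s j = ∑ j ∈ Ico J (2 * J),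
      (((g (r + m2 * j) * g (s + m1 * j) : ℝ)) : ℂ) * ((Real.exp (-(lj α β j * H) ^ 2 / 4) : ℝ) *
        Complex.exp (((V * lj α β j : ℝ) : ℂ) * Complex.I)) := by
    refine sum_congr rfl fun j _ => ?_
    unfold Fj Kx
    push_cast
    rfl
  rw [e2]
  refine hmain.trans ?_
  have s1 : 0 ≤ Real.sqrt (V * (β - α) / J) := Real.sqrt_nonneg _
  have s2 : 0 ≤ Real.sqrt ((J:ℝ) ^ 3 / (V * (β - α))) := Real.sqrt_nonneg _
  refine mul_le_mul_of_nonneg_right ?_ (by positivity)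
  have hJJ : ∀ x m : ℕ, 1 ≤ m → g (x + m * J) ≤ 1 / Real.sqrt J := by
    intro x m hm
    have h1 : J ≤ x + m * J := by nlinarith
    refine (hg.le _ (by omega)).trans ?_
    have h2 : Real.sqrt J ≤ Real.sqrt ((x + m * J : ℕ) : ℝ) := Real.sqrt_le_sqrt (by exact_mod_cast h1)
    exact one_div_le_one_div_of_le (Real.sqrt_pos.mpr hJ') h2
  calc g (r + m2 * J) * g (s + m1 * J) ≤ 1 / Real.sqrt J * (1 / Real.sqrt J) :=
        mul_le_mul (hJJ _ _ hm2) (hJJ _ _ hm1) (hg.nn _) (by positivity)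
    _ = 1 / J := by
        rw [div_mul_div_comm, one_mul, Real.mul_self_sqrt hJ'.le]

/-- the size of the bound of a block -/
noncomputable def BB (V H τ Y : ℝ) (J : ℝ) : ℝ :=
  100000 * (Real.sqrt (8 * V * τ / H) / J + Y * Real.sqrt (J / V))

lemma BB_nonneg (V H τ : ℝ) {Y J : ℝ} (hY : 0 ≤ Y) (hJ : 0 ≤ J) : 0 ≤ BB V H τ Y J := by
  unfold BB
  positivity

/-- the sum over a block, near -/
lemma block2 (hg : Gw g M) (hm1 : 1 ≤ m1) (hm2 : 1 ≤ m2) (hr : r < m2) (hrs : m1 * r < m2 * s)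
    (hV : 0 < V) (hH : 0 < H) (hJ : 1 ≤ J) (hτH : 8 * τ ≤ H) (hY1 : (m1:ℝ) ≤ Y) (hY2 : (m2:ℝ) ≤ Y)
    (hκ : (s:ℝ) / m1 - r / m2 ≤ 8 * J * τ / H) :
    ‖∑ j ∈ Ico J (2 * J), Fj g V H m1 m2 r s j‖ ≤ BB V H τ Y J := by
  have hm1' : (0:ℝ) < m1 := by exact_mod_cast hm1
  have hm2' : (0:ℝ) < m2 := by exact_mod_cast hm2
  have hJ' : (0:ℝ) < J := by exact_mod_cast hJ
  have hκJ : (s:ℝ) / m1 - r / m2 ≤ J := by
    refine hκ.trans ?_
    rw [div_le_iff₀ hH]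
    nlinarith
  have h1 := block1 (H := H) hg hm1 hm2 hr hrs hV hJ hκJ
  set κ : ℝ := (s:ℝ) / m1 - r / m2 with hκd
  have hY0 : 0 < Y := by linarith
  have hκlow : 1 / Y ^ 2 ≤ κ := by
    have e : κ = ((m2:ℝ) * s - m1 * r) / (m1 * m2) := by rw [hκd]; field_simp
    rw [e, div_le_div_iff₀ (by positivity) (by positivity)]
    have h2 : (1:ℝ) ≤ (m2:ℝ) * s - m1 * r := by
      have : m1 * r + 1 ≤ m2 * s := hrs
      have h3 : ((m1 * r + 1 : ℕ) : ℝ) ≤ ((m2 * s : ℕ) : ℝ) := by exact_mod_cast this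
      push_cast at h3
      linarith
    have h3 : (m1:ℝ) * m2 ≤ Y ^ 2 := by rw [sq]; exact mul_le_mul hY1 hY2 hm2'.le hY0.le
    have h4 : 1 * Y ^ 2 ≤ ((m2:ℝ) * s - m1 * r) * Y ^ 2 := mul_le_mul_of_nonneg_right h2 (by positivity)
    linarith
  have hκ0 : 0 < κ := lt_of_lt_of_le (by positivity) hκlow
  refine h1.trans ?_
  have t1 : Real.sqrt (V * κ / J) ≤ Real.sqrt (8 * V * τ / H) := by
    refine Real.sqrt_le_sqrt ?_
    rw [div_le_iff₀ hJ']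
    calc V * κ ≤ V * (8 * J * τ / H) := mul_le_mul_of_nonneg_left hκ hV.le
      _ = _ := by ring
  have t2 : 1 / J * Real.sqrt ((J:ℝ) ^ 3 / (V * κ)) ≤ Y * Real.sqrt (J / V) := by
    have a1 : Real.sqrt ((J:ℝ) ^ 3 / (V * κ)) ≤ Real.sqrt ((J:ℝ) ^ 2 * Y ^ 2 * (J / V)) := by
      refine Real.sqrt_le_sqrt ?_
      rw [div_le_iff₀ (by positivity)]
      have : (J:ℝ) ^ 2 * Y ^ 2 * (J / V) * (V * κ) = (J:ℝ) ^ 3 * (Y ^ 2 * κ) := by field_simp
      rw [this]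
      have h5 : 1 ≤ Y ^ 2 * κ := by
        rw [div_le_iff₀ (by positivity)] at hκlow
        linarith
      exact le_mul_of_one_le_right (by positivity) h5
    have a2 : Real.sqrt ((J:ℝ) ^ 2 * Y ^ 2 * (J / V)) = J * Y * Real.sqrt (J / V) := by
      rw [← mul_pow, Real.sqrt_mul (by positivity), Real.sqrt_sq (by positivity)]
    rw [a2] at a1
    calc 1 / J * Real.sqrt ((J:ℝ) ^ 3 / (V * κ)) ≤ 1 / J * (J * Y * Real.sqrt (J / V)) :=
          mul_le_mul_of_nonneg_left a1 (by positivity)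
      _ = _ := by field_simp
  have t3 : 1 / J * Real.sqrt (V * κ / J) ≤ Real.sqrt (8 * V * τ / H) / J := by
    rw [one_div_mul_eq_div]
    exact div_le_div_of_nonneg_right t1 hJ'.le
  unfold BB
  calc 1 / J * (2 * (50000 * (Real.sqrt (V * κ / J) + Real.sqrt ((J:ℝ) ^ 3 / (V * κ))))) =
      100000 * (1 / J * Real.sqrt (V * κ / J) + 1 / J * Real.sqrt ((J:ℝ) ^ 3 / (V * κ))) := by ring
    _ ≤ _ := by linarith

/-- a term of the tail -/
lemma term_tail (hg : Gw g M) (hH : 0 < H) (hm1 : 1 ≤ m1) (hm2 : 1 ≤ m2) (hrs : m1 * r < m2 * s) (hτ : 0 ≤ τ) {j : ℕ} {x : ℝ}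
    (hj : 1 ≤ r + m2 * j) (hx0 : 0 ≤ x) (hx1 : x ≤ 1) (hxH : 4 * τ ≤ x * H)
    (hκ : x * (j + (r:ℝ) / m2) ≤ (s:ℝ) / m1 - r / m2) :
    ‖Fj g V H m1 m2 r s j‖ ≤ Real.exp (-τ ^ 2) := by
  have hm1' : (0:ℝ) < m1 := by exact_mod_cast hm1
  have hm2' : (0:ℝ) < m2 := by exact_mod_cast hm2
  have hs1 : 1 ≤ s := by
    rcases Nat.eq_zero_or_pos s with h | h
    · rw [h] at hrs; omega
    · exact h
  unfold Fj
  have hjp : 0 < (j:ℝ) + (r:ℝ) / m2 := by
    have : (j:ℝ) + (r:ℝ) / m2 = ((r + m2 * j : ℕ) : ℝ) / m2 := by push_cast; field_simp; ring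
    rw [this]
    have : (0:ℝ) < ((r + m2 * j : ℕ) : ℝ) := by exact_mod_cast hj
    positivity
  have h1 := lj_low hjp hx0 hx1 hκ
  have h2 : 2 * τ ≤ lj (r / m2) (s / m1) j * H := by
    have := mul_le_mul_of_nonneg_right h1 hH.le
    linarith
  have h3 := Kx_small (V := V) hτ h2
  rw [norm_mul, Complex.norm_real, Real.norm_of_nonneg (mul_nonneg (hg.nn _) (hg.nn _))]
  calc _ ≤ (1 * 1) * Real.exp (-τ ^ 2) :=
        mul_le_mul (mul_le_mul (hg.le1 hj) (hg.le1 (by omega)) (hg.nn _) zero_le_one) h3 (norm_nonneg _) (by norm_num)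
    _ = _ := by ring

end

end Pool.Agent.KS6_54.ML
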