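import Pool.Agent.KS6_54.ML.Gam

set_option autoImplicit false

/-!
# The dual sum: individual terms and the tail
-/

open Finset

namespace Pool.Agent.KS6_54.ML

/-- the points of the dual sum -/
noncomputable def zc (N : ℕ) (y : ℝ) : ℂ := ((1 / (N : ℝ) : ℝ) : ℂ) + ((2 * Real.pi * y : ℝ) : ℂ) * Complex.I

lemma zc_re (N : ℕ) (y : ℝ) : (zc N y).re = 1 / N := by simp [zc]
lemma zc_im (N : ℕ) (y : ℝ) : (zc N y).im = 2 * Real.pi * y := by simp [zc]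

lemma zc_re_pos {N : ℕ} (hN : 1 ≤ N) (y : ℝ) : 0 < (zc N y).re := by
  rw [zc_re]
  have : (0 : ℝ) < N := by exact_mod_cast hN
  positivity

lemma zc_ne {N : ℕ} (hN : 1 ≤ N) (y : ℝ) : zc N y ≠ 0 := by
  intro h
  have := zc_re_pos hN y
  rw [h] at this
  simp at this

lemma zc_norm_pos {N : ℕ} (hN : 1 ≤ N) (y : ℝ) : 0 < ‖zc N y‖ := norm_pos_iff.2 (zc_ne hN y)

lemma zc_norm_sq (N : ℕ) (y : ℝ) : ‖zc N y‖ ^ 2 = (1 / N) ^ 2 + (2 * Real.pi * y) ^ 2 := by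
  rw [← Complex.normSq_eq_norm_sq, Complex.normSq_apply, zc_re, zc_im]
  ring

lemma zc_ge_re {N : ℕ} (y : ℝ) : 1 / (N : ℝ) ≤ ‖zc N y‖ := by
  rw [← zc_re N y]
  exact Complex.re_le_norm _

lemma zc_ge_im {N : ℕ} {y : ℝ} (_hy : 0 ≤ y) : 2 * Real.pi * y ≤ ‖zc N y‖ := by
  rw [← zc_im N y]
  exact Complex.im_le_norm _

lemma zc_le {N : ℕ} {y : ℝ} (hy : 0 ≤ y) : ‖zc N y‖ ≤ 1 / N + 2 * Real.pi * y := by
  have hp := Real.pi_pos
  unfold zc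
  refine (norm_add_le _ _).trans ?_
  rw [norm_mul, Complex.norm_I, mul_one, Complex.norm_real, Complex.norm_real,
    Real.norm_of_nonneg (by positivity), Real.norm_of_nonneg (by positivity)]

/-- the damping exponent -/
noncomputable def psi (N : ℕ) (y : ℝ) : ℝ := Real.pi / 2 - Complex.arg (zc N y)

lemma arg_bd {N : ℕ} (hN : 1 ≤ N) (y : ℝ) : |Complex.arg (zc N y)| < Real.pi / 2 := by
  rw [Complex.abs_arg_lt_pi_div_two_iff]
  left
  exact zc_re_pos hN y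

lemma psi_pos {N : ℕ} (hN : 1 ≤ N) (y : ℝ) : 0 < psi N y := by
  unfold psi
  linarith [(abs_lt.1 (arg_bd hN y)).2]

lemma sin_psi {N : ℕ} (hN : 1 ≤ N) (y : ℝ) : Real.sin (psi N y) = 1 / (N * ‖zc N y‖) := by
  unfold psi
  rw [Real.sin_pi_div_two_sub, Complex.cos_arg (zc_ne hN y), zc_re, div_div]

lemma psi_lower {N : ℕ} (hN : 1 ≤ N) (y : ℝ) : 1 / (N * ‖zc N y‖) ≤ psi N y := by
  rw [← sin_psi hN]
  exact Real.sin_le (psi_pos hN y).le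

lemma psi_neg {N : ℕ} {y : ℝ} (hy : y ≤ 0) : Real.pi / 2 ≤ psi N y := by
  unfold psi
  have hp := Real.pi_pos
  have : Complex.arg (zc N y) ≤ 0 := by
    rcases hy.eq_or_lt with h | h
    · rw [h]
      have : zc N 0 = ((1 / (N : ℝ) : ℝ) : ℂ) := by simp [zc]
      rw [this, Complex.arg_ofReal_of_nonneg (by positivity)]
    · apply le_of_lt
      rw [Complex.arg_neg_iff, zc_im]
      nlinarith
  linarith

lemma psi_upper {N : ℕ} (hN : 1 ≤ N) {y : ℝ} (hy : 0 < y) :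
    psi N y ≤ 1 / (4 * (N * y)) := by
  have hp := Real.pi_pos
  have hN0 : (0 : ℝ) < N := by exact_mod_cast hN
  have h1 : 0 ≤ Complex.arg (zc N y) := by
    rw [Complex.arg_nonneg_iff, zc_im]
    positivity
  have h2 : psi N y ≤ Real.pi / 2 := by unfold psi; linarith
  have h3 := Real.mul_le_sin (psi_pos hN y).le h2
  rw [sin_psi hN] at h3
  have h4 : psi N y ≤ Real.pi / 2 * (1 / (N * ‖zc N y‖)) := by
    have h5 : psi N y = Real.pi / 2 * (2 / Real.pi * psi N y) := by field_simp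
    rw [h5]
    exact mul_le_mul_of_nonneg_left h3 (by positivity)
  refine h4.trans ?_
  have h6 := zc_ge_im (N := N) hy.le
  have h7 := zc_norm_pos hN y
  rw [div_mul_div_comm, mul_one, div_le_div_iff₀ (by positivity) (by positivity)]
  nlinarith [mul_le_mul_of_nonneg_left h6 hN0.le]

/-- one term of the dual sum, with the Gamma factor -/
lemma term_bound (k : ℕ) {N : ℕ} (hN : 1 ≤ N) (y : ℝ) {τ : ℝ} (hτ : 1 ≤ τ) :
    ‖Complex.Gamma (ex k τ + 1)‖ * ‖zc N y ^ (-(ex k τ + 1))‖ ≤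
      4 * ((k : ℝ) + 1) ^ k * (τ ^ k * Real.sqrt τ * (‖zc N y‖ ^ (k + 1))⁻¹ *
        Real.exp (-(τ * psi N y))) := by
  have hz := zc_norm_pos hN y
  rw [norm_cpow_bound k τ (zc_ne hN y)]
  have e1 : ‖zc N y‖ ^ (-((k : ℝ) + 1)) = (‖zc N y‖ ^ (k + 1))⁻¹ := by
    rw [Real.rpow_neg hz.le]
    congr 1
    rw [← Real.rpow_natCast]
    push_cast
    rfl
  have e2 : Real.exp (-(τ * psi N y)) = Real.exp (-(Real.pi * τ / 2)) *
      Real.exp (τ * Complex.arg (zc N y)) := by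
    rw [← Real.exp_add]
    congr 1
    unfold psi
    ring
  rw [e1, e2]
  calc ‖Complex.Gamma (ex k τ + 1)‖ * ((‖zc N y‖ ^ (k + 1))⁻¹ *
        Real.exp (τ * Complex.arg (zc N y)))
      ≤ (4 * ((k : ℝ) + 1) ^ k * (τ ^ k * Real.sqrt τ * Real.exp (-(Real.pi * τ / 2)))) *
        ((‖zc N y‖ ^ (k + 1))⁻¹ * Real.exp (τ * Complex.arg (zc N y))) :=
        mul_le_mul_of_nonneg_right (gamma_bound k hτ) (by positivity)
    _ = _ := by ring

/-- the main range of the dual variable -/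
noncomputable def MR (Y0 Y1 θ : ℝ) : Finset ℤ := Icc ⌈Y0 + θ⌉ ⌊Y1 + θ⌋

lemma mem_MR {Y0 Y1 θ : ℝ} {ξ : ℤ} : ξ ∈ MR Y0 Y1 θ ↔ Y0 ≤ ξ - θ ∧ ξ - θ ≤ Y1 := by
  unfold MR
  rw [mem_Icc, Int.ceil_le, Int.le_floor]
  constructor
  · rintro ⟨h1, h2⟩; exact ⟨by linarith, by linarith⟩
  · rintro ⟨h1, h2⟩; exact ⟨by linarith, by linarith⟩

lemma card_MR {Y0 Y1 θ : ℝ} (h0 : 0 ≤ Y0) (h1 : 1 ≤ Y1) : ((MR Y0 Y1 θ).card : ℝ) ≤ 2 * Y1 := by
  unfold MR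
  rw [Int.card_Icc]
  have a1 := Int.floor_le (Y1 + θ)
  have a2 := Int.le_ceil (Y0 + θ)
  have h2 : (((⌊Y1 + θ⌋ + 1 - ⌈Y0 + θ⌉).toNat : ℤ) : ℝ) ≤ 2 * Y1 := by
    rcases le_total 0 (⌊Y1 + θ⌋ + 1 - ⌈Y0 + θ⌉) with h | h
    · rw [Int.toNat_of_nonneg h]
      push_cast
      linarith
    · rw [Int.toNat_of_nonpos h]
      simp
      linarith
  exact_mod_cast h2

/-- the summable majorant -/
noncomputable def C4 : ℝ := ∑' ξ : ℤ, 3 / (1 + (ξ : ℝ) ^ 2)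

lemma C4_summable : Summable fun ξ : ℤ => 3 / (1 + (ξ : ℝ) ^ 2) := by
  have h1 : Summable fun ξ : ℤ => 1 / (ξ : ℝ) ^ 2 := Real.summable_one_div_int_pow.2 one_lt_two
  have h2 : Summable fun ξ : ℤ => 3 * (1 / (ξ : ℝ) ^ 2) := h1.mul_left 3
  have h3 : ∀ᶠ ξ : ℤ in Filter.cofinite, ‖3 / (1 + (ξ : ℝ) ^ 2)‖ ≤ 3 * (1 / (ξ : ℝ) ^ 2) := by
    filter_upwards [(Set.finite_singleton (0 : ℤ)).compl_mem_cofinite] with ξ hξ0
    have hξ : ξ ≠ 0 := by simpa using hξ0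
    have h4 : (0 : ℝ) < (ξ : ℝ) ^ 2 := by positivity
    rw [Real.norm_of_nonneg (by positivity), mul_one_div]
    exact div_le_div_of_nonneg_left (by norm_num) h4 (by linarith)
  exact Summable.of_norm_bounded_eventually h2 h3

lemma C4_nonneg : 0 ≤ C4 := tsum_nonneg fun ξ => by positivity

lemma maj_shift (θ : ℝ) : HasSum (fun ξ : ℤ => 3 / (1 + ((ξ : ℝ) - ⌊θ⌋) ^ 2)) C4 := by
  have h := (Equiv.subRight ⌊θ⌋).hasSum_iff.2 C4_summable.hasSum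
  unfold C4
  convert h using 2 with ξ
  simp

lemma maj_le (θ : ℝ) (ξ : ℤ) : 1 / (1 + ((ξ : ℝ) - θ) ^ 2) ≤ 3 / (1 + ((ξ : ℝ) - ⌊θ⌋) ^ 2) := by
  rw [div_le_div_iff₀ (by positivity) (by positivity)]
  have h1 := Int.floor_le θ
  have h2 := Int.lt_floor_add_one θ
  set f := θ - ⌊θ⌋ with hf
  have h3 : 0 ≤ f := by linarith
  have h4 : f ≤ 1 := by linarith
  have e : (ξ : ℝ) - θ = ((ξ : ℝ) - ⌊θ⌋) - f := by rw [hf]; ring
  rw [e]
  set x := (ξ : ℝ) - ⌊θ⌋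
  nlinarith [sq_nonneg (x - 2 * f), sq_nonneg (x - f), mul_nonneg h3 (sub_nonneg.2 h4)]

lemma inv_zc_le {N : ℕ} (hN : 1 ≤ N) (y : ℝ) : (‖zc N y‖ ^ 2)⁻¹ ≤ (N : ℝ) ^ 2 * (1 / (1 + y ^ 2)) := by
  have hN1 : (1 : ℝ) ≤ N := by exact_mod_cast hN
  have hp := Real.pi_gt_three
  rw [zc_norm_sq, mul_one_div, inv_eq_one_div, div_le_div_iff₀ (by positivity) (by positivity)]
  have h1 : (N : ℝ) ^ 2 * ((1 / N) ^ 2 + (2 * Real.pi * y) ^ 2) =
      1 + (N : ℝ) ^ 2 * (2 * Real.pi) ^ 2 * y ^ 2 := by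
    field_simp
  rw [h1, one_mul]
  have h2 : 1 ≤ (N : ℝ) ^ 2 * (2 * Real.pi) ^ 2 := by
    have a1 : 1 ≤ (N : ℝ) ^ 2 := by nlinarith
    have a2 : 1 ≤ (2 * Real.pi) ^ 2 := by nlinarith
    nlinarith
  nlinarith [sq_nonneg y]

/-- **The terms outside of the main range.** -/
lemma out_term (j : ℕ) {N X : ℕ} (hN : 1 ≤ N) (hX : N ≤ X) (hX2 : X ≤ N ^ 2) {Z : ℝ} (hZ : 1 ≤ Z)
    (hZX : Z ≤ X) (hZ1 : (N : ℝ) ^ 6 ≤ Z ^ (j + 2)) (hZ2 : (N : ℝ) ^ (2 * j + 10) ≤ Real.exp (Z / 16))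
    {τ : ℝ} (hτ : (X : ℝ) / 2 ≤ τ) (hτ1 : 1 ≤ τ) (hτ2 : τ ≤ 5 * X / 2) {y : ℝ}
    (hy : ¬ (X / (N * Z) ≤ y ∧ y ≤ Z * X / N)) :
    ‖Complex.Gamma (ex (j + 3) τ + 1)‖ * ‖zc N y ^ (-(ex (j + 3) τ + 1))‖ ≤
      4 * ((j : ℝ) + 4) ^ (j + 3) * 3 ^ (j + 4) * (N : ℝ) ^ j * (‖zc N y‖ ^ 2)⁻¹ := by
  have hN1 : (1 : ℝ) ≤ N := by exact_mod_cast hN
  have hN0 : (0 : ℝ) < N := by linarith
  have hXr : (N : ℝ) ≤ X := by exact_mod_cast hX
  have hX2r : (X : ℝ) ≤ (N : ℝ) ^ 2 := by exact_mod_cast hX2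
  have hX0 : (0 : ℝ) < X := by linarith
  have hZ0 : 0 < Z := by linarith
  have hz := zc_norm_pos hN y
  have hp := Real.pi_gt_three
  have hp4 := Real.pi_lt_four
  refine (term_bound (j + 3) hN y hτ1).trans ?_
  have e0 : (((j + 3 : ℕ) : ℝ) + 1) = (j : ℝ) + 4 := by push_cast; ring
  rw [e0]
  have hτ0 : 0 < τ := by linarith
  have h1 : τ ^ (j + 3) * Real.sqrt τ ≤ 3 ^ (j + 4) * (X : ℝ) ^ (j + 4) := by
    have a1 : Real.sqrt τ ≤ τ := by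
      rw [Real.sqrt_le_iff]; exact ⟨hτ0.le, by nlinarith⟩
    calc τ ^ (j + 3) * Real.sqrt τ ≤ τ ^ (j + 3) * τ := mul_le_mul_of_nonneg_left a1 (by positivity)
      _ = τ ^ (j + 4) := by rw [← pow_succ]
      _ ≤ (3 * X) ^ (j + 4) := pow_le_pow_left₀ hτ0.le (by linarith) _
      _ = _ := by rw [mul_pow]
  have e1 : (‖zc N y‖ ^ (j + 3 + 1))⁻¹ = (‖zc N y‖ ^ (j + 2))⁻¹ * (‖zc N y‖ ^ 2)⁻¹ := by
    rw [← mul_inv, ← pow_add]
  have key : (X : ℝ) ^ (j + 4) * (‖zc N y‖ ^ (j + 2))⁻¹ * Real.exp (-(τ * psi N y)) ≤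
      (N : ℝ) ^ j := by
    have hψ := psi_pos hN y
    rw [not_and_or, not_le, not_le] at hy
    rcases hy with hy | hy
    · -- the damping is strong
      have h2 : Real.exp (-(τ * psi N y)) ≤ Real.exp (-(Z / 16)) := by
        apply Real.exp_le_exp.2
        have : Z / 16 ≤ τ * psi N y := by
          rcases le_or_gt y 0 with h0 | h0
          · have := psi_neg (N := N) h0
            nlinarith
          · have h3 := psi_lower hN y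
            have h4 : ‖zc N y‖ ≤ 8 * (X / (N * Z)) := by
              have h5 : 1 / (N : ℝ) ≤ X / (N * Z) := by
                rw [div_le_div_iff₀ hN0 (by positivity)]
                nlinarith
              have h6 : 2 * Real.pi * y ≤ 7 * (X / (N * Z)) := by
                have : 2 * Real.pi ≤ 7 := by
                  have := Real.pi_lt_d2
                  linarith
                have h7 : 0 ≤ X / (N * Z) := by positivity
                nlinarith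
              linarith [zc_le (N := N) h0.le]
            have h5 : Z / (8 * X) ≤ 1 / (N * ‖zc N y‖) := by
              rw [div_le_div_iff₀ (by positivity) (by positivity)]
              have h6 : N * ‖zc N y‖ * Z ≤ N * (8 * (X / (N * Z))) * Z := by gcongr
              have h7 : N * (8 * (X / (N * Z))) * Z = 8 * X := by field_simp
              nlinarith
            have h6 : Z / (8 * X) ≤ psi N y := h5.trans h3
            have h7 : Z / 16 = (X / 2) * (Z / (8 * X)) := by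
              field_simp
              norm_num
            rw [h7]
            exact mul_le_mul hτ h6 (by positivity) hτ0.le
        linarith
      have h3 : (‖zc N y‖ ^ (j + 2))⁻¹ ≤ (N : ℝ) ^ (j + 2) := by
        have h4 := zc_ge_re (N := N) y
        have h5 : (1 / (N : ℝ)) ^ (j + 2) ≤ ‖zc N y‖ ^ (j + 2) :=
          pow_le_pow_left₀ (by positivity) h4 _
        calc (‖zc N y‖ ^ (j + 2))⁻¹ ≤ ((1 / (N : ℝ)) ^ (j + 2))⁻¹ :=
              inv_anti₀ (by positivity) h5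
          _ = (N : ℝ) ^ (j + 2) := by rw [one_div, inv_pow, inv_inv]
      have h4 : (X : ℝ) ^ (j + 4) ≤ (N : ℝ) ^ (2 * j + 8) := by
        calc (X : ℝ) ^ (j + 4) ≤ ((N : ℝ) ^ 2) ^ (j + 4) := pow_le_pow_left₀ hX0.le hX2r _
          _ = (N : ℝ) ^ (2 * j + 8) := by rw [← pow_mul]; rfl
      have h5 : Real.exp (-(Z / 16)) ≤ ((N : ℝ) ^ (2 * j + 10))⁻¹ := by
        rw [Real.exp_neg]
        exact inv_anti₀ (by positivity) hZ2
      calc (X : ℝ) ^ (j + 4) * (‖zc N y‖ ^ (j + 2))⁻¹ * Real.exp (-(τ * psi N y))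
          ≤ (N : ℝ) ^ (2 * j + 8) * (N : ℝ) ^ (j + 2) * ((N : ℝ) ^ (2 * j + 10))⁻¹ := by
            gcongr
            exact h2.trans h5
        _ = (N : ℝ) ^ j := by
            rw [← pow_add, show 2 * j + 8 + (j + 2) = j + (2 * j + 10) by ring, pow_add]
            field_simp
    · -- the dual variable is large
      have hY : 0 < Z * X / N := by positivity
      have hy0 : 0 ≤ y := by linarith
      have h2 : Real.exp (-(τ * psi N y)) ≤ 1 := by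
        apply Real.exp_le_one_iff.2
        have : 0 ≤ τ * psi N y := by positivity
        linarith
      have h3 : Z * X / N ≤ ‖zc N y‖ := by
        have := zc_ge_im (N := N) hy0
        nlinarith
      have h4 : (‖zc N y‖ ^ (j + 2))⁻¹ ≤ ((Z * X / N) ^ (j + 2))⁻¹ :=
        inv_anti₀ (by positivity) (pow_le_pow_left₀ hY.le h3 _)
      calc (X : ℝ) ^ (j + 4) * (‖zc N y‖ ^ (j + 2))⁻¹ * Real.exp (-(τ * psi N y))
          ≤ (X : ℝ) ^ (j + 4) * ((Z * X / N) ^ (j + 2))⁻¹ * 1 := by gcongr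
        _ = (X : ℝ) ^ 2 * (N : ℝ) ^ (j + 2) / Z ^ (j + 2) := by
            rw [div_pow, mul_pow, inv_div, show j + 4 = 2 + (j + 2) by ring, pow_add]
            field_simp
        _ ≤ ((N : ℝ) ^ 2) ^ 2 * (N : ℝ) ^ (j + 2) / (N : ℝ) ^ 6 := by gcongr
        _ = (N : ℝ) ^ j := by
            rw [← pow_mul, ← pow_add, show 2 * 2 + (j + 2) = j + 6 by ring, pow_add]
            field_simp
  rw [e1]
  calc 4 * ((j : ℝ) + 4) ^ (j + 3) * (τ ^ (j + 3) * Real.sqrt τ *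
        ((‖zc N y‖ ^ (j + 2))⁻¹ * (‖zc N y‖ ^ 2)⁻¹) * Real.exp (-(τ * psi N y)))
      ≤ 4 * ((j : ℝ) + 4) ^ (j + 3) * ((3 ^ (j + 4) * (X : ℝ) ^ (j + 4)) *
        ((‖zc N y‖ ^ (j + 2))⁻¹ * (‖zc N y‖ ^ 2)⁻¹) * Real.exp (-(τ * psi N y))) := by gcongr
    _ = 4 * ((j : ℝ) + 4) ^ (j + 3) * 3 ^ (j + 4) * ((X : ℝ) ^ (j + 4) *
        (‖zc N y‖ ^ (j + 2))⁻¹ * Real.exp (-(τ * psi N y))) * (‖zc N y‖ ^ 2)⁻¹ := by ring
    _ ≤ 4 * ((j : ℝ) + 4) ^ (j + 3) * 3 ^ (j + 4) * (N : ℝ) ^ j * (‖zc N y‖ ^ 2)⁻¹ := by gcongr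

/-- **The tail of the dual sum.** -/
theorem tail_bound (j : ℕ) {N X : ℕ} (hN : 1 ≤ N) (hX : N ≤ X) (hX2 : X ≤ N ^ 2) {Z : ℝ}
    (hZ : 1 ≤ Z) (hZX : Z ≤ X) (hZ1 : (N : ℝ) ^ 6 ≤ Z ^ (j + 2))
    (hZ2 : (N : ℝ) ^ (2 * j + 10) ≤ Real.exp (Z / 16))
    {τ : ℝ} (hτ : (X : ℝ) / 2 ≤ τ) (hτ1 : 1 ≤ τ) (hτ2 : τ ≤ 5 * X / 2) (θ : ℝ) :
    ‖Complex.Gamma (ex (j + 3) τ + 1)‖ * ‖(∑' ξ : ℤ, zc N (ξ - θ) ^ (-(ex (j + 3) τ + 1))) -
      ∑ ξ ∈ MR (X / (N * Z)) (Z * X / N) θ, zc N (ξ - θ) ^ (-(ex (j + 3) τ + 1))‖ ≤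
      4 * ((j : ℝ) + 4) ^ (j + 3) * 3 ^ (j + 4) * C4 * (N : ℝ) ^ (j + 2) := by
  classical
  have hN1 : (1 : ℝ) ≤ N := by exact_mod_cast hN
  set C := 4 * ((j : ℝ) + 4) ^ (j + 3) * 3 ^ (j + 4) with hC
  set f : ℤ → ℂ := fun ξ => zc N (ξ - θ) ^ (-(ex (j + 3) τ + 1)) with hf
  set M := MR (X / (N * Z)) (Z * X / N) θ with hM
  have hsum : Summable f := by
    have hr : 0 < (((1 / (N : ℝ) : ℝ) : ℂ) - 2 * Real.pi * θ * Complex.I).re := by
      simp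
      linarith
    have := dual_summable (k := j + 3) (by omega) τ hr
    refine this.congr fun ξ => ?_
    rw [hf]
    simp only
    congr 1
    unfold zc
    push_cast
    ring
  have e1 : (∑' ξ, f ξ) - ∑ ξ ∈ M, f ξ = ∑' ξ, (if ξ ∈ M then 0 else f ξ) := by
    have h1 : HasSum (fun ξ => if ξ ∈ M then f ξ else 0) (∑ ξ ∈ M, f ξ) := by
      have h2 : HasSum (fun ξ => if ξ ∈ M then f ξ else 0)
          (∑ ξ ∈ M, (if ξ ∈ M then f ξ else 0)) :=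
        hasSum_sum_of_ne_finset_zero (fun n hn => if_neg hn)
      rwa [sum_congr rfl fun ξ hξ => if_pos hξ] at h2
    have h3 := hsum.hasSum.sub h1
    rw [← h3.tsum_eq]
    apply tsum_congr
    intro ξ
    split_ifs <;> simp
  rw [e1]
  have hG0 : 0 ≤ ‖Complex.Gamma (ex (j + 3) τ + 1)‖ := norm_nonneg _
  have h2 : ∀ ξ : ℤ, ‖Complex.Gamma (ex (j + 3) τ + 1) * (if ξ ∈ M then 0 else f ξ)‖ ≤
      (C * (N : ℝ) ^ (j + 2)) * (3 / (1 + ((ξ : ℝ) - ⌊θ⌋) ^ 2)) := by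
    intro ξ
    split_ifs with h
    · rw [mul_zero, norm_zero]; positivity
    · rw [norm_mul]
      have h3 : ¬ (X / (N * Z) ≤ (ξ : ℝ) - θ ∧ (ξ : ℝ) - θ ≤ Z * X / N) := by
        rwa [hM, mem_MR] at h
      refine (out_term j hN hX hX2 hZ hZX hZ1 hZ2 hτ hτ1 hτ2 h3).trans ?_
      calc C * (N : ℝ) ^ j * (‖zc N (ξ - θ)‖ ^ 2)⁻¹
          ≤ C * (N : ℝ) ^ j * ((N : ℝ) ^ 2 * (3 / (1 + ((ξ : ℝ) - ⌊θ⌋) ^ 2))) := by
            apply mul_le_mul_of_nonneg_left _ (by positivity)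
            exact (inv_zc_le hN _).trans (mul_le_mul_of_nonneg_left (maj_le θ ξ) (by positivity))
        _ = _ := by rw [pow_add]; ring
  have h3 := (maj_shift θ).mul_left (C * (N : ℝ) ^ (j + 2))
  have h4 := tsum_of_norm_bounded h3 h2
  rw [tsum_mul_left, norm_mul] at h4
  refine h4.trans (le_of_eq ?_)
  ring

end Pool.Agent.KS6_54.ML
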