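import Pool.Graph.R_seed8.TH445.MQ.MV

set_option autoImplicit false

/-!
# From fourth moments over dyadic blocks to the inequality of Q1
-/

open Finset

namespace Pool.Agent.KS6_54.ML

open Pool.Agent.W200.MR (pw)
open Pool.Agent.TH445.MQ (pw_norm pw_add AF ev Bd mvt ev_eq)

lemma dyadic (F : ℕ → ℝ) (hF : ∀ t, 0 ≤ F t) (B : ℝ) (hB : 0 ≤ B) (X₀ : ℕ) (hX₀ : 1 ≤ X₀) (T : ℕ)
    (h : ∀ X, X₀ ≤ X → X ≤ T → ∑ t ∈ Icc X (2 * X), F t ≤ B) :
    ∑ t ∈ Icc X₀ T, F t ≤ B * (Nat.log 2 T + 1) := by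
  induction T using Nat.strong_induction_on with
  | _ T ih =>
    rcases lt_or_ge T X₀ with hT | hT
    · rw [Icc_eq_empty (by omega), sum_empty]
      positivity
    · have hT1 : 1 ≤ T := by omega
      set X := (T + 1) / 2 with hX
      have hXT : X ≤ T := by omega
      have hX2 : T ≤ 2 * X := by omega
      rcases lt_or_ge X X₀ with h1 | h1
      · have h2 : ∑ t ∈ Icc X₀ T, F t ≤ ∑ t ∈ Icc X₀ (2 * X₀), F t :=
          sum_le_sum_of_subset_of_nonneg (Icc_subset_Icc le_rfl (by omega)) fun t _ _ => hF t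
        refine h2.trans ((h X₀ le_rfl hT).trans ?_)
        have : (0 : ℝ) ≤ Nat.log 2 T := by positivity
        nlinarith
      · have h2 : ∑ t ∈ Icc X₀ T, F t ≤ ∑ t ∈ Icc X₀ (X - 1), F t + ∑ t ∈ Icc X (2 * X), F t := by
          rw [← sum_union]
          · apply sum_le_sum_of_subset_of_nonneg
            · intro t ht
              rw [mem_union, mem_Icc, mem_Icc]
              rw [mem_Icc] at ht
              omega
            · intro t _ _
              exact hF t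
          · rw [Finset.disjoint_left]
            intro t ht ht'
            rw [mem_Icc] at ht ht'
            omega
        have h3 := ih (X - 1) (by omega) (fun X' h4 h5 => h X' h4 (by omega))
        have h4 := h X h1 hXT
        rcases lt_or_ge (X - 1) X₀ with h5 | h5
        · have e : Icc X₀ (X - 1) = ∅ := Icc_eq_empty (by omega)
          rw [e, sum_empty] at h2
          have : (0 : ℝ) ≤ Nat.log 2 T := by positivity
          nlinarith
        · have h6 : Nat.log 2 (X - 1) + 1 ≤ Nat.log 2 T := by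
            have h7 : X - 1 ≤ T / 2 := by omega
            have h8 : 2 ≤ T := by omega
            have h9 := Nat.log_div_base 2 T
            have h10 : Nat.log 2 (X - 1) ≤ Nat.log 2 (T / 2) := Nat.log_mono_right h7
            have h11 : 1 ≤ Nat.log 2 T := Nat.log_pos (by norm_num) h8
            omega
          have h7 : (Nat.log 2 (X - 1) : ℝ) + 1 ≤ Nat.log 2 T := by exact_mod_cast h6
          have h8 : B * ((Nat.log 2 (X - 1) : ℝ) + 1) ≤ B * Nat.log 2 T :=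
            mul_le_mul_of_nonneg_left h7 hB
          linarith

/-- the sharply cut polynomial as an evaluation -/
noncomputable def afc (N : ℕ) (b : ℕ → ℂ) : AF :=
  ⟨fun n => if n ∈ Icc N (2 * N) ∧ n ≠ 0 then b n else 0, by simp⟩

lemma afc_apply (N : ℕ) (b : ℕ → ℂ) (n : ℕ) :
    afc N b n = if n ∈ Icc N (2 * N) ∧ n ≠ 0 then b n else 0 := rfl

lemma afc_bd (N : ℕ) (b : ℕ → ℂ) (hb : ∀ n ∈ Icc N (2 * N), ‖b n‖ ≤ 1) :
    Bd (afc N b) 1 (2 * N : ℕ) := by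
  constructor
  · intro n
    rw [afc_apply]
    split_ifs with h
    · exact hb n h.1
    · simp
  · intro n hn
    rw [afc_apply] at hn
    have : n ∈ Icc N (2 * N) ∧ n ≠ 0 := by
      by_contra h
      exact hn (if_neg h)
    exact_mod_cast (mem_Icc.1 this.1).2

lemma afc_ev (N : ℕ) (hN : 1 ≤ N) (b : ℕ → ℂ) (τ : ℝ) :
    ev (afc N b) τ = ∑ n ∈ Icc N (2 * N), b n * pw τ n := by
  rw [ev_eq (afc N b) (2 * N)]
  · symm
    apply sum_subset_zero_on_sdiff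
    · exact Icc_subset_Icc hN le_rfl
    · intro n hn
      rw [mem_sdiff] at hn
      rw [afc_apply, if_neg (fun h => hn.2 h.1), zero_mul]
    · intro n hn
      rw [afc_apply, if_pos]
      exact ⟨hn, by have := (mem_Icc.1 hn).1; omega⟩
  · intro n hn
    rw [afc_apply, if_neg]
    intro h
    have := (mem_Icc.1 h.1).2
    omega

lemma D_le (N : ℕ) (b : ℕ → ℂ) (hb : ∀ n ∈ Icc N (2 * N), ‖b n‖ ≤ 1) (τ : ℝ) :
    ‖∑ n ∈ Icc N (2 * N), b n * pw τ n‖ ≤ N + 1 := by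
  refine (norm_sum_le _ _).trans ?_
  calc ∑ n ∈ Icc N (2 * N), ‖b n * pw τ n‖ ≤ ∑ n ∈ Icc N (2 * N), (1 : ℝ) := by
        apply sum_le_sum
        intro n hn
        rw [norm_mul, pw_norm, mul_one]
        exact hb n hn
    _ = N + 1 := by
        rw [sum_const, Nat.card_Icc, nsmul_eq_mul, mul_one]
        have : 2 * N + 1 - N = N + 1 := by omega
        rw [this]; push_cast; ring

lemma log_le_rpow' {δ : ℝ} (hδ : 0 < δ) {x : ℝ} (hx : 1 ≤ x) : 1 + Real.log x ≤ (1 + 1 / δ) * x ^ δ := by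
  have h1 := Real.log_le_rpow_div (by linarith : (0 : ℝ) ≤ x) hδ
  have h2 : 1 ≤ x ^ δ := Real.one_le_rpow hx hδ.le
  have h3 : x ^ δ / δ = 1 / δ * x ^ δ := by ring
  rw [h3] at h1
  nlinarith

/-- **The small values of `t`.** -/
theorem small_part (q δ : ℝ) (hq : 2 ≤ q) (hδ : 0 < δ) (hδ1 : δ ≤ 1) : ∃ K : ℝ, 0 ≤ K ∧
    ∀ N X : ℕ, 1 ≤ N → N ≤ X → (X : ℝ) ≤ 2 * (N : ℝ) ^ (1 + 3 * δ) → ∀ b : ℕ → ℂ,
      (∀ n ∈ Icc N (2 * N), ‖b n‖ ≤ 1) →
      ∑ t ∈ Icc 1 (2 * X), ‖∑ n ∈ Icc N (2 * N), b n * pw (t : ℝ) n‖ ^ q ≤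
        K * (N : ℝ) ^ (q + 18 * δ) := by
  refine ⟨2 ^ (q - 2) * (15 * 16 * ((1 + 1 / δ) * 4 ^ δ) ^ 3), by positivity, ?_⟩
  intro N X hN hNX hX b hb
  have hN1 : (1 : ℝ) ≤ N := by exact_mod_cast hN
  have hN0 : (0 : ℝ) < N := by linarith
  have h1 : ∀ t ∈ Icc 1 (2 * X), ‖∑ n ∈ Icc N (2 * N), b n * pw (t : ℝ) n‖ ^ q ≤
      (2 * (N : ℝ)) ^ (q - 2) * ‖∑ n ∈ Icc N (2 * N), b n * pw (t : ℝ) n‖ ^ 2 := by
    intro t _
    set x := ‖∑ n ∈ Icc N (2 * N), b n * pw (t : ℝ) n‖ with hx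
    have hx0 : 0 ≤ x := norm_nonneg _
    have hx1 : x ≤ 2 * N := by
      have := D_le N b hb (t : ℝ)
      linarith
    rcases hx0.eq_or_lt with h0 | h0
    · rw [← h0, Real.zero_rpow (by linarith)]
      simp
    · have e : x ^ q = x ^ (q - 2) * x ^ 2 := by
        rw [← Real.rpow_natCast x 2, ← Real.rpow_add h0]
        congr 1
        push_cast
        ring
      rw [e]
      exact mul_le_mul_of_nonneg_right (Real.rpow_le_rpow hx0 hx1 (by linarith)) (by positivity)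
  have h2 := mvt (afc_bd N b hb) (2 * X) (by omega) (by exact_mod_cast (by omega : 2 * N ≤ 2 * X)) 0
  simp only [add_zero, one_pow, mul_one] at h2
  simp_rw [afc_ev N hN b] at h2
  have h3 : 1 + Real.log ((2 * X : ℕ) : ℝ) ≤ ((1 + 1 / δ) * 4 ^ δ) * (N : ℝ) ^ (4 * δ) := by
    have hX1 : (1 : ℝ) ≤ ((2 * X : ℕ) : ℝ) := by exact_mod_cast (by omega : 1 ≤ 2 * X)
    refine (log_le_rpow' hδ hX1).trans ?_
    rw [mul_assoc]
    apply mul_le_mul_of_nonneg_left _ (by positivity)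
    have h4 : ((2 * X : ℕ) : ℝ) ≤ 4 * (N : ℝ) ^ (1 + 3 * δ) := by push_cast; linarith
    calc ((2 * X : ℕ) : ℝ) ^ δ ≤ (4 * (N : ℝ) ^ (1 + 3 * δ)) ^ δ :=
          Real.rpow_le_rpow (by positivity) h4 hδ.le
      _ = 4 ^ δ * (N : ℝ) ^ ((1 + 3 * δ) * δ) := by
          rw [Real.mul_rpow (by norm_num) (by positivity), ← Real.rpow_mul hN0.le]
      _ ≤ 4 ^ δ * (N : ℝ) ^ (4 * δ) := by
          apply mul_le_mul_of_nonneg_left _ (by positivity)
          apply Real.rpow_le_rpow_of_exponent_le hN1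
          nlinarith
  have h4 : ((2 * X : ℕ) : ℝ) ^ 2 ≤ 16 * (N : ℝ) ^ (2 + 6 * δ) := by
    have h5 : ((2 * X : ℕ) : ℝ) ≤ 4 * (N : ℝ) ^ (1 + 3 * δ) := by push_cast; linarith
    calc ((2 * X : ℕ) : ℝ) ^ 2 ≤ (4 * (N : ℝ) ^ (1 + 3 * δ)) ^ 2 :=
          pow_le_pow_left₀ (by positivity) h5 2
      _ = 16 * (N : ℝ) ^ (2 + 6 * δ) := by
          rw [mul_pow, ← Real.rpow_natCast ((N : ℝ) ^ (1 + 3 * δ)), ← Real.rpow_mul hN0.le]
          norm_num
          congr 1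
          ring
  have hlog0 : 0 ≤ 1 + Real.log ((2 * X : ℕ) : ℝ) := by
    have : 0 ≤ Real.log ((2 * X : ℕ) : ℝ) := Real.log_natCast_nonneg _
    linarith
  calc ∑ t ∈ Icc 1 (2 * X), ‖∑ n ∈ Icc N (2 * N), b n * pw (t : ℝ) n‖ ^ q
      ≤ ∑ t ∈ Icc 1 (2 * X), (2 * (N : ℝ)) ^ (q - 2) *
        ‖∑ n ∈ Icc N (2 * N), b n * pw (t : ℝ) n‖ ^ 2 := sum_le_sum h1
    _ = (2 * (N : ℝ)) ^ (q - 2) *
        ∑ t ∈ Icc 1 (2 * X), ‖∑ n ∈ Icc N (2 * N), b n * pw (t : ℝ) n‖ ^ 2 := by rw [mul_sum]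
    _ ≤ (2 * (N : ℝ)) ^ (q - 2) * (15 * (16 * (N : ℝ) ^ (2 + 6 * δ)) *
        (((1 + 1 / δ) * 4 ^ δ) * (N : ℝ) ^ (4 * δ)) ^ 3) := by
        apply mul_le_mul_of_nonneg_left _ (by positivity)
        refine h2.trans ?_
        gcongr
    _ = 2 ^ (q - 2) * (15 * 16 * ((1 + 1 / δ) * 4 ^ δ) ^ 3) *
        ((N : ℝ) ^ (q - 2) * (N : ℝ) ^ (2 + 6 * δ) * ((N : ℝ) ^ (4 * δ)) ^ 3) := by
        rw [Real.mul_rpow (by norm_num) hN0.le, mul_pow ((1 + 1 / δ) * 4 ^ δ)]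
        ring
    _ = 2 ^ (q - 2) * (15 * 16 * ((1 + 1 / δ) * 4 ^ δ) ^ 3) * (N : ℝ) ^ (q + 18 * δ) := by
        congr 1
        rw [← Real.rpow_natCast ((N : ℝ) ^ (4 * δ)), ← Real.rpow_mul hN0.le, ← Real.rpow_add hN0,
          ← Real.rpow_add hN0]
        congr 1
        push_cast
        ring

/-- from the fourth moment to the moment of order `q` over a block -/
lemma four_to_q (q : ℝ) (hq : 2 ≤ q) (N X T : ℕ) (hN : 1 ≤ N) (hX : 1 ≤ X) (hXT : X ≤ T) (b : ℕ → ℂ)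
    (hb : ∀ n ∈ Icc N (2 * N), ‖b n‖ ≤ 1) (P : ℝ) (hP : 1 ≤ P)
    (h12 : (q ≤ 4 ∧ ∑ t ∈ Icc X (2 * X), ‖∑ n ∈ Icc N (2 * N), b n * pw (t : ℝ) n‖ ^ 4 ≤
      P * (X * (N : ℝ) ^ 2)) ∨
      (4 ≤ q ∧ ∑ t ∈ Icc X (2 * X), ‖∑ n ∈ Icc N (2 * N), b n * pw (t : ℝ) n‖ ^ 4 ≤
      P * (N : ℝ) ^ 4)) :
    ∑ t ∈ Icc X (2 * X), ‖∑ n ∈ Icc N (2 * N), b n * pw (t : ℝ) n‖ ^ q ≤
      2 ^ q * P * ((N : ℝ) ^ q + (N : ℝ) ^ (q / 2) * T) := by
  have hN1 : (1 : ℝ) ≤ N := by exact_mod_cast hN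
  have hN0 : (0 : ℝ) < N := by linarith
  have hX0 : (0 : ℝ) < X := by exact_mod_cast hX
  have hXTr : (X : ℝ) ≤ T := by exact_mod_cast hXT
  set F : ℕ → ℝ := fun t => ‖∑ n ∈ Icc N (2 * N), b n * pw (t : ℝ) n‖ with hF
  have hF0 : ∀ t, 0 ≤ F t := fun t => norm_nonneg _
  rcases h12 with ⟨h, h3⟩ | ⟨h, h3⟩
  · -- Hölder
    have hq0 : 0 < q := by linarith
    have hH : ∑ t ∈ Icc X (2 * X), F t ^ q ≤
        (∑ t ∈ Icc X (2 * X), F t ^ 4) ^ (q / 4) * ((Icc X (2 * X)).card : ℝ) ^ (1 - q / 4) := by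
      rcases h.eq_or_lt with h5 | h5
      · rw [h5]
        have e : ∀ x : ℝ, x ^ (4 : ℝ) = x ^ 4 := fun x => by rw [← Real.rpow_natCast]; norm_num
        simp_rw [e]
        norm_num
      · have hpq : (4 / q).HolderConjugate (4 / (4 - q)) := by
          rw [Real.holderConjugate_iff]
          constructor
          · rw [lt_div_iff₀ hq0]; linarith
          · have : (4 : ℝ) - q ≠ 0 := by linarith
            field_simp
            ring
        have h6 := Real.inner_le_Lp_mul_Lq_of_nonneg (Icc X (2 * X)) hpq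
          (f := fun t => F t ^ q) (g := fun _ => (1 : ℝ)) (fun t _ => by
            have := hF0 t; positivity) (fun _ _ => zero_le_one)
        simp only [mul_one, Real.one_rpow, sum_const, nsmul_eq_mul] at h6
        refine h6.trans (le_of_eq ?_)
        congr 1
        · have e1 : ∀ t, (F t ^ q) ^ (4 / q) = F t ^ 4 := by
            intro t
            rw [← Real.rpow_mul (hF0 t), mul_div_cancel₀ _ hq0.ne', ← Real.rpow_natCast]
            norm_num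
          simp_rw [e1]
          congr 1
          field_simp
        · congr 1
          have : (4 : ℝ) - q ≠ 0 := by linarith
          field_simp
    have hcard : ((Icc X (2 * X)).card : ℝ) ≤ 2 * X := by
      rw [Nat.card_Icc]
      have : 2 * X + 1 - X ≤ 2 * X := by omega
      exact_mod_cast this
    have hS0 : 0 ≤ ∑ t ∈ Icc X (2 * X), F t ^ 4 := sum_nonneg fun t _ => by
      have := hF0 t; positivity
    calc ∑ t ∈ Icc X (2 * X), F t ^ q
        ≤ (∑ t ∈ Icc X (2 * X), F t ^ 4) ^ (q / 4) * ((Icc X (2 * X)).card : ℝ) ^ (1 - q / 4) := hH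
      _ ≤ (P * (X * (N : ℝ) ^ 2)) ^ (q / 4) * (2 * X) ^ (1 - q / 4) := by
          apply mul_le_mul
          · exact Real.rpow_le_rpow hS0 h3 (by positivity)
          · exact Real.rpow_le_rpow (by positivity) hcard (by linarith)
          · positivity
          · positivity
      _ = P ^ (q / 4) * 2 ^ (1 - q / 4) * (N : ℝ) ^ (q / 2) * X := by
          rw [Real.mul_rpow (by positivity) (by positivity), Real.mul_rpow (by positivity)
            (by positivity), Real.mul_rpow (by norm_num) hX0.le, ← Real.rpow_natCast (N : ℝ) 2,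
            ← Real.rpow_mul hN0.le]
          have e1 : (X : ℝ) = (X : ℝ) ^ (q / 4) * (X : ℝ) ^ (1 - q / 4) := by
            rw [← Real.rpow_add hX0]; simp
          have e2 : ((2 : ℕ) : ℝ) * (q / 4) = q / 2 := by push_cast; ring
          rw [e2]
          nth_rewrite 3 [e1]
          ring
      _ ≤ P * 2 ^ q * (N : ℝ) ^ (q / 2) * T := by
          have a1 : P ^ (q / 4) ≤ P := by
            calc P ^ (q / 4) ≤ P ^ (1 : ℝ) :=
                  Real.rpow_le_rpow_of_exponent_le hP (by linarith)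
              _ = P := Real.rpow_one _
          have a2 : (2 : ℝ) ^ (1 - q / 4) ≤ 2 ^ q :=
            Real.rpow_le_rpow_of_exponent_le (by norm_num) (by linarith)
          gcongr
      _ ≤ _ := by
          have a3 : 0 ≤ 2 ^ q * P * (N : ℝ) ^ q := by positivity
          nlinarith
  · have h4 : ∀ t ∈ Icc X (2 * X), F t ^ q ≤ (2 * (N : ℝ)) ^ (q - 4) * F t ^ 4 := by
      intro t _
      have hx0 := hF0 t
      have hx1 : F t ≤ 2 * N := by
        have := D_le N b hb (t : ℝ)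
        rw [hF]
        simp only
        linarith
      rcases hx0.eq_or_lt with h0 | h0
      · rw [← h0, Real.zero_rpow (by linarith)]
        simp
      · have e : F t ^ q = F t ^ (q - 4) * F t ^ 4 := by
          rw [← Real.rpow_natCast (F t) 4, ← Real.rpow_add h0]
          congr 1
          push_cast
          ring
        rw [e]
        exact mul_le_mul_of_nonneg_right (Real.rpow_le_rpow hx0 hx1 (by linarith)) (by positivity)
    calc ∑ t ∈ Icc X (2 * X), F t ^ q ≤ ∑ t ∈ Icc X (2 * X), (2 * (N : ℝ)) ^ (q - 4) * F t ^ 4 :=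
          sum_le_sum h4
      _ = (2 * (N : ℝ)) ^ (q - 4) * ∑ t ∈ Icc X (2 * X), F t ^ 4 := by rw [mul_sum]
      _ ≤ (2 * (N : ℝ)) ^ (q - 4) * (P * (N : ℝ) ^ 4) := by gcongr
      _ = 2 ^ (q - 4) * P * (N : ℝ) ^ q := by
          rw [Real.mul_rpow (by norm_num) hN0.le]
          have e : (N : ℝ) ^ q = (N : ℝ) ^ (q - 4) * (N : ℝ) ^ 4 := by
            rw [← Real.rpow_natCast (N : ℝ) 4, ← Real.rpow_add hN0]
            congr 1
            push_cast
            ring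
          rw [e]
          ring
      _ ≤ 2 ^ q * P * (N : ℝ) ^ q := by
          have a2 : (2 : ℝ) ^ (q - 4) ≤ 2 ^ q :=
            Real.rpow_le_rpow_of_exponent_le (by norm_num) (by linarith)
          gcongr
      _ ≤ _ := by
          have a3 : 0 ≤ 2 ^ q * P * ((N : ℝ) ^ (q / 2) * T) := by positivity
          nlinarith

/-- **The conclusion.** -/
theorem conclude (q ε : ℝ) (hq : 2 ≤ q) (hε : 0 < ε) (δ : ℝ) (hδ : 0 < δ) (hδ1 : δ ≤ 1)
    (hδε : 18 * δ ≤ ε) : ∃ K : ℝ, 0 ≤ K ∧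
    ∀ (N T : ℕ) (b : ℕ → ℂ) (P : ℝ), 1 ≤ N → N ≤ T → T ≤ N ^ 2 → 1 ≤ P →
      (∀ n ∈ Icc N (2 * N), ‖b n‖ ≤ 1) →
      (∀ X : ℕ, (N : ℝ) ^ (1 + 3 * δ) ≤ X → X ≤ T →
        (q ≤ 4 ∧ ∑ t ∈ Icc X (2 * X), ‖∑ n ∈ Icc N (2 * N), b n * pw (t : ℝ) n‖ ^ 4 ≤
          P * (X * (N : ℝ) ^ 2)) ∨
        (4 ≤ q ∧ ∑ t ∈ Icc X (2 * X), ‖∑ n ∈ Icc N (2 * N), b n * pw (t : ℝ) n‖ ^ 4 ≤
          P * (N : ℝ) ^ 4)) →
      ∑ t ∈ Icc 1 T, ‖∑ n ∈ Icc N (2 * N), b n * pw (t : ℝ) n‖ ^ q ≤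
        K * P * (N : ℝ) ^ ε * ((N : ℝ) ^ q + (N : ℝ) ^ (q / 2) * T) := by
  obtain ⟨K1, hK1, hs⟩ := small_part q δ hq hδ hδ1
  refine ⟨K1 + 2 ^ q * (2 * (1 + 1 / ε) * 2), by positivity, ?_⟩
  intro N T b P hN hNT hT2 hP hb h
  have hN1 : (1 : ℝ) ≤ N := by exact_mod_cast hN
  have hN0 : (0 : ℝ) < N := by linarith
  have hT1 : 1 ≤ T := by omega
  have hT0 : (0 : ℝ) < T := by exact_mod_cast hT1
  set F : ℕ → ℝ := fun t => ‖∑ n ∈ Icc N (2 * N), b n * pw (t : ℝ) n‖ ^ q with hF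
  have hF0 : ∀ t, 0 ≤ F t := fun t => by rw [hF]; positivity
  set X₀ := ⌈(N : ℝ) ^ (1 + 3 * δ)⌉₊ with hX₀
  have hX₀r : (N : ℝ) ^ (1 + 3 * δ) ≤ X₀ := Nat.le_ceil _
  have hone : 1 ≤ (N : ℝ) ^ (1 + 3 * δ) := Real.one_le_rpow hN1 (by positivity)
  have hX₀2 : (X₀ : ℝ) ≤ 2 * (N : ℝ) ^ (1 + 3 * δ) := by
    have := Nat.ceil_lt_add_one (by positivity : 0 ≤ (N : ℝ) ^ (1 + 3 * δ))
    linarith
  have hNX₀ : N ≤ X₀ := by
    have : (N : ℝ) ≤ X₀ := by
      refine le_trans ?_ hX₀r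
      calc (N : ℝ) = (N : ℝ) ^ (1 : ℝ) := (Real.rpow_one _).symm
        _ ≤ _ := Real.rpow_le_rpow_of_exponent_le hN1 (by linarith)
    exact_mod_cast this
  have hX₀1 : 1 ≤ X₀ := hN.trans hNX₀
  set R := (N : ℝ) ^ q + (N : ℝ) ^ (q / 2) * T with hR
  have hR0 : 0 ≤ R := by positivity
  have hsm := hs N X₀ hN hNX₀ hX₀2 b hb
  have hbig : ∑ t ∈ Icc X₀ T, F t ≤ (2 ^ q * P * R) * (Nat.log 2 T + 1) := by
    apply dyadic F hF0 _ (by positivity) X₀ hX₀1 T
    intro X hX hXT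
    have h1 := h X (hX₀r.trans (by exact_mod_cast hX)) hXT
    exact four_to_q q hq N X T hN (hX₀1.trans hX) hXT b hb P hP h1
  have hlog : (Nat.log 2 T : ℝ) + 1 ≤ 2 * (1 + 1 / ε) * 2 * (N : ℝ) ^ ε := by
    have h1 : (Nat.log 2 T : ℝ) ≤ Real.log T / Real.log 2 := by
      have := Real.natLog_le_logb T 2
      rwa [Real.logb] at this
    have h2 : Real.log T ≤ 2 * Real.log N := by
      have : (T : ℝ) ≤ (N : ℝ) ^ 2 := by exact_mod_cast hT2
      calc Real.log T ≤ Real.log ((N : ℝ) ^ 2) := Real.log_le_log hT0 this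
        _ = 2 * Real.log N := by rw [Real.log_pow]; push_cast; ring
    have h3 : (1 / 2 : ℝ) ≤ Real.log 2 := by
      have := Real.log_two_gt_d9
      linarith
    have h4 : Real.log T / Real.log 2 ≤ 4 * Real.log N := by
      rw [div_le_iff₀ (by linarith)]
      have : 0 ≤ Real.log N := Real.log_nonneg hN1
      nlinarith
    have h5 := log_le_rpow' hε hN1
    have h6 : 0 ≤ Real.log N := Real.log_nonneg hN1
    linarith
  have hsplit : ∑ t ∈ Icc 1 T, F t ≤ ∑ t ∈ Icc 1 (2 * X₀), F t + ∑ t ∈ Icc X₀ T, F t := by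
    have h1 : ∑ t ∈ Icc 1 T, F t ≤ ∑ t ∈ Icc 1 (2 * X₀) ∪ Icc X₀ T, F t := by
      apply sum_le_sum_of_subset_of_nonneg
      · intro t ht
        rw [mem_union, mem_Icc, mem_Icc]
        rw [mem_Icc] at ht
        omega
      · intro t _ _
        exact hF0 t
    refine h1.trans ?_
    have h2 := sum_union_inter (s₁ := Icc 1 (2 * X₀)) (s₂ := Icc X₀ T) (f := F)
    have h3 : 0 ≤ ∑ t ∈ Icc 1 (2 * X₀) ∩ Icc X₀ T, F t := sum_nonneg fun t _ => hF0 t
    linarith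
  have hNε : 1 ≤ (N : ℝ) ^ ε := Real.one_le_rpow hN1 hε.le
  calc ∑ t ∈ Icc 1 T, F t ≤ ∑ t ∈ Icc 1 (2 * X₀), F t + ∑ t ∈ Icc X₀ T, F t := hsplit
    _ ≤ K1 * (N : ℝ) ^ (q + 18 * δ) + (2 ^ q * P * R) * (Nat.log 2 T + 1) := add_le_add hsm hbig
    _ ≤ K1 * (P * (N : ℝ) ^ ε * R) + (2 ^ q * P * R) * (2 * (1 + 1 / ε) * 2 * (N : ℝ) ^ ε) := by
        have a1 : (N : ℝ) ^ (q + 18 * δ) ≤ P * (N : ℝ) ^ ε * R := by
          calc (N : ℝ) ^ (q + 18 * δ) ≤ (N : ℝ) ^ (q + ε) :=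
                Real.rpow_le_rpow_of_exponent_le hN1 (by linarith)
            _ = (N : ℝ) ^ ε * (N : ℝ) ^ q := by rw [← Real.rpow_add hN0]; congr 1; ring
            _ ≤ (N : ℝ) ^ ε * R := by
                apply mul_le_mul_of_nonneg_left _ (by positivity)
                have : 0 ≤ (N : ℝ) ^ (q / 2) * T := by positivity
                linarith
            _ = 1 * ((N : ℝ) ^ ε * R) := (one_mul _).symm
            _ ≤ P * ((N : ℝ) ^ ε * R) := mul_le_mul_of_nonneg_right hP (by positivity)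
            _ = _ := by ring
        have a2 : 0 ≤ 2 ^ q * P * R := by positivity
        exact add_le_add (mul_le_mul_of_nonneg_left a1 hK1) (mul_le_mul_of_nonneg_left hlog a2)
    _ = _ := by ring

end Pool.Agent.KS6_54.ML
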