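import Pool.Agent.KS6_54.ML.Pois

set_option autoImplicit false

/-!
# The size of `Γ(k + 1 + iτ)`
-/

open MeasureTheory Set Filter Topology Asymptotics

namespace Pool.Agent.KS6_54.ML

lemma gamma_one_sq {τ : ℝ} (hτ : 1 ≤ τ) :
    ‖Complex.Gamma (ex 0 τ + 1)‖ ^ 2 ≤ 16 * τ * Real.exp (-(Real.pi * τ)) := by
  have hp := Real.pi_gt_three
  have hp4 := Real.pi_lt_four
  have hτ0 : 0 < τ := by linarith
  set z : ℂ := (τ : ℂ) * Complex.I with hz
  have hz0 : z ≠ 0 := mul_ne_zero (by exact_mod_cast hτ0.ne') Complex.I_ne_zero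
  have e1 : ex 0 τ + 1 = z + 1 := by simp [ex, hz]
  have h1 := Complex.Gamma_mul_Gamma_one_sub z
  have h2 : Complex.Gamma (z + 1) = z * Complex.Gamma z := Complex.Gamma_add_one z hz0
  have h3 : (starRingEnd ℂ) (z + 1) = 1 - z := by
    rw [hz, map_add, map_mul, Complex.conj_ofReal, Complex.conj_I, map_one]
    ring
  have h4 : Complex.Gamma (1 - z) = (starRingEnd ℂ) (Complex.Gamma (z + 1)) := by
    rw [← h3, Complex.Gamma_conj]
  have h5 : ‖Complex.Gamma (z + 1)‖ ^ 2 = ‖z‖ * ‖(Real.pi : ℂ) / Complex.sin (Real.pi * z)‖ := by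
    rw [← h1, h4, norm_mul (Complex.Gamma z), RCLike.norm_conj, sq]
    nth_rewrite 1 [h2]
    rw [norm_mul z]
    ring
  rw [e1, h5, norm_div]
  have h6 : ‖z‖ = τ := by
    rw [hz, norm_mul, Complex.norm_I, mul_one, Complex.norm_real, Real.norm_of_nonneg hτ0.le]
  have h7 : ‖(Real.pi : ℂ)‖ = Real.pi := by
    rw [Complex.norm_real, Real.norm_of_nonneg (by linarith)]
  have h8 : ‖Complex.sin (Real.pi * z)‖ = Real.sinh (Real.pi * τ) := by
    have : (Real.pi : ℂ) * z = ((Real.pi * τ : ℝ) : ℂ) * Complex.I := by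
      rw [hz]; push_cast; ring
    rw [this, Complex.sin_mul_I, norm_mul, Complex.norm_I, mul_one, ← Complex.ofReal_sinh,
      Complex.norm_real, Real.norm_of_nonneg]
    exact (Real.sinh_pos_iff.2 (by positivity)).le
  rw [h6, h7, h8]
  have h9 : Real.exp (Real.pi * τ) / 4 ≤ Real.sinh (Real.pi * τ) := by
    rw [Real.sinh_eq]
    have h10 : Real.exp (-(Real.pi * τ)) ≤ 1 := Real.exp_le_one_iff.2 (by nlinarith)
    have h11 : (2 : ℝ) ≤ Real.exp (Real.pi * τ) := by
      have := Real.add_one_le_exp (Real.pi * τ)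
      nlinarith
    linarith
  have hE : 0 < Real.exp (Real.pi * τ) := Real.exp_pos _
  have h12 : Real.pi / Real.sinh (Real.pi * τ) ≤ 16 * Real.exp (-(Real.pi * τ)) := by
    rw [Real.exp_neg, div_le_iff₀ (by linarith [h9, hE])]
    calc Real.pi ≤ 4 := hp4.le
      _ = 16 * (Real.exp (Real.pi * τ))⁻¹ * (Real.exp (Real.pi * τ) / 4) := by
          field_simp; norm_num
      _ ≤ 16 * (Real.exp (Real.pi * τ))⁻¹ * Real.sinh (Real.pi * τ) :=
          mul_le_mul_of_nonneg_left h9 (by positivity)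
  calc τ * (Real.pi / Real.sinh (Real.pi * τ)) ≤ τ * (16 * Real.exp (-(Real.pi * τ))) :=
        mul_le_mul_of_nonneg_left h12 hτ0.le
    _ = _ := by ring

theorem gamma_bound (k : ℕ) {τ : ℝ} (hτ : 1 ≤ τ) :
    ‖Complex.Gamma (ex k τ + 1)‖ ≤
      4 * ((k : ℝ) + 1) ^ k * (τ ^ k * Real.sqrt τ * Real.exp (-(Real.pi * τ / 2))) := by
  have hτ0 : 0 < τ := by linarith
  induction k with
  | zero =>
    have h1 := gamma_one_sq hτ
    have h2 : 16 * τ * Real.exp (-(Real.pi * τ)) =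
        (4 * (Real.sqrt τ * Real.exp (-(Real.pi * τ / 2)))) ^ 2 := by
      rw [mul_pow, mul_pow, Real.sq_sqrt hτ0.le, ← Real.exp_nat_mul]
      have : ((2 : ℕ) : ℝ) * -(Real.pi * τ / 2) = -(Real.pi * τ) := by push_cast; ring
      rw [this]; ring
    rw [h2] at h1
    have h3 := (sq_le_sq₀ (norm_nonneg _) (by positivity)).1 h1
    simpa using h3
  | succ k ih =>
    have h0 : ex k τ + 1 ≠ 0 := by
      intro h
      have := congrArg Complex.re h
      simp [ex] at this
      have h2 : (0 : ℝ) ≤ k := by positivity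
      linarith
    have e1 : ex (k + 1) τ + 1 = (ex k τ + 1) + 1 := by simp [ex]; ring
    rw [e1, Complex.Gamma_add_one _ h0, norm_mul]
    have h1 : ‖ex k τ + 1‖ ≤ ((k : ℝ) + 2) * τ := by
      calc ‖ex k τ + 1‖ = ‖(((k : ℝ) + 1 : ℝ) : ℂ) + (τ : ℂ) * Complex.I‖ := by
            congr 1; simp [ex]; ring
        _ ≤ ‖(((k : ℝ) + 1 : ℝ) : ℂ)‖ + ‖(τ : ℂ) * Complex.I‖ := norm_add_le _ _
        _ = ((k : ℝ) + 1) + τ := by
            rw [norm_mul, Complex.norm_I, mul_one, Complex.norm_real, Complex.norm_real,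
              Real.norm_of_nonneg (by positivity), Real.norm_of_nonneg hτ0.le]
        _ ≤ ((k : ℝ) + 2) * τ := by
            have : (0 : ℝ) ≤ k := by positivity
            nlinarith
    calc ‖ex k τ + 1‖ * ‖Complex.Gamma (ex k τ + 1)‖
        ≤ (((k : ℝ) + 2) * τ) *
          (4 * ((k : ℝ) + 1) ^ k * (τ ^ k * Real.sqrt τ * Real.exp (-(Real.pi * τ / 2)))) :=
          mul_le_mul h1 ih (norm_nonneg _) (by positivity)
      _ ≤ (((k : ℝ) + 2) * τ) *
          (4 * ((k : ℝ) + 2) ^ k * (τ ^ k * Real.sqrt τ * Real.exp (-(Real.pi * τ / 2)))) := by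
          gcongr
          linarith
      _ = _ := by
          push_cast
          have : (k : ℝ) + 1 + 1 = k + 2 := by ring
          rw [this]
          ring

end Pool.Agent.KS6_54.ML
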