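import Pool.Agent.KS6_54.ML.S2M3
import Pool.Graph.R_pool_sql_team_seeded_47a924f7.T6.H57.NS.Hp

set_option autoImplicit false

/-! The difference off the line is small on average over windows of length `T ^ (1/3 + 3 κ)`
(adapted from `Pool.Agent.T6.H57.NS.hpaS`, with the parameters attached to `T ^ (2/3)` in place of `T`). -/

namespace Pool.Agent.KS6_54.ML

open Finset Filter MeasureTheory
open Pool.Agent.W184.NZ
open Pool.Agent.H306R2.SM (cl)
open Pool.Agent.W184 (zn zn_nonneg zn_cont zn_le')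
open Pool.Agent.Y755
open Pool.Agent.T6.H57.NS

/-- the scale of the parameters -/
noncomputable def XT (T : ℝ) : ℝ := T ^ ((2:ℝ) / 3)

lemma XT_tendsto : Tendsto XT atTop atTop := tendsto_rpow_atTop (by norm_num)

lemma XT_log {T : ℝ} (hT : 0 < T) : Real.log (XT T) = 2 / 3 * Real.log T := Real.log_rpow hT _

lemma XT_one {T : ℝ} (hT : 1 ≤ T) : 1 ≤ XT T := Real.one_le_rpow hT (by norm_num)

lemma XT_le {T : ℝ} (hT : 1 ≤ T) : XT T ≤ T := by
  have := Real.rpow_le_rpow_of_exponent_le hT (show (2:ℝ) / 3 ≤ 1 by norm_num)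
  rwa [Real.rpow_one] at this

lemma XT_half {T : ℝ} (hT : 0 ≤ T) : XT T ^ ((1:ℝ) / 2) = T ^ ((1:ℝ) / 3) := by
  unfold XT
  rw [← Real.rpow_mul hT]
  norm_num

lemma yT_XT {η T : ℝ} (hT : 0 < T) : yT η (XT T) = yT (2 / 3 * η) T := by
  unfold yT
  rw [XT_log hT]
  congr 1; ring

/-- the difference off the line -/
theorem hpa3 {c η d m κ : ℝ} {z Rs : ℕ} {A0 : P1} (hz : 1000 ≤ z) (hRs : 1 ≤ Rs) (hκ : 0 < κ) (hκ1 : κ ≤ 1 / 100)
    (hη : 0 < η) (hη1 : 180 * (η * ((Rs:ℝ) + 1)) ≤ κ) (hη2 : η * ((Rs:ℝ) + 1) ≤ 1 / 16000)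
    (hd : 0 ≤ d) (hA : Bd1 m A0) (hAm : A0 ∈ SA1 (M1 (S0 z))) :
    ∃ C : ℝ, 0 < C ∧ ∀ᶠ T : ℝ in atTop, ∀ J : ℕ, Sy c z (yT η (XT T)) J Rs (NT (XT T)) (KT (XT T)) →
      |∑ i ∈ range J, vI (IZ z (yT η (XT T)) i) - Real.log (Real.log (XT T))| ≤ d →
      vd 0 (Rst (NT (XT T)) (yT η (XT T))) ≤ d →
      ET c z (yT η (XT T)) J Rs ≤ 1 → ∀ a : ℝ, |a| ≤ 1 → ∀ δ : ℝ, 1 / Real.log T ≤ δ → δ ≤ 1 / 16 →
      ∀ U H : ℝ, T / 4 ≤ U → U + H ≤ 4 * T → T ^ (1 / 3 + 3 * κ) ≤ H →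
      ∑ S ∈ (range J).powerset, ∫ t in U..(U + H),
        qd (fun s => es s (Pz z * A0 * Bz a z (yT η (XT T)) J Rs S))
          (fun s => es s (DS (NT (XT T)) a z (yT η (XT T)) J Rs A0 S)) (1 / 2 + δ) t ≤
        C * (H * Real.log (XT T) ^ ((1 + a) ^ 2)) * (NT (XT T) : ℝ) ^ (-(2 * δ)) := by
  have hRs0 : (0:ℝ) ≤ (Rs:ℝ) := Nat.cast_nonneg _
  obtain ⟨C1, hC1, hon⟩ := s2m3 (c := c) (η := 2 / 3 * η) (d := d + 1) hz hRs hκ hκ1 (by positivity)
    (by have : 0 ≤ η * ((Rs:ℝ) + 1) := by positivity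
        linarith) (by linarith)
  set LP := l1' (Pz z * A0) with hLP
  have hLP0 : 0 ≤ LP := l1'_nonneg _
  set A1 := (ip 0 A0 A0 + (2 ^ (S0 z).card * l1' A0) ^ 2) * Real.exp (6 * d + 1) with hA1
  have hA10 : 0 ≤ A1 := by have := ip_self_nonneg 0 A0; positivity
  refine ⟨32 * (3 * (2 * LP ^ 2 * (C1 * 6) + 2 * (A1 + 1)) + 1), by positivity, ?_⟩
  filter_upwards [hon, eventually_ge_atTop (10 ^ 10), (NT_tendsto.comp XT_tendsto).eventually_ge_atTop (max 1 m),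
    XT_tendsto.eventually (rpow_ev (p := 1 / 4 + 1 / 50) (q := 1) (by norm_num) (60000000 * LP ^ 2)),
    XT_tendsto.eventually (rpow_ev (p := 3 / 8 + 1 / 50) (q := 1 / 2) (by norm_num) (4 * LP ^ 2)),
    rpow_ev (p := 1 / 4) (q := 1) (by norm_num) 8,
    Real.tendsto_log_atTop.eventually_ge_atTop 2] with T h1 h3 h4 h5 h6 h8 h7 J hS hV hW hE a ha δ hδ1 hδ2 U H hU hUH hH
  have hT0 : 0 < T := by linarith
  have hT1 : 1 ≤ T := by linarith
  have hX1 := XT_one hT1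
  have hX0 : 0 < XT T := by linarith
  have hXT := XT_le hT1
  have hXl := XT_log hT0
  have hLX : 1 ≤ Real.log (XT T) := by rw [hXl]; linarith
  rw [Real.rpow_one] at h5 h8
  rw [XT_half hT0.le] at h6
  simp only [Function.comp] at h4
  have hN1 : 1 ≤ NT (XT T) := by exact_mod_cast (le_max_left _ _).trans h4
  have hNm : m ≤ NT (XT T) := (le_max_right _ _).trans h4
  have ha2 : |a| ≤ 2 := by linarith
  obtain ⟨ha3, ha4⟩ := abs_le.mp ha
  have hU0 : 0 ≤ U := by linarith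
  have hyy : yT (2 / 3 * η) T = yT η (XT T) := (yT_XT hT0).symm
  rw [hyy] at h1
  set X := XT T with hX
  set y := yT η X with hy
  set N := NT X with hN
  set P := Real.log X ^ ((1 + a) ^ 2) with hP
  have hP1 : 1 ≤ P := Real.one_le_rpow hLX (sq_nonneg _)
  have hPT : Real.log T ^ ((1 + a) ^ 2) ≤ 6 * P := by
    have e1 : Real.log T = 3 / 2 * Real.log X := by rw [hXl]; ring
    rw [e1, Real.mul_rpow (by norm_num) (by linarith)]
    refine mul_le_mul_of_nonneg_right ?_ (by positivity)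
    have h9 : ((1 + a) ^ 2 : ℝ) ≤ 4 := by nlinarith
    have h10 := Real.rpow_le_rpow_of_exponent_le (show (1:ℝ) ≤ 3 / 2 by norm_num) h9
    refine h10.trans ?_
    have : ((3:ℝ) / 2) ^ (4:ℝ) = (3 / 2) ^ (4:ℕ) := by rw [← Real.rpow_natCast]; norm_num
    rw [this]; norm_num
  have hNr : 0 < (N:ℝ) := by exact_mod_cast hN1
  have hex := ly_exp hX1 hη2
  rw [← hy] at hex
  set V := T ^ ((1:ℝ) / 4) with hV4
  have hV0 : 0 < V := by positivity
  have hTH : T ^ ((1:ℝ) / 3) ≤ H := le_trans (Real.rpow_le_rpow_of_exponent_le hT1 (by linarith)) hH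
  have hVH : V ≤ H := le_trans (Real.rpow_le_rpow_of_exponent_le hT1 (by norm_num)) hTH
  have hH0 : 0 < H := lt_of_lt_of_le hV0 hVH
  have hH1 : 1 ≤ H := le_trans (Real.one_le_rpow hT1 (by norm_num)) hTH
  have g1 : ∀ S ∈ (range J).powerset, ∫ t in U..(U + H),
      qd (fun s => es s (Pz z * A0 * Bz a z y J Rs S)) (fun s => es s (DS N a z y J Rs A0 S)) (1 / 2 + δ) t ≤
      32 * (N:ℝ) ^ (-(2 * δ)) * ((∫ t in (U - V)..((U - V) + (H + 2 * V)), qd (fun s => es s (Pz z * A0 * Bz a z y J Rs S))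
        (fun s => es s (DS N a z y J Rs A0 S)) (1 / 2) t) +
        30000000 * (1 + (N:ℝ) ^ 2) / T * l1' (Pz z * A0 * Bz a z y J Rs S) ^ 2) := by
    intro S _
    have e0 : (U - V) + (H + 2 * V) = U + H + V := by ring
    rw [e0]
    refine (hp_oneS hN1 (PB_Bd hS hA S) h3 hδ1 hδ2 hU0 hH0.le hUH).trans (le_of_eq ?_)
    unfold DS
    ring
  refine (sum_le_sum g1).trans ?_
  rw [← mul_sum, sum_add_distrib, ← mul_sum]
  have g2 := line_intS (a := a) hS hA ha2 (U := U - V) (H := H + 2 * V) (by linarith) hex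
  have hVT : |∑ i ∈ range J, vI (IZ z y i) - Real.log (Real.log T)| ≤ d + 1 := by
    have e1 : Real.log T = 3 / 2 * Real.log X := by rw [hXl]; ring
    have e2 : Real.log (Real.log T) = Real.log (3 / 2) + Real.log (Real.log X) := by
      rw [e1, Real.log_mul (by norm_num) (by linarith)]
    have e3 : Real.log (3 / 2) ≤ 1 / 2 := by
      have := Real.log_le_sub_one_of_pos (show (0:ℝ) < 3 / 2 by norm_num)
      linarith
    have e4 : 0 ≤ Real.log (3 / 2) := Real.log_nonneg (by norm_num)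
    rw [e2]
    obtain ⟨v1, v2⟩ := abs_le.mp hV
    rw [abs_le]
    constructor <;> linarith
  have g3 := h1 J hS.zy hS.J1 hS.rg hVT a ha (U - V) (H + 2 * V) (by linarith) (by linarith) (by linarith)
  have g4 := N1_line hS hV hW hE ha hA hAm hNm hd hLX
  rw [← hN, ← hy, ← hA1, ← hP] at g4
  have g5 := PB_l1 (A0 := A0) hS ha2
  rw [← hLP] at g2 g5
  have g6 : 30000000 * (1 + (N:ℝ) ^ 2) / T * (∑ S ∈ (range J).powerset, l1' (Pz z * A0 * Bz a z y J Rs S) ^ 2) ≤ 1 := by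
    have k1 : (1 + (N:ℝ) ^ 2) ≤ 2 * X ^ ((1:ℝ) / 4) := by
      have k2 := NT_pow hX1 2
      rw [← hN] at k2
      have k3 : X ^ (((2:ℕ):ℝ) / 8) = X ^ ((1:ℝ) / 4) := by congr 1; norm_num
      rw [k3] at k2
      have k4 : 1 ≤ X ^ ((1:ℝ) / 4) := Real.one_le_rpow hX1 (by norm_num)
      linarith
    calc _ ≤ 30000000 * (2 * X ^ ((1:ℝ) / 4)) / T * (LP ^ 2 * X ^ ((1:ℝ) / 50)) := by
          refine mul_le_mul ?_ (g5.trans (mul_le_mul_of_nonneg_left hex (sq_nonneg _))) ?_ (by positivity)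
          · gcongr
          · exact sum_nonneg fun _ _ => sq_nonneg _
      _ = (60000000 * LP ^ 2 * X ^ ((1:ℝ) / 4 + 1 / 50)) / T := by rw [Real.rpow_add hX0]; ring
      _ ≤ 1 := by rw [div_le_one hT0]; exact h5.trans hXT
  have g7 : 4 * (N:ℝ) ^ 3 * (LP ^ 2 * X ^ ((1:ℝ) / 50)) ≤ H := by
    have k2 := NT_pow hX1 3
    rw [← hN] at k2
    have k3 : X ^ (((3:ℕ):ℝ) / 8) = X ^ ((3:ℝ) / 8) := by congr 1
    rw [k3] at k2
    calc _ ≤ 4 * X ^ ((3:ℝ) / 8) * (LP ^ 2 * X ^ ((1:ℝ) / 50)) := by gcongr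
      _ = 4 * LP ^ 2 * X ^ ((3:ℝ) / 8 + 1 / 50) := by rw [Real.rpow_add hX0]; ring
      _ ≤ T ^ ((1:ℝ) / 3) := h6
      _ ≤ H := hTH
  have hHP2 : H ≤ H * P := le_mul_of_one_le_right hH0.le hP1
  have hHP : 1 ≤ H * P := hH1.trans hHP2
  have g8 : (∑ S ∈ (range J).powerset, ∫ t in (U - V)..((U - V) + (H + 2 * V)), qd (fun s => es s (Pz z * A0 * Bz a z y J Rs S))
        (fun s => es s (DS N a z y J Rs A0 S)) (1 / 2) t) ≤ 3 * (2 * LP ^ 2 * (C1 * 6) + 2 * (A1 + 1)) * (H * P) := by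
    refine g2.trans ?_
    have hH3 : H + 2 * V ≤ 3 * H := by linarith
    have k0 : C1 * ((H + 2 * V) * Real.log T ^ ((1 + a) ^ 2)) ≤ C1 * ((3 * H) * (6 * P)) := by
      have : 0 ≤ Real.log T ^ ((1 + a) ^ 2) := by positivity
      gcongr
    have k1 := mul_le_mul_of_nonneg_left (g3.trans k0) (by positivity : 0 ≤ 2 * LP ^ 2)
    have k2 : (H + 2 * V) * (∑ S ∈ (range J).powerset, ip 0 (DS N a z y J Rs A0 S) (DS N a z y J Rs A0 S)) ≤
        (3 * H) * (A1 * P) := by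
      refine mul_le_mul hH3 g4 (sum_nonneg fun S _ => ip_self_nonneg 0 _) (by positivity)
    have k3 : (3 * H) * (A1 * P) = 3 * (A1 * (H * P)) := by ring
    rw [k3] at k2
    have k4 : 2 * LP ^ 2 * (C1 * ((3 * H) * (6 * P))) = 3 * (2 * LP ^ 2 * (C1 * 6) * (H * P)) := by ring
    rw [k4] at k1
    linarith only [k1, k2, g7, hHP2, hHP]
  have g9 : 0 ≤ 32 * (N:ℝ) ^ (-(2 * δ)) := by positivity
  calc _ ≤ 32 * (N:ℝ) ^ (-(2 * δ)) * (3 * (2 * LP ^ 2 * (C1 * 6) + 2 * (A1 + 1)) * (H * P) + 1 * (H * P)) := by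
        refine mul_le_mul_of_nonneg_left (add_le_add g8 ?_) g9
        linarith
    _ = _ := by ring

end Pool.Agent.KS6_54.ML
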