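import Pool.Graph.R_seed8.TH445.MQ.Cut

set_option autoImplicit false

/-!
# Kernels for the cutoff `M ≤ n ≤ 2N`
-/

open Finset MeasureTheory

namespace Pool.Agent.KS6_54.ML

open Pool.Agent.W200.MR (pw)
open Pool.Agent.W354.LS (tri KT KT_ft0 KT_cont KT_integrable tri_eq_zero)
open Pool.Agent.TH445.MQ (tri_in tri_out KT_form pw_norm)

/-- the trapezoid -/
noncomputable def trp (a b y : ℝ) : ℝ := (a * tri (y / a) - b * tri (y / b)) / (a - b)

lemma trp_in {a b y : ℝ} (hb : 0 < b) (hab : b < a) (h : |y| ≤ b) : trp a b y = 1 := by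
  unfold trp
  rw [tri_in (hb.trans hab) (h.trans hab.le), tri_in hb h]
  have : a - b ≠ 0 := by linarith
  field_simp
  ring

lemma trp_out {a b y : ℝ} (hb : 0 < b) (hab : b < a) (h : a ≤ |y|) : trp a b y = 0 := by
  unfold trp
  rw [tri_out (hb.trans hab) h, tri_out hb (hab.le.trans h)]
  simp

lemma trp_bd {a b y : ℝ} (hb : 0 < b) (hab : b < a) : |trp a b y| ≤ 1 := by
  rcases le_total |y| b with h | h
  · rw [trp_in hb hab h]; simp
  rcases le_total a |y| with h' | h'
  · rw [trp_out hb hab h']; simp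
  · unfold trp
    rw [tri_in (hb.trans hab) h', tri_out hb h, sub_zero, abs_div, abs_of_nonneg (by linarith),
      abs_of_pos (by linarith : 0 < a - b), div_le_one (by linarith)]
    linarith

/-- the kernel with Fourier transform `trp` -/
noncomputable def w0 (a b t : ℝ) : ℝ :=
  (a * KT (a / (2 * Real.pi)) t - b * KT (b / (2 * Real.pi)) t) / (a - b)

lemma w0_cont (a b : ℝ) : Continuous (w0 a b) := by
  unfold w0
  have h1 := KT_cont (a / (2 * Real.pi))
  have h2 := KT_cont (b / (2 * Real.pi))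
  fun_prop

lemma w0_int {a b : ℝ} (hb : 0 < b) (hab : b < a) : Integrable (w0 a b) := by
  have hp := Real.pi_pos
  have ha : 0 < a := hb.trans hab
  unfold w0
  exact (((KT_integrable (by positivity)).const_mul a).sub
    ((KT_integrable (by positivity)).const_mul b)).div_const _

lemma w0_ft {a b : ℝ} (hb : 0 < b) (hab : b < a) (y : ℝ) :
    ∫ t, (w0 a b t : ℂ) * Complex.exp (((y * t : ℝ) : ℂ) * Complex.I) = ((trp a b y : ℝ) : ℂ) := by
  have hp := Real.pi_pos
  have ha : 0 < a := hb.trans hab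
  have hi : ∀ δ : ℝ, 0 < δ → Integrable (fun t : ℝ => (KT δ t : ℂ) *
      Complex.exp (((y * t : ℝ) : ℂ) * Complex.I)) := by
    intro δ hδ
    refine (KT_integrable hδ).mono ?_ ?_
    · apply Continuous.aestronglyMeasurable
      have := KT_cont δ
      fun_prop
    · refine Filter.Eventually.of_forall fun t => ?_
      rw [norm_mul, Complex.norm_exp_ofReal_mul_I, mul_one, Complex.norm_real]
  have e1 : ∀ t, (w0 a b t : ℂ) * Complex.exp (((y * t : ℝ) : ℂ) * Complex.I) =
      ((a / (a - b) : ℝ) : ℂ) * ((KT (a / (2 * Real.pi)) t : ℂ) *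
        Complex.exp (((y * t : ℝ) : ℂ) * Complex.I)) -
      ((b / (a - b) : ℝ) : ℂ) * ((KT (b / (2 * Real.pi)) t : ℂ) *
        Complex.exp (((y * t : ℝ) : ℂ) * Complex.I)) := by
    intro t
    unfold w0
    push_cast
    ring
  simp only [e1]
  rw [integral_sub ((hi _ (by positivity)).const_mul _) ((hi _ (by positivity)).const_mul _),
    integral_const_mul, integral_const_mul, KT_ft0 (by positivity), KT_ft0 (by positivity)]
  have h1 : y / (2 * Real.pi * (a / (2 * Real.pi))) = y / a := by
    congr 1; field_simp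
  have h2 : y / (2 * Real.pi * (b / (2 * Real.pi))) = y / b := by
    congr 1; field_simp
  rw [h1, h2]
  unfold trp
  push_cast
  ring

lemma w0_bound {a b κ : ℝ} (η t : ℝ) (hb : 0 < b) (hκ : 0 < κ) (hκ1 : κ ≤ 1) (hab : a - b = κ)
    (hs : a + b ≤ 2) (hη : 0 < η) (hη1 : η ≤ 1) :
    |w0 a b t| ≤ 12 * κ⁻¹ ^ η * (1 + |t|) ^ (-(1 + η)) := by
  have hp := Real.pi_pos
  have hp3 := Real.pi_gt_three
  have ha0 : 0 < a := by linarith
  have hab0 : 0 < a - b := by rw [hab]; exact hκ
  have hκi : 1 ≤ κ⁻¹ := (one_le_inv₀ hκ).2 hκ1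
  have hNη : 1 ≤ κ⁻¹ ^ η := Real.one_le_rpow hκi hη.le
  rcases eq_or_ne t 0 with h0 | h0
  · subst h0
    unfold w0 Pool.Agent.W354.LS.KT
    simp only [mul_zero, Real.sinc_zero, abs_zero, add_zero, Real.one_rpow, mul_one]
    have e : (a * (a / (2 * Real.pi) * 1 ^ 2) - b * (b / (2 * Real.pi) * 1 ^ 2)) / (a - b) =
        (a + b) / (2 * Real.pi) := by
      field_simp
      ring
    rw [e, abs_of_pos (by positivity), div_le_iff₀ (by positivity)]
    nlinarith
  · have ht0 : 0 < |t| := abs_pos.2 h0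
    unfold w0
    rw [KT_form a t ha0 h0, KT_form b t hb h0]
    have e1 : Real.sin (a * t / 2) ^ 2 - Real.sin (b * t / 2) ^ 2 =
        Real.sin ((a + b) * t / 2) * Real.sin ((a - b) * t / 2) := by
      have e2 : (a + b) * t / 2 = a * t / 2 + b * t / 2 := by ring
      have e3 : (a - b) * t / 2 = a * t / 2 - b * t / 2 := by ring
      rw [e2, e3, Real.sin_add, Real.sin_sub]
      have h1 := Real.sin_sq_add_cos_sq (a * t / 2)
      have h2 := Real.sin_sq_add_cos_sq (b * t / 2)
      have h3 : Real.cos (a * t / 2) ^ 2 = 1 - Real.sin (a * t / 2) ^ 2 := by linarith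
      have h4 : Real.cos (b * t / 2) ^ 2 = 1 - Real.sin (b * t / 2) ^ 2 := by linarith
      calc Real.sin (a * t / 2) ^ 2 - Real.sin (b * t / 2) ^ 2
          = Real.sin (a * t / 2) ^ 2 * (1 - Real.sin (b * t / 2) ^ 2) -
            (1 - Real.sin (a * t / 2) ^ 2) * Real.sin (b * t / 2) ^ 2 := by ring
        _ = Real.sin (a * t / 2) ^ 2 * Real.cos (b * t / 2) ^ 2 -
            Real.cos (a * t / 2) ^ 2 * Real.sin (b * t / 2) ^ 2 := by rw [← h4, ← h3]
        _ = _ := by ring
    have e4 : (2 / Real.pi * Real.sin (a * t / 2) ^ 2 / t ^ 2 -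
        2 / Real.pi * Real.sin (b * t / 2) ^ 2 / t ^ 2) / (a - b) =
        2 / Real.pi * (Real.sin ((a + b) * t / 2) * Real.sin ((a - b) * t / 2)) /
          (t ^ 2 * (a - b)) := by
      rw [← e1]
      field_simp
    rw [e4, abs_div, abs_mul, abs_mul, abs_mul, abs_of_pos hab0, abs_of_pos (by positivity : 0 < 2 / Real.pi),
      abs_of_pos (by positivity : 0 < t ^ 2)]
    have hs1 : |Real.sin ((a + b) * t / 2)| ≤ 1 := Real.abs_sin_le_one _
    have hs2 : |Real.sin ((a - b) * t / 2)| ≤ 1 := Real.abs_sin_le_one _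
    have hs3 : |Real.sin ((a + b) * t / 2)| ≤ (a + b) * |t| / 2 := by
      refine Real.abs_sin_le_abs.trans (le_of_eq ?_)
      rw [abs_div, abs_mul, abs_of_pos (by linarith : 0 < a + b), abs_two]
    have hs4 : |Real.sin ((a - b) * t / 2)| ≤ (a - b) * |t| / 2 := by
      refine Real.abs_sin_le_abs.trans (le_of_eq ?_)
      rw [abs_div, abs_mul, abs_of_pos hab0, abs_two]
    have hsq : t ^ 2 = |t| ^ 2 := (sq_abs t).symm
    have hpi2 : 2 / Real.pi ≤ 1 := by rw [div_le_one hp]; linarith
    rcases le_or_gt |t| 1 with h1 | h1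
    · have h2 : 2 / Real.pi * (|Real.sin ((a + b) * t / 2)| * |Real.sin ((a - b) * t / 2)|) /
          (t ^ 2 * (a - b)) ≤ 1 := by
        rw [div_le_one (by positivity), hsq]
        calc 2 / Real.pi * (|Real.sin ((a + b) * t / 2)| * |Real.sin ((a - b) * t / 2)|)
            ≤ 1 * (((a + b) * |t| / 2) * ((a - b) * |t| / 2)) := by
              apply mul_le_mul hpi2 _ (by positivity) (by norm_num)
              exact mul_le_mul hs3 hs4 (abs_nonneg _) (by positivity)
          _ = (a + b) / 4 * (|t| ^ 2 * (a - b)) := by ring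
          _ ≤ 1 * (|t| ^ 2 * (a - b)) := by
              apply mul_le_mul_of_nonneg_right _ (by positivity)
              linarith
          _ = _ := by ring
      refine h2.trans ?_
      have h3 : (1 / 4 : ℝ) ≤ (1 + |t|) ^ (-(1 + η)) := by
        calc (1 / 4 : ℝ) = 2 ^ (-2 : ℝ) := by
              rw [Real.rpow_neg (by norm_num)]; norm_num
          _ ≤ 2 ^ (-(1 + η)) := Real.rpow_le_rpow_of_exponent_le (by norm_num) (by linarith)
          _ ≤ (1 + |t|) ^ (-(1 + η)) :=
              Real.rpow_le_rpow_of_nonpos (by positivity) (by linarith) (by linarith)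
      have h4 : 12 * 1 * (1 / 4 : ℝ) ≤ 12 * κ⁻¹ ^ η * (1 + |t|) ^ (-(1 + η)) := by
        apply mul_le_mul _ h3 (by norm_num) (by positivity)
        linarith
      linarith
    · have h2 : 2 / Real.pi * (|Real.sin ((a + b) * t / 2)| * |Real.sin ((a - b) * t / 2)|) /
          (t ^ 2 * (a - b)) ≤ κ⁻¹ ^ η * |t| ^ (-(1 + η)) := by
        have hA : 2 / Real.pi * (|Real.sin ((a + b) * t / 2)| * |Real.sin ((a - b) * t / 2)|) /
          (t ^ 2 * (a - b)) ≤ |t| ^ (-1 : ℝ) := by
          rw [div_le_iff₀ (by positivity), hsq, Real.rpow_neg_one]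
          calc 2 / Real.pi * (|Real.sin ((a + b) * t / 2)| * |Real.sin ((a - b) * t / 2)|)
              ≤ 1 * (1 * ((a - b) * |t| / 2)) := by
                apply mul_le_mul hpi2 _ (by positivity) (by norm_num)
                exact mul_le_mul hs1 hs4 (abs_nonneg _) (by norm_num)
            _ ≤ |t| * (a - b) := by nlinarith
            _ = |t|⁻¹ * (|t| ^ 2 * (a - b)) := by field_simp
        have hB : 2 / Real.pi * (|Real.sin ((a + b) * t / 2)| * |Real.sin ((a - b) * t / 2)|) /
          (t ^ 2 * (a - b)) ≤ κ⁻¹ * |t| ^ (-2 : ℝ) := by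
          rw [div_le_iff₀ (by positivity), hsq, hab]
          have e5 : |t| ^ (-2 : ℝ) = (|t| ^ 2)⁻¹ := by
            rw [Real.rpow_neg (abs_nonneg t)]; norm_num
          rw [e5]
          calc 2 / Real.pi * (|Real.sin ((a + b) * t / 2)| *
                |Real.sin (κ * t / 2)|) ≤ 1 * (1 * 1) := by
                apply mul_le_mul hpi2 _ (by positivity) (by norm_num)
                exact mul_le_mul hs1 (Real.abs_sin_le_one _) (abs_nonneg _) (by norm_num)
            _ = κ⁻¹ * (|t| ^ 2)⁻¹ * (|t| ^ 2 * κ) := by field_simp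
        set Z := 2 / Real.pi * (|Real.sin ((a + b) * t / 2)| * |Real.sin ((a - b) * t / 2)|) /
          (t ^ 2 * (a - b)) with hZ
        have hZ0 : 0 ≤ Z := by rw [hZ]; positivity
        have e6 : Z = Z ^ (1 - η) * Z ^ η := by
          rw [← Real.rpow_add_of_nonneg hZ0 (by linarith) hη.le]
          simp
        rw [e6]
        calc Z ^ (1 - η) * Z ^ η ≤ (|t| ^ (-1 : ℝ)) ^ (1 - η) * (κ⁻¹ * |t| ^ (-2 : ℝ)) ^ η :=
              mul_le_mul (Real.rpow_le_rpow hZ0 hA (by linarith)) (Real.rpow_le_rpow hZ0 hB hη.le)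
                (by positivity) (by positivity)
          _ = κ⁻¹ ^ η * |t| ^ (-(1 + η)) := by
              rw [Real.mul_rpow (by positivity) (by positivity), ← Real.rpow_mul (abs_nonneg t),
                ← Real.rpow_mul (abs_nonneg t)]
              have : |t| ^ (-(1 + η)) = |t| ^ (-1 * (1 - η)) * |t| ^ (-2 * η) := by
                rw [← Real.rpow_add ht0]
                congr 1
                ring
              rw [this]
              ring
      refine h2.trans ?_
      have h3 : |t| ^ (-(1 + η)) ≤ 4 * (1 + |t|) ^ (-(1 + η)) := by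
        calc |t| ^ (-(1 + η)) ≤ ((1 + |t|) / 2) ^ (-(1 + η)) :=
              Real.rpow_le_rpow_of_nonpos (by positivity) (by linarith) (by linarith)
          _ = 2 ^ (1 + η) * (1 + |t|) ^ (-(1 + η)) := by
              rw [Real.div_rpow (by positivity) (by norm_num), Real.rpow_neg (by norm_num : (0:ℝ) ≤ 2)]
              field_simp
          _ ≤ 4 * (1 + |t|) ^ (-(1 + η)) := by
              apply mul_le_mul_of_nonneg_right _ (by positivity)
              calc (2 : ℝ) ^ (1 + η) ≤ 2 ^ (2 : ℝ) :=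
                    Real.rpow_le_rpow_of_exponent_le (by norm_num) (by linarith)
                _ = 4 := by norm_num
      calc κ⁻¹ ^ η * |t| ^ (-(1 + η)) ≤ κ⁻¹ ^ η * (4 * (1 + |t|) ^ (-(1 + η))) :=
            mul_le_mul_of_nonneg_left h3 (by positivity)
        _ ≤ _ := by
            have : 0 ≤ κ⁻¹ ^ η * (1 + |t|) ^ (-(1 + η)) := by positivity
            nlinarith

/-- the parameters of the trapezoid for the cutoff `M ≤ n ≤ 2N` -/
lemma params (N M : ℕ) (hN : 1 ≤ N) (hM : N ≤ M) (hM2 : M ≤ 2 * N) :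
    ∃ a b c : ℝ, 0 < b ∧ a - b = 1 / (6 * N) ∧ a + b ≤ 2 ∧ ∀ n : ℕ, 1 ≤ n →
      ∀ u : ℝ, |u| ≤ 1 / (12 * N) → trp a b (Real.log n + u - c) =
        if n ∈ Icc M (2 * N) then 1 else 0 := by
  have hN0 : (0 : ℝ) < N := by exact_mod_cast hN
  have hN1 : (1 : ℝ) ≤ N := by exact_mod_cast hN
  have hMr : (N : ℝ) ≤ M := by exact_mod_cast hM
  have hM2r : (M : ℝ) ≤ 2 * N := by exact_mod_cast hM2
  set Lp := Real.log (2 * N + 1 / 2) with hLp
  set Lm := Real.log (M - 1 / 2) with hLm
  set h := (Lp - Lm) / 2 with hh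
  set κ := 1 / (12 * (N : ℝ)) with hκ
  have hκ0 : 0 < κ := by positivity
  have hdiv : ∀ x y : ℝ, 0 < y → 0 < x → 1 - y / x ≤ Real.log x - Real.log y := by
    intro x y hy hx
    have := Real.one_sub_inv_le_log_of_pos (div_pos hx hy)
    rwa [Real.log_div hx.ne' hy.ne', inv_div] at this
  have hh1 : 1 / (5 * (N : ℝ)) ≤ h := by
    have h1 := hdiv (2 * N + 1 / 2) (M - 1 / 2) (by linarith) (by positivity)
    have h2 : 2 / (5 * (N : ℝ)) ≤ 1 - (M - 1 / 2) / (2 * N + 1 / 2) := by
      rw [one_sub_div (by positivity), div_le_div_iff₀ (by positivity) (by positivity)]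
      nlinarith
    rw [hh]
    have : 1 / (5 * (N : ℝ)) = (2 / (5 * (N : ℝ))) / 2 := by field_simp
    rw [this]
    linarith
  have hh2 : κ < h := by
    refine lt_of_lt_of_le ?_ hh1
    rw [hκ]
    apply one_div_lt_one_div_of_lt (by positivity)
    linarith
  refine ⟨h + κ, h - κ, (Lp + Lm) / 2, by linarith, ?_, ?_, ?_⟩
  · rw [hκ]; field_simp; ring
  · have h1 : Lp - Lm ≤ 2 := by
      rw [hLp, hLm, ← Real.log_div (by positivity) (by linarith)]
      have h2 : (2 * (N : ℝ) + 1 / 2) / (M - 1 / 2) ≤ 5 := by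
        rw [div_le_iff₀ (by linarith)]
        linarith
      have h3 : Real.log ((2 * (N : ℝ) + 1 / 2) / (M - 1 / 2)) ≤ Real.log 5 :=
        Real.log_le_log (div_pos (by positivity) (by linarith)) h2
      have h4 : Real.log 5 ≤ 2 := by
        rw [Real.log_le_iff_le_exp (by norm_num)]
        have h5 : Real.exp 2 = Real.exp 1 ^ 2 := by rw [← Real.exp_nat_mul]; norm_num
        rw [h5]
        have := Real.exp_one_gt_d9
        nlinarith
      linarith
    rw [hh]; linarith
  · intro n hn u hu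
    have hn0 : (0 : ℝ) < n := by exact_mod_cast hn
    split_ifs with hc
    · rw [mem_Icc] at hc
      have h1 : (M : ℝ) ≤ n := by exact_mod_cast hc.1
      have h2 : (n : ℝ) ≤ 2 * N := by exact_mod_cast hc.2
      have h3 := hdiv n (M - 1 / 2) (by linarith) hn0
      have h4 := hdiv (2 * N + 1 / 2) n hn0 (by positivity)
      have h5 : 2 * κ ≤ 1 - (M - 1 / 2) / n := by
        rw [hκ, one_sub_div hn0.ne', mul_one_div, div_le_div_iff₀ (by positivity) hn0]
        nlinarith
      have h6 : 2 * κ ≤ 1 - n / (2 * N + 1 / 2) := by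
        rw [hκ, one_sub_div (by positivity), mul_one_div, div_le_div_iff₀ (by positivity) (by positivity)]
        nlinarith
      apply trp_in (by linarith) (by linarith)
      rw [abs_le] at hu ⊢
      rw [hh]
      constructor
      · linarith [hu.1]
      · linarith [hu.2]
    · apply trp_out (by linarith) (by linarith)
      rw [mem_Icc, not_and_or] at hc
      rcases hc with hc | hc
      · have h1 : (n : ℝ) + 1 ≤ M := by exact_mod_cast (not_le.1 hc)
        have h2 := hdiv (M - 1 / 2) n hn0 (by linarith)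
        have h3 : 2 * κ ≤ 1 - n / (M - 1 / 2) := by
          rw [hκ, one_sub_div (by linarith), mul_one_div, div_le_div_iff₀ (by positivity) (by linarith)]
          nlinarith
        rw [le_abs]
        right
        rw [hh]
        linarith [(abs_le.1 hu).2]
      · have h1 : 2 * (N : ℝ) + 1 ≤ n := by exact_mod_cast (not_le.1 hc)
        have h2 := hdiv n (2 * N + 1 / 2) (by positivity) hn0
        have h3 : 2 * κ ≤ 1 - (2 * N + 1 / 2) / n := by
          rw [hκ, one_sub_div hn0.ne', mul_one_div, div_le_div_iff₀ (by positivity) hn0]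
          nlinarith
        rw [le_abs]
        left
        rw [hh]
        linarith [(abs_le.1 hu).1]

end Pool.Agent.KS6_54.ML
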