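import Pool.Agent.KS6_54.ML.Ker

set_option autoImplicit false

/-!
# Kernels with Gaussian decay for the multipliers `g(n) 1_{N ≤ n ≤ 2N}`
-/

open Finset MeasureTheory

namespace Pool.Agent.KS6_54.ML

open Pool.Agent.W200.MR (pw)
open Pool.Agent.TH445.MQ (pw_norm)

/-- the Gaussian factor -/
noncomputable def ga (V v : ℝ) : ℝ := Real.exp (-(v ^ 2 / (2 * V ^ 2)))

lemma ga_cont (V : ℝ) : Continuous (ga V) := by unfold ga; fun_prop

lemma ga_pos (V v : ℝ) : 0 < ga V v := Real.exp_pos _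

lemma ga_le (V v : ℝ) : ga V v ≤ 1 := by
  unfold ga
  apply Real.exp_le_one_iff.2
  have : 0 ≤ v ^ 2 / (2 * V ^ 2) := by positivity
  linarith

/-- the Gaussian density -/
noncomputable def gd (V u : ℝ) : ℝ := V / Real.sqrt (2 * Real.pi) * Real.exp (-(V ^ 2 / 2) * u ^ 2)

lemma gd_int {V : ℝ} (hV : 0 < V) : Integrable (gd V) := by
  unfold gd
  exact (integrable_exp_neg_mul_sq (by positivity)).const_mul _

lemma gd_nonneg {V : ℝ} (hV : 0 < V) (u : ℝ) : 0 ≤ gd V u := by unfold gd; positivity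

lemma gd_ft {V : ℝ} (hV : 0 < V) (v : ℝ) :
    ∫ u : ℝ, (gd V u : ℂ) * Complex.exp (((u * v : ℝ) : ℂ) * Complex.I) = (ga V v : ℂ) := by
  have hp := Real.pi_pos
  have hb : 0 < (((V ^ 2 / 2 : ℝ)) : ℂ).re := by rw [Complex.ofReal_re]; positivity
  have h := fourierIntegral_gaussian hb (v : ℂ)
  have e1 : ∀ u : ℝ, (gd V u : ℂ) * Complex.exp (((u * v : ℝ) : ℂ) * Complex.I) =
      ((V / Real.sqrt (2 * Real.pi) : ℝ) : ℂ) * (Complex.exp (Complex.I * v * u) *
        Complex.exp (-((V ^ 2 / 2 : ℝ) : ℂ) * (u : ℂ) ^ 2)) := by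
    intro u
    unfold gd
    push_cast
    rw [show (u : ℂ) * v * Complex.I = Complex.I * v * u by ring]
    ring
  simp_rw [e1]
  rw [integral_const_mul, h, ← mul_assoc]
  have h1 : (Real.pi : ℂ) / ((V ^ 2 / 2 : ℝ) : ℂ) = ((2 * Real.pi / V ^ 2 : ℝ) : ℂ) := by
    push_cast
    field_simp
  have h2 : (1 / 2 : ℂ) = ((1 / 2 : ℝ) : ℂ) := by push_cast; ring
  rw [h1, h2, ← Complex.ofReal_cpow (by positivity), ← Real.sqrt_eq_rpow, ← Complex.ofReal_mul]
  have h3 : V / Real.sqrt (2 * Real.pi) * Real.sqrt (2 * Real.pi / V ^ 2) = 1 := by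
    rw [Real.sqrt_div (by positivity), Real.sqrt_sq hV.le]
    have : Real.sqrt (2 * Real.pi) ≠ 0 := (Real.sqrt_pos.2 (by positivity)).ne'
    field_simp
  rw [h3, Complex.ofReal_one, one_mul]
  unfold ga
  rw [Complex.ofReal_exp]
  congr 1
  push_cast
  have : (V : ℂ) ≠ 0 := by exact_mod_cast hV.ne'
  field_simp
  ring

lemma trunc_ft {a b V : ℝ} (hb : 0 < b) (hab : b < a) (hV : 0 < V) (y : ℝ) :
    ∫ v, ((w0 a b v * ga V v : ℝ) : ℂ) * Complex.exp (((y * v : ℝ) : ℂ) * Complex.I) =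
      ∫ u, ((gd V u * trp a b (y + u) : ℝ) : ℂ) := by
  have hF : Integrable (Function.uncurry fun (v u : ℝ) =>
      ((w0 a b v : ℂ) * Complex.exp (((y * v : ℝ) : ℂ) * Complex.I)) *
        ((gd V u : ℂ) * Complex.exp (((u * v : ℝ) : ℂ) * Complex.I))) (volume.prod volume) := by
    have h1 : Integrable (fun z : ℝ × ℝ => w0 a b z.1 * gd V z.2) (volume.prod volume) :=
      (w0_int hb hab).mul_prod (gd_int hV)
    refine h1.mono ?_ ?_
    · apply Continuous.aestronglyMeasurable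
      have h2 := w0_cont a b
      have h3 : Continuous (gd V) := by unfold gd; fun_prop
      unfold Function.uncurry
      fun_prop
    · refine Filter.Eventually.of_forall fun z => ?_
      simp only [Function.uncurry, norm_mul, Complex.norm_exp_ofReal_mul_I, mul_one,
        Complex.norm_real]
      exact le_rfl
  have e1 : ∀ v, ((w0 a b v * ga V v : ℝ) : ℂ) * Complex.exp (((y * v : ℝ) : ℂ) * Complex.I) =
      ∫ u, ((w0 a b v : ℂ) * Complex.exp (((y * v : ℝ) : ℂ) * Complex.I)) *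
        ((gd V u : ℂ) * Complex.exp (((u * v : ℝ) : ℂ) * Complex.I)) := by
    intro v
    rw [integral_const_mul, gd_ft hV v]
    push_cast
    ring
  simp_rw [e1]
  rw [integral_integral_swap hF]
  congr 1
  funext u
  have e2 : ∀ v : ℝ, ((w0 a b v : ℂ) * Complex.exp (((y * v : ℝ) : ℂ) * Complex.I)) *
        ((gd V u : ℂ) * Complex.exp (((u * v : ℝ) : ℂ) * Complex.I)) =
      (gd V u : ℂ) * ((w0 a b v : ℂ) * Complex.exp ((((y + u) * v : ℝ) : ℂ) * Complex.I)) := by
    intro v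
    have : Complex.exp ((((y + u) * v : ℝ) : ℂ) * Complex.I) =
        Complex.exp (((y * v : ℝ) : ℂ) * Complex.I) *
          Complex.exp (((u * v : ℝ) : ℂ) * Complex.I) := by
      rw [← Complex.exp_add]
      congr 1
      push_cast
      ring
    rw [this]
    ring
  simp_rw [e2]
  rw [integral_const_mul, w0_ft hb hab]
  push_cast
  ring

lemma trunc_err {a b V κ : ℝ} (hb : 0 < b) (hab : b < a) (hV : 0 < V) (hκ : 0 ≤ κ) (y e : ℝ)
    (he : |e| ≤ 1) (h : ∀ u : ℝ, |u| ≤ κ → trp a b (y + u) = e) :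
    ‖(∫ v, ((w0 a b v * ga V v : ℝ) : ℂ) * Complex.exp (((y * v : ℝ) : ℂ) * Complex.I)) - e‖ ≤
      3 * Real.exp (-(κ ^ 2 * V ^ 2 / 4)) := by
  have hp := Real.pi_pos
  rw [trunc_ft hb hab hV y]
  have h1 : ∫ u, gd V u = 1 := by
    have := gd_ft hV 0
    simp only [mul_zero, Complex.ofReal_zero, zero_mul, Complex.exp_zero, mul_one] at this
    rw [integral_complex_ofReal] at this
    have h2 : ga V 0 = 1 := by simp [ga]
    rw [h2] at this
    exact_mod_cast this
  have hcont : Continuous fun u => trp a b (y + u) := by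
    unfold trp Pool.Agent.W354.LS.tri
    fun_prop
  have hi : Integrable fun u => gd V u * trp a b (y + u) := by
    refine (gd_int hV).mono ?_ ?_
    · apply Continuous.aestronglyMeasurable
      have h3 : Continuous (gd V) := by unfold gd; fun_prop
      fun_prop
    · refine Filter.Eventually.of_forall fun u => ?_
      rw [norm_mul]
      exact mul_le_of_le_one_right (norm_nonneg _) (trp_bd hb hab)
  have h2 : (∫ u, ((gd V u * trp a b (y + u) : ℝ) : ℂ)) - e =
      ((∫ u, gd V u * (trp a b (y + u) - e) : ℝ) : ℂ) := by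
    rw [integral_complex_ofReal, ← Complex.ofReal_sub]
    congr 1
    have : ∫ u, gd V u * (trp a b (y + u) - e) = ∫ u, (gd V u * trp a b (y + u) - gd V u * e) := by
      congr 1; funext u; ring
    rw [this, integral_sub hi ((gd_int hV).mul_const e), integral_mul_const, h1, one_mul]
  rw [h2, Complex.norm_real]
  refine (norm_integral_le_integral_norm _).trans ?_
  have h3 : ∀ u, ‖gd V u * (trp a b (y + u) - e)‖ ≤
      (2 * Real.exp (-(κ ^ 2 * V ^ 2 / 4)) * (V / Real.sqrt (2 * Real.pi))) *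
        Real.exp (-(V ^ 2 / 4) * u ^ 2) := by
    intro u
    rcases le_or_gt |u| κ with hu | hu
    · rw [h u hu, sub_self, mul_zero, norm_zero]
      positivity
    · rw [norm_mul, Real.norm_of_nonneg (gd_nonneg hV u), Real.norm_eq_abs]
      have h4 : |trp a b (y + u) - e| ≤ 2 := by
        have := abs_sub (trp a b (y + u)) e
        linarith [trp_bd (y := y + u) hb hab]
      have h5 : Real.exp (-(V ^ 2 / 2) * u ^ 2) ≤
          Real.exp (-(κ ^ 2 * V ^ 2 / 4)) * Real.exp (-(V ^ 2 / 4) * u ^ 2) := by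
        rw [← Real.exp_add]
        apply Real.exp_le_exp.2
        have h6 : κ ^ 2 ≤ u ^ 2 := by
          rw [← sq_abs u]
          exact pow_le_pow_left₀ hκ hu.le 2
        nlinarith [mul_nonneg (sq_nonneg V) (sub_nonneg.2 h6)]
      unfold gd
      calc V / Real.sqrt (2 * Real.pi) * Real.exp (-(V ^ 2 / 2) * u ^ 2) * |trp a b (y + u) - e|
          ≤ V / Real.sqrt (2 * Real.pi) * (Real.exp (-(κ ^ 2 * V ^ 2 / 4)) *
            Real.exp (-(V ^ 2 / 4) * u ^ 2)) * 2 := by
            gcongr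
        _ = _ := by ring
  have h4 : Integrable fun u : ℝ => (2 * Real.exp (-(κ ^ 2 * V ^ 2 / 4)) *
      (V / Real.sqrt (2 * Real.pi))) * Real.exp (-(V ^ 2 / 4) * u ^ 2) :=
    (integrable_exp_neg_mul_sq (by positivity)).const_mul _
  refine (integral_mono_of_nonneg (Filter.Eventually.of_forall fun u => norm_nonneg _) h4
    (Filter.Eventually.of_forall h3)).trans ?_
  rw [integral_const_mul, integral_gaussian]
  have h5 : V / Real.sqrt (2 * Real.pi) * Real.sqrt (Real.pi / (V ^ 2 / 4)) = Real.sqrt 2 := by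
    have e1 : Real.pi / (V ^ 2 / 4) = 4 * Real.pi / V ^ 2 := by field_simp
    rw [e1, Real.sqrt_div (by positivity), Real.sqrt_sq hV.le]
    have e2 : (4 : ℝ) * Real.pi = 2 * (2 * Real.pi) := by ring
    have e3 : Real.sqrt (2 * (2 * Real.pi)) = Real.sqrt 2 * Real.sqrt (2 * Real.pi) :=
      Real.sqrt_mul (by norm_num) _
    rw [e2, e3]
    have : Real.sqrt (2 * Real.pi) ≠ 0 := (Real.sqrt_pos.2 (by positivity)).ne'
    generalize Real.sqrt (2 * Real.pi) = s at this ⊢
    field_simp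
  have h6 : Real.sqrt 2 ≤ 3 / 2 := by
    rw [Real.sqrt_le_iff]; norm_num
  calc 2 * Real.exp (-(κ ^ 2 * V ^ 2 / 4)) * (V / Real.sqrt (2 * Real.pi)) *
        Real.sqrt (Real.pi / (V ^ 2 / 4)) = 2 * Real.exp (-(κ ^ 2 * V ^ 2 / 4)) *
        (V / Real.sqrt (2 * Real.pi) * Real.sqrt (Real.pi / (V ^ 2 / 4))) := by ring
    _ = 2 * Real.exp (-(κ ^ 2 * V ^ 2 / 4)) * Real.sqrt 2 := by rw [h5]
    _ ≤ 2 * Real.exp (-(κ ^ 2 * V ^ 2 / 4)) * (3 / 2) := by gcongr
    _ = _ := by ring

/-- the variation of `g` over `[N, 2N]` -/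
noncomputable def vr (N : ℕ) (g : ℕ → ℂ) : ℝ :=
  ‖g N‖ + ∑ M ∈ Ioc N (2 * N), ‖g M - g (M - 1)‖

lemma vr_nonneg (N : ℕ) (g : ℕ → ℂ) : 0 ≤ vr N g := by unfold vr; positivity

lemma tele (N : ℕ) (g : ℕ → ℂ) (n : ℕ) (hn : N ≤ n) :
    ∑ M ∈ Ioc N n, (g M - g (M - 1)) = g n - g N := by
  induction n, hn using Nat.le_induction with
  | base => simp
  | succ n hn ih =>
    rw [Finset.sum_Ioc_succ_top (by omega), ih, Nat.add_sub_cancel]
    ring

/-- **Kernels for multipliers of bounded variation.** -/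
theorem kernel (η : ℝ) (hη : 0 < η) (hη1 : η ≤ 1) (N : ℕ) (hN : 1 ≤ N) (g : ℕ → ℂ) (V : ℝ)
    (hV : 0 < V) : ∃ K : ℝ → ℂ, Continuous K ∧
      (∀ v, ‖K v‖ ≤ vr N g * (72 * (N : ℝ) ^ η * (1 + |v|) ^ (-(1 + η)) * ga V v)) ∧
      ∀ n : ℕ, 1 ≤ n → ‖(∫ v, K v * pw v n) - (if n ∈ Icc N (2 * N) then g n else 0)‖ ≤
        vr N g * (3 * Real.exp (-(V ^ 2 / (576 * (N : ℝ) ^ 2)))) := by
  classical
  have hN0 : (0 : ℝ) < N := by exact_mod_cast hN
  have hN1 : (1 : ℝ) ≤ N := by exact_mod_cast hN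
  have hpar : ∀ M : ℕ, ∃ p : ℝ × ℝ × ℝ, M ∈ Icc N (2 * N) → 0 < p.2.1 ∧
      p.1 - p.2.1 = 1 / (6 * N) ∧ p.1 + p.2.1 ≤ 2 ∧ ∀ n : ℕ, 1 ≤ n → ∀ u : ℝ,
        |u| ≤ 1 / (12 * N) → trp p.1 p.2.1 (Real.log n + u - p.2.2) =
          if n ∈ Icc M (2 * N) then 1 else 0 := by
    intro M
    by_cases h : M ∈ Icc N (2 * N)
    · obtain ⟨a, b, c, h1, h2, h3, h4⟩ := params N M hN (mem_Icc.1 h).1 (mem_Icc.1 h).2
      exact ⟨(a, b, c), fun _ => ⟨h1, h2, h3, h4⟩⟩
    · exact ⟨(0, 0, 0), fun h' => absurd h' h⟩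
  choose p hp using hpar
  set wM : ℕ → ℝ → ℂ := fun M v => ((w0 (p M).1 (p M).2.1 v * ga V v : ℝ) : ℂ) *
    Complex.exp (((-((p M).2.2 * v) : ℝ) : ℂ) * Complex.I) with hwM
  have hwc : ∀ M, Continuous (wM M) := by
    intro M
    have h1 := w0_cont (p M).1 (p M).2.1
    have h2 := ga_cont V
    rw [hwM]
    fun_prop
  have hwb : ∀ M ∈ Icc N (2 * N), ∀ v, ‖wM M v‖ ≤
      72 * (N : ℝ) ^ η * (1 + |v|) ^ (-(1 + η)) * ga V v := by
    intro M hM v
    obtain ⟨h1, h2, h3, _⟩ := hp M hM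
    rw [hwM]
    simp only
    rw [norm_mul, Complex.norm_exp_ofReal_mul_I, mul_one, Complex.norm_real, norm_mul,
      Real.norm_of_nonneg (ga_pos V v).le, Real.norm_eq_abs]
    apply mul_le_mul_of_nonneg_right _ (ga_pos V v).le
    have h4 := w0_bound (κ := 1 / (6 * (N : ℝ))) η v h1 (by positivity)
      (by rw [div_le_one (by positivity)]; linarith) h2 h3 hη hη1
    refine h4.trans ?_
    apply mul_le_mul_of_nonneg_right _ (by positivity)
    have h5 : (1 / (6 * (N : ℝ)))⁻¹ = 6 * N := by rw [one_div, inv_inv]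
    rw [h5, Real.mul_rpow (by norm_num) hN0.le]
    have h6 : (6 : ℝ) ^ η ≤ 6 := by
      calc (6 : ℝ) ^ η ≤ 6 ^ (1 : ℝ) := Real.rpow_le_rpow_of_exponent_le (by norm_num) hη1
        _ = 6 := Real.rpow_one 6
    have h7 : 0 < (N : ℝ) ^ η := by positivity
    nlinarith
  have hint0 : Integrable (fun t : ℝ => (1 + |t|) ^ (-(1 + η))) := by
    have := integrable_one_add_norm (E := ℝ) (μ := volume) (r := 1 + η) (by simp; exact hη)
    simpa [Real.norm_eq_abs] using this
  have hwint : ∀ M ∈ Icc N (2 * N), ∀ n : ℕ, Integrable fun v => wM M v * pw v n := by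
    intro M hM n
    refine (hint0.const_mul (72 * (N : ℝ) ^ η)).mono' ?_ ?_
    · apply Continuous.aestronglyMeasurable
      have := hwc M
      unfold Pool.Agent.W200.MR.pw
      fun_prop
    · refine Filter.Eventually.of_forall fun v => ?_
      rw [norm_mul, pw_norm, mul_one]
      refine (hwb M hM v).trans ?_
      exact mul_le_of_le_one_right (by positivity) (ga_le V v)
  have hwe : ∀ M ∈ Icc N (2 * N), ∀ n : ℕ, 1 ≤ n →
      ‖(∫ v, wM M v * pw v n) - (if n ∈ Icc M (2 * N) then 1 else 0)‖ ≤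
        3 * Real.exp (-(V ^ 2 / (576 * (N : ℝ) ^ 2))) := by
    intro M hM n hn
    obtain ⟨h1, h2, h3, h4⟩ := hp M hM
    have h5 : (p M).2.1 < (p M).1 := by
      have : 0 < 1 / (6 * (N : ℝ)) := by positivity
      linarith
    have h6 := trunc_err (V := V) (κ := 1 / (12 * N)) h1 h5 hV (by positivity)
      (Real.log n - (p M).2.2) (if n ∈ Icc M (2 * N) then 1 else 0) (by split_ifs <;> simp)
      (fun u hu => by
        rw [← h4 n hn u hu]
        congr 1
        ring)
    have e1 : ∀ v : ℝ, wM M v * pw v n = ((w0 (p M).1 (p M).2.1 v * ga V v : ℝ) : ℂ) *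
        Complex.exp ((((Real.log n - (p M).2.2) * v : ℝ) : ℂ) * Complex.I) := by
      intro v
      rw [hwM]
      simp only
      unfold Pool.Agent.W200.MR.pw
      rw [mul_assoc, ← Complex.exp_add]
      congr 2
      push_cast
      ring
    simp_rw [e1]
    have e2 : (((if n ∈ Icc M (2 * N) then 1 else 0 : ℝ)) : ℂ) =
        if n ∈ Icc M (2 * N) then 1 else 0 := by split_ifs <;> simp
    rw [e2] at h6
    refine h6.trans (le_of_eq ?_)
    congr 2
    field_simp
    norm_num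
  refine ⟨fun v => g N * wM N v + ∑ M ∈ Ioc N (2 * N), (g M - g (M - 1)) * wM M v, ?_, ?_, ?_⟩
  · have := hwc N
    have h2 := fun M => hwc M
    fun_prop
  · intro v
    have hNI : N ∈ Icc N (2 * N) := mem_Icc.2 ⟨le_rfl, by omega⟩
    refine (norm_add_le _ _).trans ?_
    unfold vr
    rw [add_mul, sum_mul]
    apply add_le_add
    · rw [norm_mul]
      exact mul_le_mul_of_nonneg_left (hwb N hNI v) (norm_nonneg _)
    · refine (norm_sum_le _ _).trans (sum_le_sum fun M hM => ?_)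
      rw [norm_mul]
      have : M ∈ Icc N (2 * N) := by
        rw [mem_Ioc] at hM
        exact mem_Icc.2 ⟨hM.1.le, hM.2⟩
      exact mul_le_mul_of_nonneg_left (hwb M this v) (norm_nonneg _)
  · intro n hn
    have hNI : N ∈ Icc N (2 * N) := mem_Icc.2 ⟨le_rfl, by omega⟩
    have hsub : ∀ M ∈ Ioc N (2 * N), M ∈ Icc N (2 * N) := by
      intro M hM
      rw [mem_Ioc] at hM
      exact mem_Icc.2 ⟨hM.1.le, hM.2⟩
    have e1 : ∫ v, (g N * wM N v + ∑ M ∈ Ioc N (2 * N), (g M - g (M - 1)) * wM M v) * pw v n =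
        g N * (∫ v, wM N v * pw v n) + ∑ M ∈ Ioc N (2 * N), (g M - g (M - 1)) *
          ∫ v, wM M v * pw v n := by
      have e2 : ∀ v, (g N * wM N v + ∑ M ∈ Ioc N (2 * N), (g M - g (M - 1)) * wM M v) * pw v n =
          g N * (wM N v * pw v n) + ∑ M ∈ Ioc N (2 * N), (g M - g (M - 1)) *
            (wM M v * pw v n) := by
        intro v
        rw [add_mul, sum_mul, mul_assoc]
        congr 1
        apply sum_congr rfl
        intro M _
        ring
      simp_rw [e2]
      rw [integral_add ((hwint N hNI n).const_mul _)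
        (integrable_finsetSum _ fun M hM => (hwint M (hsub M hM) n).const_mul _),
        integral_const_mul, integral_finsetSum _ fun M hM => (hwint M (hsub M hM) n).const_mul _]
      congr 1
      apply sum_congr rfl
      intro M _
      rw [integral_const_mul]
    have e3 : (if n ∈ Icc N (2 * N) then g n else 0 : ℂ) =
        g N * (if n ∈ Icc N (2 * N) then 1 else 0) + ∑ M ∈ Ioc N (2 * N), (g M - g (M - 1)) *
          (if n ∈ Icc M (2 * N) then 1 else 0) := by
      split_ifs with h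
      · rw [mem_Icc] at h
        have e4 : ∑ M ∈ Ioc N (2 * N), (g M - g (M - 1)) *
            (if n ∈ Icc M (2 * N) then 1 else 0 : ℂ) = ∑ M ∈ Ioc N n, (g M - g (M - 1)) := by
          have e5 : ∀ M ∈ Ioc N (2 * N), (g M - g (M - 1)) *
              (if n ∈ Icc M (2 * N) then 1 else 0 : ℂ) =
              if M ≤ n then (g M - g (M - 1)) else 0 := by
            intro M _
            by_cases h6 : M ≤ n
            · rw [if_pos (mem_Icc.2 ⟨h6, h.2⟩), if_pos h6, mul_one]
            · rw [if_neg (fun hc => h6 (mem_Icc.1 hc).1), if_neg h6, mul_zero]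
          rw [sum_congr rfl e5, ← sum_filter]
          congr 1
          ext M
          simp only [mem_filter, mem_Ioc]
          omega
        rw [e4, tele N g n h.1]
        ring
      · rw [mul_zero, zero_add]
        symm
        apply sum_eq_zero
        intro M hM
        rw [if_neg, mul_zero]
        intro hc
        apply h
        rw [mem_Icc] at hc ⊢
        rw [mem_Ioc] at hM
        omega
    rw [e1, e3]
    have e6 : g N * (∫ v, wM N v * pw v n) + (∑ M ∈ Ioc N (2 * N), (g M - g (M - 1)) *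
          ∫ v, wM M v * pw v n) - (g N * (if n ∈ Icc N (2 * N) then 1 else 0) +
            ∑ M ∈ Ioc N (2 * N), (g M - g (M - 1)) * (if n ∈ Icc M (2 * N) then 1 else 0)) =
        g N * ((∫ v, wM N v * pw v n) - (if n ∈ Icc N (2 * N) then 1 else 0)) +
          ∑ M ∈ Ioc N (2 * N), (g M - g (M - 1)) *
            ((∫ v, wM M v * pw v n) - (if n ∈ Icc M (2 * N) then 1 else 0)) := by
      simp_rw [mul_sub]
      rw [sum_sub_distrib]
      ring
    rw [e6]
    refine (norm_add_le _ _).trans ?_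
    unfold vr
    rw [add_mul, sum_mul]
    apply add_le_add
    · rw [norm_mul]
      exact mul_le_mul_of_nonneg_left (hwe N hNI n hn) (norm_nonneg _)
    · refine (norm_sum_le _ _).trans (sum_le_sum fun M hM => ?_)
      rw [norm_mul]
      exact mul_le_mul_of_nonneg_left (hwe M (hsub M hM) n hn) (norm_nonneg _)

end Pool.Agent.KS6_54.ML
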