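import Mathlib

set_option autoImplicit false

/-!
# The Laplace transform of a power, for complex parameters
-/

open MeasureTheory Set Filter Topology

namespace Pool.Agent.KS6_54.ML

/-- the Laplace transform of `x^(s-1)` -/
noncomputable def LT (s r : ℂ) : ℂ := ∫ x in Ioi (0 : ℝ), (x : ℂ) ^ (s - 1) * Complex.exp (-(r * x))

lemma norm_cpow_pos (s : ℂ) {x : ℝ} (hx : 0 < x) : ‖(x : ℂ) ^ s‖ = x ^ s.re :=
  Complex.norm_cpow_eq_rpow_re_of_pos hx s

lemma norm_exp_mul (r : ℂ) (x : ℝ) : ‖Complex.exp (-(r * x))‖ = Real.exp (-(r.re * x)) := by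
  rw [Complex.norm_exp]; simp

lemma int_pow_exp {a b : ℝ} (ha : -1 < a) (hb : 0 < b) :
    IntegrableOn (fun x : ℝ => x ^ a * Real.exp (-(b * x))) (Ioi 0) := by
  have := integrableOn_rpow_mul_exp_neg_mul_rpow (p := 1) (s := a) ha zero_lt_one hb
  simpa using this

lemma meas_aux (s r : ℂ) : AEStronglyMeasurable
    (fun x : ℝ => (x : ℂ) ^ (s - 1) * Complex.exp (-(r * x))) (volume.restrict (Ioi 0)) := by
  apply ContinuousOn.aestronglyMeasurable _ measurableSet_Ioi
  intro x hx
  apply ContinuousAt.continuousWithinAt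
  apply ContinuousAt.mul
  · exact Complex.continuousAt_ofReal_cpow_const x _ (Or.inr (ne_of_gt hx))
  · fun_prop

lemma LT_diff {s : ℂ} (hs : 0 < s.re) {r : ℂ} (hr : 0 < r.re) : DifferentiableAt ℂ (LT s) r := by
  set ε : ℝ := r.re / 2 with hε
  have hε0 : 0 < ε := by positivity
  have key := hasDerivAt_integral_of_dominated_loc_of_deriv_le (𝕜 := ℂ)
    (μ := volume.restrict (Ioi (0 : ℝ)))
    (F := fun (r : ℂ) (x : ℝ) => (x : ℂ) ^ (s - 1) * Complex.exp (-(r * x)))
    (F' := fun (r : ℂ) (x : ℝ) => (x : ℂ) ^ (s - 1) * (-(x : ℂ) * Complex.exp (-(r * x))))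
    (x₀ := r) (s := Metric.ball r ε) (bound := fun x : ℝ => x ^ s.re * Real.exp (-(ε * x)))
    (Metric.ball_mem_nhds r hε0) ?_ ?_ ?_ ?_ ?_ ?_
  · exact key.2.differentiableAt
  · exact Eventually.of_forall fun r => meas_aux s r
  · apply Integrable.mono' (int_pow_exp (a := s.re - 1) (b := r.re) (by linarith) hr) (meas_aux s r)
    filter_upwards [ae_restrict_mem measurableSet_Ioi] with x hx
    rw [norm_mul, norm_cpow_pos _ hx, norm_exp_mul]
    simp
  · have h1 := (meas_aux s r).mul (Complex.continuous_ofReal.neg.aestronglyMeasurable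
      (μ := volume.restrict (Ioi (0 : ℝ))))
    refine h1.congr (Eventually.of_forall fun x => ?_)
    simp only [Pi.mul_apply, Pi.neg_apply]
    ring
  · filter_upwards [ae_restrict_mem measurableSet_Ioi] with x hx r' hr'
    have hx0 : 0 < x := hx
    rw [norm_mul, norm_mul, norm_cpow_pos _ hx0, norm_exp_mul, norm_neg, Complex.norm_real,
      Real.norm_of_nonneg hx0.le]
    have h1 : ε ≤ r'.re := by
      have h2 : |(r' - r).re| ≤ ‖r' - r‖ := Complex.abs_re_le_norm _
      have h3 : ‖r' - r‖ < ε := by rw [← dist_eq_norm]; exact hr'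
      have h4 := (abs_lt.1 (h2.trans_lt h3)).1
      simp only [Complex.sub_re] at h4
      linarith
    have h5 : x ^ (s - 1).re * (x * Real.exp (-(r'.re * x))) = x ^ s.re * Real.exp (-(r'.re * x)) := by
      have : x ^ s.re = x ^ (s - 1).re * x := by
        rw [← Real.rpow_add_one hx0.ne']
        congr 1
        simp
      rw [this]; ring
    rw [h5]
    apply mul_le_mul_of_nonneg_left _ (by positivity)
    apply Real.exp_le_exp.2
    nlinarith
  · exact int_pow_exp (a := s.re) (b := ε) (by linarith) hε0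
  · refine Eventually.of_forall fun x r' _ => ?_
    have h1 : HasDerivAt (fun r : ℂ => -(r * (x : ℂ))) (-(1 * (x : ℂ))) r' :=
      ((hasDerivAt_id r').mul_const (x : ℂ)).neg
    have h2 := (h1.cexp).const_mul ((x : ℂ) ^ (s - 1))
    refine h2.congr_deriv ?_
    ring

theorem laplace {s : ℂ} (hs : 0 < s.re) {r : ℂ} (hr : 0 < r.re) :
    LT s r = Complex.Gamma s * r ^ (-s) := by
  have hopen : IsOpen {z : ℂ | 0 < z.re} := isOpen_lt continuous_const Complex.continuous_re
  have hconv : Convex ℝ {z : ℂ | 0 < z.re} := convex_halfSpace_re_gt 0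
  have hA : AnalyticOnNhd ℂ (LT s) {z : ℂ | 0 < z.re} := by
    apply DifferentiableOn.analyticOnNhd _ hopen
    intro z hz
    exact (LT_diff hs hz).differentiableWithinAt
  have hB : AnalyticOnNhd ℂ (fun r : ℂ => Complex.Gamma s * r ^ (-s)) {z : ℂ | 0 < z.re} := by
    apply DifferentiableOn.analyticOnNhd _ hopen
    intro z hz
    apply DifferentiableAt.differentiableWithinAt
    apply DifferentiableAt.const_mul
    apply DifferentiableAt.cpow_const differentiableAt_id
    left
    exact hz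
  have hE := hA.eqOn_of_preconnected_of_frequently_eq hB hconv.isPreconnected
    (z₀ := 1) (by simp) ?_
  · exact hE hr
  · have h1 : ∀ n : ℕ, LT s ((1 + 1 / ((n : ℝ) + 1) : ℝ) : ℂ) =
        Complex.Gamma s * (((1 + 1 / ((n : ℝ) + 1) : ℝ)) : ℂ) ^ (-s) := by
      intro n
      have hp : (0 : ℝ) < 1 + 1 / ((n : ℝ) + 1) := by positivity
      unfold LT
      rw [Complex.integral_cpow_mul_exp_neg_mul_Ioi hs hp, mul_comm]
      congr 1
      rw [Complex.cpow_neg, one_div, Complex.inv_cpow]
      rw [Complex.arg_ofReal_of_nonneg hp.le]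
      exact Real.pi_pos.ne
    have h2 : Tendsto (fun n : ℕ => ((1 + 1 / ((n : ℝ) + 1) : ℝ) : ℂ)) atTop (𝓝[≠] 1) := by
      rw [tendsto_nhdsWithin_iff]
      constructor
      · have h3 : Tendsto (fun n : ℕ => (1 + 1 / ((n : ℝ) + 1) : ℝ)) atTop (𝓝 (1 + 0)) :=
          tendsto_const_nhds.add tendsto_one_div_add_atTop_nhds_zero_nat
        have h4 : Tendsto (fun n : ℕ => ((1 + 1 / ((n : ℝ) + 1) : ℝ) : ℂ)) atTop
            (𝓝 ((1 + 0 : ℝ) : ℂ)) := (Complex.continuous_ofReal.tendsto _).comp h3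
        rw [add_zero, Complex.ofReal_one] at h4
        exact h4
      · refine Eventually.of_forall fun n => ?_
        simp only [mem_compl_iff, mem_singleton_iff]
        intro h
        have : (1 + 1 / ((n : ℝ) + 1) : ℝ) = 1 := by exact_mod_cast h
        have h5 : (0 : ℝ) < 1 / ((n : ℝ) + 1) := by positivity
        linarith
    exact h2.frequently (Frequently.of_forall fun n => h1 n)

end Pool.Agent.KS6_54.ML
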