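import Pool.Graph.R_seed8.Y755.Wi5
import Pool.Agent.KS6_54.ML.Hp3

set_option autoImplicit false

/-! The asymptotics over a window of length `T ^ (1/3 + 3 κ)` near the line
(adapted from `Pool.Agent.T6.H57.NS.win_mainS`). -/

namespace Pool.Agent.KS6_54.ML

open Finset Filter MeasureTheory
open Pool.Agent.W184.NZ
open Pool.Agent.W184 (zn zn_nonneg zn_cont zn_le')
open Pool.Agent.Y755
open Pool.Agent.T6.H57.NS

/-- the asymptotics over a window -/
theorem win_main3 {α : ℝ} (hα : 0 < α) (hα2 : α ≤ 2) {κ : ℝ} (hκ : 0 < κ) (hκ1 : κ ≤ 1 / 100) {ε : ℝ} (hε : 0 < ε) (hε1 : ε ≤ 1 / 10) :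
    ∃ lam : ℝ, 1 ≤ lam ∧ ∀ᶠ T : ℝ in atTop, ∀ δ : ℝ, lam / Real.log T ≤ δ → δ ≤ 1 / 16 →
      ∀ U H : ℝ, T / 4 ≤ U → U + H ≤ 4 * T → T ^ (1 / 3 + 3 * κ) ≤ H →
      (1 - 64 * ε) * (H * DD α δ) ≤ ∫ t in U..(U + H), zn (1 / 2 + δ) t ^ (2 * α) ∧
      (α ≤ 1 → ∫ t in U..(U + H), zn (1 / 2 + δ) t ^ (2 * α) ≤ (1 + 13 * ε) * (H * DD α δ)) := by
  set e := ε ^ 2 with he
  have he0 : 0 < e := by positivity
  have he1 : e ≤ 1 / 100 := by rw [he]; nlinarith
  obtain ⟨c, hc, hpar⟩ := par_ex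
  obtain ⟨z1, R1, hET⟩ := ET_small hc he0
  obtain ⟨z2, x0, hx0, hcmp⟩ := cmp hα hε
  set z : ℕ := max (max z1 z2) 1000 with hz
  have hz1000 : 1000 ≤ z := le_max_right _ _
  have hzz1 : z1 ≤ z := (le_max_left _ _).trans (le_max_left _ _)
  have hzz2 : z2 ≤ z := (le_max_right _ _).trans (le_max_left _ _)
  obtain ⟨Rs, hRok, hR1, h4, h14⟩ := Rs_exists (c := c) hε R1
  have hRs1 : 1 ≤ Rs := hRok.1
  obtain ⟨A0, m0, hA', hAm, hPA, hip⟩ := small_ex hα z hε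
  set m : ℝ := max m0 1 with hm
  have hA : Bd1 m A0 := hA'.mono (le_max_left _ _)
  have hm0 : 0 ≤ m := le_trans zero_le_one (le_max_right _ _)
  have hRp : (0:ℝ) < (Rs:ℝ) + 1 := by positivity
  set η : ℝ := κ / 4000 / ((Rs:ℝ) + 1) with hηd
  have hη : 0 < η := by positivity
  have hη1 : η * ((Rs:ℝ) + 1) = κ / 4000 := by rw [hηd]; field_simp
  have hη2 : η * ((Rs:ℝ) + 1) ≤ 1 / 16000 := by rw [hη1]; linarith
  have hη16 : η ≤ 1 / 16 := by
    have : η * 1 ≤ η * ((Rs:ℝ) + 1) := mul_le_mul_of_nonneg_left (by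
      have : (0:ℝ) ≤ Rs := Nat.cast_nonneg _
      linarith) hη.le
    linarith
  obtain ⟨d, hd, hpar2⟩ := hpar z Rs hz1000 hRs1 η hη hη16
  obtain ⟨C, hC, hQ⟩ := hpa3 (c := c) (z := z) hz1000 hRs1 hκ hκ1 hη (by rw [hη1]; linarith) hη2 hd hA hAm
  obtain ⟨c2, hc2, hDD⟩ := DD_low hα
  obtain ⟨l1, hl1⟩ := lam_ex (s := α ^ 2) (b := 2 / 9) (C := C / c2) (e := e) (by norm_num) he0
  obtain ⟨l2, hl2⟩ := exp_ex (C := 2 * d) hη he0
  set lam : ℝ := max 1 (max l1 (max l2 (x0 / η))) with hlam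
  have hlam1 : 1 ≤ lam := le_max_left _ _
  have hlaml1 : l1 ≤ lam := (le_max_left _ _).trans (le_max_right _ _)
  have hlaml2 : l2 ≤ lam := (le_max_left _ _).trans ((le_max_right _ _).trans (le_max_right _ _))
  have hlamx : x0 / η ≤ lam := (le_max_right _ _).trans ((le_max_right _ _).trans (le_max_right _ _))
  refine ⟨2 * lam, by linarith, ?_⟩
  set LP := l1' (Pz z * A0) with hLP
  set l := l1' A0 with hl
  set K0 : ℝ := 8 * (LP ^ 2 + l ^ 2) + 4 * m * l ^ 2 with hK0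
  set sz : ℝ := (2 ^ (S0 z).card * l) ^ 2 with hsz
  have hsz0 : 0 ≤ sz := sq_nonneg _
  filter_upwards [XT_tendsto.eventually hpar2, hQ, eventually_ge_atTop (10 ^ 10),
    XT_tendsto.eventually (NT_ev (max 1 (max m (sz / (e * (9 / 10)))))),
    XT_tendsto.eventually (rpow_ev (p := 1 / 50) (q := 1 / 9) (by norm_num) m),
    rpow_ev (p := 1 / 3) (q := 1 / 3 + 3 * κ) (by linarith) (K0 / e),
    Real.tendsto_log_atTop.eventually_ge_atTop 2] with T t1 t2 t4 t5 t6 t7 t9 δ hδ1 hδ2 U H hU hUH hH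
  obtain ⟨J, hS, hV, hWd⟩ := t1
  have hT0 : 0 < T := by linarith
  have hT1 : 1 ≤ T := by linarith
  have hLT0 : 0 < Real.log T := by linarith
  have hXl := XT_log hT0
  have hX1 := XT_one hT1
  have hX0 : 0 < XT T := by linarith
  have hTX : T ^ ((1:ℝ) / 3) = XT T ^ ((1:ℝ) / 2) := (XT_half hT0.le).symm
  have hx0 : 2 * lam ≤ δ * Real.log T := by rwa [div_le_iff₀ hLT0] at hδ1
  have hlam0 : 0 < lam := by linarith
  have hδ0 : 0 < δ := by
    by_contra hcon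
    have := mul_nonpos_of_nonpos_of_nonneg (not_lt.mp hcon) hLT0.le
    linarith
  rw [hTX] at t7
  set X := XT T with hXd
  have hL0 : 0 < Real.log X := by rw [hXl]; linarith
  have hx : lam ≤ δ * Real.log X := by
    have : δ * Real.log X = 2 / 3 * (δ * Real.log T) := by rw [hXl]; ring
    linarith
  set y := yT η X with hy
  set N := NT X with hN
  set K := KT X with hK
  have hly : Real.log y = η * Real.log X := Real.log_exp _
  have hE := hET z hzz1 Rs hR1 y J hS.rg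
  have hE0 := ET_nonneg c z y J Rs
  have hcm := hcmp z hzz2 hz1000 y δ hS.zy hδ0 (by
    rw [hly]
    have h1 : x0 ≤ lam * η := by rwa [div_le_iff₀ hη] at hlamx
    calc x0 ≤ lam * η := h1
      _ ≤ (δ * Real.log X) * η := mul_le_mul_of_nonneg_right hx hη.le
      _ = _ := by ring) J hS.J1
  have hNr : (1:ℝ) ≤ N := (le_max_left _ _).trans t5.1
  have hmN : m ≤ N := ((le_max_left _ _).trans (le_max_right _ _)).trans t5.1
  have hszN : sz / (e * (9 / 10)) ≤ N := ((le_max_right _ _).trans (le_max_right _ _)).trans t5.1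
  have hNK : (N:ℝ) < 2 ^ (K + 1) := by
    have : ((N : ℕ) : ℝ) < ((2 ^ (K + 1) : ℕ) : ℝ) := by exact_mod_cast hS.NK
    push_cast at this
    exact this
  have hmK : m < 2 ^ (K + 1) := by linarith
  -- sizes
  set ip0 := ip δ A0 A0 with hip0
  set P0 := ∏ p ∈ S0 z, Ed α δ p with hP0
  obtain ⟨hi1, hi2⟩ := hip δ hδ0.le
  have hP01 : 1 ≤ P0 := by
    have := prod_le_prod (s := S0 z) (f := fun _ => (1:ℝ)) (g := fun p => Ed α δ p) (fun _ _ => zero_le_one)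
      (fun p hp => Ed_ge_one hδ0.le (mem_S0.mp hp).2)
    simpa using this
  have hip9 : 9 / 10 ≤ ip0 := ax9 hε hε1 hP01 hi1
  set EV := Real.exp (α ^ 2 * Vd δ z y J) with hEV
  have hEV0 : 0 < EV := Real.exp_pos _
  have hDD1 : 1 ≤ DD α δ := DD_ge_one hα hδ0
  set D := DD α δ with hD
  have hMup : ip0 * EV ≤ (1 + 2 * ε) * D := by
    calc ip0 * EV ≤ P0 * EV := mul_le_mul_of_nonneg_right hi2 hEV0.le
      _ ≤ Real.exp ε * D := hcm.2
      _ ≤ (1 + 2 * ε) * D := mul_le_mul_of_nonneg_right (exp_le_two hε.le (hε1.trans (by norm_num)))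
          (zero_le_one.trans hDD1)
  have hMlo : (1 - 2 * ε) * D ≤ ip0 * EV := by
    have h1 : (1 - ε) * (Real.exp (-ε) * D) ≤ ip0 * EV := by
      calc (1 - ε) * (Real.exp (-ε) * D) ≤ (1 - ε) * (P0 * EV) := mul_le_mul_of_nonneg_left hcm.1 (by linarith)
        _ = ((1 - ε) * P0) * EV := by ring
        _ ≤ ip0 * EV := mul_le_mul_of_nonneg_right hi1 hEV0.le
    exact (low_two hε.le (hε1.trans (by norm_num)) (zero_le_one.trans hDD1)).trans h1
  -- the tail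
  have hv : 2 * vd δ (Rst N y) ≤ e := by
    have h1 := vd_rst hδ0.le hS.y1 (P := Rst N y) fun p hp => ⟨Rst_prime p hp, (mem_Rst.mp hp).2⟩
    rw [hly] at h1
    have h2 := hl2 (δ * Real.log X) (hlaml2.trans hx)
    have h3 : Real.exp (-(2 * (δ * (η * Real.log X)))) * vd 0 (Rst N y) ≤ Real.exp (-(2 * (δ * (η * Real.log X)))) * d :=
      mul_le_mul_of_nonneg_left hWd (Real.exp_pos _).le
    have e1 : δ * (η * Real.log X) = δ * Real.log X * η := by ring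
    rw [e1] at h1 h3
    linarith
  have hv0 := vd_nonneg δ (Rst N y)
  -- small primes
  have hsm : sz / 2 ^ (K + 1) ≤ e * ip0 := by
    have hN0 : (0:ℝ) < N := lt_of_lt_of_le one_pos hNr
    have h1 : sz / 2 ^ (K + 1) ≤ sz / N := div_le_div_of_nonneg_left hsz0 hN0 hNK.le
    have h2 : sz / N ≤ e * (9 / 10) := by
      rw [div_le_iff₀ hN0]
      rw [div_le_iff₀ (mul_pos he0 (by norm_num))] at hszN
      rwa [mul_comm]
    have h3 : e * (9 / 10) ≤ e * ip0 := mul_le_mul_of_nonneg_left hip9 he0.le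
    exact h1.trans (h2.trans h3)
  obtain ⟨k1, k2, k3, k4⟩ := coef (E := α ^ 2 * Vd δ z y J) he0 he1 ((by norm_num : (0:ℝ) ≤ 9 / 10).trans hip9)
    (div_nonneg hsz0 (pow_nonneg (by norm_num) _)) hsm hE0 hE hv0 hv
  -- the difference
  have hQ1 := t2 J hS hV hWd (hE.trans (by linarith)) (α - 1) (by rw [abs_le]; constructor <;> linarith) δ
    (le_trans (div_le_div_of_nonneg_right (by linarith) hLT0.le) hδ1) hδ2 U H hU hUH hH
  have e0 : 1 + (α - 1) = α := by ring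
  rw [e0] at hQ1
  have hX2 : (0:ℝ) ≤ H := le_trans (by positivity) hH
  set Y := H * D with hYd
  have hY0 : 0 ≤ Y := mul_nonneg hX2 (zero_le_one.trans hDD1)
  have hQ2 : C * (H * Real.log X ^ (α ^ 2)) * (N : ℝ) ^ (-(2 * δ)) ≤ 2 * ε ^ 2 * Y := by
    have h1 : (N:ℝ) ^ (-(2 * δ)) ≤ Real.exp (-(2 / 9) * (δ * Real.log X)) := by
      calc (N:ℝ) ^ (-(2 * δ)) ≤ (X ^ ((1:ℝ) / 9)) ^ (-(2 * δ)) :=
            Real.rpow_le_rpow_of_nonpos (Real.rpow_pos_of_pos hX0 _) t5.2 (by linarith only [hδ0])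
        _ = Real.exp (-(2 / 9) * (δ * Real.log X)) := by
            rw [← Real.rpow_mul hX0.le, Real.rpow_def_of_pos hX0]
            congr 1; ring
    have h2 := hl1 (δ * Real.log X) (hlaml1.trans hx)
    have h3 := hDD δ hδ0 (hδ2.trans (by norm_num))
    rw [← hD] at h3
    have h4 : Real.log X ^ (α ^ 2) = (δ * Real.log X) ^ (α ^ 2) * δ ^ (-(α ^ 2)) := by
      rw [Real.mul_rpow hδ0.le hL0.le, mul_right_comm, ← Real.rpow_add hδ0]
      simp
    have h5 : 0 ≤ (δ * Real.log X) ^ (α ^ 2) := Real.rpow_nonneg (mul_nonneg hδ0.le hL0.le) _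
    have h6 : 0 ≤ δ ^ (-(α ^ 2)) := Real.rpow_nonneg hδ0.le _
    have h7 : 0 ≤ C * (H * Real.log X ^ (α ^ 2)) :=
      mul_nonneg hC.le (mul_nonneg hX2 (Real.rpow_nonneg hL0.le _))
    calc C * (H * Real.log X ^ (α ^ 2)) * (N : ℝ) ^ (-(2 * δ)) ≤
          C * (H * Real.log X ^ (α ^ 2)) * Real.exp (-(2 / 9) * (δ * Real.log X)) :=
          mul_le_mul_of_nonneg_left h1 h7
      _ = H * (C / c2 * ((δ * Real.log X) ^ (α ^ 2) * Real.exp (-(2 / 9) * (δ * Real.log X)))) * (c2 * δ ^ (-(α ^ 2))) := by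
          rw [h4]; field_simp
      _ ≤ H * e * D := by
          refine mul_le_mul (mul_le_mul_of_nonneg_left h2 hX2) h3 (mul_nonneg hc2.le h6) (mul_nonneg hX2 he0.le)
      _ = ε ^ 2 * Y := by rw [hYd, he]; ring
      _ ≤ 2 * ε ^ 2 * Y := by nlinarith [mul_nonneg (sq_nonneg ε) hY0]
  -- errors
  set W := X ^ ((1:ℝ) / 50) with hWdef
  have hW : Real.exp (Real.log y * (180 * ((Rs:ℝ) + 1))) ≤ W := ly_exp hX1 hη2
  have hW0 : 0 < W := Real.rpow_pos_of_pos hX0 _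
  have hK0T : K0 * X ^ ((1:ℝ) / 2) ≤ ε ^ 2 * Y := by
    have h1 : K0 * X ^ ((1:ℝ) / 2) ≤ e * H := by
      have h2 := mul_le_mul_of_nonneg_left (t7.trans hH) he0.le
      calc K0 * X ^ ((1:ℝ) / 2) = e * (K0 / e * X ^ ((1:ℝ) / 2)) := by field_simp
        _ ≤ e * H := h2
    have h3 : e * H ≤ e * H * D := le_mul_of_one_le_right (mul_nonneg he0.le hX2) hDD1
    calc K0 * X ^ ((1:ℝ) / 2) ≤ e * H * D := h1.trans h3
      _ = ε ^ 2 * Y := by rw [hYd, he]; ring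
  obtain ⟨f1, f2, f4, f5⟩ := errs (LP := LP) (l := l) hX1 hm0 hK0T
  have hMX : H * (ip0 * EV) ≤ (1 + 2 * ε) * Y := by
    calc _ ≤ H * ((1 + 2 * ε) * D) := mul_le_mul_of_nonneg_left hMup hX2
      _ = _ := by rw [hYd]; ring
  have hMX' : (1 - 2 * ε) * Y ≤ H * (ip0 * EV) := by
    calc (1 - 2 * ε) * Y = H * ((1 - 2 * ε) * D) := by rw [hYd]; ring
      _ ≤ _ := mul_le_mul_of_nonneg_left hMlo hX2
  have hI0 : 0 ≤ ∫ t in U..(U + H), zn (1 / 2 + δ) t ^ (2 * α) :=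
    intervalIntegral.integral_nonneg (by linarith) fun t _ => Real.rpow_nonneg (zn_nonneg _ _) _
  have hre : ∀ t : ℝ, (1:ℝ) / 2 ≤ (1 / 2 + (δ:ℂ) + t * Complex.I).re := fun t => by
    rw [half_re]; linarith only [hδ0]
  constructor
  · have hmW : m * W ≤ N := t6.trans t5.2
    have hw := win_lowS (U := U) (Q := C * (H * Real.log X ^ (α ^ 2)) * (N : ℝ) ^ (-(2 * δ))) (ε := ε) (τ := ε) hS hA hAm hm0 hmK hmW
      hδ0.le hδ2 hα hα2 hε (hε1.trans (by norm_num)) (fun t => by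
        have h1 := (hPA _ (hre t)).1
        by_contra hcon
        have h2 : ‖es (1 / 2 + δ + t * Complex.I) A0‖ = 0 := le_antisymm (not_lt.mp hcon) (norm_nonneg _)
        rw [h2] at h1
        norm_num at h1
        linarith only [h1, hε1]) (fun t => (hPA _ (hre t)).2) (hE.trans (he1.trans (by norm_num))) hX2 hW hQ1
    refine arith_low (X1 := 0) hε hε1 hX2 (mul_nonneg ((by norm_num : (0:ℝ) ≤ 9 / 10).trans hip9) hEV0.le) hY0 hI0 h14 ?_ hE
      k3 k4 hMX hMX' f2 f4 f5 hQ2 (by rw [sub_zero]; exact hw)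
    have := mul_nonneg hε.le hX2
    linarith only [this]
  · intro hα1
    have hw := win_upS (U := U) (Q := C * (H * Real.log X ^ (α ^ 2)) * (N : ℝ) ^ (-(2 * δ))) (ε := ε) (τ := ε) hS hA hAm hm0 hmK
      hδ0.le hδ2 hα hα1 hε (fun t => (hPA _ (hre t)).1) (hε1.trans (by norm_num))
      (h4.trans (hε1.trans (by norm_num))) (hE.trans (he1.trans (by norm_num))) hX2 hW hQ1
    exact arith_up hε hε1 hα.le hα1 hX2 hY0 hI0 h4 k1 k2 hMX f1 f2 hQ2 hw

end Pool.Agent.KS6_54.ML
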