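import Pool.Graph.R_pool_sql_team_seeded_47a924f7.T6.H57.NS.Wz
import Pool.Agent.KS6_54.ML.Hp3

set_option autoImplicit false

/-! The lower bound over a window of length `T ^ (1/3 + 3 κ)` near the line, uniform in small exponents
(adapted from `Pool.Agent.T6.H57.NS.win_zeroS`). -/

namespace Pool.Agent.KS6_54.ML

open Finset Filter MeasureTheory
open Pool.Agent.W184.NZ
open Pool.Agent.W184 (zn zn_nonneg zn_cont zn_le')
open Pool.Agent.Y755
open Pool.Agent.T6.H57.NS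

/-- the lower bound near the line, uniform in small exponents -/
theorem win_zero3 {κ : ℝ} (hκ : 0 < κ) (hκ1 : κ ≤ 1 / 100) {ε : ℝ} (hε : 0 < ε) (hε1 : ε ≤ 1 / 10) :
    ∃ lam α₀ : ℝ, 1 ≤ lam ∧ 0 < α₀ ∧ ∀ᶠ T : ℝ in atTop, ∀ α : ℝ, 0 < α → α ≤ α₀ →
      ∀ U H : ℝ, T / 4 ≤ U → U + H ≤ 4 * T → T ^ (1 / 3 + 3 * κ) ≤ H →
      (1 - 66 * ε) * (H * Real.log T ^ (α ^ 2)) ≤ ∫ t in U..(U + H), zn (1 / 2 + lam / Real.log T) t ^ (2 * α) := by
  set e := ε ^ 2 with he
  have he0 : 0 < e := by positivity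
  have he1 : e ≤ 1 / 100 := by rw [he]; nlinarith
  obtain ⟨c, hc, hpar⟩ := par_ex
  obtain ⟨z1, R1, hET⟩ := ET_small hc he0
  set z : ℕ := max z1 1000 with hz
  have hz1000 : 1000 ≤ z := le_max_right _ _
  have hzz1 : z1 ≤ z := le_max_left _ _
  obtain ⟨Rs, hRok, hR1, h4, h14⟩ := Rs_exists (c := c) hε R1
  have hRs1 : 1 ≤ Rs := hRok.1
  set A0 : P1 := 1 with hA0d
  obtain ⟨m, hm⟩ : ∃ m : ℝ, m = 1 := ⟨1, rfl⟩
  have hA : Bd1 m A0 := by rw [hm]; exact Bd1.one
  have hAm : A0 ∈ SA1 (M1 (S0 z)) := one_mem _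
  have hm0 : 0 ≤ m := by rw [hm]; norm_num
  have hRp : (0:ℝ) < (Rs:ℝ) + 1 := by positivity
  set η : ℝ := κ / 4000 / ((Rs:ℝ) + 1) with hηd
  have hη : 0 < η := by positivity
  have hη1 : η * ((Rs:ℝ) + 1) = κ / 4000 := by rw [hηd]; field_simp
  have hη2 : η * ((Rs:ℝ) + 1) ≤ 1 / 16000 := by rw [hη1]; linarith
  have hη16 : η ≤ 1 / 16 := by
    have : η * 1 ≤ η * ((Rs:ℝ) + 1) := mul_le_mul_of_nonneg_left (by
      have : (0:ℝ) ≤ Rs := Nat.cast_nonneg _
      linarith) hη.le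
    linarith
  obtain ⟨d, hd, hpar2⟩ := hpar z Rs hz1000 hRs1 η hη hη16
  obtain ⟨C, hC, hQ⟩ := hpa3 (c := c) (z := z) hz1000 hRs1 hκ hκ1 hη (by rw [hη1]; linarith) hη2 hd hA hAm
  obtain ⟨l1, hl1⟩ := exp_ex (C := C) (η := 1 / 9) (e := e) (by norm_num) he0
  obtain ⟨l2, hl2⟩ := exp_ex (C := 2 * d) hη he0
  set lam : ℝ := max 1 (max l1 l2) with hlam
  have hlam1 : 1 ≤ lam := le_max_left _ _
  have hlaml1 : l1 ≤ lam := (le_max_left _ _).trans (le_max_right _ _)
  have hlaml2 : l2 ≤ lam := (le_max_right _ _).trans (le_max_right _ _)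
  -- the size of the exponents
  set Pl : ℝ := Real.log (max 1 (l1' (Pz z))) with hPl
  have hPl0 : 0 ≤ Pl := Real.log_nonneg (le_max_left _ _)
  set D : ℝ := d + 3 * c * (lam * η) with hD
  have hD0 : 0 ≤ D := by positivity
  set α₀ : ℝ := min 1 (min (ε / 4 / (Pl + 1)) (ε / (D + 1))) with hα₀
  have hα₀0 : 0 < α₀ := lt_min one_pos (lt_min (by positivity) (by positivity))
  refine ⟨3 / 2 * lam, α₀, by linarith, hα₀0, ?_⟩
  set LP := l1' (Pz z * A0) with hLP
  set l := l1' A0 with hl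
  set K0 : ℝ := 8 * (LP ^ 2 + l ^ 2) + 4 * m * l ^ 2 with hK0
  set sz : ℝ := (2 ^ (S0 z).card * l) ^ 2 with hsz
  have hsz0 : 0 ≤ sz := sq_nonneg _
  filter_upwards [XT_tendsto.eventually hpar2, hQ, eventually_ge_atTop (10 ^ 10),
    XT_tendsto.eventually (NT_ev (max 1 (max m (sz / (e * (9 / 10)))))),
    XT_tendsto.eventually (rpow_ev (p := 1 / 50) (q := 1 / 9) (by norm_num) m),
    rpow_ev (p := 1 / 3) (q := 1 / 3 + 3 * κ) (by linarith) (K0 / (e * (9 / 10))),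
    Real.tendsto_log_atTop.eventually_ge_atTop (24 * lam)] with T t1 t2 t4 t5 t6 t7 t9 α hα hα01 U H hU hUH hH
  have hα1 : α ≤ 1 := hα01.trans (min_le_left _ _)
  have hα2 : α ≤ 2 := by linarith
  obtain ⟨J, hS, hV, hWd⟩ := t1
  have hT0 : 0 < T := by linarith
  have hT1 : 1 ≤ T := by linarith
  have hL24 : 24 ≤ Real.log T := by linarith
  have hLT0 : 0 < Real.log T := by linarith
  have hXl := XT_log hT0
  have hX1 := XT_one hT1
  have hX0 : 0 < XT T := by linarith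
  have hTX : T ^ ((1:ℝ) / 3) = XT T ^ ((1:ℝ) / 2) := (XT_half hT0.le).symm
  rw [hTX] at t7
  set X := XT T with hXd
  have hL16 : 16 ≤ Real.log X := by rw [hXl]; linarith
  have hL0 : 0 < Real.log X := by linarith
  set δ : ℝ := 3 / 2 * lam / Real.log T with hδd
  have hx : δ * Real.log X = lam := by rw [hδd, hXl]; field_simp
  have hδ0 : 0 < δ := by positivity
  have hδ2 : δ ≤ 1 / 16 := by rw [hδd, div_le_iff₀ hLT0]; linarith
  set y := yT η X with hy
  set N := NT X with hN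
  set K := KT X with hK
  have hly : Real.log y = η * Real.log X := Real.log_exp _
  have hE := hET z hzz1 Rs hR1 y J hS.rg
  have hE0 := ET_nonneg c z y J Rs
  have hNr : (1:ℝ) ≤ N := (le_max_left _ _).trans t5.1
  have hmN : m ≤ N := ((le_max_left _ _).trans (le_max_right _ _)).trans t5.1
  have hszN : sz / (e * (9 / 10)) ≤ N := ((le_max_right _ _).trans (le_max_right _ _)).trans t5.1
  have hNK : (N:ℝ) < 2 ^ (K + 1) := by
    have : ((N : ℕ) : ℝ) < ((2 ^ (K + 1) : ℕ) : ℝ) := by exact_mod_cast hS.NK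
    push_cast at this
    exact this
  have hmK : m < 2 ^ (K + 1) := by linarith
  -- sizes
  set ip0 := ip δ A0 A0 with hip0
  have hip1 : ip0 = 1 := ip_one δ
  have hip9 : 9 / 10 ≤ ip0 := by rw [hip1]; norm_num
  set EV := Real.exp (α ^ 2 * Vd δ z y J) with hEV
  have hEV0 : 0 < EV := Real.exp_pos _
  have hEV1 : 1 ≤ EV := Real.one_le_exp (mul_nonneg (sq_nonneg _) (Vd_nonneg _ _ _ _))
  have hαα : α ^ 2 ≤ α := by
    have h9 := mul_le_mul_of_nonneg_left hα1 hα.le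
    rw [sq]
    linarith only [h9]
  have hEVL : (1 - ε) * Real.log X ^ (α ^ 2) ≤ EV := by
    have h1 := Vd_low hδ0.le hS.y1 hS.rg
    have h2 := (abs_le.mp hV).1
    rw [hly] at h1
    have h3 : Real.log (Real.log X) - D ≤ Vd δ z y J := by
      have e1 : δ * (η * Real.log X) = lam * η := by rw [← hx]; ring
      rw [e1] at h1
      rw [hD]; linarith
    have h4 : α ^ 2 * (Real.log (Real.log X) - D) ≤ α ^ 2 * Vd δ z y J := mul_le_mul_of_nonneg_left h3 (sq_nonneg _)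
    have h5 : α ^ 2 * D ≤ ε := by
      have d2 : α ≤ ε / (D + 1) := hα01.trans ((min_le_right _ _).trans (min_le_right _ _))
      rw [le_div_iff₀ (by positivity)] at d2
      have h9 : α ^ 2 * D ≤ α * D := mul_le_mul_of_nonneg_right hαα hD0
      have h10 : α * D ≤ α * (D + 1) := mul_le_mul_of_nonneg_left (by linarith only []) hα.le
      linarith only [h9, h10, d2]
    have h6 : 1 - ε ≤ Real.exp (-ε) := by have := Real.add_one_le_exp (-ε); linarith
    calc (1 - ε) * Real.log X ^ (α ^ 2) ≤ Real.exp (-ε) * Real.log X ^ (α ^ 2) :=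
          mul_le_mul_of_nonneg_right h6 (by positivity)
      _ = Real.exp (Real.log (Real.log X) * α ^ 2 - ε) := by
          rw [Real.rpow_def_of_pos hL0, ← Real.exp_add]; congr 1; ring
      _ ≤ EV := Real.exp_le_exp.mpr (by linarith)
  -- the tail
  have hv : 2 * vd δ (Rst N y) ≤ e := by
    have h1 := vd_rst hδ0.le hS.y1 (P := Rst N y) fun p hp => ⟨Rst_prime p hp, (mem_Rst.mp hp).2⟩
    rw [hly] at h1
    have h2 := hl2 (δ * Real.log X) (hlaml2.trans hx.ge)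
    have h3 : Real.exp (-(2 * (δ * (η * Real.log X)))) * vd 0 (Rst N y) ≤ Real.exp (-(2 * (δ * (η * Real.log X)))) * d :=
      mul_le_mul_of_nonneg_left hWd (Real.exp_pos _).le
    have e1 : δ * (η * Real.log X) = δ * Real.log X * η := by ring
    rw [e1] at h1 h3
    linarith
  have hv0 := vd_nonneg δ (Rst N y)
  -- small primes
  have hsm : sz / 2 ^ (K + 1) ≤ e * ip0 := by
    have hN0 : (0:ℝ) < N := lt_of_lt_of_le one_pos hNr
    have h1 : sz / 2 ^ (K + 1) ≤ sz / N := div_le_div_of_nonneg_left hsz0 hN0 hNK.le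
    have h2 : sz / N ≤ e * (9 / 10) := by
      rw [div_le_iff₀ hN0]
      rw [div_le_iff₀ (mul_pos he0 (by norm_num))] at hszN
      rwa [mul_comm]
    have h3 : e * (9 / 10) ≤ e * ip0 := mul_le_mul_of_nonneg_left hip9 he0.le
    exact h1.trans (h2.trans h3)
  obtain ⟨k1, k2, k3, k4⟩ := coef (E := α ^ 2 * Vd δ z y J) he0 he1 ((by norm_num : (0:ℝ) ≤ 9 / 10).trans hip9)
    (div_nonneg hsz0 (pow_nonneg (by norm_num) _)) hsm hE0 hE hv0 hv
  -- the difference
  have hQ1 := t2 J hS hV hWd (hE.trans (by linarith)) (α - 1) (by rw [abs_le]; constructor <;> linarith) δ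
    (div_le_div_of_nonneg_right (by linarith) hLT0.le) hδ2 U H hU hUH hH
  have e0 : 1 + (α - 1) = α := by ring
  rw [e0] at hQ1
  have hX2 : (0:ℝ) ≤ H := le_trans (by positivity) hH
  set Y := H * EV with hYd
  have hY0 : 0 ≤ Y := mul_nonneg hX2 hEV0.le
  have hQ2 : C * (H * Real.log X ^ (α ^ 2)) * (N : ℝ) ^ (-(2 * δ)) ≤ 2 * ε ^ 2 * Y := by
    have h1 : (N:ℝ) ^ (-(2 * δ)) ≤ Real.exp (-(2 * (lam * (1 / 9)))) := by
      calc (N:ℝ) ^ (-(2 * δ)) ≤ (X ^ ((1:ℝ) / 9)) ^ (-(2 * δ)) :=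
            Real.rpow_le_rpow_of_nonpos (Real.rpow_pos_of_pos hX0 _) t5.2 (by linarith only [hδ0])
        _ = Real.exp (-(2 * (lam * (1 / 9)))) := by
            rw [← Real.rpow_mul hX0.le, Real.rpow_def_of_pos hX0, ← hx]
            congr 1; ring
    have h2 := hl1 lam hlaml1
    have h7 : 0 ≤ H * Real.log X ^ (α ^ 2) := mul_nonneg hX2 (Real.rpow_nonneg hL0.le _)
    have h8 : H * Real.log X ^ (α ^ 2) ≤ 2 * Y := by
      have h9 : 1 / 2 * Real.log X ^ (α ^ 2) ≤ EV := by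
        refine le_trans ?_ hEVL
        exact mul_le_mul_of_nonneg_right (by linarith) (Real.rpow_nonneg hL0.le _)
      calc H * Real.log X ^ (α ^ 2) = 2 * (H * (1 / 2 * Real.log X ^ (α ^ 2))) := by ring
        _ ≤ 2 * (H * EV) := by gcongr
    calc C * (H * Real.log X ^ (α ^ 2)) * (N : ℝ) ^ (-(2 * δ)) ≤
          C * (H * Real.log X ^ (α ^ 2)) * Real.exp (-(2 * (lam * (1 / 9)))) :=
          mul_le_mul_of_nonneg_left h1 (by positivity)
      _ = (C * Real.exp (-(2 * (lam * (1 / 9))))) * (H * Real.log X ^ (α ^ 2)) := by ring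
      _ ≤ e * (2 * Y) := mul_le_mul h2 h8 h7 he0.le
      _ = 2 * ε ^ 2 * Y := by rw [he]; ring
  -- errors
  set W := X ^ ((1:ℝ) / 50) with hWdef
  have hW : Real.exp (Real.log y * (180 * ((Rs:ℝ) + 1))) ≤ W := ly_exp hX1 hη2
  have hW0 : 0 < W := Real.rpow_pos_of_pos hX0 _
  have hK0T : K0 * X ^ ((1:ℝ) / 2) ≤ ε ^ 2 * Y := by
    have h1 : K0 * X ^ ((1:ℝ) / 2) ≤ e * H := by
      have h2 := mul_le_mul_of_nonneg_left (t7.trans hH) (by positivity : 0 ≤ e * (9 / 10))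
      calc K0 * X ^ ((1:ℝ) / 2) = e * (9 / 10) * (K0 / (e * (9 / 10)) * X ^ ((1:ℝ) / 2)) := by field_simp
        _ ≤ e * (9 / 10) * H := h2
        _ ≤ e * H := by
          have h9 := mul_nonneg he0.le hX2
          linarith only [h9]
    have h3 : e * H ≤ e * H * EV := le_mul_of_one_le_right (mul_nonneg he0.le hX2) hEV1
    calc K0 * X ^ ((1:ℝ) / 2) ≤ e * H * EV := h1.trans h3
      _ = ε ^ 2 * Y := by rw [hYd, he]; ring
  obtain ⟨f1, f2, f4, f5⟩ := errs (LP := LP) (l := l) hX1 hm0 hK0T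
  have hεY : 0 ≤ ε * Y := mul_nonneg hε.le hY0
  have hYe : H * (ip0 * EV) = Y := by rw [hip1, one_mul]
  have hMX : H * (ip0 * EV) ≤ (1 + 2 * ε) * Y := by
    rw [hYe]
    linarith only [hεY]
  have hMX' : (1 - 2 * ε) * Y ≤ H * (ip0 * EV) := by
    rw [hYe]
    linarith only [hεY]
  have hI0 : 0 ≤ ∫ t in U..(U + H), zn (1 / 2 + δ) t ^ (2 * α) :=
    intervalIntegral.integral_nonneg (by linarith) fun t _ => Real.rpow_nonneg (zn_nonneg _ _) _
  have hre : ∀ t : ℝ, (1:ℝ) / 2 ≤ (1 / 2 + (δ:ℂ) + t * Complex.I).re := fun t => by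
    rw [half_re]; linarith only [hδ0]
  have hPA : ∀ t : ℝ, ‖es (1 / 2 + δ + t * Complex.I) (Pz z)‖ ^ (2 * α) * ‖es (1 / 2 + δ + t * Complex.I) A0‖ ^ 2 ≤ 1 + ε := by
    intro t
    rw [hA0d, map_one, norm_one, one_pow, mul_one]
    have h1 : ‖es (1 / 2 + δ + t * Complex.I) (Pz z)‖ ≤ max 1 (l1' (Pz z)) :=
      (es_norm_le (by have := hre t; linarith) (Pz_Bd z)).trans (le_max_right _ _)
    have hM1 : (1:ℝ) ≤ max 1 (l1' (Pz z)) := le_max_left _ _
    have d1 : α ≤ ε / 4 / (Pl + 1) := hα01.trans ((min_le_right _ _).trans (min_le_left _ _))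
    rw [le_div_iff₀ (by positivity)] at d1
    calc ‖es (1 / 2 + δ + t * Complex.I) (Pz z)‖ ^ (2 * α) ≤ (max 1 (l1' (Pz z))) ^ (2 * α) :=
          Real.rpow_le_rpow (norm_nonneg _) h1 (by positivity)
      _ = Real.exp (Pl * (2 * α)) := Real.rpow_def_of_pos (by linarith) _
      _ ≤ 1 + ε := by
          have h2 : Pl * (2 * α) ≤ ε / 2 := by
            have h9 : α * Pl ≤ α * (Pl + 1) := mul_le_mul_of_nonneg_left (by linarith only []) hα.le
            linarith only [h9, d1]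
          have h3 : 0 ≤ Pl * (2 * α) := by positivity
          have h5 := Real.exp_bound' (x := Pl * (2 * α)) h3 (by linarith) (n := 1) (by norm_num)
          norm_num at h5
          linarith
  have hmW : m * W ≤ N := t6.trans t5.2
  have hw := win_lowS (U := U) (Q := C * (H * Real.log X ^ (α ^ 2)) * (N : ℝ) ^ (-(2 * δ))) (ε := ε) (τ := ε) hS hA hAm hm0 hmK hmW
      hδ0.le hδ2 hα hα2 hε (hε1.trans (by norm_num)) (fun t => by
        rw [hA0d, map_one, norm_one]; norm_num) hPA (hE.trans (he1.trans (by norm_num))) hX2 hW hQ1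
  have hfin : (1 - 64 * ε) * Y ≤ ∫ t in U..(U + H), zn (1 / 2 + δ) t ^ (2 * α) := by
    refine arith_low (X1 := 0) hε hε1 hX2 (mul_nonneg ((by norm_num : (0:ℝ) ≤ 9 / 10).trans hip9) hEV0.le) hY0 hI0 h14 ?_ hE
      k3 k4 hMX hMX' f2 f4 f5 hQ2 (by rw [sub_zero]; exact hw)
    have := mul_nonneg hε.le hX2
    linarith only [this]
  have hfinX : (1 - 65 * ε) * (H * Real.log X ^ (α ^ 2)) ≤ ∫ t in U..(U + H), zn (1 / 2 + δ) t ^ (2 * α) := by
    rcases le_or_gt (1 - 65 * ε) 0 with h0 | h0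
    · exact (mul_nonpos_of_nonpos_of_nonneg h0 (mul_nonneg hX2 (Real.rpow_nonneg hL0.le _))).trans hI0
    · refine le_trans ?_ hfin
      have h1 : (1 - 65 * ε) * (H * Real.log X ^ (α ^ 2)) ≤ (1 - 64 * ε) * ((1 - ε) * (H * Real.log X ^ (α ^ 2))) := by
        have h2 : 0 ≤ H * Real.log X ^ (α ^ 2) := mul_nonneg hX2 (Real.rpow_nonneg hL0.le _)
        have h3 : (1 - 65 * ε) ≤ (1 - 64 * ε) * (1 - ε) := by
          have h9 : (1 - 64 * ε) * (1 - ε) = (1 - 65 * ε) + 64 * (ε * ε) := by ring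
          have h10 := mul_nonneg hε.le hε.le
          rw [h9]
          linarith only [h10]
        calc _ ≤ ((1 - 64 * ε) * (1 - ε)) * (H * Real.log X ^ (α ^ 2)) := mul_le_mul_of_nonneg_right h3 h2
          _ = _ := by ring
      refine h1.trans (mul_le_mul_of_nonneg_left ?_ (by linarith only [h0, hε]))
      calc (1 - ε) * (H * Real.log X ^ (α ^ 2)) = H * ((1 - ε) * Real.log X ^ (α ^ 2)) := by ring
        _ ≤ Y := mul_le_mul_of_nonneg_left hEVL hX2
  -- back to the logarithm of `T`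
  have hεα : α ^ 2 ≤ ε := by
    have d2 : α ≤ ε / (D + 1) := hα01.trans ((min_le_right _ _).trans (min_le_right _ _))
    have d3 : ε / (D + 1) ≤ ε := div_le_self hε.le (by linarith)
    linarith
  have hLL : (1 - ε) * Real.log T ^ (α ^ 2) ≤ Real.log X ^ (α ^ 2) := by
    rw [hXl, Real.mul_rpow (by norm_num) hLT0.le]
    refine mul_le_mul_of_nonneg_right ?_ (by positivity)
    rw [Real.rpow_def_of_pos (by norm_num)]
    have h1 := Real.add_one_le_exp (Real.log (2 / 3) * α ^ 2)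
    have h2 := Real.one_sub_inv_le_log_of_pos (show (0:ℝ) < 2 / 3 by norm_num)
    norm_num at h2
    have h3 : -(1 / 2) * α ^ 2 ≤ Real.log (2 / 3) * α ^ 2 := mul_le_mul_of_nonneg_right (by linarith) (sq_nonneg _)
    linarith [sq_nonneg α]
  rcases le_or_gt (1 - 66 * ε) 0 with h0 | h0
  · exact (mul_nonpos_of_nonpos_of_nonneg h0 (mul_nonneg hX2 (Real.rpow_nonneg hLT0.le _))).trans hI0
  · refine le_trans ?_ hfinX
    have h1 : (1 - 66 * ε) ≤ (1 - 65 * ε) * (1 - ε) := by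
      have h9 : (1 - 65 * ε) * (1 - ε) = (1 - 66 * ε) + 65 * (ε * ε) := by ring
      have h10 := mul_nonneg hε.le hε.le
      rw [h9]
      linarith only [h10]
    have h2 : 0 ≤ H * Real.log T ^ (α ^ 2) := mul_nonneg hX2 (Real.rpow_nonneg hLT0.le _)
    calc (1 - 66 * ε) * (H * Real.log T ^ (α ^ 2)) ≤ ((1 - 65 * ε) * (1 - ε)) * (H * Real.log T ^ (α ^ 2)) :=
          mul_le_mul_of_nonneg_right h1 h2
      _ = (1 - 65 * ε) * (H * ((1 - ε) * Real.log T ^ (α ^ 2))) := by ring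
      _ ≤ _ := mul_le_mul_of_nonneg_left (mul_le_mul_of_nonneg_left hLL hX2) (by linarith only [h0, hε])

end Pool.Agent.KS6_54.ML
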