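import Pool.Graph.R_pool_sql_team_seeded_47a924f7.T6.H57.NS.LowL
import Pool.Agent.KS6_54.ML.Wm3
import Pool.Agent.KS6_54.ML.Wz3

set_option autoImplicit false

/-! Lower bounds on the line over windows of length `T ^ (1/3 + 3 κ)`
(adapted from `Pool.Agent.T6.H57.NS.line_low` and `line_low0`). -/

namespace Pool.Agent.KS6_54.ML

open Finset Filter MeasureTheory
open Pool.Agent.W184.NZ
open Pool.Agent.W184 (zn zn_nonneg zn_cont zn_le' zn_neg)
open Pool.Agent.Y755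
open Pool.Agent.T6.H57.NS

/-- lower bound of the right order on the line over short windows -/
theorem line_low3 {α : ℝ} (hα : 0 < α) (hα1 : α ≤ 1) {κ : ℝ} (hκ : 0 < κ) (hκ1 : κ ≤ 1 / 100) :
    ∃ c : ℝ, 0 < c ∧ ∀ᶠ T : ℝ in atTop, ∀ U H : ℝ, T / 4 ≤ U → U + H ≤ 4 * T → T ^ (1 / 3 + 3 * κ) ≤ H →
      c * (H * Real.log T ^ (α ^ 2)) ≤ ∫ t in U..(U + H), zn (1 / 2) t ^ (2 * α) := by
  obtain ⟨lam, hl1, hw⟩ := win_main3 hα (by linarith) (κ := κ / 2) (by positivity) (by linarith) (ε := 1 / 128) (by norm_num)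
    (by norm_num)
  obtain ⟨c2, hc2, hDD⟩ := DD_low hα
  set c3 : ℝ := c2 * lam ^ (-(α ^ 2)) with hc3
  have hc30 : 0 < c3 := by positivity
  refine ⟨c3 / 16, by positivity, ?_⟩
  filter_upwards [hw, line_red (ρ := min (1 / 2) (c3 / 32)) (lt_min (by norm_num) (by positivity)) hl1,
    rpow_ev (p := 1 / 3 + 3 * (κ / 2)) (q := 1 / 3 + 3 * κ) (by linarith) 2, rpow_ev (p := 1 / 4) (q := 1 / 3 + 3 * κ) (by linarith) 4,
    Real.tendsto_log_atTop.eventually_ge_atTop (16 * lam), eventually_ge_atTop 1] with T h1 h2 h3 h4 h5 h6 U H hU hUH hH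
  have hT0 : 0 < T := by linarith
  have hL0 : 0 < Real.log T := by linarith
  have hL1 : 1 ≤ Real.log T := by linarith
  set W := T ^ ((1:ℝ) / 4) with hW
  have hW0 : 0 < W := by positivity
  have hWH : 4 * W ≤ H := h4.trans hH
  set Δ := lam / Real.log T with hΔ
  have hΔ0 : 0 < Δ := by positivity
  have hΔ1 : Δ ≤ 1 / 16 := by rw [hΔ, div_le_iff₀ hL0]; linarith
  have g1 := (h1 Δ le_rfl hΔ1 (U + W) (H - 2 * W) (by linarith) (by linarith) (by linarith)).1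
  rw [show U + W + (H - 2 * W) = U + H - W by ring] at g1
  have g2 := h2 (2 * α) (by linarith) (by linarith) U H hU hUH (by linarith)
  have g3 := hDD Δ hΔ0 (by linarith)
  set I := ∫ t in (U + W)..(U + H - W), zn (1 / 2 + Δ) t ^ (2 * α)
  set P := Real.log T ^ (α ^ 2) with hP
  have hP1 : 1 ≤ P := Real.one_le_rpow hL1 (sq_nonneg _)
  have g4 : c3 * P ≤ DD α Δ := by
    refine le_trans (le_of_eq ?_) g3
    rw [hc3, hΔ, Real.div_rpow (by linarith) hL0.le, Real.rpow_neg hL0.le, div_inv_eq_mul, mul_assoc]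
  have hI0 : 0 ≤ I := intervalIntegral.integral_nonneg (by linarith) fun t _ => Real.rpow_nonneg (zn_nonneg _ _) _
  have g5 : 1 / 2 * (H / 2 * (c3 * P)) ≤ I := by
    refine le_trans ?_ g1
    have e1 : (1 - 64 * (1 / 128) : ℝ) = 1 / 2 := by norm_num
    rw [e1]
    refine mul_le_mul_of_nonneg_left ?_ (by norm_num)
    exact mul_le_mul (by linarith) g4 (by positivity) (by linarith)
  have hH0 : 0 < H := by linarith
  set ρ := min (1 / 2) (c3 / 32) with hρ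
  have hρ1 : ρ ≤ 1 / 2 := min_le_left _ _
  have hρ2 : ρ ≤ c3 / 32 := min_le_right _ _
  have g6 : 1 / 2 * I ≤ (1 - ρ) * I := mul_le_mul_of_nonneg_right (by linarith) hI0
  have g7 : ρ * H ≤ c3 / 32 * (H * P) := by
    have a1 : ρ * H ≤ c3 / 32 * H := mul_le_mul_of_nonneg_right hρ2 hH0.le
    have a2 : c3 / 32 * H ≤ c3 / 32 * (H * P) :=
      mul_le_mul_of_nonneg_left (le_mul_of_one_le_right hH0.le hP1) (by positivity)
    linarith
  have g8 : 0 < c3 * (H * P) := by positivity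
  have e2 : 1 / 2 * (H / 2 * (c3 * P)) = 1 / 4 * (c3 * (H * P)) := by ring
  have e3 : c3 / 16 * (H * P) = 1 / 16 * (c3 * (H * P)) := by ring
  have e4 : c3 / 32 * (H * P) = 1 / 32 * (c3 * (H * P)) := by ring
  rw [e2] at g5
  rw [e4] at g7
  rw [e3]
  linarith

/-- sharp lower bound on the line over short windows for small exponents -/
theorem line_low03 {κ : ℝ} (hκ : 0 < κ) (hκ1 : κ ≤ 1 / 100) {ρ : ℝ} (hρ : 0 < ρ) (hρ1 : ρ ≤ 1) :
    ∃ α₀ : ℝ, 0 < α₀ ∧ ∀ᶠ T : ℝ in atTop, ∀ α : ℝ, 0 < α → α ≤ α₀ →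
      ∀ U H : ℝ, T / 4 ≤ U → U + H ≤ 4 * T → T ^ (1 / 3 + 3 * κ) ≤ H →
      (1 - ρ) * (H * Real.log T ^ (α ^ 2)) ≤ ∫ t in U..(U + H), zn (1 / 2) t ^ (2 * α) := by
  obtain ⟨lam, α₁, hl1, hα₁, hw⟩ := win_zero3 (κ := κ / 2) (by positivity) (by linarith) (ε := ρ / 660) (by positivity)
    (by linarith)
  refine ⟨min α₁ 1, lt_min hα₁ one_pos, ?_⟩
  filter_upwards [hw, line_red (ρ := ρ / 10) (by positivity) hl1,
    rpow_ev (p := 1 / 3 + 3 * (κ / 2)) (q := 1 / 3 + 3 * κ) (by linarith) 2,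
    rpow_ev (p := 1 / 4) (q := 1 / 3 + 3 * κ) (by linarith) (20 / ρ),
    Real.tendsto_log_atTop.eventually_ge_atTop 1, eventually_ge_atTop 1] with T h1 h2 h3 h4 h5 h6 α hα hαα U H hU hUH hH
  have hT0 : 0 < T := by linarith
  have hL0 : 0 < Real.log T := by linarith
  set W := T ^ ((1:ℝ) / 4) with hW
  have hW0 : 0 < W := by positivity
  have hWH : 20 / ρ * W ≤ H := h4.trans hH
  have hWH1 : 20 * W ≤ ρ * H := by
    have := mul_le_mul_of_nonneg_left hWH hρ.le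
    have e1 : ρ * (20 / ρ * W) = 20 * W := by field_simp
    linarith
  have hH0 : 0 < H := lt_of_lt_of_le (by positivity) hWH
  have hWH2 : 20 * W ≤ H := by nlinarith
  set Δ := lam / Real.log T with hΔ
  have hΔ0 : 0 < Δ := by positivity
  have g1 := h1 α hα (hαα.trans (min_le_left _ _)) (U + W) (H - 2 * W) (by linarith) (by linarith) (by linarith)
  rw [show U + W + (H - 2 * W) = U + H - W by ring] at g1
  have g2 := h2 (2 * α) (by linarith) (by have := hαα.trans (min_le_right _ _); linarith) U H hU hUH (by linarith)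
  set I := ∫ t in (U + W)..(U + H - W), zn (1 / 2 + Δ) t ^ (2 * α)
  set P := Real.log T ^ (α ^ 2) with hP
  have hP1 : 1 ≤ P := Real.one_le_rpow h5 (sq_nonneg _)
  have g5 : (1 - ρ / 10) * ((1 - ρ / 10) * (H * P)) ≤ I := by
    refine le_trans ?_ g1
    have e1 : (1 - 66 * (ρ / 660) : ℝ) = 1 - ρ / 10 := by ring
    rw [e1]
    refine mul_le_mul_of_nonneg_left ?_ (by linarith)
    rw [← mul_assoc]
    exact mul_le_mul_of_nonneg_right (by linarith) (by linarith)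
  have g6 : (1 - ρ / 10) * ((1 - ρ / 10) * ((1 - ρ / 10) * (H * P))) ≤ (1 - ρ / 10) * I :=
    mul_le_mul_of_nonneg_left g5 (by linarith)
  have hHP : H ≤ H * P := le_mul_of_one_le_right hH0.le hP1
  have g7 : ρ / 10 * H ≤ ρ / 10 * (H * P) := mul_le_mul_of_nonneg_left hHP (by positivity)
  have g8 : (1 - ρ) * (H * P) + ρ / 10 * (H * P) ≤ (1 - ρ / 10) * ((1 - ρ / 10) * ((1 - ρ / 10) * (H * P))) := by
    have e1 : (1 - ρ / 10) * ((1 - ρ / 10) * ((1 - ρ / 10) * (H * P))) - ((1 - ρ) * (H * P) + ρ / 10 * (H * P)) =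
      (6 / 10 * ρ + 3 / 100 * ρ ^ 2 - ρ ^ 3 / 1000) * (H * P) := by ring
    have e2 : 0 ≤ 6 / 10 * ρ + 3 / 100 * ρ ^ 2 - ρ ^ 3 / 1000 := by nlinarith [sq_nonneg ρ, mul_pos hρ hρ]
    have e3 : 0 ≤ H * P := by positivity
    have := mul_nonneg e2 e3
    linarith
  linarith

end Pool.Agent.KS6_54.ML
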