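import Pool.Agent.KS6_54.ML.SPb
import Pool.Graph.R_pool_sql_team_seeded_47a924f7.T6.H57.SM.SFB

set_option autoImplicit false

/-!
# The mean square of a product over a short interval, with the terms off the diagonal
-/

namespace Pool.Agent.KS6_54.ML

open Finset MeasureTheory Complex
open Pool.Agent.T6.H57.SM (gw gw_pos gw_cont gauss_int gauss_aux cv cv_eval chi_l2 et eh eh_apply half_ne)

/-- the Gaussian integral -/
lemma gauss_exact {H : ℝ} (hH : 0 < H) (U l : ℝ) :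
    ∫ t : ℝ, ((gw U H t : ℝ) : ℂ) * cexp (I * l * t) = ((H * Real.sqrt Real.pi : ℝ) : ℂ) * Kx U H l := by
  have h0 : ∀ x : ℝ, ((gw U H (H * x + U) : ℝ) : ℂ) * cexp (I * l * ((H * x + U : ℝ) : ℂ)) =
      cexp (I * l * U) * (cexp (I * (l * H : ℝ) * x) * cexp (-(1:ℂ) * x ^ 2)) := fun x =>
    (gauss_aux H l U x).resolve_right hH.ne'
  have h1 := Measure.integral_comp_mul_left (fun t : ℝ => ((gw U H (t + U) : ℝ) : ℂ) * cexp (I * l * ((t + U : ℝ) : ℂ))) H
  rw [integral_add_right_eq_self (fun t : ℝ => ((gw U H t : ℝ) : ℂ) * cexp (I * l * (t : ℂ))) U] at h1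
  have h2 : ∫ t : ℝ, ((gw U H t : ℝ) : ℂ) * cexp (I * l * t) = H * ∫ x : ℝ,
      ((gw U H (H * x + U) : ℝ) : ℂ) * cexp (I * l * ((H * x + U : ℝ) : ℂ)) := by
    rw [h1, abs_of_pos (inv_pos.mpr hH), Complex.real_smul]
    push_cast
    have : (H:ℂ) ≠ 0 := by exact_mod_cast hH.ne'
    field_simp
  rw [h2]
  simp_rw [h0]
  rw [integral_const_mul, fourierIntegral_gaussian (by simp)]
  have e3 : ((Real.pi : ℂ) / 1) ^ (1 / 2 : ℂ) = ((Real.sqrt Real.pi : ℝ) : ℂ) := by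
    rw [div_one, Real.sqrt_eq_rpow, Complex.ofReal_cpow Real.pi_pos.le]
    push_cast
    rfl
  rw [e3]
  unfold Kx
  have e4 : cexp (-((l * H : ℝ) : ℂ) ^ 2 / (4 * 1)) = ((Real.exp (-(l * H) ^ 2 / 4) : ℝ) : ℂ) := by
    rw [Complex.ofReal_exp]
    congr 1
    push_cast
    ring
  have e5 : cexp (I * l * U) = cexp (((U * l : ℝ) : ℂ) * I) := by
    congr 1
    push_cast
    ring
  rw [e4, e5]
  push_cast
  ring

/-- the expansion -/
lemma expand {H : ℝ} (hH : 0 < H) (U : ℝ) (M : ℕ) (c : ℕ → ℂ) :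
    Integrable (fun t : ℝ => gw U H t * ‖∑ n ∈ Icc 1 M, c n * cexp (-(I * Real.log n * t))‖ ^ 2) ∧
    ((∫ t : ℝ, gw U H t * ‖∑ n ∈ Icc 1 M, c n * cexp (-(I * Real.log n * t))‖ ^ 2 : ℝ) : ℂ) =
      ((H * Real.sqrt Real.pi : ℝ) : ℂ) * ∑ m ∈ Icc 1 M, ∑ n ∈ Icc 1 M, c m * (starRingEnd ℂ) (c n) *
        Kx U H (Real.log n - Real.log m) := by
  set F : ℝ → ℂ := fun t => ∑ n ∈ Icc 1 M, c n * cexp (-(I * Real.log n * t)) with hF
  have hG := fun l => (gauss_int hH U l).1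
  have e1 : ∀ t : ℝ, ((gw U H t * ‖F t‖ ^ 2 : ℝ) : ℂ) = ∑ m ∈ Icc 1 M, ∑ n ∈ Icc 1 M, (c m * (starRingEnd ℂ) (c n)) *
      (((gw U H t : ℝ) : ℂ) * cexp (I * ((Real.log n - Real.log m : ℝ) : ℂ) * t)) := by
    intro t
    rw [Complex.ofReal_mul, Complex.ofReal_pow, ← Complex.mul_conj', hF]
    simp only
    rw [map_sum, sum_mul_sum, mul_sum]
    refine sum_congr rfl fun m _ => ?_
    rw [mul_sum]
    refine sum_congr rfl fun n _ => ?_
    rw [map_mul, ← Complex.exp_conj]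
    have e2 : (starRingEnd ℂ) (-(I * (Real.log n : ℂ) * (t:ℂ))) = I * Real.log n * t := by
      rw [map_neg, map_mul, map_mul, Complex.conj_I, Complex.conj_ofReal, Complex.conj_ofReal]; ring
    rw [e2]
    have e3 : cexp (I * ((Real.log n - Real.log m : ℝ) : ℂ) * t) = cexp (-(I * Real.log m * t)) * cexp (I * Real.log n * t) := by
      rw [← Complex.exp_add]; congr 1; push_cast; ring
    rw [e3]; ring
  have hint : Integrable (fun t : ℝ => ((gw U H t * ‖F t‖ ^ 2 : ℝ) : ℂ)) := by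
    simp_rw [e1]
    exact integrable_finsetSum _ fun m _ => integrable_finsetSum _ fun n _ => (hG _).const_mul _
  constructor
  · have := hint.re
    refine this.congr (Filter.Eventually.of_forall fun t => ?_)
    simp only [RCLike.re_eq_complex_re, Complex.ofReal_re]
    rfl
  · change ((∫ t : ℝ, gw U H t * ‖F t‖ ^ 2 : ℝ) : ℂ) = _
    rw [← integral_complex_ofReal]
    simp_rw [e1]
    rw [integral_finsetSum _ fun m _ => integrable_finsetSum _ fun n _ => (hG _).const_mul _, mul_sum]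
    refine sum_congr rfl fun m _ => ?_
    rw [integral_finsetSum _ fun n _ => (hG _).const_mul _, mul_sum]
    refine sum_congr rfl fun n _ => ?_
    rw [integral_const_mul, gauss_exact hH]
    ring

lemma Kx_zero (U H : ℝ) : Kx U H 0 = 1 := by
  unfold Kx
  simp

/-- the terms off the diagonal -/
noncomputable def Off (U H : ℝ) (M : ℕ) (c : ℕ → ℂ) : ℂ :=
  ∑ m ∈ Icc 1 M, ∑ n ∈ Icc 1 M, c m * (starRingEnd ℂ) (c n) *
    (if m = n then 0 else Kx U H (Real.log n - Real.log m))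

/-- the mean value -/
lemma mv0 {H : ℝ} (hH : 0 < H) (U : ℝ) (M : ℕ) (c : ℕ → ℂ) :
    ∫ t in U..(U + H), ‖∑ n ∈ Icc 1 M, c n * cexp (-(I * Real.log n * t))‖ ^ 2 ≤
      6 * H * (∑ n ∈ Icc 1 M, ‖c n‖ ^ 2 + ‖Off U H M c‖) := by
  obtain ⟨hintR, hex⟩ := expand hH U M c
  set F : ℝ → ℂ := fun t => ∑ n ∈ Icc 1 M, c n * cexp (-(I * Real.log n * t)) with hF
  have hFc : Continuous F := by
    rw [hF]
    refine continuous_finsetSum _ fun n _ => ?_
    fun_prop
  have h10 : ∫ t in U..(U + H), ‖F t‖ ^ 2 ≤ 3 * ∫ t : ℝ, gw U H t * ‖F t‖ ^ 2 := by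
    rw [intervalIntegral.integral_of_le (by linarith), ← integral_const_mul]
    calc ∫ t in Set.Ioc U (U + H), ‖F t‖ ^ 2 ≤ ∫ t in Set.Ioc U (U + H), 3 * (gw U H t * ‖F t‖ ^ 2) := by
          refine setIntegral_mono_on ?_ ((hintR.const_mul 3).integrableOn) measurableSet_Ioc fun t ht => ?_
          · exact ((hFc.norm.pow 2).integrableOn_Icc (a := U) (b := U + H)).mono_set Set.Ioc_subset_Icc_self
          · have h11 : 1 / 3 ≤ gw U H t := by
              unfold gw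
              have h12 : ((t - U) / H) ^ 2 ≤ 1 := by
                have h13 : 0 ≤ (t - U) / H := div_nonneg (by linarith [ht.1]) hH.le
                have h14 : (t - U) / H ≤ 1 := by rw [div_le_one hH]; linarith [ht.2]
                nlinarith
              have h15 : Real.exp (-1) ≤ Real.exp (-((t - U) / H) ^ 2) := Real.exp_le_exp.mpr (by linarith)
              have h16 := Real.exp_neg_one_gt_d9
              linarith
            have h17 : 0 ≤ ‖F t‖ ^ 2 := sq_nonneg _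
            nlinarith
      _ ≤ ∫ t : ℝ, 3 * (gw U H t * ‖F t‖ ^ 2) := by
          refine setIntegral_le_integral (hintR.const_mul 3) (Filter.Eventually.of_forall fun t => ?_)
          have := gw_pos U H t
          simp only [Pi.zero_apply]
          positivity
  have h4 : ∫ t : ℝ, gw U H t * ‖F t‖ ^ 2 ≤ ‖((∫ t : ℝ, gw U H t * ‖F t‖ ^ 2 : ℝ) : ℂ)‖ := by
    rw [Complex.norm_real]; exact le_abs_self _
  have h5 : ‖((∫ t : ℝ, gw U H t * ‖F t‖ ^ 2 : ℝ) : ℂ)‖ ≤ 2 * H * (∑ n ∈ Icc 1 M, ‖c n‖ ^ 2 + ‖Off U H M c‖) := by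
    rw [hex, norm_mul, Complex.norm_real, Real.norm_of_nonneg (by positivity)]
    have hpi : Real.sqrt Real.pi ≤ 2 := by
      rw [Real.sqrt_le_left (by norm_num)]
      have := Real.pi_lt_four
      linarith
    have e : ∑ m ∈ Icc 1 M, ∑ n ∈ Icc 1 M, c m * (starRingEnd ℂ) (c n) * Kx U H (Real.log n - Real.log m) =
        ((∑ n ∈ Icc 1 M, ‖c n‖ ^ 2 : ℝ) : ℂ) + Off U H M c := by
      unfold Off
      push_cast
      rw [← sum_add_distrib]
      refine sum_congr rfl fun m hm => ?_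
      have e1 : ((‖c m‖ : ℂ)) ^ 2 = ∑ n ∈ Icc 1 M, (if m = n then c m * (starRingEnd ℂ) (c n) else 0) := by
        rw [sum_ite_eq, if_pos hm, Complex.mul_conj']
      rw [e1, ← sum_add_distrib]
      refine sum_congr rfl fun n _ => ?_
      split_ifs with h
      · rw [h, sub_self, Kx_zero]; ring
      · ring
    rw [e]
    have h6 : ‖((∑ n ∈ Icc 1 M, ‖c n‖ ^ 2 : ℝ) : ℂ) + Off U H M c‖ ≤ ∑ n ∈ Icc 1 M, ‖c n‖ ^ 2 + ‖Off U H M c‖ := by
      refine (norm_add_le _ _).trans (add_le_add ?_ le_rfl)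
      rw [Complex.norm_real, Real.norm_of_nonneg (sum_nonneg fun _ _ => sq_nonneg _)]
    calc H * Real.sqrt Real.pi * ‖((∑ n ∈ Icc 1 M, ‖c n‖ ^ 2 : ℝ) : ℂ) + Off U H M c‖ ≤
          H * 2 * (∑ n ∈ Icc 1 M, ‖c n‖ ^ 2 + ‖Off U H M c‖) := by gcongr
      _ = _ := by ring
  calc _ ≤ 3 * ∫ t : ℝ, gw U H t * ‖F t‖ ^ 2 := h10
    _ ≤ 3 * (2 * H * (∑ n ∈ Icc 1 M, ‖c n‖ ^ 2 + ‖Off U H M c‖)) := by linarith [h4.trans h5]
    _ = _ := by ring

end Pool.Agent.KS6_54.ML
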