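import Pool.Agent.KS6_54.ML.Trans

set_option autoImplicit false

/-!
# From sharply cut Dirichlet polynomials to integrals of smooth ones, II
-/

open Finset MeasureTheory

namespace Pool.Agent.KS6_54.ML

open Pool.Agent.W200.MR (pw)
open Pool.Agent.TH445.MQ (pw_norm pw_add)

/-- `∫ (1 + |v|)^{-p}` -/
noncomputable def cI (p : ℝ) : ℝ := ∫ v : ℝ, (1 + |v|) ^ (-p)

lemma cI_nonneg (p : ℝ) : 0 ≤ cI p := integral_nonneg fun v => by positivity

theorem pointwise (η ε₁ : ℝ) (hη : 0 < η) (hη1 : η ≤ 1) (hε : 0 < ε₁) (N X : ℕ) (hN : 1 ≤ N)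
    (hX : (N : ℝ) ^ (1 + 3 * ε₁) ≤ X) (a g : ℕ → ℂ) (ha0 : a 0 = 0)
    (ha : Summable fun n => ‖a n‖) (t : ℝ) :
    ‖∑ n ∈ Icc N (2 * N), a n * g n * pw t n‖ ≤
      vr N g * (72 * (N : ℝ) ^ η) * (∫ v in (-((X : ℝ) / 2))..((X : ℝ) / 2),
        (1 + |v|) ^ (-(1 + η)) * ‖DS a (t + v)‖) +
      vr N g * (∑' n, ‖a n‖) * ((72 * (N : ℝ) ^ η * cI (1 + η) + 3) *
        Real.exp (-((N : ℝ) ^ (2 * ε₁) / 576))) := by
  have hN0 : (0 : ℝ) < N := by exact_mod_cast hN
  have hN1 : (1 : ℝ) ≤ N := by exact_mod_cast hN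
  have hNe : 0 < (N : ℝ) ^ ε₁ := by positivity
  have hX0 : (0 : ℝ) < X := lt_of_lt_of_le (by positivity) hX
  set A1 := ∑' n, ‖a n‖ with hA1
  have hA0 : 0 ≤ A1 := tsum_nonneg fun n => norm_nonneg _
  set U : ℝ := X / (N : ℝ) ^ ε₁ with hU
  have hU0 : 0 < U := by positivity
  set ER := Real.exp (-((N : ℝ) ^ (2 * ε₁) / 576)) with hER
  obtain ⟨K, hKc, hKb, hKe⟩ := kernel η hη hη1 N hN g U hU0
  have hvr := vr_nonneg N g
  have hpi := pint (p := 1 + η) (by linarith)
  set φ : ℝ → ℝ := fun v => (1 + |v|) ^ (-(1 + η)) with hφ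
  have hφ0 : ∀ v, 0 ≤ φ v := fun v => by rw [hφ]; positivity
  have hKb2 : ∀ v, ‖K v‖ ≤ vr N g * (72 * (N : ℝ) ^ η) * (φ v * ga U v) := by
    intro v
    refine (hKb v).trans (le_of_eq ?_)
    rw [hφ]; ring
  have hKi : Integrable K := by
    refine (hpi.const_mul (vr N g * (72 * (N : ℝ) ^ η))).mono' hKc.aestronglyMeasurable ?_
    refine Filter.Eventually.of_forall fun v => (hKb2 v).trans ?_
    apply mul_le_mul_of_nonneg_left _ (by positivity)
    exact mul_le_of_le_one_right (hφ0 v) (ga_le U v)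
  -- the size of the errors
  have hb1 : Real.exp (-(U ^ 2 / (576 * (N : ℝ) ^ 2))) ≤ ER := by
    rw [hER]
    apply Real.exp_le_exp.2
    have h1 : (N : ℝ) ^ (2 * ε₁) ≤ U / N := by
      rw [hU, div_div, le_div_iff₀ (by positivity)]
      calc (N : ℝ) ^ (2 * ε₁) * ((N : ℝ) ^ ε₁ * N) = (N : ℝ) ^ (1 + 3 * ε₁) := by
            nth_rewrite 3 [← Real.rpow_one (N : ℝ)]
            rw [← Real.rpow_add hN0, ← Real.rpow_add hN0]
            congr 1
            ring
        _ ≤ X := hX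
    have h2 : 1 ≤ (N : ℝ) ^ (2 * ε₁) := Real.one_le_rpow hN1 (by positivity)
    have h3 : U ^ 2 / (576 * (N : ℝ) ^ 2) = (U / N) ^ 2 / 576 := by
      field_simp
    rw [h3]
    have h4 : (N : ℝ) ^ (2 * ε₁) ≤ (U / N) ^ 2 := by nlinarith
    linarith
  have hb2 : ∀ v : ℝ, (X : ℝ) / 2 ≤ |v| → ga U v ≤ ER := by
    intro v hv
    rw [hER]
    unfold ga
    apply Real.exp_le_exp.2
    have h1 : ((X : ℝ) / 2) ^ 2 ≤ v ^ 2 := by
      rw [← sq_abs v]
      exact pow_le_pow_left₀ (by positivity) hv 2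
    have h2 : ((X : ℝ) / 2) ^ 2 / (2 * U ^ 2) ≤ v ^ 2 / (2 * U ^ 2) :=
      div_le_div_of_nonneg_right h1 (by positivity)
    have h3 : ((X : ℝ) / 2) ^ 2 / (2 * U ^ 2) = (N : ℝ) ^ (2 * ε₁) / 8 := by
      have h4 : (N : ℝ) ^ (2 * ε₁) = ((N : ℝ) ^ ε₁) ^ 2 := by
        rw [← Real.rpow_natCast, ← Real.rpow_mul hN0.le]
        congr 1
        push_cast
        ring
      rw [h4, hU]
      field_simp
      norm_num
    rw [h3] at h2
    have h5 : 0 < (N : ℝ) ^ (2 * ε₁) := by positivity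
    linarith
  -- the representation
  set err : ℕ → ℂ := fun n => (∫ v, K v * pw v n) - (if n ∈ Icc N (2 * N) then g n else 0) with herr
  have hrep : ∑ n ∈ Icc N (2 * N), a n * g n * pw t n =
      (∫ v, K v * DS a (t + v)) - ∑' n, a n * pw t n * err n := by
    have hI : ∀ n : ℕ, Integrable fun v => (a n * pw t n) * (K v * pw v n) := by
      intro n
      apply Integrable.const_mul
      refine hKi.mono ?_ ?_
      · apply Continuous.aestronglyMeasurable
        have := pw_cont n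
        fun_prop
      · refine Filter.Eventually.of_forall fun v => ?_
        rw [norm_mul, pw_norm, mul_one]
    have hS : Summable fun n : ℕ => ∫ v, ‖(a n * pw t n) * (K v * pw v n)‖ := by
      have e1 : ∀ n : ℕ, ∫ v, ‖(a n * pw t n) * (K v * pw v n)‖ = ‖a n‖ * ∫ v, ‖K v‖ := by
        intro n
        rw [← integral_const_mul]
        congr 1
        funext v
        rw [norm_mul, norm_mul, norm_mul, pw_norm, pw_norm, mul_one, mul_one]
      simp_rw [e1]
      exact ha.mul_right _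
    have h1 := hasSum_integral_of_summable_integral_norm hI hS
    have e2 : ∀ v, ∑' n, (a n * pw t n) * (K v * pw v n) = K v * DS a (t + v) := by
      intro v
      unfold DS
      rw [← tsum_mul_left]
      apply tsum_congr
      intro n
      rw [pw_add]
      ring
    simp_rw [e2] at h1
    have e3 : ∀ n : ℕ, ∫ v, (a n * pw t n) * (K v * pw v n) = a n * pw t n * err n +
        (if n ∈ Icc N (2 * N) then a n * g n * pw t n else 0) := by
      intro n
      rw [integral_const_mul, herr]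
      simp only
      split_ifs <;> ring
    simp_rw [e3] at h1
    have h2 : HasSum (fun n : ℕ => if n ∈ Icc N (2 * N) then a n * g n * pw t n else 0)
        (∑ n ∈ Icc N (2 * N), a n * g n * pw t n) := by
      have h3 : HasSum (fun n : ℕ => if n ∈ Icc N (2 * N) then a n * g n * pw t n else 0)
          (∑ n ∈ Icc N (2 * N), (if n ∈ Icc N (2 * N) then a n * g n * pw t n else 0)) :=
        hasSum_sum_of_ne_finset_zero (fun n hn => if_neg hn)
      have h4 : ∑ n ∈ Icc N (2 * N), (if n ∈ Icc N (2 * N) then a n * g n * pw t n else 0) =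
          ∑ n ∈ Icc N (2 * N), a n * g n * pw t n :=
        sum_congr rfl fun n hn => by rw [if_pos hn]
      rw [h4] at h3
      exact h3
    have h3 := h1.sub h2
    have h4 : ∑' n, a n * pw t n * err n =
        (∫ v, K v * DS a (t + v)) - ∑ n ∈ Icc N (2 * N), a n * g n * pw t n := by
      rw [← h3.tsum_eq]
      apply tsum_congr
      intro n
      ring
    rw [h4]
    ring
  have herrb : ∀ n, ‖a n * pw t n * err n‖ ≤ ‖a n‖ * (vr N g * (3 * ER)) := by
    intro n
    rcases Nat.eq_zero_or_pos n with h | h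
    · subst h
      rw [ha0]; simp
    · rw [norm_mul, norm_mul, pw_norm, mul_one]
      apply mul_le_mul_of_nonneg_left _ (norm_nonneg _)
      refine (hKe n h).trans ?_
      apply mul_le_mul_of_nonneg_left _ hvr
      apply mul_le_mul_of_nonneg_left hb1 (by norm_num)
  have hE : ‖∑' n, a n * pw t n * err n‖ ≤ A1 * (vr N g * (3 * ER)) := by
    have h1 : Summable fun n => ‖a n‖ * (vr N g * (3 * ER)) := ha.mul_right _
    refine (tsum_of_norm_bounded h1.hasSum herrb).trans (le_of_eq ?_)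
    rw [tsum_mul_right]
  have hDc : Continuous fun v => ‖DS a (t + v)‖ := by
    have := DS_cont ha
    fun_prop
  have hφc : Continuous φ := by
    rw [hφ]
    apply Continuous.rpow_const (by fun_prop)
    intro v; left; positivity
  have hM : ‖∫ v, K v * DS a (t + v)‖ ≤ vr N g * (72 * (N : ℝ) ^ η) *
      (∫ v in (-((X : ℝ) / 2))..((X : ℝ) / 2), φ v * ‖DS a (t + v)‖) +
      vr N g * A1 * (72 * (N : ℝ) ^ η * cI (1 + η)) * ER := by
    refine (norm_integral_le_integral_norm _).trans ?_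
    set S := Set.Ioc (-((X : ℝ) / 2)) ((X : ℝ) / 2) with hS
    have hb : ∀ v, ‖K v * DS a (t + v)‖ ≤ vr N g * (72 * (N : ℝ) ^ η) *
        (S.indicator (fun v => φ v * ‖DS a (t + v)‖) v) +
        vr N g * A1 * (72 * (N : ℝ) ^ η) * ER * φ v := by
      intro v
      rw [norm_mul]
      have hd0 : 0 ≤ ‖DS a (t + v)‖ := norm_nonneg _
      have hd := DS_bd ha (t + v)
      by_cases h : v ∈ S
      · rw [Set.indicator_of_mem h]
        have h1 : ‖K v‖ * ‖DS a (t + v)‖ ≤ vr N g * (72 * (N : ℝ) ^ η) *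
            (φ v * ‖DS a (t + v)‖) := by
          calc ‖K v‖ * ‖DS a (t + v)‖ ≤ (vr N g * (72 * (N : ℝ) ^ η) * (φ v * ga U v)) *
                ‖DS a (t + v)‖ := mul_le_mul_of_nonneg_right (hKb2 v) hd0
            _ ≤ (vr N g * (72 * (N : ℝ) ^ η) * (φ v * 1)) * ‖DS a (t + v)‖ := by
                have := hφ0 v
                have := ga_le U v
                gcongr
            _ = _ := by ring
        have h2 : 0 ≤ vr N g * A1 * (72 * (N : ℝ) ^ η) * ER * φ v := by
          have := hφ0 v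
          positivity
        linarith
      · rw [Set.indicator_of_notMem h, mul_zero, zero_add]
        have h1 : (X : ℝ) / 2 ≤ |v| := by
          rw [hS, Set.mem_Ioc, not_and_or, not_lt, not_le] at h
          rcases h with h | h
          · rw [le_abs]; right; linarith
          · rw [le_abs]; left; exact h.le
        calc ‖K v‖ * ‖DS a (t + v)‖ ≤ (vr N g * (72 * (N : ℝ) ^ η) * (φ v * ga U v)) * A1 :=
              mul_le_mul (hKb2 v) hd hd0 (by
                have := hφ0 v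
                have := (ga_pos U v).le
                positivity)
          _ ≤ (vr N g * (72 * (N : ℝ) ^ η) * (φ v * ER)) * A1 := by
                have := hφ0 v
                have := hb2 v h1
                gcongr
          _ = _ := by ring
    have hi1 : Integrable (S.indicator (fun v => φ v * ‖DS a (t + v)‖)) := by
      rw [integrable_indicator_iff measurableSet_Ioc]
      apply Continuous.integrableOn_Ioc
      exact hφc.mul hDc
    have hi2 : Integrable fun v => vr N g * (72 * (N : ℝ) ^ η) *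
        (S.indicator (fun v => φ v * ‖DS a (t + v)‖) v) +
        vr N g * A1 * (72 * (N : ℝ) ^ η) * ER * φ v :=
      (hi1.const_mul _).add (hpi.const_mul _)
    refine (integral_mono_of_nonneg (Filter.Eventually.of_forall fun v => norm_nonneg _) hi2
      (Filter.Eventually.of_forall hb)).trans (le_of_eq ?_)
    rw [integral_add (hi1.const_mul _) (hpi.const_mul _), integral_const_mul, integral_const_mul,
      integral_indicator measurableSet_Ioc, intervalIntegral.integral_of_le (by linarith)]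
    have : ∫ v, φ v = cI (1 + η) := rfl
    rw [this]
    ring
  rw [hrep]
  calc ‖(∫ v, K v * DS a (t + v)) - ∑' n, a n * pw t n * err n‖
      ≤ ‖∫ v, K v * DS a (t + v)‖ + ‖∑' n, a n * pw t n * err n‖ := norm_sub_le _ _
    _ ≤ (vr N g * (72 * (N : ℝ) ^ η) *
      (∫ v in (-((X : ℝ) / 2))..((X : ℝ) / 2), φ v * ‖DS a (t + v)‖) +
      vr N g * A1 * (72 * (N : ℝ) ^ η * cI (1 + η)) * ER) + A1 * (vr N g * (3 * ER)) :=
        add_le_add hM hE
    _ = _ := by rw [hφ]; ring

/-- **The transfer of moments.** -/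
theorem transfer (η ε₁ q : ℝ) (hη : 0 < η) (hη1 : η ≤ 1) (hε : 0 < ε₁) (hq : 1 ≤ q) :
    ∃ C : ℝ, 1 ≤ C ∧ ∀ N X : ℕ, 1 ≤ N → (N : ℝ) ^ (1 + 3 * ε₁) ≤ X → ∀ a g : ℕ → ℂ, a 0 = 0 →
      Summable (fun n => ‖a n‖) → ∑ t ∈ Icc X (2 * X),
        ‖∑ n ∈ Icc N (2 * N), a n * g n * pw (t : ℝ) n‖ ^ q ≤
        C * (N : ℝ) ^ (q * η) * (vr N g) ^ q * ((∫ τ in ((X : ℝ) / 2)..(5 * (X : ℝ) / 2),
          ‖DS a τ‖ ^ q) + X * ((∑' n, ‖a n‖) * Real.exp (-((N : ℝ) ^ (2 * ε₁) / 576))) ^ q) := by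
  set c0 := cI (1 + η) with hc0
  have hc0n : 0 ≤ c0 := cI_nonneg _
  have hp2 : 1 < 1 + η := by linarith
  set C1 : ℝ := 2 ^ q * ((144 : ℝ) ^ q * (2 ^ q * (c0 ^ (q - 1) * (2 ^ (1 + η) * c0)))) with hC1
  set C2 : ℝ := 2 * (2 ^ q * (72 * c0 + 3) ^ q) with hC2
  have hC1n : 0 ≤ C1 := by positivity
  have hC2n : 0 ≤ C2 := by positivity
  refine ⟨C1 + C2 + 1, by linarith, ?_⟩
  intro N X hN hX a g ha0 ha
  have hN0 : (0 : ℝ) < N := by exact_mod_cast hN
  have hN1 : (1 : ℝ) ≤ N := by exact_mod_cast hN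
  have hX1 : (1 : ℝ) ≤ X := le_trans (Real.one_le_rpow hN1 (by positivity)) hX
  have hX0 : (0 : ℝ) < X := by linarith
  have hXn : 1 ≤ X := by exact_mod_cast hX1
  have hq0 : 0 < q := by linarith
  have hvr := vr_nonneg N g
  set A1 := ∑' n, ‖a n‖ with hA1
  have hA0 : 0 ≤ A1 := tsum_nonneg fun n => norm_nonneg _
  set ER := Real.exp (-((N : ℝ) ^ (2 * ε₁) / 576)) with hER
  have hER0 : 0 < ER := Real.exp_pos _
  set φ : ℝ → ℝ := fun v => (1 + |v|) ^ (-(1 + η)) with hφ
  have hφ0 : ∀ v, 0 ≤ φ v := fun v => by rw [hφ]; positivity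
  have hφc : Continuous φ := by
    rw [hφ]
    apply Continuous.rpow_const (by fun_prop)
    intro v; left; positivity
  have hDc := DS_cont ha
  set H : ℝ := (X : ℝ) / 2 with hH
  have hH0 : 0 < H := by positivity
  set S := Set.Ioc (-H) H with hS
  have hNη : 1 ≤ (N : ℝ) ^ η := Real.one_le_rpow hN1 hη.le
  -- the Jensen step
  have hJ : ∀ t : ℝ, (∫ v in (-H)..H, φ v * ‖DS a (t + v)‖) ^ q ≤
      2 ^ q * (c0 ^ (q - 1) * ∫ v in (-H)..H, φ v * ‖DS a (t + v)‖ ^ q) := by
    intro t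
    have hDtc : Continuous fun v => ‖DS a (t + v)‖ := by fun_prop
    have hDtq : Continuous fun v => ‖DS a (t + v)‖ ^ q := by
      apply Continuous.rpow_const hDtc
      intro v; right; exact hq0.le
    have hg0 : ∀ v, 0 ≤ S.indicator φ v := fun v => Set.indicator_nonneg (fun v _ => hφ0 v) v
    have e1 : ∀ f : ℝ → ℝ, (fun v => S.indicator φ v * f v) = S.indicator (fun v => φ v * f v) := by
      intro f
      funext v
      by_cases h : v ∈ S
      · rw [Set.indicator_of_mem h, Set.indicator_of_mem h]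
      · rw [Set.indicator_of_notMem h, Set.indicator_of_notMem h, zero_mul]
    have e2 : ∀ f : ℝ → ℝ, ∫ v, S.indicator φ v * f v = ∫ v in (-H)..H, φ v * f v := by
      intro f
      rw [e1, integral_indicator measurableSet_Ioc, intervalIntegral.integral_of_le (by linarith)]
    have hint : ∀ f : ℝ → ℝ, Continuous f → Integrable fun v => S.indicator φ v * f v := by
      intro f hf
      rw [e1, integrable_indicator_iff measurableSet_Ioc]
      apply Continuous.integrableOn_Ioc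
      exact hφc.mul hf
    have hgi : Integrable (S.indicator φ) := by
      have := hint (fun _ => 1) continuous_const
      simpa using this
    have h1 := jensen hq hg0 (f := fun v => ‖DS a (t + v)‖) (fun v => norm_nonneg _) hgi
      (hint _ hDtc) (hint _ hDtq)
    rw [e2, e2] at h1
    refine h1.trans ?_
    have h2 : ∫ v, S.indicator φ v ≤ c0 := by
      rw [hc0]
      unfold cI
      apply integral_mono hgi (pint hp2)
      intro v
      exact Set.indicator_le_self' (fun v _ => hφ0 v) v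
    have h3 : 0 ≤ ∫ v, S.indicator φ v := integral_nonneg hg0
    have h4 : 0 ≤ ∫ v in (-H)..H, φ v * ‖DS a (t + v)‖ ^ q := by
      apply intervalIntegral.integral_nonneg (by linarith)
      intro v _
      exact mul_nonneg (hφ0 v) (by positivity)
    have h5 : (∫ v, S.indicator φ v) ^ (q - 1) ≤ c0 ^ (q - 1) :=
      Real.rpow_le_rpow h3 h2 (by linarith)
    calc 2 ^ q * (∫ v, S.indicator φ v) ^ (q - 1) * ∫ v in (-H)..H, φ v * ‖DS a (t + v)‖ ^ q
        ≤ 2 ^ q * c0 ^ (q - 1) * ∫ v in (-H)..H, φ v * ‖DS a (t + v)‖ ^ q := by gcongr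
      _ = _ := by ring
  -- pointwise bound
  have hpt : ∀ t : ℕ, ‖∑ n ∈ Icc N (2 * N), a n * g n * pw (t : ℝ) n‖ ^ q ≤
      (N : ℝ) ^ (q * η) * (vr N g) ^ q * (2 ^ q * ((144 : ℝ) ^ q * (2 ^ q * (c0 ^ (q - 1) *
        ∫ v in (-H)..H, φ v * ‖DS a (t + v)‖ ^ q))) + 2 ^ q * (72 * c0 + 3) ^ q * (A1 * ER) ^ q) := by
    intro t
    set I := ∫ v in (-H)..H, φ v * ‖DS a ((t : ℝ) + v)‖ with hI
    have hI0 : 0 ≤ I := by
      apply intervalIntegral.integral_nonneg (by linarith)
      intro v _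
      exact mul_nonneg (hφ0 v) (norm_nonneg _)
    have h1 := pointwise η ε₁ hη hη1 hε N X hN hX a g ha0 ha t
    have h2 : ‖∑ n ∈ Icc N (2 * N), a n * g n * pw (t : ℝ) n‖ ≤
        (N : ℝ) ^ η * vr N g * (72 * I + (72 * c0 + 3) * (A1 * ER)) := by
      refine h1.trans ?_
      have h3 : 72 * (N : ℝ) ^ η * c0 + 3 ≤ (N : ℝ) ^ η * (72 * c0 + 3) := by nlinarith
      calc vr N g * (72 * (N : ℝ) ^ η) * I + vr N g * A1 * ((72 * (N : ℝ) ^ η * c0 + 3) * ER)
          ≤ vr N g * (72 * (N : ℝ) ^ η) * I + vr N g * A1 * (((N : ℝ) ^ η * (72 * c0 + 3)) * ER) := by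
            gcongr
        _ = _ := by ring
    have h4 : (72 * I + (72 * c0 + 3) * (A1 * ER)) ^ q ≤
        2 ^ q * ((72 * I) ^ q + ((72 * c0 + 3) * (A1 * ER)) ^ q) := by
      have hx : 0 ≤ 72 * I := by positivity
      have hy : 0 ≤ (72 * c0 + 3) * (A1 * ER) := by positivity
      rcases le_total (72 * I) ((72 * c0 + 3) * (A1 * ER)) with h | h
      · calc (72 * I + (72 * c0 + 3) * (A1 * ER)) ^ q ≤ (2 * ((72 * c0 + 3) * (A1 * ER))) ^ q :=
              Real.rpow_le_rpow (by positivity) (by linarith) hq0.le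
          _ = 2 ^ q * ((72 * c0 + 3) * (A1 * ER)) ^ q := Real.mul_rpow (by norm_num) hy
          _ ≤ _ := by
              apply mul_le_mul_of_nonneg_left _ (by positivity)
              have : 0 ≤ (72 * I) ^ q := by positivity
              linarith
      · calc (72 * I + (72 * c0 + 3) * (A1 * ER)) ^ q ≤ (2 * (72 * I)) ^ q :=
              Real.rpow_le_rpow (by positivity) (by linarith) hq0.le
          _ = 2 ^ q * (72 * I) ^ q := Real.mul_rpow (by norm_num) hx
          _ ≤ _ := by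
              apply mul_le_mul_of_nonneg_left _ (by positivity)
              have : 0 ≤ ((72 * c0 + 3) * (A1 * ER)) ^ q := by positivity
              linarith
    have h5 : (72 * I) ^ q ≤ (144 : ℝ) ^ q * (2 ^ q * (c0 ^ (q - 1) *
        ∫ v in (-H)..H, φ v * ‖DS a (t + v)‖ ^ q)) := by
      rw [Real.mul_rpow (by norm_num) hI0]
      have h6 : (72 : ℝ) ^ q ≤ 144 ^ q := Real.rpow_le_rpow (by norm_num) (by norm_num) hq0.le
      exact mul_le_mul h6 (hJ t) (by positivity) (by positivity)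
    calc ‖∑ n ∈ Icc N (2 * N), a n * g n * pw (t : ℝ) n‖ ^ q
        ≤ ((N : ℝ) ^ η * vr N g * (72 * I + (72 * c0 + 3) * (A1 * ER))) ^ q :=
          Real.rpow_le_rpow (norm_nonneg _) h2 hq0.le
      _ = (N : ℝ) ^ (q * η) * (vr N g) ^ q * (72 * I + (72 * c0 + 3) * (A1 * ER)) ^ q := by
          rw [Real.mul_rpow (by positivity) (by positivity), Real.mul_rpow (by positivity) hvr,
            ← Real.rpow_mul hN0.le, mul_comm η q]
      _ ≤ (N : ℝ) ^ (q * η) * (vr N g) ^ q *
          (2 ^ q * ((72 * I) ^ q + ((72 * c0 + 3) * (A1 * ER)) ^ q)) := by gcongr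
      _ ≤ (N : ℝ) ^ (q * η) * (vr N g) ^ q * (2 ^ q * ((144 : ℝ) ^ q * (2 ^ q * (c0 ^ (q - 1) *
        ∫ v in (-H)..H, φ v * ‖DS a (t + v)‖ ^ q)) + ((72 * c0 + 3) * (A1 * ER)) ^ q)) := by
          gcongr
      _ = _ := by
          rw [Real.mul_rpow (by positivity) (by positivity : 0 ≤ A1 * ER)]
          ring
  have hFc : Continuous fun τ => ‖DS a τ‖ ^ q := by
    apply Continuous.rpow_const (by fun_prop)
    intro v; right; exact hq0.le
  have hsi := sum_int hp2 X (2 * X) hH0.le (by omega) hFc (fun x => by positivity)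
  have hsi2 : ∑ t ∈ Icc X (2 * X), ∫ v in (-H)..H, φ v * ‖DS a ((t : ℝ) + v)‖ ^ q ≤
      2 ^ (1 + η) * c0 * ∫ τ in ((X : ℝ) / 2)..(5 * (X : ℝ) / 2), ‖DS a τ‖ ^ q := by
    refine hsi.trans (le_of_eq ?_)
    have e1 : (X : ℝ) - H = X / 2 := by rw [hH]; ring
    have e2 : ((2 * X : ℕ) : ℝ) + H = 5 * X / 2 := by rw [hH]; push_cast; ring
    rw [e1, e2]
    rfl
  set J := ∫ τ in ((X : ℝ) / 2)..(5 * (X : ℝ) / 2), ‖DS a τ‖ ^ q with hJdef
  have hJ0 : 0 ≤ J := by
    apply intervalIntegral.integral_nonneg (by linarith)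
    intro v _
    positivity
  have hPn : 0 ≤ (N : ℝ) ^ (q * η) * (vr N g) ^ q := by positivity
  have hcard : ((Icc X (2 * X)).card : ℝ) ≤ 2 * X := by
    rw [Nat.card_Icc]
    have : 2 * X + 1 - X ≤ 2 * X := by omega
    exact_mod_cast this
  calc ∑ t ∈ Icc X (2 * X), ‖∑ n ∈ Icc N (2 * N), a n * g n * pw (t : ℝ) n‖ ^ q
      ≤ ∑ t ∈ Icc X (2 * X), (N : ℝ) ^ (q * η) * (vr N g) ^ q *
        (2 ^ q * ((144 : ℝ) ^ q * (2 ^ q * (c0 ^ (q - 1) *
        ∫ v in (-H)..H, φ v * ‖DS a (t + v)‖ ^ q))) + 2 ^ q * (72 * c0 + 3) ^ q * (A1 * ER) ^ q) :=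
        sum_le_sum fun t _ => hpt t
    _ = (N : ℝ) ^ (q * η) * (vr N g) ^ q * (2 ^ q * ((144 : ℝ) ^ q * (2 ^ q * (c0 ^ (q - 1) *
        ∑ t ∈ Icc X (2 * X), ∫ v in (-H)..H, φ v * ‖DS a (t + v)‖ ^ q))) +
        (Icc X (2 * X)).card * (2 ^ q * (72 * c0 + 3) ^ q * (A1 * ER) ^ q)) := by
        rw [← mul_sum, sum_add_distrib, sum_const, nsmul_eq_mul]
        simp_rw [← mul_sum]
    _ ≤ (N : ℝ) ^ (q * η) * (vr N g) ^ q * (2 ^ q * ((144 : ℝ) ^ q * (2 ^ q * (c0 ^ (q - 1) *
        (2 ^ (1 + η) * c0 * J)))) +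
        (2 * X) * (2 ^ q * (72 * c0 + 3) ^ q * (A1 * ER) ^ q)) := by
        gcongr
    _ = (N : ℝ) ^ (q * η) * (vr N g) ^ q * (C1 * J + C2 * (X * (A1 * ER) ^ q)) := by
        rw [hC1, hC2]; ring
    _ ≤ (N : ℝ) ^ (q * η) * (vr N g) ^ q * ((C1 + C2 + 1) * (J + X * (A1 * ER) ^ q)) := by
        apply mul_le_mul_of_nonneg_left _ hPn
        have h1 : 0 ≤ X * (A1 * ER) ^ q := by positivity
        nlinarith
    _ = _ := by ring

end Pool.Agent.KS6_54.ML
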