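import Mathlib

set_option autoImplicit false

/-!
# Mean squares of exponential polynomials with complex frequencies over a window
-/

open MeasureTheory Finset

namespace Pool.Agent.KS6_54.ML

/-- the Gaussian weight as a complex function times an exponential -/
lemma gw_form (W t0 : ℝ) (hW : 0 < W) (ω : ℂ) (τ : ℝ) :
    Complex.exp (-(τ * ω)) * ((Real.exp (-((τ - t0) ^ 2 / (2 * W ^ 2))) : ℝ) : ℂ) =
      Complex.exp (((-(1 / (2 * W ^ 2)) : ℝ) : ℂ) * (τ : ℂ) ^ 2 + ((t0 / W ^ 2 : ℝ) - ω) * τ +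
        ((-(t0 ^ 2 / (2 * W ^ 2)) : ℝ) : ℂ)) := by
  have hW0 : (W : ℂ) ≠ 0 := by exact_mod_cast hW.ne'
  rw [Complex.ofReal_exp, ← Complex.exp_add]
  congr 1
  push_cast
  field_simp
  ring

lemma gw_integrable (W t0 : ℝ) (hW : 0 < W) (ω : ℂ) : Integrable (fun τ : ℝ =>
    Complex.exp (-(τ * ω)) * ((Real.exp (-((τ - t0) ^ 2 / (2 * W ^ 2))) : ℝ) : ℂ)) := by
  simp_rw [gw_form W t0 hW ω]
  apply integrable_cexp_quadratic'
  rw [Complex.ofReal_re]
  have : 0 < 1 / (2 * W ^ 2) := by positivity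
  linarith

lemma gw_norm (W t0 : ℝ) (hW : 0 < W) (ω : ℂ) : ‖∫ τ : ℝ,
    Complex.exp (-(τ * ω)) * ((Real.exp (-((τ - t0) ^ 2 / (2 * W ^ 2))) : ℝ) : ℂ)‖ =
      Real.sqrt (2 * Real.pi) * W *
        Real.exp (W ^ 2 * (ω.re ^ 2 - ω.im ^ 2) / 2 - t0 * ω.re) := by
  simp_rw [gw_form W t0 hW ω]
  have hb : ((((-(1 / (2 * W ^ 2)) : ℝ) : ℂ))).re < 0 := by
    rw [Complex.ofReal_re]
    have : 0 < 1 / (2 * W ^ 2) := by positivity
    linarith
  have hW0 : (W : ℂ) ≠ 0 := by exact_mod_cast hW.ne'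
  rw [integral_cexp_quadratic hb, norm_mul]
  congr 1
  · have h1 : (Real.pi : ℂ) / -((-(1 / (2 * W ^ 2)) : ℝ) : ℂ) = ((2 * Real.pi * W ^ 2 : ℝ) : ℂ) := by
      push_cast
      field_simp
    have h2 : (1 / 2 : ℂ) = ((1 / 2 : ℝ) : ℂ) := by push_cast; ring
    have hp : 0 < 2 * Real.pi * W ^ 2 := by have := Real.pi_pos; positivity
    rw [h1, h2, Complex.norm_cpow_eq_rpow_re_of_pos hp, Complex.ofReal_re, ← Real.sqrt_eq_rpow,
      Real.sqrt_mul (by have := Real.pi_pos; positivity), Real.sqrt_sq hW.le]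
  · rw [Complex.norm_exp]
    congr 1
    have h3 : ((-(t0 ^ 2 / (2 * W ^ 2)) : ℝ) : ℂ) - (((t0 / W ^ 2 : ℝ) : ℂ) - ω) ^ 2 /
        (4 * ((-(1 / (2 * W ^ 2)) : ℝ) : ℂ)) = ((W ^ 2 / 2 : ℝ) : ℂ) * ω ^ 2 - (t0 : ℂ) * ω := by
      push_cast
      field_simp
      ring
    rw [h3, sq ω]
    simp only [Complex.sub_re, Complex.mul_re, Complex.ofReal_re, Complex.ofReal_im, Complex.mul_im]
    ring

/-- the bound for the sum of the products -/
noncomputable def dbl {ι : Type*} (I : Finset ι) (W : ℝ) (b : ι → ℝ) (lam : ι → ℝ) : ℝ :=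
  ∑ i ∈ I, ∑ i' ∈ I, b i * b i' * Real.exp (-(W ^ 2 * (lam i - lam i') ^ 2 / 2))

theorem window {ι : Type*} (I : Finset ι) (a ω : ι → ℂ) (W t0 : ℝ) (hW : 0 < W)
    (hμ : ∀ i ∈ I, 0 ≤ (ω i).re ∧ W * (ω i).re ≤ 1) :
    ∫ τ in (t0 - W)..(t0 + W), ‖∑ i ∈ I, a i * Complex.exp (-(τ * ω i))‖ ^ 2 ≤
      50 * W * dbl I W (fun i => ‖a i‖ * Real.exp (-(t0 * (ω i).re))) (fun i => (ω i).im) := by
  set G : ℝ → ℝ := fun τ => Real.exp (-((τ - t0) ^ 2 / (2 * W ^ 2))) with hG
  set S : ℝ → ℂ := fun τ => ∑ i ∈ I, a i * Complex.exp (-(τ * ω i)) with hS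
  have hcS : Continuous S := by rw [hS]; fun_prop
  -- expansion
  have e1 : ∀ τ : ℝ, ((‖S τ‖ ^ 2 * G τ : ℝ) : ℂ) = ∑ i ∈ I, ∑ i' ∈ I,
      (a i * (starRingEnd ℂ) (a i')) * (Complex.exp (-(τ * (ω i + (starRingEnd ℂ) (ω i')))) *
        ((G τ : ℝ) : ℂ)) := by
    intro τ
    have h1 : ((‖S τ‖ ^ 2 : ℝ) : ℂ) = S τ * (starRingEnd ℂ) (S τ) := by
      rw [Complex.mul_conj, Complex.normSq_eq_norm_sq]
    rw [Complex.ofReal_mul, h1, hS]
    simp only
    rw [map_sum, sum_mul_sum, sum_mul]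
    apply sum_congr rfl
    intro i _
    rw [sum_mul]
    apply sum_congr rfl
    intro i' _
    rw [map_mul, ← Complex.exp_conj, map_neg, map_mul, Complex.conj_ofReal]
    have : Complex.exp (-(τ * (ω i + (starRingEnd ℂ) (ω i')))) =
        Complex.exp (-(τ * ω i)) * Complex.exp (-(τ * (starRingEnd ℂ) (ω i'))) := by
      rw [← Complex.exp_add]; congr 1; ring
    rw [this]
    ring
  have hint : Integrable fun τ : ℝ => ‖S τ‖ ^ 2 * G τ := by
    have h1 : Integrable fun τ : ℝ => ((‖S τ‖ ^ 2 * G τ : ℝ) : ℂ) := by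
      simp_rw [e1]
      apply integrable_finsetSum
      intro i _
      apply integrable_finsetSum
      intro i' _
      exact (gw_integrable W t0 hW _).const_mul _
    refine h1.re.congr (Filter.Eventually.of_forall fun τ => ?_)
    exact Complex.ofReal_re _
  have hI : ∫ τ : ℝ, ‖S τ‖ ^ 2 * G τ ≤ Real.sqrt (2 * Real.pi) * W * Real.exp 2 *
      dbl I W (fun i => ‖a i‖ * Real.exp (-(t0 * (ω i).re))) (fun i => (ω i).im) := by
    have h1 : ((∫ τ : ℝ, ‖S τ‖ ^ 2 * G τ : ℝ) : ℂ) = ∑ i ∈ I, ∑ i' ∈ I,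
        (a i * (starRingEnd ℂ) (a i')) * ∫ τ : ℝ,
          (Complex.exp (-(τ * (ω i + (starRingEnd ℂ) (ω i')))) * ((G τ : ℝ) : ℂ)) := by
      rw [← integral_complex_ofReal]
      simp_rw [e1]
      rw [integral_finsetSum]
      · apply sum_congr rfl
        intro i _
        rw [integral_finsetSum]
        · apply sum_congr rfl
          intro i' _
          rw [integral_const_mul]
        · intro i' _
          exact (gw_integrable W t0 hW _).const_mul _
      · intro i _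
        apply integrable_finsetSum
        intro i' _
        exact (gw_integrable W t0 hW _).const_mul _
    have h2 : ∫ τ : ℝ, ‖S τ‖ ^ 2 * G τ ≤ ‖((∫ τ : ℝ, ‖S τ‖ ^ 2 * G τ : ℝ) : ℂ)‖ := by
      rw [Complex.norm_real]
      exact Real.le_norm_self _
    refine h2.trans ?_
    rw [h1]
    refine (norm_sum_le _ _).trans ?_
    unfold dbl
    rw [mul_sum]
    apply sum_le_sum
    intro i hi
    refine (norm_sum_le _ _).trans ?_
    rw [mul_sum]
    apply sum_le_sum
    intro i' hi'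
    rw [norm_mul, norm_mul, RCLike.norm_conj, gw_norm W t0 hW]
    simp only [Complex.add_re, Complex.add_im, Complex.conj_re, Complex.conj_im]
    obtain ⟨m1, m2⟩ := hμ i hi
    obtain ⟨m3, m4⟩ := hμ i' hi'
    have h3 : Real.exp (W ^ 2 * (((ω i).re + (ω i').re) ^ 2 - ((ω i).im + -(ω i').im) ^ 2) / 2 -
        t0 * ((ω i).re + (ω i').re)) ≤ Real.exp 2 * (Real.exp (-(t0 * (ω i).re)) *
        Real.exp (-(t0 * (ω i').re)) * Real.exp (-(W ^ 2 * ((ω i).im - (ω i').im) ^ 2 / 2))) := by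
      rw [← Real.exp_add, ← Real.exp_add, ← Real.exp_add]
      apply Real.exp_le_exp.2
      have h4 : (W * ((ω i).re + (ω i').re)) ^ 2 ≤ 2 ^ 2 := by
        apply pow_le_pow_left₀ (by positivity)
        linarith
      nlinarith
    calc ‖a i‖ * ‖a i'‖ * (Real.sqrt (2 * Real.pi) * W * Real.exp (W ^ 2 *
          (((ω i).re + (ω i').re) ^ 2 - ((ω i).im + -(ω i').im) ^ 2) / 2 -
            t0 * ((ω i).re + (ω i').re)))
        ≤ ‖a i‖ * ‖a i'‖ * (Real.sqrt (2 * Real.pi) * W * (Real.exp 2 *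
          (Real.exp (-(t0 * (ω i).re)) * Real.exp (-(t0 * (ω i').re)) *
            Real.exp (-(W ^ 2 * ((ω i).im - (ω i').im) ^ 2 / 2))))) := by
          gcongr
      _ = _ := by ring
  -- the window
  have hwin : ∫ τ in (t0 - W)..(t0 + W), ‖S τ‖ ^ 2 ≤ Real.exp (1 / 2) * ∫ τ : ℝ, ‖S τ‖ ^ 2 * G τ := by
    rw [← integral_const_mul, intervalIntegral.integral_of_le (by linarith)]
    have h1 : ∫ τ in Set.Ioc (t0 - W) (t0 + W), ‖S τ‖ ^ 2 ≤
        ∫ τ in Set.Ioc (t0 - W) (t0 + W), Real.exp (1 / 2) * (‖S τ‖ ^ 2 * G τ) := by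
      apply setIntegral_mono_on
      · apply Continuous.integrableOn_Ioc
        fun_prop
      · exact (hint.const_mul _).integrableOn
      · exact measurableSet_Ioc
      · intro τ hτ
        have h2 : (τ - t0) ^ 2 / (2 * W ^ 2) ≤ 1 / 2 := by
          rw [div_le_div_iff₀ (by positivity) (by norm_num)]
          have : (τ - t0) ^ 2 ≤ W ^ 2 := by
            apply sq_le_sq'
            · linarith [hτ.1]
            · linarith [hτ.2]
          linarith
        have h3 : 1 ≤ Real.exp (1 / 2) * G τ := by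
          rw [hG]
          simp only
          rw [← Real.exp_add]
          apply Real.one_le_exp
          linarith
        nlinarith [sq_nonneg ‖S τ‖]
    refine h1.trans ?_
    apply setIntegral_le_integral (hint.const_mul _)
    refine Filter.Eventually.of_forall fun τ => ?_
    simp only [Pi.zero_apply]
    positivity
  refine hwin.trans ?_
  have hdbl : 0 ≤ dbl I W (fun i => ‖a i‖ * Real.exp (-(t0 * (ω i).re))) (fun i => (ω i).im) := by
    unfold dbl
    positivity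
  have hc : Real.exp (1 / 2) * (Real.sqrt (2 * Real.pi) * Real.exp 2) ≤ 50 := by
    have h1' : Real.exp (1 / 2) * Real.exp 2 ≤ 13 := by
      have e : Real.exp (1 / 2) * Real.exp 2 = Real.exp (1/2) ^ 5 := by
        rw [← Real.exp_add, ← Real.exp_nat_mul]; norm_num
      have h5 : Real.exp (1 / 2) ≤ 1.6488 := by
        have h6 : Real.exp (1 / 2) ^ 2 ≤ 1.6488 ^ 2 := by
          rw [← Real.exp_nat_mul]
          have := Real.exp_one_lt_d9
          norm_num
          linarith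
        exact le_of_sq_le_sq h6 (by norm_num)
      rw [e]
      calc Real.exp (1 / 2) ^ 5 ≤ 1.6488 ^ 5 := pow_le_pow_left₀ (Real.exp_pos _).le h5 5
        _ ≤ 13 := by norm_num
    have h2 : Real.sqrt (2 * Real.pi) ≤ 3 := by
      rw [Real.sqrt_le_iff]
      have := Real.pi_lt_four
      exact ⟨by norm_num, by linarith⟩
    calc Real.exp (1 / 2) * (Real.sqrt (2 * Real.pi) * Real.exp 2)
        = (Real.exp (1 / 2) * Real.exp 2) * Real.sqrt (2 * Real.pi) := by ring
      _ ≤ 13 * 3 := mul_le_mul h1' h2 (by positivity) (by norm_num)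
      _ ≤ 50 := by norm_num
  calc Real.exp (1 / 2) * ∫ τ : ℝ, ‖S τ‖ ^ 2 * G τ
      ≤ Real.exp (1 / 2) * (Real.sqrt (2 * Real.pi) * W * Real.exp 2 *
        dbl I W (fun i => ‖a i‖ * Real.exp (-(t0 * (ω i).re))) (fun i => (ω i).im)) :=
        mul_le_mul_of_nonneg_left hI (by positivity)
    _ = (Real.exp (1 / 2) * (Real.sqrt (2 * Real.pi) * Real.exp 2)) * (W *
        dbl I W (fun i => ‖a i‖ * Real.exp (-(t0 * (ω i).re))) (fun i => (ω i).im)) := by ring
    _ ≤ 50 * (W *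
        dbl I W (fun i => ‖a i‖ * Real.exp (-(t0 * (ω i).re))) (fun i => (ω i).im)) :=
        mul_le_mul_of_nonneg_right hc (by positivity)
    _ = _ := by ring

end Pool.Agent.KS6_54.ML
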