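import Pool.Agent.KS6_54.ML.Dual
import Pool.Agent.KS6_54.ML.Win
import Pool.Agent.KS6_54.ML.Trans2

set_option autoImplicit false

/-!
# The fourth moment of the dual sum
-/

open Finset MeasureTheory

namespace Pool.Agent.KS6_54.ML

open Pool.Agent.W200.MR (pw)
open Pool.Agent.TH445.MQ (pw_norm pw_add)

/-- the complex frequency -/
noncomputable def om (N : ℕ) (y : ℝ) : ℂ := (psi N y : ℂ) + (Real.log ‖zc N y‖ : ℂ) * Complex.I

lemma om_re (N : ℕ) (y : ℝ) : (om N y).re = psi N y := by simp [om]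
lemma om_im (N : ℕ) (y : ℝ) : (om N y).im = Real.log ‖zc N y‖ := by simp [om]

/-- the coefficient -/
noncomputable def Bc (k N : ℕ) (y : ℝ) : ℂ := Complex.exp (-(((k : ℂ) + 1) * Complex.log (zc N y)))

lemma Bc_norm (k : ℕ) {N : ℕ} (hN : 1 ≤ N) (y : ℝ) : ‖Bc k N y‖ = (‖zc N y‖ ^ (k + 1))⁻¹ := by
  have hz := zc_norm_pos hN y
  unfold Bc
  rw [Complex.norm_exp]
  have : (-(((k : ℂ) + 1) * Complex.log (zc N y))).re = -(((k : ℝ) + 1) * Real.log ‖zc N y‖) := by
    simp [Complex.log_re]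
  rw [this, Real.exp_neg]
  congr 1
  have h2 : ((k : ℝ) + 1) * Real.log ‖zc N y‖ = Real.log (‖zc N y‖ ^ (k + 1)) := by
    rw [Real.log_pow]; push_cast; ring
  rw [h2, Real.exp_log (by positivity)]

lemma zpow_form (k : ℕ) {N : ℕ} (hN : 1 ≤ N) (y τ : ℝ) : zc N y ^ (-(ex k τ + 1)) =
    Bc k N y * Complex.exp (-(τ * om N y)) * Complex.exp (((Real.pi * τ / 2 : ℝ)) : ℂ) := by
  rw [Complex.cpow_def_of_ne_zero (zc_ne hN y)]
  unfold Bc om psi ex
  rw [← Complex.exp_add, ← Complex.exp_add]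
  congr 1
  have h1 : Complex.log (zc N y) = (Real.log ‖zc N y‖ : ℂ) + (Complex.arg (zc N y) : ℂ) * Complex.I := by
    apply Complex.ext
    · simp [Complex.log_re]
    · simp [Complex.log_im]
  rw [h1]
  push_cast
  have hI : Complex.I * Complex.I = -1 := Complex.I_mul_I
  linear_combination (-(τ : ℂ) * (Complex.arg (zc N y) : ℂ)) * hI

/-- the exponential polynomial -/
noncomputable def EP {ι : Type*} (I : Finset ι) (k N : ℕ) (y : ι → ℝ) (c : ι → ℂ) (τ : ℝ) : ℂ :=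
  ∑ i ∈ I, (c i * Bc k N (y i)) * Complex.exp (-(τ * om N (y i)))

lemma EP_cont {ι : Type*} (I : Finset ι) (k N : ℕ) (y : ι → ℝ) (c : ι → ℂ) :
    Continuous (EP I k N y c) := by
  unfold EP; fun_prop

lemma EP_bound {ι : Type*} (I : Finset ι) (k : ℕ) {N : ℕ} (hN : 1 ≤ N) (y : ι → ℝ) (c : ι → ℂ)
    {τ : ℝ} (hτ : 1 ≤ τ) :
    ‖Complex.Gamma (ex k τ + 1)‖ * ‖∑ i ∈ I, c i * zc N (y i) ^ (-(ex k τ + 1))‖ ≤
      4 * ((k : ℝ) + 1) ^ k * (τ ^ k * Real.sqrt τ) * ‖EP I k N y c τ‖ := by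
  have e1 : ∑ i ∈ I, c i * zc N (y i) ^ (-(ex k τ + 1)) =
      EP I k N y c τ * Complex.exp (((Real.pi * τ / 2 : ℝ)) : ℂ) := by
    unfold EP
    rw [sum_mul]
    apply sum_congr rfl
    intro i _
    rw [zpow_form k hN]
    ring
  rw [e1, norm_mul, Complex.norm_exp, Complex.ofReal_re]
  have h1 := gamma_bound k hτ
  have h2 : Real.exp (-(Real.pi * τ / 2)) * Real.exp (Real.pi * τ / 2) = 1 := by
    rw [← Real.exp_add]; simp
  calc ‖Complex.Gamma (ex k τ + 1)‖ * (‖EP I k N y c τ‖ * Real.exp (Real.pi * τ / 2))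
      ≤ (4 * ((k : ℝ) + 1) ^ k * (τ ^ k * Real.sqrt τ * Real.exp (-(Real.pi * τ / 2)))) *
        (‖EP I k N y c τ‖ * Real.exp (Real.pi * τ / 2)) :=
        mul_le_mul_of_nonneg_right h1 (by positivity)
    _ = 4 * ((k : ℝ) + 1) ^ k * (τ ^ k * Real.sqrt τ) * ‖EP I k N y c τ‖ *
        (Real.exp (-(Real.pi * τ / 2)) * Real.exp (Real.pi * τ / 2)) := by ring
    _ = _ := by rw [h2, mul_one]

/-- the bound for one coefficient with its damping -/
lemma coef_bound (k : ℕ) {N : ℕ} (hN : 1 ≤ N) (y : ℝ) {X t0 : ℝ} (hX : 0 < X) (ht : X / 2 ≤ t0) :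
    ‖Bc k N y‖ * Real.exp (-(t0 * psi N y)) ≤ 2 ^ (k + 1) * ((k + 1).factorial : ℝ) *
      ((N : ℝ) / X) ^ (k + 1) := by
  have hN0 : (0 : ℝ) < N := by exact_mod_cast hN
  have hz := zc_norm_pos hN y
  rw [Bc_norm k hN]
  set x : ℝ := X / (N * ‖zc N y‖) with hx
  have hx0 : 0 < x := by positivity
  have h1 : (‖zc N y‖ ^ (k + 1))⁻¹ = x ^ (k + 1) * ((N : ℝ) / X) ^ (k + 1) := by
    rw [← mul_pow, ← inv_pow]
    congr 1
    rw [hx]
    field_simp
  have h2 : Real.exp (-(t0 * psi N y)) ≤ Real.exp (-(x / 2)) := by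
    apply Real.exp_le_exp.2
    have h3 := psi_lower hN y
    have h4 : x / 2 = (X / 2) * (1 / (N * ‖zc N y‖)) := by rw [hx]; field_simp
    have h5 : x / 2 ≤ t0 * psi N y := by
      rw [h4]
      exact mul_le_mul ht h3 (by positivity) (by linarith)
    linarith
  have h3 : x ^ (k + 1) * Real.exp (-(x / 2)) ≤ 2 ^ (k + 1) * ((k + 1).factorial : ℝ) := by
    have h4 := Real.pow_div_factorial_le_exp (x / 2) (by positivity) (k + 1)
    rw [div_le_iff₀ (by positivity)] at h4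
    rw [Real.exp_neg, ← div_eq_mul_inv, div_le_iff₀ (Real.exp_pos _)]
    calc x ^ (k + 1) = 2 ^ (k + 1) * (x / 2) ^ (k + 1) := by rw [← mul_pow]; congr 1; ring
      _ ≤ 2 ^ (k + 1) * (Real.exp (x / 2) * ((k + 1).factorial : ℝ)) :=
          mul_le_mul_of_nonneg_left h4 (by positivity)
      _ = _ := by ring
  calc (‖zc N y‖ ^ (k + 1))⁻¹ * Real.exp (-(t0 * psi N y))
      ≤ (x ^ (k + 1) * ((N : ℝ) / X) ^ (k + 1)) * Real.exp (-(x / 2)) := by
        rw [h1]
        exact mul_le_mul_of_nonneg_left h2 (by positivity)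
    _ = (x ^ (k + 1) * Real.exp (-(x / 2))) * ((N : ℝ) / X) ^ (k + 1) := by ring
    _ ≤ _ := mul_le_mul_of_nonneg_right h3 (by positivity)

lemma dbl_mono {ι : Type*} (I : Finset ι) (W : ℝ) {b b' : ι → ℝ} (lam : ι → ℝ)
    (h0 : ∀ i ∈ I, 0 ≤ b i) (h : ∀ i ∈ I, b i ≤ b' i) : dbl I W b lam ≤ dbl I W b' lam := by
  unfold dbl
  apply sum_le_sum
  intro i hi
  apply sum_le_sum
  intro i' hi'
  apply mul_le_mul_of_nonneg_right _ (Real.exp_pos _).le
  exact mul_le_mul (h i hi) (h i' hi') (h0 i' hi') ((h0 i hi).trans (h i hi))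

lemma dbl_smul {ι : Type*} (I : Finset ι) (W Q : ℝ) (b : ι → ℝ) (lam : ι → ℝ) :
    dbl I W (fun i => Q * b i) lam = Q ^ 2 * dbl I W b lam := by
  unfold dbl
  rw [mul_sum]
  apply sum_congr rfl
  intro i _
  rw [mul_sum]
  apply sum_congr rfl
  intro i' _
  ring

/-- the logarithm of a product of two points -/
noncomputable def lm {ι : Type*} (N : ℕ) (y : ι → ℝ) (p : ι × ι) : ℝ :=
  Real.log ‖zc N (y p.1)‖ + Real.log ‖zc N (y p.2)‖

/-- **The fourth moment of the exponential polynomial.** -/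
theorem EP_moment {ι : Type*} (I : Finset ι) (k : ℕ) {N X : ℕ} (hN : 1 ≤ N) (hX : 1 ≤ X) {Z : ℝ}
    (hZ : 1 ≤ Z) (y : ι → ℝ) (c : ι → ℂ) (hy : ∀ i ∈ I, X / (N * Z) ≤ y i) :
    ∫ τ in ((X : ℝ) / 2)..(5 * (X : ℝ) / 2), ‖EP I k N y c τ‖ ^ 4 ≤
      50 * X * (2 ^ (k + 1) * ((k + 1).factorial : ℝ) * ((N : ℝ) / X) ^ (k + 1)) ^ 4 *
        dbl (I ×ˢ I) (X / ⌈Z⌉₊) (fun p => ‖c p.1‖ * ‖c p.2‖) (lm N y) := by
  classical
  have hN0 : (0 : ℝ) < N := by exact_mod_cast hN
  have hX0 : (0 : ℝ) < X := by exact_mod_cast hX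
  have hZ0 : 0 < Z := by linarith
  set n := ⌈Z⌉₊ with hn
  have hnZ : Z ≤ n := Nat.le_ceil Z
  have hn0 : (0 : ℝ) < n := by linarith
  set W : ℝ := X / n with hW
  have hW0 : 0 < W := by positivity
  set Q : ℝ := 2 ^ (k + 1) * ((k + 1).factorial : ℝ) * ((N : ℝ) / X) ^ (k + 1) with hQ
  have hQ0 : 0 ≤ Q := by positivity
  set DB := dbl (I ×ˢ I) W (fun p => ‖c p.1‖ * ‖c p.2‖) (lm N y) with hDB
  set A : ι × ι → ℂ := fun p => (c p.1 * Bc k N (y p.1)) * (c p.2 * Bc k N (y p.2)) with hA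
  set Ω : ι × ι → ℂ := fun p => om N (y p.1) + om N (y p.2) with hΩ
  have e1 : ∀ τ : ℝ, ‖EP I k N y c τ‖ ^ 4 =
      ‖∑ p ∈ I ×ˢ I, A p * Complex.exp (-(τ * Ω p))‖ ^ 2 := by
    intro τ
    have : ∑ p ∈ I ×ˢ I, A p * Complex.exp (-(τ * Ω p)) = EP I k N y c τ * EP I k N y c τ := by
      unfold EP
      rw [sum_mul_sum, sum_product]
      apply sum_congr rfl
      intro i _
      apply sum_congr rfl
      intro i' _
      rw [hA, hΩ]
      simp only
      have h2 : Complex.exp (-(τ * (om N (y i) + om N (y i')))) =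
          Complex.exp (-(τ * om N (y i))) * Complex.exp (-(τ * om N (y i'))) := by
        rw [← Complex.exp_add]; congr 1; ring
      rw [h2]
      ring
    rw [this, norm_mul]
    ring
  have hψ : ∀ i ∈ I, 0 ≤ psi N (y i) ∧ W * psi N (y i) ≤ 1 / 2 := by
    intro i hi
    have h1 := hy i hi
    have h2 : 0 < y i := lt_of_lt_of_le (by positivity) h1
    refine ⟨(psi_pos hN _).le, ?_⟩
    have h3 := psi_upper hN h2
    have h4 : X / Z ≤ N * y i := by
      calc X / Z = N * (X / (N * Z)) := by field_simp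
        _ ≤ N * y i := mul_le_mul_of_nonneg_left h1 hN0.le
    have h5 : 1 / (4 * (N * y i)) ≤ Z / (4 * X) := by
      rw [div_le_div_iff₀ (by positivity) (by positivity)]
      rw [div_le_iff₀ hZ0] at h4
      nlinarith
    calc W * psi N (y i) ≤ W * (Z / (4 * X)) := mul_le_mul_of_nonneg_left (h3.trans h5) hW0.le
      _ = Z / (4 * n) := by rw [hW]; field_simp
      _ ≤ 1 / 2 := by
          rw [div_le_div_iff₀ (by positivity) (by norm_num)]
          linarith
  have hwin : ∀ t0 : ℝ, (X : ℝ) / 2 ≤ t0 → ∫ τ in (t0 - W)..(t0 + W), ‖EP I k N y c τ‖ ^ 4 ≤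
      50 * W * (Q ^ 4 * DB) := by
    intro t0 ht0
    simp_rw [e1]
    have h1 := window (I ×ˢ I) A Ω W t0 hW0 (by
      intro p hp
      rw [mem_product] at hp
      have a1 := hψ _ hp.1
      have a2 := hψ _ hp.2
      rw [hΩ]
      simp only [Complex.add_re, om_re]
      exact ⟨by linarith [a1.1, a2.1], by rw [mul_add]; linarith [a1.2, a2.2]⟩)
    refine h1.trans ?_
    apply mul_le_mul_of_nonneg_left _ (by positivity)
    have e2 : (fun p => (Ω p).im) = lm N y := by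
      funext p
      rw [hΩ]
      simp only [Complex.add_im, om_im]
      rfl
    rw [e2]
    have e3 : Q ^ 4 * DB = dbl (I ×ˢ I) W (fun p => Q ^ 2 * (‖c p.1‖ * ‖c p.2‖)) (lm N y) := by
      rw [dbl_smul, hDB]; ring
    rw [e3]
    apply dbl_mono
    · intro p _
      positivity
    · intro p hp
      rw [hA, hΩ]
      simp only [Complex.add_re, om_re, norm_mul]
      have b1 := coef_bound k hN (y p.1) hX0 ht0
      have b2 := coef_bound k hN (y p.2) hX0 ht0
      have e4 : Real.exp (-(t0 * (psi N (y p.1) + psi N (y p.2)))) =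
          Real.exp (-(t0 * psi N (y p.1))) * Real.exp (-(t0 * psi N (y p.2))) := by
        rw [← Real.exp_add]; congr 1; ring
      rw [e4]
      calc ‖c p.1‖ * ‖Bc k N (y p.1)‖ * (‖c p.2‖ * ‖Bc k N (y p.2)‖) *
            (Real.exp (-(t0 * psi N (y p.1))) * Real.exp (-(t0 * psi N (y p.2))))
          = (‖c p.1‖ * ‖c p.2‖) * ((‖Bc k N (y p.1)‖ * Real.exp (-(t0 * psi N (y p.1)))) *
            (‖Bc k N (y p.2)‖ * Real.exp (-(t0 * psi N (y p.2))))) := by ring
        _ ≤ (‖c p.1‖ * ‖c p.2‖) * (Q * Q) := by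
            apply mul_le_mul_of_nonneg_left _ (by positivity)
            exact mul_le_mul b1 b2 (by positivity) hQ0
        _ = _ := by ring
  -- the windows
  set aw : ℕ → ℝ := fun w => X / 2 + 2 * w * W with haw
  have hc : Continuous fun τ => ‖EP I k N y c τ‖ ^ 4 := by
    have := EP_cont I k N y c
    fun_prop
  have hsum := intervalIntegral.sum_integral_adjacent_intervals (f := fun τ => ‖EP I k N y c τ‖ ^ 4)
    (a := aw) (μ := volume) (n := n) (fun w _ => hc.intervalIntegrable _ _)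
  have e5 : aw 0 = X / 2 := by rw [haw]; simp
  have e6 : aw n = 5 * X / 2 := by rw [haw, hW]; field_simp; ring
  rw [e5, e6] at hsum
  rw [← hsum]
  calc ∑ w ∈ range n, ∫ τ in (aw w)..(aw (w + 1)), ‖EP I k N y c τ‖ ^ 4
      ≤ ∑ w ∈ range n, 50 * W * (Q ^ 4 * DB) := by
        apply sum_le_sum
        intro w _
        have h1 := hwin (X / 2 + (2 * w + 1) * W) (by
          have : 0 ≤ (2 * (w : ℝ) + 1) * W := by positivity
          linarith)
        have e7 : (X : ℝ) / 2 + (2 * w + 1) * W - W = aw w := by rw [haw]; simp only; ring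
        have e8 : (X : ℝ) / 2 + (2 * w + 1) * W + W = aw (w + 1) := by
          rw [haw]; simp only; push_cast; ring
        rw [e7, e8] at h1
        exact h1
    _ = 50 * X * Q ^ 4 * DB := by
        rw [sum_const, card_range, nsmul_eq_mul, hW]
        field_simp

end Pool.Agent.KS6_54.ML
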