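import Pool.Agent.KS6_54.ML.Main

set_option autoImplicit false

/-!
# The fourth moment of the smooth sums
-/

open Finset MeasureTheory

namespace Pool.Agent.KS6_54.ML

open Pool.Agent.W200.MR (pw)
open Pool.Agent.TH445.MQ (pw_norm pw_add)

/-- the smoothing factor `n^k e^{-n/N}` -/
noncomputable def sf (k N : ℕ) (n : ℕ) : ℝ := (n : ℝ) ^ k * Real.exp (-((n : ℝ) / N))

/-- smoothed coefficients -/
noncomputable def sm (k N : ℕ) (b : ℕ → ℂ) (n : ℕ) : ℂ := b n * (sf k N n : ℂ)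

lemma sf_nonneg (k N n : ℕ) : 0 ≤ sf k N n := by unfold sf; positivity

/-- the size of the smoothing factor -/
lemma sf_le (k : ℕ) {N : ℕ} (hN : 1 ≤ N) (n : ℕ) :
    sf k N n ≤ (k.factorial : ℝ) * (2 * N) ^ k * Real.exp (-((n : ℝ) / (2 * N))) := by
  have hN0 : (0 : ℝ) < N := by exact_mod_cast hN
  have h4 := Real.pow_div_factorial_le_exp ((n : ℝ) / (2 * N)) (by positivity) k
  rw [div_le_iff₀ (by positivity)] at h4
  unfold sf
  have e1 : Real.exp (-((n : ℝ) / N)) = Real.exp (-((n : ℝ) / (2 * N))) *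
      Real.exp (-((n : ℝ) / (2 * N))) := by
    rw [← Real.exp_add]; congr 1; field_simp; ring
  have e2 : (n : ℝ) ^ k = (2 * N) ^ k * ((n : ℝ) / (2 * N)) ^ k := by
    rw [← mul_pow]; congr 1; field_simp
  rw [e1, e2]
  have h5 : ((n : ℝ) / (2 * N)) ^ k * Real.exp (-((n : ℝ) / (2 * N))) ≤ (k.factorial : ℝ) := by
    rw [Real.exp_neg, ← div_eq_mul_inv, div_le_iff₀ (Real.exp_pos _)]
    linarith
  calc (2 * (N : ℝ)) ^ k * ((n : ℝ) / (2 * N)) ^ k * (Real.exp (-((n : ℝ) / (2 * N))) *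
      Real.exp (-((n : ℝ) / (2 * N)))) = (2 * (N : ℝ)) ^ k * (((n : ℝ) / (2 * N)) ^ k *
        Real.exp (-((n : ℝ) / (2 * N)))) * Real.exp (-((n : ℝ) / (2 * N))) := by ring
    _ ≤ (2 * (N : ℝ)) ^ k * (k.factorial : ℝ) * Real.exp (-((n : ℝ) / (2 * N))) := by gcongr
    _ = _ := by ring

lemma geo {N : ℕ} (hN : 1 ≤ N) : Summable (fun n : ℕ => Real.exp (-((n : ℝ) / (2 * N)))) ∧
    ∑' n : ℕ, Real.exp (-((n : ℝ) / (2 * N))) ≤ 4 * N := by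
  have hN0 : (0 : ℝ) < N := by exact_mod_cast hN
  have hN1 : (1 : ℝ) ≤ N := by exact_mod_cast hN
  set r := Real.exp (-(1 / (2 * (N : ℝ)))) with hr
  have e1 : ∀ n : ℕ, Real.exp (-((n : ℝ) / (2 * N))) = r ^ n := by
    intro n
    rw [hr, ← Real.exp_nat_mul]
    congr 1
    field_simp
  have hr0 : 0 ≤ r := (Real.exp_pos _).le
  have hr1 : r < 1 := by
    rw [hr, Real.exp_lt_one_iff]
    have : 0 < 1 / (2 * (N : ℝ)) := by positivity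
    linarith
  simp_rw [e1]
  refine ⟨summable_geometric_of_lt_one hr0 hr1, ?_⟩
  rw [tsum_geometric_of_lt_one hr0 hr1]
  have h2 : 1 / (4 * (N : ℝ)) ≤ 1 - r := by
    have h3 : r ≤ 1 / (1 + 1 / (2 * (N : ℝ))) := by
      rw [hr, Real.exp_neg, ← one_div]
      apply one_div_le_one_div_of_le (by positivity)
      have := Real.add_one_le_exp (1 / (2 * (N : ℝ)))
      linarith
    have h4 : 1 / (4 * (N : ℝ)) ≤ 1 - 1 / (1 + 1 / (2 * (N : ℝ))) := by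
      have e : 1 - 1 / (1 + 1 / (2 * (N : ℝ))) = 1 / (2 * N + 1) := by field_simp; ring
      rw [e]
      apply one_div_le_one_div_of_le (by positivity)
      linarith
    linarith
  rw [inv_le_comm₀ (by linarith) (by positivity)]
  rw [one_div] at h2
  exact h2

lemma sm_summable (k : ℕ) {N : ℕ} (hN : 1 ≤ N) {b : ℕ → ℂ} {B : ℝ} (hb : ∀ n, ‖b n‖ ≤ B) :
    Summable (fun n => ‖sm k N b n‖) ∧
      ∑' n, ‖sm k N b n‖ ≤ B * (4 * (k.factorial : ℝ) * 2 ^ k * (N : ℝ) ^ (k + 1)) := by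
  have hB : 0 ≤ B := (norm_nonneg _).trans (hb 0)
  obtain ⟨h1, h2⟩ := geo hN
  have h3 : ∀ n, ‖sm k N b n‖ ≤ B * ((k.factorial : ℝ) * (2 * N) ^ k) *
      Real.exp (-((n : ℝ) / (2 * N))) := by
    intro n
    unfold sm
    rw [norm_mul, Complex.norm_real, Real.norm_of_nonneg (sf_nonneg _ _ _)]
    calc ‖b n‖ * sf k N n ≤ B * ((k.factorial : ℝ) * (2 * N) ^ k *
          Real.exp (-((n : ℝ) / (2 * N)))) := mul_le_mul (hb n) (sf_le k hN n) (sf_nonneg _ _ _) hB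
      _ = _ := by ring
  have h4 : Summable fun n : ℕ => B * ((k.factorial : ℝ) * (2 * N) ^ k) *
      Real.exp (-((n : ℝ) / (2 * N))) := h1.mul_left _
  have h5 : Summable fun n => ‖sm k N b n‖ := Summable.of_nonneg_of_le (fun n => norm_nonneg _) h3 h4
  refine ⟨h5, ?_⟩
  refine (h5.tsum_le_tsum h3 h4).trans ?_
  rw [tsum_mul_left]
  calc B * ((k.factorial : ℝ) * (2 * N) ^ k) * ∑' n : ℕ, Real.exp (-((n : ℝ) / (2 * N)))
      ≤ B * ((k.factorial : ℝ) * (2 * N) ^ k) * (4 * N) := by gcongr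
    _ = _ := by rw [mul_pow]; ring

/-- additive characters -/
noncomputable def ee (x : ℝ) : ℂ := Complex.exp (((2 * Real.pi * x : ℝ) : ℂ) * Complex.I)

lemma ee_norm (x : ℝ) : ‖ee x‖ = 1 := Complex.norm_exp_ofReal_mul_I _

/-- coefficients which are combinations of additive characters -/
noncomputable def bco {m : ℕ} (θ : Fin m → ℝ) (c : Fin m → ℂ) (n : ℕ) : ℂ :=
  ∑ r, c r * ee (θ r * n)

lemma npow_form {k : ℕ} (hk : 1 ≤ k) (n : ℕ) (τ : ℝ) :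
    (n : ℂ) ^ (ex k τ) = ((n : ℝ) ^ k : ℝ) * pw τ n := by
  rcases Nat.eq_zero_or_pos n with h | h
  · subst h
    rw [Nat.cast_zero, Complex.zero_cpow]
    · simp
      omega
    · intro h
      have := congrArg Complex.re h
      rw [ex_re] at this
      simp at this
      omega
  · have hn : (n : ℂ) ≠ 0 := by exact_mod_cast h.ne'
    unfold ex
    rw [Complex.cpow_add _ _ hn, Complex.cpow_natCast]
    push_cast
    congr 1
    unfold Pool.Agent.W200.MR.pw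
    rw [Complex.cpow_def_of_ne_zero hn, ← Complex.natCast_log]
    congr 1
    push_cast
    ring

/-- **The exact formula for the smooth sum.** -/
theorem DS_eq {k : ℕ} (hk : 1 ≤ k) {N : ℕ} (hN : 1 ≤ N) {m : ℕ} (θ : Fin m → ℝ) (c : Fin m → ℂ)
    (τ : ℝ) : DS (sm k N (bco θ c)) τ = Complex.Gamma (ex k τ + 1) *
      ∑ r, c r * ∑' ξ : ℤ, zc N (ξ - θ r) ^ (-(ex k τ + 1)) := by
  have hN0 : (0 : ℝ) < N := by exact_mod_cast hN
  set R : Fin m → ℂ := fun r => ((1 / (N : ℝ) : ℝ) : ℂ) - ((2 * Real.pi * θ r : ℝ) : ℂ) * Complex.I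
    with hR
  have hRre : ∀ r, 0 < (R r).re := by
    intro r
    rw [hR]
    simp
    exact hN
  have hsm : ∀ r, Summable fun n : ℕ => (n : ℂ) ^ (ex k τ) * Complex.exp (-(R r * n)) := by
    intro r
    have h1 := (prim_summable hk τ (hRre r)).comp_injective (i := ((↑) : ℕ → ℤ)) Nat.cast_injective
    refine h1.congr fun n => ?_
    simp only [Function.comp]
    unfold pf
    push_cast
    have : max (n : ℝ) 0 = n := max_eq_left (by positivity)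
    rw [this]
    simp
  have e1 : ∀ n : ℕ, sm k N (bco θ c) n * pw τ n =
      ∑ r, c r * ((n : ℂ) ^ (ex k τ) * Complex.exp (-(R r * n))) := by
    intro n
    rw [npow_form hk]
    unfold sm bco sf
    rw [sum_mul, sum_mul]
    apply sum_congr rfl
    intro r _
    have e2 : Complex.exp (-(R r * n)) = ee (θ r * n) * ((Real.exp (-((n : ℝ) / N)) : ℝ) : ℂ) := by
      rw [hR]
      unfold ee
      rw [Complex.ofReal_exp, ← Complex.exp_add]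
      congr 1
      push_cast
      ring
    rw [e2]
    push_cast
    ring
  unfold DS
  simp_rw [e1]
  rw [Summable.tsum_finsetSum (fun r _ => (hsm r).mul_left _), mul_sum]
  apply sum_congr rfl
  intro r _
  rw [tsum_mul_left, poisson hk τ (hRre r)]
  have e3 : ∀ ξ : ℤ, R r + 2 * Real.pi * ξ * Complex.I = zc N (ξ - θ r) := by
    intro ξ
    rw [hR]
    unfold zc
    push_cast
    ring
  simp_rw [e3]
  ring

/-- the index set of the main terms -/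
noncomputable def IM {m : ℕ} (Y0 Y1 : ℝ) (θ : Fin m → ℝ) : Finset (Σ _ : Fin m, ℤ) :=
  Finset.univ.sigma fun r => MR Y0 Y1 (θ r)

/-- the dual variable -/
def yv {m : ℕ} (θ : Fin m → ℝ) (i : Σ _ : Fin m, ℤ) : ℝ := i.2 - θ i.1

/-- the coefficient -/
def cv {m : ℕ} (c : Fin m → ℂ) (i : Σ _ : Fin m, ℤ) : ℂ := c i.1

/-- pointwise approximation of the smooth sum -/
theorem DS_bound (j : ℕ) {N X : ℕ} (hN : 1 ≤ N) (hX : N ≤ X) (hX2 : X ≤ N ^ 2) {Z : ℝ}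
    (hZ : 1 ≤ Z) (hZX : Z ≤ X) (hZ1 : (N : ℝ) ^ 6 ≤ Z ^ (j + 2))
    (hZ2 : (N : ℝ) ^ (2 * j + 10) ≤ Real.exp (Z / 16)) {m : ℕ} (hm : m ≤ N) (θ : Fin m → ℝ)
    (c : Fin m → ℂ) (hc : ∀ r, ‖c r‖ ≤ 1) {τ : ℝ} (hτ : (X : ℝ) / 2 ≤ τ) (hτ1 : 1 ≤ τ)
    (hτ2 : τ ≤ 5 * X / 2) :
    ‖DS (sm (j + 3) N (bco θ c)) τ‖ ≤ 4 * ((j : ℝ) + 4) ^ (j + 3) * (τ ^ (j + 3) * Real.sqrt τ) *
      ‖EP (IM (X / (N * Z)) (Z * X / N) θ) (j + 3) N (yv θ) (cv c) τ‖ +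
      4 * ((j : ℝ) + 4) ^ (j + 3) * 3 ^ (j + 4) * C4 * (N : ℝ) ^ (j + 3) := by
  have hN0 : (0 : ℝ) < N := by exact_mod_cast hN
  set G := Complex.Gamma (ex (j + 3) τ + 1) with hG
  set M := fun r => MR (X / (N * Z)) (Z * X / N) (θ r) with hM
  set C := 4 * ((j : ℝ) + 4) ^ (j + 3) * 3 ^ (j + 4) * C4 with hC
  have hC0 : 0 ≤ C := by have := C4_nonneg; positivity
  rw [DS_eq (by omega) hN]
  have e1 : G * ∑ r, c r * ∑' ξ : ℤ, zc N (ξ - θ r) ^ (-(ex (j + 3) τ + 1)) =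
      G * (∑ i ∈ IM (X / (N * Z)) (Z * X / N) θ, cv c i * zc N (yv θ i) ^ (-(ex (j + 3) τ + 1))) +
      ∑ r, c r * (G * ((∑' ξ : ℤ, zc N (ξ - θ r) ^ (-(ex (j + 3) τ + 1))) -
        ∑ ξ ∈ M r, zc N (ξ - θ r) ^ (-(ex (j + 3) τ + 1)))) := by
    unfold IM
    rw [sum_sigma, mul_sum, mul_sum, ← sum_add_distrib]
    apply sum_congr rfl
    intro r _
    unfold cv yv
    simp only
    rw [← mul_sum]
    ring
  rw [e1]
  refine (norm_add_le _ _).trans ?_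
  apply add_le_add
  · rw [norm_mul]
    refine (EP_bound _ (j + 3) hN (yv θ) (cv c) hτ1).trans (le_of_eq ?_)
    push_cast
    rw [show (j : ℝ) + 3 + 1 = j + 4 by ring]
  · refine (norm_sum_le _ _).trans ?_
    calc ∑ r, ‖c r * (G * ((∑' ξ : ℤ, zc N (ξ - θ r) ^ (-(ex (j + 3) τ + 1))) -
          ∑ ξ ∈ M r, zc N (ξ - θ r) ^ (-(ex (j + 3) τ + 1))))‖
        ≤ ∑ _r : Fin m, C * (N : ℝ) ^ (j + 2) := by
          apply sum_le_sum
          intro r _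
          rw [norm_mul, norm_mul]
          have h1 := tail_bound j hN hX hX2 hZ hZX hZ1 hZ2 hτ hτ1 hτ2 (θ r)
          calc ‖c r‖ * (‖G‖ * ‖(∑' ξ : ℤ, zc N (ξ - θ r) ^ (-(ex (j + 3) τ + 1))) -
                ∑ ξ ∈ M r, zc N (ξ - θ r) ^ (-(ex (j + 3) τ + 1))‖) ≤ 1 * (C * (N : ℝ) ^ (j + 2)) :=
                mul_le_mul (hc r) h1 (by positivity) (by norm_num)
            _ = _ := one_mul _
      _ = m * (C * (N : ℝ) ^ (j + 2)) := by rw [sum_const, card_univ, Fintype.card_fin, nsmul_eq_mul]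
      _ ≤ N * (C * (N : ℝ) ^ (j + 2)) := by
          apply mul_le_mul_of_nonneg_right _ (by positivity)
          exact_mod_cast hm
      _ = C * (N : ℝ) ^ (j + 3) := by ring

/-- **The fourth moment of the smooth sum.** -/
theorem DS_moment (j : ℕ) : ∃ C : ℝ, 1 ≤ C ∧ ∀ {N X : ℕ}, 2 ≤ N → N ≤ X → X ≤ N ^ 2 →
    ∀ {Z : ℝ}, 1 ≤ Z → Z ≤ X → (N : ℝ) ^ 6 ≤ Z ^ (j + 2) →
    (N : ℝ) ^ (2 * j + 10) ≤ Real.exp (Z / 16) → ∀ {m : ℕ}, m ≤ N → ∀ (θ : Fin m → ℝ)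
    (c : Fin m → ℂ), (∀ r, ‖c r‖ ≤ 1) →
    ∫ τ in ((X : ℝ) / 2)..(5 * (X : ℝ) / 2), ‖DS (sm (j + 3) N (bco θ c)) τ‖ ^ 4 ≤
      C * (N : ℝ) ^ (4 * (j + 3)) * ((N : ℝ) ^ 4 / X * dbl (IM (X / (N * Z)) (Z * X / N) θ ×ˢ
        IM (X / (N * Z)) (Z * X / N) θ) (X / ⌈Z⌉₊) (fun p => ‖cv c p.1‖ * ‖cv c p.2‖)
          (lm N (yv θ)) + X) := by
  set a1 : ℝ := 4 * ((j : ℝ) + 4) ^ (j + 3) with ha1
  set a2 : ℝ := 4 * ((j : ℝ) + 4) ^ (j + 3) * 3 ^ (j + 4) * C4 with ha2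
  have ha10 : 0 ≤ a1 := by positivity
  have ha20 : 0 ≤ a2 := by have := C4_nonneg; positivity
  set q : ℝ := 2 ^ (j + 3 + 1) * ((j + 3 + 1).factorial : ℝ) with hq
  have hq0 : 0 ≤ q := by positivity
  set C : ℝ := 8 * a1 ^ 4 * 3 ^ (4 * (j + 3) + 2) * 50 * q ^ 4 + 16 * a2 ^ 4 + 1 with hC
  refine ⟨C, by rw [hC]; have : 0 ≤ 8 * a1 ^ 4 * 3 ^ (4 * (j + 3) + 2) * 50 * q ^ 4 + 16 * a2 ^ 4 := by positivity
                linarith, ?_⟩
  intro N X hN2 hX hX2 Z hZ hZX hZ1 hZ2 m hm θ c hc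
  have hN : 1 ≤ N := by omega
  have hN0 : (0 : ℝ) < N := by exact_mod_cast hN
  have hX1 : 1 ≤ X := by omega
  have hX0 : (0 : ℝ) < X := by exact_mod_cast hX1
  have hX2' : (2 : ℝ) ≤ X := by exact_mod_cast (le_trans hN2 hX)
  set I := IM (X / (N * Z)) (Z * X / N) θ with hI
  set DB := dbl (I ×ˢ I) (X / ⌈Z⌉₊) (fun p => ‖cv c p.1‖ * ‖cv c p.2‖) (lm N (yv θ)) with hDB
  have hDB0 : 0 ≤ DB := by rw [hDB]; unfold dbl; positivity
  have hy : ∀ i ∈ I, (X : ℝ) / (N * Z) ≤ yv θ i := by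
    intro i hi
    rw [hI] at hi
    unfold IM at hi
    rw [mem_sigma] at hi
    exact (mem_MR.1 hi.2).1
  have hEP := EP_moment I (j + 3) hN hX1 hZ (yv θ) (cv c) hy
  have hbco : ∀ n, ‖bco θ c n‖ ≤ m := by
    intro n
    unfold bco
    refine (norm_sum_le _ _).trans ?_
    calc ∑ r, ‖c r * ee (θ r * n)‖ ≤ ∑ _r : Fin m, (1 : ℝ) := by
          apply sum_le_sum
          intro r _
          rw [norm_mul, ee_norm, mul_one]
          exact hc r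
      _ = m := by simp
  have hDc := DS_cont (sm_summable (j + 3) hN hbco).1
  have hEc := EP_cont I (j + 3) N (yv θ) (cv c)
  have hpt : ∀ τ ∈ Set.Icc ((X : ℝ) / 2) (5 * (X : ℝ) / 2),
      ‖DS (sm (j + 3) N (bco θ c)) τ‖ ^ 4 ≤
      8 * (a1 ^ 4 * (3 * X) ^ (4 * (j + 3) + 2)) * ‖EP I (j + 3) N (yv θ) (cv c) τ‖ ^ 4 +
        8 * (a2 * (N : ℝ) ^ (j + 3)) ^ 4 := by
    intro τ hτ
    have hτ1 : 1 ≤ τ := by linarith [hτ.1]
    have hτ0 : 0 < τ := by linarith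
    have h1 := DS_bound j hN hX hX2 hZ hZX hZ1 hZ2 hm θ c hc hτ.1 hτ1 hτ.2
    set e := ‖EP I (j + 3) N (yv θ) (cv c) τ‖ with he
    have he0 : 0 ≤ e := norm_nonneg _
    have h2 : ∀ x y : ℝ, 0 ≤ x → 0 ≤ y → (x + y) ^ 4 ≤ 8 * x ^ 4 + 8 * y ^ 4 := by
      intro x y hx hy
      have h3 : (x + y) ^ 2 ≤ 2 * (x ^ 2 + y ^ 2) := by nlinarith [sq_nonneg (x - y)]
      calc (x + y) ^ 4 = ((x + y) ^ 2) ^ 2 := by ring
        _ ≤ (2 * (x ^ 2 + y ^ 2)) ^ 2 := pow_le_pow_left₀ (by positivity) h3 2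
        _ ≤ 8 * x ^ 4 + 8 * y ^ 4 := by nlinarith [sq_nonneg (x ^ 2 - y ^ 2)]
    have h3 : (τ ^ (j + 3) * Real.sqrt τ) ^ 4 ≤ (3 * X) ^ (4 * (j + 3) + 2) := by
      have h4 : (τ ^ (j + 3) * Real.sqrt τ) ^ 4 = τ ^ (4 * (j + 3) + 2) := by
        rw [mul_pow, ← pow_mul]
        have : Real.sqrt τ ^ 4 = τ ^ 2 := by
          calc Real.sqrt τ ^ 4 = (Real.sqrt τ ^ 2) ^ 2 := by ring
            _ = τ ^ 2 := by rw [Real.sq_sqrt hτ0.le]
        rw [this, ← pow_add]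
        congr 1
        ring
      rw [h4]
      exact pow_le_pow_left₀ hτ0.le (by linarith [hτ.2]) _
    calc ‖DS (sm (j + 3) N (bco θ c)) τ‖ ^ 4
        ≤ (a1 * (τ ^ (j + 3) * Real.sqrt τ) * e + a2 * (N : ℝ) ^ (j + 3)) ^ 4 :=
          pow_le_pow_left₀ (norm_nonneg _) h1 4
      _ ≤ 8 * (a1 * (τ ^ (j + 3) * Real.sqrt τ) * e) ^ 4 + 8 * (a2 * (N : ℝ) ^ (j + 3)) ^ 4 :=
          h2 _ _ (by positivity) (by positivity)
      _ = 8 * (a1 ^ 4 * (τ ^ (j + 3) * Real.sqrt τ) ^ 4) * e ^ 4 + 8 * (a2 * (N : ℝ) ^ (j + 3)) ^ 4 := by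
          ring
      _ ≤ _ := by gcongr
  have hint : ∫ τ in ((X : ℝ) / 2)..(5 * (X : ℝ) / 2), ‖DS (sm (j + 3) N (bco θ c)) τ‖ ^ 4 ≤
      ∫ τ in ((X : ℝ) / 2)..(5 * (X : ℝ) / 2),
        (8 * (a1 ^ 4 * (3 * X) ^ (4 * (j + 3) + 2)) * ‖EP I (j + 3) N (yv θ) (cv c) τ‖ ^ 4 +
        8 * (a2 * (N : ℝ) ^ (j + 3)) ^ 4) := by
    apply intervalIntegral.integral_mono_on (by linarith)
    · apply Continuous.intervalIntegrable; fun_prop
    · apply Continuous.intervalIntegrable; fun_prop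
    · exact hpt
  refine hint.trans ?_
  rw [intervalIntegral.integral_add (by apply Continuous.intervalIntegrable; fun_prop)
    (by apply Continuous.intervalIntegrable; fun_prop), intervalIntegral.integral_const_mul,
    intervalIntegral.integral_const]
  have e1 : (5 * (X : ℝ) / 2 - X / 2) = 2 * X := by ring
  rw [e1, smul_eq_mul]
  have hexp : (N : ℝ) ^ (4 * (j + 3)) * ((N : ℝ) ^ 4 / X) =
      (X : ℝ) ^ (4 * (j + 3) + 2) * X * (((N : ℝ) / X) ^ (j + 3 + 1)) ^ 4 := by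
    have e2 : 4 * (j + 3) + 2 + 2 = (j + 3 + 1) * 4 := by ring
    rw [← pow_mul, div_pow, ← e2]
    have e3 : (X : ℝ) ^ (4 * (j + 3) + 2 + 2) = (X : ℝ) ^ (4 * (j + 3) + 2) * X * X := by
      rw [pow_add]; ring
    have e4 : (N : ℝ) ^ (4 * (j + 3) + 2 + 2) = (N : ℝ) ^ (4 * (j + 3)) * (N : ℝ) ^ 4 := by
      rw [← pow_add]
    rw [e3, e4]
    field_simp
  calc 8 * (a1 ^ 4 * (3 * X) ^ (4 * (j + 3) + 2)) *
        (∫ τ in ((X : ℝ) / 2)..(5 * (X : ℝ) / 2), ‖EP I (j + 3) N (yv θ) (cv c) τ‖ ^ 4) +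
        2 * X * (8 * (a2 * (N : ℝ) ^ (j + 3)) ^ 4)
      ≤ 8 * (a1 ^ 4 * (3 * X) ^ (4 * (j + 3) + 2)) *
        (50 * X * (q * ((N : ℝ) / X) ^ (j + 3 + 1)) ^ 4 * DB) +
        2 * X * (8 * (a2 * (N : ℝ) ^ (j + 3)) ^ 4) := by
        gcongr
    _ = (8 * a1 ^ 4 * 3 ^ (4 * (j + 3) + 2) * 50 * q ^ 4) *
        ((X : ℝ) ^ (4 * (j + 3) + 2) * X * (((N : ℝ) / X) ^ (j + 3 + 1)) ^ 4) * DB +
        (16 * a2 ^ 4) * ((N : ℝ) ^ (4 * (j + 3)) * X) := by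
        rw [mul_pow (3 : ℝ), mul_pow a2, ← pow_mul (N : ℝ), mul_comm (j + 3) 4]
        ring
    _ = (8 * a1 ^ 4 * 3 ^ (4 * (j + 3) + 2) * 50 * q ^ 4) *
        ((N : ℝ) ^ (4 * (j + 3)) * ((N : ℝ) ^ 4 / X)) * DB +
        (16 * a2 ^ 4) * ((N : ℝ) ^ (4 * (j + 3)) * X) := by rw [hexp]
    _ ≤ C * ((N : ℝ) ^ (4 * (j + 3)) * ((N : ℝ) ^ 4 / X)) * DB + C * ((N : ℝ) ^ (4 * (j + 3)) * X) := by
        have b1 : 0 ≤ 8 * a1 ^ 4 * 3 ^ (4 * (j + 3) + 2) * 50 * q ^ 4 := by positivity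
        have b2 : 0 ≤ 16 * a2 ^ 4 := by positivity
        have b3 : 8 * a1 ^ 4 * 3 ^ (4 * (j + 3) + 2) * 50 * q ^ 4 ≤ C := by rw [hC]; linarith
        have b4 : 16 * a2 ^ 4 ≤ C := by rw [hC]; linarith
        gcongr
    _ = _ := by ring

end Pool.Agent.KS6_54.ML
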