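import Pool.Agent.KS6_54.ML.Win
import Pool.Graph.R_seed8.H510R2.Div

set_option autoImplicit false

/-!
# Counting near products
-/

open Finset

namespace Pool.Agent.KS6_54.ML

/-- the double sum is controlled by the number of near pairs -/
theorem dbl_le {ι : Type*} (I : Finset ι) (W Δ₀ R : ℝ) (b lam : ι → ℝ)
    (hb : ∀ i ∈ I, 0 ≤ b i) (hΔ : 0 ≤ Δ₀)
    (hR : ∀ i ∈ I, ((I.filter fun i' => |lam i - lam i'| ≤ Δ₀).card : ℝ) ≤ R) :
    dbl I W b lam ≤ R * (∑ i ∈ I, b i ^ 2) +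
      Real.exp (-(W ^ 2 * Δ₀ ^ 2 / 2)) * (∑ i ∈ I, b i) ^ 2 := by
  classical
  have h1 : ∀ i ∈ I, ∀ i' ∈ I, b i * b i' * Real.exp (-(W ^ 2 * (lam i - lam i') ^ 2 / 2)) ≤
      (if |lam i - lam i'| ≤ Δ₀ then (b i ^ 2 + b i' ^ 2) / 2 else 0) +
        Real.exp (-(W ^ 2 * Δ₀ ^ 2 / 2)) * (b i * b i') := by
    intro i hi i' hi'
    have hbi := hb i hi
    have hbi' := hb i' hi'
    split_ifs with h
    · have h2 : Real.exp (-(W ^ 2 * (lam i - lam i') ^ 2 / 2)) ≤ 1 := by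
        apply Real.exp_le_one_iff.2
        have : 0 ≤ W ^ 2 * (lam i - lam i') ^ 2 / 2 := by positivity
        linarith
      have h3 : b i * b i' * Real.exp (-(W ^ 2 * (lam i - lam i') ^ 2 / 2)) ≤ b i * b i' :=
        mul_le_of_le_one_right (by positivity) h2
      have h4 : b i * b i' ≤ (b i ^ 2 + b i' ^ 2) / 2 := by nlinarith [sq_nonneg (b i - b i')]
      have h5 : 0 ≤ Real.exp (-(W ^ 2 * Δ₀ ^ 2 / 2)) * (b i * b i') := by positivity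
      linarith
    · rw [zero_add, mul_comm]
      apply mul_le_mul_of_nonneg_right _ (by positivity)
      apply Real.exp_le_exp.2
      have h2 : Δ₀ ^ 2 ≤ (lam i - lam i') ^ 2 := by
        rw [← sq_abs (lam i - lam i')]
        exact pow_le_pow_left₀ hΔ (not_le.1 h).le 2
      nlinarith [mul_le_mul_of_nonneg_left h2 (sq_nonneg W)]
  unfold dbl
  refine (sum_le_sum fun i hi => sum_le_sum fun i' hi' => h1 i hi i' hi').trans ?_
  simp_rw [sum_add_distrib]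
  have e1 : ∑ i ∈ I, ∑ i' ∈ I, Real.exp (-(W ^ 2 * Δ₀ ^ 2 / 2)) * (b i * b i') =
      Real.exp (-(W ^ 2 * Δ₀ ^ 2 / 2)) * (∑ i ∈ I, b i) ^ 2 := by
    have e2 : (∑ i ∈ I, b i) ^ 2 = ∑ i ∈ I, ∑ i' ∈ I, b i * b i' := by
      rw [pow_two, sum_mul_sum]
    rw [e2, mul_sum]
    simp_rw [mul_sum]
  rw [e1]
  apply add_le_add_left
  have e2 : ∀ i ∈ I, ∀ i' ∈ I, (if |lam i - lam i'| ≤ Δ₀ then (b i ^ 2 + b i' ^ 2) / 2 else 0) =
      (if |lam i - lam i'| ≤ Δ₀ then b i ^ 2 / 2 else 0) +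
      (if |lam i - lam i'| ≤ Δ₀ then b i' ^ 2 / 2 else 0) := by
    intro i _ i' _
    split_ifs <;> ring
  rw [sum_congr rfl fun i hi => sum_congr rfl fun i' hi' => e2 i hi i' hi']
  simp_rw [sum_add_distrib]
  have h6 : ∀ i ∈ I, ∑ i' ∈ I, (if |lam i - lam i'| ≤ Δ₀ then b i ^ 2 / 2 else 0) ≤
      R * (b i ^ 2 / 2) := by
    intro i hi
    rw [← sum_filter, sum_const, nsmul_eq_mul]
    exact mul_le_mul_of_nonneg_right (hR i hi) (by positivity)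
  have e3 : ∑ i ∈ I, ∑ i' ∈ I, (if |lam i - lam i'| ≤ Δ₀ then b i' ^ 2 / 2 else 0) =
      ∑ i' ∈ I, ∑ i ∈ I, (if |lam i' - lam i| ≤ Δ₀ then b i' ^ 2 / 2 else 0) := by
    rw [sum_comm]
    apply sum_congr rfl
    intro i _
    apply sum_congr rfl
    intro i' _
    rw [abs_sub_comm]
  rw [e3]
  calc ∑ i ∈ I, ∑ i' ∈ I, (if |lam i - lam i'| ≤ Δ₀ then b i ^ 2 / 2 else 0) +
        ∑ i' ∈ I, ∑ i ∈ I, (if |lam i' - lam i| ≤ Δ₀ then b i' ^ 2 / 2 else 0)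
      ≤ ∑ i ∈ I, R * (b i ^ 2 / 2) + ∑ i ∈ I, R * (b i ^ 2 / 2) :=
        add_le_add (sum_le_sum h6) (sum_le_sum h6)
    _ = R * ∑ i ∈ I, b i ^ 2 := by
        rw [← sum_add_distrib, mul_sum]
        apply sum_congr rfl
        intro i _
        ring

/-- near products have near logarithms -/
theorem near_diff {y1 y2 y3 y4 δ Y0 Y1 Δ₀ : ℝ} (hY0 : 0 < Y0) (hδ : 0 ≤ δ) (hδ1 : δ ≤ Y1)
    (h1 : Y0 ≤ y1) (h2 : Y0 ≤ y2) (h3 : Y0 ≤ y3) (h4 : Y0 ≤ y4)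
    (k1 : y1 ≤ Y1) (k2 : y2 ≤ Y1) (k3 : y3 ≤ Y1) (k4 : y4 ≤ Y1) (hΔ : Δ₀ ≤ 1 / 4)
    (h : |(Real.log (y1 ^ 2 + δ ^ 2) + Real.log (y2 ^ 2 + δ ^ 2)) -
      (Real.log (y3 ^ 2 + δ ^ 2) + Real.log (y4 ^ 2 + δ ^ 2))| ≤ 2 * Δ₀) :
    |y1 * y2 - y3 * y4| ≤ (8 * Δ₀ * Y1 ^ 4 + δ ^ 2 * Y1 ^ 2) / Y0 ^ 2 := by
  have hY1 : 0 < Y1 := by linarith
  set A := (y1 ^ 2 + δ ^ 2) * (y2 ^ 2 + δ ^ 2) with hA
  set B := (y3 ^ 2 + δ ^ 2) * (y4 ^ 2 + δ ^ 2) with hB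
  have hy1 : 0 < y1 := by linarith
  have hy2 : 0 < y2 := by linarith
  have hy3 : 0 < y3 := by linarith
  have hy4 : 0 < y4 := by linarith
  have hA0 : 0 < A := by positivity
  have hB0 : 0 < B := by positivity
  have e1 : (Real.log (y1 ^ 2 + δ ^ 2) + Real.log (y2 ^ 2 + δ ^ 2)) -
      (Real.log (y3 ^ 2 + δ ^ 2) + Real.log (y4 ^ 2 + δ ^ 2)) = Real.log (A / B) := by
    rw [Real.log_div hA0.ne' hB0.ne', hA, hB, Real.log_mul (by positivity) (by positivity),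
      Real.log_mul (by positivity) (by positivity)]
  rw [e1] at h
  set u := Real.log (A / B) with hu
  have hu1 : |u| ≤ 1 := by linarith
  have e2 : A = B * Real.exp u := by
    rw [hu, Real.exp_log (by positivity)]
    field_simp
  have h5 : |Real.exp u - 1| ≤ 2 * |u| := by
    exact Real.abs_exp_sub_one_le hu1
  have h6 : |A - B| ≤ 4 * Δ₀ * B := by
    rw [e2, show B * Real.exp u - B = B * (Real.exp u - 1) by ring, abs_mul, abs_of_pos hB0]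
    nlinarith
  have hsq : ∀ y, 0 < y → y ≤ Y1 → y ^ 2 ≤ Y1 ^ 2 := fun y hy hy1 => pow_le_pow_left₀ hy.le hy1 2
  have hδ2 : δ ^ 2 ≤ Y1 ^ 2 := pow_le_pow_left₀ hδ hδ1 2
  have h7 : B ≤ 4 * Y1 ^ 4 := by
    calc B ≤ (Y1 ^ 2 + Y1 ^ 2) * (Y1 ^ 2 + Y1 ^ 2) := by
          apply mul_le_mul
          · linarith [hsq y3 hy3 k3]
          · linarith [hsq y4 hy4 k4]
          · positivity
          · positivity
      _ = 4 * Y1 ^ 4 := by ring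
  have hΔ0 : 0 ≤ Δ₀ := by
    have := (abs_nonneg u).trans h
    linarith
  have h8 : (y1 * y2) ^ 2 - (y3 * y4) ^ 2 = (A - B) + δ ^ 2 * (y3 ^ 2 + y4 ^ 2 - y1 ^ 2 - y2 ^ 2) := by
    rw [hA, hB]; ring
  have h9 : |y3 ^ 2 + y4 ^ 2 - y1 ^ 2 - y2 ^ 2| ≤ 2 * Y1 ^ 2 := by
    have a1 := hsq y1 hy1 k1
    have a2 := hsq y2 hy2 k2
    have a3 := hsq y3 hy3 k3
    have a4 := hsq y4 hy4 k4
    have b1 := sq_nonneg y1
    have b2 := sq_nonneg y2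
    have b3 := sq_nonneg y3
    have b4 := sq_nonneg y4
    rw [abs_le]
    constructor <;> linarith
  have h10 : |(y1 * y2) ^ 2 - (y3 * y4) ^ 2| ≤ 16 * Δ₀ * Y1 ^ 4 + 2 * δ ^ 2 * Y1 ^ 2 := by
    rw [h8]
    calc |(A - B) + δ ^ 2 * (y3 ^ 2 + y4 ^ 2 - y1 ^ 2 - y2 ^ 2)|
        ≤ |A - B| + |δ ^ 2 * (y3 ^ 2 + y4 ^ 2 - y1 ^ 2 - y2 ^ 2)| := abs_add_le _ _
      _ ≤ 4 * Δ₀ * (4 * Y1 ^ 4) + δ ^ 2 * (2 * Y1 ^ 2) := by
          apply add_le_add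
          · exact h6.trans (mul_le_mul_of_nonneg_left h7 (by positivity))
          · rw [abs_mul, abs_of_nonneg (sq_nonneg δ)]
            exact mul_le_mul_of_nonneg_left h9 (sq_nonneg δ)
      _ = _ := by ring
  have h11 : 2 * Y0 ^ 2 ≤ y1 * y2 + y3 * y4 := by
    have a1 : Y0 * Y0 ≤ y1 * y2 := mul_le_mul h1 h2 hY0.le hy1.le
    have a2 : Y0 * Y0 ≤ y3 * y4 := mul_le_mul h3 h4 hY0.le hy3.le
    nlinarith
  have h12 : |y1 * y2 - y3 * y4| * (y1 * y2 + y3 * y4) = |(y1 * y2) ^ 2 - (y3 * y4) ^ 2| := by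
    rw [show (y1 * y2) ^ 2 - (y3 * y4) ^ 2 = (y1 * y2 - y3 * y4) * (y1 * y2 + y3 * y4) by ring,
      abs_mul, abs_of_pos (by positivity : 0 < y1 * y2 + y3 * y4)]
  rw [le_div_iff₀ (by positivity)]
  have h13 : |y1 * y2 - y3 * y4| * (2 * Y0 ^ 2) ≤ 16 * Δ₀ * Y1 ^ 4 + 2 * δ ^ 2 * Y1 ^ 2 := by
    calc |y1 * y2 - y3 * y4| * (2 * Y0 ^ 2) ≤ |y1 * y2 - y3 * y4| * (y1 * y2 + y3 * y4) :=
          mul_le_mul_of_nonneg_left h11 (abs_nonneg _)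
      _ ≤ _ := by rw [h12]; exact h10
  linarith

/-- the number of factorizations in a short interval -/
theorem cnt_int {ι : Type*} (J : Finset ι) (x : ι → ℕ) (hinj : ∀ i ∈ J, ∀ j ∈ J, x i = x j → i = j)
    (h1 : ∀ i ∈ J, 1 ≤ x i) (D : ℝ) (hD0 : 0 ≤ D) (L : ℕ) (hL : ∀ i ∈ J, x i ≤ L)
    (hD : ∀ n : ℕ, 1 ≤ n → n ≤ L ^ 2 → (n.divisors.card : ℝ) ≤ D) (P Δ : ℝ) (hΔ : 0 ≤ Δ) :
    (((J ×ˢ J).filter fun p => |(x p.1 : ℝ) * x p.2 - P| ≤ Δ).card : ℝ) ≤ (2 * Δ + 1) * D := by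
  classical
  set S := (J ×ˢ J).filter fun p => |(x p.1 : ℝ) * x p.2 - P| ≤ Δ with hS
  set f : ι × ι → ℕ := fun p => x p.1 * x p.2 with hf
  have hmem : ∀ p ∈ S, (p.1 ∈ J ∧ p.2 ∈ J) ∧ |(x p.1 : ℝ) * x p.2 - P| ≤ Δ := by
    intro p hp
    rw [hS, mem_filter, mem_product] at hp
    exact hp
  have hfib : ∀ n ∈ S.image f, ((S.filter fun p => f p = n).card : ℝ) ≤ D := by
    intro n hn
    obtain ⟨p, hp, hpn⟩ := mem_image.1 hn
    obtain ⟨⟨hp1, hp2⟩, _⟩ := hmem p hp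
    have hn1 : 1 ≤ n := by
      rw [← hpn]
      exact Nat.mul_pos (h1 _ hp1) (h1 _ hp2)
    have hn2 : n ≤ L ^ 2 := by
      rw [← hpn, sq]
      exact Nat.mul_le_mul (hL _ hp1) (hL _ hp2)
    refine le_trans ?_ (hD n hn1 hn2)
    have : (S.filter fun p => f p = n).card ≤ n.divisors.card := by
      apply card_le_card_of_injOn (fun p => x p.1)
      · intro p hp
        simp only [coe_filter, Set.mem_ofPred_eq] at hp
        simp only [mem_coe, Nat.mem_divisors]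
        exact ⟨⟨x p.2, hp.2.symm⟩, by omega⟩
      · intro p hp p' hp' h
        simp only [coe_filter, Set.mem_ofPred_eq] at hp hp'
        obtain ⟨⟨a1, a2⟩, _⟩ := hmem p hp.1
        obtain ⟨⟨b1, b2⟩, _⟩ := hmem p' hp'.1
        have h2 : x p.1 = x p'.1 := h
        have h3 : x p.1 * x p.2 = x p.1 * x p'.2 := by
          have e1 : x p.1 * x p.2 = n := hp.2
          have e2 : x p'.1 * x p'.2 = n := hp'.2
          rw [e1, h2, e2]
        have h4 : x p.2 = x p'.2 := Nat.eq_of_mul_eq_mul_left (h1 _ a1) h3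
        exact Prod.ext (hinj _ a1 _ b1 h2) (hinj _ a2 _ b2 h4)
    exact_mod_cast this
  have himg : ((S.image f).card : ℝ) ≤ 2 * Δ + 1 := by
    rcases (S.image f).eq_empty_or_nonempty with he | he
    · rw [he]; simp; linarith
    · have hsub : S.image f ⊆ Icc ⌈P - Δ⌉₊ ⌊P + Δ⌋₊ := by
        intro n hn
        obtain ⟨p, hp, hpn⟩ := mem_image.1 hn
        obtain ⟨_, h2⟩ := hmem p hp
        have e : (n : ℝ) = (x p.1 : ℝ) * x p.2 := by rw [← hpn, hf]; push_cast; ring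
        rw [← e] at h2
        rw [mem_Icc]
        constructor
        · apply Nat.ceil_le.2
          linarith [(abs_le.1 h2).1]
        · apply Nat.le_floor
          linarith [(abs_le.1 h2).2]
      obtain ⟨n, hn⟩ := he
      have hn' := mem_Icc.1 (hsub hn)
      have h5 : 0 ≤ P + Δ := by
        obtain ⟨p, hp, hpn⟩ := mem_image.1 hn
        obtain ⟨_, h2⟩ := hmem p hp
        have : 0 ≤ (x p.1 : ℝ) * x p.2 := by positivity
        linarith [(abs_le.1 h2).2]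
      have h6 : (S.image f).card ≤ ⌊P + Δ⌋₊ + 1 - ⌈P - Δ⌉₊ := by
        have := card_le_card hsub
        rwa [Nat.card_Icc] at this
      have h7 : ⌈P - Δ⌉₊ ≤ ⌊P + Δ⌋₊ + 1 := by omega
      calc ((S.image f).card : ℝ) ≤ ((⌊P + Δ⌋₊ + 1 - ⌈P - Δ⌉₊ : ℕ) : ℝ) := by exact_mod_cast h6
        _ = (⌊P + Δ⌋₊ : ℝ) + 1 - (⌈P - Δ⌉₊ : ℝ) := by rw [Nat.cast_sub h7]; push_cast; ring
        _ ≤ (P + Δ) + 1 - (P - Δ) := by
            have a1 := Nat.floor_le h5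
            have a2 := Nat.le_ceil (P - Δ)
            linarith
        _ = 2 * Δ + 1 := by ring
  have hcard := card_eq_sum_card_image f S
  calc (S.card : ℝ) = ∑ n ∈ S.image f, ((S.filter fun p => f p = n).card : ℝ) := by
        rw [hcard]; push_cast; rfl
    _ ≤ ∑ n ∈ S.image f, D := sum_le_sum hfib
    _ = (S.image f).card * D := by rw [sum_const, nsmul_eq_mul]
    _ ≤ (2 * Δ + 1) * D := mul_le_mul_of_nonneg_right himg hD0

end Pool.Agent.KS6_54.ML
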