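import Pool.Agent.KS6_54.ML.MVO

set_option autoImplicit false

/-!
# The terms off the diagonal for the product of a smoothed sum and a short polynomial
-/

namespace Pool.Agent.KS6_54.ML

open Finset MeasureTheory Complex
open Pool.Agent.T6.H57.SM (gw cv cv_eval chi_l2 et eh eh_apply half_ne)
open Pool.Agent.TH806 (Ix TT MS fS SF chi fw fw_apply)
open Pool.Agent.Y755 (P1 es l1' l1'_nonneg)
open Pool.Agent.H448R2.GC (cu cu_nonneg cu_le_one cu_zero cu_anti)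

noncomputable section

/-- the convolution against an arbitrary function -/
lemma cv_sum (M : ℕ) (f : ℕ → ℂ) (B : P1) {M2 M3 : ℕ} (hB : ∀ m ∈ B.coeff.support, m ≠ 0 ∧ m ≤ M2)
    (hM : M * M2 ≤ M3) (φ : ℕ → ℂ) :
    ∑ n ∈ Icc 1 M3, cv M f B n * φ n = ∑ m ∈ B.coeff.support, (B.coeff m : ℂ) * ∑ h ∈ Icc 1 M, f h * φ (h * m) := by
  unfold cv
  simp_rw [sum_mul]
  rw [sum_comm (s := Icc 1 M3)]
  simp_rw [mul_sum]
  rw [sum_comm (s := B.coeff.support)]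
  refine sum_congr rfl fun h hh => ?_
  rw [sum_comm (s := Icc 1 M3)]
  refine sum_congr rfl fun m hm => ?_
  rw [mem_Icc] at hh
  obtain ⟨h1, h2⟩ := hB m hm
  have hmem : h * m ∈ Icc 1 M3 := by
    rw [mem_Icc]
    refine ⟨Nat.one_le_iff_ne_zero.mpr (Nat.mul_ne_zero (by omega) h1), ?_⟩
    exact (Nat.mul_le_mul hh.2 h2).trans hM
  rw [sum_eq_single (h * m)]
  · rw [if_pos rfl]; ring
  · intro n _ hn
    rw [if_neg hn.symm, zero_mul]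
  · intro h0; exact absurd hmem h0

lemma cv_conj (M : ℕ) (f : ℕ → ℂ) (B : P1) (n : ℕ) :
    (starRingEnd ℂ) (cv M f B n) = cv M (fun h => (starRingEnd ℂ) (f h)) B n := by
  unfold cv
  rw [map_sum]
  refine sum_congr rfl fun h _ => ?_
  rw [map_sum]
  refine sum_congr rfl fun m _ => ?_
  split_ifs
  · rw [map_mul, Complex.conj_ofReal]
  · rw [map_zero]

/-- the kernel off the diagonal -/
def ko (U H : ℝ) (m n : ℕ) : ℂ :=
  (m:ℂ) ^ (-(1 / 2) : ℂ) * (starRingEnd ℂ) ((n:ℂ) ^ (-(1 / 2) : ℂ)) *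
    (if m = n then 0 else Kx U H (Real.log n - Real.log m))

/-- the sum for two elements of the short polynomial -/
def TT2 (U H : ℝ) (M : ℕ) (f : ℕ → ℂ) (m n : ℕ) : ℂ :=
  ∑ h ∈ Icc 1 M, ∑ l ∈ Icc 1 M, f h * (starRingEnd ℂ) (f l) * ko U H (h * m) (l * n)

lemma Off_cv (U H : ℝ) (M : ℕ) (f : ℕ → ℂ) (B : P1) {M2 M3 : ℕ} (hB : ∀ m ∈ B.coeff.support, m ≠ 0 ∧ m ≤ M2)
    (hM : M * M2 ≤ M3) :
    Off U H M3 (fun n => cv M f B n * (n : ℂ) ^ (-(1 / 2) : ℂ)) =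
      ∑ m ∈ B.coeff.support, ∑ n ∈ B.coeff.support, (B.coeff m : ℂ) * (B.coeff n : ℂ) * TT2 U H M f m n := by
  unfold Off
  have e1 : ∀ m ∈ Icc 1 M3, ∑ n ∈ Icc 1 M3, (cv M f B m * (m : ℂ) ^ (-(1 / 2) : ℂ)) *
      (starRingEnd ℂ) (cv M f B n * (n : ℂ) ^ (-(1 / 2) : ℂ)) * (if m = n then 0 else Kx U H (Real.log n - Real.log m)) =
      cv M f B m * ∑ n ∈ Icc 1 M3, cv M (fun h => (starRingEnd ℂ) (f h)) B n * ko U H m n := by
    intro m _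
    rw [mul_sum]
    refine sum_congr rfl fun n _ => ?_
    rw [map_mul, cv_conj]
    unfold ko
    ring
  rw [sum_congr rfl e1]
  have e2 : ∀ m : ℕ, ∑ n ∈ Icc 1 M3, cv M (fun h => (starRingEnd ℂ) (f h)) B n * ko U H m n =
      ∑ n ∈ B.coeff.support, (B.coeff n : ℂ) * ∑ l ∈ Icc 1 M, (starRingEnd ℂ) (f l) * ko U H m (l * n) := fun m =>
    cv_sum M _ B hB hM _
  simp_rw [e2]
  rw [cv_sum M f B hB hM (fun m => ∑ n ∈ B.coeff.support, (B.coeff n : ℂ) *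
    ∑ l ∈ Icc 1 M, (starRingEnd ℂ) (f l) * ko U H m (l * n))]
  refine sum_congr rfl fun m _ => ?_
  unfold TT2
  simp_rw [mul_sum]
  rw [sum_comm (s := Icc 1 M)]
  refine sum_congr rfl fun n _ => ?_
  refine sum_congr rfl fun h _ => ?_
  refine sum_congr rfl fun l _ => ?_
  ring

lemma Off_bound (U H : ℝ) (M : ℕ) (f : ℕ → ℂ) (B : P1) {M2 M3 : ℕ} (hB : ∀ m ∈ B.coeff.support, m ≠ 0 ∧ m ≤ M2)
    (hM : M * M2 ≤ M3) {Δ : ℝ} (hΔ : ∀ m n, m ∈ B.coeff.support → n ∈ B.coeff.support → ‖TT2 U H M f m n‖ ≤ Δ) :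
    ‖Off U H M3 (fun n => cv M f B n * (n : ℂ) ^ (-(1 / 2) : ℂ))‖ ≤ Δ * l1' B ^ 2 := by
  rw [Off_cv U H M f B hB hM]
  have h1 : ∀ m ∈ B.coeff.support, ∀ n ∈ B.coeff.support,
      ‖(B.coeff m : ℂ) * (B.coeff n : ℂ) * TT2 U H M f m n‖ ≤ |B.coeff m| * |B.coeff n| * Δ := by
    intro m hm n hn
    rw [norm_mul, norm_mul, Complex.norm_real, Complex.norm_real, Real.norm_eq_abs, Real.norm_eq_abs]
    exact mul_le_mul_of_nonneg_left (hΔ m n hm hn) (by positivity)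
  refine (norm_sum_le _ _).trans ((sum_le_sum fun m hm => (norm_sum_le _ _).trans (sum_le_sum fun n hn => h1 m hm n hn)).trans
    (le_of_eq ?_))
  unfold l1'
  rw [sq, sum_mul_sum, mul_sum]
  refine sum_congr rfl fun m _ => ?_
  rw [mul_sum]
  refine sum_congr rfl fun n _ => ?_
  ring

/-- the mean value over a short interval -/
theorem mv_prod2 {N : ℕ} {H : ℝ} (hH : 0 < H) (U : ℝ) {M M2 M3 : ℕ} (f : ℕ → ℂ) (B : P1)
    (hB : ∀ m ∈ B.coeff.support, m ≠ 0 ∧ m ≤ M2) (hM : M * M2 ≤ M3) (hN : M3 < N) {Δ : ℝ}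
    (hΔ : ∀ m n, m ∈ B.coeff.support → n ∈ B.coeff.support → ‖TT2 U H M f m n‖ ≤ Δ) :
    ∫ t in U..(U + H), ‖∑ h ∈ Icc 1 M, f h * (h : ℂ) ^ (-(1 / 2 + (t:ℂ) * I))‖ ^ 2 * ‖es (1 / 2 + (t:ℂ) * I) B‖ ^ 2 ≤
      6 * H * (∫ θ, ‖∑ h ∈ Icc 1 M, f h * ((h : ℂ) ^ (-(1 / 2) : ℂ) * chi θ h)‖ ^ 2 * ‖et θ B‖ ^ 2 ∂(TT N)) +
      6 * H * (Δ * l1' B ^ 2) := by
  set d : ℕ → ℂ := fun n => cv M f B n * (n : ℂ) ^ (-(1 / 2) : ℂ) with hd
  have e1 : ∀ t : ℝ, ‖∑ h ∈ Icc 1 M, f h * (h : ℂ) ^ (-(1 / 2 + (t:ℂ) * I))‖ ^ 2 * ‖es (1 / 2 + (t:ℂ) * I) B‖ ^ 2 =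
      ‖∑ n ∈ Icc 1 M3, d n * cexp (-(I * Real.log n * t))‖ ^ 2 := by
    intro t
    have h1 := cv_eval M f B hB hM (Pool.Agent.Y755.hs (1 / 2 + (t:ℂ) * I))
    have h2 : eh (Pool.Agent.Y755.hs (1 / 2 + (t:ℂ) * I)) B = es (1 / 2 + (t:ℂ) * I) B := rfl
    rw [h2] at h1
    have h3 : ∑ h ∈ Icc 1 M, f h * Pool.Agent.Y755.hs (1 / 2 + (t:ℂ) * I) h =
      ∑ h ∈ Icc 1 M, f h * (h : ℂ) ^ (-(1 / 2 + (t:ℂ) * I)) := rfl
    rw [h3] at h1
    rw [← mul_pow, ← norm_mul, h1]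
    congr 2
    refine sum_congr rfl fun n hn => ?_
    rw [mem_Icc] at hn
    have hn0 : (n:ℂ) ≠ 0 := by exact_mod_cast (by omega : n ≠ 0)
    have h4 : Pool.Agent.Y755.hs (1 / 2 + (t:ℂ) * I) n = (n:ℂ) ^ (-(1 / 2 + (t:ℂ) * I)) := rfl
    rw [h4, hd]
    simp only
    rw [mul_assoc]
    congr 1
    rw [neg_add, Complex.cpow_add _ _ hn0]
    congr 1
    rw [Complex.cpow_def_of_ne_zero hn0, ← Complex.natCast_log]
    congr 1; ring
  have e2 : ∀ θ : Ix N → ℝ, ‖∑ h ∈ Icc 1 M, f h * ((h : ℂ) ^ (-(1 / 2) : ℂ) * chi θ h)‖ ^ 2 * ‖et θ B‖ ^ 2 =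
      ‖∑ n ∈ Icc 1 M3, d n * chi θ n‖ ^ 2 := by
    intro θ
    have h1 := cv_eval M f B hB hM (fw half_ne θ)
    rw [← mul_pow, ← norm_mul]
    have h2 : (∑ h ∈ Icc 1 M, f h * ((h : ℂ) ^ (-(1 / 2) : ℂ) * chi θ h)) * et θ B =
        (∑ h ∈ Icc 1 M, f h * fw half_ne θ h) * eh (fw half_ne θ) B := rfl
    rw [h2, h1]
    congr 2
    refine sum_congr rfl fun n _ => ?_
    rw [hd, fw_apply]; ring
  simp_rw [e1, e2]
  rw [chi_l2 (fun n hn => by rw [mem_Icc] at hn; exact ⟨by omega, by omega⟩) d]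
  have h1 := mv0 hH U M3 d
  have h2 := Off_bound U H M f B hB hM hΔ
  calc _ ≤ 6 * H * (∑ n ∈ Icc 1 M3, ‖d n‖ ^ 2 + ‖Off U H M3 d‖) := h1
    _ ≤ 6 * H * (∑ n ∈ Icc 1 M3, ‖d n‖ ^ 2 + Δ * l1' B ^ 2) := by
        refine mul_le_mul_of_nonneg_left (add_le_add le_rfl h2) (by positivity)
    _ = _ := by ring

/-- the real coefficients -/
def gS (k : ℕ) (c D ρ : ℝ) (n : ℕ) : ℝ := cu k c (Real.log n - D) * (n:ℝ) ^ (-(1 / 2 + ρ))

lemma gS_Gw {k : ℕ} {c D ρ : ℝ} (hc : 0 < c) (hρ : 0 ≤ ρ) : Gw (gS k c D ρ) (MS k c D) where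
  nn n := mul_nonneg (cu_nonneg k c _ hc) (by positivity)
  anti m n hm hmn := by
    unfold gS
    have hm' : (0:ℝ) < m := by exact_mod_cast hm
    have hmn' : (m:ℝ) ≤ n := by exact_mod_cast hmn
    refine mul_le_mul (cu_anti k c hc ?_) (Real.rpow_le_rpow_of_nonpos hm' hmn' (by linarith)) (by positivity)
      (cu_nonneg k c _ hc)
    have := Real.log_le_log hm' hmn'
    linarith
  le n hn := by
    unfold gS
    have hn' : (1:ℝ) ≤ n := by exact_mod_cast hn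
    have h1 : (n:ℝ) ^ (-(1 / 2 + ρ)) ≤ (n:ℝ) ^ (-(1 / 2 : ℝ)) :=
      Real.rpow_le_rpow_of_exponent_le hn' (by linarith)
    have h2 : (n:ℝ) ^ (-(1 / 2 : ℝ)) = 1 / Real.sqrt n := by
      rw [Real.rpow_neg (by linarith), Real.sqrt_eq_rpow, ← one_div]
    calc _ ≤ 1 * (n:ℝ) ^ (-(1 / 2 : ℝ)) := mul_le_mul (cu_le_one k c _ hc) h1 (by positivity) zero_le_one
      _ = _ := by rw [one_mul, h2]
  z n hn := by
    unfold gS
    rw [cu_zero k c _ hc, zero_mul]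
    unfold MS at hn
    have h1 := Nat.lt_of_floor_lt hn
    have h2 := Real.log_lt_log (Real.exp_pos _) h1
    rw [Real.log_exp] at h2
    linarith

lemma Kx_conj (V H l : ℝ) : Kx V H (-l) = (starRingEnd ℂ) (Kx V H l) := by
  unfold Kx
  rw [map_mul, Complex.conj_ofReal, ← Complex.exp_conj, map_mul, Complex.conj_ofReal, Complex.conj_I]
  congr 2
  · congr 1; ring
  · push_cast; ring

lemma Kx_shift (U y' H l : ℝ) : Kx (U + y') H l = Kx U H l * cexp (((y' * l : ℝ) : ℂ) * I) := by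
  unfold Kx
  rw [mul_assoc, ← Complex.exp_add]
  congr 2
  push_cast; ring

lemma cpow_exp {n : ℕ} (hn : n ≠ 0) (z : ℂ) : (n:ℂ) ^ z = cexp ((Real.log n : ℝ) * z) := by
  have hn0 : (n:ℂ) ≠ 0 := by exact_mod_cast hn
  rw [Complex.cpow_def_of_ne_zero hn0, ← Complex.natCast_log]

/-- the terms for the smoothed sums -/
lemma TT2_term (k : ℕ) (c D ρ y' U H : ℝ) {m n h l : ℕ} (hm : m ≠ 0) (hn : n ≠ 0) (hh : h ≠ 0) (hl : l ≠ 0) :
    fS k c D (((1 / 2 + ρ : ℝ) : ℂ) + (y' : ℂ) * I) h *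
      (starRingEnd ℂ) (fS k c D (((1 / 2 + ρ : ℝ) : ℂ) + (y' : ℂ) * I) l) * ko U H (h * m) (l * n) =
    (cexp (((y' * (Real.log m - Real.log n) : ℝ) : ℂ) * I) * ((Real.exp (-(1 / 2) * (Real.log m + Real.log n)) : ℝ) : ℂ)) *
      (((gS k c D ρ h * gS k c D ρ l : ℝ) : ℂ) *
        (if h * m = l * n then 0 else Kx (U + y') H (Real.log ((l * n : ℕ) : ℝ) - Real.log ((h * m : ℕ) : ℝ)))) := by
  unfold ko fS gS
  split_ifs with heq
  · simp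
  have hm' : (m:ℝ) ≠ 0 := by exact_mod_cast hm
  have hn' : (n:ℝ) ≠ 0 := by exact_mod_cast hn
  have hh' : (h:ℝ) ≠ 0 := by exact_mod_cast hh
  have hl' : (l:ℝ) ≠ 0 := by exact_mod_cast hl
  have L1 : Real.log ((h * m : ℕ) : ℝ) = Real.log h + Real.log m := by
    push_cast; exact Real.log_mul hh' hm'
  have L2 : Real.log ((l * n : ℕ) : ℝ) = Real.log l + Real.log n := by
    push_cast; exact Real.log_mul hl' hn'
  rw [Kx_shift, map_mul, Complex.conj_ofReal, cpow_exp hh, cpow_exp hl, cpow_exp (Nat.mul_ne_zero hh hm),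
    cpow_exp (Nat.mul_ne_zero hl hn), ← Complex.exp_conj, ← Complex.exp_conj, L1, L2]
  have hh0 : (0:ℝ) < h := lt_of_le_of_ne (Nat.cast_nonneg h) (Ne.symm hh')
  have hl0 : (0:ℝ) < l := lt_of_le_of_ne (Nat.cast_nonneg l) (Ne.symm hl')
  rw [Real.rpow_def_of_pos hh0, Real.rpow_def_of_pos hl0]
  set A := Real.log h
  set B := Real.log l
  set C := Real.log m
  set E := Real.log n
  set K := Kx U H (B + E - (A + C))
  set u := cu k c (A - D)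
  set v := cu k c (B - D)
  have key : cexp ((A:ℂ) * -(((1 / 2 + ρ : ℝ) : ℂ) + (y' : ℂ) * I - 1 / 2)) *
      cexp ((starRingEnd ℂ) ((B:ℂ) * -(((1 / 2 + ρ : ℝ) : ℂ) + (y' : ℂ) * I - 1 / 2))) *
      (cexp (((A + C : ℝ) : ℂ) * (-(1 / 2))) * cexp ((starRingEnd ℂ) (((B + E : ℝ) : ℂ) * (-(1 / 2))))) =
      cexp (((y' * (C - E) : ℝ) : ℂ) * I) * ((Real.exp (-(1 / 2) * (C + E)) : ℝ) : ℂ) *
        (((Real.exp (A * -(1 / 2 + ρ)) : ℝ) : ℂ) * ((Real.exp (B * -(1 / 2 + ρ)) : ℝ) : ℂ)) *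
        cexp (((y' * (B + E - (A + C)) : ℝ) : ℂ) * I) := by
    simp only [Complex.ofReal_exp, ← Complex.exp_add]
    congr 1
    simp only [map_mul, map_neg, map_add, map_sub, Complex.conj_ofReal, Complex.conj_I, map_div₀, map_one, map_ofNat]
    push_cast
    ring
  calc _ = (u * v) * (cexp ((A:ℂ) * -(((1 / 2 + ρ : ℝ) : ℂ) + (y' : ℂ) * I - 1 / 2)) *
      cexp ((starRingEnd ℂ) ((B:ℂ) * -(((1 / 2 + ρ : ℝ) : ℂ) + (y' : ℂ) * I - 1 / 2))) *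
      (cexp (((A + C : ℝ) : ℂ) * (-(1 / 2))) * cexp ((starRingEnd ℂ) (((B + E : ℝ) : ℂ) * (-(1 / 2)))))) * K := by ring
    _ = _ := by
        rw [key]
        push_cast
        ring

/-- the sum in terms of `SP` -/
lemma TT2_eq (k : ℕ) {c : ℝ} (D ρ y' U H : ℝ) {m n : ℕ} (hm : m ≠ 0) (hn : n ≠ 0) (M : ℕ) :
    TT2 U H M (fS k c D (((1 / 2 + ρ : ℝ) : ℂ) + (y' : ℂ) * I)) m n =
    (cexp (((y' * (Real.log m - Real.log n) : ℝ) : ℂ) * I) * ((Real.exp (-(1 / 2) * (Real.log m + Real.log n)) : ℝ) : ℂ)) *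
      (SP (gS k c D ρ) (U + y') H M m n + (starRingEnd ℂ) (SP (gS k c D ρ) (U + y') H M n m)) := by
  have e1 : TT2 U H M (fS k c D (((1 / 2 + ρ : ℝ) : ℂ) + (y' : ℂ) * I)) m n =
      (cexp (((y' * (Real.log m - Real.log n) : ℝ) : ℂ) * I) * ((Real.exp (-(1 / 2) * (Real.log m + Real.log n)) : ℝ) : ℂ)) *
      ∑ h ∈ Icc 1 M, ∑ l ∈ Icc 1 M, (((gS k c D ρ h * gS k c D ρ l : ℝ) : ℂ) *
        (if h * m = l * n then 0 else Kx (U + y') H (Real.log ((l * n : ℕ) : ℝ) - Real.log ((h * m : ℕ) : ℝ)))) := by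
    unfold TT2
    rw [mul_sum]
    refine sum_congr rfl fun h hh => ?_
    rw [mul_sum]
    refine sum_congr rfl fun l hl => ?_
    rw [mem_Icc] at hh hl
    exact TT2_term k c D ρ y' U H hm hn (by omega) (by omega)
  rw [e1]
  congr 1
  have e2 : (starRingEnd ℂ) (SP (gS k c D ρ) (U + y') H M n m) = ∑ h ∈ Icc 1 M, ∑ l ∈ Icc 1 M,
      if n * l < m * h then ((gS k c D ρ h * gS k c D ρ l : ℝ) : ℂ) *
        Kx (U + y') H (Real.log ((l * n : ℕ) : ℝ) - Real.log ((h * m : ℕ) : ℝ)) else 0 := by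
    unfold SP
    rw [map_sum]
    have e3 : ∀ l : ℕ, (starRingEnd ℂ) (∑ h ∈ Icc 1 M, if n * l < m * h then
        ((gS k c D ρ l * gS k c D ρ h : ℝ) : ℂ) * Kx (U + y') H (Real.log ((m * h : ℕ) : ℝ) - Real.log ((n * l : ℕ) : ℝ))
        else 0) = ∑ h ∈ Icc 1 M, if n * l < m * h then ((gS k c D ρ h * gS k c D ρ l : ℝ) : ℂ) *
        Kx (U + y') H (Real.log ((l * n : ℕ) : ℝ) - Real.log ((h * m : ℕ) : ℝ)) else 0 := by
      intro l
      rw [map_sum]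
      refine sum_congr rfl fun h _ => ?_
      split_ifs
      · rw [map_mul, Complex.conj_ofReal, ← Kx_conj, mul_comm (gS k c D ρ l), mul_comm l n, mul_comm h m, neg_sub]
      · rw [map_zero]
    simp_rw [e3]
    rw [sum_comm]
  rw [e2]
  unfold SP
  rw [← sum_add_distrib]
  refine sum_congr rfl fun h _ => ?_
  rw [← sum_add_distrib]
  refine sum_congr rfl fun l _ => ?_
  have c1 : m * h = h * m := mul_comm _ _
  have c2 : n * l = l * n := mul_comm _ _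
  rw [c1, c2]
  rcases lt_trichotomy (h * m) (l * n) with hlt | heq | hgt
  · rw [if_neg hlt.ne, if_pos hlt, if_neg (by omega), add_zero]
  · rw [if_pos heq, if_neg (by omega), if_neg (by omega)]; simp
  · rw [if_neg hgt.ne', if_neg (by omega), if_pos hgt, zero_add]

lemma TT2_bound (k : ℕ) {c : ℝ} (D ρ y' U H : ℝ) {m n : ℕ} (hm : m ≠ 0) (hn : n ≠ 0) (M : ℕ) {Δ : ℝ}
    (h1 : ‖SP (gS k c D ρ) (U + y') H M m n‖ ≤ Δ) (h2 : ‖SP (gS k c D ρ) (U + y') H M n m‖ ≤ Δ) :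
    ‖TT2 U H M (fS k c D (((1 / 2 + ρ : ℝ) : ℂ) + (y' : ℂ) * I)) m n‖ ≤ 2 * Δ := by
  rw [TT2_eq k D ρ y' U H hm hn M, norm_mul, norm_mul, Complex.norm_exp_ofReal_mul_I, one_mul, Complex.norm_real,
    Real.norm_of_nonneg (Real.exp_pos _).le]
  have h3 : Real.exp (-(1 / 2) * (Real.log m + Real.log n)) ≤ 1 := by
    rw [Real.exp_le_one_iff]
    have a1 : 0 ≤ Real.log m := Real.log_nonneg (by exact_mod_cast Nat.one_le_iff_ne_zero.mpr hm)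
    have a2 : 0 ≤ Real.log n := Real.log_nonneg (by exact_mod_cast Nat.one_le_iff_ne_zero.mpr hn)
    linarith
  have h4 : ‖SP (gS k c D ρ) (U + y') H M m n + (starRingEnd ℂ) (SP (gS k c D ρ) (U + y') H M n m)‖ ≤ 2 * Δ := by
    refine (norm_add_le _ _).trans ?_
    rw [Complex.norm_conj]
    linarith
  calc _ ≤ 1 * (2 * Δ) := mul_le_mul h3 h4 (norm_nonneg _) zero_le_one
    _ = _ := one_mul _

end

end Pool.Agent.KS6_54.ML
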