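import Mathlib

set_option autoImplicit false

/-!
# The size of the terms off the diagonal
-/

namespace Pool.Agent.KS6_54.ML

open Filter

/-- the bound of the sum over the pairs -/
noncomputable def Dl (M : ℕ) (V H Y τ : ℝ) : ℝ :=
  ((Nat.log 2 M : ℝ) + 1) * (1600000 * Y ^ 3 * (τ / H) *
      (Real.sqrt (8 * V * τ / H) + Y * (M * Real.sqrt (M / V)))) + 2 * Y * M ^ 2 * Real.exp (-τ ^ 2)

lemma Dl_nonneg {M : ℕ} {V H Y τ : ℝ} (hH : 0 < H) (hY : 0 ≤ Y) (hτ : 0 ≤ τ) : 0 ≤ Dl M V H Y τ := by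
  unfold Dl
  positivity

lemma log_pow_small {s : ℝ} (hs : 0 < s) (C : ℝ) : ∀ᶠ T : ℝ in atTop, C * Real.log T ^ 3 ≤ T ^ s := by
  have h1 := isLittleO_log_rpow_rpow_atTop (s := s) 3 hs
  have h2 := h1.def (c := 1 / (|C| + 1)) (by positivity)
  filter_upwards [h2, eventually_ge_atTop 1] with T h3 h4
  have hL : 0 ≤ Real.log T := Real.log_nonneg h4
  have hT0 : 0 < T := by linarith
  rw [Real.norm_of_nonneg (by positivity), Real.norm_of_nonneg (by positivity)] at h3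
  have e : Real.log T ^ (3:ℝ) = Real.log T ^ 3 := by
    rw [← Real.rpow_natCast]; norm_num
  rw [e] at h3
  have hC : C ≤ |C| + 1 := by have := le_abs_self C; linarith
  have hp : 0 < |C| + 1 := by positivity
  calc C * Real.log T ^ 3 ≤ (|C| + 1) * Real.log T ^ 3 := by gcongr
    _ ≤ (|C| + 1) * (1 / (|C| + 1) * T ^ s) := by gcongr
    _ = T ^ s := by field_simp

/-- the terms off the diagonal are small -/
lemma off_ev {e : ℝ} (he : 0 < e) (he1 : e ≤ 1 / 100) : ∀ᶠ T : ℝ in atTop, ∀ (M : ℕ) (V H Y : ℝ), 1 ≤ M →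
    (M:ℝ) ≤ T ^ (1 / 2 + 2 * e) → T / 16 ≤ V → V ≤ 9 * T → T ^ (1 / 3 + 3 * e) ≤ H → 0 < Y → Y ≤ T ^ (e / 2) →
    8 * Real.log T ≤ H ∧ 4 * Real.log T * Y ^ 2 ≤ H ∧ 2 * Dl M V H Y (Real.log T) * T ^ e ≤ 1 := by
  filter_upwards [eventually_ge_atTop 16, Real.tendsto_log_atTop.eventually_ge_atTop 4,
    log_pow_small (s := 2 * e) (by positivity) (2 * (2 * 63000000)), log_pow_small (s := 1 / 3) (by norm_num) 8]
    with T hT hL hs1 hs2 M V H Y hM1 hM hV1 hV2 hH hY0 hY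
  have hT0 : 0 < T := by linarith
  have hT1 : 1 ≤ T := by linarith
  set L := Real.log T with hLd
  have hL0 : 0 < L := by linarith
  have hM' : (1:ℝ) ≤ M := by exact_mod_cast hM1
  have hL3 : L ≤ L ^ 3 := by nlinarith [sq_nonneg L, mul_pos hL0 hL0]
  have hHp : 0 < H := lt_of_lt_of_le (by positivity) hH
  have hVp : 0 < V := by linarith
  have hmono : ∀ {p q : ℝ}, p ≤ q → T ^ p ≤ T ^ q := fun h => Real.rpow_le_rpow_of_exponent_le hT1 h
  have hY2 : Y ^ 2 ≤ T ^ e := by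
    have := pow_le_pow_left₀ hY0.le hY 2
    rw [← Real.rpow_natCast (T ^ (e / 2)), ← Real.rpow_mul hT0.le] at this
    refine this.trans (le_of_eq ?_)
    congr 1; push_cast; ring
  have hY3 : Y ^ 3 ≤ T ^ (3 / 2 * e) := by
    have := pow_le_pow_left₀ hY0.le hY 3
    rw [← Real.rpow_natCast (T ^ (e / 2)), ← Real.rpow_mul hT0.le] at this
    refine this.trans (le_of_eq ?_)
    congr 1; push_cast; ring
  have h8L : 8 * L ≤ T ^ ((1:ℝ) / 3) := by linarith
  refine ⟨h8L.trans ((hmono (by linarith)).trans hH), ?_, ?_⟩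
  · have h1 : 4 * L * Y ^ 2 ≤ T ^ ((1:ℝ) / 3) * T ^ e := mul_le_mul (by linarith) hY2 (by positivity) (by positivity)
    rw [← Real.rpow_add hT0] at h1
    exact h1.trans ((hmono (by linarith)).trans hH)
  · -- the logarithm
    have hlog : (Nat.log 2 M : ℝ) + 1 ≤ 3 * L := by
      have h1 : ((2 ^ Nat.log 2 M : ℕ) : ℝ) ≤ T := by
        have h2 := Nat.pow_log_le_self 2 (show M ≠ 0 by omega)
        have h3 : ((2 ^ Nat.log 2 M : ℕ) : ℝ) ≤ M := by exact_mod_cast h2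
        refine h3.trans (hM.trans ?_)
        have := hmono (show 1 / 2 + 2 * e ≤ 1 by linarith)
        rwa [Real.rpow_one] at this
      have h2 := Real.log_le_log (by positivity) h1
      push_cast at h2
      rw [Real.log_pow, ← hLd] at h2
      have h3 := Real.log_two_gt_d9
      have h4 : (Nat.log 2 M : ℝ) * (1 / 2) ≤ Nat.log 2 M * Real.log 2 :=
        mul_le_mul_of_nonneg_left (by linarith) (Nat.cast_nonneg _)
      linarith
    have hHinv : 1 / H ≤ T ^ (-(1 / 3 + 3 * e)) := by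
      rw [Real.rpow_neg hT0.le, ← one_div]
      exact one_div_le_one_div_of_le (by positivity) hH
    have s1 : Real.sqrt (8 * V * L / H) ≤ 9 * L * T ^ (1 / 3 - 3 / 2 * e) := by
      refine Real.sqrt_le_iff.mpr ⟨by positivity, ?_⟩
      have e1 : (9 * L * T ^ (1 / 3 - 3 / 2 * e)) ^ 2 = 81 * L ^ 2 * (T * T ^ (-(1 / 3 + 3 * e))) := by
        rw [mul_pow, mul_pow, ← Real.rpow_natCast (T ^ (1 / 3 - 3 / 2 * e)), ← Real.rpow_mul hT0.le]
        have : T * T ^ (-(1 / 3 + 3 * e)) = T ^ (1 + -(1 / 3 + 3 * e)) := by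
          rw [Real.rpow_add hT0, Real.rpow_one]
        rw [this]
        norm_num
        left
        congr 1
        ring
      rw [e1]
      calc 8 * V * L / H = 8 * V * L * (1 / H) := by ring
        _ ≤ 8 * (9 * T) * L * T ^ (-(1 / 3 + 3 * e)) := by gcongr
        _ = 72 * L * (T * T ^ (-(1 / 3 + 3 * e))) := by ring
        _ ≤ 81 * L ^ 2 * (T * T ^ (-(1 / 3 + 3 * e))) := by
            refine mul_le_mul_of_nonneg_right ?_ (by positivity)
            nlinarith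
    have s2 : Y * (M * Real.sqrt (M / V)) ≤ 4 * T ^ (1 / 3 - 3 / 2 * e) := by
      have a1 : Real.sqrt (M / V) ≤ 4 * T ^ (-(1 / 4) + e) := by
        refine Real.sqrt_le_iff.mpr ⟨by positivity, ?_⟩
        rw [mul_pow, ← Real.rpow_natCast (T ^ (-(1 / 4) + e)), ← Real.rpow_mul hT0.le]
        rw [div_le_iff₀ hVp]
        calc (M:ℝ) ≤ T ^ (1 / 2 + 2 * e) := hM
          _ = T ^ ((-(1 / 4) + e) * ((2:ℕ):ℝ)) * T := by
              rw [← Real.rpow_add_one hT0.ne']
              congr 1; push_cast; ring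
          _ = 4 ^ 2 * T ^ ((-(1 / 4) + e) * ((2:ℕ):ℝ)) * (T / 16) := by ring
          _ ≤ _ := by gcongr
      calc Y * (M * Real.sqrt (M / V)) ≤ T ^ (e / 2) * (T ^ (1 / 2 + 2 * e) * (4 * T ^ (-(1 / 4) + e))) := by gcongr
        _ = 4 * T ^ (e / 2 + (1 / 2 + 2 * e) + (-(1 / 4) + e)) := by
            rw [Real.rpow_add hT0 (e / 2 + (1 / 2 + 2 * e)) (-(1 / 4) + e), Real.rpow_add hT0 (e / 2) (1 / 2 + 2 * e)]
            ring
        _ ≤ _ := by
            refine mul_le_mul_of_nonneg_left (hmono ?_) (by norm_num)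
            linarith
    have s3 : Real.sqrt (8 * V * L / H) + Y * (M * Real.sqrt (M / V)) ≤ 13 * L * T ^ (1 / 3 - 3 / 2 * e) := by
      have h1 : 4 * T ^ (1 / 3 - 3 / 2 * e) ≤ 4 * (L * T ^ (1 / 3 - 3 / 2 * e)) :=
        mul_le_mul_of_nonneg_left (le_mul_of_one_le_left (by positivity) (by linarith)) (by norm_num)
      linarith
    have m1 : ((Nat.log 2 M : ℝ) + 1) * (1600000 * Y ^ 3 * (L / H) *
      (Real.sqrt (8 * V * L / H) + Y * (M * Real.sqrt (M / V)))) ≤ 63000000 * L ^ 3 * T ^ (-(3 * e)) := by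
      have h0 : 0 ≤ Real.sqrt (8 * V * L / H) + Y * (M * Real.sqrt (M / V)) := by positivity
      calc _ ≤ 3 * L * (1600000 * T ^ (3 / 2 * e) * (L * T ^ (-(1 / 3 + 3 * e))) * (13 * L * T ^ (1 / 3 - 3 / 2 * e))) := by
            have h5 : L / H ≤ L * T ^ (-(1 / 3 + 3 * e)) := by
              rw [← mul_one_div]; gcongr
            gcongr
        _ = 62400000 * L ^ 3 * T ^ (3 / 2 * e + -(1 / 3 + 3 * e) + (1 / 3 - 3 / 2 * e)) := by
            rw [Real.rpow_add hT0, Real.rpow_add hT0]; ring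
        _ ≤ 63000000 * L ^ 3 * T ^ (-(3 * e)) := by
            have : 3 / 2 * e + -(1 / 3 + 3 * e) + (1 / 3 - 3 / 2 * e) = -(3 * e) := by ring
            rw [this]
            gcongr
            norm_num
    have m2 : 2 * Y * M ^ 2 * Real.exp (-L ^ 2) ≤ 2 * T ^ (-(2:ℝ)) := by
      have h1 : Real.exp (-L ^ 2) ≤ T ^ (-(4:ℝ)) := by
        rw [Real.rpow_def_of_pos hT0, ← hLd]
        refine Real.exp_le_exp.mpr ?_
        nlinarith
      have h2 : (M:ℝ) ^ 2 ≤ T ^ (1 + 4 * e) := by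
        have := pow_le_pow_left₀ (by linarith) hM 2
        rw [← Real.rpow_natCast (T ^ (1 / 2 + 2 * e)), ← Real.rpow_mul hT0.le] at this
        refine this.trans (le_of_eq ?_)
        congr 1; push_cast; ring
      calc 2 * Y * M ^ 2 * Real.exp (-L ^ 2) ≤ 2 * T ^ (e / 2) * T ^ (1 + 4 * e) * T ^ (-(4:ℝ)) := by gcongr
        _ = 2 * T ^ (e / 2 + (1 + 4 * e) + -(4:ℝ)) := by
            rw [Real.rpow_add hT0 (e / 2 + (1 + 4 * e)) (-(4:ℝ)), Real.rpow_add hT0 (e / 2) (1 + 4 * e)]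
            ring
        _ ≤ _ := by
            refine mul_le_mul_of_nonneg_left (hmono ?_) (by norm_num)
            linarith
    unfold Dl
    have hTe : 0 < T ^ e := by positivity
    have f1 : 63000000 * L ^ 3 * T ^ (-(3 * e)) * T ^ e ≤ 1 / 4 := by
      have e1 : 63000000 * L ^ 3 * T ^ (-(3 * e)) * T ^ e = 63000000 * L ^ 3 * (T ^ (2 * e))⁻¹ := by
        rw [← Real.rpow_neg hT0.le, mul_assoc, ← Real.rpow_add hT0]
        congr 2; ring
      rw [e1, ← div_eq_mul_inv, div_le_iff₀ (by positivity)]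
      linarith
    have f2 : 2 * T ^ (-(2:ℝ)) * T ^ e ≤ 1 / 8 := by
      rw [mul_assoc, ← Real.rpow_add hT0]
      have h1 : T ^ (-(2:ℝ) + e) ≤ T ^ (-(1:ℝ)) := hmono (by linarith)
      have h2 : T ^ (-(1:ℝ)) ≤ 1 / 16 := by
        rw [Real.rpow_neg hT0.le, Real.rpow_one, ← one_div]
        exact one_div_le_one_div_of_le (by norm_num) hT
      linarith
    have f3 := mul_le_mul_of_nonneg_right (add_le_add m1 m2) hTe.le
    have e3 : (63000000 * L ^ 3 * T ^ (-(3 * e)) + 2 * T ^ (-(2:ℝ))) * T ^ e =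
        63000000 * L ^ 3 * T ^ (-(3 * e)) * T ^ e + 2 * T ^ (-(2:ℝ)) * T ^ e := by ring
    rw [e3] at f3
    linarith

end Pool.Agent.KS6_54.ML
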