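import Pool.Agent.KS6_54.ML.Blk
import Pool.Agent.KS6_54.ML.Near
import Pool.Agent.KS6_54.ML.Fin

set_option autoImplicit false

/-!
# Periodic coefficients
-/

open Finset MeasureTheory

namespace Pool.Agent.KS6_54.ML

open Pool.Agent.W200.MR (pw)
open Pool.Agent.TH445.MQ (pw_norm pw_add)

lemma ee_add (x y : ℝ) : ee (x + y) = ee x * ee y := by
  unfold ee
  rw [← Complex.exp_add]
  congr 1
  push_cast
  ring

lemma ee_int (n : ℤ) : ee n = 1 := by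
  unfold ee
  rw [Complex.exp_eq_one_iff]
  exact ⟨n, by push_cast; ring⟩

lemma ee_natmul (x : ℝ) (r : ℕ) : ee (r * x) = ee x ^ r := by
  unfold ee
  rw [← Complex.exp_nat_mul]
  congr 1
  push_cast
  ring

lemma ee_conj (x : ℝ) : (starRingEnd ℂ) (ee x) = ee (-x) := by
  unfold ee
  rw [← Complex.exp_conj, map_mul, Complex.conj_ofReal, Complex.conj_I]
  congr 1
  push_cast
  ring

/-- orthogonality -/
lemma orth {m : ℕ} (hm : 1 ≤ m) (d : ℤ) :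
    ∑ r : Fin m, ee (((r : ℕ) : ℝ) * (d / m)) = if (m : ℤ) ∣ d then (m : ℂ) else 0 := by
  have hm0 : (m : ℝ) ≠ 0 := by exact_mod_cast (by omega : m ≠ 0)
  have e1 : ∀ r : Fin m, ee (((r : ℕ) : ℝ) * (d / m)) = ee ((d : ℝ) / m) ^ (r : ℕ) := fun r =>
    ee_natmul _ _
  simp_rw [e1]
  rw [Fin.sum_univ_eq_sum_range (fun r => ee ((d : ℝ) / m) ^ r) m]
  split_ifs with h
  · obtain ⟨k, hk⟩ := h
    have : ee ((d : ℝ) / m) = 1 := by
      rw [hk]
      push_cast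
      rw [mul_div_cancel_left₀ _ hm0]
      exact ee_int k
    rw [this]
    simp
  · have h1 : ee ((d : ℝ) / m) ≠ 1 := by
      intro h1
      apply h
      unfold ee at h1
      rw [Complex.exp_eq_one_iff] at h1
      obtain ⟨n, hn⟩ := h1
      have hI : (2 * Real.pi * Complex.I : ℂ) ≠ 0 := Complex.two_pi_I_ne_zero
      have h2 : (((d : ℝ) / m : ℝ) : ℂ) = n := by
        have h3 : (((d : ℝ) / m : ℝ) : ℂ) * (2 * Real.pi * Complex.I) =
            n * (2 * Real.pi * Complex.I) := by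
          rw [← hn]; push_cast; ring
        exact mul_right_cancel₀ hI h3
      have h3 : (d : ℝ) / m = n := by exact_mod_cast h2
      rw [div_eq_iff hm0] at h3
      exact ⟨n, by
        have : (d : ℝ) = ((m : ℤ) * n : ℤ) := by rw [h3]; push_cast; ring
        exact_mod_cast this⟩
    have h2 : ee ((d : ℝ) / m) ^ m = 1 := by
      rw [← ee_natmul, mul_div_cancel₀ _ hm0]
      exact ee_int d
    rw [geom_sum_eq h1, h2, sub_self, zero_div]

/-- the Fourier coefficients of a periodic function -/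
noncomputable def fc (m : ℕ) (b : ℕ → ℂ) (r : Fin m) : ℂ :=
  (1 / m : ℂ) * ∑ a : Fin m, b a * ee (-(((r : ℕ) : ℝ) * (((a : ℕ) : ℝ) / m)))

/-- the frequencies -/
noncomputable def ft (m : ℕ) (r : Fin m) : ℝ := ((r : ℕ) : ℝ) / m

lemma periodic_mod {m : ℕ} {b : ℕ → ℂ} (hb : ∀ n, b (n + m) = b n) (n : ℕ) : b (n % m) = b n := by
  have h : ∀ k n : ℕ, b (n + m * k) = b n := by
    intro k
    induction k with
    | zero => intro n; simp
    | succ k ih => intro n; rw [Nat.mul_succ, ← add_assoc, hb, ih]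
  conv_rhs => rw [← Nat.mod_add_div n m, h]

theorem bco_fc {m : ℕ} (hm : 1 ≤ m) {b : ℕ → ℂ} (hb : ∀ n, b (n + m) = b n) (n : ℕ) :
    bco (ft m) (fc m b) n = b n := by
  have hm0 : (m : ℂ) ≠ 0 := by exact_mod_cast (by omega : m ≠ 0)
  have hm0r : (m : ℝ) ≠ 0 := by exact_mod_cast (by omega : m ≠ 0)
  unfold bco fc ft
  have e1 : ∀ r : Fin m, (1 / m : ℂ) * (∑ a : Fin m, b a * ee (-(((r : ℕ) : ℝ) * (((a : ℕ) : ℝ) / m)))) *
      ee (((r : ℕ) : ℝ) / m * n) = (1 / m : ℂ) * ∑ a : Fin m, b a *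
        ee (((r : ℕ) : ℝ) * ((((n : ℤ) - ((a : ℕ) : ℤ) : ℤ) : ℝ) / m)) := by
    intro r
    rw [mul_assoc, sum_mul]
    congr 1
    apply sum_congr rfl
    intro a _
    rw [mul_assoc, ← ee_add]
    congr 2
    push_cast
    ring
  simp_rw [e1]
  rw [← mul_sum, sum_comm]
  simp_rw [← mul_sum]
  have e2 : ∀ a : Fin m, b a * ∑ r : Fin m,
      ee (((r : ℕ) : ℝ) * ((((n : ℤ) - ((a : ℕ) : ℤ) : ℤ) : ℝ) / m)) =
      if (a : ℕ) = n % m then (m : ℂ) * b n else 0 := by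
    intro a
    rw [orth hm]
    have h3 : (m : ℤ) ∣ ((n : ℤ) - ((a : ℕ) : ℤ)) ↔ (a : ℕ) = n % m := by
      have ha := a.2
      constructor
      · intro h
        have h4 : (a : ℕ) ≡ n [MOD m] := (Nat.modEq_iff_dvd).2 h
        unfold Nat.ModEq at h4
        rw [Nat.mod_eq_of_lt ha] at h4
        exact h4
      · intro h
        apply (Nat.modEq_iff_dvd).1
        unfold Nat.ModEq
        rw [h, Nat.mod_mod]
    by_cases h4 : (a : ℕ) = n % m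
    · rw [if_pos (h3.2 h4), if_pos h4, h4, periodic_mod hb]
      ring
    · rw [if_neg (fun h => h4 (h3.1 h)), if_neg h4, mul_zero]
  simp_rw [e2]
  have hlt : n % m < m := Nat.mod_lt _ (by omega)
  have e3 : ∑ a : Fin m, (if (a : ℕ) = n % m then (m : ℂ) * b n else 0) = m * b n := by
    rw [Finset.sum_eq_single (⟨n % m, hlt⟩ : Fin m)]
    · simp
    · intro a _ ha
      rw [if_neg]
      intro h
      exact ha (Fin.ext h)
    · intro h
      exact absurd (mem_univ _) h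
  rw [e3]
  field_simp

theorem fc_sq {m : ℕ} (hm : 1 ≤ m) {b : ℕ → ℂ} (hb1 : ∀ n, ‖b n‖ ≤ 1) :
    ∑ r : Fin m, ‖fc m b r‖ ^ 2 ≤ 1 := by
  have hm0 : (m : ℂ) ≠ 0 := by exact_mod_cast (by omega : m ≠ 0)
  have hm0r : (0 : ℝ) < m := by exact_mod_cast (by omega : 0 < m)
  have e1 : ∀ r : Fin m, ((‖fc m b r‖ ^ 2 : ℝ) : ℂ) = (1 / m : ℂ) ^ 2 * ∑ a : Fin m, ∑ a' : Fin m,
      (b a * (starRingEnd ℂ) (b a')) *
        ee (((r : ℕ) : ℝ) * (((((a' : ℕ) : ℤ) - ((a : ℕ) : ℤ) : ℤ) : ℝ) / m)) := by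
    intro r
    have h1 : ((‖fc m b r‖ ^ 2 : ℝ) : ℂ) = fc m b r * (starRingEnd ℂ) (fc m b r) := by
      rw [Complex.mul_conj, Complex.normSq_eq_norm_sq]
    rw [h1]
    unfold fc
    rw [map_mul, map_sum, mul_mul_mul_comm, sum_mul_sum]
    congr 1
    · rw [sq]
      congr 1
      simp
    · apply sum_congr rfl
      intro a _
      apply sum_congr rfl
      intro a' _
      rw [map_mul, ee_conj, neg_neg, mul_mul_mul_comm, ← ee_add]
      congr 2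
      push_cast
      ring
  have e2 : ((∑ r : Fin m, ‖fc m b r‖ ^ 2 : ℝ) : ℂ) = ((1 / m * ∑ a : Fin m, ‖b a‖ ^ 2 : ℝ) : ℂ) := by
    rw [Complex.ofReal_sum]
    simp_rw [e1]
    rw [← mul_sum, sum_comm]
    have e3 : ∀ a : Fin m, ∑ r : Fin m, ∑ a' : Fin m, (b a * (starRingEnd ℂ) (b a')) *
        ee (((r : ℕ) : ℝ) * (((((a' : ℕ) : ℤ) - ((a : ℕ) : ℤ) : ℤ) : ℝ) / m)) =
        (m : ℂ) * ((‖b a‖ ^ 2 : ℝ) : ℂ) := by
      intro a
      rw [sum_comm]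
      simp_rw [← mul_sum, orth hm]
      rw [Finset.sum_eq_single a]
      · have h4 : (m : ℤ) ∣ (((a : ℕ) : ℤ) - ((a : ℕ) : ℤ)) := by simp
        rw [if_pos h4, Complex.mul_conj, Complex.normSq_eq_norm_sq]
        ring
      · intro a' _ ha'
        rw [if_neg, mul_zero]
        intro h
        apply ha'
        have h4 : (a : ℕ) ≡ a' [MOD m] := (Nat.modEq_iff_dvd).2 h
        unfold Nat.ModEq at h4
        rw [Nat.mod_eq_of_lt a.2, Nat.mod_eq_of_lt a'.2] at h4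
        exact Fin.ext h4.symm
      · intro h
        exact absurd (mem_univ _) h
    simp_rw [e3]
    rw [← mul_sum]
    push_cast
    field_simp
  have e3 : ∑ r : Fin m, ‖fc m b r‖ ^ 2 = 1 / m * ∑ a : Fin m, ‖b a‖ ^ 2 := by exact_mod_cast e2
  rw [e3]
  have h1 : ∑ a : Fin m, ‖b a‖ ^ 2 ≤ m := by
    calc ∑ a : Fin m, ‖b a‖ ^ 2 ≤ ∑ _a : Fin m, (1 : ℝ) :=
          sum_le_sum fun a _ => pow_le_one₀ (norm_nonneg _) (hb1 a)
      _ = m := by simp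
  calc 1 / (m : ℝ) * ∑ a : Fin m, ‖b a‖ ^ 2 ≤ 1 / m * m := by gcongr
    _ = 1 := by field_simp

lemma fc_le {m : ℕ} (hm : 1 ≤ m) {b : ℕ → ℂ} (hb1 : ∀ n, ‖b n‖ ≤ 1) (r : Fin m) :
    ‖fc m b r‖ ≤ 1 := by
  have h1 := fc_sq hm hb1
  have h2 : ‖fc m b r‖ ^ 2 ≤ ∑ r : Fin m, ‖fc m b r‖ ^ 2 :=
    single_le_sum (f := fun r => ‖fc m b r‖ ^ 2) (fun r _ => by positivity) (mem_univ r)
  exact (sq_le_one_iff₀ (norm_nonneg _)).1 (h2.trans h1)

lemma log_zc {N : ℕ} (hN : 1 ≤ N) {y : ℝ} (hy : 0 < y) : Real.log ‖zc N y‖ =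
    (Real.log ((2 * Real.pi) ^ 2) + Real.log (y ^ 2 + (1 / (2 * Real.pi * N)) ^ 2)) / 2 := by
  have hN0 : (0 : ℝ) < N := by exact_mod_cast hN
  have hp := Real.pi_pos
  rw [← Real.log_mul (by positivity) (by positivity)]
  have h1 : (2 * Real.pi) ^ 2 * (y ^ 2 + (1 / (2 * Real.pi * N)) ^ 2) = ‖zc N y‖ ^ 2 := by
    rw [zc_norm_sq]
    field_simp
    ring
  rw [h1, Real.log_pow]
  push_cast
  ring

/-- the dual variable as an integer -/
def xv (m : ℕ) (i : Σ _ : Fin m, ℤ) : ℕ := (m * i.2 - (i.1 : ℕ)).toNat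

lemma xv_cast {m : ℕ} (hm : 1 ≤ m) {i : Σ _ : Fin m, ℤ} (h : 0 < yv (ft m) i) :
    (xv m i : ℝ) = m * yv (ft m) i := by
  have hm0 : (0 : ℝ) < m := by exact_mod_cast hm
  have h1 : ((m * i.2 - (i.1 : ℕ) : ℤ) : ℝ) = m * yv (ft m) i := by
    unfold yv ft
    push_cast
    field_simp
  have h2 : 0 ≤ (m * i.2 - (i.1 : ℕ) : ℤ) := by
    have : (0 : ℝ) ≤ ((m * i.2 - (i.1 : ℕ) : ℤ) : ℝ) := by rw [h1]; positivity
    exact_mod_cast this
  unfold xv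
  rw [← h1]
  have h3 : (((m * i.2 - (i.1 : ℕ)).toNat : ℤ) : ℝ) = ((m * i.2 - (i.1 : ℕ) : ℤ) : ℝ) := by
    rw [Int.toNat_of_nonneg h2]
  exact_mod_cast h3

lemma xv_inj {m : ℕ} (hm : 1 ≤ m) {i i' : Σ _ : Fin m, ℤ} (h : 0 < yv (ft m) i)
    (h' : 0 < yv (ft m) i') (he : xv m i = xv m i') : i = i' := by
  have hm0 : (0 : ℝ) < m := by exact_mod_cast hm
  have e1 := xv_cast hm h
  have e2 := xv_cast hm h'
  have e3 : (m : ℝ) * yv (ft m) i = m * yv (ft m) i' := by rw [← e1, ← e2, he]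
  have h1 : ∀ i : Σ _ : Fin m, ℤ, ((m * i.2 - (i.1 : ℕ) : ℤ) : ℝ) = m * yv (ft m) i := by
    intro i
    unfold yv ft
    push_cast
    field_simp
  have h2 : (m * i.2 - (i.1 : ℕ) : ℤ) = (m * i'.2 - (i'.1 : ℕ) : ℤ) := by
    have : ((m * i.2 - (i.1 : ℕ) : ℤ) : ℝ) = ((m * i'.2 - (i'.1 : ℕ) : ℤ) : ℝ) := by
      rw [h1, h1, e3]
    exact_mod_cast this
  obtain ⟨r, ξ⟩ := i
  obtain ⟨r', ξ'⟩ := i'
  simp only at h2
  have h3 : ((r : ℕ) : ℤ) - (r' : ℕ) = m * (ξ - ξ') := by linarith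
  have h4 : (m : ℤ) ∣ ((r : ℕ) : ℤ) - (r' : ℕ) := ⟨_, h3⟩
  have h5 : (r' : ℕ) ≡ r [MOD m] := (Nat.modEq_iff_dvd).2 h4
  unfold Nat.ModEq at h5
  rw [Nat.mod_eq_of_lt r.2, Nat.mod_eq_of_lt r'.2] at h5
  have h6 : r = r' := Fin.ext h5.symm
  subst h6
  have h7 : (m : ℤ) * (ξ - ξ') = 0 := by rw [← h3]; ring
  have h8 : ξ = ξ' := by
    rcases mul_eq_zero.1 h7 with h9 | h9
    · omega
    · linarith
  rw [h8]

end Pool.Agent.KS6_54.ML
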