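import Pool.Agent.KS6_54.ML.Per

set_option autoImplicit false

/-!
# Periodic coefficients, II: the count and the conclusion
-/

open Finset MeasureTheory

namespace Pool.Agent.KS6_54.ML

open Pool.Agent.W200.MR (pw)
open Pool.Agent.TH445.MQ (pw_norm pw_add)

/-- the bound of the double sum for periodic coefficients -/
theorem dbl_per {N X m : ℕ} (hN : 1 ≤ N) (hm : 1 ≤ m) (hmN : m ≤ N) (hNX : N ≤ X)
    (hX2 : X ≤ N ^ 2) {Z : ℝ} (hZ : 1 ≤ Z) (hZN : Z ≤ N) (hZX : 8 * Z ^ 2 ≤ X)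
    (hexp : (N : ℝ) ^ 10 ≤ Real.exp (Z / 16)) {b : ℕ → ℂ} (hb1 : ∀ n, ‖b n‖ ≤ 1) (D : ℝ)
    (hD : ∀ n : ℕ, 1 ≤ n → n ≤ (N ^ 3) ^ 2 → (n.divisors.card : ℝ) ≤ D) :
    dbl (IM (X / (N * Z)) (Z * X / N) (ft m) ×ˢ IM (X / (N * Z)) (Z * X / N) (ft m))
      (X / ⌈Z⌉₊) (fun p => ‖cv (fc m b) p.1‖ * ‖cv (fc m b) p.2‖) (lm N (yv (ft m))) ≤
      (35 * Z ^ 8 * (1 + m ^ 2 * X / N ^ 2) * D) * (2 * (Z * X / N)) ^ 2 + 16 := by
  classical
  have hN0 : (0 : ℝ) < N := by exact_mod_cast hN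
  have hN1 : (1 : ℝ) ≤ N := by exact_mod_cast hN
  have hm0 : (0 : ℝ) < m := by exact_mod_cast hm
  have hX0 : (0 : ℝ) < X := by exact_mod_cast (by omega : 0 < X)
  have hXN : (N : ℝ) ≤ X := by exact_mod_cast hNX
  have hZ0 : 0 < Z := by linarith
  have hp := Real.pi_gt_three
  set Y0 : ℝ := X / (N * Z) with hY0
  set Y1 : ℝ := Z * X / N with hY1
  have hY00 : 0 < Y0 := by positivity
  have hY11 : 1 ≤ Y1 := by
    rw [hY1, le_div_iff₀ hN0]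
    nlinarith
  set I := IM Y0 Y1 (ft m) with hI
  have hmem : ∀ i ∈ I, Y0 ≤ yv (ft m) i ∧ yv (ft m) i ≤ Y1 := by
    intro i hi
    rw [hI] at hi
    unfold IM at hi
    rw [mem_sigma] at hi
    exact mem_MR.1 hi.2
  have hpos : ∀ i ∈ I, 0 < yv (ft m) i := fun i hi => lt_of_lt_of_le hY00 (hmem i hi).1
  set Δ₀ : ℝ := 2 * Z ^ 2 / X with hΔ₀
  have hΔ₀0 : 0 ≤ Δ₀ := by positivity
  have hΔ₀1 : Δ₀ ≤ 1 / 4 := by
    rw [hΔ₀, div_le_div_iff₀ hX0 (by norm_num)]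
    linarith
  set δ : ℝ := 1 / (2 * Real.pi * N) with hδ
  have hδ0 : 0 ≤ δ := by positivity
  have hδ1 : δ ≤ Y1 := by
    have : δ ≤ 1 := by
      rw [hδ, div_le_one (by positivity)]
      nlinarith
    linarith
  set Δ : ℝ := 16 * Z ^ 8 * (m ^ 2 * X / N ^ 2) + Z ^ 4 with hΔ
  have hΔn : 0 ≤ Δ := by positivity
  have hD0 : 1 ≤ D := by
    have := hD 1 le_rfl (Nat.one_le_pow _ _ (Nat.one_le_pow _ _ hN))
    simpa using this
  have hnear : ∀ p ∈ I ×ˢ I, ∀ p' ∈ I ×ˢ I, |lm N (yv (ft m)) p - lm N (yv (ft m)) p'| ≤ Δ₀ →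
      |(xv m p'.1 : ℝ) * xv m p'.2 - (xv m p.1 : ℝ) * xv m p.2| ≤ Δ := by
    intro p hp p' hp' h
    rw [mem_product] at hp hp'
    have q1 := hpos _ hp.1
    have q2 := hpos _ hp.2
    have q3 := hpos _ hp'.1
    have q4 := hpos _ hp'.2
    unfold lm at h
    rw [log_zc hN q1, log_zc hN q2, log_zc hN q3, log_zc hN q4] at h
    have h2 := near_diff (Δ₀ := Δ₀) hY00 hδ0 hδ1 (hmem _ hp.1).1 (hmem _ hp.2).1 (hmem _ hp'.1).1
      (hmem _ hp'.2).1 (hmem _ hp.1).2 (hmem _ hp.2).2 (hmem _ hp'.1).2 (hmem _ hp'.2).2 hΔ₀1 (by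
        rw [abs_le] at h ⊢
        constructor
        · linarith [h.1]
        · linarith [h.2])
    rw [xv_cast hm q1, xv_cast hm q2, xv_cast hm q3, xv_cast hm q4]
    have e1 : (m : ℝ) * yv (ft m) p'.1 * (m * yv (ft m) p'.2) - m * yv (ft m) p.1 *
        (m * yv (ft m) p.2) = -((m : ℝ) ^ 2 * (yv (ft m) p.1 * yv (ft m) p.2 -
          yv (ft m) p'.1 * yv (ft m) p'.2)) := by ring
    rw [e1, abs_neg, abs_mul, abs_of_pos (by positivity : (0 : ℝ) < (m : ℝ) ^ 2)]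
    have e2 : (m : ℝ) ^ 2 * ((8 * Δ₀ * Y1 ^ 4 + δ ^ 2 * Y1 ^ 2) / Y0 ^ 2) =
        16 * Z ^ 8 * (m ^ 2 * X / N ^ 2) + (m * δ) ^ 2 * Z ^ 4 := by
      rw [hΔ₀, hY0, hY1]
      field_simp
      ring
    have e3 : (m : ℝ) * δ ≤ 1 := by
      rw [hδ, mul_one_div, div_le_one (by positivity)]
      have : (m : ℝ) ≤ N := by exact_mod_cast hmN
      nlinarith
    calc (m : ℝ) ^ 2 * |yv (ft m) p.1 * yv (ft m) p.2 - yv (ft m) p'.1 * yv (ft m) p'.2|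
        ≤ (m : ℝ) ^ 2 * ((8 * Δ₀ * Y1 ^ 4 + δ ^ 2 * Y1 ^ 2) / Y0 ^ 2) :=
          mul_le_mul_of_nonneg_left h2 (by positivity)
      _ = 16 * Z ^ 8 * (m ^ 2 * X / N ^ 2) + (m * δ) ^ 2 * Z ^ 4 := e2
      _ ≤ Δ := by
          rw [hΔ]
          have : (m * δ) ^ 2 ≤ 1 := pow_le_one₀ (by positivity) e3
          have h4 : 0 ≤ Z ^ 4 := by positivity
          nlinarith
  have hxL : ∀ i ∈ I, xv m i ≤ N ^ 3 := by
    intro i hi
    have h1 := xv_cast hm (hpos i hi)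
    have h2 : (xv m i : ℝ) ≤ (N : ℝ) ^ 3 := by
      rw [h1]
      calc (m : ℝ) * yv (ft m) i ≤ N * Y1 :=
            mul_le_mul (by exact_mod_cast hmN) (hmem i hi).2 (hpos i hi).le hN0.le
        _ = Z * X := by rw [hY1]; field_simp
        _ ≤ N * (N : ℝ) ^ 2 := mul_le_mul hZN (by exact_mod_cast hX2) hX0.le hN0.le
        _ = _ := by ring
    exact_mod_cast h2
  have hx1 : ∀ i ∈ I, 1 ≤ xv m i := by
    intro i hi
    have h1 := xv_cast hm (hpos i hi)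
    have h2 : (0 : ℝ) < xv m i := by
      rw [h1]
      exact mul_pos hm0 (hpos i hi)
    exact_mod_cast h2
  set R : ℝ := (2 * Δ + 1) * D with hR
  have hcount : ∀ p ∈ I ×ˢ I, (((I ×ˢ I).filter fun p' =>
      |lm N (yv (ft m)) p - lm N (yv (ft m)) p'| ≤ Δ₀).card : ℝ) ≤ R := by
    intro p hp
    have h1 := cnt_int I (xv m) (fun i hi i' hi' h => xv_inj hm (hpos i hi) (hpos i' hi') h) hx1 D
      (by linarith) (N ^ 3) hxL hD ((xv m p.1 : ℝ) * xv m p.2) Δ hΔn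
    refine le_trans ?_ h1
    have h2 : ((I ×ˢ I).filter fun p' => |lm N (yv (ft m)) p - lm N (yv (ft m)) p'| ≤ Δ₀) ⊆
        ((I ×ˢ I).filter fun p' => |(xv m p'.1 : ℝ) * xv m p'.2 -
          (xv m p.1 : ℝ) * xv m p.2| ≤ Δ) := by
      intro p' hp'
      rw [mem_filter] at hp' ⊢
      exact ⟨hp'.1, hnear p hp p' hp'.1 hp'.2⟩
    exact_mod_cast card_le_card h2
  have hdbl := dbl_le (I ×ˢ I) (X / ⌈Z⌉₊) Δ₀ R (fun p => ‖cv (fc m b) p.1‖ * ‖cv (fc m b) p.2‖)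
    (lm N (yv (ft m))) (fun p _ => by positivity) hΔ₀0 hcount
  refine hdbl.trans ?_
  have hRle : R ≤ 35 * Z ^ 8 * (1 + m ^ 2 * X / N ^ 2) * D := by
    rw [hR]
    apply mul_le_mul_of_nonneg_right _ (by linarith)
    rw [hΔ]
    have h1 : Z ^ 4 ≤ Z ^ 8 := pow_le_pow_right₀ hZ (by norm_num)
    have h2 : 1 ≤ Z ^ 8 := one_le_pow₀ hZ
    have h3 : 0 ≤ (m : ℝ) ^ 2 * X / N ^ 2 := by positivity
    have h4 : 0 ≤ Z ^ 8 * ((m : ℝ) ^ 2 * X / N ^ 2) := by positivity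
    nlinarith
  have hR0 : 0 ≤ R := by positivity
  have hs1 : ∑ i ∈ I, ‖cv (fc m b) i‖ ^ 2 ≤ 2 * Y1 := by
    rw [hI]
    unfold IM cv
    rw [sum_sigma]
    simp only [sum_const, nsmul_eq_mul]
    calc ∑ r : Fin m, ((MR Y0 Y1 (ft m r)).card : ℝ) * ‖fc m b r‖ ^ 2
        ≤ ∑ r : Fin m, (2 * Y1) * ‖fc m b r‖ ^ 2 := by
          apply sum_le_sum
          intro r _
          exact mul_le_mul_of_nonneg_right (card_MR hY00.le hY11) (by positivity)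
      _ = (2 * Y1) * ∑ r : Fin m, ‖fc m b r‖ ^ 2 := by rw [mul_sum]
      _ ≤ (2 * Y1) * 1 := mul_le_mul_of_nonneg_left (fc_sq hm hb1) (by linarith)
      _ = _ := mul_one _
  have hs2 : ∑ i ∈ I, ‖cv (fc m b) i‖ ≤ m * (2 * Y1) := by
    rw [hI]
    unfold IM cv
    rw [sum_sigma]
    simp only [sum_const, nsmul_eq_mul]
    calc ∑ r : Fin m, ((MR Y0 Y1 (ft m r)).card : ℝ) * ‖fc m b r‖
        ≤ ∑ _r : Fin m, (2 * Y1) * 1 := by
          apply sum_le_sum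
          intro r _
          exact mul_le_mul (card_MR hY00.le hY11) (fc_le hm hb1 r) (norm_nonneg _) (by linarith)
      _ = _ := by simp
  have e1 : ∑ p ∈ I ×ˢ I, (‖cv (fc m b) p.1‖ * ‖cv (fc m b) p.2‖) ^ 2 =
      (∑ i ∈ I, ‖cv (fc m b) i‖ ^ 2) ^ 2 := by
    rw [sum_product, pow_two (∑ i ∈ I, ‖cv (fc m b) i‖ ^ 2), sum_mul_sum]
    apply sum_congr rfl
    intro i _
    apply sum_congr rfl
    intro i' _
    ring
  have e2 : ∑ p ∈ I ×ˢ I, (‖cv (fc m b) p.1‖ * ‖cv (fc m b) p.2‖) =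
      (∑ i ∈ I, ‖cv (fc m b) i‖) ^ 2 := by
    rw [sum_product, pow_two (∑ i ∈ I, ‖cv (fc m b) i‖), sum_mul_sum]
  rw [e1, e2]
  apply add_le_add
  · apply mul_le_mul hRle _ (by positivity) (by positivity)
    exact pow_le_pow_left₀ (sum_nonneg fun i _ => by positivity) hs1 2
  · -- the exponentially small part
    have hceil : (⌈Z⌉₊ : ℝ) ≤ 2 * Z := by
      have := Nat.ceil_lt_add_one hZ0.le
      linarith
    have hc0 : (0 : ℝ) < ⌈Z⌉₊ := by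
      have := Nat.le_ceil Z
      linarith
    have h1 : Z ≤ X / ⌈Z⌉₊ * Δ₀ := by
      have : X / (⌈Z⌉₊ : ℝ) * Δ₀ = 2 * Z ^ 2 / ⌈Z⌉₊ := by rw [hΔ₀]; field_simp
      rw [this, le_div_iff₀ hc0]
      nlinarith
    have h2 : Real.exp (-((X / (⌈Z⌉₊ : ℝ)) ^ 2 * Δ₀ ^ 2 / 2)) ≤ ((N : ℝ) ^ 12)⁻¹ := by
      have h3 : Z ≤ (X / (⌈Z⌉₊ : ℝ)) ^ 2 * Δ₀ ^ 2 := by
        rw [← mul_pow]
        nlinarith
      have h4 : Real.exp (-((X / (⌈Z⌉₊ : ℝ)) ^ 2 * Δ₀ ^ 2 / 2)) ≤ Real.exp (-(Z / 2)) := by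
        apply Real.exp_le_exp.2
        linarith
      refine h4.trans ?_
      rw [Real.exp_neg]
      apply inv_anti₀ (by positivity)
      calc (N : ℝ) ^ 12 ≤ ((N : ℝ) ^ 10) ^ 8 := by
            rw [← pow_mul]
            exact pow_le_pow_right₀ hN1 (by norm_num)
        _ ≤ (Real.exp (Z / 16)) ^ 8 := pow_le_pow_left₀ (by positivity) hexp 8
        _ = Real.exp (Z / 2) := by
            rw [← Real.exp_nat_mul]
            congr 1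
            push_cast
            ring
    have h5 : m * (2 * Y1) ≤ 2 * (N : ℝ) ^ 3 := by
      calc (m : ℝ) * (2 * Y1) ≤ N * (2 * Y1) := by
            apply mul_le_mul_of_nonneg_right _ (by linarith)
            exact_mod_cast hmN
        _ = 2 * (Z * X) := by rw [hY1]; field_simp
        _ ≤ 2 * (N * (N : ℝ) ^ 2) := by
            apply mul_le_mul_of_nonneg_left _ (by norm_num)
            exact mul_le_mul hZN (by exact_mod_cast hX2) hX0.le hN0.le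
        _ = _ := by ring
    have h6 : 0 ≤ ∑ i ∈ I, ‖cv (fc m b) i‖ := sum_nonneg fun i _ => norm_nonneg _
    calc Real.exp (-((X / (⌈Z⌉₊ : ℝ)) ^ 2 * Δ₀ ^ 2 / 2)) * ((∑ i ∈ I, ‖cv (fc m b) i‖) ^ 2) ^ 2
        ≤ ((N : ℝ) ^ 12)⁻¹ * ((2 * (N : ℝ) ^ 3) ^ 2) ^ 2 := by
          apply mul_le_mul h2 _ (by positivity) (by positivity)
          apply pow_le_pow_left₀ (by positivity)
          exact pow_le_pow_left₀ h6 (hs2.trans h5) 2
      _ = 16 := by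
          field_simp
          norm_num

/-- **The fourth moment for periodic coefficients over dyadic blocks.** -/
theorem per_block (e : ℝ) (he : 0 < e) (he1 : e ≤ 1 / 4) : ∃ C : ℝ, 1 ≤ C ∧ ∃ N₀ : ℕ, 64 ≤ N₀ ∧
    ∀ N X m : ℕ, N₀ ≤ N → (N : ℝ) ^ (1 + 3 * e) ≤ X → X ≤ N ^ 2 → 1 ≤ m → m ≤ N → ∀ b : ℕ → ℂ,
      (∀ n, b (n + m) = b n) → (∀ n, ‖b n‖ ≤ 1) →
      ∀ g : ℕ → ℂ, (∀ n ∈ Icc N (2 * N), ‖g n‖ ≤ 1) →
      ∑ t ∈ Icc X (2 * X), ‖∑ n ∈ Icc N (2 * N), b n * g n * pw (t : ℝ) n‖ ^ 4 ≤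
        C * (1 + tv N g) ^ 4 * (N : ℝ) ^ (17 * e) * (X * (N : ℝ) ^ 2 + (m : ℝ) ^ 2 * (X : ℝ) ^ 2) := by
  obtain ⟨C1, hC1, N₀, hN₀, hexp, hB⟩ := block e he he1
  obtain ⟨C2, hC2, hdiv⟩ := Pool.Agent.H510R2.divisor_bound e he
  refine ⟨C1 * (140 * (C2 + 1) + 17), by nlinarith, N₀, hN₀, ?_⟩
  intro N X m hN hX hX2 hm hmN b hbm hb1 g hg
  have hN64 : 64 ≤ N := hN₀.trans hN
  have hN1n : 1 ≤ N := by omega
  have hN1 : (1 : ℝ) ≤ N := by exact_mod_cast hN1n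
  have hN0 : (0 : ℝ) < N := by linarith
  have hNX : N ≤ X := by
    have : (N : ℝ) ≤ X := by
      refine le_trans ?_ hX
      calc (N : ℝ) = (N : ℝ) ^ (1 : ℝ) := (Real.rpow_one _).symm
        _ ≤ _ := Real.rpow_le_rpow_of_exponent_le hN1 (by linarith)
    exact_mod_cast this
  have hX0 : (0 : ℝ) < X := by exact_mod_cast (by omega : 0 < X)
  have hNXr : (N : ℝ) ≤ X := by exact_mod_cast hNX
  set Z := (N : ℝ) ^ e with hZ
  have hZ1 : 1 ≤ Z := Real.one_le_rpow hN1 he.le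
  have hZ0 : 0 < Z := by linarith
  have hZN : Z ≤ N := by
    calc Z ≤ (N : ℝ) ^ (1 : ℝ) := Real.rpow_le_rpow_of_exponent_le hN1 (by linarith)
      _ = N := Real.rpow_one _
  have hZX : 8 * Z ^ 2 ≤ X := by
    refine le_trans ?_ hX
    have h1 : (8 : ℝ) ≤ N := by exact_mod_cast (by omega : 8 ≤ N)
    calc 8 * Z ^ 2 ≤ N * Z ^ 2 := mul_le_mul_of_nonneg_right h1 (by positivity)
      _ = (N : ℝ) ^ (1 + 2 * e) := by
          rw [hZ, ← Real.rpow_natCast, ← Real.rpow_mul hN0.le, Real.rpow_add hN0, Real.rpow_one]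
          congr 2
          push_cast
          ring
      _ ≤ _ := Real.rpow_le_rpow_of_exponent_le hN1 (by linarith)
  set D : ℝ := (C2 + 1) * (N : ℝ) ^ (6 * e) with hD
  have hDb : ∀ n : ℕ, 1 ≤ n → n ≤ (N ^ 3) ^ 2 → (n.divisors.card : ℝ) ≤ D := by
    intro n h1 h2
    refine (hdiv n h1).trans ?_
    rw [hD]
    have h3 : (n : ℝ) ≤ (N : ℝ) ^ 6 := by
      have : n ≤ N ^ 6 := h2.trans (le_of_eq (by ring))
      exact_mod_cast this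
    have h4 : (n : ℝ) ^ e ≤ (N : ℝ) ^ (6 * e) := by
      calc (n : ℝ) ^ e ≤ ((N : ℝ) ^ 6) ^ e := Real.rpow_le_rpow (by positivity) h3 he.le
        _ = (N : ℝ) ^ (6 * e) := by
            rw [← Real.rpow_natCast, ← Real.rpow_mul hN0.le]
            norm_num
    exact mul_le_mul (by linarith) h4 (by positivity) (by positivity)
  have hd := dbl_per hN1n hm hmN hNX hX2 hZ1 hZN hZX (hexp N hN) hb1 D hDb
  have hblk := hB hN hX hX2 hmN (ft m) (fc m b) (fc_le hm hb1) (by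
    intro n; rw [bco_fc hm hbm]; exact hb1 n) g hg
  simp_rw [bco_fc hm hbm] at hblk
  refine hblk.trans ?_
  set DB := dbl (IM (X / (N * Z)) (Z * X / N) (ft m) ×ˢ IM (X / (N * Z)) (Z * X / N) (ft m))
      (X / ⌈Z⌉₊) (fun p => ‖cv (fc m b) p.1‖ * ‖cv (fc m b) p.2‖) (lm N (yv (ft m))) with hDB
  set G : ℝ := X * (N : ℝ) ^ 2 + (m : ℝ) ^ 2 * (X : ℝ) ^ 2 with hG
  have hG0 : 0 < G := by positivity
  have hD1 : 1 ≤ D := by
    have := hDb 1 le_rfl (Nat.one_le_pow _ _ (Nat.one_le_pow _ _ hN1n))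
    simpa using this
  have h1 : (N : ℝ) ^ 4 / X * DB + X ≤ (140 * (C2 + 1) + 17) * (N : ℝ) ^ (16 * e) * G := by
    have h2 : (N : ℝ) ^ 4 / X * DB ≤ (N : ℝ) ^ 4 / X *
        ((35 * Z ^ 8 * (1 + m ^ 2 * X / N ^ 2) * D) * (2 * (Z * X / N)) ^ 2 + 16) :=
      mul_le_mul_of_nonneg_left hd (by positivity)
    have h3 : (N : ℝ) ^ 4 / X *
        ((35 * Z ^ 8 * (1 + m ^ 2 * X / N ^ 2) * D) * (2 * (Z * X / N)) ^ 2 + 16) =
        140 * (Z ^ 10 * D) * G + 16 * ((N : ℝ) ^ 4 / X) := by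
      rw [hG]
      field_simp
      ring
    have h4 : Z ^ 10 * D = (C2 + 1) * (N : ℝ) ^ (16 * e) := by
      rw [hD, hZ, ← Real.rpow_natCast ((N : ℝ) ^ e), ← Real.rpow_mul hN0.le, mul_left_comm,
        ← Real.rpow_add hN0]
      congr 2
      push_cast
      ring
    have h5 : (N : ℝ) ^ 4 / X ≤ G := by
      rw [div_le_iff₀ hX0, hG]
      have : (N : ℝ) ^ 4 ≤ (N : ℝ) ^ 2 * (X : ℝ) ^ 2 := by
        have a1 : (N : ℝ) ^ 2 ≤ (X : ℝ) ^ 2 := pow_le_pow_left₀ hN0.le hNXr 2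
        nlinarith [sq_nonneg (N : ℝ)]
      have a2 : 0 ≤ (m : ℝ) ^ 2 * (X : ℝ) ^ 2 * X := by positivity
      nlinarith
    have h6 : (X : ℝ) ≤ G := by
      rw [hG]
      have a1 : 1 ≤ (N : ℝ) ^ 2 := one_le_pow₀ hN1
      have a2 : 0 ≤ (m : ℝ) ^ 2 * (X : ℝ) ^ 2 := by positivity
      nlinarith
    have h7 : 1 ≤ (N : ℝ) ^ (16 * e) := Real.one_le_rpow hN1 (by positivity)
    calc (N : ℝ) ^ 4 / X * DB + X ≤ 140 * (Z ^ 10 * D) * G + 16 * ((N : ℝ) ^ 4 / X) + X := by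
          linarith
      _ ≤ 140 * ((C2 + 1) * (N : ℝ) ^ (16 * e)) * G + 16 * G + G := by
          rw [h4]
          linarith
      _ ≤ (140 * (C2 + 1) + 17) * (N : ℝ) ^ (16 * e) * G := by
          nlinarith
  have hV0 := tv_nonneg N g
  calc C1 * (1 + tv N g) ^ 4 * Z * ((N : ℝ) ^ 4 / X * DB + X)
      ≤ C1 * (1 + tv N g) ^ 4 * Z * ((140 * (C2 + 1) + 17) * (N : ℝ) ^ (16 * e) * G) :=
        mul_le_mul_of_nonneg_left h1 (by positivity)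
    _ = C1 * (140 * (C2 + 1) + 17) * (1 + tv N g) ^ 4 * (Z * (N : ℝ) ^ (16 * e)) * G := by ring
    _ = C1 * (140 * (C2 + 1) + 17) * (1 + tv N g) ^ 4 * (N : ℝ) ^ (17 * e) * G := by
        rw [hZ, ← Real.rpow_add hN0]
        congr 3
        ring

end Pool.Agent.KS6_54.ML
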