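import Pool.Agent.KS6_54.ML.Lap

set_option autoImplicit false

/-!
# Poisson summation for `n^{k+iτ} e^{-rn}`
-/

open MeasureTheory Set Filter Topology Asymptotics

namespace Pool.Agent.KS6_54.ML

open scoped FourierTransform

/-- the exponent `k + iτ` -/
noncomputable def ex (k : ℕ) (τ : ℝ) : ℂ := (k : ℂ) + (τ : ℂ) * Complex.I

lemma ex_re (k : ℕ) (τ : ℝ) : (ex k τ).re = k := by simp [ex]
lemma ex_im (k : ℕ) (τ : ℝ) : (ex k τ).im = τ := by simp [ex]

/-- the function to which Poisson summation is applied -/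
noncomputable def pf (k : ℕ) (τ : ℝ) (r : ℂ) (x : ℝ) : ℂ :=
  ((max x 0 : ℝ) : ℂ) ^ (ex k τ) * Complex.exp (-(r * x))

lemma pf_cont {k : ℕ} (hk : 1 ≤ k) (τ : ℝ) (r : ℂ) : Continuous (pf k τ r) := by
  have h0 : 0 < (ex k τ).re := by rw [ex_re]; exact_mod_cast hk
  have h1 := Complex.continuous_ofReal_cpow_const h0
  have h2 : Continuous fun x : ℝ => ((max x 0 : ℝ) : ℂ) ^ (ex k τ) :=
    h1.comp (continuous_id.max continuous_const)
  unfold pf
  exact h2.mul (by fun_prop)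

lemma pf_nonpos {k : ℕ} (hk : 1 ≤ k) (τ : ℝ) (r : ℂ) {x : ℝ} (hx : x ≤ 0) : pf k τ r x = 0 := by
  unfold pf
  rw [max_eq_right hx, Complex.ofReal_zero, Complex.zero_cpow, zero_mul]
  intro h
  have := congrArg Complex.re h
  rw [ex_re] at this
  simp at this
  omega

lemma pf_pos {k : ℕ} (τ : ℝ) (r : ℂ) {x : ℝ} (hx : 0 < x) :
    pf k τ r x = (x : ℂ) ^ (ex k τ) * Complex.exp (-(r * x)) := by
  unfold pf
  rw [max_eq_left hx.le]

lemma pf_norm {k : ℕ} (τ : ℝ) (r : ℂ) {x : ℝ} (hx : 0 < x) :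
    ‖pf k τ r x‖ = x ^ k * Real.exp (-(r.re * x)) := by
  rw [pf_pos τ r hx, norm_mul, norm_cpow_pos _ hx, norm_exp_mul, ex_re, Real.rpow_natCast]

lemma pf_decay {k : ℕ} (hk : 1 ≤ k) (τ : ℝ) {r : ℂ} (hr : 0 < r.re) :
    (pf k τ r) =O[cocompact ℝ] (fun x => |x| ^ (-(2 : ℝ))) := by
  rw [cocompact_eq_atBot_atTop, isBigO_sup]
  constructor
  · have h : pf k τ r =ᶠ[atBot] fun _ => 0 := by
      filter_upwards [eventually_le_atBot (0 : ℝ)] with x hx
      exact pf_nonpos hk τ r hx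
    exact h.trans_isBigO (isBigO_zero _ _)
  · have h1 := isLittleO_exp_neg_mul_rpow_atTop hr (-2 - (k : ℝ))
    have h2 : (fun x : ℝ => x ^ k * Real.exp (-r.re * x)) =O[atTop]
        fun x : ℝ => x ^ k * x ^ (-2 - (k : ℝ)) :=
      (isBigO_refl _ _).mul h1.isBigO
    have h3 : (fun x : ℝ => x ^ k * x ^ (-2 - (k : ℝ))) =ᶠ[atTop] fun x => |x| ^ (-(2 : ℝ)) := by
      filter_upwards [eventually_gt_atTop (0 : ℝ)] with x hx
      rw [← Real.rpow_natCast, ← Real.rpow_add hx, abs_of_pos hx]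
      congr 1
      ring
    have h4 := h2.congr' (EventuallyEq.refl _ _) h3
    apply IsBigO.of_norm_left
    refine h4.congr' ?_ (EventuallyEq.refl _ _)
    filter_upwards [eventually_gt_atTop (0 : ℝ)] with x hx
    rw [pf_norm τ r hx, neg_mul]

lemma pf_fourier {k : ℕ} (hk : 1 ≤ k) (τ : ℝ) {r : ℂ} (hr : 0 < r.re) (ξ : ℝ) :
    𝓕 (pf k τ r) ξ = Complex.Gamma (ex k τ + 1) *
      (r + 2 * Real.pi * ξ * Complex.I) ^ (-(ex k τ + 1)) := by
  have h0 : 0 < (ex k τ + 1).re := by rw [Complex.add_re, ex_re]; simp; positivity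
  have h1 : 0 < (r + 2 * Real.pi * ξ * Complex.I).re := by simpa using hr
  rw [← laplace h0 h1, Real.fourier_real_eq_integral_exp_smul]
  unfold LT
  rw [← setIntegral_eq_integral_of_forall_compl_eq_zero (s := Ioi (0 : ℝ))]
  · apply setIntegral_congr_fun measurableSet_Ioi
    intro x hx
    simp only
    rw [pf_pos τ r hx, smul_eq_mul, mul_left_comm, ← Complex.exp_add, add_sub_cancel_right]
    congr 2
    push_cast
    ring
  · intro x hx
    rw [pf_nonpos hk τ r (not_lt.1 hx), smul_zero]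

lemma norm_cpow_bound (k : ℕ) (τ : ℝ) {z : ℂ} (hz : z ≠ 0) :
    ‖z ^ (-(ex k τ + 1))‖ = ‖z‖ ^ (-((k : ℝ) + 1)) * Real.exp (τ * Complex.arg z) := by
  rw [Complex.norm_cpow_of_ne_zero hz]
  have h1 : (-(ex k τ + 1)).re = -((k : ℝ) + 1) := by simp [ex]
  have h2 : (-(ex k τ + 1)).im = -τ := by simp [ex]
  rw [h1, h2, div_eq_mul_inv, ← Real.exp_neg]
  congr 2
  ring

lemma dual_decay {k : ℕ} (hk : 1 ≤ k) (τ : ℝ) {r : ℂ} (hr : 0 < r.re) :
    (fun ξ : ℝ => (r + 2 * Real.pi * ξ * Complex.I) ^ (-(ex k τ + 1))) =O[cocompact ℝ]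
      (fun x => |x| ^ (-(2 : ℝ))) := by
  apply IsBigO.of_bound (Real.exp (|τ| * Real.pi))
  have h1 : ∀ᶠ x : ℝ in cocompact ℝ, |r.im| + 1 ≤ ‖x‖ := by
    have := tendsto_norm_cocompact_atTop (E := ℝ)
    exact this.eventually_ge_atTop _
  filter_upwards [h1] with x hx
  set z : ℂ := r + 2 * Real.pi * x * Complex.I with hz
  have hzre : z.re = r.re := by simp [hz]
  have hzim : z.im = r.im + 2 * Real.pi * x := by simp [hz]
  have hz0 : z ≠ 0 := fun h => by rw [h] at hzre; simp at hzre; linarith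
  rw [norm_cpow_bound k τ hz0]
  rw [Real.norm_eq_abs] at hx
  have hp := Real.pi_gt_three
  have hx1 : 1 ≤ |x| := by linarith [abs_nonneg r.im]
  have h2 : |x| ≤ ‖z‖ := by
    refine le_trans ?_ (Complex.abs_im_le_norm z)
    rw [hzim]
    have h3 : |2 * Real.pi * x| = 2 * Real.pi * |x| := by
      rw [abs_mul, abs_of_pos (by positivity)]
    have h4 : |2 * Real.pi * x| ≤ |r.im + 2 * Real.pi * x| + |r.im| := by
      calc |2 * Real.pi * x| = |(r.im + 2 * Real.pi * x) - r.im| := by congr 1; ring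
        _ ≤ _ := abs_sub _ _
    rw [h3] at h4
    nlinarith
  have h5 : ‖z‖ ^ (-((k : ℝ) + 1)) ≤ |x| ^ (-(2 : ℝ)) := by
    calc ‖z‖ ^ (-((k : ℝ) + 1)) ≤ |x| ^ (-((k : ℝ) + 1)) :=
          Real.rpow_le_rpow_of_nonpos (by linarith) h2 (by
            have : (0 : ℝ) ≤ k := by positivity
            linarith)
      _ ≤ |x| ^ (-(2 : ℝ)) := by
          apply Real.rpow_le_rpow_of_exponent_le hx1
          have : (1 : ℝ) ≤ k := by exact_mod_cast hk
          linarith
  have h6 : Real.exp (τ * Complex.arg z) ≤ Real.exp (|τ| * Real.pi) := by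
    apply Real.exp_le_exp.2
    calc τ * Complex.arg z ≤ |τ * Complex.arg z| := le_abs_self _
      _ = |τ| * |Complex.arg z| := abs_mul _ _
      _ ≤ |τ| * Real.pi := mul_le_mul_of_nonneg_left (Complex.abs_arg_le_pi z) (abs_nonneg _)
  rw [Real.norm_of_nonneg (by positivity : (0 : ℝ) ≤ |x| ^ (-(2 : ℝ))), mul_comm]
  exact mul_le_mul h6 h5 (by positivity) (by positivity)

theorem dual_summable {k : ℕ} (hk : 1 ≤ k) (τ : ℝ) {r : ℂ} (hr : 0 < r.re) :
    Summable fun ξ : ℤ => (r + 2 * Real.pi * ξ * Complex.I) ^ (-(ex k τ + 1)) := by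
  have h := (dual_decay hk τ hr).comp_tendsto Int.tendsto_coe_cofinite
  have h2 := summable_of_isBigO (Real.summable_abs_int_rpow (b := 2) one_lt_two) h
  refine h2.congr fun ξ => ?_
  simp

theorem prim_summable {k : ℕ} (hk : 1 ≤ k) (τ : ℝ) {r : ℂ} (hr : 0 < r.re) :
    Summable fun n : ℤ => pf k τ r n := by
  have h := (pf_decay hk τ hr).comp_tendsto Int.tendsto_coe_cofinite
  exact summable_of_isBigO (Real.summable_abs_int_rpow (b := 2) one_lt_two) h

theorem poisson {k : ℕ} (hk : 1 ≤ k) (τ : ℝ) {r : ℂ} (hr : 0 < r.re) :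
    ∑' n : ℕ, (n : ℂ) ^ (ex k τ) * Complex.exp (-(r * n)) = Complex.Gamma (ex k τ + 1) *
      ∑' ξ : ℤ, (r + 2 * Real.pi * ξ * Complex.I) ^ (-(ex k τ + 1)) := by
  have hF : (𝓕 (pf k τ r)) =O[cocompact ℝ] (fun x => |x| ^ (-(2 : ℝ))) := by
    have := (dual_decay hk τ hr).const_mul_left (Complex.Gamma (ex k τ + 1))
    refine this.congr_left fun ξ => ?_
    rw [pf_fourier hk τ hr]
  have h := Real.tsum_eq_tsum_fourier_of_rpow_decay (pf_cont hk τ r) one_lt_two
    (pf_decay hk τ hr) hF 0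
  have h1 : ∑' n : ℤ, pf k τ r (0 + n) = ∑' n : ℕ, (n : ℂ) ^ (ex k τ) * Complex.exp (-(r * n)) := by
    have hinj : Function.Injective ((↑) : ℕ → ℤ) := Nat.cast_injective
    have h2 : Function.support (fun n : ℤ => pf k τ r (0 + n)) ⊆ Set.range ((↑) : ℕ → ℤ) := by
      intro n hn
      by_contra hc
      apply hn
      have : n < 0 := by
        by_contra h3
        exact hc ⟨n.toNat, Int.toNat_of_nonneg (not_lt.1 h3)⟩
      simp only [zero_add]
      exact pf_nonpos hk τ r (by exact_mod_cast this.le)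
    rw [← hinj.tsum_eq h2]
    apply tsum_congr
    intro n
    rcases Nat.eq_zero_or_pos n with h3 | h3
    · subst h3
      simp only [Nat.cast_zero, Int.cast_zero, zero_add]
      rw [pf_nonpos hk τ r le_rfl, Complex.zero_cpow, zero_mul]
      intro h
      have := congrArg Complex.re h
      rw [ex_re] at this
      simp at this
      omega
    · have h4 : (0 : ℝ) < n := by exact_mod_cast h3
      simp only [Int.cast_natCast, zero_add]
      rw [pf_pos τ r h4]
      simp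
  rw [← h1, h, ← tsum_mul_left]
  apply tsum_congr
  intro ξ
  rw [pf_fourier hk τ hr]
  simp

end Pool.Agent.KS6_54.ML
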