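import Pool.Agent.KS6_54.ML.Win2
import Pool.Agent.KS6_54.ML.OffEv

set_option autoImplicit false

/-!
# The twisted second moment over intervals of length `T ^ (1/3 + 3 e)`
-/

namespace Pool.Agent.KS6_54.ML

open Finset Filter MeasureTheory Complex
open Pool.Agent.W184.NZ
open Pool.Agent.TH806 (Ix TT gt SF MS fS dual_int' gt_nonneg)
open Pool.Agent.T6.H57.SM (gp_sum gp_cont' gp_le' win_cs SF4 zeta_pt)
open Pool.Agent.Y755 (IZ P1 es Bd1 BS BS_Bd BS_l1 sum_BS gpd gpd_zero es_norm_le es_diff cl_cont_zeta half_re l1'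
  l1'_nonneg yT)
open Pool.Agent.H448R2.GC (cu cs sm)
open Pool.Agent.H448R2.GC.M1 (gg gg_nonneg gg_cont gg_int cs_bdd cs_cont)

noncomputable section

/-- the twisted second moment over short intervals -/
theorem s2m3 {c : ℝ} {z Rs : ℕ} {e η d : ℝ} (hz : 1000 ≤ z) (hRs : 1 ≤ Rs) (he : 0 < e) (he1 : e ≤ 1 / 100)
    (hη : 0 < η) (hη1 : 180 * (η * ((Rs:ℝ) + 1)) ≤ e) (hd : 0 ≤ d) :
    ∃ C : ℝ, 0 < C ∧ ∀ᶠ T : ℝ in atTop, ∀ J : ℕ, (z:ℝ) ≤ yT η T → bb (yT η T) J < 144 →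
      Rg c J (IZ z (yT η T)) (bb (yT η T)) → |∑ i ∈ range J, vI (IZ z (yT η T) i) - Real.log (Real.log T)| ≤ d →
      ∀ a : ℝ, |a| ≤ 1 → ∀ U H : ℝ, T / 8 ≤ U → U + H ≤ 8 * T → T ^ (1 / 3 + 3 * e) ≤ H →
      ∫ t in U..(U + H), ‖riemannZeta (Pool.Agent.H306R2.SM.cl t)‖ ^ 2 * gp J a (RR Rs) (IZ z (yT η T)) t ≤
        C * (H * Real.log T ^ ((1 + a) ^ 2)) := by
  obtain ⟨k₀, hk₀⟩ := zeta_pt he (by linarith) 1 le_rfl
  set k := max k₀ 7 with hk
  have hk7 : 7 ≤ k := le_max_right _ _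
  obtain ⟨Cz, T₀, hCz, hz'⟩ := hk₀ k (le_max_left _ _)
  obtain ⟨C4, hC40, hC4⟩ := SF4 c (1 / η) e 1 z k hz he le_rfl (by omega)
  refine ⟨(3 * (6 * (C4 + 1)) + Cz * (2 * (960 * (C4 + 1)))) * Real.exp (4 * d) + 3, by positivity, ?_⟩
  filter_upwards [eventually_ge_atTop T₀, eventually_ge_atTop (1:ℝ),
    Real.tendsto_log_atTop.eventually_ge_atTop 1, off_ev he he1] with T hT0' hT1 hL1 hoff
  intro J hzy hJ hrg hV a ha U H hU1 hU2 hH
  have hT0 : 0 < T := by linarith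
  set L := Real.log T with hLd
  have hL0 : 0 < L := by linarith
  have hRs0 : (0:ℝ) ≤ Rs := Nat.cast_nonneg _
  set y := yT η T with hy
  have hly : Real.log y = η * L := Real.log_exp _
  have hz1 : (1000:ℝ) ≤ z := by exact_mod_cast hz
  have hy1 : 1 ≤ y := by linarith
  have hη2 : η ≤ e := by nlinarith
  have hη3 : η ≤ 1 := by linarith
  have hHpos : 0 < H := lt_of_lt_of_le (by positivity) hH
  set V := ∑ i ∈ range J, vI (IZ z y i) with hVd
  have hV0 : 0 ≤ V := sum_nonneg fun i _ => vI_nonneg _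
  set P := L ^ ((1 + a) ^ 2) with hP
  have hP1 : 1 ≤ P := Real.one_le_rpow hL1 (sq_nonneg _)
  set E := Real.exp ((1 + a) ^ 2 * V) with hE
  obtain ⟨ha1, ha2⟩ := abs_le.mp ha
  have hE0 : 0 < E := Real.exp_pos _
  have hE1 : 1 ≤ E := Real.one_le_exp (mul_nonneg (sq_nonneg _) hV0)
  have hEP : E ≤ Real.exp (4 * d) * P := by
    rw [hE, hP, Real.rpow_def_of_pos hL0, ← Real.exp_add]
    refine Real.exp_le_exp.mpr ?_
    have h1 := (abs_le.mp hV).2
    have h2 : (1 + a) ^ 2 * V ≤ (1 + a) ^ 2 * (Real.log L + d) := mul_le_mul_of_nonneg_left (by linarith) (sq_nonneg _)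
    have h3 : (1 + a) ^ 2 * d ≤ 4 * d := mul_le_mul_of_nonneg_right (by nlinarith) hd
    linarith
  -- lengths
  have hexpL : Real.exp L = T := by rw [hLd, Real.exp_log hT0]
  set c' : ℝ := e * L / k with hc'
  have hk0 : (0:ℝ) < k := by exact_mod_cast (by omega : 0 < k)
  have hc'0 : 0 < c' := by rw [hc']; positivity
  have hkc : (k:ℝ) * c' = e * L := by
    rw [hc']; field_simp
  set M3 : ℕ := ⌊T ^ (1 / 2 + 3 * e)⌋₊ with hM3
  set N : ℕ := M3 + 1 with hN
  have hTe : T ^ (1 / 2 + 3 * e) = Real.exp ((1 / 2 + 3 * e) * L) := by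
    rw [Real.rpow_def_of_pos hT0, mul_comm]
  have hM3T : (M3:ℝ) ≤ T := by
    refine (Nat.floor_le (by positivity)).trans ?_
    have := Real.rpow_le_rpow_of_exponent_le hT1 (show 1 / 2 + 3 * e ≤ 1 by linarith)
    rwa [Real.rpow_one] at this
  set Y : ℝ := Real.exp (Real.log y * (80 * ((Rs:ℝ) + 1))) with hYd
  have hY0 : 0 < Y := Real.exp_pos _
  have hYT : Y ≤ T ^ (e / 2) := by
    rw [hYd, hly, Real.rpow_def_of_pos hT0, ← hLd]
    refine Real.exp_le_exp.mpr ?_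
    have h4 : 180 * (η * ((Rs:ℝ) + 1)) * L ≤ e * L := mul_le_mul_of_nonneg_right hη1 hL0.le
    have h3 : 0 ≤ η * ((Rs:ℝ) + 1) * L := by positivity
    linarith
  have hZT : Real.exp (Real.log y * (180 * ((Rs:ℝ) + 1))) ≤ T ^ e := by
    rw [hly, Real.rpow_def_of_pos hT0, ← hLd]
    refine Real.exp_le_exp.mpr ?_
    have h4 : 180 * (η * ((Rs:ℝ) + 1)) * L ≤ e * L := mul_le_mul_of_nonneg_right hη1 hL0.le
    linarith
  have hMS1 : ∀ D : ℝ, D ≤ (1 / 2 + e) * L → (MS k c' D : ℝ) ≤ Real.exp ((1 / 2 + 2 * e) * L) := by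
    intro D hD
    unfold MS
    refine (Nat.floor_le (Real.exp_pos _).le).trans (Real.exp_le_exp.mpr ?_)
    rw [hkc]; linarith
  have hMS0 : ∀ D : ℝ, 0 ≤ D → 1 ≤ MS k c' D := by
    intro D hD
    unfold MS
    refine Nat.le_floor ?_
    push_cast
    refine Real.one_le_exp ?_
    rw [hkc]; positivity
  have hMS : ∀ D : ℝ, D ≤ (1 / 2 + e) * L → MS k c' D * ⌊Y⌋₊ ≤ M3 ∧ MS k c' D ≤ M3 := by
    intro D hD
    have h1 := hMS1 D hD
    have h2 : ((⌊Y⌋₊ : ℕ) : ℝ) ≤ Real.exp (e * L) := by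
      refine (Nat.floor_le (Real.exp_pos _).le).trans (Real.exp_le_exp.mpr ?_)
      rw [hly]
      have h3 : 0 ≤ η * ((Rs:ℝ) + 1) * L := by positivity
      have h4 : 180 * (η * ((Rs:ℝ) + 1)) * L ≤ e * L := mul_le_mul_of_nonneg_right hη1 hL0.le
      linarith
    constructor
    · refine Nat.le_floor ?_
      rw [hTe]
      push_cast
      calc (MS k c' D : ℝ) * ((⌊Y⌋₊ : ℕ) : ℝ) ≤
          Real.exp ((1 / 2 + 2 * e) * L) * Real.exp (e * L) := mul_le_mul h1 h2 (Nat.cast_nonneg _) (Real.exp_pos _).le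
        _ = _ := by rw [← Real.exp_add]; congr 1; ring
    · refine Nat.le_floor ?_
      rw [hTe]
      refine h1.trans (Real.exp_le_exp.mpr ?_)
      have : 0 ≤ e * L := by positivity
      linarith
  have hlogN : ∀ p : ℕ, p < N → Real.log p ≤ 3 * L := by
    intro p hp
    rcases Nat.eq_zero_or_pos p with h0 | h0
    · rw [h0]; simp; linarith
    have h1 : (p:ℝ) ≤ T ^ (1 / 2 + 3 * e) := by
      have : p ≤ M3 := by omega
      exact (Nat.cast_le.mpr this).trans (Nat.floor_le (by positivity))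
    have h2 := Real.log_le_log (by exact_mod_cast h0) h1
    rw [Real.log_rpow hT0] at h2
    refine h2.trans ?_
    exact mul_le_mul_of_nonneg_right (by linarith) hL0.le
  have hyN : y < N := by
    have h1 : y ≤ T ^ (1 / 2 + 3 * e) := by
      rw [hTe, hy]
      unfold yT
      refine Real.exp_le_exp.mpr (mul_le_mul_of_nonneg_right (by linarith) hL0.le)
    rw [hN]
    push_cast
    exact lt_of_le_of_lt h1 (Nat.lt_floor_add_one _)
  have hyL : Real.log y ≤ L := by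
    rw [hly]
    calc η * L ≤ 1 * L := mul_le_mul_of_nonneg_right hη3 hL0.le
      _ = L := one_mul L
  have hLy : L ≤ 1 / η * Real.log y := by rw [hly]; field_simp; exact le_rfl
  have h1L : 0 < 1 / L := by positivity
  -- the sums over the pairs
  have hSP : ∀ D ρ y' : ℝ, 0 ≤ D → D ≤ (1 / 2 + e) * L → 0 ≤ ρ → |y'| ≤ T / 16 →
      0 ≤ Dl (MS k c' D) (U + y') H Y L ∧ 2 * Dl (MS k c' D) (U + y') H Y L * T ^ e ≤ 1 ∧
      ∀ m n : ℕ, m ≠ 0 → n ≠ 0 → (m:ℝ) ≤ Y → (n:ℝ) ≤ Y →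
      ‖SP (gS k c' D ρ) (U + y') H (MS k c' D) m n‖ ≤ Dl (MS k c' D) (U + y') H Y L := by
    intro D ρ y' hD0 hD hρ hy'
    obtain ⟨y1, y2⟩ := abs_le.mp hy'
    have hMT : (MS k c' D : ℝ) ≤ T ^ (1 / 2 + 2 * e) := by
      rw [Real.rpow_def_of_pos hT0, mul_comm, ← hLd]
      exact hMS1 D hD
    obtain ⟨o1, o2, o3⟩ := hoff (MS k c' D) (U + y') H Y (hMS0 D hD0) hMT (by linarith) (by linarith) hH hY0 hYT
    refine ⟨Dl_nonneg hHpos hY0.le hL0.le, o3, fun m n hm hn hmY hnY => ?_⟩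
    exact SP_bound (gS_Gw hc'0 hρ) (hMS0 D hD0) (Nat.one_le_iff_ne_zero.mpr hm) (Nat.one_le_iff_ne_zero.mpr hn)
      (by linarith) hHpos hL0.le o1 o2 hmY hnY
  set M : ℝ → ℝ := gp J a (RR Rs) (IZ z y) with hM
  have hM0 : ∀ t, 0 ≤ M t := fun t => gp_nonneg _ _ _ _ t
  have hMc : Continuous M := gp_cont' hy1 hrg
  have hMB : ∀ t, M t ≤ T := by
    intro t
    refine (gp_le' hy1 hrg hRs (by linarith) t).trans ?_
    refine hZT.trans ?_
    have := Real.rpow_le_rpow_of_exponent_le hT1 (show e ≤ 1 by linarith)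
    rwa [Real.rpow_one] at this
  -- the two quadratic quantities
  set Q₁ : ℝ → ℝ := fun t => ‖cs k c' (1 / 2 * L) (((1 / 2 + 0 : ℝ) : ℂ) + ((0:ℝ) : ℂ) * I + (t : ℂ) * I)‖ ^ 2 with hQ₁
  set Q : ℝ → ℝ → ℝ := fun t y' =>
    ‖cs k c' ((1 / 2 + e) * L) (((1 / 2 + 1 / L : ℝ) : ℂ) + ((t + y' : ℝ) : ℂ) * I)‖ ^ 2 with hQ
  obtain ⟨B, hB0, hB⟩ := cs_bdd k c' ((1 / 2 + e) * L)
  have hQ₁0 : ∀ t, 0 ≤ Q₁ t := fun t => pow_nonneg (norm_nonneg _) 2
  have hQ0 : ∀ t y', 0 ≤ Q t y' := fun t y' => pow_nonneg (norm_nonneg _) 2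
  have hQB : ∀ t y', Q t y' ≤ B ^ 2 := by
    intro t y'
    refine pow_le_pow_left₀ (norm_nonneg _) (hB _ ?_) 2
    have : (((1 / 2 + 1 / L : ℝ) : ℂ) + ((t + y' : ℝ) : ℂ) * I).re = 1 / 2 + 1 / L := by simp
    rw [this]; positivity
  have hQ₁c : Continuous Q₁ := by
    rw [hQ₁]
    exact ((cs_cont k c' (1 / 2 * L)).comp (by fun_prop :
      Continuous fun t : ℝ => (((1 / 2 + 0 : ℝ) : ℂ) + ((0:ℝ) : ℂ) * I + (t : ℂ) * I))).norm.pow 2
  have hQc : Continuous (Function.uncurry Q) := by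
    rw [hQ]
    exact ((cs_cont k c' ((1 / 2 + e) * L)).comp (by fun_prop :
      Continuous fun p : ℝ × ℝ => (((1 / 2 + 1 / L : ℝ) : ℂ) + ((p.1 + p.2 : ℝ) : ℂ) * I))).norm.pow 2
  have hUH : U ≤ U + H := by linarith
  set μ : Measure ℝ := volume.restrict (Set.Ioc U (U + H)) with hμ
  have : IsFiniteMeasure μ := by rw [hμ]; exact ⟨by simp⟩
  obtain ⟨hdI, hdE⟩ := dual_int' (μ := μ) (gg L k) M (fun _ => (1:ℝ)) Q
    T (B ^ 2) (gg_int L k hL1 (by omega)) (integrable_const _) hM0 hMB hMc hQ0 hQB hQc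
  simp only [one_mul] at hdI hdE
  -- integrability
  have i1 : Integrable (fun t => Q₁ t * M t) μ :=
    ((hQ₁c.mul hMc).integrableOn_Icc (a := U) (b := U + H)).mono_set Set.Ioc_subset_Icc_self
  have i3 : Integrable M μ := (hMc.integrableOn_Icc (a := U) (b := U + H)).mono_set Set.Ioc_subset_Icc_self
  have hFc : Continuous fun t : ℝ => ‖riemannZeta (Pool.Agent.H306R2.SM.cl t)‖ ^ 2 * M t := cl_cont_zeta.mul hMc
  have iF : Integrable (fun t : ℝ => ‖riemannZeta (Pool.Agent.H306R2.SM.cl t)‖ ^ 2 * M t) μ :=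
    (hFc.integrableOn_Icc (a := U) (b := U + H)).mono_set Set.Ioc_subset_Icc_self
  -- the pointwise bound
  have hpt : ∀ t ∈ Set.Ioc U (U + H), ‖riemannZeta (Pool.Agent.H306R2.SM.cl t)‖ ^ 2 * M t ≤ 3 * (Q₁ t * M t) +
      Cz * ((∫ y', Q t y' * gg L k y') * M t) + 3 * (T ^ (-1 : ℝ)) ^ 2 * M t := by
    intro t ht
    have h1 := hz' T hT0' t (hU1.trans ht.1.le) (ht.2.trans hU2)
    rw [← hLd] at h1
    have e1 : (((sm 1 T + 1 / L : ℝ) : ℂ) + (t : ℂ) * I) = Pool.Agent.H306R2.SM.cl t := by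
      have : sm 1 T + 1 / L = 1 / 2 := by unfold sm; rw [← hLd]; ring
      rw [this]; unfold Pool.Agent.H306R2.SM.cl; push_cast; ring
    rw [e1] at h1
    have e2 : Q₁ t = ‖cs k c' (1 / 2 * L) (Pool.Agent.H306R2.SM.cl t)‖ ^ 2 := by
      simp only [hQ₁]
      congr 3
      unfold Pool.Agent.H306R2.SM.cl; push_cast; ring
    rw [← e2] at h1
    have h2 := mul_le_mul_of_nonneg_right h1 (hM0 t)
    refine h2.trans (le_of_eq ?_)
    simp only [hQ]
    ring
  have hmain : ∫ t in U..(U + H), ‖riemannZeta (Pool.Agent.H306R2.SM.cl t)‖ ^ 2 * M t ≤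
      3 * (∫ t, Q₁ t * M t ∂μ) + Cz * (∫ t, (∫ y', Q t y' * gg L k y') * M t ∂μ) +
      3 * (T ^ (-1 : ℝ)) ^ 2 * ∫ t, M t ∂μ := by
    rw [intervalIntegral.integral_of_le hUH]
    have i12 : Integrable (fun t => 3 * (Q₁ t * M t) + Cz * ((∫ y', Q t y' * gg L k y') * M t)) μ :=
      (i1.const_mul 3).add (hdI.const_mul Cz)
    have i123 : Integrable (fun t => 3 * (Q₁ t * M t) + Cz * ((∫ y', Q t y' * gg L k y') * M t) +
        3 * (T ^ (-1 : ℝ)) ^ 2 * M t) μ := i12.add (i3.const_mul _)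
    calc _ ≤ ∫ t, (3 * (Q₁ t * M t) + Cz * ((∫ y', Q t y' * gg L k y') * M t) + 3 * (T ^ (-1 : ℝ)) ^ 2 * M t) ∂μ :=
          setIntegral_mono_on iF i123 measurableSet_Ioc hpt
      _ = _ := by
          rw [integral_add i12 (i3.const_mul _), integral_add (i1.const_mul 3) (hdI.const_mul Cz),
            integral_const_mul, integral_const_mul, integral_const_mul]
  -- the error off the diagonal
  have herr : ∀ Δ : ℝ, 0 ≤ Δ → 2 * Δ * T ^ e ≤ 1 →
      6 * H * ((2 * Δ) * Real.exp (Real.log y * (180 * ((Rs:ℝ) + 1)))) ≤ 6 * H := by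
    intro Δ hΔ0 hΔ
    have h1 : (2 * Δ) * Real.exp (Real.log y * (180 * ((Rs:ℝ) + 1))) ≤ 1 :=
      (mul_le_mul_of_nonneg_left hZT (by positivity)).trans hΔ
    calc _ ≤ 6 * H * 1 := mul_le_mul_of_nonneg_left h1 (by positivity)
      _ = _ := by ring
  -- first
  have hD12 : 1 / 2 * L ≤ (1 / 2 + e) * L := mul_le_mul_of_nonneg_right (by linarith) hL0.le
  have b1 : ∫ t, Q₁ t * M t ∂μ ≤ 6 * (C4 + 1) * (H * E) := by
    obtain ⟨d1, d2, d3⟩ := hSP (1 / 2 * L) 0 0 (by positivity) hD12 le_rfl (by rw [abs_zero]; positivity)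
    have h1 := win_cs2 (N := N) (a := a) (Rs := Rs) hy1 hrg hRs (by linarith) (k := k) (M3 := M3) (c' := c')
      (D := 1 / 2 * L) (ρ := 0) (y' := 0) hHpos U
      (hMS _ hD12).1 (by omega) d1 d3
    rw [intervalIntegral.integral_of_le hUH] at h1
    have h2 := hC4 y L 0 0 a (1 / 2 * L) N J Rs hzy hJ hrg hRs hlogN hL1 ha hyL hLy hyN
      (by rw [abs_of_nonneg (by positivity)]; linarith) le_rfl h1L.le
      (by have := (hMS (1 / 2 * L) hD12).2
          rw [← hc']; omega)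
    have e0 : (1 + L * |(0:ℝ)|) ^ 4 = 1 := by simp
    rw [e0, mul_one] at h2
    have h3 := herr _ d1 d2
    have h4 : 6 * H ≤ 6 * H * E := le_mul_of_one_le_right (by positivity) hE1
    refine h1.trans ?_
    have h5 := mul_le_mul_of_nonneg_left h2 (by positivity : 0 ≤ 6 * H)
    have h6 : 6 * (C4 + 1) * (H * E) = 6 * H * (C4 * E) + 6 * H * E := by ring
    rw [h6]
    linarith
  -- dual
  have b2 : ∫ t, (∫ y', Q t y' * gg L k y') * M t ∂μ ≤ 2 * (960 * (C4 + 1)) * (H * E) := by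
    rw [hdE]
    have h1 : ∀ y', gg L k y' * ∫ t, Q t y' * M t ∂μ ≤ 960 * (C4 + 1) * (H * E) * gg L (k - 5) y' := by
      intro y'
      have hp : 0 ≤ L * |y'| := by positivity
      have e5 : ∀ t : ℝ, ‖cs k c' ((1 / 2 + e) * L) (((1 / 2 + 1 / L : ℝ) : ℂ) + (y' : ℂ) * I + (t:ℂ) * I)‖ ^ 2 *
          gp J a (RR Rs) (IZ z y) t = Q t y' * M t := by
        intro t
        simp only [hQ, hM]
        congr 4
        push_cast; ring
      have h2 := hC4 y L (1 / L) y' a ((1 / 2 + e) * L) N J Rs hzy hJ hrg hRs hlogN hL1 ha hyL hLy hyN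
        (by rw [abs_of_nonneg (by positivity)]
            exact mul_le_mul_of_nonneg_right (by linarith) hL0.le) h1L.le le_rfl
        (by have := (hMS ((1 / 2 + e) * L) le_rfl).2
            rw [← hc']; omega)
      have h4 : ∫ t, Q t y' * M t ∂μ ≤ 960 * (C4 + 1) * (H * E) * (1 + L * |y'|) ^ 5 := by
        have hpow : (1 + L * |y'|) ^ 4 ≤ (1 + L * |y'|) ^ 5 := pow_le_pow_right₀ (by linarith) (by norm_num)
        have hpow1 : 1 ≤ (1 + L * |y'|) ^ 5 := one_le_pow₀ (by linarith)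
        rcases le_or_gt |y'| (T / 16) with hy' | hy'
        · obtain ⟨d1, d2, d3⟩ := hSP ((1 / 2 + e) * L) (1 / L) y' (by positivity) le_rfl h1L.le hy'
          have h1 := win_cs2 (N := N) (a := a) (Rs := Rs) hy1 hrg hRs (by linarith) (k := k) (M3 := M3) (c' := c')
            (D := (1 / 2 + e) * L) (ρ := 1 / L) (y' := y') hHpos U (hMS _ le_rfl).1 (by omega) d1 d3
          rw [intervalIntegral.integral_of_le hUH] at h1
          simp_rw [e5] at h1
          have h3 := herr _ d1 d2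
          refine h1.trans ?_
          have h5 := mul_le_mul_of_nonneg_left h2 (by positivity : 0 ≤ 6 * H)
          have g1 : 6 * H * (C4 * E * (1 + L * |y'|) ^ 4) ≤ 6 * H * (C4 * E * (1 + L * |y'|) ^ 5) := by gcongr
          have g2 : 6 * H ≤ 6 * H * (E * (1 + L * |y'|) ^ 5) :=
            le_mul_of_one_le_right (by positivity) (one_le_mul_of_one_le_of_one_le hE1 hpow1)
          have g3 : 6 * H * (C4 * E * (1 + L * |y'|) ^ 5) + 6 * H * (E * (1 + L * |y'|) ^ 5) =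
              6 * ((C4 + 1) * (H * E) * (1 + L * |y'|) ^ 5) := by ring
          have g4 : 0 ≤ (C4 + 1) * (H * E) * (1 + L * |y'|) ^ 5 := by positivity
          linarith
        · have h1 := win_cs (N := N) (a := a) (Rs := Rs) hy1 hrg (k := k) (M3 := M3) (c' := c') (D := (1 / 2 + e) * L)
            (((1 / 2 + 1 / L : ℝ) : ℂ) + (y' : ℂ) * I) hHpos U (hMS _ le_rfl).1 (by omega : M3 < N)
          rw [intervalIntegral.integral_of_le hUH] at h1
          simp_rw [e5] at h1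
          have g1 : 60 * (H + (M3:ℝ)) ≤ 960 * (H * (1 + L * |y'|)) := by
            have g2 : (M3:ℝ) ≤ 16 * (L * |y'|) := by
              have : T ≤ 16 * |y'| := by linarith
              have g3 : |y'| ≤ L * |y'| := le_mul_of_one_le_left (abs_nonneg _) hL1
              linarith
            have hH1 : 1 ≤ H := le_trans (Real.one_le_rpow hT1 (by positivity)) hH
            have g4 : (M3:ℝ) ≤ H * (16 * (L * |y'|)) := by
              refine g2.trans ?_
              exact le_mul_of_one_le_left (by positivity) hH1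
            linarith
          calc _ ≤ 960 * (H * (1 + L * |y'|)) * (C4 * E * (1 + L * |y'|) ^ 4) := by
                refine h1.trans (mul_le_mul g1 h2 ?_ (by positivity))
                exact integral_nonneg fun θ => mul_nonneg (sq_nonneg _) (gt_nonneg _ _ _ _ _)
            _ = 960 * C4 * (H * E) * (1 + L * |y'|) ^ 5 := by ring
            _ ≤ _ := by gcongr; linarith
      calc gg L k y' * ∫ t, Q t y' * M t ∂μ
          ≤ gg L k y' * (960 * (C4 + 1) * (H * E) * (1 + L * |y'|) ^ 5) :=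
            mul_le_mul_of_nonneg_left h4 (gg_nonneg L k y' hL1)
        _ = 960 * (C4 + 1) * (H * E) * gg L (k - 5) y' := by
            unfold gg
            have : (1 + L * |y'|) ^ k = (1 + L * |y'|) ^ (k - 5) * (1 + L * |y'|) ^ 5 := by
              rw [← pow_add]; congr 1; omega
            rw [this]
            field_simp
    have h0 : 0 ≤ᵐ[volume] fun y' => gg L k y' * ∫ t, Q t y' * M t ∂μ :=
      Eventually.of_forall fun y' => mul_nonneg (gg_nonneg L k y' hL1)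
        (integral_nonneg fun t => mul_nonneg (hQ0 _ _) (hM0 _))
    have hi := (gg_int L (k - 5) hL1 (by omega)).const_mul (960 * (C4 + 1) * (H * E))
    refine (integral_mono_of_nonneg h0 hi (Eventually.of_forall h1)).trans ?_
    rw [integral_const_mul]
    have := Pool.Agent.H448R2.GC.scale_integral L (k - 5) hL1 (by omega)
    have h7 : ∫ y', gg L (k - 5) y' ≤ 2 := this
    calc 960 * (C4 + 1) * (H * E) * ∫ y', gg L (k - 5) y' ≤ 960 * (C4 + 1) * (H * E) * 2 :=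
          mul_le_mul_of_nonneg_left h7 (by positivity)
      _ = _ := by ring
  -- third
  have b3 : 3 * (T ^ (-1 : ℝ)) ^ 2 * ∫ t, M t ∂μ ≤ 3 * H := by
    have h1 : ∫ t, M t ∂μ ≤ T * H := by
      calc _ ≤ ∫ t, T ∂μ := integral_mono i3 (integrable_const _) hMB
        _ = T * H := by
            rw [hμ, setIntegral_const]
            simp [hHpos.le, mul_comm]
    have h2 : 0 ≤ T * H := by positivity
    have h3 : (T ^ (-1 : ℝ)) ^ 2 * T ≤ 1 := by
      rw [Real.rpow_neg_one]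
      have : (T⁻¹) ^ 2 * T = T⁻¹ := by field_simp
      rw [this]
      exact inv_le_one_of_one_le₀ hT1
    calc 3 * (T ^ (-1 : ℝ)) ^ 2 * ∫ t, M t ∂μ ≤ 3 * (T ^ (-1 : ℝ)) ^ 2 * (T * H) :=
          mul_le_mul_of_nonneg_left h1 (by positivity)
      _ = 3 * ((T ^ (-1 : ℝ)) ^ 2 * T) * H := by ring
      _ ≤ 3 * 1 * H := by gcongr
      _ = _ := by ring
  have hHP : H ≤ H * P := le_mul_of_one_le_right hHpos.le hP1
  have hfin : 3 * (6 * (C4 + 1) * (H * E)) + Cz * (2 * (960 * (C4 + 1)) * (H * E)) ≤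
      (3 * (6 * (C4 + 1)) + Cz * (2 * (960 * (C4 + 1)))) * (H * (Real.exp (4 * d) * P)) := by
    have h1 : 3 * (6 * (C4 + 1) * (H * E)) + Cz * (2 * (960 * (C4 + 1)) * (H * E)) =
        (3 * (6 * (C4 + 1)) + Cz * (2 * (960 * (C4 + 1)))) * (H * E) := by ring
    rw [h1]
    gcongr
  have b2' := mul_le_mul_of_nonneg_left b2 hCz.le
  calc ∫ t in U..(U + H), ‖riemannZeta (Pool.Agent.H306R2.SM.cl t)‖ ^ 2 * M t
      ≤ (3 * (6 * (C4 + 1)) + Cz * (2 * (960 * (C4 + 1)))) * (H * (Real.exp (4 * d) * P)) + 3 * (H * P) := by linarith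
    _ = _ := by ring

end

end Pool.Agent.KS6_54.ML
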