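import Pool.Agent.KS6_54.ML.Bij

set_option autoImplicit false

/-!
# The bound of the sum over the pairs
-/

namespace Pool.Agent.KS6_54.ML

open Finset
open Pool.Agent.Q231.RS (card_spread)

section
variable {g : ℕ → ℝ} {M : ℕ} {V H τ Y : ℝ} {m1 m2 : ℕ}

lemma kap_low {r s : ℕ} (hm1 : 1 ≤ m1) (hm2 : 1 ≤ m2) (hrs : m1 * r < m2 * s) :
    1 / ((m1:ℝ) * m2) ≤ (s:ℝ) / m1 - r / m2 := by
  have hm1' : (0:ℝ) < m1 := by exact_mod_cast hm1
  have hm2' : (0:ℝ) < m2 := by exact_mod_cast hm2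
  have e : (s:ℝ) / m1 - r / m2 = ((m2:ℝ) * s - m1 * r) / (m1 * m2) := by field_simp
  rw [e]
  refine div_le_div_of_nonneg_right ?_ (by positivity)
  have h3 : ((m1 * r + 1 : ℕ) : ℝ) ≤ ((m2 * s : ℕ) : ℝ) := by exact_mod_cast hrs
  push_cast at h3
  linarith

/-- the number of progressions -/
lemma count (hm1 : 1 ≤ m1) (hm2 : 1 ≤ m2) (hY1 : (m1:ℝ) ≤ Y) (hY2 : (m2:ℝ) ≤ Y) {K : ℝ} (hK : 0 ≤ K) (M : ℕ) :
    ∑ r ∈ range m2, ∑ s ∈ Icc 1 M, (if m1 * r < m2 * s ∧ (s:ℝ) / m1 - r / m2 ≤ K then (1:ℝ) else 0) ≤ 2 * Y ^ 3 * K := by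
  have hm1' : (0:ℝ) < m1 := by exact_mod_cast hm1
  have hm2' : (0:ℝ) < m2 := by exact_mod_cast hm2
  have hY0 : 0 < Y := by linarith
  have h1 : ∀ r ∈ range m2, ∑ s ∈ Icc 1 M, (if m1 * r < m2 * s ∧ (s:ℝ) / m1 - r / m2 ≤ K then (1:ℝ) else 0) ≤
      2 * (m1 * m2 * K) := by
    intro r _
    rw [← sum_filter, sum_const, nsmul_eq_mul, mul_one]
    set S := (Icc 1 M).filter (fun s => m1 * r < m2 * s ∧ (s:ℝ) / m1 - r / m2 ≤ K) with hS
    rcases S.eq_empty_or_nonempty with h0 | ⟨s0, hs0⟩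
    · rw [h0]; simp; positivity
    · have h2 : (S.card : ℝ) ≤ m1 * K + 1 := by
        apply card_spread (by positivity)
        intro i hi j hj hij
        rw [hS, mem_filter] at hi hj
        have a1 := kap_low hm1 hm2 hi.2.1
        have a2 := hj.2.2
        have a3 : 0 < 1 / ((m1:ℝ) * m2) := by positivity
        have a4 : (j:ℝ) / m1 - i / m1 ≤ K := by linarith
        rw [← sub_div, div_le_iff₀ hm1'] at a4
        linarith
      rw [hS, mem_filter] at hs0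
      have h3 := (kap_low hm1 hm2 hs0.2.1).trans hs0.2.2
      rw [div_le_iff₀ (by positivity)] at h3
      have h4 : (m1:ℝ) * K ≤ m1 * m2 * K := by
        have : (1:ℝ) ≤ m2 := by exact_mod_cast hm2
        have h5 : (m1:ℝ) * K * 1 ≤ m1 * K * m2 := mul_le_mul_of_nonneg_left this (by positivity)
        linarith
      linarith
  refine (sum_le_sum h1).trans ?_
  rw [sum_const, card_range, nsmul_eq_mul]
  have h2 : (m2:ℝ) * (m1 * m2) ≤ Y * (Y * Y) := by gcongr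
  calc (m2:ℝ) * (2 * (m1 * m2 * K)) = 2 * ((m2:ℝ) * (m1 * m2)) * K := by ring
    _ ≤ 2 * (Y * (Y * Y)) * K := by gcongr
    _ = _ := by ring

lemma log_lj {r s j : ℕ} (hm1 : 1 ≤ m1) (hm2 : 1 ≤ m2) (hj : 1 ≤ r + m2 * j) (hs : 1 ≤ s) :
    Real.log ((m2 * (s + m1 * j) : ℕ) : ℝ) - Real.log ((m1 * (r + m2 * j) : ℕ) : ℝ) = lj (r / m2) (s / m1) j := by
  have hm1' : (0:ℝ) < m1 := by exact_mod_cast hm1
  have hm2' : (0:ℝ) < m2 := by exact_mod_cast hm2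
  have hs' : (0:ℝ) < s := by exact_mod_cast hs
  have hj' : (0:ℝ) < ((r + m2 * j : ℕ) : ℝ) := by exact_mod_cast hj
  have e1 : ((m2 * (s + m1 * j) : ℕ) : ℝ) = (m1 * m2) * (j + s / m1) := by push_cast; field_simp; ring
  have e2 : ((m1 * (r + m2 * j) : ℕ) : ℝ) = (m1 * m2) * (j + r / m2) := by push_cast; field_simp; ring
  have h1 : 0 < (j:ℝ) + s / m1 := by positivity
  have h2 : 0 < (j:ℝ) + r / m2 := by
    have : (j:ℝ) + r / m2 = ((r + m2 * j : ℕ) : ℝ) / m2 := by push_cast; field_simp; ring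
    rw [this]; positivity
  rw [e1, e2, Real.log_mul (by positivity) h1.ne', Real.log_mul (by positivity) h2.ne']
  unfold lj
  ring

/-- one progression -/
lemma one_prog (hg : Gw g M) (hm1 : 1 ≤ m1) (hm2 : 1 ≤ m2) {r s : ℕ} (hr : r < m2) (hrs : m1 * r < m2 * s)
    (hV : 0 < V) (hH : 0 < H) (hτ : 0 ≤ τ) (hτH : 8 * τ ≤ H) (hτY : 4 * τ * Y ^ 2 ≤ H) (hY1 : (m1:ℝ) ≤ Y)
    (hY2 : (m2:ℝ) ≤ Y) (I : ℕ) :
    ‖∑ j ∈ range (2 ^ I), (if 1 ≤ r + m2 * j then Fj g V H m1 m2 r s j else 0)‖ ≤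
      ∑ i ∈ range I, (if m1 * r < m2 * s ∧ (s:ℝ) / m1 - r / m2 ≤ 8 * ((2 ^ i : ℕ) : ℝ) * τ / H then (1:ℝ) else 0) *
        BB V H τ Y ((2 ^ i : ℕ) : ℝ) + (2:ℝ) ^ I * Real.exp (-τ ^ 2) := by
  have hm1' : (0:ℝ) < m1 := by exact_mod_cast hm1
  have hm2' : (0:ℝ) < m2 := by exact_mod_cast hm2
  have hY0 : 0 < Y := by linarith
  have hκl := kap_low hm1 hm2 hrs
  set κ : ℝ := (s:ℝ) / m1 - r / m2 with hκ
  have hr1 : (r:ℝ) / m2 ≤ 1 := by rw [div_le_one hm2']; exact_mod_cast hr.le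
  have hr0 : 0 ≤ (r:ℝ) / m2 := by positivity
  set x : ℝ := 4 * τ / H with hx
  have hx0 : 0 ≤ x := by positivity
  have hx1 : x ≤ 1 := by rw [hx, div_le_one hH]; linarith
  have hxH : 4 * τ ≤ x * H := by rw [hx]; field_simp; exact le_rfl
  set E := Real.exp (-τ ^ 2) with hE
  have hE0 : 0 < E := Real.exp_pos _
  have e0 : range (2 ^ I) = insert 0 (Ico 1 (2 ^ I)) := by
    ext j
    rw [mem_range, mem_insert, mem_Ico]
    have : 0 < 2 ^ I := by positivity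
    omega
  rw [e0, sum_insert (by simp)]
  have e1 : ∑ j ∈ Ico 1 (2 ^ I), (if 1 ≤ r + m2 * j then Fj g V H m1 m2 r s j else 0) =
      ∑ i ∈ range I, ∑ j ∈ Ico (2 ^ i) (2 * 2 ^ i), Fj g V H m1 m2 r s j := by
    rw [← dyad]
    refine sum_congr rfl fun j hj => ?_
    rw [mem_Ico] at hj
    rw [if_pos]
    have : 1 ≤ m2 * j := Nat.mul_pos hm2 (by omega)
    omega
  rw [e1]
  have h0 : ‖(if 1 ≤ r + m2 * 0 then Fj g V H m1 m2 r s 0 else 0)‖ ≤ E := by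
    split_ifs with h
    · refine term_tail hg hH hm1 hm2 hrs hτ h hx0 hx1 hxH ?_
      refine le_trans ?_ hκl
      push_cast
      rw [zero_add]
      calc x * (r / m2) ≤ x * 1 := mul_le_mul_of_nonneg_left hr1 hx0
        _ ≤ 1 / ((m1:ℝ) * m2) := by
            rw [mul_one, hx, div_le_div_iff₀ hH (by positivity)]
            have : (m1:ℝ) * m2 ≤ Y ^ 2 := by rw [sq]; gcongr
            have h2 : 4 * τ * ((m1:ℝ) * m2) ≤ 4 * τ * Y ^ 2 := mul_le_mul_of_nonneg_left this (by positivity)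
            linarith
    · rw [norm_zero]; exact hE0.le
  have hi : ∀ i ∈ range I, ‖∑ j ∈ Ico (2 ^ i) (2 * 2 ^ i), Fj g V H m1 m2 r s j‖ ≤
      (if m1 * r < m2 * s ∧ κ ≤ 8 * ((2 ^ i : ℕ) : ℝ) * τ / H then (1:ℝ) else 0) *
        BB V H τ Y ((2 ^ i : ℕ) : ℝ) + (2:ℝ) ^ i * E := by
    intro i _
    have hJ : 1 ≤ 2 ^ i := Nat.one_le_two_pow
    by_cases h : κ ≤ 8 * ((2 ^ i : ℕ) : ℝ) * τ / H
    · rw [if_pos ⟨hrs, h⟩, one_mul]
      have h1 := block2 hg hm1 hm2 hr hrs hV hH hJ hτH hY1 hY2 h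
      have : 0 ≤ (2:ℝ) ^ i * E := by positivity
      linarith
    · rw [if_neg (fun h2 => h h2.2), zero_mul, zero_add]
      refine (norm_sum_le _ _).trans ?_
      have h1 : ∀ j ∈ Ico (2 ^ i) (2 * 2 ^ i), ‖Fj g V H m1 m2 r s j‖ ≤ E := by
        intro j hj
        rw [mem_Ico] at hj
        have h3 : 1 ≤ m2 * j := Nat.mul_pos hm2 (by omega)
        refine term_tail hg hH hm1 hm2 hrs hτ (by omega) hx0 hx1 hxH ?_
        push Not at h
        refine le_trans ?_ h.le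
        have h4 : (j:ℝ) + 1 ≤ 2 * ((2 ^ i : ℕ) : ℝ) := by exact_mod_cast (by omega : j + 1 ≤ 2 * 2 ^ i)
        calc x * (j + (r:ℝ) / m2) ≤ x * (2 * ((2 ^ i : ℕ) : ℝ)) := mul_le_mul_of_nonneg_left (by linarith) hx0
          _ = _ := by rw [hx]; ring
      refine (sum_le_sum h1).trans ?_
      rw [sum_const, Nat.card_Ico, nsmul_eq_mul]
      have : ((2 * 2 ^ i - 2 ^ i : ℕ) : ℝ) = (2:ℝ) ^ i := by
        have : 2 * 2 ^ i - 2 ^ i = 2 ^ i := by omega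
        rw [this]; push_cast; ring
      rw [this]
  have hs2 : ∑ i ∈ range I, (2:ℝ) ^ i * E = ((2:ℝ) ^ I - 1) * E := by
    rw [← sum_mul]
    congr 1
    have := geom_sum_mul (2:ℝ) I
    linarith
  calc _ ≤ ‖(if 1 ≤ r + m2 * 0 then Fj g V H m1 m2 r s 0 else 0)‖ +
        ∑ i ∈ range I, ‖∑ j ∈ Ico (2 ^ i) (2 * 2 ^ i), Fj g V H m1 m2 r s j‖ :=
        (norm_add_le _ _).trans (add_le_add le_rfl (norm_sum_le _ _))
    _ ≤ E + ∑ i ∈ range I, ((if m1 * r < m2 * s ∧ κ ≤ 8 * ((2 ^ i : ℕ) : ℝ) * τ / H then (1:ℝ) else 0) *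
        BB V H τ Y ((2 ^ i : ℕ) : ℝ) + (2:ℝ) ^ i * E) := add_le_add h0 (sum_le_sum hi)
    _ = _ := by rw [sum_add_distrib, hs2]; ring

/-- the bound of the sum over the pairs -/
theorem SP_bound (hg : Gw g M) (hM : 1 ≤ M) (hm1 : 1 ≤ m1) (hm2 : 1 ≤ m2)
    (hV : 0 < V) (hH : 0 < H) (hτ : 0 ≤ τ) (hτH : 8 * τ ≤ H) (hτY : 4 * τ * Y ^ 2 ≤ H) (hY1 : (m1:ℝ) ≤ Y)
    (hY2 : (m2:ℝ) ≤ Y) :
    ‖SP g V H M m1 m2‖ ≤ ((Nat.log 2 M : ℝ) + 1) * (1600000 * Y ^ 3 * (τ / H) *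
      (Real.sqrt (8 * V * τ / H) + Y * (M * Real.sqrt (M / V)))) + 2 * Y * M ^ 2 * Real.exp (-τ ^ 2) := by
  have hm1' : (0:ℝ) < m1 := by exact_mod_cast hm1
  have hm2' : (0:ℝ) < m2 := by exact_mod_cast hm2
  have hY0 : 0 < Y := by linarith
  have hM' : (1:ℝ) ≤ M := by exact_mod_cast hM
  set I := Nat.log 2 M + 1 with hI
  have hMI : M < 2 ^ I := Nat.lt_pow_succ_log_self (by norm_num) M
  have h2I : 2 ^ I ≤ 2 * M := by
    rw [hI, pow_succ]
    have := Nat.pow_log_le_self 2 (show M ≠ 0 by omega)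
    omega
  have h2i : ∀ i ∈ range I, ((2 ^ i : ℕ) : ℝ) ≤ M := by
    intro i hi
    rw [mem_range] at hi
    have h1 : 2 ^ i ≤ 2 ^ Nat.log 2 M := Nat.pow_le_pow_right (by norm_num) (by omega)
    have h2 := Nat.pow_log_le_self 2 (show M ≠ 0 by omega)
    exact_mod_cast h1.trans h2
  unfold SP
  rw [bij M m1 m2 hm2 I hMI (fun h1 h2 => ((g h1 * g h2 : ℝ) : ℂ) *
    Kx V H (Real.log ((m2 * h2 : ℕ) : ℝ) - Real.log ((m1 * h1 : ℕ) : ℝ))) (fun a b hab => by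
      rcases hab with h | h
      · rw [hg.z a h]; simp
      · rw [hg.z b h]; simp)]
  set E := Real.exp (-τ ^ 2) with hE
  have hE0 : 0 < E := Real.exp_pos _
  set X : ℝ := 1600000 * Y ^ 3 * (τ / H) * (Real.sqrt (8 * V * τ / H) + Y * (M * Real.sqrt (M / V))) with hX
  have hone : ∀ r ∈ range m2, ∀ s ∈ Icc 1 M, ‖(if m1 * r < m2 * s then
      ∑ j ∈ range (2 ^ I), (if 1 ≤ r + m2 * j then ((g (r + m2 * j) * g (s + m1 * j) : ℝ) : ℂ) *
        Kx V H (Real.log ((m2 * (s + m1 * j) : ℕ) : ℝ) - Real.log ((m1 * (r + m2 * j) : ℕ) : ℝ)) else 0) else 0)‖ ≤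
      ∑ i ∈ range I, (if m1 * r < m2 * s ∧ (s:ℝ) / m1 - r / m2 ≤ 8 * ((2 ^ i : ℕ) : ℝ) * τ / H then (1:ℝ) else 0) *
        BB V H τ Y ((2 ^ i : ℕ) : ℝ) + (2:ℝ) ^ I * E := by
    intro r hr s hs
    rw [mem_range] at hr
    rw [mem_Icc] at hs
    split_ifs with hrs
    · have h1 := one_prog hg hm1 hm2 hr hrs hV hH hτ hτH hτY hY1 hY2 I
      refine le_trans (le_of_eq ?_) h1
      congr 1
      refine sum_congr rfl fun j _ => ?_
      split_ifs with hj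
      · rw [log_lj hm1 hm2 hj hs.1]
        rfl
      · rfl
    · rw [norm_zero]
      refine add_nonneg (sum_nonneg fun i _ => mul_nonneg ?_ (BB_nonneg _ _ _ hY0.le (by positivity))) (by positivity)
      split_ifs <;> norm_num
  have hBB : ∀ i ∈ range I, 2 * Y ^ 3 * (8 * ((2 ^ i : ℕ) : ℝ) * τ / H) * BB V H τ Y ((2 ^ i : ℕ) : ℝ) ≤ X := by
    intro i hi
    have h1 := h2i i hi
    set J : ℝ := ((2 ^ i : ℕ) : ℝ) with hJ
    have hJ0 : 0 < J := by rw [hJ]; positivity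
    unfold BB
    have e1 : 2 * Y ^ 3 * (8 * J * τ / H) * (100000 * (Real.sqrt (8 * V * τ / H) / J + Y * Real.sqrt (J / V))) =
        1600000 * Y ^ 3 * (τ / H) * (Real.sqrt (8 * V * τ / H) + Y * (J * Real.sqrt (J / V))) := by
      field_simp
      ring
    rw [e1, hX]
    have h2 : J * Real.sqrt (J / V) ≤ M * Real.sqrt (M / V) := by
      refine mul_le_mul h1 (Real.sqrt_le_sqrt (div_le_div_of_nonneg_right h1 hV.le)) (Real.sqrt_nonneg _) (by linarith)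
    gcongr
  calc _ ≤ ∑ r ∈ range m2, ∑ s ∈ Icc 1 M, (∑ i ∈ range I,
        (if m1 * r < m2 * s ∧ (s:ℝ) / m1 - r / m2 ≤ 8 * ((2 ^ i : ℕ) : ℝ) * τ / H then (1:ℝ) else 0) *
        BB V H τ Y ((2 ^ i : ℕ) : ℝ) + (2:ℝ) ^ I * E) := by
        refine (norm_sum_le _ _).trans (sum_le_sum fun r hr => (norm_sum_le _ _).trans (sum_le_sum fun s hs => ?_))
        exact hone r hr s hs
    _ = ∑ i ∈ range I, (∑ r ∈ range m2, ∑ s ∈ Icc 1 M,
        (if m1 * r < m2 * s ∧ (s:ℝ) / m1 - r / m2 ≤ 8 * ((2 ^ i : ℕ) : ℝ) * τ / H then (1:ℝ) else 0)) *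
        BB V H τ Y ((2 ^ i : ℕ) : ℝ) + m2 * (M * ((2:ℝ) ^ I * E)) := by
        simp_rw [sum_add_distrib]
        congr 1
        · calc _ = ∑ r ∈ range m2, ∑ i ∈ range I, ∑ s ∈ Icc 1 M,
                (if m1 * r < m2 * s ∧ (s:ℝ) / m1 - r / m2 ≤ 8 * ((2 ^ i : ℕ) : ℝ) * τ / H then (1:ℝ) else 0) *
                BB V H τ Y ((2 ^ i : ℕ) : ℝ) := sum_congr rfl fun r _ => sum_comm
            _ = _ := by
                rw [sum_comm]
                refine sum_congr rfl fun i _ => ?_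
                rw [sum_mul]
                refine sum_congr rfl fun r _ => ?_
                rw [sum_mul]
        · rw [sum_const, sum_const, card_range, Nat.card_Icc, nsmul_eq_mul, nsmul_eq_mul]
          norm_num
    _ ≤ ∑ i ∈ range I, X + 2 * Y * M ^ 2 * E := by
        refine add_le_add (sum_le_sum fun i hi => ?_) ?_
        · refine le_trans (mul_le_mul_of_nonneg_right (count hm1 hm2 hY1 hY2 (by positivity) M)
            (BB_nonneg _ _ _ hY0.le (by positivity))) (hBB i hi)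
        · have h3 : (2:ℝ) ^ I ≤ 2 * M := by exact_mod_cast h2I
          calc (m2:ℝ) * (M * ((2:ℝ) ^ I * E)) ≤ Y * (M * ((2 * M) * E)) := by gcongr
            _ = _ := by ring
    _ = _ := by
        rw [sum_const, card_range, nsmul_eq_mul, hI]
        push_cast
        ring

end

end Pool.Agent.KS6_54.ML
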