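import Pool.Graph.R_pool_sql_team_seeded_47a924f7.T6.H57.NS.UpL
import Pool.Agent.KS6_54.ML.S2M3

set_option autoImplicit false

/-! Upper bounds on the line over windows of length `T ^ (1/3 + 3 κ)`
(adapted from `Pool.Agent.T6.H57.NS.line_up`). -/

namespace Pool.Agent.KS6_54.ML

open Finset Filter MeasureTheory
open Pool.Agent.W184.NZ
open Pool.Agent.W184 (zn zn_nonneg zn_cont zn_le' zn_neg)
open Pool.Agent.Y755
open Pool.Agent.T6.H57.NS
open Pool.Agent.T6.H57.SM (gp_cont')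

/-- the upper bounds on the line over short windows -/
theorem line_up3 {κ : ℝ} (hκ : 0 < κ) (hκ1 : κ ≤ 1 / 100) {ρ : ℝ} (hρ : 0 < ρ) (hρ1 : ρ ≤ 1) :
    ∃ C α₀ : ℝ, 0 < C ∧ 0 < α₀ ∧ ∀ᶠ T : ℝ in atTop, ∀ α : ℝ, 0 < α → α ≤ 1 →
      ∀ U H : ℝ, T / 8 ≤ U → U + H ≤ 8 * T → T ^ (1 / 3 + 3 * κ) ≤ H →
      ∫ t in U..(U + H), zn (1 / 2) t ^ (2 * α) ≤ C * (H * Real.log T ^ (α ^ 2)) ∧
      (α ≤ α₀ → ∫ t in U..(U + H), zn (1 / 2) t ^ (2 * α) ≤ (1 + ρ) * (H * Real.log T ^ (α ^ 2))) := by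
  obtain ⟨c, hc, hpar⟩ := par_ex
  obtain ⟨Rs, hRs, hRs2⟩ := Rs_ex c (ρ / 8) (by positivity)
  have hRs0 : (0:ℝ) < (Rs:ℝ) + 1 := by positivity
  have hRs1 : (1:ℝ) ≤ (Rs:ℝ) + 1 := by
    have : (0:ℝ) ≤ Rs := Nat.cast_nonneg _
    linarith
  set η : ℝ := κ / 4000 / ((Rs:ℝ) + 1) with hηd
  have hη : 0 < η := by positivity
  have hηR : η * ((Rs:ℝ) + 1) = κ / 4000 := by rw [hηd]; field_simp
  have hη16 : η ≤ 1 / 16 := by
    have : η * 1 ≤ η * ((Rs:ℝ) + 1) := mul_le_mul_of_nonneg_left hRs1 hη.le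
    linarith
  obtain ⟨d, hd, hpar2⟩ := hpar 1000 Rs le_rfl hRs.1 η hη hη16
  obtain ⟨C1, hC1, hQ⟩ := s2m3 (c := c) (z := 1000) le_rfl hRs.1 hκ hκ1 hη (by rw [hηR]; linarith) hd
  have hB0 := Bc_pos c
  set D := d + 12 * c with hD
  have hD0 : 0 ≤ D := by positivity
  set C : ℝ := Real.exp 8 * (C1 + Real.exp (D + 2 * Bc c) + 1) with hC
  have hC0 : 0 < C := by positivity
  have he8 : (1:ℝ) ≤ Real.exp 8 := Real.one_le_exp (by norm_num)
  set α₀ : ℝ := min (1 / 2) (min (ρ / 16 / (D + 1)) (ρ / 8 / (Real.exp 8 * C1))) with hα₀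
  have hα₀0 : 0 < α₀ := lt_min (by norm_num) (lt_min (by positivity) (by positivity))
  refine ⟨C, α₀, hC0, hα₀0, ?_⟩
  filter_upwards [hpar2, hQ, rpow_ev (p := 1 / 4) (q := 1 / 3) (by norm_num) (4 / (ρ / 8) * Real.exp 8),
    Real.tendsto_log_atTop.eventually_ge_atTop 1, eventually_ge_atTop 1] with T t1 t2 t3 t4 t5 α hα hα1 U H hU hUH hH
  obtain ⟨J, hS, hV, -⟩ := t1
  have hT0 : 0 < T := by linarith
  set L := Real.log T with hL
  have hL0 : 0 < L := by linarith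
  set y := yT η T with hy
  have hly : Real.log y = η * L := Real.log_exp _
  have hy1 : 1 ≤ y := hS.y1
  set V := ∑ i ∈ range J, vI (IZ 1000 y i) with hVd
  have hHpos : 0 < H := lt_of_lt_of_le (by positivity) hH
  set M := H * L ^ (α ^ 2) with hM
  have hLp1 : 1 ≤ L ^ (α ^ 2) := Real.one_le_rpow t4 (sq_nonneg α)
  have hHM : H ≤ M := le_mul_of_one_le_right hHpos.le hLp1
  have hM0 : 0 < M := by linarith
  have hcz : Continuous fun t => zn (1 / 2) t := zn_cont (by norm_num)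
  have hcz2 : Continuous fun t => zn (1 / 2) t ^ (2 * α) := hcz.rpow_const fun _ => Or.inr (by positivity)
  have hUH' : U ≤ U + H := by linarith
  have hS2 := fun (a : ℝ) (ha : |a| ≤ 1) => t2 J hS.zy hS.J1 hS.rg hV a ha U H hU hUH hH
  have hgc : ∀ a : ℝ, Continuous fun t => gp J a (RR Rs) (IZ 1000 y) t := fun a => gp_cont' hy1 hS.rg
  have hT12 : T ^ ((1:ℝ) / 3) ≤ H := (Real.rpow_le_rpow_of_exponent_le t5 (by linarith)).trans hH
  have herr : Real.exp 8 * (4 * Real.exp (Real.log y * (400 * ((Rs:ℝ) + 1)))) ≤ ρ / 8 * H := by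
    have h1 : Real.exp (Real.log y * (400 * ((Rs:ℝ) + 1))) ≤ T ^ ((1:ℝ) / 4) := by
      rw [hly, Real.rpow_def_of_pos hT0]
      refine Real.exp_le_exp.mpr ?_
      have : η * L * (400 * ((Rs:ℝ) + 1)) = 400 * (η * ((Rs:ℝ) + 1)) * L := by ring
      rw [this, hηR]
      nlinarith
    calc Real.exp 8 * (4 * Real.exp (Real.log y * (400 * ((Rs:ℝ) + 1)))) ≤ Real.exp 8 * (4 * T ^ ((1:ℝ) / 4)) := by
          gcongr
      _ = ρ / 8 * (4 / (ρ / 8) * Real.exp 8 * T ^ ((1:ℝ) / 4)) := by field_simp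
      _ ≤ ρ / 8 * H := mul_le_mul_of_nonneg_left (t3.trans hT12) (by positivity)
  have hx1 : Real.exp (-(Rs:ℝ)) ≤ 1 := Real.exp_le_one_iff.mpr (by simp)
  have hx0 := Real.exp_pos (-(Rs:ℝ))
  rcases eq_or_lt_of_le hα1 with h1 | h1
  · -- the second moment
    subst h1
    have h2 := hS2 0 (by simp)
    have h3 : ∫ t in U..(U + H), zn (1 / 2) t ^ (2 * (1:ℝ)) ≤ C1 * M := by
      refine le_trans ?_ (h2.trans (le_of_eq (by rw [hM]; norm_num)))
      refine intervalIntegral.integral_mono_on hUH' (hcz2.intervalIntegrable _ _)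
        ((cl_cont_zeta.mul (hgc 0)).intervalIntegrable _ _) fun t _ => ?_
      rw [mul_one, Real.rpow_two, zn_cl]
      exact le_mul_of_one_le_right (sq_nonneg _) (gp_zero_ge _ _ _ _)
    have h4 : C1 * M ≤ C * M := by
      refine mul_le_mul_of_nonneg_right ?_ hM0.le
      rw [hC]
      have h5 : 0 < Real.exp (D + 2 * Bc c) := Real.exp_pos _
      have h6 : 1 * (C1 + Real.exp (D + 2 * Bc c) + 1) ≤ Real.exp 8 * (C1 + Real.exp (D + 2 * Bc c) + 1) :=
        mul_le_mul_of_nonneg_right he8 (by linarith)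
      linarith
    refine ⟨h3.trans h4, fun h => ?_⟩
    have h5 : (1:ℝ) ≤ 1 / 2 := h.trans (min_le_left _ _)
    norm_num at h5
  · have haa : |(-(1 - α))| ≤ 1 := by rw [abs_neg, abs_of_pos (by linarith)]; linarith
    have hG := hS2 (-(1 - α)) haa
    have e1 : 1 + (-(1 - α)) = α := by ring
    rw [e1] at hG
    have hF := F_avgS (Rs := Rs) hy1 hS.rg hRs (a := α) (by rw [abs_of_pos hα]; linarith) U hHpos.le
    set P : ℝ := Real.exp (-(8 * Real.exp (-(Rs:ℝ)))) with hP'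
    have hP0 : 0 < P := Real.exp_pos _
    have hPi : P⁻¹ = Real.exp (8 * Real.exp (-(Rs:ℝ))) := by rw [hP', ← Real.exp_neg, neg_neg]
    have hPi8 : P⁻¹ ≤ Real.exp 8 := by rw [hPi]; exact Real.exp_le_exp.mpr (by linarith)
    have hF2 : ∫ t in U..(U + H), gp J α (RR Rs) (IZ 1000 y) t ≤
        M * Real.exp (α ^ 2 * D + 2 * Bc c * Real.exp (-(Rs:ℝ))) + 4 * Real.exp (Real.log y * (400 * ((Rs:ℝ) + 1))) := by
      refine hF.trans (add_le_add ?_ le_rfl)
      rw [hM, mul_assoc H]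
      refine mul_le_mul_of_nonneg_left ?_ hHpos.le
      rw [Real.rpow_def_of_pos hL0, ← Real.exp_add]
      refine Real.exp_le_exp.mpr ?_
      have h2 : α ^ 2 * V ≤ α ^ 2 * (Real.log L + d) :=
        mul_le_mul_of_nonneg_left (by linarith [(abs_le.mp hV).2]) (sq_nonneg _)
      have h3 : α ^ 2 * (Real.log L + d) + 12 * α ^ 2 * c = Real.log L * α ^ 2 + α ^ 2 * D := by rw [hD]; ring
      linarith
    set F := ∫ t in U..(U + H), gp J α (RR Rs) (IZ 1000 y) t with hFd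
    set G := ∫ t in U..(U + H), ‖riemannZeta (Pool.Agent.H306R2.SM.cl t)‖ ^ 2 * gp J (-(1 - α)) (RR Rs) (IZ 1000 y) t with hGd
    set Z := ∫ t in U..(U + H), zn (1 / 2) t ^ (2 * α) with hZ
    have hint : P * Z ≤ α * G + (1 - α) * F := by
      have i1 : IntervalIntegrable (fun t => α * (zn (1 / 2) t ^ 2 * gp J (-(1 - α)) (RR Rs) (IZ 1000 y) t))
        volume U (U + H) := (continuous_const.mul ((hcz.pow 2).mul (hgc _))).intervalIntegrable _ _
      have i2 : IntervalIntegrable (fun t => (1 - α) * gp J α (RR Rs) (IZ 1000 y) t)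
        volume U (U + H) := (continuous_const.mul (hgc _)).intervalIntegrable _ _
      rw [hZ, hGd, hFd, ← intervalIntegral.integral_const_mul, ← intervalIntegral.integral_const_mul,
        ← intervalIntegral.integral_const_mul]
      simp_rw [← zn_cl]
      rw [← intervalIntegral.integral_add i1 i2]
      refine intervalIntegral.integral_mono_on hUH' ((continuous_const.mul hcz2).intervalIntegrable _ _)
        (i1.add i2) fun t _ => ?_
      exact prod_star hα h1 hRs.1 (IZ 1000 y) t (zn (1 / 2) t) (zn_nonneg _ _)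
    have hF0 : 0 ≤ F := intervalIntegral.integral_nonneg hUH' fun t _ => gp_nonneg J _ _ _ t
    have hc2 : Z ≤ P⁻¹ * (α * (C1 * M) + F) := by
      rw [← div_eq_inv_mul, le_div_iff₀ hP0]
      have h2 : α * G ≤ α * (C1 * M) := mul_le_mul_of_nonneg_left hG hα.le
      have h3 : (1 - α) * F ≤ 1 * F := mul_le_mul_of_nonneg_right (by linarith) hF0
      linarith
    have hPp : 0 < P⁻¹ := inv_pos.mpr hP0
    set X := Real.exp (α ^ 2 * D + 2 * Bc c * Real.exp (-(Rs:ℝ))) with hX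
    have hc3 : Z ≤ P⁻¹ * (α * (C1 * M)) + (P⁻¹ * X) * M + ρ / 8 * H := by
      have h2 : P⁻¹ * (α * (C1 * M) + F) ≤ P⁻¹ * (α * (C1 * M) + (M * X + 4 * Real.exp (Real.log y * (400 * ((Rs:ℝ) + 1))))) :=
        mul_le_mul_of_nonneg_left (by linarith) hPp.le
      have h3 : P⁻¹ * (4 * Real.exp (Real.log y * (400 * ((Rs:ℝ) + 1)))) ≤ ρ / 8 * H :=
        (mul_le_mul_of_nonneg_right hPi8 (by positivity)).trans herr
      have h4 : P⁻¹ * (α * (C1 * M) + (M * X + 4 * Real.exp (Real.log y * (400 * ((Rs:ℝ) + 1))))) =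
        P⁻¹ * (α * (C1 * M)) + (P⁻¹ * X) * M + P⁻¹ * (4 * Real.exp (Real.log y * (400 * ((Rs:ℝ) + 1)))) := by ring
      linarith
    have hC1M : 0 < C1 * M := by positivity
    have hα2 : α ^ 2 ≤ 1 := by nlinarith
    constructor
    · have h2 : P⁻¹ * (α * (C1 * M)) ≤ Real.exp 8 * (1 * (C1 * M)) :=
        mul_le_mul hPi8 (mul_le_mul_of_nonneg_right hα1 hC1M.le) (by positivity) (by positivity)
      have h3 : P⁻¹ * X ≤ Real.exp 8 * Real.exp (D + 2 * Bc c) := by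
        refine mul_le_mul hPi8 (Real.exp_le_exp.mpr ?_) (Real.exp_pos _).le (by positivity)
        have h4 : α ^ 2 * D ≤ 1 * D := mul_le_mul_of_nonneg_right hα2 hD0
        have h5 : 2 * Bc c * Real.exp (-(Rs:ℝ)) ≤ 2 * Bc c * 1 := mul_le_mul_of_nonneg_left hx1 (by positivity)
        linarith
      have h4 : (P⁻¹ * X) * M ≤ (Real.exp 8 * Real.exp (D + 2 * Bc c)) * M := mul_le_mul_of_nonneg_right h3 hM0.le
      have h5 : ρ / 8 * H ≤ Real.exp 8 * M := by
        have h6 : ρ / 8 * H ≤ 1 * M := mul_le_mul (by linarith) hHM hHpos.le (by norm_num)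
        have h7 : 1 * M ≤ Real.exp 8 * M := mul_le_mul_of_nonneg_right he8 hM0.le
        linarith
      rw [hC]
      nlinarith
    · intro hαα
      have d1 : α ≤ ρ / 8 / (Real.exp 8 * C1) := hαα.trans ((min_le_right _ _).trans (min_le_right _ _))
      have d2 : α ≤ ρ / 16 / (D + 1) := hαα.trans ((min_le_right _ _).trans (min_le_left _ _))
      rw [le_div_iff₀ (by positivity)] at d1 d2
      have h2 : P⁻¹ * (α * (C1 * M)) ≤ ρ / 8 * M := by
        calc P⁻¹ * (α * (C1 * M)) ≤ Real.exp 8 * (α * (C1 * M)) := mul_le_mul_of_nonneg_right hPi8 (by positivity)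
          _ = (α * (Real.exp 8 * C1)) * M := by ring
          _ ≤ ρ / 8 * M := mul_le_mul_of_nonneg_right d1 hM0.le
      have h3 : P⁻¹ * X ≤ (1 + ρ / 8) * (1 + ρ / 8) := by
        have h4 : P⁻¹ * X = Real.exp ((8 + 2 * Bc c) * Real.exp (-(Rs:ℝ))) * Real.exp (α ^ 2 * D) := by
          rw [hPi, hX, ← Real.exp_add, ← Real.exp_add]; congr 1; ring
        rw [h4]
        refine mul_le_mul hRs2 ?_ (Real.exp_pos _).le (by linarith)
        have d3 : α ^ 2 * D ≤ ρ / 16 := by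
          have : α ^ 2 * D ≤ α * D := mul_le_mul_of_nonneg_right (by nlinarith) hD0
          nlinarith
        have d5 : 0 ≤ α ^ 2 * D := by positivity
        have d6 := Real.exp_bound' (x := α ^ 2 * D) d5 (by linarith) (n := 1) (by norm_num)
        norm_num at d6
        linarith
      have h4 : (P⁻¹ * X) * M ≤ ((1 + ρ / 8) * (1 + ρ / 8)) * M := mul_le_mul_of_nonneg_right h3 hM0.le
      have h5 : ρ / 8 * H ≤ ρ / 8 * M := mul_le_mul_of_nonneg_left hHM (by positivity)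
      have h6 : ((1 + ρ / 8) * (1 + ρ / 8)) ≤ 1 + 3 * (ρ / 8) := by nlinarith
      have h7 : ((1 + ρ / 8) * (1 + ρ / 8)) * M ≤ (1 + 3 * (ρ / 8)) * M := mul_le_mul_of_nonneg_right h6 hM0.le
      have h8 : 0 < ρ * M := by positivity
      nlinarith

end Pool.Agent.KS6_54.ML
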