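import Pool.Agent.KS6_54.ML.Ker2

set_option autoImplicit false

/-!
# From sharply cut Dirichlet polynomials to integrals of smooth ones
-/

open Finset MeasureTheory

namespace Pool.Agent.KS6_54.ML

open Pool.Agent.W200.MR (pw)
open Pool.Agent.TH445.MQ (pw_norm pw_add)

/-- an absolutely convergent Dirichlet series on the line `Re s = 0` -/
noncomputable def DS (a : ℕ → ℂ) (τ : ℝ) : ℂ := ∑' n, a n * pw τ n

lemma pw_cont (n : ℕ) : Continuous fun τ => pw τ n := by
  unfold Pool.Agent.W200.MR.pw
  fun_prop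

lemma DS_cont {a : ℕ → ℂ} (ha : Summable fun n => ‖a n‖) : Continuous (DS a) := by
  unfold DS
  apply continuous_tsum (u := fun n => ‖a n‖)
  · intro n
    have := pw_cont n
    fun_prop
  · exact ha
  · intro n τ
    rw [norm_mul, pw_norm, mul_one]

lemma DS_bd {a : ℕ → ℂ} (ha : Summable fun n => ‖a n‖) (τ : ℝ) : ‖DS a τ‖ ≤ ∑' n, ‖a n‖ := by
  unfold DS
  have h : ∀ n, ‖a n * pw τ n‖ = ‖a n‖ := fun n => by rw [norm_mul, pw_norm, mul_one]
  refine (norm_tsum_le_tsum_norm (by simpa only [h] using ha)).trans (le_of_eq ?_)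
  exact tsum_congr h

/-- Jensen's inequality with a constant -/
lemma jensen {g f : ℝ → ℝ} {q : ℝ} (hq : 1 ≤ q) (hg : ∀ v, 0 ≤ g v) (hf : ∀ v, 0 ≤ f v)
    (hgi : Integrable g) (hgf : Integrable fun v => g v * f v)
    (hgq : Integrable fun v => g v * f v ^ q) :
    (∫ v, g v * f v) ^ q ≤ (2 : ℝ) ^ q * (∫ v, g v) ^ (q - 1) * ∫ v, g v * f v ^ q := by
  set G := ∫ v, g v with hG
  set I := ∫ v, g v * f v with hI
  set J := ∫ v, g v * f v ^ q with hJ
  have hG0 : 0 ≤ G := integral_nonneg hg
  have hI0 : 0 ≤ I := integral_nonneg fun v => mul_nonneg (hg v) (hf v)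
  have hJ0 : 0 ≤ J := integral_nonneg fun v => mul_nonneg (hg v) (Real.rpow_nonneg (hf v) q)
  have hq0 : 0 < q := by linarith
  have hlam : ∀ lam : ℝ, 0 < lam → I ≤ lam * G + lam ^ (1 - q) * J := by
    intro lam hl
    have h1 : ∀ v, g v * f v ≤ lam * g v + lam ^ (1 - q) * (g v * f v ^ q) := by
      intro v
      set x := f v with hx
      have hx0 : 0 ≤ x := hf v
      have h2 : x ≤ lam + lam ^ (1 - q) * x ^ q := by
        rcases le_or_gt x lam with h | h
        · have : 0 ≤ lam ^ (1 - q) * x ^ q := by positivity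
          linarith
        · have hx1 : 0 < x := hl.trans h
          have h3 : lam ^ (1 - q) * x ^ q = x * (x / lam) ^ (q - 1) := by
            rw [Real.div_rpow hx0 hl.le, show 1 - q = -(q - 1) by ring, Real.rpow_neg hl.le]
            have : x ^ q = x * x ^ (q - 1) := by
              nth_rewrite 2 [← Real.rpow_one x]
              rw [← Real.rpow_add hx1]
              congr 1
              ring
            rw [this]
            field_simp
          have h4 : 1 ≤ (x / lam) ^ (q - 1) :=
            Real.one_le_rpow (by rw [le_div_iff₀ hl]; linarith) (by linarith)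
          rw [h3]
          nlinarith
      calc g v * x ≤ g v * (lam + lam ^ (1 - q) * x ^ q) := mul_le_mul_of_nonneg_left h2 (hg v)
        _ = _ := by ring
    calc I ≤ ∫ v, (lam * g v + lam ^ (1 - q) * (g v * f v ^ q)) := by
          apply integral_mono hgf ((hgi.const_mul _).add (hgq.const_mul _)) h1
      _ = lam * G + lam ^ (1 - q) * J := by
          have ea : ∫ v, lam * g v = lam * G := integral_const_mul _ _
          have eb : ∫ v, lam ^ (1 - q) * (g v * f v ^ q) = lam ^ (1 - q) * J :=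
            integral_const_mul _ _
          rw [integral_add (hgi.const_mul _) (hgq.const_mul _), ea, eb]
  rcases hG0.eq_or_lt with hG1 | hG1
  · have h1 : g =ᵐ[volume] 0 := (integral_eq_zero_iff_of_nonneg hg hgi).1 hG1.symm
    have h2 : I = 0 := by
      rw [hI]
      apply integral_eq_zero_of_ae
      filter_upwards [h1] with v hv
      have hv' : g v = 0 := hv
      simp [hv']
    rw [h2, Real.zero_rpow hq0.ne']
    positivity
  rcases hJ0.eq_or_lt with hJ1 | hJ1
  · have hI1 : I ≤ 0 := by
      by_contra hcon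
      push Not at hcon
      have := hlam (I / (2 * G)) (by positivity)
      rw [← hJ1, mul_zero, add_zero] at this
      have e : I / (2 * G) * G = I / 2 := by field_simp
      rw [e] at this
      linarith
    have : I = 0 := le_antisymm hI1 hI0
    rw [this, Real.zero_rpow hq0.ne']
    positivity
  · set lam := (J / G) ^ (1 / q) with hlamdef
    have hl0 : 0 < lam := by positivity
    have hlq : lam ^ q = J / G := by
      rw [hlamdef, ← Real.rpow_mul (by positivity), one_div_mul_cancel hq0.ne', Real.rpow_one]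
    have h1 := hlam lam hl0
    have h2 : lam ^ (1 - q) * J = lam * G := by
      rw [Real.rpow_sub hl0, Real.rpow_one, hlq]
      field_simp
    rw [h2] at h1
    have h3 : I ≤ 2 * G * lam := by linarith
    calc I ^ q ≤ (2 * G * lam) ^ q := Real.rpow_le_rpow hI0 h3 hq0.le
      _ = (2 * G) ^ q * (J / G) := by rw [Real.mul_rpow (by positivity) hl0.le, hlq]
      _ = 2 ^ q * G ^ (q - 1) * J := by
          rw [Real.mul_rpow (by norm_num) hG0, Real.rpow_sub hG1, Real.rpow_one]
          field_simp

lemma pint {p : ℝ} (hp : 1 < p) : Integrable (fun t : ℝ => (1 + |t|) ^ (-p)) := by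
  have := integrable_one_add_norm (E := ℝ) (μ := volume) (r := p) (by simpa using hp)
  simpa [Real.norm_eq_abs] using this

/-- a sum over integers against the integral -/
lemma sum_shift {p : ℝ} (hp : 1 < p) (A B : ℕ) (τ : ℝ) :
    ∑ t ∈ Icc A B, (1 + |τ - t|) ^ (-p) ≤ 2 ^ p * ∫ u : ℝ, (1 + |u|) ^ (-p) := by
  have hi := pint hp
  have hi2 : Integrable (fun u : ℝ => (1 + |τ - u|) ^ (-p)) := by
    have := hi.comp_sub_left τ
    simpa using this
  have e0 : ∫ u : ℝ, (1 + |τ - u|) ^ (-p) = ∫ u : ℝ, (1 + |u|) ^ (-p) :=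
    integral_sub_left_eq_self (fun u : ℝ => (1 + |u|) ^ (-p)) volume τ
  have h1 : ∀ t : ℕ, (1 + |τ - t|) ^ (-p) ≤ 2 ^ p * ∫ u in Set.Ioc (t : ℝ) (t + 1),
      (1 + |τ - u|) ^ (-p) := by
    intro t
    have h2 : ∀ u ∈ Set.Ioc (t : ℝ) (t + 1), 2 ^ (-p) * (1 + |τ - t|) ^ (-p) ≤
        (1 + |τ - u|) ^ (-p) := by
      intro u hu
      rw [← Real.mul_rpow (by norm_num) (by positivity)]
      apply Real.rpow_le_rpow_of_nonpos (by positivity) _ (by linarith)
      have h3 : |τ - u| ≤ |τ - t| + 1 := by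
        calc |τ - u| = |(τ - t) - (u - t)| := by congr 1; ring
          _ ≤ |τ - t| + |u - t| := abs_sub _ _
          _ ≤ |τ - t| + 1 := by
              have : |u - t| ≤ 1 := abs_le.2 ⟨by linarith [hu.1], by linarith [hu.2]⟩
              linarith
      linarith [abs_nonneg (τ - t)]
    have h4 : ∫ u in Set.Ioc (t : ℝ) (t + 1), 2 ^ (-p) * (1 + |τ - t|) ^ (-p) ≤
        ∫ u in Set.Ioc (t : ℝ) (t + 1), (1 + |τ - u|) ^ (-p) := by
      apply setIntegral_mono_on
      · exact integrableOn_const (by simp)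
      · exact hi2.integrableOn
      · exact measurableSet_Ioc
      · exact h2
    rw [setIntegral_const] at h4
    simp only [measureReal_def, Real.volume_Ioc, add_sub_cancel_left, ENNReal.toReal_ofReal zero_le_one,
      one_smul] at h4
    have h5 : (1 + |τ - t|) ^ (-p) = 2 ^ p * (2 ^ (-p) * (1 + |τ - t|) ^ (-p)) := by
      rw [← mul_assoc, ← Real.rpow_add (by norm_num), add_neg_cancel, Real.rpow_zero, one_mul]
    rw [h5]
    exact mul_le_mul_of_nonneg_left h4 (by positivity)
  calc ∑ t ∈ Icc A B, (1 + |τ - t|) ^ (-p)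
      ≤ ∑ t ∈ Icc A B, 2 ^ p * ∫ u in Set.Ioc (t : ℝ) (t + 1), (1 + |τ - u|) ^ (-p) :=
        sum_le_sum fun t _ => h1 t
    _ = 2 ^ p * ∑ t ∈ Icc A B, ∫ u in Set.Ioc (t : ℝ) (t + 1), (1 + |τ - u|) ^ (-p) := by
        rw [mul_sum]
    _ = 2 ^ p * ∫ u in ⋃ t ∈ Icc A B, Set.Ioc (t : ℝ) (t + 1), (1 + |τ - u|) ^ (-p) := by
        rw [integral_biUnion_finset]
        · intro t _
          exact measurableSet_Ioc
        · intro s _ t _ hst
          apply Set.disjoint_left.2
          intro u hu hu'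
          apply hst
          have h6 : (s : ℝ) < t + 1 := hu.1.trans_le hu'.2
          have h7 : (t : ℝ) < s + 1 := hu'.1.trans_le hu.2
          have h8 : s < t + 1 := by exact_mod_cast h6
          have h9 : t < s + 1 := by exact_mod_cast h7
          omega
        · intro t _
          exact hi2.integrableOn
    _ ≤ 2 ^ p * ∫ u : ℝ, (1 + |τ - u|) ^ (-p) := by
        apply mul_le_mul_of_nonneg_left _ (by positivity)
        apply setIntegral_le_integral hi2
        exact Filter.Eventually.of_forall fun u => by simp only [Pi.zero_apply]; positivity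
    _ = _ := by rw [e0]

lemma sum_int {p : ℝ} (hp : 1 < p) (A B : ℕ) {H : ℝ} (hH : 0 ≤ H) (hAB : A ≤ B) {F : ℝ → ℝ}
    (hF : Continuous F) (hF0 : ∀ x, 0 ≤ F x) :
    ∑ t ∈ Icc A B, ∫ v in (-H)..H, (1 + |v|) ^ (-p) * F (t + v) ≤
      (2 ^ p * ∫ u : ℝ, (1 + |u|) ^ (-p)) * ∫ τ in (A - H)..(B + H), F τ := by
  have hABr : (A : ℝ) ≤ B := by exact_mod_cast hAB
  have hc : ∀ t : ℝ, Continuous fun τ : ℝ => (1 + |τ - t|) ^ (-p) * F τ := by
    intro t
    apply Continuous.mul _ hF
    apply Continuous.rpow_const (by fun_prop)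
    intro τ
    left
    positivity
  have h1 : ∀ t ∈ Icc A B, ∫ v in (-H)..H, (1 + |v|) ^ (-p) * F (t + v) ≤
      ∫ τ in (A - H)..(B + H), (1 + |τ - t|) ^ (-p) * F τ := by
    intro t ht
    have htA : (A : ℝ) ≤ t := by exact_mod_cast (mem_Icc.1 ht).1
    have htB : (t : ℝ) ≤ B := by exact_mod_cast (mem_Icc.1 ht).2
    have e1 : ∫ v in (-H)..H, (1 + |v|) ^ (-p) * F (t + v) =
        ∫ τ in (t - H)..(t + H), (1 + |τ - t|) ^ (-p) * F τ := by
      have := intervalIntegral.integral_comp_add_left
        (fun τ : ℝ => (1 + |τ - t|) ^ (-p) * F τ) (t : ℝ) (a := -H) (b := H)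
      simp only [add_sub_cancel_left] at this
      rw [this]
      congr 1
    rw [e1]
    apply intervalIntegral.integral_mono_interval (by linarith) (by linarith) (by linarith)
    · refine Filter.Eventually.of_forall fun τ => ?_
      simp only [Pi.zero_apply]
      exact mul_nonneg (by positivity) (hF0 τ)
    · exact (hc t).intervalIntegrable _ _
  calc ∑ t ∈ Icc A B, ∫ v in (-H)..H, (1 + |v|) ^ (-p) * F (t + v)
      ≤ ∑ t ∈ Icc A B, ∫ τ in (A - H)..(B + H), (1 + |τ - t|) ^ (-p) * F τ := sum_le_sum h1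
    _ = ∫ τ in (A - H)..(B + H), ∑ t ∈ Icc A B, (1 + |τ - t|) ^ (-p) * F τ := by
        rw [intervalIntegral.integral_finsetSum]
        intro t _
        exact (hc t).intervalIntegrable _ _
    _ ≤ ∫ τ in (A - H)..(B + H), (2 ^ p * ∫ u : ℝ, (1 + |u|) ^ (-p)) * F τ := by
        apply intervalIntegral.integral_mono_on (by linarith)
        · apply Continuous.intervalIntegrable
          exact continuous_finsetSum _ fun t _ => hc t
        · exact (hF.const_mul _).intervalIntegrable _ _
        · intro τ _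
          rw [← sum_mul]
          exact mul_le_mul_of_nonneg_right (sum_shift hp A B τ) (hF0 τ)
    _ = _ := intervalIntegral.integral_const_mul _ _

end Pool.Agent.KS6_54.ML
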