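import Pool.Agent.KS6_54.ML.Add3

set_option autoImplicit false

/-!
# The dual sum times a Dirichlet polynomial, in mean square
-/

open Finset MeasureTheory

namespace Pool.Agent.KS6_54.ML

open Pool.Agent.W200.MR (pw)
open Pool.Agent.TH445.MQ (pw_norm pw_add)

/-- a finite Dirichlet polynomial -/
noncomputable def DP (J : Finset ℕ) (p : ℕ → ℂ) (τ : ℝ) : ℂ := ∑ h ∈ J, p h * pw τ h

lemma DP_cont (J : Finset ℕ) (p : ℕ → ℂ) : Continuous (DP J p) := by
  unfold DP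
  exact continuous_finsetSum _ fun h _ => continuous_const.mul (pw_cont h)

/-- the frequency of a pair -/
noncomputable def lt {ι : Type*} (N : ℕ) (y : ι → ℝ) (x : ι × ℕ) : ℝ :=
  Real.log ‖zc N (y x.1)‖ - Real.log x.2

lemma pw_eq (τ : ℝ) (h : ℕ) : pw τ h = Complex.exp (-(τ * (-(Real.log h : ℂ) * Complex.I))) := by
  unfold Pool.Agent.W200.MR.pw
  congr 1
  push_cast
  ring

/-- **Mean square of the exponential polynomial times a Dirichlet polynomial.** -/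
theorem EP_tw {ι : Type*} (I : Finset ι) (k : ℕ) {N X : ℕ} (hN : 1 ≤ N) (hX : 1 ≤ X) {Z : ℝ}
    (hZ : 1 ≤ Z) (y : ι → ℝ) (c : ι → ℂ) (hy : ∀ i ∈ I, X / (N * Z) ≤ y i) (J : Finset ℕ)
    (p : ℕ → ℂ) :
    ∫ τ in ((X : ℝ) / 2)..(5 * (X : ℝ) / 2), ‖EP I k N y c τ‖ ^ 2 * ‖DP J p τ‖ ^ 2 ≤
      50 * X * (2 ^ (k + 1) * ((k + 1).factorial : ℝ) * ((N : ℝ) / X) ^ (k + 1)) ^ 2 *
        dbl (I ×ˢ J) (X / ⌈Z⌉₊) (fun x => ‖c x.1‖ * ‖p x.2‖) (lt N y) := by
  classical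
  have hN0 : (0 : ℝ) < N := by exact_mod_cast hN
  have hX0 : (0 : ℝ) < X := by exact_mod_cast hX
  have hZ0 : 0 < Z := by linarith
  set n := ⌈Z⌉₊ with hn
  have hnZ : Z ≤ n := Nat.le_ceil Z
  have hn0 : (0 : ℝ) < n := by linarith
  set W : ℝ := X / n with hW
  have hW0 : 0 < W := by positivity
  set Q : ℝ := 2 ^ (k + 1) * ((k + 1).factorial : ℝ) * ((N : ℝ) / X) ^ (k + 1) with hQ
  have hQ0 : 0 ≤ Q := by positivity
  set DB := dbl (I ×ˢ J) W (fun x => ‖c x.1‖ * ‖p x.2‖) (lt N y) with hDB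
  set A : ι × ℕ → ℂ := fun x => (c x.1 * Bc k N (y x.1)) * p x.2 with hA
  set Ω : ι × ℕ → ℂ := fun x => om N (y x.1) + -(Real.log x.2 : ℂ) * Complex.I with hΩ
  have e1 : ∀ τ : ℝ, ‖EP I k N y c τ‖ ^ 2 * ‖DP J p τ‖ ^ 2 =
      ‖∑ x ∈ I ×ˢ J, A x * Complex.exp (-(τ * Ω x))‖ ^ 2 := by
    intro τ
    have : ∑ x ∈ I ×ˢ J, A x * Complex.exp (-(τ * Ω x)) = EP I k N y c τ * DP J p τ := by
      unfold EP DP
      rw [sum_mul_sum, sum_product]
      apply sum_congr rfl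
      intro i _
      apply sum_congr rfl
      intro h _
      rw [hA, hΩ]
      simp only
      have h2 : Complex.exp (-(τ * (om N (y i) + -(Real.log h : ℂ) * Complex.I))) =
          Complex.exp (-(τ * om N (y i))) * pw τ h := by
        rw [pw_eq, ← Complex.exp_add]; congr 1; ring
      rw [h2]
      ring
    rw [this, norm_mul, mul_pow]
  have hψ : ∀ i ∈ I, 0 ≤ psi N (y i) ∧ W * psi N (y i) ≤ 1 / 2 := by
    intro i hi
    have h1 := hy i hi
    have h2 : 0 < y i := lt_of_lt_of_le (by positivity) h1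
    refine ⟨(psi_pos hN _).le, ?_⟩
    have h3 := psi_upper hN h2
    have h4 : X / Z ≤ N * y i := by
      calc X / Z = N * (X / (N * Z)) := by field_simp
        _ ≤ N * y i := mul_le_mul_of_nonneg_left h1 hN0.le
    have h5 : 1 / (4 * (N * y i)) ≤ Z / (4 * X) := by
      rw [div_le_div_iff₀ (by positivity) (by positivity)]
      rw [div_le_iff₀ hZ0] at h4
      nlinarith
    calc W * psi N (y i) ≤ W * (Z / (4 * X)) := mul_le_mul_of_nonneg_left (h3.trans h5) hW0.le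
      _ = Z / (4 * n) := by rw [hW]; field_simp
      _ ≤ 1 / 2 := by
          rw [div_le_div_iff₀ (by positivity) (by norm_num)]
          linarith
  have hre : ∀ x : ι × ℕ, (Ω x).re = psi N (y x.1) := by
    intro x
    rw [hΩ]
    simp only [Complex.add_re, Complex.mul_re, Complex.neg_re, Complex.neg_im, Complex.ofReal_re,
      Complex.ofReal_im, Complex.I_re, Complex.I_im, om_re]
    ring
  have him : ∀ x : ι × ℕ, (Ω x).im = lt N y x := by
    intro x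
    rw [hΩ]
    unfold lt
    simp only [Complex.add_im, Complex.mul_im, Complex.neg_re, Complex.neg_im, Complex.ofReal_re,
      Complex.ofReal_im, Complex.I_re, Complex.I_im, om_im]
    ring
  have hwin : ∀ t0 : ℝ, (X : ℝ) / 2 ≤ t0 → ∫ τ in (t0 - W)..(t0 + W),
      ‖EP I k N y c τ‖ ^ 2 * ‖DP J p τ‖ ^ 2 ≤ 50 * W * (Q ^ 2 * DB) := by
    intro t0 ht0
    simp_rw [e1]
    have h1 := window (I ×ˢ J) A Ω W t0 hW0 (by
      intro x hx
      rw [mem_product] at hx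
      have a1 := hψ _ hx.1
      rw [hre]
      exact ⟨a1.1, by linarith [a1.2]⟩)
    refine h1.trans ?_
    apply mul_le_mul_of_nonneg_left _ (by positivity)
    simp_rw [him]
    have e3 : Q ^ 2 * DB = dbl (I ×ˢ J) W (fun x => Q * (‖c x.1‖ * ‖p x.2‖)) (lt N y) := by
      rw [dbl_smul, hDB]
    rw [e3]
    apply dbl_mono
    · intro x _
      positivity
    · intro x hx
      rw [hre, hA]
      simp only [norm_mul]
      have b1 := coef_bound k hN (y x.1) hX0 ht0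
      calc ‖c x.1‖ * ‖Bc k N (y x.1)‖ * ‖p x.2‖ * Real.exp (-(t0 * psi N (y x.1)))
          = (‖Bc k N (y x.1)‖ * Real.exp (-(t0 * psi N (y x.1)))) * (‖c x.1‖ * ‖p x.2‖) := by ring
        _ ≤ Q * (‖c x.1‖ * ‖p x.2‖) := mul_le_mul_of_nonneg_right b1 (by positivity)
  -- the windows
  set aw : ℕ → ℝ := fun w => X / 2 + 2 * w * W with haw
  have hc : Continuous fun τ => ‖EP I k N y c τ‖ ^ 2 * ‖DP J p τ‖ ^ 2 := by
    have := EP_cont I k N y c
    have := DP_cont J p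
    fun_prop
  have hsum := intervalIntegral.sum_integral_adjacent_intervals
    (f := fun τ => ‖EP I k N y c τ‖ ^ 2 * ‖DP J p τ‖ ^ 2)
    (a := aw) (μ := volume) (n := n) (fun w _ => hc.intervalIntegrable _ _)
  have e5 : aw 0 = X / 2 := by rw [haw]; simp
  have e6 : aw n = 5 * X / 2 := by rw [haw, hW]; field_simp; ring
  rw [e5, e6] at hsum
  rw [← hsum]
  calc ∑ w ∈ range n, ∫ τ in (aw w)..(aw (w + 1)), ‖EP I k N y c τ‖ ^ 2 * ‖DP J p τ‖ ^ 2
      ≤ ∑ w ∈ range n, 50 * W * (Q ^ 2 * DB) := by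
        apply sum_le_sum
        intro w _
        have h1 := hwin (X / 2 + (2 * w + 1) * W) (by
          have : 0 ≤ (2 * (w : ℝ) + 1) * W := by positivity
          linarith)
        have e7 : (X : ℝ) / 2 + (2 * w + 1) * W - W = aw w := by rw [haw]; simp only; ring
        have e8 : (X : ℝ) / 2 + (2 * w + 1) * W + W = aw (w + 1) := by
          rw [haw]; simp only; push_cast; ring
        rw [e7, e8] at h1
        exact h1
    _ = 50 * X * Q ^ 2 * DB := by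
        rw [sum_const, card_range, nsmul_eq_mul, hW]
        field_simp

/-- **The mean value theorem for short Dirichlet polynomials.** -/
theorem mv_int (J : Finset ℕ) (p : ℕ → ℂ) {κ X : ℝ} (hκ : 1 ≤ κ) (hX : 1 ≤ X)
    (hJ : ∀ h ∈ J, 1 ≤ h ∧ (h : ℝ) ≤ κ * X) :
    ∫ τ in (X / 2)..(5 * X / 2), ‖DP J p τ‖ ^ 2 ≤ 200 * C4 * κ ^ 2 * X * ∑ h ∈ J, ‖p h‖ ^ 2 := by
  classical
  have hX0 : 0 < X := by linarith
  have hre : ∀ h : ℕ, (-(Real.log h : ℂ) * Complex.I).re = 0 := fun h => by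
    simp only [Complex.mul_re, Complex.neg_re, Complex.neg_im, Complex.ofReal_re,
      Complex.ofReal_im, Complex.I_re, Complex.I_im]
    ring
  have him : ∀ h : ℕ, (-(Real.log h : ℂ) * Complex.I).im = -Real.log h := fun h => by
    simp only [Complex.mul_im, Complex.neg_re, Complex.neg_im, Complex.ofReal_re,
      Complex.ofReal_im, Complex.I_re, Complex.I_im]
    ring
  have h1 := window J p (fun h => -(Real.log h : ℂ) * Complex.I) X (3 * X / 2) hX0 (by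
    intro h _
    rw [hre]
    simp)
  have e1 : 3 * X / 2 - X = X / 2 := by ring
  have e2 : 3 * X / 2 + X = 5 * X / 2 := by ring
  rw [e1, e2] at h1
  have e3 : ∀ τ : ℝ, ∑ h ∈ J, p h * Complex.exp (-(τ * (-(Real.log h : ℂ) * Complex.I))) = DP J p τ := by
    intro τ
    unfold DP
    apply sum_congr rfl
    intro h _
    rw [pw_eq]
  simp_rw [e3] at h1
  refine h1.trans ?_
  simp_rw [hre, him]
  simp only [mul_zero, neg_zero, Real.exp_zero, mul_one]
  -- the double sum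
  have hker : ∀ h ∈ J, ∀ h' ∈ J, Real.exp (-(X ^ 2 * (-Real.log h - -Real.log h') ^ 2 / 2)) ≤
      4 * κ ^ 2 * (3 / (1 + (((h : ℤ) : ℝ) - (h' : ℤ)) ^ 2)) := by
    intro h hh h' hh'
    obtain ⟨a1, a2⟩ := hJ h hh
    obtain ⟨b1, b2⟩ := hJ h' hh'
    have ha : (0 : ℝ) < h := by exact_mod_cast a1
    have hb : (0 : ℝ) < h' := by exact_mod_cast b1
    set d : ℝ := (h : ℝ) - h' with hd
    have hlog : |d| / (κ * X) ≤ |Real.log h - Real.log h'| := by
      rcases le_total (h' : ℝ) h with hle | hle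
      · have hd0 : 0 ≤ d := by rw [hd]; linarith
        have h3 : d / h ≤ Real.log h - Real.log h' := by
          have := Real.one_sub_inv_le_log_of_pos (x := (h : ℝ) / h') (by positivity)
          rw [Real.log_div ha.ne' hb.ne', inv_div] at this
          have e4 : 1 - (h' : ℝ) / h = d / h := by rw [hd]; field_simp
          rwa [e4] at this
        have h4 : 0 ≤ d / h := by positivity
        rw [abs_of_nonneg hd0, abs_of_nonneg (h4.trans h3)]
        refine le_trans ?_ h3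
        exact div_le_div_of_nonneg_left hd0 ha a2
      · have hd0 : d ≤ 0 := by rw [hd]; linarith
        have h3 : (-d) / h' ≤ Real.log h' - Real.log h := by
          have := Real.one_sub_inv_le_log_of_pos (x := (h' : ℝ) / h) (by positivity)
          rw [Real.log_div hb.ne' ha.ne', inv_div] at this
          have e4 : 1 - (h : ℝ) / h' = (-d) / h' := by rw [hd]; field_simp; ring
          rwa [e4] at this
        have h4 : 0 ≤ (-d) / h' := div_nonneg (by linarith) hb.le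
        rw [abs_of_nonpos hd0, abs_sub_comm, abs_of_nonneg (h4.trans h3)]
        refine le_trans ?_ h3
        exact div_le_div_of_nonneg_left (by linarith) hb b2
    have hsq : d ^ 2 / κ ^ 2 ≤ X ^ 2 * (Real.log h - Real.log h') ^ 2 := by
      have h5 := pow_le_pow_left₀ (by positivity) hlog 2
      rw [div_pow, sq_abs, sq_abs, mul_pow] at h5
      rw [div_le_iff₀ (by positivity)] at h5 ⊢
      nlinarith
    set x := X ^ 2 * (Real.log h - Real.log h') ^ 2 with hx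
    have hx0 : 0 ≤ x := by positivity
    have e5 : -(X ^ 2 * (-Real.log h - -Real.log h') ^ 2 / 2) = -(x / 2) := by rw [hx]; ring
    rw [e5]
    have h6 : Real.exp (-(x / 2)) ≤ (1 + x / 2)⁻¹ := by
      rw [Real.exp_neg]
      apply inv_anti₀ (by positivity)
      have := Real.add_one_le_exp (x / 2)
      linarith
    refine h6.trans ?_
    have e6 : (((h : ℤ) : ℝ) - (h' : ℤ)) = d := by rw [hd]; push_cast; ring
    rw [e6, inv_eq_one_div, ← mul_div_assoc, div_le_div_iff₀ (by positivity) (by positivity)]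
    rw [div_le_iff₀ (by positivity)] at hsq
    have hκ2 : 1 ≤ κ ^ 2 := one_le_pow₀ hκ
    nlinarith
  have hsum : ∀ h ∈ J, ∑ h' ∈ J, 3 / (1 + (((h : ℤ) : ℝ) - (h' : ℤ)) ^ 2) ≤ C4 := by
    intro h _
    have h2 := maj_shift (h : ℝ)
    have e4 : ⌊(h : ℝ)⌋ = (h : ℤ) := Int.floor_natCast h
    rw [e4] at h2
    have h3 : ∑ ξ ∈ J.image (fun h' : ℕ => (h' : ℤ)), 3 / (1 + ((ξ : ℝ) - (h : ℤ)) ^ 2) ≤ C4 :=
      sum_le_hasSum _ (fun ξ _ => by positivity) h2
    rw [sum_image (fun a _ b _ hab => by exact_mod_cast hab)] at h3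
    refine le_trans (le_of_eq ?_) h3
    apply sum_congr rfl
    intro h' _
    congr 2
    ring
  have hC4 := C4_nonneg
  have hfin : dbl J X (fun h => ‖p h‖) (fun h => -Real.log h) ≤ 4 * κ ^ 2 * C4 * ∑ h ∈ J, ‖p h‖ ^ 2 := by
    unfold dbl
    have hA : ∑ h ∈ J, ∑ h' ∈ J, ‖p h‖ ^ 2 * (3 / (1 + (((h : ℤ) : ℝ) - (h' : ℤ)) ^ 2)) ≤
        C4 * ∑ h ∈ J, ‖p h‖ ^ 2 := by
      rw [mul_sum]
      apply sum_le_sum
      intro h hh
      rw [← mul_sum, mul_comm C4]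
      exact mul_le_mul_of_nonneg_left (hsum h hh) (by positivity)
    have hB : ∑ h ∈ J, ∑ h' ∈ J, ‖p h'‖ ^ 2 * (3 / (1 + (((h : ℤ) : ℝ) - (h' : ℤ)) ^ 2)) ≤
        C4 * ∑ h ∈ J, ‖p h‖ ^ 2 := by
      rw [sum_comm]
      refine le_trans (le_of_eq ?_) hA
      apply sum_congr rfl
      intro h' _
      apply sum_congr rfl
      intro h _
      have e7 : (((h' : ℤ) : ℝ) - (h : ℤ)) ^ 2 = (((h : ℤ) : ℝ) - (h' : ℤ)) ^ 2 := by ring
      rw [e7]
    calc ∑ h ∈ J, ∑ h' ∈ J, ‖p h‖ * ‖p h'‖ *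
          Real.exp (-(X ^ 2 * (-Real.log h - -Real.log h') ^ 2 / 2))
        ≤ ∑ h ∈ J, ∑ h' ∈ J, ((2 * κ ^ 2) * (‖p h‖ ^ 2 * (3 / (1 + (((h : ℤ) : ℝ) - (h' : ℤ)) ^ 2))) +
          (2 * κ ^ 2) * (‖p h'‖ ^ 2 * (3 / (1 + (((h : ℤ) : ℝ) - (h' : ℤ)) ^ 2)))) := by
          apply sum_le_sum
          intro h hh
          apply sum_le_sum
          intro h' hh'
          have h1 : ‖p h‖ * ‖p h'‖ ≤ (‖p h‖ ^ 2 + ‖p h'‖ ^ 2) / 2 := by
            nlinarith [sq_nonneg (‖p h‖ - ‖p h'‖)]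
          refine (mul_le_mul h1 (hker h hh h' hh') (Real.exp_pos _).le (by positivity)).trans
            (le_of_eq ?_)
          ring
      _ = (2 * κ ^ 2) * (∑ h ∈ J, ∑ h' ∈ J, ‖p h‖ ^ 2 * (3 / (1 + (((h : ℤ) : ℝ) - (h' : ℤ)) ^ 2))) +
          (2 * κ ^ 2) * (∑ h ∈ J, ∑ h' ∈ J, ‖p h'‖ ^ 2 * (3 / (1 + (((h : ℤ) : ℝ) - (h' : ℤ)) ^ 2))) := by
          simp_rw [sum_add_distrib, mul_sum]
      _ ≤ (2 * κ ^ 2) * (C4 * ∑ h ∈ J, ‖p h‖ ^ 2) + (2 * κ ^ 2) * (C4 * ∑ h ∈ J, ‖p h‖ ^ 2) := by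
          gcongr
      _ = _ := by ring
  calc 50 * X * dbl J X (fun h => ‖p h‖) (fun h => -Real.log h)
      ≤ 50 * X * (4 * κ ^ 2 * C4 * ∑ h ∈ J, ‖p h‖ ^ 2) :=
        mul_le_mul_of_nonneg_left hfin (by positivity)
    _ = _ := by ring

/-- the double sum in terms of the number of the near pairs -/
theorem dbl_le2 {ι : Type*} (I : Finset ι) (W Δ₀ : ℝ) (b lam : ι → ℝ)
    (hb : ∀ i ∈ I, 0 ≤ b i) (hΔ : 0 ≤ Δ₀) :
    dbl I W b lam ≤ (∑ i ∈ I, b i ^ 2 * ((I.filter fun i' => |lam i - lam i'| ≤ Δ₀).card : ℝ)) +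
      Real.exp (-(W ^ 2 * Δ₀ ^ 2 / 2)) * (∑ i ∈ I, b i) ^ 2 := by
  classical
  have h1 : ∀ i ∈ I, ∀ i' ∈ I, b i * b i' * Real.exp (-(W ^ 2 * (lam i - lam i') ^ 2 / 2)) ≤
      (if |lam i - lam i'| ≤ Δ₀ then (b i ^ 2 + b i' ^ 2) / 2 else 0) +
        Real.exp (-(W ^ 2 * Δ₀ ^ 2 / 2)) * (b i * b i') := by
    intro i hi i' hi'
    have hbi := hb i hi
    have hbi' := hb i' hi'
    split_ifs with h
    · have h2 : Real.exp (-(W ^ 2 * (lam i - lam i') ^ 2 / 2)) ≤ 1 := by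
        apply Real.exp_le_one_iff.2
        have : 0 ≤ W ^ 2 * (lam i - lam i') ^ 2 / 2 := by positivity
        linarith
      have h3 : b i * b i' * Real.exp (-(W ^ 2 * (lam i - lam i') ^ 2 / 2)) ≤ b i * b i' :=
        mul_le_of_le_one_right (by positivity) h2
      have h4 : b i * b i' ≤ (b i ^ 2 + b i' ^ 2) / 2 := by nlinarith [sq_nonneg (b i - b i')]
      have h5 : 0 ≤ Real.exp (-(W ^ 2 * Δ₀ ^ 2 / 2)) * (b i * b i') := by positivity
      linarith
    · rw [zero_add, mul_comm]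
      apply mul_le_mul_of_nonneg_right _ (by positivity)
      apply Real.exp_le_exp.2
      have h2 : Δ₀ ^ 2 ≤ (lam i - lam i') ^ 2 := by
        rw [← sq_abs (lam i - lam i')]
        exact pow_le_pow_left₀ hΔ (not_le.1 h).le 2
      nlinarith [mul_le_mul_of_nonneg_left h2 (sq_nonneg W)]
  unfold dbl
  refine (sum_le_sum fun i hi => sum_le_sum fun i' hi' => h1 i hi i' hi').trans ?_
  simp_rw [sum_add_distrib]
  have e1 : ∑ i ∈ I, ∑ i' ∈ I, Real.exp (-(W ^ 2 * Δ₀ ^ 2 / 2)) * (b i * b i') =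
      Real.exp (-(W ^ 2 * Δ₀ ^ 2 / 2)) * (∑ i ∈ I, b i) ^ 2 := by
    have e2 : (∑ i ∈ I, b i) ^ 2 = ∑ i ∈ I, ∑ i' ∈ I, b i * b i' := by
      rw [pow_two, sum_mul_sum]
    rw [e2, mul_sum]
    simp_rw [mul_sum]
  rw [e1]
  apply add_le_add_left
  have e2 : ∀ i ∈ I, ∀ i' ∈ I, (if |lam i - lam i'| ≤ Δ₀ then (b i ^ 2 + b i' ^ 2) / 2 else 0) =
      (if |lam i - lam i'| ≤ Δ₀ then b i ^ 2 / 2 else 0) +
      (if |lam i - lam i'| ≤ Δ₀ then b i' ^ 2 / 2 else 0) := by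
    intro i _ i' _
    split_ifs <;> ring
  rw [sum_congr rfl fun i hi => sum_congr rfl fun i' hi' => e2 i hi i' hi']
  simp_rw [sum_add_distrib]
  have h6 : ∀ i ∈ I, ∑ i' ∈ I, (if |lam i - lam i'| ≤ Δ₀ then b i ^ 2 / 2 else 0) =
      ((I.filter fun i' => |lam i - lam i'| ≤ Δ₀).card : ℝ) * (b i ^ 2 / 2) := by
    intro i hi
    rw [← sum_filter, sum_const, nsmul_eq_mul]
  have e3 : ∑ i ∈ I, ∑ i' ∈ I, (if |lam i - lam i'| ≤ Δ₀ then b i' ^ 2 / 2 else 0) =
      ∑ i' ∈ I, ∑ i ∈ I, (if |lam i' - lam i| ≤ Δ₀ then b i' ^ 2 / 2 else 0) := by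
    rw [sum_comm]
    apply sum_congr rfl
    intro i _
    apply sum_congr rfl
    intro i' _
    rw [abs_sub_comm]
  rw [e3, sum_congr rfl h6, ← sum_add_distrib]
  apply le_of_eq
  apply sum_congr rfl
  intro i _
  ring

end Pool.Agent.KS6_54.ML
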