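import Pool.Agent.KS6_54.ML.Tw9
import Pool.Agent.KS6_54.ML.Fin

set_option autoImplicit false

/-!
# Type I sums
-/

open Finset MeasureTheory

namespace Pool.Agent.KS6_54.ML

open Pool.Agent.W200.MR (pw)
open Pool.Agent.TH445.MQ (pw_norm pw_add)

/-- the coefficients of a Type I sum -/
noncomputable def tyI (L : ℕ) (c f : ℕ → ℂ) (n : ℕ) : ℂ :=
  ∑ l ∈ (Icc 1 L).filter (fun l => l ∣ n), c l * f (n / l)

lemma tyI_le (L : ℕ) {c f : ℕ → ℂ} (hc : ∀ n, ‖c n‖ ≤ 1) (hf : ∀ n, ‖f n‖ ≤ 1) {n : ℕ} (hn : 1 ≤ n) :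
    ‖tyI L c f n‖ ≤ n.divisors.card := by
  unfold tyI
  refine (norm_sum_le _ _).trans ?_
  calc ∑ l ∈ (Icc 1 L).filter (fun l => l ∣ n), ‖c l * f (n / l)‖
      ≤ ∑ l ∈ (Icc 1 L).filter (fun l => l ∣ n), (1 : ℝ) := by
        apply sum_le_sum
        intro l _
        rw [norm_mul]
        exact mul_le_one₀ (hc l) (norm_nonneg _) (hf _)
    _ = (((Icc 1 L).filter (fun l => l ∣ n)).card : ℝ) := by simp
    _ ≤ n.divisors.card := by
        have : ((Icc 1 L).filter (fun l => l ∣ n)).card ≤ n.divisors.card := by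
          apply card_le_card
          intro l hl
          rw [mem_filter] at hl
          rw [Nat.mem_divisors]
          exact ⟨hl.2, by omega⟩
        exact_mod_cast this

/-- the truncation of the coefficients -/
noncomputable def trn (L : ℕ) (c : ℕ → ℂ) (n : ℕ) : ℂ := if n ≤ L then c n else 0

lemma trn_le (L : ℕ) {c : ℕ → ℂ} (hc : ∀ n, ‖c n‖ ≤ 1) (n : ℕ) : ‖trn L c n‖ ≤ 1 := by
  unfold trn
  split_ifs
  · exact hc n
  · simp

/-- **The dyadic decomposition.** -/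
theorem tyI_dec (L : ℕ) (c f : ℕ → ℂ) {n R : ℕ} (hn : 1 ≤ n) (hR : n < 2 ^ R) :
    tyI L c f n = ∑ x ∈ range R ×ˢ range R,
      cf (Ico (2 ^ x.1) (2 * 2 ^ x.1)) (Ico (2 ^ x.2) (2 * 2 ^ x.2)) (trn L c) f n := by
  classical
  have h1 : tyI L c f n = ∑ x ∈ n.divisorsAntidiagonal, trn L c x.1 * f x.2 := by
    rw [Nat.sum_divisorsAntidiagonal (fun a b => trn L c a * f b)]
    unfold tyI
    have h2 : (Icc 1 L).filter (fun l => l ∣ n) = n.divisors.filter (fun l => l ≤ L) := by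
      ext l
      rw [mem_filter, mem_filter, mem_Icc, Nat.mem_divisors]
      constructor
      · intro h
        exact ⟨⟨h.2, by omega⟩, h.1.2⟩
      · intro h
        refine ⟨⟨?_, h.2⟩, h.1.1⟩
        exact Nat.pos_of_dvd_of_pos h.1.1 (by omega)
    rw [h2, sum_filter]
    apply sum_congr rfl
    intro l _
    unfold trn
    split_ifs <;> simp
  rw [h1, ← sum_fiberwise_of_maps_to (t := range R ×ˢ range R)
    (g := fun x : ℕ × ℕ => (Nat.log 2 x.1, Nat.log 2 x.2)) (by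
      intro x hx
      rw [Nat.mem_divisorsAntidiagonal] at hx
      rw [mem_product, mem_range, mem_range]
      have h2 : x.1 ≤ n := Nat.le_of_dvd (by omega) ⟨x.2, hx.1.symm⟩
      have h3 : x.2 ≤ n := Nat.le_of_dvd (by omega) ⟨x.1, by rw [mul_comm]; exact hx.1.symm⟩
      exact ⟨Nat.log_lt_of_lt_pow' (by
          rintro rfl
          simp at hR
          omega) (h2.trans_lt hR), Nat.log_lt_of_lt_pow' (by
          rintro rfl
          simp at hR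
          omega) (h3.trans_lt hR)⟩)]
  apply sum_congr rfl
  intro y _
  unfold cf
  apply sum_congr _ fun _ _ => rfl
  ext x
  rw [mem_filter, mem_filter, Nat.mem_divisorsAntidiagonal, mem_product, mem_Ico, mem_Ico]
  have hlog : ∀ a r : ℕ, 1 ≤ a → (Nat.log 2 a = r ↔ 2 ^ r ≤ a ∧ a < 2 * 2 ^ r) := by
    intro a r ha
    rw [Nat.log_eq_iff (Or.inr ⟨by norm_num, by omega⟩), pow_succ, mul_comm (2 ^ r) 2]
  constructor
  · rintro ⟨⟨h2, _⟩, h3⟩
    have h4 : 1 ≤ x.1 := by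
      rcases Nat.eq_zero_or_pos x.1 with h | h
      · rw [h, zero_mul] at h2; omega
      · exact h
    have h5 : 1 ≤ x.2 := by
      rcases Nat.eq_zero_or_pos x.2 with h | h
      · rw [h, mul_zero] at h2; omega
      · exact h
    have h6 := (Prod.ext_iff.1 h3).1
    have h7 := (Prod.ext_iff.1 h3).2
    exact ⟨⟨(hlog _ _ h4).1 h6, (hlog _ _ h5).1 h7⟩, h2⟩
  · rintro ⟨⟨h2, h3⟩, h4⟩
    have h5 : 1 ≤ x.1 := le_trans Nat.one_le_two_pow h2.1
    have h6 : 1 ≤ x.2 := le_trans Nat.one_le_two_pow h3.1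
    refine ⟨⟨h4, by omega⟩, ?_⟩
    exact Prod.ext ((hlog _ _ h5).2 h2) ((hlog _ _ h6).2 h3)

/-- irrelevant blocks -/
lemma cf_irr {L A M N n : ℕ} (c f : ℕ → ℂ) (hn : n ∈ Icc N (2 * N))
    (h : L < A ∨ 2 * N < A * M ∨ 4 * (A * M) ≤ N) (hA : 1 ≤ A) (hM : 1 ≤ M) :
    cf (Ico A (2 * A)) (Ico M (2 * M)) (trn L c) f n = 0 := by
  unfold cf
  apply sum_eq_zero
  intro x hx
  rw [mem_filter, mem_product, mem_Ico, mem_Ico] at hx
  rw [mem_Icc] at hn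
  obtain ⟨⟨h1, h2⟩, h3⟩ := hx
  rcases h with h | h | h
  · unfold trn
    rw [if_neg (by omega), zero_mul]
  · exfalso
    have : A * M ≤ x.1 * x.2 := Nat.mul_le_mul h1.1 h2.1
    omega
  · exfalso
    have h4 : x.1 * x.2 < (2 * A) * (2 * M) := Nat.mul_lt_mul_of_lt_of_lt h1.2 h2.2
    have h5 : (2 * A) * (2 * M) = 4 * (A * M) := by ring
    omega

lemma log_rpow {δ : ℝ} (hδ : 0 < δ) : ∃ K : ℝ, 1 ≤ K ∧ ∀ N T : ℕ, 1 ≤ N → T ≤ 2 * N ^ 2 →
    (Nat.log 2 T : ℝ) + 1 ≤ K * (N : ℝ) ^ δ := by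
  refine ⟨4 * (1 + 1 / δ), by
    have : 0 < 1 / δ := by positivity
    linarith, ?_⟩
  intro N T hN hT
  have hN1 : (1 : ℝ) ≤ N := by exact_mod_cast hN
  have hN0 : (0 : ℝ) < N := by linarith
  have h5 := log_le_rpow' hδ hN1
  have h6 : 0 ≤ Real.log N := Real.log_nonneg hN1
  have h3 : (1 / 2 : ℝ) ≤ Real.log 2 := by
    have := Real.log_two_gt_d9
    linarith
  have h1 : (Nat.log 2 T : ℝ) ≤ 1 + 4 * Real.log N := by
    rcases Nat.eq_zero_or_pos T with h | h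
    · rw [h]
      simp
      linarith
    · have h7 : (Nat.log 2 T : ℝ) ≤ Real.log T / Real.log 2 := by
        have := Real.natLog_le_logb T 2
        rwa [Real.logb] at this
      have h2 : Real.log T ≤ Real.log 2 + 2 * Real.log N := by
        have h8 : (T : ℝ) ≤ 2 * (N : ℝ) ^ 2 := by exact_mod_cast hT
        have hT0 : (0 : ℝ) < T := by exact_mod_cast h
        calc Real.log T ≤ Real.log (2 * (N : ℝ) ^ 2) := Real.log_le_log hT0 h8
          _ = Real.log 2 + 2 * Real.log N := by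
              rw [Real.log_mul (by norm_num) (by positivity), Real.log_pow]; push_cast; ring
      refine h7.trans ?_
      rw [div_le_iff₀ (by linarith)]
      nlinarith
  linarith

/-- the dyadic blocks in `t`, small exponents -/
theorem tyI_block (k : ℕ) (hk : 1 ≤ k) (q : ℝ) (hq : 2 ≤ q) (hq1 : q * (k + 1) ≤ 4 * k)
    (δ : ℝ) (hδ : 0 < δ) (hδ1 : δ ≤ 1) :
    ∃ C : ℝ, 1 ≤ C ∧ ∃ N₀ : ℕ, 64 ≤ N₀ ∧ ∀ (N X m L : ℕ), N₀ ≤ N → (N : ℝ) ^ (1 + 3 * δ) ≤ X →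
      X ^ (k + 1) * m ^ (2 * k) ≤ N ^ (2 * k) → 1 ≤ m → L ^ (k + 1) * m ≤ N →
      ∀ f : ℕ → ℂ, (∀ n, f (n + m) = f n) → (∀ n, ‖f n‖ ≤ 1) → ∀ c : ℕ → ℂ, (∀ n, ‖c n‖ ≤ 1) →
      ∀ g : ℕ → ℂ, (∀ n ∈ Icc N (2 * N), ‖g n‖ ≤ 1) →
      ∑ t ∈ Icc X (2 * X), ‖∑ n ∈ Icc N (2 * N), tyI L c f n * g n * pw (t : ℝ) n‖ ^ q ≤
        C * (1 + tv N g) ^ q * (N : ℝ) ^ ((3 * q + 1) * δ) * (X * (N : ℝ) ^ (q / 2)) := by
  obtain ⟨C1, hC1, N₁, hN₁64, hB⟩ := rs_block k hk q hq hq1 δ hδ hδ1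
  obtain ⟨K1, hK1, hlog⟩ := log_rpow hδ
  have hq0 : 0 < q := by linarith
  refine ⟨K1 ^ (2 * q) * C1, one_le_mul_of_one_le_of_one_le
    (Real.one_le_rpow hK1 (by positivity)) hC1, N₁, hN₁64, ?_⟩
  intro N X m L hN hX hXm hm hL f hfm hf1 c hc1 g hg
  have hN64 : 64 ≤ N := hN₁64.trans hN
  have hN1n : 1 ≤ N := by omega
  have hN1 : (1 : ℝ) ≤ N := by exact_mod_cast hN1n
  have hN0 : (0 : ℝ) < N := by linarith
  set R : ℕ := Nat.log 2 (2 * N) + 1 with hR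
  have hR1 : (R : ℝ) ≤ K1 * (N : ℝ) ^ δ := by
    have := hlog N (2 * N) hN1n (by nlinarith)
    rw [hR]
    push_cast
    exact this
  have hRpos : 1 ≤ R := by omega
  have hR2 : ∀ n ∈ Icc N (2 * N), n < 2 ^ R := by
    intro n hn
    exact lt_of_le_of_lt (mem_Icc.1 hn).2 (Nat.lt_pow_succ_log_self (by norm_num) _)
  set S := range R ×ˢ range R with hS
  set a : ℕ × ℕ → ℕ → ℂ := fun x =>
    cf (Ico (2 ^ x.1) (2 * 2 ^ x.1)) (Ico (2 ^ x.2) (2 * 2 ^ x.2)) (trn L c) f with ha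
  set Dx : ℕ × ℕ → ℕ → ℂ := fun x t => ∑ n ∈ Icc N (2 * N), a x n * g n * pw (t : ℝ) n with hDx
  set W : ℝ := C1 * (1 + tv N g) ^ q * (N : ℝ) ^ ((q + 1) * δ) * (X * (N : ℝ) ^ (q / 2)) with hW
  have htv0 := tv_nonneg N g
  have hW0 : 0 ≤ W := by positivity
  have hdec : ∀ t : ℕ, ∑ n ∈ Icc N (2 * N), tyI L c f n * g n * pw (t : ℝ) n = ∑ x ∈ S, Dx x t := by
    intro t
    rw [hDx]
    simp only
    rw [sum_comm]
    apply sum_congr rfl
    intro n hn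
    rw [tyI_dec L c f (hN1n.trans (mem_Icc.1 hn).1) (hR2 n hn), sum_mul, sum_mul]
  have hDxb : ∀ x ∈ S, ∑ t ∈ Icc X (2 * X), ‖Dx x t‖ ^ q ≤ W := by
    intro x _
    by_cases hirr : L < 2 ^ x.1 ∨ 2 * N < 2 ^ x.1 * 2 ^ x.2 ∨ 4 * (2 ^ x.1 * 2 ^ x.2) ≤ N
    · have h1 : ∀ t, Dx x t = 0 := by
        intro t
        rw [hDx]
        simp only
        apply sum_eq_zero
        intro n hn
        rw [ha]
        simp only
        rw [cf_irr c f hn hirr Nat.one_le_two_pow Nat.one_le_two_pow, zero_mul, zero_mul]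
      calc ∑ t ∈ Icc X (2 * X), ‖Dx x t‖ ^ q = 0 := by
            apply sum_eq_zero
            intro t _
            rw [h1, norm_zero, Real.zero_rpow hq0.ne']
        _ ≤ W := hW0
    · push Not at hirr
      obtain ⟨h1, h2, h3⟩ := hirr
      exact hB N X m (2 ^ x.1) (2 ^ x.2) hN hX hXm hm Nat.one_le_two_pow
        (le_trans (Nat.mul_le_mul_right _ (Nat.pow_le_pow_left h1 _)) hL) h2 h3 f hfm hf1
        (trn L c) (trn_le L hc1) g hg
  have hScard : (S.card : ℝ) = (R : ℝ) ^ 2 := by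
    rw [hS, card_product, card_range]
    push_cast
    ring
  have hpow : ∀ t : ℕ, ‖∑ x ∈ S, Dx x t‖ ^ q ≤ ((R : ℝ) ^ 2) ^ (q - 1) * ∑ x ∈ S, ‖Dx x t‖ ^ q := by
    intro t
    have h1 := Real.rpow_sum_le_const_mul_sum_rpow S (fun x => ‖Dx x t‖) (p := q) (by linarith)
    rw [hScard] at h1
    simp only [abs_norm] at h1
    refine le_trans ?_ h1
    exact Real.rpow_le_rpow (norm_nonneg _) (norm_sum_le _ _) hq0.le
  simp_rw [hdec]
  have hRr : (1 : ℝ) ≤ R := by exact_mod_cast hRpos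
  calc ∑ t ∈ Icc X (2 * X), ‖∑ x ∈ S, Dx x t‖ ^ q
      ≤ ∑ t ∈ Icc X (2 * X), ((R : ℝ) ^ 2) ^ (q - 1) * ∑ x ∈ S, ‖Dx x t‖ ^ q :=
        sum_le_sum fun t _ => hpow t
    _ = ((R : ℝ) ^ 2) ^ (q - 1) * ∑ x ∈ S, ∑ t ∈ Icc X (2 * X), ‖Dx x t‖ ^ q := by
        rw [← mul_sum, sum_comm]
    _ ≤ ((R : ℝ) ^ 2) ^ (q - 1) * ∑ _x ∈ S, W :=
        mul_le_mul_of_nonneg_left (sum_le_sum hDxb) (by positivity)
    _ = ((R : ℝ) ^ 2) ^ (q - 1) * ((R : ℝ) ^ 2 * W) := by rw [sum_const, nsmul_eq_mul, hScard]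
    _ = ((R : ℝ) ^ 2) ^ q * W := by
        have h1 : ((R : ℝ) ^ 2) ^ q = ((R : ℝ) ^ 2) ^ (q - 1) * (R : ℝ) ^ 2 := by
          have h2 : ((R : ℝ) ^ 2) ^ (q - 1) * (R : ℝ) ^ 2 =
              ((R : ℝ) ^ 2) ^ (q - 1) * ((R : ℝ) ^ 2) ^ (1 : ℝ) := by rw [Real.rpow_one]
          rw [h2, ← Real.rpow_add (by positivity)]
          congr 1
          ring
        rw [h1]
        ring
    _ ≤ (K1 ^ (2 * q) * (N : ℝ) ^ (2 * q * δ)) * W := by
        apply mul_le_mul_of_nonneg_right _ hW0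
        calc ((R : ℝ) ^ 2) ^ q = (R : ℝ) ^ (2 * q) := by
              rw [← Real.rpow_natCast, ← Real.rpow_mul (by positivity)]
              norm_num
          _ ≤ (K1 * (N : ℝ) ^ δ) ^ (2 * q) := Real.rpow_le_rpow (by positivity) hR1 (by positivity)
          _ = K1 ^ (2 * q) * (N : ℝ) ^ (2 * q * δ) := by
              rw [Real.mul_rpow (by linarith) (by positivity), ← Real.rpow_mul hN0.le]
              congr 2
              ring
    _ = K1 ^ (2 * q) * C1 * (1 + tv N g) ^ q * ((N : ℝ) ^ (2 * q * δ) * (N : ℝ) ^ ((q + 1) * δ)) *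
        (X * (N : ℝ) ^ (q / 2)) := by rw [hW]; ring
    _ = _ := by
        rw [← Real.rpow_add hN0]
        congr 3
        ring

end Pool.Agent.KS6_54.ML
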