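import Pool.Agent.KS6_54.ML.Tw10

set_option autoImplicit false

/-!
# The conclusion for Type I sums
-/

open Finset MeasureTheory

namespace Pool.Agent.KS6_54.ML

open Pool.Agent.W200.MR (pw)
open Pool.Agent.TH445.MQ (pw_norm pw_add)

/-- **Type I sums.** -/
theorem tyI_main (k : ℕ) (hk : 1 ≤ k) (q ε : ℝ) (hq : 2 ≤ q) (hε : 0 < ε) :
    ∃ K : ℝ, 0 ≤ K ∧ ∀ (N T m L : ℕ), 1 ≤ N → N ≤ T → T ^ (k + 1) * m ^ (2 * k) ≤ N ^ (2 * k) →
      1 ≤ m → L ^ (k + 1) * m ≤ N →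
      ∀ f : ℕ → ℂ, (∀ n, f (n + m) = f n) → (∀ n, ‖f n‖ ≤ 1) → ∀ c : ℕ → ℂ, (∀ n, ‖c n‖ ≤ 1) →
      ∀ g : ℕ → ℂ, (∀ n ∈ Icc N (2 * N), ‖g n‖ ≤ 1) →
      ∑ t ∈ Icc 1 T, ‖∑ n ∈ Icc N (2 * N), tyI L c f n * g n * pw (t : ℝ) n‖ ^ q ≤
        K * (1 + tv N g) ^ 4 * (N : ℝ) ^ ε * ((N : ℝ) ^ q + (N : ℝ) ^ (q / 2) * (T : ℝ)) := by
  have hk1 : (1 : ℝ) ≤ k := by exact_mod_cast hk
  have hk0 : (0 : ℝ) < k := by linarith
  set q1 : ℝ := 4 * k / (k + 1) with hq1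
  have hq1k : q1 * (k + 1) = 4 * k := by rw [hq1]; field_simp
  have hq12 : 2 ≤ q1 := by
    rw [hq1, le_div_iff₀ (by positivity)]
    linarith
  have hq14 : q1 ≤ 4 := by
    rw [hq1, div_le_iff₀ (by positivity)]
    linarith
  set q' : ℝ := min q q1 with hq'
  have hq'2 : 2 ≤ q' := le_min hq hq12
  have hq'q : q' ≤ q := min_le_left _ _
  have hq'4 : q' ≤ 4 := (min_le_right _ _).trans hq14
  have hq'k : q' * (k + 1) ≤ 4 * k := by
    rw [← hq1k]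
    exact mul_le_mul_of_nonneg_right (min_le_right _ _) (by positivity)
  have hq0 : 0 < q := by linarith
  set δ : ℝ := min 1 (ε / (4 * q + 20)) with hδdef
  have hδ : 0 < δ := by rw [hδdef]; positivity
  have hδ1 : δ ≤ 1 := min_le_left _ _
  have hδε : (4 * q + 20) * δ ≤ ε := by
    have h1 : δ ≤ ε / (4 * q + 20) := min_le_right _ _
    rw [le_div_iff₀ (by positivity)] at h1
    linarith
  obtain ⟨C1, hC1, N₁, hN₁64, hB⟩ := tyI_block k hk q' hq'2 hq'k δ hδ hδ1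
  obtain ⟨K1, hK1, hlog⟩ := log_rpow hδ
  obtain ⟨K2, hK2, hsm⟩ := small_part q δ hq hδ hδ1
  obtain ⟨C2, hC2, hdiv⟩ := Pool.Agent.H510R2.divisor_bound δ hδ
  set Cd : ℝ := 2 * (C2 + 1) with hCd
  have hCd1 : 2 ≤ Cd := by rw [hCd]; linarith
  set P1 : ℝ := (2 * Cd) ^ (q - q') * C1 * K1 with hP1
  set P2 : ℝ := Cd ^ q * K2 with hP2
  set P3 : ℝ := (N₁ : ℝ) ^ 2 * (2 * Cd * (N₁ : ℝ) ^ 2) ^ q with hP3
  have hP10 : 0 ≤ P1 := by positivity
  have hP20 : 0 ≤ P2 := by positivity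
  have hP30 : 0 ≤ P3 := by positivity
  refine ⟨P1 + P2 + P3, by positivity, ?_⟩
  intro N T m L hN hNT hTm hm hL f hfm hf1 c hc1 g hg
  have hN1 : (1 : ℝ) ≤ N := by exact_mod_cast hN
  have hN0 : (0 : ℝ) < N := by linarith
  have hT1 : 1 ≤ T := by omega
  have hT0 : (0 : ℝ) < T := by exact_mod_cast hT1
  -- the size of T
  have hTk : T ^ (k + 1) ≤ N ^ (2 * k) :=
    le_trans (Nat.le_mul_of_pos_right _ (by positivity)) hTm
  have hT2 : T ≤ N ^ 2 := by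
    have h1 : T ^ (k + 1) ≤ (N ^ 2) ^ (k + 1) := by
      calc T ^ (k + 1) ≤ N ^ (2 * k) := hTk
        _ ≤ N ^ (2 * (k + 1)) := Nat.pow_le_pow_right hN (by omega)
        _ = (N ^ 2) ^ (k + 1) := by rw [pow_mul]
    exact (Nat.pow_le_pow_iff_left (by omega)).1 h1
  have hTq : (T : ℝ) ≤ (N : ℝ) ^ (q1 / 2) := by
    have h1 : (T : ℝ) ^ (k + 1) ≤ (N : ℝ) ^ (2 * k) := by exact_mod_cast hTk
    have h2 : (T : ℝ) = ((T : ℝ) ^ (k + 1)) ^ (1 / ((k : ℝ) + 1)) := by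
      rw [← Real.rpow_natCast, ← Real.rpow_mul hT0.le]
      push_cast
      rw [mul_one_div_cancel (by positivity), Real.rpow_one]
    rw [h2]
    calc ((T : ℝ) ^ (k + 1)) ^ (1 / ((k : ℝ) + 1)) ≤ ((N : ℝ) ^ (2 * k)) ^ (1 / ((k : ℝ) + 1)) :=
          Real.rpow_le_rpow (by positivity) h1 (by positivity)
      _ = (N : ℝ) ^ (q1 / 2) := by
          rw [← Real.rpow_natCast, ← Real.rpow_mul hN0.le]
          congr 1
          rw [hq1]
          push_cast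
          field_simp
          ring
  set V := tv N g with hV
  have hV0 : 0 ≤ V := tv_nonneg N g
  have hV4 : 1 ≤ (1 + V) ^ 4 := one_le_pow₀ (by linarith)
  set D : ℕ → ℂ := fun t => ∑ n ∈ Icc N (2 * N), tyI L c f n * g n * pw (t : ℝ) n with hD
  have hNδ1 : 1 ≤ (N : ℝ) ^ δ := Real.one_le_rpow hN1 hδ.le
  have hcoef : ∀ n ∈ Icc N (2 * N), ‖tyI L c f n * g n‖ ≤ Cd * (N : ℝ) ^ δ := by
    intro n hn
    have hn1 : 1 ≤ n := hN.trans (mem_Icc.1 hn).1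
    rw [norm_mul]
    have h1 : ‖tyI L c f n‖ ≤ Cd * (N : ℝ) ^ δ := by
      refine (tyI_le L hc1 hf1 hn1).trans ((hdiv n hn1).trans ?_)
      have h2 : (n : ℝ) ≤ 2 * N := by exact_mod_cast (mem_Icc.1 hn).2
      calc C2 * (n : ℝ) ^ δ ≤ (C2 + 1) * (2 * (N : ℝ)) ^ δ := by
            have : (n : ℝ) ^ δ ≤ (2 * (N : ℝ)) ^ δ := Real.rpow_le_rpow (by positivity) h2 hδ.le
            gcongr
            linarith
        _ = (C2 + 1) * (2 ^ δ * (N : ℝ) ^ δ) := by rw [Real.mul_rpow (by norm_num) hN0.le]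
        _ ≤ (C2 + 1) * (2 * (N : ℝ) ^ δ) := by
            have h3 : (2 : ℝ) ^ δ ≤ 2 := by
              calc (2 : ℝ) ^ δ ≤ 2 ^ (1 : ℝ) :=
                    Real.rpow_le_rpow_of_exponent_le (by norm_num) hδ1
                _ = 2 := Real.rpow_one _
            gcongr
        _ = Cd * (N : ℝ) ^ δ := by rw [hCd]; ring
    calc ‖tyI L c f n‖ * ‖g n‖ ≤ (Cd * (N : ℝ) ^ δ) * 1 :=
          mul_le_mul h1 (hg n hn) (norm_nonneg _) (by positivity)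
      _ = _ := mul_one _
  have hsup : ∀ t, ‖D t‖ ≤ 2 * Cd * (N : ℝ) ^ (1 + δ) := by
    intro t
    rw [hD]
    simp only
    refine (norm_sum_le _ _).trans ?_
    calc ∑ n ∈ Icc N (2 * N), ‖tyI L c f n * g n * pw (t : ℝ) n‖
        ≤ ∑ n ∈ Icc N (2 * N), Cd * (N : ℝ) ^ δ := by
          apply sum_le_sum
          intro n hn
          rw [norm_mul, pw_norm, mul_one]
          exact hcoef n hn
      _ = (N + 1) * (Cd * (N : ℝ) ^ δ) := by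
          rw [sum_const, Nat.card_Icc, nsmul_eq_mul]
          have : 2 * N + 1 - N = N + 1 := by omega
          rw [this]; push_cast; ring
      _ ≤ (2 * N) * (Cd * (N : ℝ) ^ δ) := by
          apply mul_le_mul_of_nonneg_right (by linarith) (by positivity)
      _ = 2 * Cd * (N : ℝ) ^ (1 + δ) := by
          rw [Real.rpow_add hN0, Real.rpow_one]; ring
  set R := (N : ℝ) ^ q + (N : ℝ) ^ (q / 2) * T with hR
  have hR0 : 0 ≤ R := by positivity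
  have hR1 : 1 ≤ R := by
    have h1 : 1 ≤ (N : ℝ) ^ q := Real.one_le_rpow hN1 (by linarith)
    have h2 : 0 ≤ (N : ℝ) ^ (q / 2) * T := by positivity
    rw [hR]; linarith
  have hNε : 1 ≤ (N : ℝ) ^ ε := Real.one_le_rpow hN1 hε.le
  set F : ℕ → ℝ := fun t => ‖D t‖ ^ q with hF
  have hF0 : ∀ t, 0 ≤ F t := fun t => by rw [hF]; positivity
  have hfin : ∀ P : ℝ, 0 ≤ P → P ≤ P1 + P2 + P3 → P * (1 * 1 * 1) ≤
      (P1 + P2 + P3) * (1 + V) ^ 4 * (N : ℝ) ^ ε * R := by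
    intro P hP hP'
    have h1 : 1 * 1 * 1 ≤ (1 + V) ^ 4 * (N : ℝ) ^ ε * R := by gcongr
    calc P * (1 * 1 * 1) ≤ (P1 + P2 + P3) * ((1 + V) ^ 4 * (N : ℝ) ^ ε * R) :=
          mul_le_mul hP' h1 (by norm_num) (by positivity)
      _ = _ := by ring
  rcases lt_or_ge N N₁ with hlt | hge
  · have hN₁r : (N : ℝ) ≤ N₁ := by exact_mod_cast hlt.le
    have hN₁1 : (1 : ℝ) ≤ N₁ := by exact_mod_cast (by omega : 1 ≤ N₁)
    have h1 : ∀ t ∈ Icc 1 T, F t ≤ (2 * Cd * (N₁ : ℝ) ^ 2) ^ q := by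
      intro t _
      apply Real.rpow_le_rpow (norm_nonneg _) _ hq0.le
      refine (hsup t).trans ?_
      have h2 : (N : ℝ) ^ (1 + δ) ≤ (N₁ : ℝ) ^ 2 := by
        calc (N : ℝ) ^ (1 + δ) ≤ (N : ℝ) ^ (2 : ℝ) :=
              Real.rpow_le_rpow_of_exponent_le hN1 (by linarith)
          _ = (N : ℝ) ^ 2 := by rw [← Real.rpow_natCast]; norm_num
          _ ≤ (N₁ : ℝ) ^ 2 := pow_le_pow_left₀ hN0.le hN₁r 2
      gcongr
    have hTr : (T : ℝ) ≤ (N₁ : ℝ) ^ 2 := by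
      calc (T : ℝ) ≤ (N : ℝ) ^ 2 := by exact_mod_cast hT2
        _ ≤ (N₁ : ℝ) ^ 2 := pow_le_pow_left₀ hN0.le hN₁r 2
    calc ∑ t ∈ Icc 1 T, F t ≤ ∑ _t ∈ Icc 1 T, (2 * Cd * (N₁ : ℝ) ^ 2) ^ q := sum_le_sum h1
      _ = T * (2 * Cd * (N₁ : ℝ) ^ 2) ^ q := by rw [sum_const, Nat.card_Icc, nsmul_eq_mul]; simp
      _ ≤ (N₁ : ℝ) ^ 2 * (2 * Cd * (N₁ : ℝ) ^ 2) ^ q := by gcongr
      _ = P3 * (1 * 1 * 1) := by rw [hP3]; ring
      _ ≤ _ := hfin P3 hP30 (by linarith)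
  set X₀ := ⌈(N : ℝ) ^ (1 + 3 * δ)⌉₊ with hX₀
  have hX₀r : (N : ℝ) ^ (1 + 3 * δ) ≤ X₀ := Nat.le_ceil _
  have hone : 1 ≤ (N : ℝ) ^ (1 + 3 * δ) := Real.one_le_rpow hN1 (by positivity)
  have hX₀2 : (X₀ : ℝ) ≤ 2 * (N : ℝ) ^ (1 + 3 * δ) := by
    have := Nat.ceil_lt_add_one (by positivity : 0 ≤ (N : ℝ) ^ (1 + 3 * δ))
    linarith
  have hNX₀ : N ≤ X₀ := by
    have : (N : ℝ) ≤ X₀ := by
      refine le_trans ?_ hX₀r
      calc (N : ℝ) = (N : ℝ) ^ (1 : ℝ) := (Real.rpow_one _).symm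
        _ ≤ _ := Real.rpow_le_rpow_of_exponent_le hN1 (by linarith)
    exact_mod_cast this
  have hX₀1 : 1 ≤ X₀ := hN.trans hNX₀
  -- the small t
  have hCdN : 0 < Cd * (N : ℝ) ^ δ := by positivity
  have hsmall : ∑ t ∈ Icc 1 (2 * X₀), F t ≤ P2 * (N : ℝ) ^ (q * δ + (q + 18 * δ)) := by
    set b : ℕ → ℂ := fun n => (((Cd * (N : ℝ) ^ δ)⁻¹ : ℝ) : ℂ) * (tyI L c f n * g n) with hb
    have hb1 : ∀ n ∈ Icc N (2 * N), ‖b n‖ ≤ 1 := by
      intro n hn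
      rw [hb]
      simp only
      rw [norm_mul, Complex.norm_real, Real.norm_of_nonneg (by positivity), inv_mul_le_iff₀ hCdN,
        mul_one]
      exact hcoef n hn
    have h1 := hsm N X₀ hN hNX₀ hX₀2 b hb1
    have e1 : ∀ t : ℕ, F t = (Cd * (N : ℝ) ^ δ) ^ q *
        ‖∑ n ∈ Icc N (2 * N), b n * pw (t : ℝ) n‖ ^ q := by
      intro t
      rw [hF, hD]
      simp only
      rw [← Real.mul_rpow hCdN.le (norm_nonneg _)]
      congr 1
      have e2 : (Cd * (N : ℝ) ^ δ) = ‖(((Cd * (N : ℝ) ^ δ) : ℝ) : ℂ)‖ := by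
        rw [Complex.norm_real, Real.norm_of_nonneg hCdN.le]
      rw [e2, ← norm_mul, mul_sum]
      congr 1
      apply sum_congr rfl
      intro n _
      rw [hb]
      simp only
      have e3 : (((Cd * (N : ℝ) ^ δ) : ℝ) : ℂ) * (((Cd * (N : ℝ) ^ δ)⁻¹ : ℝ) : ℂ) = 1 := by
        rw [← Complex.ofReal_mul, mul_inv_cancel₀ hCdN.ne', Complex.ofReal_one]
      linear_combination -(tyI L c f n * g n * pw (t : ℝ) n) * e3
    simp_rw [e1]
    rw [← mul_sum]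
    calc (Cd * (N : ℝ) ^ δ) ^ q *
          ∑ t ∈ Icc 1 (2 * X₀), ‖∑ n ∈ Icc N (2 * N), b n * pw (t : ℝ) n‖ ^ q
        ≤ (Cd * (N : ℝ) ^ δ) ^ q * (K2 * (N : ℝ) ^ (q + 18 * δ)) :=
          mul_le_mul_of_nonneg_left h1 (by positivity)
      _ = _ := by
          rw [Real.mul_rpow (by positivity) (by positivity), ← Real.rpow_mul hN0.le, hP2,
            Real.rpow_add hN0 (q * δ), mul_comm δ q]
          ring
  -- the blocks
  have hblock : ∀ X, X₀ ≤ X → X ≤ T → ∑ t ∈ Icc X (2 * X), F t ≤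
      (2 * Cd) ^ (q - q') * C1 * (1 + V) ^ 4 * (N : ℝ) ^ ((4 * q + 1) * δ) * R := by
    intro X hX hXT
    have hX0 : (0 : ℝ) < X := by exact_mod_cast (by omega : 0 < X)
    have hXTr : (X : ℝ) ≤ T := by exact_mod_cast hXT
    have h1 := hB N X m L hge (hX₀r.trans (by exact_mod_cast hX))
      (le_trans (Nat.mul_le_mul_right _ (Nat.pow_le_pow_left hXT _)) hTm) hm hL f hfm hf1 c hc1 g hg
    have h2 : ∀ t ∈ Icc X (2 * X), F t ≤ (2 * Cd * (N : ℝ) ^ (1 + δ)) ^ (q - q') * ‖D t‖ ^ q' := by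
      intro t _
      rw [hF]
      simp only
      rcases (norm_nonneg (D t)).eq_or_lt with h0 | h0
      · rw [← h0, Real.zero_rpow hq0.ne']
        positivity
      · have e : ‖D t‖ ^ q = ‖D t‖ ^ (q - q') * ‖D t‖ ^ q' := by
          rw [← Real.rpow_add h0]; congr 1; ring
        rw [e]
        exact mul_le_mul_of_nonneg_right (Real.rpow_le_rpow h0.le (hsup t) (by linarith))
          (by positivity)
    have h3 : X * (N : ℝ) ^ (q' / 2) * (N : ℝ) ^ (q - q') ≤ R := by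
      rcases le_total q q1 with h | h
      · have e1 : q' = q := min_eq_left h
        rw [e1, sub_self, Real.rpow_zero, mul_one, mul_comm, hR]
        have h4 : (N : ℝ) ^ (q / 2) * X ≤ (N : ℝ) ^ (q / 2) * T :=
          mul_le_mul_of_nonneg_left hXTr (by positivity)
        have h5 : 0 ≤ (N : ℝ) ^ q := by positivity
        linarith
      · have e1 : q' = q1 := min_eq_right h
        rw [e1]
        calc X * (N : ℝ) ^ (q1 / 2) * (N : ℝ) ^ (q - q1)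
            ≤ (N : ℝ) ^ (q1 / 2) * (N : ℝ) ^ (q1 / 2) * (N : ℝ) ^ (q - q1) := by
              have := hXTr.trans hTq
              gcongr
          _ = (N : ℝ) ^ q := by
              rw [← Real.rpow_add hN0, ← Real.rpow_add hN0]
              congr 1
              ring
          _ ≤ R := by
              have : 0 ≤ (N : ℝ) ^ (q / 2) * T := by positivity
              rw [hR]; linarith
    have hVq : (1 + V) ^ q' ≤ (1 + V) ^ 4 := by
      calc (1 + V) ^ q' ≤ (1 + V) ^ (4 : ℝ) :=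
            Real.rpow_le_rpow_of_exponent_le (by linarith) hq'4
        _ = (1 + V) ^ 4 := by rw [← Real.rpow_natCast]; norm_num
    calc ∑ t ∈ Icc X (2 * X), F t
        ≤ ∑ t ∈ Icc X (2 * X), (2 * Cd * (N : ℝ) ^ (1 + δ)) ^ (q - q') * ‖D t‖ ^ q' := sum_le_sum h2
      _ = (2 * Cd * (N : ℝ) ^ (1 + δ)) ^ (q - q') * ∑ t ∈ Icc X (2 * X), ‖D t‖ ^ q' := by
          rw [mul_sum]
      _ ≤ (2 * Cd * (N : ℝ) ^ (1 + δ)) ^ (q - q') *
          (C1 * (1 + V) ^ q' * (N : ℝ) ^ ((3 * q' + 1) * δ) * (X * (N : ℝ) ^ (q' / 2))) :=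
          mul_le_mul_of_nonneg_left h1 (by positivity)
      _ = (2 * Cd) ^ (q - q') * C1 * (1 + V) ^ q' *
          ((N : ℝ) ^ (δ * (q - q')) * (N : ℝ) ^ ((3 * q' + 1) * δ)) *
          (X * (N : ℝ) ^ (q' / 2) * (N : ℝ) ^ (q - q')) := by
          rw [Real.mul_rpow (by positivity) (by positivity), ← Real.rpow_mul hN0.le]
          have e1 : (N : ℝ) ^ ((1 + δ) * (q - q')) =
              (N : ℝ) ^ (δ * (q - q')) * (N : ℝ) ^ (q - q') := by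
            rw [← Real.rpow_add hN0]
            congr 1
            ring
          rw [e1]
          ring
      _ ≤ (2 * Cd) ^ (q - q') * C1 * (1 + V) ^ 4 * (N : ℝ) ^ ((4 * q + 1) * δ) * R := by
          have e2 : (N : ℝ) ^ (δ * (q - q')) * (N : ℝ) ^ ((3 * q' + 1) * δ) ≤
              (N : ℝ) ^ ((4 * q + 1) * δ) := by
            rw [← Real.rpow_add hN0]
            apply Real.rpow_le_rpow_of_exponent_le hN1
            nlinarith
          gcongr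
  have hbig := dyadic F hF0 ((2 * Cd) ^ (q - q') * C1 * (1 + V) ^ 4 * (N : ℝ) ^ ((4 * q + 1) * δ) * R)
    (by positivity) X₀ hX₀1 T hblock
  have hsplit : ∑ t ∈ Icc 1 T, F t ≤ ∑ t ∈ Icc 1 (2 * X₀), F t + ∑ t ∈ Icc X₀ T, F t := by
    have h1 : ∑ t ∈ Icc 1 T, F t ≤ ∑ t ∈ Icc 1 (2 * X₀) ∪ Icc X₀ T, F t := by
      apply sum_le_sum_of_subset_of_nonneg
      · intro t ht
        rw [mem_union, mem_Icc, mem_Icc]
        rw [mem_Icc] at ht
        omega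
      · intro t _ _
        exact hF0 t
    refine h1.trans ?_
    have h2 := sum_union_inter (s₁ := Icc 1 (2 * X₀)) (s₂ := Icc X₀ T) (f := F)
    have h3 : 0 ≤ ∑ t ∈ Icc 1 (2 * X₀) ∩ Icc X₀ T, F t := sum_nonneg fun t _ => hF0 t
    linarith
  have hlogT := hlog N T hN (by nlinarith)
  have a1 : P2 * (N : ℝ) ^ (q * δ + (q + 18 * δ)) ≤ P2 * ((1 + V) ^ 4 * (N : ℝ) ^ ε * R) := by
    apply mul_le_mul_of_nonneg_left _ hP20
    have h1 : (N : ℝ) ^ (q * δ + (q + 18 * δ)) ≤ (N : ℝ) ^ ε * (N : ℝ) ^ q := by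
      rw [← Real.rpow_add hN0]
      apply Real.rpow_le_rpow_of_exponent_le hN1
      nlinarith
    have h2 : (N : ℝ) ^ q ≤ R := by
      have : 0 ≤ (N : ℝ) ^ (q / 2) * T := by positivity
      rw [hR]; linarith
    calc (N : ℝ) ^ (q * δ + (q + 18 * δ)) ≤ (N : ℝ) ^ ε * (N : ℝ) ^ q := h1
      _ ≤ (N : ℝ) ^ ε * R := mul_le_mul_of_nonneg_left h2 (by positivity)
      _ = 1 * ((N : ℝ) ^ ε * R) := (one_mul _).symm
      _ ≤ (1 + V) ^ 4 * ((N : ℝ) ^ ε * R) := mul_le_mul_of_nonneg_right hV4 (by positivity)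
      _ = _ := by ring
  have a2 : (2 * Cd) ^ (q - q') * C1 * (1 + V) ^ 4 * (N : ℝ) ^ ((4 * q + 1) * δ) * R *
      ((Nat.log 2 T : ℝ) + 1) ≤ P1 * ((1 + V) ^ 4 * (N : ℝ) ^ ε * R) := by
    calc (2 * Cd) ^ (q - q') * C1 * (1 + V) ^ 4 * (N : ℝ) ^ ((4 * q + 1) * δ) * R *
        ((Nat.log 2 T : ℝ) + 1)
        ≤ (2 * Cd) ^ (q - q') * C1 * (1 + V) ^ 4 * (N : ℝ) ^ ((4 * q + 1) * δ) * R *
          (K1 * (N : ℝ) ^ δ) := by gcongr
      _ = P1 * ((1 + V) ^ 4 * ((N : ℝ) ^ ((4 * q + 1) * δ) * (N : ℝ) ^ δ) * R) := by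
          rw [hP1]; ring
      _ ≤ P1 * ((1 + V) ^ 4 * (N : ℝ) ^ ε * R) := by
          have h1 : (N : ℝ) ^ ((4 * q + 1) * δ) * (N : ℝ) ^ δ ≤ (N : ℝ) ^ ε := by
            rw [← Real.rpow_add hN0]
            apply Real.rpow_le_rpow_of_exponent_le hN1
            nlinarith
          gcongr
  have hfin0 : 0 ≤ (1 + V) ^ 4 * (N : ℝ) ^ ε * R := by positivity
  calc ∑ t ∈ Icc 1 T, F t ≤ ∑ t ∈ Icc 1 (2 * X₀), F t + ∑ t ∈ Icc X₀ T, F t := hsplit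
    _ ≤ P2 * ((1 + V) ^ 4 * (N : ℝ) ^ ε * R) + P1 * ((1 + V) ^ 4 * (N : ℝ) ^ ε * R) :=
        add_le_add (hsmall.trans a1) (hbig.trans a2)
    _ ≤ (P1 + P2 + P3) * ((1 + V) ^ 4 * (N : ℝ) ^ ε * R) := by nlinarith
    _ = _ := by ring

end Pool.Agent.KS6_54.ML
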