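import Pool.Agent.KS6_54.ML.Tw1

set_option autoImplicit false

/-!
# The dual sum times a Dirichlet polynomial, II: counting
-/

open Finset MeasureTheory

namespace Pool.Agent.KS6_54.ML

open Pool.Agent.W200.MR (pw)
open Pool.Agent.TH445.MQ (pw_norm pw_add)

/-- near quotients have near logarithms -/
theorem near_ratio {y1 y2 h1 h2 δ Y0 Y1 H Δ₀ : ℝ} (hY0 : 0 < Y0) (hδ : 0 ≤ δ) (hδ1 : δ ≤ Y0)
    (a1 : Y0 ≤ y1) (a2 : Y0 ≤ y2) (k1 : y1 ≤ Y1) (k2 : y2 ≤ Y1) (b1 : 0 < h1) (b2 : 0 < h2)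
    (c1 : h1 ≤ H) (c2 : h2 ≤ H) (hΔ : Δ₀ ≤ 1 / 4)
    (h : |(Real.log (y1 ^ 2 + δ ^ 2) / 2 - Real.log h1) -
      (Real.log (y2 ^ 2 + δ ^ 2) / 2 - Real.log h2)| ≤ Δ₀) :
    |y1 * h2 - y2 * h1| ≤ 8 * Δ₀ * (Y1 * H) + δ ^ 2 * H / Y0 := by
  have hy1 : 0 < y1 := by linarith
  have hy2 : 0 < y2 := by linarith
  have hH : 0 < H := by linarith
  have hY1 : 0 < Y1 := by linarith
  have hΔ0 : 0 ≤ Δ₀ := (abs_nonneg _).trans h
  set A := (y1 ^ 2 + δ ^ 2) * h2 ^ 2 with hA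
  set B := (y2 ^ 2 + δ ^ 2) * h1 ^ 2 with hB
  have hA0 : 0 < A := by positivity
  have hB0 : 0 < B := by positivity
  have e1 : 2 * ((Real.log (y1 ^ 2 + δ ^ 2) / 2 - Real.log h1) -
      (Real.log (y2 ^ 2 + δ ^ 2) / 2 - Real.log h2)) = Real.log (A / B) := by
    rw [Real.log_div hA0.ne' hB0.ne', hA, hB, Real.log_mul (by positivity) (by positivity),
      Real.log_mul (by positivity) (by positivity), Real.log_pow, Real.log_pow]
    push_cast
    ring
  set u := Real.log (A / B) with hu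
  have hu2 : |u| ≤ 2 * Δ₀ := by
    rw [← e1, abs_mul, abs_of_pos (by norm_num : (0 : ℝ) < 2)]
    linarith
  have hu1 : |u| ≤ 1 := by linarith
  have e2 : A = B * Real.exp u := by
    rw [hu, Real.exp_log (by positivity)]
    field_simp
  have h5 : |Real.exp u - 1| ≤ 2 * |u| := Real.abs_exp_sub_one_le hu1
  have h6 : |A - B| ≤ 4 * Δ₀ * B := by
    rw [e2, show B * Real.exp u - B = B * (Real.exp u - 1) by ring, abs_mul, abs_of_pos hB0]
    nlinarith
  -- `|y1 h2 - y2 h1| (y1 h2 + y2 h1) = |A - B - δ² (h2² - h1²)|`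
  set s := y1 * h2 + y2 * h1 with hs
  have hs0 : 0 < s := by positivity
  have h8 : |y1 * h2 - y2 * h1| * s = |(A - B) + δ ^ 2 * (h1 ^ 2 - h2 ^ 2)| := by
    rw [show (A - B) + δ ^ 2 * (h1 ^ 2 - h2 ^ 2) = (y1 * h2 - y2 * h1) * s by
      rw [hA, hB, hs]; ring, abs_mul, abs_of_pos hs0]
  have h9 : |(A - B) + δ ^ 2 * (h1 ^ 2 - h2 ^ 2)| ≤ 4 * Δ₀ * B + δ ^ 2 * (|h1 ^ 2 - h2 ^ 2|) := by
    refine (abs_add_le _ _).trans ?_
    rw [abs_mul, abs_of_nonneg (sq_nonneg δ)]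
    linarith
  have h10 : B ≤ 2 * (Y1 * H) * s := by
    have h11 : y2 ^ 2 + δ ^ 2 ≤ 2 * y2 ^ 2 := by
      have : δ ^ 2 ≤ y2 ^ 2 := pow_le_pow_left₀ hδ (by linarith) 2
      linarith
    calc B ≤ (2 * y2 ^ 2) * h1 ^ 2 := mul_le_mul_of_nonneg_right h11 (by positivity)
      _ = 2 * (y2 * h1) * (y2 * h1) := by ring
      _ ≤ 2 * (Y1 * H) * s := by
          apply mul_le_mul
          · have := mul_le_mul k2 c1 b1.le hY1.le
            linarith
          · rw [hs]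
            have : 0 < y1 * h2 := by positivity
            linarith
          · positivity
          · positivity
  have h12 : |h1 ^ 2 - h2 ^ 2| ≤ H / Y0 * s := by
    rcases le_total h1 h2 with hle | hle
    · have h13 : h1 ^ 2 ≤ h2 ^ 2 := pow_le_pow_left₀ b1.le hle 2
      rw [abs_sub_comm, abs_of_nonneg (by linarith)]
      calc h2 ^ 2 - h1 ^ 2 ≤ h2 * h2 := by nlinarith [sq_nonneg h1]
        _ ≤ H * h2 := mul_le_mul_of_nonneg_right c2 b2.le
        _ = H / Y0 * (Y0 * h2) := by field_simp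
        _ ≤ H / Y0 * s := by
            apply mul_le_mul_of_nonneg_left _ (by positivity)
            rw [hs]
            have h14 := mul_le_mul_of_nonneg_right a1 b2.le
            have : 0 < y2 * h1 := by positivity
            linarith
    · have h13 : h2 ^ 2 ≤ h1 ^ 2 := pow_le_pow_left₀ b2.le hle 2
      rw [abs_of_nonneg (by linarith)]
      calc h1 ^ 2 - h2 ^ 2 ≤ h1 * h1 := by nlinarith [sq_nonneg h2]
        _ ≤ H * h1 := mul_le_mul_of_nonneg_right c1 b1.le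
        _ = H / Y0 * (Y0 * h1) := by field_simp
        _ ≤ H / Y0 * s := by
            apply mul_le_mul_of_nonneg_left _ (by positivity)
            rw [hs]
            have h14 := mul_le_mul_of_nonneg_right a2 b1.le
            have : 0 < y1 * h2 := by positivity
            linarith
  have h15 : |y1 * h2 - y2 * h1| * s ≤ (8 * Δ₀ * (Y1 * H) + δ ^ 2 * H / Y0) * s := by
    rw [h8]
    refine h9.trans ?_
    calc 4 * Δ₀ * B + δ ^ 2 * |h1 ^ 2 - h2 ^ 2|
        ≤ 4 * Δ₀ * (2 * (Y1 * H) * s) + δ ^ 2 * (H / Y0 * s) := by gcongr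
      _ = _ := by ring
  exact le_of_mul_le_mul_right h15 hs0

/-- the number of factorizations in a short interval, two different factors -/
theorem cnt_int2 {ι : Type*} (I : Finset ι) (J : Finset ℕ) (x : ι → ℕ)
    (hinj : ∀ i ∈ I, ∀ j ∈ I, x i = x j → i = j)
    (h1 : ∀ i ∈ I, 1 ≤ x i) (h2 : ∀ h ∈ J, 1 ≤ h) (D : ℝ) (hD0 : 0 ≤ D) (L : ℕ)
    (hL : ∀ i ∈ I, ∀ h ∈ J, x i * h ≤ L)
    (hD : ∀ n : ℕ, 1 ≤ n → n ≤ L → (n.divisors.card : ℝ) ≤ D) (P Δ : ℝ) (hΔ : 0 ≤ Δ) :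
    (((I ×ˢ J).filter fun p => |(x p.1 : ℝ) * p.2 - P| ≤ Δ).card : ℝ) ≤ (2 * Δ + 1) * D := by
  classical
  set S := (I ×ˢ J).filter fun p => |(x p.1 : ℝ) * p.2 - P| ≤ Δ with hS
  set f : ι × ℕ → ℕ := fun p => x p.1 * p.2 with hf
  have hmem : ∀ p ∈ S, (p.1 ∈ I ∧ p.2 ∈ J) ∧ |(x p.1 : ℝ) * p.2 - P| ≤ Δ := by
    intro p hp
    rw [hS, mem_filter, mem_product] at hp
    exact hp
  have hfib : ∀ n ∈ S.image f, ((S.filter fun p => f p = n).card : ℝ) ≤ D := by
    intro n hn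
    obtain ⟨p, hp, hpn⟩ := mem_image.1 hn
    obtain ⟨⟨hp1, hp2⟩, _⟩ := hmem p hp
    have hn1 : 1 ≤ n := by
      rw [← hpn]
      exact Nat.mul_pos (h1 _ hp1) (h2 _ hp2)
    have hn2 : n ≤ L := by
      rw [← hpn]
      exact hL _ hp1 _ hp2
    refine le_trans ?_ (hD n hn1 hn2)
    have : (S.filter fun p => f p = n).card ≤ n.divisors.card := by
      apply card_le_card_of_injOn (fun p => x p.1)
      · intro p hp
        simp only [coe_filter, Set.mem_ofPred_eq] at hp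
        simp only [mem_coe, Nat.mem_divisors]
        exact ⟨⟨p.2, hp.2.symm⟩, by omega⟩
      · intro p hp p' hp' h
        simp only [coe_filter, Set.mem_ofPred_eq] at hp hp'
        obtain ⟨⟨a1, a2⟩, _⟩ := hmem p hp.1
        obtain ⟨⟨b1, b2⟩, _⟩ := hmem p' hp'.1
        have h2 : x p.1 = x p'.1 := h
        have h3 : x p.1 * p.2 = x p.1 * p'.2 := by
          have e1 : x p.1 * p.2 = n := hp.2
          have e2 : x p'.1 * p'.2 = n := hp'.2
          rw [e1, h2, e2]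
        have h4 : p.2 = p'.2 := Nat.eq_of_mul_eq_mul_left (h1 _ a1) h3
        exact Prod.ext (hinj _ a1 _ b1 h2) h4
    exact_mod_cast this
  have himg : ((S.image f).card : ℝ) ≤ 2 * Δ + 1 := by
    rcases (S.image f).eq_empty_or_nonempty with he | he
    · rw [he]; simp; linarith
    · have hsub : S.image f ⊆ Icc ⌈P - Δ⌉₊ ⌊P + Δ⌋₊ := by
        intro n hn
        obtain ⟨p, hp, hpn⟩ := mem_image.1 hn
        obtain ⟨_, h2⟩ := hmem p hp
        have e : (n : ℝ) = (x p.1 : ℝ) * p.2 := by rw [← hpn, hf]; push_cast; ring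
        rw [← e] at h2
        rw [mem_Icc]
        constructor
        · apply Nat.ceil_le.2
          linarith [(abs_le.1 h2).1]
        · apply Nat.le_floor
          linarith [(abs_le.1 h2).2]
      obtain ⟨n, hn⟩ := he
      have hn' := mem_Icc.1 (hsub hn)
      have h5 : 0 ≤ P + Δ := by
        obtain ⟨p, hp, hpn⟩ := mem_image.1 hn
        obtain ⟨_, h2⟩ := hmem p hp
        have : 0 ≤ (x p.1 : ℝ) * p.2 := by positivity
        linarith [(abs_le.1 h2).2]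
      have h6 : (S.image f).card ≤ ⌊P + Δ⌋₊ + 1 - ⌈P - Δ⌉₊ := by
        have := card_le_card hsub
        rwa [Nat.card_Icc] at this
      have h7 : ⌈P - Δ⌉₊ ≤ ⌊P + Δ⌋₊ + 1 := by omega
      calc ((S.image f).card : ℝ) ≤ ((⌊P + Δ⌋₊ + 1 - ⌈P - Δ⌉₊ : ℕ) : ℝ) := by exact_mod_cast h6
        _ = (⌊P + Δ⌋₊ : ℝ) + 1 - (⌈P - Δ⌉₊ : ℝ) := by rw [Nat.cast_sub h7]; push_cast; ring
        _ ≤ (P + Δ) + 1 - (P - Δ) := by
            have a1 := Nat.floor_le h5
            have a2 := Nat.le_ceil (P - Δ)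
            linarith
        _ = 2 * Δ + 1 := by ring
  have hcard := card_eq_sum_card_image f S
  calc (S.card : ℝ) = ∑ n ∈ S.image f, ((S.filter fun p => f p = n).card : ℝ) := by
        rw [hcard]; push_cast; rfl
    _ ≤ ∑ n ∈ S.image f, D := sum_le_sum hfib
    _ = (S.image f).card * D := by rw [sum_const, nsmul_eq_mul]
    _ ≤ (2 * Δ + 1) * D := mul_le_mul_of_nonneg_right himg hD0

end Pool.Agent.KS6_54.ML
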