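import Pool.Agent.KS6_54.ML.Tw2

set_option autoImplicit false

/-!
# The dual sum times a Dirichlet polynomial, III: the double sum
-/

open Finset MeasureTheory

namespace Pool.Agent.KS6_54.ML

open Pool.Agent.W200.MR (pw)
open Pool.Agent.TH445.MQ (pw_norm pw_add)

lemma sum_swap {ι : Type*} (I : Finset ι) (J : Finset ℕ) (F : ι × ℕ → ι × ℕ → ℝ) :
    ∑ x ∈ I ×ˢ J, ∑ x' ∈ I ×ˢ J, F x x' =
      ∑ i' ∈ I, ∑ h ∈ J, ∑ z ∈ I ×ˢ J, F (z.1, h) (i', z.2) := by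
  simp_rw [sum_product]
  rw [sum_comm]
  calc ∑ h ∈ J, ∑ i ∈ I, ∑ i' ∈ I, ∑ h' ∈ J, F (i, h) (i', h')
      = ∑ h ∈ J, ∑ i' ∈ I, ∑ i ∈ I, ∑ h' ∈ J, F (i, h) (i', h') := by
        apply sum_congr rfl
        intro h _
        rw [sum_comm]
    _ = _ := by rw [sum_comm]

/-- the double sum over a product, weights crossed -/
theorem dbl_cross {ι : Type*} (I : Finset ι) (J : Finset ℕ) (W Δ₀ R : ℝ) (w : ι → ℝ) (p : ℕ → ℝ)
    (lam : ι × ℕ → ℝ) (hw : ∀ i ∈ I, 0 ≤ w i) (hp : ∀ h ∈ J, 0 ≤ p h) (hΔ : 0 ≤ Δ₀)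
    (hR : ∀ i' ∈ I, ∀ h ∈ J,
      (((I ×ˢ J).filter fun z => |lam (z.1, h) - lam (i', z.2)| ≤ Δ₀).card : ℝ) ≤ R) :
    dbl (I ×ˢ J) W (fun x => w x.1 * p x.2) lam ≤ R * ((∑ i ∈ I, w i ^ 2) * ∑ h ∈ J, p h ^ 2) +
      Real.exp (-(W ^ 2 * Δ₀ ^ 2 / 2)) * ((∑ i ∈ I, w i) * ∑ h ∈ J, p h) ^ 2 := by
  classical
  have h1 : ∀ x ∈ I ×ˢ J, ∀ x' ∈ I ×ˢ J, (w x.1 * p x.2) * (w x'.1 * p x'.2) *
      Real.exp (-(W ^ 2 * (lam x - lam x') ^ 2 / 2)) ≤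
      ((if |lam x - lam x'| ≤ Δ₀ then w x'.1 ^ 2 * p x.2 ^ 2 / 2 else 0) +
        (if |lam x - lam x'| ≤ Δ₀ then w x.1 ^ 2 * p x'.2 ^ 2 / 2 else 0)) +
        Real.exp (-(W ^ 2 * Δ₀ ^ 2 / 2)) * ((w x.1 * p x.2) * (w x'.1 * p x'.2)) := by
    intro x hx x' hx'
    rw [mem_product] at hx hx'
    have a1 := hw _ hx.1
    have a2 := hp _ hx.2
    have a3 := hw _ hx'.1
    have a4 := hp _ hx'.2
    split_ifs with h
    · have h2 : Real.exp (-(W ^ 2 * (lam x - lam x') ^ 2 / 2)) ≤ 1 := by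
        apply Real.exp_le_one_iff.2
        have : 0 ≤ W ^ 2 * (lam x - lam x') ^ 2 / 2 := by positivity
        linarith
      have h3 : (w x.1 * p x.2) * (w x'.1 * p x'.2) *
          Real.exp (-(W ^ 2 * (lam x - lam x') ^ 2 / 2)) ≤ (w x.1 * p x.2) * (w x'.1 * p x'.2) :=
        mul_le_of_le_one_right (by positivity) h2
      have h4 : (w x.1 * p x.2) * (w x'.1 * p x'.2) ≤
          w x'.1 ^ 2 * p x.2 ^ 2 / 2 + w x.1 ^ 2 * p x'.2 ^ 2 / 2 := by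
        nlinarith [sq_nonneg (w x'.1 * p x.2 - w x.1 * p x'.2)]
      have h5 : 0 ≤ Real.exp (-(W ^ 2 * Δ₀ ^ 2 / 2)) * ((w x.1 * p x.2) * (w x'.1 * p x'.2)) := by
        positivity
      linarith
    · rw [zero_add, zero_add, mul_comm]
      apply mul_le_mul_of_nonneg_right _ (by positivity)
      apply Real.exp_le_exp.2
      have h2 : Δ₀ ^ 2 ≤ (lam x - lam x') ^ 2 := by
        rw [← sq_abs (lam x - lam x')]
        exact pow_le_pow_left₀ hΔ (not_le.1 h).le 2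
      nlinarith [mul_le_mul_of_nonneg_left h2 (sq_nonneg W)]
  unfold dbl
  refine (sum_le_sum fun x hx => sum_le_sum fun x' hx' => h1 x hx x' hx').trans ?_
  have e1 : ∑ x ∈ I ×ˢ J, ∑ x' ∈ I ×ˢ J, Real.exp (-(W ^ 2 * Δ₀ ^ 2 / 2)) *
      ((w x.1 * p x.2) * (w x'.1 * p x'.2)) =
      Real.exp (-(W ^ 2 * Δ₀ ^ 2 / 2)) * ((∑ i ∈ I, w i) * ∑ h ∈ J, p h) ^ 2 := by
    have e2 : (∑ i ∈ I, w i) * ∑ h ∈ J, p h = ∑ x ∈ I ×ˢ J, w x.1 * p x.2 := by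
      rw [sum_mul_sum, sum_product]
    rw [e2, pow_two (∑ x ∈ I ×ˢ J, w x.1 * p x.2), sum_mul_sum, mul_sum]
    simp_rw [mul_sum]
  have hA : ∑ x ∈ I ×ˢ J, ∑ x' ∈ I ×ˢ J,
      (if |lam x - lam x'| ≤ Δ₀ then w x'.1 ^ 2 * p x.2 ^ 2 / 2 else 0) ≤
      R * ((∑ i ∈ I, w i ^ 2) * ∑ h ∈ J, p h ^ 2) / 2 := by
    rw [sum_swap]
    simp only
    have h2 : ∀ i' ∈ I, ∀ h ∈ J, ∑ z ∈ I ×ˢ J,
        (if |lam (z.1, h) - lam (i', z.2)| ≤ Δ₀ then w i' ^ 2 * p h ^ 2 / 2 else 0) ≤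
        R * (w i' ^ 2 * p h ^ 2) / 2 := by
      intro i' hi' h hh
      rw [← sum_filter, sum_const, nsmul_eq_mul]
      have h3 : 0 ≤ w i' ^ 2 * p h ^ 2 / 2 := by positivity
      calc _ ≤ R * (w i' ^ 2 * p h ^ 2 / 2) := mul_le_mul_of_nonneg_right (hR i' hi' h hh) h3
        _ = _ := by ring
    refine (sum_le_sum fun i' hi' => sum_le_sum fun h hh => h2 i' hi' h hh).trans (le_of_eq ?_)
    rw [sum_mul_sum, mul_sum, sum_div]
    apply sum_congr rfl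
    intro i _
    rw [mul_sum, sum_div]
  have hB : ∑ x ∈ I ×ˢ J, ∑ x' ∈ I ×ˢ J,
      (if |lam x - lam x'| ≤ Δ₀ then w x.1 ^ 2 * p x'.2 ^ 2 / 2 else 0) ≤
      R * ((∑ i ∈ I, w i ^ 2) * ∑ h ∈ J, p h ^ 2) / 2 := by
    rw [sum_comm]
    refine le_trans (le_of_eq ?_) hA
    apply sum_congr rfl
    intro x _
    apply sum_congr rfl
    intro x' _
    rw [abs_sub_comm]
  have hsplit : ∑ x ∈ I ×ˢ J, ∑ x' ∈ I ×ˢ J,
      (((if |lam x - lam x'| ≤ Δ₀ then w x'.1 ^ 2 * p x.2 ^ 2 / 2 else 0) +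
        (if |lam x - lam x'| ≤ Δ₀ then w x.1 ^ 2 * p x'.2 ^ 2 / 2 else 0)) +
        Real.exp (-(W ^ 2 * Δ₀ ^ 2 / 2)) * ((w x.1 * p x.2) * (w x'.1 * p x'.2))) =
      (∑ x ∈ I ×ˢ J, ∑ x' ∈ I ×ˢ J,
        (if |lam x - lam x'| ≤ Δ₀ then w x'.1 ^ 2 * p x.2 ^ 2 / 2 else 0)) +
      (∑ x ∈ I ×ˢ J, ∑ x' ∈ I ×ˢ J,
        (if |lam x - lam x'| ≤ Δ₀ then w x.1 ^ 2 * p x'.2 ^ 2 / 2 else 0)) +
      ∑ x ∈ I ×ˢ J, ∑ x' ∈ I ×ˢ J, Real.exp (-(W ^ 2 * Δ₀ ^ 2 / 2)) *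
        ((w x.1 * p x.2) * (w x'.1 * p x'.2)) := by
    simp_rw [sum_add_distrib]
  rw [hsplit, e1]
  linarith

/-- **The double sum for the product of the dual sum and a Dirichlet polynomial.** -/
theorem dbl_tw {N X m : ℕ} (hN : 1 ≤ N) (hm : 1 ≤ m) (hmN : m ≤ N) (hNX : N ≤ X)
    (hX2 : X ≤ N ^ 2) {Z : ℝ} (hZ : 1 ≤ Z) (hZN : Z ≤ N) (hZX : 8 * Z ^ 2 ≤ X)
    (hexp : (N : ℝ) ^ 10 ≤ Real.exp (Z / 16)) {b : ℕ → ℂ} (hb1 : ∀ n, ‖b n‖ ≤ 1) (D : ℝ)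
    (hD : ∀ n : ℕ, 1 ≤ n → n ≤ (N ^ 3) ^ 2 → (n.divisors.card : ℝ) ≤ D) (J : Finset ℕ) (p : ℕ → ℂ)
    {κ : ℝ} (hκ : 1 ≤ κ) (hκN : κ ≤ N) (hJ : ∀ h ∈ J, 1 ≤ h ∧ (m : ℝ) * h ≤ κ * N) :
    dbl (IM (X / (N * Z)) (Z * X / N) (ft m) ×ˢ J)
      (X / ⌈Z⌉₊) (fun x => ‖cv (fc m b) x.1‖ * ‖p x.2‖) (lt N (yv (ft m))) ≤
      76 * κ ^ 2 * Z ^ 3 * D * (Z * X / N) * ∑ h ∈ J, ‖p h‖ ^ 2 := by
  classical
  have hN0 : (0 : ℝ) < N := by exact_mod_cast hN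
  have hN1 : (1 : ℝ) ≤ N := by exact_mod_cast hN
  have hm0 : (0 : ℝ) < m := by exact_mod_cast hm
  have hm1 : (1 : ℝ) ≤ m := by exact_mod_cast hm
  have hX0 : (0 : ℝ) < X := by exact_mod_cast (by omega : 0 < X)
  have hXN : (N : ℝ) ≤ X := by exact_mod_cast hNX
  have hZ0 : 0 < Z := by linarith
  have hκ0 : 0 < κ := by linarith
  have hp := Real.pi_gt_three
  set Y0 : ℝ := X / (N * Z) with hY0
  set Y1 : ℝ := Z * X / N with hY1
  have hY00 : 0 < Y0 := by positivity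
  have hY11 : 1 ≤ Y1 := by
    rw [hY1, le_div_iff₀ hN0]
    nlinarith
  set I := IM Y0 Y1 (ft m) with hI
  have hmem : ∀ i ∈ I, Y0 ≤ yv (ft m) i ∧ yv (ft m) i ≤ Y1 := by
    intro i hi
    rw [hI] at hi
    unfold IM at hi
    rw [mem_sigma] at hi
    exact mem_MR.1 hi.2
  have hpos : ∀ i ∈ I, 0 < yv (ft m) i := fun i hi => lt_of_lt_of_le hY00 (hmem i hi).1
  set Δ₀ : ℝ := 2 * Z ^ 2 / X with hΔ₀
  have hΔ₀0 : 0 ≤ Δ₀ := by positivity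
  have hΔ₀1 : Δ₀ ≤ 1 / 4 := by
    rw [hΔ₀, div_le_div_iff₀ hX0 (by norm_num)]
    linarith
  set δ : ℝ := 1 / (2 * Real.pi * N) with hδ
  have hδ0 : 0 ≤ δ := by positivity
  have hδ1 : δ ≤ Y0 := by
    rw [hδ, hY0, div_le_div_iff₀ (by positivity) (by positivity)]
    have h1 : N * Z ≤ X * N := by nlinarith
    have h2 : (0 : ℝ) < X * N := by positivity
    nlinarith
  have hD0 : 1 ≤ D := by
    have := hD 1 le_rfl (Nat.one_le_pow _ _ (Nat.one_le_pow _ _ hN))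
    simpa using this
  set H : ℝ := κ * N / m with hH
  have hH0 : 0 < H := by positivity
  have hJH : ∀ h ∈ J, (h : ℝ) ≤ H := by
    intro h hh
    rw [hH, le_div_iff₀ hm0]
    linarith [(hJ h hh).2]
  set Δ : ℝ := 17 * κ * Z ^ 3 with hΔ
  have hΔn : 0 ≤ Δ := by positivity
  -- near pairs
  have hnear : ∀ i ∈ I, ∀ i' ∈ I, ∀ h ∈ J, ∀ h' ∈ J,
      |lt N (yv (ft m)) (i, h) - lt N (yv (ft m)) (i', h')| ≤ Δ₀ →
      |(xv m i : ℝ) * h' - (xv m i' : ℝ) * h| ≤ Δ := by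
    intro i hi i' hi' h hh h' hh' hlt
    have q1 := hpos i hi
    have q2 := hpos i' hi'
    have b1 : (0 : ℝ) < h := by exact_mod_cast (hJ h hh).1
    have b2 : (0 : ℝ) < h' := by exact_mod_cast (hJ h' hh').1
    unfold lt at hlt
    simp only at hlt
    rw [log_zc hN q1, log_zc hN q2] at hlt
    have h2 := near_ratio (Δ₀ := Δ₀) hY00 hδ0 hδ1 (hmem i hi).1 (hmem i' hi').1 (hmem i hi).2
      (hmem i' hi').2 b1 b2 (hJH h hh) (hJH h' hh') hΔ₀1 (by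
        rw [abs_le] at hlt ⊢
        constructor
        · linarith [hlt.1]
        · linarith [hlt.2])
    rw [xv_cast hm q1, xv_cast hm q2]
    have e1 : (m : ℝ) * yv (ft m) i * h' - m * yv (ft m) i' * h =
        m * (yv (ft m) i * h' - yv (ft m) i' * h) := by ring
    rw [e1, abs_mul, abs_of_pos hm0]
    calc (m : ℝ) * |yv (ft m) i * h' - yv (ft m) i' * h|
        ≤ m * (8 * Δ₀ * (Y1 * H) + δ ^ 2 * H / Y0) := mul_le_mul_of_nonneg_left h2 hm0.le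
      _ = 16 * κ * Z ^ 3 + κ * Z / (4 * Real.pi ^ 2 * X) := by
          rw [hΔ₀, hY0, hY1, hH, hδ]
          field_simp
          ring
      _ ≤ Δ := by
          rw [hΔ]
          have h3 : κ * Z / (4 * Real.pi ^ 2 * X) ≤ κ * Z ^ 3 := by
            rw [div_le_iff₀ (by positivity)]
            have h4 : Z ≤ Z ^ 3 := by
              calc Z = Z ^ 1 := (pow_one Z).symm
                _ ≤ Z ^ 3 := pow_le_pow_right₀ hZ (by norm_num)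
            have h5 : 1 ≤ 4 * Real.pi ^ 2 * X := by nlinarith
            have h6 : κ * Z ≤ κ * Z ^ 3 := mul_le_mul_of_nonneg_left h4 hκ0.le
            have h7 : 0 < κ * Z ^ 3 := by positivity
            nlinarith
          linarith
  have hxL : ∀ i ∈ I, ∀ h ∈ J, xv m i * h ≤ (N ^ 3) ^ 2 := by
    intro i hi h hh
    have h1 := xv_cast hm (hpos i hi)
    have h2 : (xv m i : ℝ) * h ≤ ((N : ℝ) ^ 3) ^ 2 := by
      rw [h1]
      calc (m : ℝ) * yv (ft m) i * h = (m * h) * yv (ft m) i := by ring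
        _ ≤ (κ * N) * Y1 := mul_le_mul (hJ h hh).2 (hmem i hi).2 (hpos i hi).le (by positivity)
        _ = κ * (Z * X) := by rw [hY1]; field_simp
        _ ≤ N * (N * (N : ℝ) ^ 2) := by
            apply mul_le_mul hκN _ (by positivity) hN0.le
            exact mul_le_mul hZN (by exact_mod_cast hX2) hX0.le hN0.le
        _ = (N : ℝ) ^ 4 := by ring
        _ ≤ (N : ℝ) ^ 6 := pow_le_pow_right₀ hN1 (by norm_num)
        _ = _ := by ring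
    exact_mod_cast h2
  have hx1 : ∀ i ∈ I, 1 ≤ xv m i := by
    intro i hi
    have h1 := xv_cast hm (hpos i hi)
    have h2 : (0 : ℝ) < xv m i := by
      rw [h1]
      exact mul_pos hm0 (hpos i hi)
    exact_mod_cast h2
  set R : ℝ := (2 * Δ + 1) * D with hR
  have hcount : ∀ i' ∈ I, ∀ h ∈ J, (((I ×ˢ J).filter fun z =>
      |lt N (yv (ft m)) (z.1, h) - lt N (yv (ft m)) (i', z.2)| ≤ Δ₀).card : ℝ) ≤ R := by
    intro i' hi' h hh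
    have h1 := cnt_int2 I J (xv m) (fun i hi i' hi' h => xv_inj hm (hpos i hi) (hpos i' hi') h) hx1
      (fun h hh => (hJ h hh).1) D (by linarith) ((N ^ 3) ^ 2) hxL hD ((xv m i' : ℝ) * h) Δ hΔn
    refine le_trans ?_ h1
    have h2 : ((I ×ˢ J).filter fun z =>
        |lt N (yv (ft m)) (z.1, h) - lt N (yv (ft m)) (i', z.2)| ≤ Δ₀) ⊆
        ((I ×ˢ J).filter fun z => |(xv m z.1 : ℝ) * z.2 - (xv m i' : ℝ) * h| ≤ Δ) := by
      intro z hz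
      rw [mem_filter, mem_product] at hz ⊢
      exact ⟨hz.1, hnear z.1 hz.1.1 i' hi' h hh z.2 hz.1.2 hz.2⟩
    exact_mod_cast card_le_card h2
  have hdbl := dbl_cross I J (X / ⌈Z⌉₊) Δ₀ R (fun i => ‖cv (fc m b) i‖) (fun h => ‖p h‖)
    (lt N (yv (ft m))) (fun i _ => norm_nonneg _) (fun h _ => norm_nonneg _) hΔ₀0 hcount
  refine hdbl.trans ?_
  set Sp := ∑ h ∈ J, ‖p h‖ ^ 2 with hSp
  have hS0 : 0 ≤ Sp := by positivity
  have hRle : R ≤ 35 * κ * Z ^ 3 * D := by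
    rw [hR]
    apply mul_le_mul_of_nonneg_right _ (by linarith)
    rw [hΔ]
    have h2 : 1 ≤ Z ^ 3 := one_le_pow₀ hZ
    have h3 : 1 ≤ κ * Z ^ 3 := one_le_mul_of_one_le_of_one_le hκ h2
    linarith
  have hR0 : 0 ≤ R := by positivity
  have hs1 : ∑ i ∈ I, ‖cv (fc m b) i‖ ^ 2 ≤ 2 * Y1 := by
    rw [hI]
    unfold IM cv
    rw [sum_sigma]
    simp only [sum_const, nsmul_eq_mul]
    calc ∑ r : Fin m, ((MR Y0 Y1 (ft m r)).card : ℝ) * ‖fc m b r‖ ^ 2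
        ≤ ∑ r : Fin m, (2 * Y1) * ‖fc m b r‖ ^ 2 := by
          apply sum_le_sum
          intro r _
          exact mul_le_mul_of_nonneg_right (card_MR hY00.le hY11) (by positivity)
      _ = (2 * Y1) * ∑ r : Fin m, ‖fc m b r‖ ^ 2 := by rw [mul_sum]
      _ ≤ (2 * Y1) * 1 := mul_le_mul_of_nonneg_left (fc_sq hm hb1) (by linarith)
      _ = _ := mul_one _
  have hs2 : ∑ i ∈ I, ‖cv (fc m b) i‖ ≤ m * (2 * Y1) := by
    rw [hI]
    unfold IM cv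
    rw [sum_sigma]
    simp only [sum_const, nsmul_eq_mul]
    calc ∑ r : Fin m, ((MR Y0 Y1 (ft m r)).card : ℝ) * ‖fc m b r‖
        ≤ ∑ _r : Fin m, (2 * Y1) * 1 := by
          apply sum_le_sum
          intro r _
          exact mul_le_mul (card_MR hY00.le hY11) (fc_le hm hb1 r) (norm_nonneg _) (by linarith)
      _ = _ := by simp
  have hs3 : (∑ h ∈ J, ‖p h‖) ^ 2 ≤ κ * N * Sp := by
    have h1 : (∑ h ∈ J, ‖p h‖) ^ 2 ≤ J.card * Sp := by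
      have := sq_sum_le_card_mul_sum_sq (s := J) (f := fun h => ‖p h‖)
      exact this
    have h2 : (J.card : ℝ) ≤ κ * N := by
      have h3 : J ⊆ Icc 1 ⌊κ * N⌋₊ := by
        intro h hh
        rw [mem_Icc]
        refine ⟨(hJ h hh).1, Nat.le_floor ?_⟩
        refine le_trans ?_ (hJ h hh).2
        have : (0 : ℝ) ≤ h := by positivity
        nlinarith
      have h4 := card_le_card h3
      rw [Nat.card_Icc, Nat.add_sub_cancel] at h4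
      calc (J.card : ℝ) ≤ (⌊κ * N⌋₊ : ℝ) := by exact_mod_cast h4
        _ ≤ κ * N := Nat.floor_le (by positivity)
    exact h1.trans (mul_le_mul_of_nonneg_right h2 hS0)
  have htail : Real.exp (-((X / (⌈Z⌉₊ : ℝ)) ^ 2 * Δ₀ ^ 2 / 2)) *
      ((∑ i ∈ I, ‖cv (fc m b) i‖) * ∑ h ∈ J, ‖p h‖) ^ 2 ≤ 4 * κ * Sp := by
    have hceil : (⌈Z⌉₊ : ℝ) ≤ 2 * Z := by
      have := Nat.ceil_lt_add_one hZ0.le
      linarith
    have hc0 : (0 : ℝ) < ⌈Z⌉₊ := by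
      have := Nat.le_ceil Z
      linarith
    have h1 : Z ≤ X / ⌈Z⌉₊ * Δ₀ := by
      have : X / (⌈Z⌉₊ : ℝ) * Δ₀ = 2 * Z ^ 2 / ⌈Z⌉₊ := by rw [hΔ₀]; field_simp
      rw [this, le_div_iff₀ hc0]
      nlinarith
    have h2 : Real.exp (-((X / (⌈Z⌉₊ : ℝ)) ^ 2 * Δ₀ ^ 2 / 2)) ≤ ((N : ℝ) ^ 12)⁻¹ := by
      have h3 : Z ≤ (X / (⌈Z⌉₊ : ℝ)) ^ 2 * Δ₀ ^ 2 := by
        rw [← mul_pow]
        nlinarith
      have h4 : Real.exp (-((X / (⌈Z⌉₊ : ℝ)) ^ 2 * Δ₀ ^ 2 / 2)) ≤ Real.exp (-(Z / 2)) := by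
        apply Real.exp_le_exp.2
        linarith
      refine h4.trans ?_
      rw [Real.exp_neg]
      apply inv_anti₀ (by positivity)
      calc (N : ℝ) ^ 12 ≤ ((N : ℝ) ^ 10) ^ 8 := by
            rw [← pow_mul]
            exact pow_le_pow_right₀ hN1 (by norm_num)
        _ ≤ (Real.exp (Z / 16)) ^ 8 := pow_le_pow_left₀ (by positivity) hexp 8
        _ = Real.exp (Z / 2) := by
            rw [← Real.exp_nat_mul]
            congr 1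
            push_cast
            ring
    have h5 : m * (2 * Y1) ≤ 2 * (N : ℝ) ^ 3 := by
      calc (m : ℝ) * (2 * Y1) ≤ N * (2 * Y1) := by
            apply mul_le_mul_of_nonneg_right _ (by linarith)
            exact_mod_cast hmN
        _ = 2 * (Z * X) := by rw [hY1]; field_simp
        _ ≤ 2 * (N * (N : ℝ) ^ 2) := by
            apply mul_le_mul_of_nonneg_left _ (by norm_num)
            exact mul_le_mul hZN (by exact_mod_cast hX2) hX0.le hN0.le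
        _ = _ := by ring
    have h6 : 0 ≤ ∑ i ∈ I, ‖cv (fc m b) i‖ := sum_nonneg fun i _ => norm_nonneg _
    calc Real.exp (-((X / (⌈Z⌉₊ : ℝ)) ^ 2 * Δ₀ ^ 2 / 2)) *
          ((∑ i ∈ I, ‖cv (fc m b) i‖) * ∑ h ∈ J, ‖p h‖) ^ 2
        = Real.exp (-((X / (⌈Z⌉₊ : ℝ)) ^ 2 * Δ₀ ^ 2 / 2)) *
          ((∑ i ∈ I, ‖cv (fc m b) i‖) ^ 2 * (∑ h ∈ J, ‖p h‖) ^ 2) := by rw [mul_pow]
      _ ≤ ((N : ℝ) ^ 12)⁻¹ * ((2 * (N : ℝ) ^ 3) ^ 2 * (κ * N * Sp)) := by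
          apply mul_le_mul h2 _ (by positivity) (by positivity)
          apply mul_le_mul _ hs3 (by positivity) (by positivity)
          exact pow_le_pow_left₀ h6 (hs2.trans h5) 2
      _ = (4 * κ * Sp) * ((N : ℝ) ^ 5)⁻¹ := by
          field_simp
          ring
      _ ≤ (4 * κ * Sp) * 1 := by
          apply mul_le_mul_of_nonneg_left _ (by positivity)
          exact inv_le_one_of_one_le₀ (one_le_pow₀ hN1)
      _ = _ := mul_one _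
  have hmain : R * ((∑ i ∈ I, ‖cv (fc m b) i‖ ^ 2) * Sp) ≤
      (35 * κ * Z ^ 3 * D) * ((2 * Y1) * Sp) := by
    apply mul_le_mul hRle _ (by positivity) (by positivity)
    exact mul_le_mul_of_nonneg_right hs1 hS0
  have hZ3 : 1 ≤ Z ^ 3 := one_le_pow₀ hZ
  have hκκ : κ ≤ κ ^ 2 := by nlinarith
  calc R * ((∑ i ∈ I, ‖cv (fc m b) i‖ ^ 2) * Sp) +
        Real.exp (-((X / (⌈Z⌉₊ : ℝ)) ^ 2 * Δ₀ ^ 2 / 2)) *
          ((∑ i ∈ I, ‖cv (fc m b) i‖) * ∑ h ∈ J, ‖p h‖) ^ 2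
      ≤ (35 * κ * Z ^ 3 * D) * ((2 * Y1) * Sp) + 4 * κ * Sp := add_le_add hmain htail
    _ ≤ 70 * (κ ^ 2 * (Z ^ 3 * D * Y1 * Sp)) + 4 * (κ ^ 2 * (Z ^ 3 * D * Y1 * Sp)) := by
        have h1 : κ * (Z ^ 3 * D * Y1 * Sp) ≤ κ ^ 2 * (Z ^ 3 * D * Y1 * Sp) :=
          mul_le_mul_of_nonneg_right hκκ (by positivity)
        have h2 : 1 * Sp ≤ (Z ^ 3 * D * Y1) * Sp := by
          apply mul_le_mul_of_nonneg_right _ hS0
          exact one_le_mul_of_one_le_of_one_le (one_le_mul_of_one_le_of_one_le hZ3 hD0) hY11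
        have h3 : κ * (1 * Sp) ≤ κ ^ 2 * ((Z ^ 3 * D * Y1) * Sp) :=
          mul_le_mul hκκ h2 (by positivity) (by positivity)
        linarith
    _ ≤ _ := by
        have h1 : 0 ≤ κ ^ 2 * (Z ^ 3 * D * Y1 * Sp) := by positivity
        linarith

end Pool.Agent.KS6_54.ML
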