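import Pool.Agent.KS6_54.ML.Tw3

set_option autoImplicit false

/-!
# The smooth sum times a Dirichlet polynomial, in mean square
-/

open Finset MeasureTheory

namespace Pool.Agent.KS6_54.ML

open Pool.Agent.W200.MR (pw)
open Pool.Agent.TH445.MQ (pw_norm pw_add)

/-- **Mean square of the smooth sum times a Dirichlet polynomial.** -/
theorem DS_tw (j : ℕ) : ∃ C : ℝ, 1 ≤ C ∧ ∀ {N X : ℕ}, 2 ≤ N → N ≤ X → X ≤ N ^ 2 →
    ∀ {Z : ℝ}, 1 ≤ Z → Z ≤ X → (N : ℝ) ^ 6 ≤ Z ^ (j + 2) →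
    (N : ℝ) ^ (2 * j + 10) ≤ Real.exp (Z / 16) → ∀ {m : ℕ}, m ≤ N → ∀ (θ : Fin m → ℝ)
    (c : Fin m → ℂ), (∀ r, ‖c r‖ ≤ 1) → ∀ (J : Finset ℕ) (p : ℕ → ℂ) {κ : ℝ}, 1 ≤ κ →
    (∀ h ∈ J, 1 ≤ h ∧ (h : ℝ) ≤ κ * X) →
    ∫ τ in ((X : ℝ) / 2)..(5 * (X : ℝ) / 2), ‖DS (sm (j + 3) N (bco θ c)) τ‖ ^ 2 * ‖DP J p τ‖ ^ 2 ≤
      C * (N : ℝ) ^ (2 * (j + 3)) * ((N : ℝ) ^ 2 * dbl (IM (X / (N * Z)) (Z * X / N) θ ×ˢ J)
        (X / ⌈Z⌉₊) (fun x => ‖cv c x.1‖ * ‖p x.2‖) (lt N (yv θ)) +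
          κ ^ 2 * X * ∑ h ∈ J, ‖p h‖ ^ 2) := by
  set a1 : ℝ := 4 * ((j : ℝ) + 4) ^ (j + 3) with ha1
  set a2 : ℝ := 4 * ((j : ℝ) + 4) ^ (j + 3) * 3 ^ (j + 4) * C4 with ha2
  have ha10 : 0 ≤ a1 := by positivity
  have hC4 := C4_nonneg
  have ha20 : 0 ≤ a2 := by positivity
  set q : ℝ := 2 ^ (j + 3 + 1) * ((j + 3 + 1).factorial : ℝ) with hq
  have hq0 : 0 ≤ q := by positivity
  set b1 : ℝ := 100 * a1 ^ 2 * 3 ^ (2 * (j + 3) + 1) * q ^ 2 with hb1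
  set b2 : ℝ := 400 * a2 ^ 2 * C4 with hb2
  have hb10 : 0 ≤ b1 := by positivity
  have hb20 : 0 ≤ b2 := by positivity
  refine ⟨b1 + b2 + 1, by linarith, ?_⟩
  intro N X hN2 hX hX2 Z hZ hZX hZ1 hZ2 m hm θ c hc J p κ hκ hJ
  have hN : 1 ≤ N := by omega
  have hN0 : (0 : ℝ) < N := by exact_mod_cast hN
  have hX1 : 1 ≤ X := by omega
  have hX0 : (0 : ℝ) < X := by exact_mod_cast hX1
  have hX1r : (1 : ℝ) ≤ X := by exact_mod_cast hX1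
  have hX2' : (2 : ℝ) ≤ X := by exact_mod_cast (le_trans hN2 hX)
  set I := IM (X / (N * Z)) (Z * X / N) θ with hI
  set DB := dbl (I ×ˢ J) (X / ⌈Z⌉₊) (fun x => ‖cv c x.1‖ * ‖p x.2‖) (lt N (yv θ)) with hDB
  have hDB0 : 0 ≤ DB := by rw [hDB]; unfold dbl; positivity
  set Sp := ∑ h ∈ J, ‖p h‖ ^ 2 with hSp
  have hSp0 : 0 ≤ Sp := by positivity
  have hy : ∀ i ∈ I, (X : ℝ) / (N * Z) ≤ yv θ i := by
    intro i hi
    rw [hI] at hi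
    unfold IM at hi
    rw [mem_sigma] at hi
    exact (mem_MR.1 hi.2).1
  have hEP := EP_tw I (j + 3) hN hX1 hZ (yv θ) (cv c) hy J p
  have hMV := mv_int J p hκ hX1r hJ
  have hbco : ∀ n, ‖bco θ c n‖ ≤ m := by
    intro n
    unfold bco
    refine (norm_sum_le _ _).trans ?_
    calc ∑ r, ‖c r * ee (θ r * n)‖ ≤ ∑ _r : Fin m, (1 : ℝ) := by
          apply sum_le_sum
          intro r _
          rw [norm_mul, ee_norm, mul_one]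
          exact hc r
      _ = m := by simp
  have hDc := DS_cont (sm_summable (j + 3) hN hbco).1
  have hEc := EP_cont I (j + 3) N (yv θ) (cv c)
  have hPc := DP_cont J p
  have hpt : ∀ τ ∈ Set.Icc ((X : ℝ) / 2) (5 * (X : ℝ) / 2),
      ‖DS (sm (j + 3) N (bco θ c)) τ‖ ^ 2 * ‖DP J p τ‖ ^ 2 ≤
      2 * (a1 ^ 2 * (3 * X) ^ (2 * (j + 3) + 1)) *
        (‖EP I (j + 3) N (yv θ) (cv c) τ‖ ^ 2 * ‖DP J p τ‖ ^ 2) +
        2 * (a2 * (N : ℝ) ^ (j + 3)) ^ 2 * ‖DP J p τ‖ ^ 2 := by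
    intro τ hτ
    have hτ1 : 1 ≤ τ := by linarith [hτ.1]
    have hτ0 : 0 < τ := by linarith
    have h1 := DS_bound j hN hX hX2 hZ hZX hZ1 hZ2 hm θ c hc hτ.1 hτ1 hτ.2
    set e := ‖EP I (j + 3) N (yv θ) (cv c) τ‖ with he
    have he0 : 0 ≤ e := norm_nonneg _
    have h2 : ∀ x y : ℝ, (x + y) ^ 2 ≤ 2 * x ^ 2 + 2 * y ^ 2 := by
      intro x y
      nlinarith [sq_nonneg (x - y)]
    have h3 : (τ ^ (j + 3) * Real.sqrt τ) ^ 2 ≤ (3 * X) ^ (2 * (j + 3) + 1) := by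
      have h4 : (τ ^ (j + 3) * Real.sqrt τ) ^ 2 = τ ^ (2 * (j + 3) + 1) := by
        rw [mul_pow, ← pow_mul, Real.sq_sqrt hτ0.le, pow_succ, mul_comm (j + 3) 2]
      rw [h4]
      exact pow_le_pow_left₀ hτ0.le (by linarith [hτ.2]) _
    have h5 : ‖DS (sm (j + 3) N (bco θ c)) τ‖ ^ 2 ≤
        2 * (a1 ^ 2 * (3 * X) ^ (2 * (j + 3) + 1)) * e ^ 2 + 2 * (a2 * (N : ℝ) ^ (j + 3)) ^ 2 := by
      calc ‖DS (sm (j + 3) N (bco θ c)) τ‖ ^ 2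
          ≤ (a1 * (τ ^ (j + 3) * Real.sqrt τ) * e + a2 * (N : ℝ) ^ (j + 3)) ^ 2 :=
            pow_le_pow_left₀ (norm_nonneg _) h1 2
        _ ≤ 2 * (a1 * (τ ^ (j + 3) * Real.sqrt τ) * e) ^ 2 + 2 * (a2 * (N : ℝ) ^ (j + 3)) ^ 2 :=
            h2 _ _
        _ = 2 * (a1 ^ 2 * (τ ^ (j + 3) * Real.sqrt τ) ^ 2) * e ^ 2 +
            2 * (a2 * (N : ℝ) ^ (j + 3)) ^ 2 := by ring
        _ ≤ _ := by gcongr
    calc ‖DS (sm (j + 3) N (bco θ c)) τ‖ ^ 2 * ‖DP J p τ‖ ^ 2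
        ≤ (2 * (a1 ^ 2 * (3 * X) ^ (2 * (j + 3) + 1)) * e ^ 2 + 2 * (a2 * (N : ℝ) ^ (j + 3)) ^ 2) *
          ‖DP J p τ‖ ^ 2 := mul_le_mul_of_nonneg_right h5 (by positivity)
      _ = _ := by ring
  have hint : ∫ τ in ((X : ℝ) / 2)..(5 * (X : ℝ) / 2),
      ‖DS (sm (j + 3) N (bco θ c)) τ‖ ^ 2 * ‖DP J p τ‖ ^ 2 ≤
      ∫ τ in ((X : ℝ) / 2)..(5 * (X : ℝ) / 2),
        (2 * (a1 ^ 2 * (3 * X) ^ (2 * (j + 3) + 1)) *
        (‖EP I (j + 3) N (yv θ) (cv c) τ‖ ^ 2 * ‖DP J p τ‖ ^ 2) +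
        2 * (a2 * (N : ℝ) ^ (j + 3)) ^ 2 * ‖DP J p τ‖ ^ 2) := by
    apply intervalIntegral.integral_mono_on (by linarith)
    · apply Continuous.intervalIntegrable; fun_prop
    · apply Continuous.intervalIntegrable; fun_prop
    · exact hpt
  refine hint.trans ?_
  rw [intervalIntegral.integral_add (by apply Continuous.intervalIntegrable; fun_prop)
    (by apply Continuous.intervalIntegrable; fun_prop), intervalIntegral.integral_const_mul,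
    intervalIntegral.integral_const_mul]
  have hexp : (N : ℝ) ^ (2 * (j + 3)) * (N : ℝ) ^ 2 =
      (X : ℝ) ^ (2 * (j + 3) + 1) * X * (((N : ℝ) / X) ^ (j + 3 + 1)) ^ 2 := by
    have e2 : 2 * (j + 3) + 2 = (j + 3 + 1) * 2 := by ring
    rw [← pow_mul, div_pow, ← e2]
    have e3 : (X : ℝ) ^ (2 * (j + 3) + 2) = (X : ℝ) ^ (2 * (j + 3) + 1) * X := by
      rw [pow_succ]
    have e4 : (N : ℝ) ^ (2 * (j + 3) + 2) = (N : ℝ) ^ (2 * (j + 3)) * (N : ℝ) ^ 2 := by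
      rw [← pow_add]
    rw [e3, e4]
    field_simp
  calc 2 * (a1 ^ 2 * (3 * X) ^ (2 * (j + 3) + 1)) *
        (∫ τ in ((X : ℝ) / 2)..(5 * (X : ℝ) / 2),
          ‖EP I (j + 3) N (yv θ) (cv c) τ‖ ^ 2 * ‖DP J p τ‖ ^ 2) +
        2 * (a2 * (N : ℝ) ^ (j + 3)) ^ 2 * (∫ τ in ((X : ℝ) / 2)..(5 * (X : ℝ) / 2), ‖DP J p τ‖ ^ 2)
      ≤ 2 * (a1 ^ 2 * (3 * X) ^ (2 * (j + 3) + 1)) *
        (50 * X * (q * ((N : ℝ) / X) ^ (j + 3 + 1)) ^ 2 * DB) +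
        2 * (a2 * (N : ℝ) ^ (j + 3)) ^ 2 * (200 * C4 * κ ^ 2 * X * Sp) := by
        gcongr
    _ = b1 * ((X : ℝ) ^ (2 * (j + 3) + 1) * X * (((N : ℝ) / X) ^ (j + 3 + 1)) ^ 2) * DB +
        b2 * ((N : ℝ) ^ (2 * (j + 3)) * (κ ^ 2 * X * Sp)) := by
        rw [mul_pow (3 : ℝ), mul_pow a2, ← pow_mul (N : ℝ), mul_comm (j + 3) 2, hb1, hb2]
        ring
    _ = b1 * ((N : ℝ) ^ (2 * (j + 3)) * (N : ℝ) ^ 2) * DB +
        b2 * ((N : ℝ) ^ (2 * (j + 3)) * (κ ^ 2 * X * Sp)) := by rw [hexp]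
    _ ≤ (b1 + b2 + 1) * ((N : ℝ) ^ (2 * (j + 3)) * (N : ℝ) ^ 2) * DB +
        (b1 + b2 + 1) * ((N : ℝ) ^ (2 * (j + 3)) * (κ ^ 2 * X * Sp)) := by
        have c1 : b1 ≤ b1 + b2 + 1 := by linarith
        have c2 : b2 ≤ b1 + b2 + 1 := by linarith
        gcongr
    _ = _ := by ring

/-- **Mean square of the smooth sum with periodic coefficients times a Dirichlet polynomial.** -/
theorem smooth_tw (e : ℝ) (he : 0 < e) (he1 : e ≤ 1 / 4) : ∃ C : ℝ, 1 ≤ C ∧ ∃ N₀ : ℕ, 64 ≤ N₀ ∧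
    ∃ k : ℕ, 3 ≤ k ∧ ∀ N X m : ℕ, N₀ ≤ N → (N : ℝ) ^ (1 + 2 * e) ≤ X → X ≤ N ^ 2 → 1 ≤ m →
      m ≤ N → ∀ b : ℕ → ℂ, (∀ n, b (n + m) = b n) → (∀ n, ‖b n‖ ≤ 1) →
      ∀ (J : Finset ℕ) (p : ℕ → ℂ) {κ : ℝ}, 1 ≤ κ → κ ≤ N →
      (∀ h ∈ J, 1 ≤ h ∧ (m : ℝ) * h ≤ κ * N) →
      ∫ τ in ((X : ℝ) / 2)..(5 * (X : ℝ) / 2), ‖DS (sm k N b) τ‖ ^ 2 * ‖DP J p τ‖ ^ 2 ≤
        C * κ ^ 2 * (N : ℝ) ^ (2 * k) * (N : ℝ) ^ (10 * e) * (X * N * ∑ h ∈ J, ‖p h‖ ^ 2) := by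
  set j : ℕ := ⌈6 / e⌉₊ with hj
  obtain ⟨C1, hC1, hM⟩ := DS_tw j
  obtain ⟨C2, hC2, hdiv⟩ := Pool.Agent.H510R2.divisor_bound e he
  obtain ⟨Cb, hCb, N₁, hN₁64, hN₁, _⟩ := block e he he1
  have hlim : ∃ N₁ : ℕ, ∀ N : ℕ, N₁ ≤ N → (N : ℝ) ^ (2 * j + 10) ≤ Real.exp ((N : ℝ) ^ e / 16) := by
    have h1 := isLittleO_exp_neg_mul_rpow_atTop (a := 1 / 16) (by norm_num) (-((2 * j + 10 : ℕ) : ℝ) / e)
    have h2 := (h1.bound one_pos)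
    have h3 : Filter.Tendsto (fun N : ℕ => (N : ℝ) ^ e) Filter.atTop Filter.atTop :=
      (tendsto_rpow_atTop he).comp tendsto_natCast_atTop_atTop
    have h4 := h3.eventually h2
    obtain ⟨N₁, hN₁⟩ := Filter.eventually_atTop.1 (h4.and (Filter.eventually_ge_atTop 1))
    refine ⟨N₁, fun N hN => ?_⟩
    obtain ⟨h5, h6⟩ := hN₁ N hN
    have hN0 : (0 : ℝ) < N := by exact_mod_cast h6
    rw [one_mul, Real.norm_of_nonneg (Real.exp_pos _).le, Real.norm_of_nonneg (by positivity),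
      ← Real.rpow_mul hN0.le, mul_div_cancel₀ _ he.ne', Real.rpow_neg hN0.le,
      Real.rpow_natCast] at h5
    have e1 : -(1 / 16 : ℝ) * (N : ℝ) ^ e = -((N : ℝ) ^ e / 16) := by ring
    rw [e1, Real.exp_neg] at h5
    exact (inv_le_inv₀ (Real.exp_pos _) (by positivity)).1 h5
  obtain ⟨N₂, hN₂⟩ := hlim
  refine ⟨C1 * (76 * (C2 + 1) + 1), by nlinarith, max N₁ N₂, hN₁64.trans (le_max_left _ _), j + 3,
    by omega, ?_⟩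
  intro N X m hN hX hX2 hm hmN b hbm hb1 J p κ hκ hκN hJ
  have hNN1 : N₁ ≤ N := (le_max_left _ _).trans hN
  have hNN2 : N₂ ≤ N := (le_max_right _ _).trans hN
  have hN64 : 64 ≤ N := hN₁64.trans hNN1
  have hN1n : 1 ≤ N := by omega
  have hN1 : (1 : ℝ) ≤ N := by exact_mod_cast hN1n
  have hN0 : (0 : ℝ) < N := by linarith
  have hm0 : (0 : ℝ) < m := by exact_mod_cast hm
  have hm1 : (1 : ℝ) ≤ m := by exact_mod_cast hm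
  have hNX : N ≤ X := by
    have : (N : ℝ) ≤ X := by
      refine le_trans ?_ hX
      calc (N : ℝ) = (N : ℝ) ^ (1 : ℝ) := (Real.rpow_one _).symm
        _ ≤ _ := Real.rpow_le_rpow_of_exponent_le hN1 (by linarith)
    exact_mod_cast this
  have hX0 : (0 : ℝ) < X := by exact_mod_cast (by omega : 0 < X)
  have hNXr : (N : ℝ) ≤ X := by exact_mod_cast hNX
  set Z := (N : ℝ) ^ e with hZ
  have hZ1 : 1 ≤ Z := Real.one_le_rpow hN1 he.le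
  have hZ0 : 0 < Z := by linarith
  have hZN : Z ≤ N := by
    calc Z ≤ (N : ℝ) ^ (1 : ℝ) := Real.rpow_le_rpow_of_exponent_le hN1 (by linarith)
      _ = N := Real.rpow_one _
  have hZX : 8 * Z ^ 2 ≤ X := by
    refine le_trans ?_ hX
    have h1 : (8 : ℝ) ≤ N := by exact_mod_cast (by omega : 8 ≤ N)
    calc 8 * Z ^ 2 ≤ N * Z ^ 2 := mul_le_mul_of_nonneg_right h1 (by positivity)
      _ = (N : ℝ) ^ (1 + 2 * e) := by
          rw [hZ, ← Real.rpow_natCast, ← Real.rpow_mul hN0.le, Real.rpow_add hN0, Real.rpow_one]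
          congr 2
          push_cast
          ring
      _ ≤ _ := le_rfl
  have hZ6 : (N : ℝ) ^ 6 ≤ Z ^ (j + 2) := by
    rw [hZ, ← Real.rpow_natCast (N : ℝ) 6, ← Real.rpow_natCast, ← Real.rpow_mul hN0.le]
    apply Real.rpow_le_rpow_of_exponent_le hN1
    have h1 : 6 / e ≤ j := Nat.le_ceil _
    rw [div_le_iff₀ he] at h1
    push_cast
    nlinarith
  set D : ℝ := (C2 + 1) * (N : ℝ) ^ (6 * e) with hD
  have hDb : ∀ n : ℕ, 1 ≤ n → n ≤ (N ^ 3) ^ 2 → (n.divisors.card : ℝ) ≤ D := by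
    intro n h1 h2
    refine (hdiv n h1).trans ?_
    rw [hD]
    have h3 : (n : ℝ) ≤ (N : ℝ) ^ 6 := by
      have : n ≤ N ^ 6 := h2.trans (le_of_eq (by ring))
      exact_mod_cast this
    have h4 : (n : ℝ) ^ e ≤ (N : ℝ) ^ (6 * e) := by
      calc (n : ℝ) ^ e ≤ ((N : ℝ) ^ 6) ^ e := Real.rpow_le_rpow (by positivity) h3 he.le
        _ = (N : ℝ) ^ (6 * e) := by
            rw [← Real.rpow_natCast, ← Real.rpow_mul hN0.le]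
            norm_num
    exact mul_le_mul (by linarith) h4 (by positivity) (by positivity)
  have hJ2 : ∀ h ∈ J, 1 ≤ h ∧ (h : ℝ) ≤ κ * X := by
    intro h hh
    refine ⟨(hJ h hh).1, ?_⟩
    have h1 := (hJ h hh).2
    have h2 : (0 : ℝ) ≤ h := by positivity
    have h3 : κ * N ≤ κ * X := mul_le_mul_of_nonneg_left hNXr (by linarith)
    nlinarith
  have hd := dbl_tw hN1n hm hmN hNX hX2 hZ1 hZN hZX (hN₁ N hNN1) hb1 D hDb J p hκ hκN hJ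
  have hmain := hM (by omega : 2 ≤ N) hNX hX2 hZ1 (by linarith [sq_nonneg Z, hZN.trans hNXr]) hZ6
    (hN₂ N hNN2) hmN (ft m) (fc m b) (fc_le hm hb1) J p hκ hJ2
  have hbco : ∀ n, bco (ft m) (fc m b) n = b n := bco_fc hm hbm
  have hsm : sm (j + 3) N (bco (ft m) (fc m b)) = sm (j + 3) N b := by
    funext n
    unfold sm
    rw [hbco]
  rw [hsm] at hmain
  refine hmain.trans ?_
  set Sp := ∑ h ∈ J, ‖p h‖ ^ 2 with hSp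
  have hSp0 : 0 ≤ Sp := by positivity
  set DB := dbl (IM (X / (N * Z)) (Z * X / N) (ft m) ×ˢ J)
      (X / ⌈Z⌉₊) (fun x => ‖cv (fc m b) x.1‖ * ‖p x.2‖) (lt N (yv (ft m))) with hDB
  have hZ10 : Z ^ 4 * D = (C2 + 1) * (N : ℝ) ^ (10 * e) := by
    rw [hD, hZ, ← Real.rpow_natCast ((N : ℝ) ^ e), ← Real.rpow_mul hN0.le, mul_left_comm,
      ← Real.rpow_add hN0]
    congr 2
    push_cast
    ring
  have h1 : (N : ℝ) ^ 2 * DB ≤ 76 * (C2 + 1) * κ ^ 2 * (N : ℝ) ^ (10 * e) * (X * N * Sp) := by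
    calc (N : ℝ) ^ 2 * DB ≤ (N : ℝ) ^ 2 * (76 * κ ^ 2 * Z ^ 3 * D * (Z * X / N) * Sp) :=
          mul_le_mul_of_nonneg_left hd (by positivity)
      _ = 76 * κ ^ 2 * (Z ^ 4 * D) * (X * N * Sp) := by
          field_simp
      _ = _ := by rw [hZ10]; ring
  have hN10 : 1 ≤ (N : ℝ) ^ (10 * e) := Real.one_le_rpow hN1 (by positivity)
  have h2 : κ ^ 2 * X * Sp ≤ 1 * κ ^ 2 * (N : ℝ) ^ (10 * e) * (X * N * Sp) := by
    have h3 : κ ^ 2 * X * Sp * 1 ≤ κ ^ 2 * X * Sp * ((N : ℝ) ^ (10 * e) * N) := by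
      apply mul_le_mul_of_nonneg_left _ (by positivity)
      exact one_le_mul_of_one_le_of_one_le hN10 hN1
    linarith
  calc C1 * (N : ℝ) ^ (2 * (j + 3)) * ((N : ℝ) ^ 2 * DB + κ ^ 2 * X * Sp)
      ≤ C1 * (N : ℝ) ^ (2 * (j + 3)) * (76 * (C2 + 1) * κ ^ 2 * (N : ℝ) ^ (10 * e) * (X * N * Sp) +
        1 * κ ^ 2 * (N : ℝ) ^ (10 * e) * (X * N * Sp)) := by
        apply mul_le_mul_of_nonneg_left (add_le_add h1 h2) (by positivity)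
    _ = _ := by ring

end Pool.Agent.KS6_54.ML
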