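import Pool.Agent.KS6_54.ML.Tw4

set_option autoImplicit false

/-!
# A sharply cut sum times a Dirichlet polynomial, in mean square
-/

open Finset MeasureTheory

namespace Pool.Agent.KS6_54.ML

open Pool.Agent.W200.MR (pw)
open Pool.Agent.TH445.MQ (pw_norm pw_add)

/-- the square of a weighted average -/
lemma sq_avg (η : ℝ) (hη : 0 < η) {H : ℝ} (hH : 0 ≤ H) {F : ℝ → ℝ} (hF : Continuous F)
    (hF0 : ∀ x, 0 ≤ F x) :
    (∫ v in (-H)..H, (1 + |v|) ^ (-(1 + η)) * F v) ^ 2 ≤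
      4 * cI (1 + η) * ∫ v in (-H)..H, (1 + |v|) ^ (-(1 + η)) * F v ^ 2 := by
  have hp2 : 1 < 1 + η := by linarith
  set φ : ℝ → ℝ := fun v => (1 + |v|) ^ (-(1 + η)) with hφ
  have hφ0 : ∀ v, 0 ≤ φ v := fun v => by rw [hφ]; positivity
  have hφc : Continuous φ := by
    rw [hφ]
    apply Continuous.rpow_const (by fun_prop)
    intro v; left; positivity
  set S := Set.Ioc (-H) H with hS
  have hg0 : ∀ v, 0 ≤ S.indicator φ v := fun v => Set.indicator_nonneg (fun v _ => hφ0 v) v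
  have e1 : ∀ f : ℝ → ℝ, (fun v => S.indicator φ v * f v) = S.indicator (fun v => φ v * f v) := by
    intro f
    funext v
    by_cases h : v ∈ S
    · rw [Set.indicator_of_mem h, Set.indicator_of_mem h]
    · rw [Set.indicator_of_notMem h, Set.indicator_of_notMem h, zero_mul]
  have e2 : ∀ f : ℝ → ℝ, ∫ v, S.indicator φ v * f v = ∫ v in (-H)..H, φ v * f v := by
    intro f
    rw [e1, integral_indicator measurableSet_Ioc, intervalIntegral.integral_of_le (by linarith)]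
  have hint : ∀ f : ℝ → ℝ, Continuous f → Integrable fun v => S.indicator φ v * f v := by
    intro f hf
    rw [e1, integrable_indicator_iff measurableSet_Ioc]
    apply Continuous.integrableOn_Ioc
    exact hφc.mul hf
  have hgi : Integrable (S.indicator φ) := by
    have := hint (fun _ => 1) continuous_const
    simpa using this
  have hF2 : Continuous fun v => F v ^ (2 : ℝ) := by
    apply Continuous.rpow_const hF
    intro v; right; norm_num
  have h1 := jensen (q := 2) (by norm_num) hg0 (f := F) hF0 hgi (hint _ hF) (hint _ hF2)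
  rw [e2, e2] at h1
  have e3 : ∀ x : ℝ, x ^ (2 : ℝ) = x ^ 2 := fun x => by rw [← Real.rpow_natCast]; norm_num
  simp_rw [e3] at h1
  have e4 : ((2 : ℝ) - 1) = 1 := by norm_num
  rw [e4, Real.rpow_one] at h1
  have h2 : ∫ v, S.indicator φ v ≤ cI (1 + η) := by
    unfold cI
    apply integral_mono hgi (pint hp2)
    intro v
    exact Set.indicator_le_self' (fun v _ => hφ0 v) v
  have h4 : 0 ≤ ∫ v in (-H)..H, φ v * F v ^ 2 := by
    apply intervalIntegral.integral_nonneg (by linarith)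
    intro v _
    exact mul_nonneg (hφ0 v) (by positivity)
  have h3 : 0 ≤ ∫ v, S.indicator φ v := integral_nonneg hg0
  calc (∫ v in (-H)..H, φ v * F v) ^ 2 ≤ 2 ^ 2 * (∫ v, S.indicator φ v) *
        ∫ v in (-H)..H, φ v * F v ^ 2 := h1
    _ ≤ 2 ^ 2 * cI (1 + η) * ∫ v in (-H)..H, φ v * F v ^ 2 := by gcongr
    _ = _ := by ring

/-- the averages are taken outside -/
lemma fub_step {e : ℝ} (he : 0 < e) {H A B : ℝ} (hH : 0 ≤ H) (hAB : A ≤ B) {F G : ℝ → ℝ}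
    (hF : Continuous F) (hG : Continuous G) (hF0 : ∀ x, 0 ≤ F x) (hG0 : ∀ x, 0 ≤ G x) {K : ℝ}
    (hK : ∀ v ∈ Set.Icc (-H) H, ∫ τ in A..B, F (τ + v) * G τ ≤ K) :
    ∫ τ in A..B, (∫ v in (-H)..H, (1 + |v|) ^ (-(1 + e)) * F (τ + v)) * G τ ≤
      cI (1 + e) * K := by
  have hp2 : 1 < 1 + e := by linarith
  set φ : ℝ → ℝ := fun v => (1 + |v|) ^ (-(1 + e)) with hφ
  have hφ0 : ∀ v, 0 ≤ φ v := fun v => by rw [hφ]; positivity
  have hφc : Continuous φ := by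
    rw [hφ]
    apply Continuous.rpow_const (by fun_prop)
    intro v; left; positivity
  have hK0 : 0 ≤ K := by
    refine le_trans ?_ (hK 0 ⟨by linarith, hH⟩)
    apply intervalIntegral.integral_nonneg hAB
    intro τ _
    exact mul_nonneg (hF0 _) (hG0 _)
  have e1 : ∀ τ : ℝ, (∫ v in (-H)..H, φ v * F (τ + v)) * G τ =
      ∫ v in (-H)..H, φ v * F (τ + v) * G τ := by
    intro τ
    rw [intervalIntegral.integral_mul_const]
  have e2 : ∫ τ in A..B, (∫ v in (-H)..H, φ v * F (τ + v)) * G τ =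
      ∫ τ in A..B, ∫ v in (-H)..H, φ v * F (τ + v) * G τ := by
    congr 1
    funext τ
    exact e1 τ
  have hcont : Continuous (Function.uncurry fun τ v : ℝ => φ v * F (τ + v) * G τ) := by
    unfold Function.uncurry
    fun_prop
  have e3 : ∫ τ in A..B, ∫ v in (-H)..H, φ v * F (τ + v) * G τ =
      ∫ v in (-H)..H, ∫ τ in A..B, φ v * F (τ + v) * G τ := by
    apply intervalIntegral_intervalIntegral_swap
    apply (hcont.continuousOn (s := Set.uIcc A B ×ˢ Set.uIcc (-H) H)).integrableOn_compact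
      (isCompact_uIcc.prod isCompact_uIcc) |>.mono_set
    exact Set.prod_mono Set.uIoc_subset_uIcc Set.uIoc_subset_uIcc
  rw [e2, e3]
  have e4 : ∀ v : ℝ, ∫ τ in A..B, φ v * F (τ + v) * G τ = φ v * ∫ τ in A..B, F (τ + v) * G τ := by
    intro v
    rw [← intervalIntegral.integral_const_mul]
    congr 1
    funext τ
    ring
  simp_rw [e4]
  have hc2 : Continuous fun v : ℝ => ∫ τ in A..B, F (τ + v) * G τ := by
    apply intervalIntegral.continuous_parametric_intervalIntegral_of_continuous'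
    unfold Function.uncurry
    fun_prop
  calc ∫ v in (-H)..H, φ v * ∫ τ in A..B, F (τ + v) * G τ
      ≤ ∫ v in (-H)..H, φ v * K := by
        apply intervalIntegral.integral_mono_on (by linarith)
        · exact (hφc.mul hc2).intervalIntegrable _ _
        · exact (hφc.mul continuous_const).intervalIntegrable _ _
        · intro v hv
          exact mul_le_mul_of_nonneg_left (hK v hv) (hφ0 v)
    _ = (∫ v in (-H)..H, φ v) * K := intervalIntegral.integral_mul_const _ _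
    _ ≤ cI (1 + e) * K := by
        apply mul_le_mul_of_nonneg_right _ hK0
        unfold cI
        rw [intervalIntegral.integral_of_le (by linarith)]
        apply setIntegral_le_integral (pint hp2)
        exact Filter.Eventually.of_forall fun v => hφ0 v

/-- exponentially small terms -/
lemma exp_small (ε : ℝ) (hε : 0 < ε) : ∃ C3 : ℝ, 0 ≤ C3 ∧ ∀ N : ℕ, 1 ≤ N →
    (N : ℝ) ^ 4 * Real.exp (-((N : ℝ) ^ (2 * ε) / 576)) ≤ C3 := by
  set n : ℕ := ⌈4 / (2 * ε)⌉₊ with hn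
  refine ⟨576 ^ n * (n.factorial : ℝ), by positivity, fun N hN => ?_⟩
  have hN1 : (1 : ℝ) ≤ N := by exact_mod_cast hN
  have hN0 : (0 : ℝ) < N := by linarith
  set x := (N : ℝ) ^ (2 * ε) / 576 with hx
  have hx0 : 0 ≤ x := by positivity
  have h1 := Real.pow_div_factorial_le_exp x hx0 n
  rw [div_le_iff₀ (by positivity)] at h1
  have h2 : (N : ℝ) ^ 4 ≤ ((N : ℝ) ^ (2 * ε)) ^ n := by
    rw [← Real.rpow_natCast, ← Real.rpow_natCast, ← Real.rpow_mul hN0.le]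
    apply Real.rpow_le_rpow_of_exponent_le hN1
    have : 4 / (2 * ε) ≤ n := Nat.le_ceil _
    rw [div_le_iff₀ (by positivity)] at this
    push_cast
    linarith
  have h3 : ((N : ℝ) ^ (2 * ε)) ^ n = 576 ^ n * x ^ n := by
    rw [hx, ← mul_pow]; congr 1; field_simp
  rw [Real.exp_neg, ← div_eq_mul_inv, div_le_iff₀ (Real.exp_pos _)]
  calc (N : ℝ) ^ 4 ≤ 576 ^ n * x ^ n := by rw [← h3]; exact h2
    _ ≤ 576 ^ n * (Real.exp x * (n.factorial : ℝ)) := mul_le_mul_of_nonneg_left h1 (by positivity)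
    _ = _ := by ring

/-- an interval is covered by three dyadic ones -/
lemma cover3 {X X' : ℕ} (hX' : 2 * X' ≤ X) (hX2 : X ≤ 2 * X' + 1) (h4 : 4 ≤ X) {G : ℝ → ℝ}
    (hG : Continuous G) (hG0 : ∀ x, 0 ≤ G x) (B : ℕ → ℝ)
    (hB : ∀ Y : ℕ, Y = X' ∨ Y = X ∨ Y = 2 * X →
      ∫ τ in ((Y : ℝ) / 2)..(5 * (Y : ℝ) / 2), G τ ≤ B Y) :
    ∫ τ in ((X : ℝ) / 4)..(3 * (X : ℝ)), G τ ≤ B X' + B X + B (2 * X) := by
  have hi : ∀ a b : ℝ, IntervalIntegrable G volume a b := fun a b => hG.intervalIntegrable a b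
  have h1 : (2 : ℝ) * X' ≤ X := by exact_mod_cast hX'
  have h2 : (X : ℝ) ≤ 2 * X' + 1 := by exact_mod_cast hX2
  have h3 : (4 : ℝ) ≤ X := by exact_mod_cast h4
  have s1 := intervalIntegral.integral_add_adjacent_intervals (hi (X / 4) (X / 2)) (hi (X / 2) (5 * X / 2))
  have s2 := intervalIntegral.integral_add_adjacent_intervals (hi (X / 4) (5 * X / 2)) (hi (5 * X / 2) (3 * X))
  have m1 : ∫ τ in ((X : ℝ) / 4)..(X / 2), G τ ≤ ∫ τ in ((X' : ℝ) / 2)..(5 * (X' : ℝ) / 2), G τ := by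
    apply intervalIntegral.integral_mono_interval (by linarith) (by linarith) (by linarith)
    · exact Filter.Eventually.of_forall hG0
    · exact hi _ _
  have m2 : ∫ τ in (5 * (X : ℝ) / 2)..(3 * X), G τ ≤
      ∫ τ in (((2 * X : ℕ) : ℝ) / 2)..(5 * ((2 * X : ℕ) : ℝ) / 2), G τ := by
    push_cast
    apply intervalIntegral.integral_mono_interval (by linarith) (by linarith) (by linarith)
    · exact Filter.Eventually.of_forall hG0
    · exact hi _ _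
  have b1 := hB X' (Or.inl rfl)
  have b2 := hB X (Or.inr (Or.inl rfl))
  have b3 := hB (2 * X) (Or.inr (Or.inr rfl))
  linarith

/-- shifting a Dirichlet polynomial -/
lemma DP_shift (J : Finset ℕ) (p : ℕ → ℂ) (σ v : ℝ) :
    DP J p (σ - v) = DP J (fun h => p h * pw (-v) h) σ := by
  unfold DP
  apply sum_congr rfl
  intro h _
  rw [sub_eq_add_neg, pw_add]
  ring

/-- **Mean square of a sharply cut sum with periodic coefficients times a Dirichlet polynomial.** -/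
theorem sharp_tw (e : ℝ) (he : 0 < e) (he1 : e ≤ 1 / 4) : ∃ C : ℝ, 1 ≤ C ∧ ∃ N₀ : ℕ, 64 ≤ N₀ ∧
    ∀ N X m : ℕ, N₀ ≤ N → (N : ℝ) ^ (1 + 4 * e) ≤ X → 2 * X ≤ N ^ 2 → 1 ≤ m →
      m ≤ N → ∀ b : ℕ → ℂ, (∀ n, b (n + m) = b n) → (∀ n, ‖b n‖ ≤ 1) →
      ∀ g : ℕ → ℂ, (∀ n ∈ Icc N (2 * N), ‖g n‖ ≤ 1) →
      ∀ (J : Finset ℕ) (p : ℕ → ℂ) {κ : ℝ}, 1 ≤ κ → κ ≤ N →
      (∀ h ∈ J, 1 ≤ h ∧ (m : ℝ) * h ≤ κ * N) →
      ∫ τ in ((X : ℝ) / 2)..(5 * (X : ℝ) / 2),
        ‖∑ n ∈ Icc N (2 * N), b n * g n * pw τ n‖ ^ 2 * ‖DP J p τ‖ ^ 2 ≤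
        C * κ ^ 2 * (1 + tv N g) ^ 2 * (N : ℝ) ^ (12 * e) * (X * N * ∑ h ∈ J, ‖p h‖ ^ 2) := by
  obtain ⟨C1, hC1, N₁, hN₁64, k, hk3, hS⟩ := smooth_tw e he he1
  obtain ⟨C3, hC3, hexp⟩ := exp_small e he
  set c0 := cI (1 + e) with hc0
  have hc0n : 0 ≤ c0 := cI_nonneg _
  have hC4 := C4_nonneg
  set a1 : ℝ := 4 * (k.factorial : ℝ) * 2 ^ k with ha1
  have ha10 : 0 ≤ a1 := by positivity
  set A : ℝ := 2 * (6 * 72) ^ 2 * (4 * c0) * (c0 * (4 * C1)) with hA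
  set B : ℝ := 2 * (6 * (a1 * ((72 * c0 + 3) * C3))) ^ 2 * (200 * C4) with hB
  have hA0 : 0 ≤ A := by positivity
  have hB0 : 0 ≤ B := by positivity
  set N₂ : ℕ := ⌈(4 : ℝ) ^ (1 / e)⌉₊ with hN₂
  refine ⟨A + B + 1, by linarith, max N₁ N₂, hN₁64.trans (le_max_left _ _), ?_⟩
  intro N X m hN hX hX2 hm hmN b hbm hb1 g hg J p κ hκ hκN hJ
  have hNN1 : N₁ ≤ N := (le_max_left _ _).trans hN
  have hNN2 : N₂ ≤ N := (le_max_right _ _).trans hN
  have hN64 : 64 ≤ N := hN₁64.trans hNN1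
  have hN1n : 1 ≤ N := by omega
  have hN1 : (1 : ℝ) ≤ N := by exact_mod_cast hN1n
  have hN64r : (64 : ℝ) ≤ N := by exact_mod_cast hN64
  have hN0 : (0 : ℝ) < N := by linarith
  have hm1 : (1 : ℝ) ≤ m := by exact_mod_cast hm
  have hNe : 4 ≤ (N : ℝ) ^ e := by
    have h1 : (4 : ℝ) ^ (1 / e) ≤ N := (Nat.le_ceil _).trans (by exact_mod_cast hNN2)
    calc (4 : ℝ) = ((4 : ℝ) ^ (1 / e)) ^ e := by
          rw [← Real.rpow_mul (by norm_num), one_div_mul_cancel he.ne', Real.rpow_one]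
      _ ≤ (N : ℝ) ^ e := Real.rpow_le_rpow (by positivity) h1 he.le
  have hXN : (N : ℝ) ≤ X := by
    refine le_trans ?_ hX
    calc (N : ℝ) = (N : ℝ) ^ (1 : ℝ) := (Real.rpow_one _).symm
      _ ≤ _ := Real.rpow_le_rpow_of_exponent_le hN1 (by linarith)
  have hNX : N ≤ X := by exact_mod_cast hXN
  have hX0 : (0 : ℝ) < X := by linarith
  set X' : ℕ := X / 2 with hX'
  have hX'2 : 2 * X' ≤ X := by omega
  have hX'3 : X ≤ 2 * X' + 1 := by omega
  have hX'r : (X : ℝ) ≤ 2 * X' + 1 := by exact_mod_cast hX'3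
  have hX'r2 : 2 * (X' : ℝ) ≤ X := by exact_mod_cast hX'2
  have hX'4 : (X : ℝ) / 4 ≤ X' := by linarith
  have hX'low : (N : ℝ) ^ (1 + 3 * e) ≤ X' := by
    refine le_trans ?_ hX'4
    rw [le_div_iff₀ (by norm_num)]
    refine le_trans ?_ hX
    have e1 : (N : ℝ) ^ (1 + 4 * e) = (N : ℝ) ^ (1 + 3 * e) * (N : ℝ) ^ e := by
      rw [← Real.rpow_add hN0]; congr 1; ring
    rw [e1]
    exact mul_le_mul_of_nonneg_left hNe (by positivity)
  set V1 := 1 + tv N g with hV1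
  have hV10 : 0 < V1 := by have := tv_nonneg N g; linarith
  obtain ⟨hs1, hs2⟩ := sm_summable k hN1n (B := 1) hb1
  have ha0 : sm k N b 0 = 0 := by
    unfold sm sf
    have : k ≠ 0 := by omega
    simp [this]
  set gg : ℕ → ℂ := fun n => gi k N n * g n with hgg
  have hv : vr N gg ≤ 6 * V1 * ((N : ℝ) ^ k)⁻¹ := vr_gi_mul (k := k) (by omega) hN1n g hg
  have hv0 := vr_nonneg N gg
  set ER := Real.exp (-((N : ℝ) ^ (2 * e) / 576)) with hER
  have hER0 : 0 < ER := Real.exp_pos _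
  set A1 := ∑' n, ‖sm k N b n‖ with hA1
  have hA10 : 0 ≤ A1 := tsum_nonneg fun n => norm_nonneg _
  set H : ℝ := (X' : ℝ) / 2 with hH
  have hH0 : 0 < H := by linarith
  have hHX : H ≤ X / 4 := by rw [hH]; linarith
  set F : ℝ → ℝ := fun τ => ‖DS (sm k N b) τ‖ ^ 2 with hF
  have hDc := DS_cont hs1
  have hFc : Continuous F := by rw [hF]; fun_prop
  have hF0 : ∀ τ, 0 ≤ F τ := fun τ => by rw [hF]; positivity
  have hPc := DP_cont J p
  have hNe1 : 1 ≤ (N : ℝ) ^ e := by linarith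
  have hpt : ∀ τ : ℝ, ‖∑ n ∈ Icc N (2 * N), b n * g n * pw τ n‖ ^ 2 ≤
      2 * (6 * V1 * ((N : ℝ) ^ k)⁻¹ * (72 * (N : ℝ) ^ e)) ^ 2 * (4 * c0) *
        (∫ v in (-H)..H, (1 + |v|) ^ (-(1 + e)) * F (τ + v)) +
      2 * (V1 * (6 * (a1 * ((72 * c0 + 3) * C3)))) ^ 2 := by
    intro τ
    have h1 := pointwise e e he (by linarith) he N X' hN1n hX'low (sm k N b) gg ha0 hs1 τ
    have e1 : ∑ n ∈ Icc N (2 * N), sm k N b n * gg n * pw τ n =
        ∑ n ∈ Icc N (2 * N), b n * g n * pw τ n := by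
      apply sum_congr rfl
      intro n hn
      have h1 : 0 < sf k N n := sf_pos k (le_trans hN1n (mem_Icc.1 hn).1)
      have h2 : ((sf k N n : ℝ) : ℂ) * (((sf k N n)⁻¹ : ℝ) : ℂ) = 1 := by
        rw [← Complex.ofReal_mul, mul_inv_cancel₀ h1.ne', Complex.ofReal_one]
      rw [hgg]
      unfold sm gi
      linear_combination (b n * g n * pw τ n) * h2
    rw [e1] at h1
    set I := ∫ v in (-H)..H, (1 + |v|) ^ (-(1 + e)) * ‖DS (sm k N b) (τ + v)‖ with hI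
    have hI0 : 0 ≤ I := by
      apply intervalIntegral.integral_nonneg (by linarith)
      intro v _
      positivity
    have h2 : vr N gg * (72 * (N : ℝ) ^ e) * I ≤ 6 * V1 * ((N : ℝ) ^ k)⁻¹ * (72 * (N : ℝ) ^ e) * I := by
      gcongr
    have h3 : vr N gg * A1 * ((72 * (N : ℝ) ^ e * c0 + 3) * ER) ≤
        V1 * (6 * (a1 * ((72 * c0 + 3) * C3))) := by
      have h4 : 72 * (N : ℝ) ^ e * c0 + 3 ≤ (N : ℝ) ^ e * (72 * c0 + 3) := by nlinarith
      have h5 : A1 ≤ a1 * (N : ℝ) ^ (k + 1) := by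
        refine hs2.trans (le_of_eq ?_)
        rw [ha1]; ring
      have h6 : (N : ℝ) ^ e ≤ N := by
        calc (N : ℝ) ^ e ≤ (N : ℝ) ^ (1 : ℝ) := Real.rpow_le_rpow_of_exponent_le hN1 (by linarith)
          _ = N := Real.rpow_one _
      have h7 : (N : ℝ) * N * ER ≤ C3 := by
        refine le_trans ?_ (hexp N hN1n)
        apply mul_le_mul_of_nonneg_right _ hER0.le
        have : 1 ≤ (N : ℝ) ^ 2 := one_le_pow₀ hN1
        nlinarith
      calc vr N gg * A1 * ((72 * (N : ℝ) ^ e * c0 + 3) * ER)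
          ≤ (6 * V1 * ((N : ℝ) ^ k)⁻¹) * (a1 * (N : ℝ) ^ (k + 1)) * (((N : ℝ) * (72 * c0 + 3)) * ER) := by
            have h8 : 72 * (N : ℝ) ^ e * c0 + 3 ≤ (N : ℝ) * (72 * c0 + 3) :=
              h4.trans (mul_le_mul_of_nonneg_right h6 (by positivity))
            gcongr
        _ = V1 * (6 * (a1 * ((72 * c0 + 3) * (N * N * ER)))) := by
            rw [pow_succ]
            field_simp
        _ ≤ V1 * (6 * (a1 * ((72 * c0 + 3) * C3))) := by gcongr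
    have h4 := h1.trans (add_le_add h2 h3)
    have h5 : ∀ x y : ℝ, (x + y) ^ 2 ≤ 2 * x ^ 2 + 2 * y ^ 2 := by
      intro x y
      nlinarith [sq_nonneg (x - y)]
    have h6 := sq_avg e he hH0.le (F := fun v => ‖DS (sm k N b) (τ + v)‖) (by fun_prop)
      (fun x => norm_nonneg _)
    calc ‖∑ n ∈ Icc N (2 * N), b n * g n * pw τ n‖ ^ 2
        ≤ (6 * V1 * ((N : ℝ) ^ k)⁻¹ * (72 * (N : ℝ) ^ e) * I +
          V1 * (6 * (a1 * ((72 * c0 + 3) * C3)))) ^ 2 := pow_le_pow_left₀ (norm_nonneg _) h4 2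
      _ ≤ _ := h5 _ _
      _ = 2 * (6 * V1 * ((N : ℝ) ^ k)⁻¹ * (72 * (N : ℝ) ^ e)) ^ 2 * I ^ 2 +
          2 * (V1 * (6 * (a1 * ((72 * c0 + 3) * C3)))) ^ 2 := by ring
      _ ≤ 2 * (6 * V1 * ((N : ℝ) ^ k)⁻¹ * (72 * (N : ℝ) ^ e)) ^ 2 * (4 * c0 *
          ∫ v in (-H)..H, (1 + |v|) ^ (-(1 + e)) * ‖DS (sm k N b) (τ + v)‖ ^ 2) +
          2 * (V1 * (6 * (a1 * ((72 * c0 + 3) * C3)))) ^ 2 := by
          apply add_le_add_left
          exact mul_le_mul_of_nonneg_left h6 (by positivity)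
      _ = _ := by rw [hF]; ring
  set Sp := ∑ h ∈ J, ‖p h‖ ^ 2 with hSp
  have hSp0 : 0 ≤ Sp := by positivity
  -- the tiny term
  have hJ2 : ∀ h ∈ J, 1 ≤ h ∧ (h : ℝ) ≤ κ * X := by
    intro h hh
    refine ⟨(hJ h hh).1, ?_⟩
    have h1 := (hJ h hh).2
    have h2 : (0 : ℝ) ≤ h := by positivity
    have h3 : κ * N ≤ κ * X := mul_le_mul_of_nonneg_left hXN (by linarith)
    nlinarith
  have hMV := mv_int J p hκ (by linarith : (1 : ℝ) ≤ X) hJ2
  -- the main term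
  set K : ℝ := C1 * κ ^ 2 * (N : ℝ) ^ (2 * k) * (N : ℝ) ^ (10 * e) * (4 * X * N * Sp) with hK
  have hshift : ∀ v ∈ Set.Icc (-H) H,
      ∫ τ in ((X : ℝ) / 2)..(5 * (X : ℝ) / 2), F (τ + v) * ‖DP J p τ‖ ^ 2 ≤ K := by
    intro v hv
    set pv : ℕ → ℂ := fun h => p h * pw (-v) h with hpv
    have hSpv : ∑ h ∈ J, ‖pv h‖ ^ 2 = Sp := by
      apply sum_congr rfl
      intro h _
      rw [hpv]
      simp only
      rw [norm_mul, pw_norm, mul_one]
    have e1 : ∫ τ in ((X : ℝ) / 2)..(5 * (X : ℝ) / 2), F (τ + v) * ‖DP J p τ‖ ^ 2 =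
        ∫ σ in ((X : ℝ) / 2 + v)..(5 * (X : ℝ) / 2 + v), F σ * ‖DP J pv σ‖ ^ 2 := by
      have h1 := intervalIntegral.integral_comp_add_right
        (fun σ : ℝ => F σ * ‖DP J p (σ - v)‖ ^ 2) v (a := (X : ℝ) / 2) (b := 5 * (X : ℝ) / 2)
      simp only [add_sub_cancel_right] at h1
      rw [h1]
      congr 1
      funext σ
      rw [DP_shift]
    have hGc : Continuous fun σ => F σ * ‖DP J pv σ‖ ^ 2 := by
      have := DP_cont J pv
      fun_prop
    have hG0 : ∀ σ, 0 ≤ F σ * ‖DP J pv σ‖ ^ 2 := fun σ => mul_nonneg (hF0 σ) (by positivity)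
    rw [e1]
    have h2 : ∫ σ in ((X : ℝ) / 2 + v)..(5 * (X : ℝ) / 2 + v), F σ * ‖DP J pv σ‖ ^ 2 ≤
        ∫ σ in ((X : ℝ) / 4)..(3 * (X : ℝ)), F σ * ‖DP J pv σ‖ ^ 2 := by
      apply intervalIntegral.integral_mono_interval (by linarith [hv.1]) (by linarith)
        (by linarith [hv.2])
      · exact Filter.Eventually.of_forall hG0
      · exact hGc.intervalIntegrable _ _
    refine h2.trans ?_
    set Bf : ℕ → ℝ := fun Y => C1 * κ ^ 2 * (N : ℝ) ^ (2 * k) * (N : ℝ) ^ (10 * e) * (Y * N * Sp) with hBf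
    have h3 := cover3 hX'2 hX'3 (by omega : 4 ≤ X) hGc hG0 Bf (by
      intro Y hY
      have hYlow : (N : ℝ) ^ (1 + 2 * e) ≤ Y := by
        have h4 : (N : ℝ) ^ (1 + 2 * e) ≤ X' :=
          (Real.rpow_le_rpow_of_exponent_le hN1 (by linarith)).trans hX'low
        rcases hY with h | h | h
        · rw [h]; exact h4
        · rw [h]; linarith
        · rw [h]; push_cast; linarith
      have hYup : Y ≤ N ^ 2 := by
        rcases hY with h | h | h <;> omega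
      have h4 := hS N Y m hNN1 hYlow hYup hm hmN b hbm hb1 J pv hκ hκN hJ
      rw [hSpv] at h4
      exact h4)
    refine h3.trans ?_
    rw [hBf, hK]
    simp only
    push_cast
    have h5 : 0 ≤ C1 * κ ^ 2 * (N : ℝ) ^ (2 * k) * (N : ℝ) ^ (10 * e) * (N * Sp) := by positivity
    calc C1 * κ ^ 2 * (N : ℝ) ^ (2 * k) * (N : ℝ) ^ (10 * e) * (X' * N * Sp) +
        C1 * κ ^ 2 * (N : ℝ) ^ (2 * k) * (N : ℝ) ^ (10 * e) * (X * N * Sp) +
        C1 * κ ^ 2 * (N : ℝ) ^ (2 * k) * (N : ℝ) ^ (10 * e) * (2 * X * N * Sp)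
        = (X' + X + 2 * X) * (C1 * κ ^ 2 * (N : ℝ) ^ (2 * k) * (N : ℝ) ^ (10 * e) * (N * Sp)) := by ring
      _ ≤ (4 * X) * (C1 * κ ^ 2 * (N : ℝ) ^ (2 * k) * (N : ℝ) ^ (10 * e) * (N * Sp)) := by
          apply mul_le_mul_of_nonneg_right _ h5
          linarith
      _ = _ := by ring
  have hfub := fub_step he hH0.le (by linarith : (X : ℝ) / 2 ≤ 5 * X / 2) hFc
    (G := fun τ => ‖DP J p τ‖ ^ 2) (by fun_prop) hF0 (fun x => by positivity) hshift
  set α : ℝ := 2 * (6 * V1 * ((N : ℝ) ^ k)⁻¹ * (72 * (N : ℝ) ^ e)) ^ 2 * (4 * c0) with hα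
  have hα0 : 0 ≤ α := by positivity
  set β : ℝ := 2 * (V1 * (6 * (a1 * ((72 * c0 + 3) * C3)))) ^ 2 with hβ
  have hβ0 : 0 ≤ β := by positivity
  have hIc : Continuous fun τ : ℝ => ∫ v in (-H)..H, (1 + |v|) ^ (-(1 + e)) * F (τ + v) := by
    apply intervalIntegral.continuous_parametric_intervalIntegral_of_continuous'
    unfold Function.uncurry
    apply Continuous.mul _ (by fun_prop)
    apply Continuous.rpow_const (by fun_prop)
    intro v; left; positivity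
  have hSc : Continuous fun τ : ℝ => ∑ n ∈ Icc N (2 * N), b n * g n * pw τ n := by
    apply continuous_finsetSum
    intro n _
    have := pw_cont n
    fun_prop
  have hint : ∫ τ in ((X : ℝ) / 2)..(5 * (X : ℝ) / 2),
      ‖∑ n ∈ Icc N (2 * N), b n * g n * pw τ n‖ ^ 2 * ‖DP J p τ‖ ^ 2 ≤
      ∫ τ in ((X : ℝ) / 2)..(5 * (X : ℝ) / 2),
        (α * ((∫ v in (-H)..H, (1 + |v|) ^ (-(1 + e)) * F (τ + v)) * ‖DP J p τ‖ ^ 2) +
          β * ‖DP J p τ‖ ^ 2) := by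
    apply intervalIntegral.integral_mono_on (by linarith)
    · apply Continuous.intervalIntegrable; fun_prop
    · apply Continuous.intervalIntegrable; fun_prop
    · intro τ _
      calc ‖∑ n ∈ Icc N (2 * N), b n * g n * pw τ n‖ ^ 2 * ‖DP J p τ‖ ^ 2
          ≤ (α * (∫ v in (-H)..H, (1 + |v|) ^ (-(1 + e)) * F (τ + v)) + β) * ‖DP J p τ‖ ^ 2 :=
            mul_le_mul_of_nonneg_right (hpt τ) (by positivity)
        _ = _ := by ring
  refine hint.trans ?_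
  rw [intervalIntegral.integral_add (by apply Continuous.intervalIntegrable; fun_prop)
    (by apply Continuous.intervalIntegrable; fun_prop), intervalIntegral.integral_const_mul,
    intervalIntegral.integral_const_mul]
  have hp12 : (N : ℝ) ^ (12 * e) = (N : ℝ) ^ (10 * e) * ((N : ℝ) ^ e) ^ 2 := by
    rw [← Real.rpow_natCast ((N : ℝ) ^ e), ← Real.rpow_mul hN0.le, ← Real.rpow_add hN0]
    congr 1
    push_cast
    ring
  have hN12 : 1 ≤ (N : ℝ) ^ (12 * e) := Real.one_le_rpow hN1 (by positivity)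
  have hmain : α * (c0 * K) = A * (κ ^ 2 * V1 ^ 2 * (N : ℝ) ^ (12 * e) * (X * N * Sp)) := by
    rw [hα, hA, hK, hp12]
    have e3 : ((N : ℝ) ^ k)⁻¹ ^ 2 * (N : ℝ) ^ (2 * k) = 1 := by
      rw [inv_pow, ← pow_mul, mul_comm k 2]
      exact inv_mul_cancel₀ (by positivity)
    linear_combination (2 * (6 * V1 * (72 * (N : ℝ) ^ e)) ^ 2 * (4 * c0) * (c0 * (C1 * κ ^ 2 * (N : ℝ) ^ (10 * e) * (4 * X * N * Sp)))) * e3
  have htiny : β * (200 * C4 * κ ^ 2 * X * Sp) ≤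
      B * (κ ^ 2 * V1 ^ 2 * (N : ℝ) ^ (12 * e) * (X * N * Sp)) := by
    have h1 : β * (200 * C4 * κ ^ 2 * X * Sp) = B * (κ ^ 2 * V1 ^ 2 * (X * Sp)) := by
      rw [hβ, hB]; ring
    rw [h1]
    apply mul_le_mul_of_nonneg_left _ hB0
    have h2 : 1 ≤ (N : ℝ) ^ (12 * e) * N := one_le_mul_of_one_le_of_one_le hN12 hN1
    have h3 : 0 ≤ κ ^ 2 * V1 ^ 2 * (X * Sp) := by positivity
    calc κ ^ 2 * V1 ^ 2 * (X * Sp) = κ ^ 2 * V1 ^ 2 * (X * Sp) * 1 := (mul_one _).symm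
      _ ≤ κ ^ 2 * V1 ^ 2 * (X * Sp) * ((N : ℝ) ^ (12 * e) * N) := mul_le_mul_of_nonneg_left h2 h3
      _ = _ := by ring
  have hfin0 : 0 ≤ κ ^ 2 * V1 ^ 2 * (N : ℝ) ^ (12 * e) * (X * N * Sp) := by positivity
  calc α * (∫ τ in ((X : ℝ) / 2)..(5 * (X : ℝ) / 2),
          (∫ v in (-H)..H, (1 + |v|) ^ (-(1 + e)) * F (τ + v)) * ‖DP J p τ‖ ^ 2) +
        β * (∫ τ in ((X : ℝ) / 2)..(5 * (X : ℝ) / 2), ‖DP J p τ‖ ^ 2)
      ≤ α * (c0 * K) + β * (200 * C4 * κ ^ 2 * X * Sp) :=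
        add_le_add (mul_le_mul_of_nonneg_left hfub hα0) (mul_le_mul_of_nonneg_left hMV hβ0)
    _ ≤ A * (κ ^ 2 * V1 ^ 2 * (N : ℝ) ^ (12 * e) * (X * N * Sp)) +
        B * (κ ^ 2 * V1 ^ 2 * (N : ℝ) ^ (12 * e) * (X * N * Sp)) := add_le_add hmain.le htiny
    _ ≤ (A + B + 1) * (κ ^ 2 * V1 ^ 2 * (N : ℝ) ^ (12 * e) * (X * N * Sp)) := by linarith
    _ = _ := by ring

end Pool.Agent.KS6_54.ML
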