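import Pool.Agent.KS6_54.ML.Tw5

set_option autoImplicit false

/-!
# Fourth moments over intervals, and long Dirichlet polynomials
-/

open Finset MeasureTheory

namespace Pool.Agent.KS6_54.ML

open Pool.Agent.W200.MR (pw)
open Pool.Agent.TH445.MQ (pw_norm pw_add)

lemma pw_mul (τ : ℝ) {a b : ℕ} (ha : 1 ≤ a) (hb : 1 ≤ b) : pw τ (a * b) = pw τ a * pw τ b := by
  have ha0 : (a : ℝ) ≠ 0 := by exact_mod_cast (by omega : a ≠ 0)
  have hb0 : (b : ℝ) ≠ 0 := by exact_mod_cast (by omega : b ≠ 0)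
  unfold Pool.Agent.W200.MR.pw
  rw [← Complex.exp_add]
  congr 1
  push_cast
  rw [Real.log_mul ha0 hb0]
  push_cast
  ring

/-- **The fourth moment over an interval.** -/
theorem fourth_int (e : ℝ) (he : 0 < e) (he1 : e ≤ 1 / 4) : ∃ C : ℝ, 1 ≤ C ∧ ∃ N₀ : ℕ, 64 ≤ N₀ ∧
    ∀ N X m : ℕ, N₀ ≤ N → (N : ℝ) ^ (1 + 4 * e) ≤ X → 2 * X ≤ N ^ 2 → 1 ≤ m →
      m ≤ N → ∀ b : ℕ → ℂ, (∀ n, b (n + m) = b n) → (∀ n, ‖b n‖ ≤ 1) →
      ∀ g : ℕ → ℂ, (∀ n ∈ Icc N (2 * N), ‖g n‖ ≤ 1) →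
      ∫ τ in ((X : ℝ) / 2)..(5 * (X : ℝ) / 2), ‖∑ n ∈ Icc N (2 * N), b n * g n * pw τ n‖ ^ 4 ≤
        C * (2 + tv N g) ^ 4 * (N : ℝ) ^ (17 * e) *
          (X * (N : ℝ) ^ 2 + (m : ℝ) ^ 2 * (X : ℝ) ^ 2) := by
  obtain ⟨C1, hC1, N₁, hN₁64, hB⟩ := per_block e he he1
  set N₂ : ℕ := ⌈(4 : ℝ) ^ (1 / e)⌉₊ with hN₂
  refine ⟨12 * C1, by linarith, max N₁ N₂, hN₁64.trans (le_max_left _ _), ?_⟩
  intro N X m hN hX hX2 hm hmN b hbm hb1 g hg
  have hNN1 : N₁ ≤ N := (le_max_left _ _).trans hN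
  have hNN2 : N₂ ≤ N := (le_max_right _ _).trans hN
  have hN64 : 64 ≤ N := hN₁64.trans hNN1
  have hN1n : 1 ≤ N := by omega
  have hN1 : (1 : ℝ) ≤ N := by exact_mod_cast hN1n
  have hN0 : (0 : ℝ) < N := by linarith
  have hNe : 4 ≤ (N : ℝ) ^ e := by
    have h1 : (4 : ℝ) ^ (1 / e) ≤ N := (Nat.le_ceil _).trans (by exact_mod_cast hNN2)
    calc (4 : ℝ) = ((4 : ℝ) ^ (1 / e)) ^ e := by
          rw [← Real.rpow_mul (by norm_num), one_div_mul_cancel he.ne', Real.rpow_one]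
      _ ≤ (N : ℝ) ^ e := Real.rpow_le_rpow (by positivity) h1 he.le
  have hXN : (N : ℝ) ≤ X := by
    refine le_trans ?_ hX
    calc (N : ℝ) = (N : ℝ) ^ (1 : ℝ) := (Real.rpow_one _).symm
      _ ≤ _ := Real.rpow_le_rpow_of_exponent_le hN1 (by linarith)
  have hNX : N ≤ X := by exact_mod_cast hXN
  have hX0 : (0 : ℝ) < X := by linarith
  set Y : ℕ := X / 2 with hY
  have hY2 : 2 * Y ≤ X := by omega
  have hY3 : X ≤ 2 * Y + 1 := by omega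
  have hYr : (X : ℝ) ≤ 2 * Y + 1 := by exact_mod_cast hY3
  have hYr2 : 2 * (Y : ℝ) ≤ X := by exact_mod_cast hY2
  have hX64 : (64 : ℝ) ≤ X := by exact_mod_cast hN64.trans hNX
  have hY4 : (X : ℝ) / 4 ≤ Y := by linarith
  have hYlow : (N : ℝ) ^ (1 + 3 * e) ≤ Y := by
    refine le_trans ?_ hY4
    rw [le_div_iff₀ (by norm_num)]
    refine le_trans ?_ hX
    have e1 : (N : ℝ) ^ (1 + 4 * e) = (N : ℝ) ^ (1 + 3 * e) * (N : ℝ) ^ e := by
      rw [← Real.rpow_add hN0]; congr 1; ring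
    rw [e1]
    exact mul_le_mul_of_nonneg_left hNe (by positivity)
  set F : ℝ → ℝ := fun τ => ‖∑ n ∈ Icc N (2 * N), b n * g n * pw τ n‖ ^ 4 with hF
  have hSc : Continuous fun τ : ℝ => ∑ n ∈ Icc N (2 * N), b n * g n * pw τ n := by
    apply continuous_finsetSum
    intro n _
    have := pw_cont n
    fun_prop
  have hFc : Continuous F := by rw [hF]; fun_prop
  have hF0 : ∀ τ, 0 ≤ F τ := fun τ => by rw [hF]; positivity
  set R : ℝ := C1 * (2 + tv N g) ^ 4 * (N : ℝ) ^ (17 * e) with hR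
  have hV0 := tv_nonneg N g
  have hR0 : 0 ≤ R := by rw [hR]; positivity
  -- one dyadic block, shifted
  have hblock : ∀ u ∈ Set.Icc (0 : ℝ) 1, ∀ Z : ℕ, Y ≤ Z → Z ≤ 2 * X →
      ∑ t ∈ Icc Z (2 * Z), F ((t : ℝ) + u) ≤ R * (Z * (N : ℝ) ^ 2 + (m : ℝ) ^ 2 * (Z : ℝ) ^ 2) := by
    intro u hu Z hZ hZ2
    set g' : ℕ → ℂ := fun n => g n * pw u n with hg'
    have hpw1 : ∀ n ∈ Icc N (2 * N), ‖pw u n‖ ≤ 1 := fun n _ => (pw_norm _ _).le
    have hg'1 : ∀ n ∈ Icc N (2 * N), ‖g' n‖ ≤ 1 := by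
      intro n hn
      rw [hg']
      simp only [norm_mul]
      rw [pw_norm, mul_one]
      exact hg n hn
    have htv : tv N g' ≤ tv N g + 1 := by
      refine (tv_mul N g (pw u) hg hpw1).trans ?_
      have := tv_pw N hN1n hu.1 hu.2
      unfold tv
      linarith
    have htv0 := tv_nonneg N g'
    have hlow : (N : ℝ) ^ (1 + 3 * e) ≤ Z := hYlow.trans (by exact_mod_cast hZ)
    have h1 := hB N Z m hNN1 hlow (hZ2.trans hX2) hm hmN b hbm hb1 g' hg'1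
    have e1 : ∀ t : ℕ, F ((t : ℝ) + u) = ‖∑ n ∈ Icc N (2 * N), b n * g' n * pw (t : ℝ) n‖ ^ 4 := by
      intro t
      rw [hF]
      simp only
      congr 2
      apply sum_congr rfl
      intro n _
      rw [pw_add, hg']
      ring
    simp_rw [e1]
    refine h1.trans ?_
    rw [hR]
    have h5 : 1 + tv N g' ≤ 2 + tv N g := by linarith
    gcongr
  -- all the integers
  have hall : ∀ u ∈ Set.Icc (0 : ℝ) 1, ∑ t ∈ Ico Y (8 * Y), F ((t : ℝ) + u) ≤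
      12 * R * (X * (N : ℝ) ^ 2 + (m : ℝ) ^ 2 * (X : ℝ) ^ 2) := by
    intro u hu
    have h1 := hblock u hu Y le_rfl (by omega)
    have h2 := hblock u hu (2 * Y) (by omega) (by omega)
    have h3 := hblock u hu (4 * Y) (by omega) (by omega)
    have hsub : Ico Y (8 * Y) ⊆ Icc Y (2 * Y) ∪ (Icc (2 * Y) (2 * (2 * Y)) ∪ Icc (4 * Y) (2 * (4 * Y))) := by
      intro t ht
      rw [mem_union, mem_union, mem_Icc, mem_Icc, mem_Icc]
      rw [mem_Ico] at ht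
      omega
    have hu2 : ∀ s t : Finset ℕ, ∑ x ∈ s ∪ t, F ((x : ℝ) + u) ≤
        ∑ x ∈ s, F ((x : ℝ) + u) + ∑ x ∈ t, F ((x : ℝ) + u) := by
      intro s t
      have h4 := sum_union_inter (s₁ := s) (s₂ := t) (f := fun x : ℕ => F ((x : ℝ) + u))
      have h5 : 0 ≤ ∑ x ∈ s ∩ t, F ((x : ℝ) + u) := sum_nonneg fun x _ => hF0 _
      linarith
    have h4 : ∑ t ∈ Ico Y (8 * Y), F ((t : ℝ) + u) ≤
        R * (Y * (N : ℝ) ^ 2 + (m : ℝ) ^ 2 * (Y : ℝ) ^ 2) +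
        (R * ((2 * Y : ℕ) * (N : ℝ) ^ 2 + (m : ℝ) ^ 2 * ((2 * Y : ℕ) : ℝ) ^ 2) +
        R * ((4 * Y : ℕ) * (N : ℝ) ^ 2 + (m : ℝ) ^ 2 * ((4 * Y : ℕ) : ℝ) ^ 2)) := by
      refine (sum_le_sum_of_subset_of_nonneg hsub fun t _ _ => hF0 _).trans ?_
      refine (hu2 _ _).trans (add_le_add h1 ((hu2 _ _).trans (add_le_add h2 h3)))
    refine h4.trans ?_
    push_cast
    have hYX : (Y : ℝ) ≤ X / 2 := by linarith
    have hY0 : (0 : ℝ) ≤ Y := by positivity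
    have hYsq : (Y : ℝ) ^ 2 ≤ (X : ℝ) ^ 2 / 4 := by nlinarith
    have e5 : R * (Y * (N : ℝ) ^ 2 + (m : ℝ) ^ 2 * (Y : ℝ) ^ 2) +
        (R * (2 * Y * (N : ℝ) ^ 2 + (m : ℝ) ^ 2 * (2 * (Y : ℝ)) ^ 2) +
        R * (4 * Y * (N : ℝ) ^ 2 + (m : ℝ) ^ 2 * (4 * (Y : ℝ)) ^ 2)) =
        R * (7 * (Y * (N : ℝ) ^ 2) + 21 * ((m : ℝ) ^ 2 * (Y : ℝ) ^ 2)) := by ring
    have e6 : 12 * R * (X * (N : ℝ) ^ 2 + (m : ℝ) ^ 2 * (X : ℝ) ^ 2) =
        R * (12 * (X * (N : ℝ) ^ 2 + (m : ℝ) ^ 2 * (X : ℝ) ^ 2)) := by ring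
    rw [e5, e6]
    apply mul_le_mul_of_nonneg_left _ hR0
    have h6 : Y * (N : ℝ) ^ 2 ≤ X / 2 * (N : ℝ) ^ 2 := mul_le_mul_of_nonneg_right hYX (by positivity)
    have h7 : (m : ℝ) ^ 2 * (Y : ℝ) ^ 2 ≤ (m : ℝ) ^ 2 * ((X : ℝ) ^ 2 / 4) :=
      mul_le_mul_of_nonneg_left hYsq (by positivity)
    have h8 : 0 ≤ X * (N : ℝ) ^ 2 := by positivity
    have h9 : 0 ≤ (m : ℝ) ^ 2 * (X : ℝ) ^ 2 := by positivity
    linarith
  -- the integral as the sum of integrals over unit intervals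
  have hbig : ∫ τ in ((X : ℝ) / 2)..(5 * (X : ℝ) / 2), F τ ≤ ∫ τ in (Y : ℝ)..((8 * Y : ℕ) : ℝ), F τ := by
    apply intervalIntegral.integral_mono_interval
    · linarith
    · linarith
    · push_cast; linarith
    · exact Filter.Eventually.of_forall hF0
    · exact hFc.intervalIntegrable _ _
  have hsum := intervalIntegral.sum_integral_adjacent_intervals_Ico (f := F)
    (a := fun t : ℕ => (t : ℝ)) (μ := volume) (m := Y) (n := 8 * Y) (by omega)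
    (fun w _ => hFc.intervalIntegrable _ _)
  refine hbig.trans ?_
  rw [← hsum]
  have e2 : ∀ t : ℕ, ∫ τ in (t : ℝ)..((t + 1 : ℕ) : ℝ), F τ = ∫ u in (0 : ℝ)..1, F ((t : ℝ) + u) := by
    intro t
    have h1 := intervalIntegral.integral_comp_add_left F (t : ℝ) (a := 0) (b := 1)
    rw [h1]
    congr 1
    · simp
    · push_cast; rfl
  simp_rw [e2]
  rw [← intervalIntegral.integral_finsetSum]
  · calc ∫ u in (0 : ℝ)..1, ∑ t ∈ Ico Y (8 * Y), F ((t : ℝ) + u)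
        ≤ ∫ _u in (0 : ℝ)..1, 12 * R * (X * (N : ℝ) ^ 2 + (m : ℝ) ^ 2 * (X : ℝ) ^ 2) := by
          apply intervalIntegral.integral_mono_on zero_le_one
          · apply Continuous.intervalIntegrable
            apply continuous_finsetSum
            intro t _
            fun_prop
          · simp
          · exact hall
      _ = _ := by
          rw [intervalIntegral.integral_const, hR]
          simp only [sub_zero, one_smul]
          ring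
  · intro t _
    apply Continuous.intervalIntegrable
    fun_prop

/-- the coefficients of a product of two Dirichlet polynomials -/
noncomputable def cf (A J : Finset ℕ) (b p : ℕ → ℂ) (n : ℕ) : ℂ :=
  ∑ x ∈ (A ×ˢ J).filter (fun x => x.1 * x.2 = n), b x.1 * p x.2

lemma cf_prod (A J : Finset ℕ) (b p : ℕ → ℂ) (hA : ∀ a ∈ A, 1 ≤ a) (hJ : ∀ h ∈ J, 1 ≤ h) (τ : ℝ) :
    DP ((A ×ˢ J).image fun x => x.1 * x.2) (cf A J b p) τ = DP A b τ * DP J p τ := by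
  classical
  have h1 : DP A b τ * DP J p τ = ∑ x ∈ A ×ˢ J, (b x.1 * p x.2) * pw τ (x.1 * x.2) := by
    unfold DP
    rw [sum_mul_sum, sum_product]
    apply sum_congr rfl
    intro a ha
    apply sum_congr rfl
    intro h hh
    rw [pw_mul τ (hA a ha) (hJ h hh)]
    ring
  rw [h1]
  unfold DP
  rw [← sum_fiberwise_of_maps_to (t := (A ×ˢ J).image fun x => x.1 * x.2)
    (g := fun x : ℕ × ℕ => x.1 * x.2) (fun x hx => mem_image_of_mem _ hx)]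
  apply sum_congr rfl
  intro n _
  unfold cf
  rw [sum_mul]
  apply sum_congr rfl
  intro x hx
  rw [(mem_filter.1 hx).2]

lemma cf_sq (A J : Finset ℕ) (b p : ℕ → ℂ) (hA : ∀ a ∈ A, 1 ≤ a) (hJ : ∀ h ∈ J, 1 ≤ h)
    (hb : ∀ a ∈ A, ‖b a‖ ≤ 1) (D : ℝ)
    (hD : ∀ a ∈ A, ∀ h ∈ J, (((a * h).divisors.card : ℕ) : ℝ) ≤ D) :
    ∑ n ∈ (A ×ˢ J).image (fun x => x.1 * x.2), ‖cf A J b p n‖ ^ 2 ≤ D * A.card * ∑ h ∈ J, ‖p h‖ ^ 2 := by
  classical
  have h1 : ∀ n ∈ (A ×ˢ J).image (fun x => x.1 * x.2), ‖cf A J b p n‖ ^ 2 ≤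
      D * ∑ x ∈ (A ×ˢ J).filter (fun x => x.1 * x.2 = n), ‖p x.2‖ ^ 2 := by
    intro n hn
    obtain ⟨y, hy, hyn⟩ := mem_image.1 hn
    have hy' := mem_product.1 hy
    set S := (A ×ˢ J).filter (fun x => x.1 * x.2 = n) with hS
    have hcard : (S.card : ℝ) ≤ D := by
      have h2 : S.card ≤ n.divisors.card := by
        apply card_le_card_of_injOn (fun x => x.1)
        · intro x hx
          rw [mem_coe, hS, mem_filter, mem_product] at hx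
          rw [mem_coe, Nat.mem_divisors]
          have := hA _ hx.1.1
          have := hJ _ hx.1.2
          refine ⟨⟨x.2, hx.2.symm⟩, ?_⟩
          rw [← hx.2]
          positivity
        · intro x hx y hy hxy
          rw [mem_coe, hS, mem_filter, mem_product] at hx hy
          simp only at hxy
          have h3 : x.1 * x.2 = x.1 * y.2 := by rw [hx.2, hxy, hy.2]
          have h4 : 0 < x.1 := hA _ hx.1.1
          exact Prod.ext hxy (Nat.eq_of_mul_eq_mul_left h4 h3)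
      have h3 := hD y.1 hy'.1 y.2 hy'.2
      rw [hyn] at h3
      exact (by exact_mod_cast h2 : (S.card : ℝ) ≤ n.divisors.card).trans h3
    have h2 : ‖cf A J b p n‖ ≤ ∑ x ∈ S, ‖p x.2‖ := by
      unfold cf
      refine (norm_sum_le _ _).trans (sum_le_sum ?_)
      intro x hx
      rw [mem_filter, mem_product] at hx
      rw [norm_mul]
      exact mul_le_of_le_one_left (norm_nonneg _) (hb _ hx.1.1)
    calc ‖cf A J b p n‖ ^ 2 ≤ (∑ x ∈ S, ‖p x.2‖) ^ 2 := pow_le_pow_left₀ (norm_nonneg _) h2 2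
      _ ≤ S.card * ∑ x ∈ S, ‖p x.2‖ ^ 2 := sq_sum_le_card_mul_sum_sq
      _ ≤ D * ∑ x ∈ S, ‖p x.2‖ ^ 2 := by gcongr
  calc ∑ n ∈ (A ×ˢ J).image (fun x => x.1 * x.2), ‖cf A J b p n‖ ^ 2
      ≤ ∑ n ∈ (A ×ˢ J).image (fun x => x.1 * x.2),
        D * ∑ x ∈ (A ×ˢ J).filter (fun x => x.1 * x.2 = n), ‖p x.2‖ ^ 2 := sum_le_sum h1
    _ = D * ∑ x ∈ A ×ˢ J, ‖p x.2‖ ^ 2 := by
        rw [← mul_sum, sum_fiberwise_of_maps_to (fun x hx => mem_image_of_mem _ hx)]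
    _ = _ := by
        rw [sum_product]
        simp only [sum_const, nsmul_eq_mul]
        ring

/-- **The mean value theorem for a product.** -/
theorem long_tw (A J : Finset ℕ) (b p : ℕ → ℂ) {κ X D : ℝ} (hκ : 1 ≤ κ) (hX : 1 ≤ X)
    (hA : ∀ a ∈ A, 1 ≤ a) (hb : ∀ a ∈ A, ‖b a‖ ≤ 1)
    (hJ : ∀ h ∈ J, 1 ≤ h) (hAJ : ∀ a ∈ A, ∀ h ∈ J, (a : ℝ) * h ≤ κ * X)
    (hD : ∀ a ∈ A, ∀ h ∈ J, (((a * h).divisors.card : ℕ) : ℝ) ≤ D) :
    ∫ τ in (X / 2)..(5 * X / 2), ‖DP A b τ‖ ^ 2 * ‖DP J p τ‖ ^ 2 ≤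
      200 * C4 * κ ^ 2 * X * (D * A.card * ∑ h ∈ J, ‖p h‖ ^ 2) := by
  classical
  have h1 := mv_int ((A ×ˢ J).image fun x => x.1 * x.2) (cf A J b p) hκ hX (by
    intro n hn
    obtain ⟨y, hy, hyn⟩ := mem_image.1 hn
    have hy' := mem_product.1 hy
    have h2 := hA _ hy'.1
    have h3 := hJ _ hy'.2
    rw [← hyn]
    refine ⟨Nat.one_le_iff_ne_zero.2 (by positivity), ?_⟩
    push_cast
    exact hAJ _ hy'.1 _ hy'.2)
  have e1 : ∀ τ : ℝ, ‖DP A b τ‖ ^ 2 * ‖DP J p τ‖ ^ 2 =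
      ‖DP ((A ×ˢ J).image fun x => x.1 * x.2) (cf A J b p) τ‖ ^ 2 := by
    intro τ
    rw [cf_prod A J b p hA hJ, norm_mul, mul_pow]
  simp_rw [e1]
  refine h1.trans ?_
  have h2 := cf_sq A J b p hA hJ hb D hD
  have := C4_nonneg
  have hX0 : 0 ≤ X := by linarith
  gcongr

end Pool.Agent.KS6_54.ML
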