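import Pool.Agent.KS6_54.ML.Tw6

set_option autoImplicit false

/-!
# Powers of the short factor, and the two moments of a product
-/

open Finset MeasureTheory

namespace Pool.Agent.KS6_54.ML

open Pool.Agent.W200.MR (pw)
open Pool.Agent.TH445.MQ (pw_norm pw_add)

/-- the powers of a Dirichlet polynomial -/
lemma DP_pow (A : Finset ℕ) (c : ℕ → ℂ) (U : ℕ) (hA : ∀ a ∈ A, 1 ≤ a ∧ a ≤ U)
    (hc : ∀ a ∈ A, ‖c a‖ ≤ 1) (k : ℕ) (D : ℝ) (hD1 : 1 ≤ D)
    (hD : ∀ n : ℕ, 1 ≤ n → n ≤ U ^ k → (n.divisors.card : ℝ) ≤ D) :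
    ∃ (J : Finset ℕ) (p : ℕ → ℂ), (∀ h ∈ J, 1 ≤ h ∧ h ≤ U ^ k) ∧
      (∀ τ, DP J p τ = DP A c τ ^ k) ∧ ∑ h ∈ J, ‖p h‖ ^ 2 ≤ D ^ k * (A.card : ℝ) ^ k := by
  classical
  induction k with
  | zero =>
    refine ⟨{1}, fun _ => 1, ?_, ?_, ?_⟩
    · intro h hh
      rw [mem_singleton] at hh
      simp [hh]
    · intro τ
      unfold DP
      rw [sum_singleton]
      unfold Pool.Agent.W200.MR.pw
      simp
    · simp
  | succ k ih =>
    rcases Nat.eq_zero_or_pos U with hU | hU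
    · have hAe : A = ∅ := by
        apply eq_empty_of_forall_notMem
        intro a ha
        have := hA a ha
        omega
      refine ⟨∅, fun _ => 0, by simp, ?_, ?_⟩
      · intro τ
        unfold DP
        rw [hAe]
        simp
      · rw [sum_empty]
        positivity
    obtain ⟨J, p, h1, h2, h3⟩ := ih (fun n hn hn2 => hD n hn (hn2.trans (by
      rw [pow_succ]
      exact Nat.le_mul_of_pos_right _ hU)))
    refine ⟨(A ×ˢ J).image fun x => x.1 * x.2, cf A J c p, ?_, ?_, ?_⟩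
    · intro n hn
      obtain ⟨y, hy, hyn⟩ := mem_image.1 hn
      have hy' := mem_product.1 hy
      have h4 := hA _ hy'.1
      have h5 := h1 _ hy'.2
      rw [← hyn]
      refine ⟨Nat.one_le_iff_ne_zero.2 (Nat.mul_ne_zero (by omega) (by omega)), ?_⟩
      rw [pow_succ, mul_comm]
      exact Nat.mul_le_mul h5.2 h4.2
    · intro τ
      rw [cf_prod A J c p (fun a ha => (hA a ha).1) (fun h hh => (h1 h hh).1), h2, pow_succ,
        mul_comm]
    · have h4 := cf_sq A J c p (fun a ha => (hA a ha).1) (fun h hh => (h1 h hh).1) hc D (by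
        intro a ha h hh
        apply hD
        · have := (hA a ha).1
          have := (h1 h hh).1
          exact Nat.one_le_iff_ne_zero.2 (Nat.mul_ne_zero (by omega) (by omega))
        · rw [pow_succ, mul_comm]
          exact Nat.mul_le_mul (h1 h hh).2 (hA a ha).2)
      calc _ ≤ D * A.card * ∑ h ∈ J, ‖p h‖ ^ 2 := h4
        _ ≤ D * A.card * (D ^ k * (A.card : ℝ) ^ k) := by gcongr
        _ = _ := by ring

/-- **The two moments.** -/
theorem two_moments (k : ℕ) (e : ℝ) (he : 0 < e) (he1 : e ≤ 1 / 4) :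
    ∃ C : ℝ, 1 ≤ C ∧ ∃ N₀ : ℕ, 64 ≤ N₀ ∧ ∀ (M X m : ℕ) (D : ℝ), N₀ ≤ M → (M : ℝ) ^ (1 + 4 * e) ≤ X →
      1 ≤ m → m ≤ M → (m : ℝ) ^ 2 * X ≤ 16 * (M : ℝ) ^ 2 → 1 ≤ D →
      ∀ b : ℕ → ℂ, (∀ n, b (n + m) = b n) → (∀ n, ‖b n‖ ≤ 1) →
      ∀ g : ℕ → ℂ, (∀ n ∈ Icc M (2 * M), ‖g n‖ ≤ 1) → tv M g ≤ 1 →
      (∀ n : ℕ, 1 ≤ n → (n : ℝ) ≤ 2 ^ (k + 3) * (M : ℝ) ^ 2 → (n.divisors.card : ℝ) ≤ D) →
      (∀ (J : Finset ℕ) (p : ℕ → ℂ), (∀ h ∈ J, 1 ≤ h ∧ (m : ℝ) * h ≤ 2 ^ (k + 2) * M) →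
        ∫ τ in ((X : ℝ) / 2)..(5 * (X : ℝ) / 2),
          ‖∑ n ∈ Icc M (2 * M), b n * g n * pw τ n‖ ^ 2 * ‖DP J p τ‖ ^ 2 ≤
        C * D * (M : ℝ) ^ (17 * e) * (X * M * ∑ h ∈ J, ‖p h‖ ^ 2)) ∧
      ∫ τ in ((X : ℝ) / 2)..(5 * (X : ℝ) / 2), ‖∑ n ∈ Icc M (2 * M), b n * g n * pw τ n‖ ^ 4 ≤
        C * D * (M : ℝ) ^ (17 * e) * (X * (M : ℝ) ^ 2) := by
  obtain ⟨C1, hC1, N₁, hN₁64, hS⟩ := sharp_tw e he he1
  obtain ⟨C2, hC2, N₂, hN₂64, hF⟩ := fourth_int e he he1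
  have hC4 := C4_nonneg
  set κ : ℝ := 2 ^ (k + 2) with hκ
  have hκ1 : 1 ≤ κ := one_le_pow₀ (by norm_num)
  set κ' : ℝ := 2 ^ (k + 4) with hκ'
  have hκ'1 : 1 ≤ κ' := one_le_pow₀ (by norm_num)
  set B1 : ℝ := C1 * κ ^ 2 * 4 with hB1
  set B2 : ℝ := 200 * C4 * κ' ^ 2 * 2 with hB2
  set B3 : ℝ := C2 * 81 * 17 with hB3
  set B4 : ℝ := 200 * C4 * 8 ^ 2 * 4 with hB4
  have hB10 : 0 ≤ B1 := by positivity
  have hB20 : 0 ≤ B2 := by positivity
  have hB30 : 0 ≤ B3 := by positivity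
  have hB40 : 0 ≤ B4 := by positivity
  refine ⟨B1 + B2 + B3 + B4 + 1, by linarith, max (max N₁ N₂) (2 ^ (k + 2)),
    hN₁64.trans ((le_max_left _ _).trans (le_max_left _ _)), ?_⟩
  intro M X m D hM hX hm hmM hmX hD b hbm hb1 g hg htv hdiv
  have hM1 : N₁ ≤ M := ((le_max_left _ _).trans (le_max_left _ _)).trans hM
  have hM2 : N₂ ≤ M := ((le_max_right _ _).trans (le_max_left _ _)).trans hM
  have hM3 : 2 ^ (k + 2) ≤ M := (le_max_right _ _).trans hM
  have hMn : 1 ≤ M := by omega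
  have hMr : (1 : ℝ) ≤ M := by exact_mod_cast hMn
  have hM0 : (0 : ℝ) < M := by linarith
  have hκM : κ ≤ M := by rw [hκ]; exact_mod_cast hM3
  have hm1 : (1 : ℝ) ≤ m := by exact_mod_cast hm
  have hXM : (M : ℝ) ≤ X := by
    refine le_trans ?_ hX
    calc (M : ℝ) = (M : ℝ) ^ (1 : ℝ) := (Real.rpow_one _).symm
      _ ≤ _ := Real.rpow_le_rpow_of_exponent_le hMr (by linarith)
  have hX1 : (1 : ℝ) ≤ X := hMr.trans hXM
  have hX0 : (0 : ℝ) < X := by linarith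
  have hM17 : 1 ≤ (M : ℝ) ^ (17 * e) := Real.one_le_rpow hMr (by positivity)
  have hM12 : (M : ℝ) ^ (12 * e) ≤ (M : ℝ) ^ (17 * e) :=
    Real.rpow_le_rpow_of_exponent_le hMr (by linarith)
  have htv0 := tv_nonneg M g
  have hEP : ∀ τ, ∑ n ∈ Icc M (2 * M), b n * g n * pw τ n =
      DP (Icc M (2 * M)) (fun n => b n * g n) τ := fun τ => rfl
  have hbg : ∀ n ∈ Icc M (2 * M), ‖b n * g n‖ ≤ 1 := by
    intro n hn
    rw [norm_mul]
    exact mul_le_one₀ (hb1 n) (norm_nonneg _) (hg n hn)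
  have hcard : ((Icc M (2 * M)).card : ℝ) ≤ 2 * M := by
    rw [Nat.card_Icc]
    have : 2 * M + 1 - M ≤ 2 * M := by omega
    exact_mod_cast this
  constructor
  · intro J p hJ
    set Sp := ∑ h ∈ J, ‖p h‖ ^ 2 with hSp
    have hSp0 : 0 ≤ Sp := by positivity
    have hR0 : 0 ≤ D * (M : ℝ) ^ (17 * e) * (X * M * Sp) := by positivity
    rcases le_or_gt (2 * X) (M ^ 2) with h | h
    · have h1 := hS M X m hM1 hX h hm hmM b hbm hb1 g hg J p hκ1 hκM hJ
      refine h1.trans ?_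
      have h2 : (1 + tv M g) ^ 2 ≤ 4 := by nlinarith
      calc C1 * κ ^ 2 * (1 + tv M g) ^ 2 * (M : ℝ) ^ (12 * e) * (X * M * Sp)
          ≤ C1 * κ ^ 2 * 4 * (D * (M : ℝ) ^ (17 * e)) * (X * M * Sp) := by
            have h3 : (M : ℝ) ^ (12 * e) ≤ D * (M : ℝ) ^ (17 * e) := by nlinarith
            gcongr
        _ = B1 * (D * (M : ℝ) ^ (17 * e) * (X * M * Sp)) := by rw [hB1]; ring
        _ ≤ (B1 + B2 + B3 + B4 + 1) * (D * (M : ℝ) ^ (17 * e) * (X * M * Sp)) := by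
            apply mul_le_mul_of_nonneg_right _ hR0
            linarith
        _ = _ := by ring
    · have hr : (M : ℝ) ^ 2 ≤ 2 * X := by exact_mod_cast h.le
      simp_rw [hEP]
      have hah : ∀ a ∈ Icc M (2 * M), ∀ h ∈ J, (a : ℝ) * h ≤ 2 ^ (k + 3) * (M : ℝ) ^ 2 := by
        intro a ha h hh
        have h1 : (a : ℝ) ≤ 2 * M := by exact_mod_cast (mem_Icc.1 ha).2
        have h2 : (h : ℝ) ≤ 2 ^ (k + 2) * M := by
          have h3 := (hJ h hh).2
          have h4 : (0 : ℝ) ≤ h := by positivity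
          nlinarith
        calc (a : ℝ) * h ≤ (2 * M) * (2 ^ (k + 2) * M) := mul_le_mul h1 h2 (by positivity) (by positivity)
          _ = _ := by ring
      have h1 := long_tw (Icc M (2 * M)) J (fun n => b n * g n) p (X := X) (D := D) hκ'1 hX1
        (fun a ha => hMn.trans (mem_Icc.1 ha).1) hbg (fun h hh => (hJ h hh).1) (by
          intro a ha h hh
          refine (hah a ha h hh).trans ?_
          calc 2 ^ (k + 3) * (M : ℝ) ^ 2 ≤ 2 ^ (k + 3) * (2 * X) :=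
                mul_le_mul_of_nonneg_left hr (by positivity)
            _ = κ' * X := by rw [hκ']; ring) (by
          intro a ha h hh
          apply hdiv
          · exact Nat.one_le_iff_ne_zero.2 (Nat.mul_ne_zero
              (by have := (mem_Icc.1 ha).1; omega) (by have := (hJ h hh).1; omega))
          · push_cast
            exact hah a ha h hh)
      refine h1.trans ?_
      calc 200 * C4 * κ' ^ 2 * X * (D * ((Icc M (2 * M)).card : ℝ) * Sp)
          ≤ 200 * C4 * κ' ^ 2 * X * (D * (2 * M) * Sp) := by gcongr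
        _ = B2 * (D * 1 * (X * M * Sp)) := by rw [hB2]; ring
        _ ≤ B2 * (D * (M : ℝ) ^ (17 * e) * (X * M * Sp)) := by gcongr
        _ ≤ (B1 + B2 + B3 + B4 + 1) * (D * (M : ℝ) ^ (17 * e) * (X * M * Sp)) := by
            apply mul_le_mul_of_nonneg_right _ hR0
            linarith
        _ = _ := by ring
  · have hR0 : 0 ≤ D * (M : ℝ) ^ (17 * e) * (X * (M : ℝ) ^ 2) := by positivity
    rcases le_or_gt (2 * X) (M ^ 2) with h | h
    · have h1 := hF M X m hM2 hX h hm hmM b hbm hb1 g hg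
      refine h1.trans ?_
      have h2 : (2 + tv M g) ^ 4 ≤ 81 := by
        calc (2 + tv M g) ^ 4 ≤ 3 ^ 4 := pow_le_pow_left₀ (by linarith) (by linarith) 4
          _ = 81 := by norm_num
      have h3 : X * (M : ℝ) ^ 2 + (m : ℝ) ^ 2 * (X : ℝ) ^ 2 ≤ 17 * (X * (M : ℝ) ^ 2) := by
        have : (m : ℝ) ^ 2 * (X : ℝ) ^ 2 = ((m : ℝ) ^ 2 * X) * X := by ring
        rw [this]
        nlinarith
      calc C2 * (2 + tv M g) ^ 4 * (M : ℝ) ^ (17 * e) *
            (X * (M : ℝ) ^ 2 + (m : ℝ) ^ 2 * (X : ℝ) ^ 2)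
          ≤ C2 * 81 * (D * (M : ℝ) ^ (17 * e)) * (17 * (X * (M : ℝ) ^ 2)) := by
            have h4 : (M : ℝ) ^ (17 * e) ≤ D * (M : ℝ) ^ (17 * e) := by nlinarith
            gcongr
        _ = B3 * (D * (M : ℝ) ^ (17 * e) * (X * (M : ℝ) ^ 2)) := by rw [hB3]; ring
        _ ≤ (B1 + B2 + B3 + B4 + 1) * (D * (M : ℝ) ^ (17 * e) * (X * (M : ℝ) ^ 2)) := by
            apply mul_le_mul_of_nonneg_right _ hR0
            linarith
        _ = _ := by ring
    · have hr : (M : ℝ) ^ 2 ≤ 2 * X := by exact_mod_cast h.le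
      have hah : ∀ a ∈ Icc M (2 * M), ∀ h ∈ Icc M (2 * M), (a : ℝ) * h ≤ 4 * (M : ℝ) ^ 2 := by
        intro a ha h hh
        have h1 : (a : ℝ) ≤ 2 * M := by exact_mod_cast (mem_Icc.1 ha).2
        have h2 : (h : ℝ) ≤ 2 * M := by exact_mod_cast (mem_Icc.1 hh).2
        calc (a : ℝ) * h ≤ (2 * M) * (2 * M) := mul_le_mul h1 h2 (by positivity) (by positivity)
          _ = _ := by ring
      have h1 := long_tw (Icc M (2 * M)) (Icc M (2 * M)) (fun n => b n * g n) (fun n => b n * g n)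
        (X := X) (D := D) (κ := 8) (by norm_num) hX1
        (fun a ha => hMn.trans (mem_Icc.1 ha).1) hbg (fun a ha => hMn.trans (mem_Icc.1 ha).1) (by
          intro a ha h hh
          refine (hah a ha h hh).trans ?_
          linarith) (by
          intro a ha h hh
          apply hdiv
          · exact Nat.one_le_iff_ne_zero.2 (Nat.mul_ne_zero
              (by have := (mem_Icc.1 ha).1; omega) (by have := (mem_Icc.1 hh).1; omega))
          · push_cast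
            refine (hah a ha h hh).trans ?_
            apply mul_le_mul_of_nonneg_right _ (by positivity)
            calc (4 : ℝ) ≤ 2 ^ 3 := by norm_num
              _ ≤ 2 ^ (k + 3) := pow_le_pow_right₀ (by norm_num) (by omega))
      have e1 : ∀ τ : ℝ, ‖∑ n ∈ Icc M (2 * M), b n * g n * pw τ n‖ ^ 4 =
          ‖DP (Icc M (2 * M)) (fun n => b n * g n) τ‖ ^ 2 *
          ‖DP (Icc M (2 * M)) (fun n => b n * g n) τ‖ ^ 2 := by
        intro τ
        rw [hEP]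
        ring
      simp_rw [e1]
      refine h1.trans ?_
      have h2 : ∑ h ∈ Icc M (2 * M), ‖b h * g h‖ ^ 2 ≤ 2 * M := by
        calc ∑ h ∈ Icc M (2 * M), ‖b h * g h‖ ^ 2 ≤ ∑ _h ∈ Icc M (2 * M), (1 : ℝ) := by
              apply sum_le_sum
              intro n hn
              exact pow_le_one₀ (norm_nonneg _) (hbg n hn)
          _ = ((Icc M (2 * M)).card : ℝ) := by simp
          _ ≤ 2 * M := hcard
      calc 200 * C4 * 8 ^ 2 * X * (D * ((Icc M (2 * M)).card : ℝ) * ∑ h ∈ Icc M (2 * M), ‖b h * g h‖ ^ 2)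
          ≤ 200 * C4 * 8 ^ 2 * X * (D * (2 * M) * (2 * M)) := by gcongr
        _ = B4 * (D * 1 * (X * (M : ℝ) ^ 2)) := by rw [hB4]; ring
        _ ≤ B4 * (D * (M : ℝ) ^ (17 * e) * (X * (M : ℝ) ^ 2)) := by gcongr
        _ ≤ (B1 + B2 + B3 + B4 + 1) * (D * (M : ℝ) ^ (17 * e) * (X * (M : ℝ) ^ 2)) := by
            apply mul_le_mul_of_nonneg_right _ hR0
            linarith
        _ = _ := by ring

end Pool.Agent.KS6_54.ML
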