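import Pool.Agent.KS6_54.ML.Tw7

set_option autoImplicit false

/-!
# Moments of a product of a short factor and a smooth factor
-/

open Finset MeasureTheory

namespace Pool.Agent.KS6_54.ML

open Pool.Agent.W200.MR (pw)
open Pool.Agent.TH445.MQ (pw_norm pw_add)

/-- the weighted inequality of the means -/
lemma amgm {k : ℕ} (hk : 1 ≤ k) {q : ℝ} (hq : 0 < q) (hq1 : q * (k + 1) ≤ 4 * k) {x y M L : ℝ}
    (hx : 0 ≤ x) (hy : 0 ≤ y) (hM : 0 < M) (hL : 0 < L) :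
    (x * y) ^ q ≤ (M * L) ^ (q / 2) * (q / (2 * k) * (y ^ 2 * (x ^ k) ^ 2 / (M * L ^ k)) +
      q * (k - 1) / (4 * k) * (y ^ 4 / M ^ 2) + (1 - q / (2 * k) - q * (k - 1) / (4 * k))) := by
  have hk1 : (1 : ℝ) ≤ k := by exact_mod_cast hk
  have hk0 : (0 : ℝ) < k := by linarith
  set w1 : ℝ := q / (2 * k) with hw1
  set w2 : ℝ := q * (k - 1) / (4 * k) with hw2
  set w3 : ℝ := 1 - w1 - w2 with hw3
  have h1 : 0 ≤ w1 := by positivity
  have h2 : 0 ≤ w2 := by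
    rw [hw2]
    apply div_nonneg (mul_nonneg hq.le (by linarith)) (by positivity)
  have e12 : w1 + w2 = q * (k + 1) / (4 * k) := by
    rw [hw1, hw2]; field_simp; ring
  have h3 : 0 ≤ w3 := by
    have : w1 + w2 ≤ 1 := by
      rw [e12, div_le_one (by positivity)]
      exact hq1
    rw [hw3]; linarith
  have hRHS : 0 ≤ w1 * (y ^ 2 * (x ^ k) ^ 2 / (M * L ^ k)) + w2 * (y ^ 4 / M ^ 2) + w3 := by
    positivity
  rcases hx.eq_or_lt with hx0 | hx0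
  · rw [← hx0] at hRHS ⊢
    rw [zero_mul, Real.zero_rpow hq.ne']
    exact mul_nonneg (by positivity) hRHS
  rcases hy.eq_or_lt with hy0 | hy0
  · rw [← hy0] at hRHS ⊢
    rw [mul_zero, Real.zero_rpow hq.ne']
    exact mul_nonneg (by positivity) hRHS
  have hmean := Real.geom_mean_le_arith_mean3_weighted h1 h2 h3
    (p₁ := y ^ 2 * (x ^ k) ^ 2 / (M * L ^ k)) (p₂ := y ^ 4 / M ^ 2) (p₃ := 1)
    (by positivity) (by positivity) zero_le_one (by rw [hw3]; ring)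
  rw [mul_one] at hmean
  refine le_trans (le_of_eq ?_) (mul_le_mul_of_nonneg_left hmean (by positivity))
  rw [Real.one_rpow, mul_one]
  obtain ⟨a, rfl⟩ : ∃ a, x = Real.exp a := ⟨Real.log x, (Real.exp_log hx0).symm⟩
  obtain ⟨b, rfl⟩ : ∃ b, y = Real.exp b := ⟨Real.log y, (Real.exp_log hy0).symm⟩
  obtain ⟨μ, rfl⟩ : ∃ μ, M = Real.exp μ := ⟨Real.log M, (Real.exp_log hM).symm⟩
  obtain ⟨l, rfl⟩ : ∃ l, L = Real.exp l := ⟨Real.log L, (Real.exp_log hL).symm⟩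
  have e1 : Real.exp b ^ 2 * (Real.exp a ^ k) ^ 2 / (Real.exp μ * Real.exp l ^ k) =
      Real.exp (2 * b + 2 * (k * a) - μ - k * l) := by
    rw [Real.exp_sub, Real.exp_sub, Real.exp_add, ← Real.exp_nat_mul, ← Real.exp_nat_mul,
      ← Real.exp_nat_mul, ← Real.exp_nat_mul]
    push_cast
    rw [div_div]
  have e2 : Real.exp b ^ 4 / Real.exp μ ^ 2 = Real.exp (4 * b - 2 * μ) := by
    rw [Real.exp_sub, ← Real.exp_nat_mul, ← Real.exp_nat_mul]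
    push_cast
    rfl
  rw [e1, e2, ← Real.exp_add, ← Real.exp_add, ← Real.exp_mul, ← Real.exp_mul, ← Real.exp_mul,
    ← Real.exp_mul, ← Real.exp_add, ← Real.exp_add]
  congr 1
  rw [hw1, hw2]
  field_simp
  ring

/-- **Moments of the product.** -/
theorem CE_moment (k : ℕ) (hk : 1 ≤ k) (q : ℝ) (hq : 2 ≤ q) (hq1 : q * (k + 1) ≤ 4 * k)
    (e : ℝ) (he : 0 < e) (he1 : e ≤ 1 / 4) :
    ∃ C : ℝ, 1 ≤ C ∧ ∃ N₀ : ℕ, 64 ≤ N₀ ∧ ∀ (M L X m : ℕ) (D : ℝ), N₀ ≤ M → (M : ℝ) ^ (1 + 4 * e) ≤ X →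
      1 ≤ m → m ≤ M → (m : ℝ) ^ 2 * X ≤ 16 * (M : ℝ) ^ 2 → 1 ≤ D → 1 ≤ L → m * L ^ k ≤ 4 * M →
      ∀ b : ℕ → ℂ, (∀ n, b (n + m) = b n) → (∀ n, ‖b n‖ ≤ 1) →
      ∀ g : ℕ → ℂ, (∀ n ∈ Icc M (2 * M), ‖g n‖ ≤ 1) → tv M g ≤ 1 →
      (∀ n : ℕ, 1 ≤ n → (n : ℝ) ≤ 2 ^ (k + 3) * (M : ℝ) ^ 2 → (n.divisors.card : ℝ) ≤ D) →
      ∀ c : ℕ → ℂ, (∀ n, ‖c n‖ ≤ 1) →
        ∫ τ in ((X : ℝ) / 2)..(5 * (X : ℝ) / 2),
          ‖DP (Ico L (2 * L)) c τ * ∑ n ∈ Icc M (2 * M), b n * g n * pw τ n‖ ^ q ≤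
        C * D ^ (k + 1) * (M : ℝ) ^ (17 * e) * (X * ((M : ℝ) * L) ^ (q / 2)) := by
  obtain ⟨C1, hC1, N₁, hN₁64, hT⟩ := two_moments k e he he1
  refine ⟨4 * C1, by linarith, N₁, hN₁64, ?_⟩
  intro M L X m D hM hX hm hmM hmX hD hL hmL b hbm hb1 g hg htv hdiv c hc
  obtain ⟨hS, hF⟩ := hT M X m D hM hX hm hmM hmX hD b hbm hb1 g hg htv hdiv
  have hq0 : 0 < q := by linarith
  have hMn : 1 ≤ M := by omega
  have hMr : (1 : ℝ) ≤ M := by exact_mod_cast hMn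
  have hM0 : (0 : ℝ) < M := by linarith
  have hL0 : (0 : ℝ) < L := by exact_mod_cast hL
  have hm1 : (1 : ℝ) ≤ m := by exact_mod_cast hm
  have hXM : (M : ℝ) ≤ X := by
    refine le_trans ?_ hX
    calc (M : ℝ) = (M : ℝ) ^ (1 : ℝ) := (Real.rpow_one _).symm
      _ ≤ _ := Real.rpow_le_rpow_of_exponent_le hMr (by linarith)
  have hX0 : (0 : ℝ) < X := by linarith
  have hM17 : 1 ≤ (M : ℝ) ^ (17 * e) := Real.one_le_rpow hMr (by positivity)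
  have hmLr : (m : ℝ) * (L : ℝ) ^ k ≤ 4 * M := by exact_mod_cast hmL
  have hLk : (((2 * L) ^ k : ℕ) : ℝ) = 2 ^ k * (L : ℝ) ^ k := by push_cast; rw [mul_pow]
  have hLk0 : 0 < (L : ℝ) ^ k := by positivity
  have hLk4 : (L : ℝ) ^ k ≤ 4 * M := by nlinarith
  obtain ⟨J, p, hJ1, hJ2, hJ3⟩ := DP_pow (Ico L (2 * L)) c (2 * L) (by
      intro a ha
      rw [mem_Ico] at ha
      omega) (fun a _ => hc a) k D hD (by
      intro n hn hn2
      apply hdiv n hn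
      have h1 : (n : ℝ) ≤ (((2 * L) ^ k : ℕ) : ℝ) := by exact_mod_cast hn2
      rw [hLk] at h1
      calc (n : ℝ) ≤ 2 ^ k * (L : ℝ) ^ k := h1
        _ ≤ 2 ^ k * (4 * M) := by gcongr
        _ = 2 ^ (k + 2) * (M * 1) := by ring
        _ ≤ 2 ^ (k + 3) * (M * M) := by
            have : (2 : ℝ) ^ (k + 2) ≤ 2 ^ (k + 3) := pow_le_pow_right₀ (by norm_num) (by omega)
            gcongr
        _ = _ := by ring)
  have hSJ := hS J p (by
    intro h hh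
    refine ⟨(hJ1 h hh).1, ?_⟩
    have h1 : (h : ℝ) ≤ (((2 * L) ^ k : ℕ) : ℝ) := by exact_mod_cast (hJ1 h hh).2
    rw [hLk] at h1
    calc (m : ℝ) * h ≤ m * (2 ^ k * (L : ℝ) ^ k) := mul_le_mul_of_nonneg_left h1 (by positivity)
      _ = 2 ^ k * (m * (L : ℝ) ^ k) := by ring
      _ ≤ 2 ^ k * (4 * M) := by gcongr
      _ = 2 ^ (k + 2) * M := by ring)
  have hcard : ((Ico L (2 * L)).card : ℝ) = L := by
    rw [Nat.card_Ico]
    congr 1
    omega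
  rw [hcard] at hJ3
  set E : ℝ → ℂ := fun τ => ∑ n ∈ Icc M (2 * M), b n * g n * pw τ n with hE
  set Cc : ℝ → ℂ := DP (Ico L (2 * L)) c with hCc
  have hEc : Continuous E := by
    rw [hE]
    apply continuous_finsetSum
    intro n _
    have := pw_cont n
    fun_prop
  have hCcc : Continuous Cc := DP_cont _ _
  set R1 : ℝ := C1 * D ^ (k + 1) * (M : ℝ) ^ (17 * e) with hR1
  have hD1 : 1 ≤ D ^ (k + 1) := one_le_pow₀ hD
  have hR10 : 0 ≤ R1 := by positivity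
  have hR11 : 1 ≤ R1 := by
    rw [hR1]
    exact one_le_mul_of_one_le_of_one_le (one_le_mul_of_one_le_of_one_le hC1 hD1) hM17
  have hI1 : ∫ τ in ((X : ℝ) / 2)..(5 * (X : ℝ) / 2), ‖E τ‖ ^ 2 * (‖Cc τ‖ ^ k) ^ 2 ≤
      R1 * X * (M * (L : ℝ) ^ k) := by
    have e1 : ∀ τ, ‖E τ‖ ^ 2 * (‖Cc τ‖ ^ k) ^ 2 = ‖E τ‖ ^ 2 * ‖DP J p τ‖ ^ 2 := by
      intro τ
      rw [hJ2, norm_pow]
    simp_rw [e1]
    refine hSJ.trans ?_
    calc C1 * D * (M : ℝ) ^ (17 * e) * (X * M * ∑ h ∈ J, ‖p h‖ ^ 2)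
        ≤ C1 * D * (M : ℝ) ^ (17 * e) * (X * M * (D ^ k * (L : ℝ) ^ k)) := by
          have : 0 ≤ D := by linarith
          gcongr
      _ = _ := by rw [hR1]; ring
  have hI2 : ∫ τ in ((X : ℝ) / 2)..(5 * (X : ℝ) / 2), ‖E τ‖ ^ 4 ≤ R1 * X * (M : ℝ) ^ 2 := by
    refine hF.trans ?_
    have : D ≤ D ^ (k + 1) := by
      calc D = D ^ 1 := (pow_one D).symm
        _ ≤ D ^ (k + 1) := pow_le_pow_right₀ hD (by omega)
    calc C1 * D * (M : ℝ) ^ (17 * e) * (X * (M : ℝ) ^ 2)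
        ≤ C1 * D ^ (k + 1) * (M : ℝ) ^ (17 * e) * (X * (M : ℝ) ^ 2) := by gcongr
      _ = _ := by rw [hR1]; ring
  have hk1 : (1 : ℝ) ≤ k := by exact_mod_cast hk
  set w1 : ℝ := q / (2 * k) with hw1
  set w2 : ℝ := q * (k - 1) / (4 * k) with hw2
  set w3 : ℝ := 1 - w1 - w2 with hw3
  have h1 : 0 ≤ w1 := by positivity
  have h2 : 0 ≤ w2 := by
    rw [hw2]
    apply div_nonneg (mul_nonneg hq0.le (by linarith)) (by positivity)
  have e12 : w1 + w2 = q * (k + 1) / (4 * k) := by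
    rw [hw1, hw2]; field_simp; ring
  have h12 : w1 + w2 ≤ 1 := by
    rw [e12, div_le_one (by positivity)]
    exact hq1
  have hw1' : w1 ≤ 1 := by linarith
  have hw2' : w2 ≤ 1 := by linarith
  have hw3' : w3 ≤ 1 := by rw [hw3]; linarith
  set Q : ℝ := ((M : ℝ) * L) ^ (q / 2) with hQ
  have hQ0 : 0 < Q := by positivity
  have hint : ∫ τ in ((X : ℝ) / 2)..(5 * (X : ℝ) / 2), ‖Cc τ * E τ‖ ^ q ≤
      ∫ τ in ((X : ℝ) / 2)..(5 * (X : ℝ) / 2),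
        (Q * w1 / (M * (L : ℝ) ^ k) * (‖E τ‖ ^ 2 * (‖Cc τ‖ ^ k) ^ 2) +
          Q * w2 / (M : ℝ) ^ 2 * ‖E τ‖ ^ 4 + Q * w3) := by
    apply intervalIntegral.integral_mono_on (by linarith)
    · apply Continuous.intervalIntegrable
      apply Continuous.rpow_const (by fun_prop)
      intro v; right; exact hq0.le
    · apply Continuous.intervalIntegrable; fun_prop
    · intro τ _
      rw [norm_mul]
      refine (amgm hk hq0 hq1 (norm_nonneg (Cc τ)) (norm_nonneg (E τ)) hM0 hL0).trans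
        (le_of_eq ?_)
      rw [← hw1, ← hw2, ← hw3, ← hQ]
      field_simp
  refine hint.trans ?_
  rw [intervalIntegral.integral_add (by apply Continuous.intervalIntegrable; fun_prop)
    (by apply Continuous.intervalIntegrable; fun_prop), intervalIntegral.integral_add
    (by apply Continuous.intervalIntegrable; fun_prop)
    (by apply Continuous.intervalIntegrable; fun_prop), intervalIntegral.integral_const_mul,
    intervalIntegral.integral_const_mul, intervalIntegral.integral_const]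
  simp only [smul_eq_mul]
  have hw3'' : 0 ≤ w3 := by rw [hw3]; linarith
  calc Q * w1 / (M * (L : ℝ) ^ k) *
        (∫ τ in ((X : ℝ) / 2)..(5 * (X : ℝ) / 2), ‖E τ‖ ^ 2 * (‖Cc τ‖ ^ k) ^ 2) +
        Q * w2 / (M : ℝ) ^ 2 * (∫ τ in ((X : ℝ) / 2)..(5 * (X : ℝ) / 2), ‖E τ‖ ^ 4) +
        (5 * (X : ℝ) / 2 - X / 2) * (Q * w3)
      ≤ Q * w1 / (M * (L : ℝ) ^ k) * (R1 * X * (M * (L : ℝ) ^ k)) +
        Q * w2 / (M : ℝ) ^ 2 * (R1 * X * (M : ℝ) ^ 2) + (5 * (X : ℝ) / 2 - X / 2) * (Q * w3) := by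
        gcongr
    _ = R1 * X * Q * w1 + R1 * X * Q * w2 + 2 * (1 * X * Q * w3) := by
        field_simp
        ring
    _ ≤ R1 * X * Q * 1 + R1 * X * Q * 1 + 2 * (R1 * X * Q * 1) := by gcongr
    _ = _ := by rw [hR1]; ring

end Pool.Agent.KS6_54.ML
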