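import Pool.Agent.KS6_54.ML.Tw8

set_option autoImplicit false

/-!
# One dyadic block of a Type I sum
-/

open Finset MeasureTheory

namespace Pool.Agent.KS6_54.ML

open Pool.Agent.W200.MR (pw)
open Pool.Agent.TH445.MQ (pw_norm pw_add)

lemma cf_eq_zero (A J : Finset ℕ) (b p : ℕ → ℂ) {n : ℕ}
    (hn : n ∉ (A ×ˢ J).image fun x => x.1 * x.2) : cf A J b p n = 0 := by
  classical
  unfold cf
  rw [filter_eq_empty_iff.2, sum_empty]
  intro x hx h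
  exact hn (mem_image.2 ⟨x, hx, h⟩)

lemma cf_summable (A J : Finset ℕ) (b p : ℕ → ℂ) : Summable fun n => ‖cf A J b p n‖ := by
  classical
  apply summable_of_ne_finset_zero (s := (A ×ˢ J).image fun x => x.1 * x.2)
  intro n hn
  rw [cf_eq_zero A J b p hn, norm_zero]

lemma cf_tsum (A J : Finset ℕ) (b p : ℕ → ℂ) (hb : ∀ a ∈ A, ‖b a‖ ≤ 1) (hp : ∀ h ∈ J, ‖p h‖ ≤ 1) :
    ∑' n, ‖cf A J b p n‖ ≤ A.card * J.card := by
  classical
  rw [tsum_eq_sum (s := (A ×ˢ J).image fun x => x.1 * x.2) (fun n hn => by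
    rw [cf_eq_zero A J b p hn, norm_zero])]
  calc ∑ n ∈ (A ×ˢ J).image (fun x => x.1 * x.2), ‖cf A J b p n‖
      ≤ ∑ n ∈ (A ×ˢ J).image (fun x => x.1 * x.2),
        ∑ x ∈ (A ×ˢ J).filter (fun x => x.1 * x.2 = n), (1 : ℝ) := by
        apply sum_le_sum
        intro n _
        unfold cf
        refine (norm_sum_le _ _).trans (sum_le_sum ?_)
        intro x hx
        rw [mem_filter, mem_product] at hx
        rw [norm_mul]
        exact mul_le_one₀ (hb _ hx.1.1) (norm_nonneg _) (hp _ hx.1.2)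
    _ = ∑ _x ∈ A ×ˢ J, (1 : ℝ) :=
        sum_fiberwise_of_maps_to (fun x hx => mem_image_of_mem _ hx) _
    _ = A.card * J.card := by rw [sum_const, card_product]; simp

lemma cf_DS (A J : Finset ℕ) (b p : ℕ → ℂ) (hA : ∀ a ∈ A, 1 ≤ a) (hJ : ∀ h ∈ J, 1 ≤ h) (τ : ℝ) :
    DS (cf A J b p) τ = DP A b τ * DP J p τ := by
  classical
  rw [← cf_prod A J b p hA hJ]
  unfold DS DP
  rw [tsum_eq_sum (s := (A ×ˢ J).image fun x => x.1 * x.2) (fun n hn => by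
    rw [cf_eq_zero A J b p hn, zero_mul])]

/-- the indicator of `[M, 2M)` -/
noncomputable def ind (M n : ℕ) : ℂ := if n < 2 * M then 1 else 0

lemma ind_le (M n : ℕ) : ‖ind M n‖ ≤ 1 := by
  unfold ind
  split_ifs <;> simp

lemma ind_tv {M : ℕ} (hM : 1 ≤ M) : tv M (ind M) ≤ 1 := by
  unfold tv
  have h1 : ∀ n ∈ Ioc M (2 * M), ‖ind M n - ind M (n - 1)‖ = if n = 2 * M then 1 else 0 := by
    intro n hn
    rw [mem_Ioc] at hn
    unfold ind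
    by_cases h : n = 2 * M
    · rw [if_pos h, if_neg (by omega), if_pos (by omega)]
      simp
    · rw [if_neg h, if_pos (by omega), if_pos (by omega)]
      simp
  rw [sum_congr rfl h1, sum_ite_eq' (Ioc M (2 * M)) (2 * M)]
  split_ifs <;> simp

lemma ind_DP {M : ℕ} (hM : 1 ≤ M) (f : ℕ → ℂ) (τ : ℝ) :
    ∑ n ∈ Icc M (2 * M), f n * ind M n * pw τ n = DP (Ico M (2 * M)) f τ := by
  have h1 : Icc M (2 * M) = insert (2 * M) (Ico M (2 * M)) := by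
    ext n
    rw [mem_insert, mem_Icc, mem_Ico]
    omega
  rw [h1, sum_insert (by simp)]
  have h2 : ind M (2 * M) = 0 := by unfold ind; simp
  rw [h2, mul_zero, zero_mul, zero_add]
  unfold DP
  apply sum_congr rfl
  intro n hn
  rw [mem_Ico] at hn
  have h3 : ind M n = 1 := by unfold ind; rw [if_pos hn.2]
  rw [h3, mul_one]

/-- the arithmetic conditions -/
lemma conds {k N X m A M : ℕ} (hk : 1 ≤ k) (hA : 1 ≤ A) (hm : 1 ≤ m) (hX : X ^ (k + 1) * m ^ (2 * k) ≤ N ^ (2 * k))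
    (hX16 : 16 ≤ X) (hL : A ^ (k + 1) * m ≤ N) (hAM : N < 4 * (A * M)) :
    m ^ 2 * X ≤ 16 * M ^ 2 ∧ m * A ^ k ≤ 4 * M ∧ m ≤ M ∧ N < 16 * M ^ 2 := by
  have h1 : m ^ 2 * X * A ^ 2 ≤ N ^ 2 := by
    have h2 : (m ^ 2 * X * A ^ 2) ^ (k + 1) ≤ (N ^ 2) ^ (k + 1) := by
      calc (m ^ 2 * X * A ^ 2) ^ (k + 1) = (X ^ (k + 1) * m ^ (2 * k)) * (A ^ (k + 1) * m) ^ 2 := by
            ring
        _ ≤ N ^ (2 * k) * N ^ 2 := Nat.mul_le_mul hX (Nat.pow_le_pow_left hL 2)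
        _ = (N ^ 2) ^ (k + 1) := by ring
    exact (Nat.pow_le_pow_iff_left (by omega)).1 h2
  have h3 : m ^ 2 * X ≤ 16 * M ^ 2 := by
    have h4 : N ^ 2 ≤ (4 * (A * M)) ^ 2 := Nat.pow_le_pow_left hAM.le 2
    have h5 : m ^ 2 * X * A ^ 2 ≤ 16 * M ^ 2 * A ^ 2 := by
      calc m ^ 2 * X * A ^ 2 ≤ N ^ 2 := h1
        _ ≤ (4 * (A * M)) ^ 2 := h4
        _ = 16 * M ^ 2 * A ^ 2 := by ring
    exact Nat.le_of_mul_le_mul_right h5 (by positivity)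
  have h4 : m * A ^ k ≤ 4 * M := by
    have h5 : m * A ^ k * A ≤ 4 * M * A := by
      calc m * A ^ k * A = A ^ (k + 1) * m := by ring
        _ ≤ N := hL
        _ ≤ 4 * (A * M) := hAM.le
        _ = 4 * M * A := by ring
    exact Nat.le_of_mul_le_mul_right h5 (by omega)
  have h5 : m ≤ M := by
    have h6 : m ^ 2 * 16 ≤ 16 * M ^ 2 := le_trans (Nat.mul_le_mul_left _ hX16) h3
    have h7 : m ^ 2 ≤ M ^ 2 := by omega
    exact (Nat.pow_le_pow_iff_left (by norm_num)).1 h7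
  refine ⟨h3, h4, h5, ?_⟩
  have h6 : A ^ 2 ≤ N := by
    calc A ^ 2 ≤ A ^ (k + 1) := Nat.pow_le_pow_right hA (by omega)
      _ ≤ A ^ (k + 1) * m := Nat.le_mul_of_pos_right _ hm
      _ ≤ N := hL
  have h7 : N ^ 2 < (4 * (A * M)) ^ 2 := Nat.pow_lt_pow_left hAM (by norm_num)
  have h8 : (4 * (A * M)) ^ 2 ≤ 16 * M ^ 2 * N := by
    calc (4 * (A * M)) ^ 2 = 16 * M ^ 2 * A ^ 2 := by ring
      _ ≤ 16 * M ^ 2 * N := Nat.mul_le_mul_left _ h6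
  have h9 : N * N < 16 * M ^ 2 * N := by
    calc N * N = N ^ 2 := by ring
      _ < _ := h7.trans_le h8
  exact lt_of_mul_lt_mul_right h9 (Nat.zero_le N)

/-- **One dyadic block.** -/
theorem rs_block (k : ℕ) (hk : 1 ≤ k) (q : ℝ) (hq : 2 ≤ q) (hq1 : q * (k + 1) ≤ 4 * k)
    (δ : ℝ) (hδ : 0 < δ) (hδ1 : δ ≤ 1) :
    ∃ C : ℝ, 1 ≤ C ∧ ∃ N₀ : ℕ, 64 ≤ N₀ ∧ ∀ (N X m A M : ℕ), N₀ ≤ N → (N : ℝ) ^ (1 + 3 * δ) ≤ X →
      X ^ (k + 1) * m ^ (2 * k) ≤ N ^ (2 * k) → 1 ≤ m → 1 ≤ A → A ^ (k + 1) * m ≤ N →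
      A * M ≤ 2 * N → N < 4 * (A * M) →
      ∀ f : ℕ → ℂ, (∀ n, f (n + m) = f n) → (∀ n, ‖f n‖ ≤ 1) → ∀ c : ℕ → ℂ, (∀ n, ‖c n‖ ≤ 1) →
      ∀ g : ℕ → ℂ, (∀ n ∈ Icc N (2 * N), ‖g n‖ ≤ 1) →
      ∑ t ∈ Icc X (2 * X), ‖∑ n ∈ Icc N (2 * N),
        cf (Ico A (2 * A)) (Ico M (2 * M)) c f n * g n * pw (t : ℝ) n‖ ^ q ≤
        C * (1 + tv N g) ^ q * (N : ℝ) ^ ((q + 1) * δ) * (X * (N : ℝ) ^ (q / 2)) := by
  set e : ℝ := δ / (3 * k + 20) with he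
  have hk1 : (1 : ℝ) ≤ k := by exact_mod_cast hk
  have he0 : 0 < e := by rw [he]; positivity
  have hek : e * (3 * k + 20) = δ := by rw [he]; field_simp
  have he1 : e ≤ 1 / 4 := by nlinarith
  have heδ : 20 * e ≤ δ := by nlinarith
  obtain ⟨C1, hC1, N₁, hN₁64, hCE⟩ := CE_moment k hk q hq hq1 e he0 he1
  obtain ⟨C2, hC2, hT⟩ := transfer δ δ q hδ hδ1 hδ (by linarith)
  obtain ⟨C3, hC3, hexp⟩ := exp_small δ hδ
  obtain ⟨C4', hC4', hdiv⟩ := Pool.Agent.H510R2.divisor_bound e he0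
  have hq0 : 0 < q := by linarith
  set N₂ : ℕ := ⌈(4 : ℝ) ^ (1 / δ)⌉₊ with hN₂
  set G1 : ℝ := C1 * (C4' + 1) ^ (k + 1) * 2 ^ (17 * e) * 2 ^ (q / 2) with hG1
  set G2 : ℝ := (2 * C3) ^ q with hG2
  have hG10 : 0 ≤ G1 := by positivity
  have hG20 : 0 ≤ G2 := by positivity
  refine ⟨C2 * (G1 + G2) + 1, by nlinarith, max (max (16 * N₁ ^ 2) N₂) (2 ^ (k + 5)), ?_, ?_⟩
  · refine le_trans ?_ ((le_max_left _ _).trans (le_max_left _ _))
    nlinarith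
  intro N X m A M hN hX hXm hm hA hL hAM hAM2 f hfm hf1 c hc1 g hg
  have hNa : 16 * N₁ ^ 2 ≤ N := ((le_max_left _ _).trans (le_max_left _ _)).trans hN
  have hNb : N₂ ≤ N := ((le_max_right _ _).trans (le_max_left _ _)).trans hN
  have hNc : 2 ^ (k + 5) ≤ N := (le_max_right _ _).trans hN
  have hN64 : 64 ≤ N := by nlinarith
  have hN1n : 1 ≤ N := by omega
  have hN1 : (1 : ℝ) ≤ N := by exact_mod_cast hN1n
  have hN0 : (0 : ℝ) < N := by linarith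
  have hNδ : 4 ≤ (N : ℝ) ^ δ := by
    have h1 : (4 : ℝ) ^ (1 / δ) ≤ N := (Nat.le_ceil _).trans (by exact_mod_cast hNb)
    calc (4 : ℝ) = ((4 : ℝ) ^ (1 / δ)) ^ δ := by
          rw [← Real.rpow_mul (by norm_num), one_div_mul_cancel hδ.ne', Real.rpow_one]
      _ ≤ (N : ℝ) ^ δ := Real.rpow_le_rpow (by positivity) h1 hδ.le
  have hXN : (N : ℝ) ≤ X := by
    refine le_trans ?_ hX
    calc (N : ℝ) = (N : ℝ) ^ (1 : ℝ) := (Real.rpow_one _).symm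
      _ ≤ _ := Real.rpow_le_rpow_of_exponent_le hN1 (by linarith)
  have hNX : N ≤ X := by exact_mod_cast hXN
  have hX0 : (0 : ℝ) < X := by linarith
  obtain ⟨c1, c2, c3, c4⟩ := conds hk hA hm hXm (by omega) hL hAM2
  have hM1n : 1 ≤ M := by omega
  have hMN₁ : N₁ ≤ M := by
    have : N₁ ^ 2 < M ^ 2 := by omega
    exact (lt_of_pow_lt_pow_left₀ 2 (by omega) this).le
  have hM1 : (1 : ℝ) ≤ M := by exact_mod_cast hM1n
  have hM0 : (0 : ℝ) < M := by linarith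
  have hA1 : (1 : ℝ) ≤ A := by exact_mod_cast hA
  have hA0 : (0 : ℝ) < A := by linarith
  have hM2N : M ≤ 2 * N := le_trans (Nat.le_mul_of_pos_left M (by omega)) hAM
  have hM2Nr : (M : ℝ) ≤ 2 * N := by exact_mod_cast hM2N
  have hAMr : (A : ℝ) * M ≤ 2 * N := by exact_mod_cast hAM
  -- the lower bound for X in terms of M
  have hXM : (M : ℝ) ^ (1 + 4 * e) ≤ X := by
    refine le_trans ?_ hX
    calc (M : ℝ) ^ (1 + 4 * e) ≤ (2 * (N : ℝ)) ^ (1 + 4 * e) :=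
          Real.rpow_le_rpow hM0.le hM2Nr (by linarith)
      _ = 2 ^ (1 + 4 * e) * (N : ℝ) ^ (1 + 4 * e) := Real.mul_rpow (by norm_num) hN0.le
      _ ≤ 4 * (N : ℝ) ^ (1 + δ) := by
          have h1 : (2 : ℝ) ^ (1 + 4 * e) ≤ 2 ^ (2 : ℝ) :=
            Real.rpow_le_rpow_of_exponent_le (by norm_num) (by linarith)
          have h2 : (2 : ℝ) ^ (2 : ℝ) = 4 := by norm_num
          have h3 : (N : ℝ) ^ (1 + 4 * e) ≤ (N : ℝ) ^ (1 + δ) :=
            Real.rpow_le_rpow_of_exponent_le hN1 (by linarith)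
          rw [h2] at h1
          gcongr
      _ ≤ (N : ℝ) ^ δ * (N : ℝ) ^ (1 + δ) := mul_le_mul_of_nonneg_right hNδ (by positivity)
      _ ≤ (N : ℝ) ^ (1 + 3 * δ) := by
          rw [← Real.rpow_add hN0]
          exact Real.rpow_le_rpow_of_exponent_le hN1 (by linarith)
  -- the divisor bound
  set D : ℝ := (C4' + 1) * (N : ℝ) ^ (3 * e) with hD
  have hN3e : 1 ≤ (N : ℝ) ^ (3 * e) := Real.one_le_rpow hN1 (by positivity)
  have hD1 : 1 ≤ D := by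
    rw [hD]
    exact one_le_mul_of_one_le_of_one_le (by linarith) hN3e
  have hdivD : ∀ n : ℕ, 1 ≤ n → (n : ℝ) ≤ 2 ^ (k + 3) * (M : ℝ) ^ 2 → (n.divisors.card : ℝ) ≤ D := by
    intro n h1 h2
    refine (hdiv n h1).trans ?_
    rw [hD]
    have h3 : (n : ℝ) ≤ (N : ℝ) ^ 3 := by
      have h5 : (2 : ℝ) ^ (k + 5) ≤ N := by exact_mod_cast hNc
      calc (n : ℝ) ≤ 2 ^ (k + 3) * (M : ℝ) ^ 2 := h2
        _ ≤ 2 ^ (k + 3) * (2 * N) ^ 2 := by gcongr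
        _ = 2 ^ (k + 5) * (N : ℝ) ^ 2 := by ring
        _ ≤ N * (N : ℝ) ^ 2 := by gcongr
        _ = _ := by ring
    have h4 : (n : ℝ) ^ e ≤ (N : ℝ) ^ (3 * e) := by
      calc (n : ℝ) ^ e ≤ ((N : ℝ) ^ 3) ^ e := Real.rpow_le_rpow (by positivity) h3 he0.le
        _ = (N : ℝ) ^ (3 * e) := by
            rw [← Real.rpow_natCast, ← Real.rpow_mul hN0.le]
            norm_num
    exact mul_le_mul (by linarith) h4 (by positivity) (by positivity)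
  have hmXr : (m : ℝ) ^ 2 * X ≤ 16 * (M : ℝ) ^ 2 := by exact_mod_cast c1
  have hmain := hCE M A X m D hMN₁ hXM hm c3 hmXr hD1 hA c2 f hfm hf1 (ind M)
    (fun n _ => ind_le M n) (ind_tv hM1n) hdivD c hc1
  simp_rw [ind_DP hM1n f] at hmain
  -- the transfer
  set a := cf (Ico A (2 * A)) (Ico M (2 * M)) c f with ha
  have hIA : ∀ x ∈ Ico A (2 * A), 1 ≤ x := fun x hx => hA.trans (mem_Ico.1 hx).1
  have hIM : ∀ x ∈ Ico M (2 * M), 1 ≤ x := fun x hx => hM1n.trans (mem_Ico.1 hx).1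
  have ha0 : a 0 = 0 := by
    rw [ha]
    unfold cf
    apply sum_eq_zero
    intro x hx
    rw [mem_filter, mem_product] at hx
    have h1 := hIA _ hx.1.1
    have h2 := hIM _ hx.1.2
    have h3 := hx.2
    exfalso
    have : 0 < x.1 * x.2 := Nat.mul_pos h1 h2
    omega
  have hT' := hT N X hN1n hX a g ha0 (cf_summable _ _ _ _)
  have hDS : ∀ τ, DS a τ = DP (Ico A (2 * A)) c τ * DP (Ico M (2 * M)) f τ := fun τ =>
    cf_DS _ _ _ _ hIA hIM τ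
  simp_rw [hDS] at hT'
  refine hT'.trans ?_
  have hcA : ((Ico A (2 * A)).card : ℝ) = A := by
    rw [Nat.card_Ico]; congr 1; omega
  have hcM : ((Ico M (2 * M)).card : ℝ) = M := by
    rw [Nat.card_Ico]; congr 1; omega
  have hsum : ∑' n, ‖a n‖ ≤ 2 * N := by
    refine (cf_tsum _ _ _ _ (fun x _ => hc1 x) (fun x _ => hf1 x)).trans ?_
    rw [hcA, hcM]
    exact hAMr
  have hsum0 : 0 ≤ ∑' n, ‖a n‖ := tsum_nonneg fun n => norm_nonneg _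
  set ER := Real.exp (-((N : ℝ) ^ (2 * δ) / 576)) with hER
  have hER0 : 0 < ER := Real.exp_pos _
  have htiny : ((∑' n, ‖a n‖) * ER) ^ q ≤ G2 := by
    rw [hG2]
    apply Real.rpow_le_rpow (by positivity) _ hq0.le
    have h1 : (N : ℝ) * ER ≤ C3 := by
      refine le_trans ?_ (hexp N hN1n)
      apply mul_le_mul_of_nonneg_right _ hER0.le
      calc (N : ℝ) = (N : ℝ) ^ 1 := (pow_one _).symm
        _ ≤ (N : ℝ) ^ 4 := pow_le_pow_right₀ hN1 (by norm_num)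
    calc (∑' n, ‖a n‖) * ER ≤ (2 * N) * ER := mul_le_mul_of_nonneg_right hsum hER0.le
      _ = 2 * (N * ER) := by ring
      _ ≤ 2 * C3 := by linarith
  have hvr : vr N g ≤ 1 + tv N g := by
    unfold vr tv
    have := hg N (mem_Icc.2 ⟨le_rfl, by omega⟩)
    linarith
  have hvr0 := vr_nonneg N g
  have htv0 := tv_nonneg N g
  have hNq : 1 ≤ (N : ℝ) ^ (q / 2) := Real.one_le_rpow hN1 (by linarith)
  have hNδ1 : 1 ≤ (N : ℝ) ^ δ := by linarith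
  have hI : ∫ τ in ((X : ℝ) / 2)..(5 * (X : ℝ) / 2),
      ‖DP (Ico A (2 * A)) c τ * DP (Ico M (2 * M)) f τ‖ ^ q ≤
      G1 * ((N : ℝ) ^ δ * (X * (N : ℝ) ^ (q / 2))) := by
    refine hmain.trans ?_
    have h1 : D ^ (k + 1) * (M : ℝ) ^ (17 * e) ≤
        (C4' + 1) ^ (k + 1) * 2 ^ (17 * e) * (N : ℝ) ^ δ := by
      have h2 : D ^ (k + 1) = (C4' + 1) ^ (k + 1) * (N : ℝ) ^ (3 * e * (k + 1)) := by
        rw [hD, mul_pow, ← Real.rpow_natCast ((N : ℝ) ^ (3 * e)), ← Real.rpow_mul hN0.le]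
        push_cast
        rfl
      have h3 : (M : ℝ) ^ (17 * e) ≤ 2 ^ (17 * e) * (N : ℝ) ^ (17 * e) := by
        rw [← Real.mul_rpow (by norm_num) hN0.le]
        exact Real.rpow_le_rpow hM0.le hM2Nr (by positivity)
      rw [h2]
      calc (C4' + 1) ^ (k + 1) * (N : ℝ) ^ (3 * e * (k + 1)) * (M : ℝ) ^ (17 * e)
          ≤ (C4' + 1) ^ (k + 1) * (N : ℝ) ^ (3 * e * (k + 1)) *
            (2 ^ (17 * e) * (N : ℝ) ^ (17 * e)) := by gcongr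
        _ = (C4' + 1) ^ (k + 1) * 2 ^ (17 * e) *
            ((N : ℝ) ^ (3 * e * (k + 1)) * (N : ℝ) ^ (17 * e)) := by ring
        _ = (C4' + 1) ^ (k + 1) * 2 ^ (17 * e) * (N : ℝ) ^ δ := by
            rw [← Real.rpow_add hN0]
            congr 2
            rw [← hek]
            ring
    have h2 : ((M : ℝ) * A) ^ (q / 2) ≤ 2 ^ (q / 2) * (N : ℝ) ^ (q / 2) := by
      rw [← Real.mul_rpow (by norm_num) hN0.le]
      apply Real.rpow_le_rpow (by positivity) _ (by linarith)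
      rw [mul_comm]
      exact hAMr
    calc C1 * D ^ (k + 1) * (M : ℝ) ^ (17 * e) * (X * ((M : ℝ) * A) ^ (q / 2))
        = C1 * (D ^ (k + 1) * (M : ℝ) ^ (17 * e)) * (X * ((M : ℝ) * A) ^ (q / 2)) := by ring
      _ ≤ C1 * ((C4' + 1) ^ (k + 1) * 2 ^ (17 * e) * (N : ℝ) ^ δ) *
          (X * (2 ^ (q / 2) * (N : ℝ) ^ (q / 2))) := by gcongr
      _ = _ := by rw [hG1]; ring
  have hI0 : 0 ≤ ∫ τ in ((X : ℝ) / 2)..(5 * (X : ℝ) / 2),
      ‖DP (Ico A (2 * A)) c τ * DP (Ico M (2 * M)) f τ‖ ^ q := by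
    apply intervalIntegral.integral_nonneg (by linarith)
    intro v _
    positivity
  have hR0 : 0 ≤ (N : ℝ) ^ δ * (X * (N : ℝ) ^ (q / 2)) := by positivity
  calc C2 * (N : ℝ) ^ (q * δ) * vr N g ^ q *
        ((∫ τ in ((X : ℝ) / 2)..(5 * (X : ℝ) / 2),
          ‖DP (Ico A (2 * A)) c τ * DP (Ico M (2 * M)) f τ‖ ^ q) + X * ((∑' n, ‖a n‖) * ER) ^ q)
      ≤ C2 * (N : ℝ) ^ (q * δ) * (1 + tv N g) ^ q *
        (G1 * ((N : ℝ) ^ δ * (X * (N : ℝ) ^ (q / 2))) + G2 * ((N : ℝ) ^ δ * (X * (N : ℝ) ^ (q / 2)))) := by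
        have h5 : vr N g ^ q ≤ (1 + tv N g) ^ q := Real.rpow_le_rpow hvr0 hvr hq0.le
        have h6 : X * ((∑' n, ‖a n‖) * ER) ^ q ≤ G2 * ((N : ℝ) ^ δ * (X * (N : ℝ) ^ (q / 2))) := by
          calc X * ((∑' n, ‖a n‖) * ER) ^ q ≤ X * G2 := mul_le_mul_of_nonneg_left htiny hX0.le
            _ = G2 * (1 * (X * 1)) := by ring
            _ ≤ G2 * ((N : ℝ) ^ δ * (X * (N : ℝ) ^ (q / 2))) := by gcongr
        have h7 : 0 ≤ ((∑' n, ‖a n‖) * ER) ^ q := by positivity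
        have h8 : 0 ≤ (1 + tv N g) ^ q := by positivity
        gcongr
    _ = C2 * (G1 + G2) * (1 + tv N g) ^ q * ((N : ℝ) ^ (q * δ) * (N : ℝ) ^ δ) *
        (X * (N : ℝ) ^ (q / 2)) := by ring
    _ = C2 * (G1 + G2) * (1 + tv N g) ^ q * (N : ℝ) ^ ((q + 1) * δ) *
        (X * (N : ℝ) ^ (q / 2)) := by
        rw [← Real.rpow_add hN0]
        congr 3
        ring
    _ ≤ (C2 * (G1 + G2) + 1) * (1 + tv N g) ^ q * (N : ℝ) ^ ((q + 1) * δ) *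
        (X * (N : ℝ) ^ (q / 2)) := by
        gcongr
        linarith

end Pool.Agent.KS6_54.ML
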