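import Pool.Graph.R_pool_sql_team_seeded_2aa45f1a.Q231.RS.Vdc2

set_option autoImplicit false

/-!
# The second derivative test of van der Corput with monotone weights

The test itself is the one of the library (`Pool.Agent.Q231.RS.vdc_two`), whose proof only uses the condition on
the second differences.
-/

namespace Pool.Agent.KS6_54.ML

open Finset
open Pool.Agent.Helper153.Vdc (ee)
open Pool.Agent.Q231.RS (ee_e ee_sub_int card_spread)

/-- partial summation with a decreasing weight -/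
lemma abel1 {w : ℕ → ℝ} {z : ℕ → ℂ} {B : ℝ} {a b : ℕ} (hab : a ≤ b) (hw0 : ∀ j, 0 ≤ w j)
    (hw : ∀ j, a ≤ j → j + 1 < b → w (j + 1) ≤ w j) (hB : ∀ n, a ≤ n → n ≤ b → ‖∑ j ∈ Ico a n, z j‖ ≤ B) :
    ‖∑ j ∈ Ico a b, (w j : ℂ) * z j‖ ≤ w a * B := by
  have hB0 : 0 ≤ B := (norm_nonneg _).trans (hB a le_rfl hab)
  rcases Nat.eq_or_lt_of_le hab with h | hlt
  · rw [h, Ico_self, sum_empty, norm_zero]
    exact mul_nonneg (hw0 _) hB0
  have key : ∀ n, a ≤ n → n < b →
      ‖∑ j ∈ Ico a (n + 1), (w j : ℂ) * z j - (w n : ℂ) * ∑ j ∈ Ico a (n + 1), z j‖ ≤ (w a - w n) * B := by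
    intro n hn
    induction n, hn using Nat.le_induction with
    | base => intro _; simp
    | succ n hn ih =>
      intro hnb
      have h1 := ih (by omega)
      have h2 := hB (n + 1) (by omega) (by omega)
      have h3 := hw n hn hnb
      rw [sum_Ico_succ_top (by omega : a ≤ n + 1), sum_Ico_succ_top (by omega : a ≤ n + 1)]
      have e : ∑ j ∈ Ico a (n + 1), (w j : ℂ) * z j + (w (n + 1) : ℂ) * z (n + 1) -
          (w (n + 1) : ℂ) * (∑ j ∈ Ico a (n + 1), z j + z (n + 1)) =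
          (∑ j ∈ Ico a (n + 1), (w j : ℂ) * z j - (w n : ℂ) * ∑ j ∈ Ico a (n + 1), z j) +
          ((w n - w (n + 1) : ℝ) : ℂ) * ∑ j ∈ Ico a (n + 1), z j := by push_cast; ring
      rw [e]
      refine (norm_add_le _ _).trans ?_
      rw [norm_mul, Complex.norm_real, Real.norm_of_nonneg (by linarith)]
      have h4 : (w n - w (n + 1)) * ‖∑ j ∈ Ico a (n + 1), z j‖ ≤ (w n - w (n + 1)) * B :=
        mul_le_mul_of_nonneg_left h2 (by linarith)
      linarith
  obtain ⟨m, rfl⟩ : ∃ m, b = m + 1 := ⟨b - 1, by omega⟩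
  have h1 := key m (by omega) (by omega)
  have h2 := hB (m + 1) (by omega) le_rfl
  have e : ∑ j ∈ Ico a (m + 1), (w j : ℂ) * z j =
      (∑ j ∈ Ico a (m + 1), (w j : ℂ) * z j - (w m : ℂ) * ∑ j ∈ Ico a (m + 1), z j) +
        (w m : ℂ) * ∑ j ∈ Ico a (m + 1), z j := by ring
  rw [e]
  refine (norm_add_le _ _).trans ?_
  rw [norm_mul, Complex.norm_real, Real.norm_of_nonneg (hw0 m)]
  have h4 := mul_le_mul_of_nonneg_left h2 (hw0 m)
  linarith

/-- partial summation with a decreasing weight and an increasing weight at most one -/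
lemma abel2 {w v : ℕ → ℝ} {z : ℕ → ℂ} {B : ℝ} {a b : ℕ} (hab : a ≤ b) (hw0 : ∀ j, 0 ≤ w j)
    (hw : ∀ j, a ≤ j → j + 1 < b → w (j + 1) ≤ w j) (hv0 : ∀ j, 0 ≤ v j) (hv1 : ∀ j, v j ≤ 1)
    (hv : ∀ j, a ≤ j → j + 1 < b → v j ≤ v (j + 1)) (hB : ∀ n, a ≤ n → n ≤ b → ‖∑ j ∈ Ico a n, z j‖ ≤ B) :
    ‖∑ j ∈ Ico a b, (w j : ℂ) * ((v j : ℂ) * z j)‖ ≤ w a * (2 * B) := by
  refine abel1 hab hw0 hw fun n hn hnb => ?_
  have hB0 : 0 ≤ B := (norm_nonneg _).trans (hB a le_rfl hab)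
  have h1 := abel1 (w := fun j => 1 - v j) (z := z) (B := B) hn (fun j => by have := hv1 j; linarith)
    (fun j hj hjn => by have := hv j hj (by omega); linarith) (fun m hm hmn => hB m hm (by omega))
  have h2 := hB n hn hnb
  have e : ∑ j ∈ Ico a n, (v j : ℂ) * z j = ∑ j ∈ Ico a n, z j - ∑ j ∈ Ico a n, ((1 - v j : ℝ) : ℂ) * z j := by
    rw [← sum_sub_distrib]
    refine sum_congr rfl fun j _ => ?_
    push_cast; ring
  rw [e]
  refine (norm_sub_le _ _).trans ?_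
  have h3 : (1 - v a) * B ≤ 1 * B := mul_le_mul_of_nonneg_right (by have := hv0 a; linarith) hB0
  linarith

variable {g : ℕ → ℝ} {M : ℕ} {lam A : ℝ}

/-- the condition on the second differences -/
def C2 (g : ℕ → ℝ) (M : ℕ) (lam A : ℝ) : Prop :=
  ∀ n, n + 2 < M → lam ≤ (g (n + 1 + 1) - g (n + 1)) - (g (n + 1) - g n) ∧
    (g (n + 1 + 1) - g (n + 1)) - (g (n + 1) - g n) ≤ A * lam

/-- the first differences -/
lemma diff_bd (hc : C2 g M lam A) : ∀ i j : ℕ, i ≤ j → j + 1 < M →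
    ((j : ℝ) - i) * lam ≤ (g (j + 1) - g j) - (g (i + 1) - g i) ∧
      (g (j + 1) - g j) - (g (i + 1) - g i) ≤ A * (((j : ℝ) - i) * lam) := by
  intro i j hij
  induction j, hij using Nat.le_induction with
  | base => intro _; simp
  | succ j hij ih =>
    intro hj
    obtain ⟨h1, h2⟩ := ih (by omega)
    have h3 := hc j (by omega)
    push_cast
    constructor
    · nlinarith [h3.1]
    · nlinarith [h3.2]

/-- the sum over the indices with first differences in `[k + θ, k + 1 - θ)` -/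
lemma good_sum (hlam : 0 < lam) (hc : C2 g M lam A) {θ : ℝ} (hθ : 0 < θ) (k : ℤ) (S : Finset ℕ)
    (hS : ∀ n, n ∈ S ↔ n + 1 < M ∧ (k : ℝ) + θ ≤ g (n + 1) - g n ∧ g (n + 1) - g n < (k : ℝ) + 1 - θ) :
    ‖∑ n ∈ S, ee (g n)‖ ≤ 2 / θ := by
  rcases S.eq_empty_or_nonempty with h0 | h0
  · rw [h0]; simp; positivity
  set a := S.min' h0 with ha
  set b := S.max' h0 with hb
  have ha1 := (hS a).1 (S.min'_mem h0)
  have hb1 := (hS b).1 (S.max'_mem h0)
  have hab : a ≤ b := S.min'_le _ (S.max'_mem h0)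
  have hmono : ∀ i j : ℕ, i ≤ j → j + 1 < M → g (i + 1) - g i ≤ g (j + 1) - g j := by
    intro i j hij hj
    have h1 := (diff_bd hc i j hij hj).1
    have h2 : (0 : ℝ) ≤ ((j : ℝ) - i) * lam := by
      have : (i : ℝ) ≤ j := by exact_mod_cast hij
      exact mul_nonneg (by linarith) hlam.le
    linarith
  have hSI : S = Ico a (b + 1) := by
    ext n
    rw [mem_Ico]
    constructor
    · intro hn
      exact ⟨S.min'_le n hn, Nat.lt_succ_of_le (S.le_max' n hn)⟩
    · rintro ⟨h1, h2⟩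
      rw [hS]
      have h3 := hmono a n h1 (by omega)
      have h4 := hmono n b (by omega) hb1.1
      exact ⟨by omega, by linarith [ha1.2.1], by linarith [hb1.2.2]⟩
  have hmem : ∀ n, a ≤ n → n ≤ b → n + 1 < M ∧ (k : ℝ) + θ ≤ g (n + 1) - g n ∧
      g (n + 1) - g n < (k : ℝ) + 1 - θ := by
    intro n h1 h2
    rw [← hS, hSI, mem_Ico]
    omega
  rw [hSI, sum_Ico_eq_sum_range]
  have e1 : ∑ i ∈ range (b + 1 - a), ee (g (a + i)) =
      ∑ i ∈ range (b + 1 - a), Pool.Agent.H469R2.NK.e ((fun i : ℕ => g (a + i) - (k : ℝ) * i) i) := by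
    refine sum_congr rfl fun i _ => ?_
    rw [← ee_e]
    have h1 : g (a + i) - (k : ℝ) * i = g (a + i) - ((k * i : ℤ) : ℝ) := by push_cast; ring
    simp only
    rw [h1, ee_sub_int]
  rw [e1]
  refine Pool.Agent.H469R2.NK.kusmin_landau_mono _ _ hθ ?_ ?_ ?_
  · intro n hn
    have h1 := (hmem (a + n) (by omega) (by omega)).2.1
    push_cast
    have e2 : a + (n + 1) = a + n + 1 := by ring
    rw [e2]
    linarith
  · intro n hn
    have h1 := (hmem (a + n) (by omega) (by omega)).2.2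
    push_cast
    have e2 : a + (n + 1) = a + n + 1 := by ring
    rw [e2]
    linarith
  · intro n hn
    have h1 := hmono (a + n) (a + n + 1) (by omega) (hmem (a + n + 1) (by omega) (by omega)).1
    push_cast
    have e2 : a + (n + 1) = a + n + 1 := by ring
    have e3 : a + (n + 2) = a + n + 1 + 1 := by ring
    rw [e2, e3]
    linarith

lemma bad_card (hlam : 0 < lam) (hc : C2 g M lam A) {θ : ℝ} (hθ : 0 < θ) (k : ℤ) (S : Finset ℕ)
    (hS : ∀ n ∈ S, n + 1 < M ∧ (k : ℝ) - θ ≤ g (n + 1) - g n ∧ g (n + 1) - g n < (k : ℝ) + θ) :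
    (S.card : ℝ) ≤ 2 * θ / lam + 1 := by
  apply card_spread (by positivity)
  intro i hi j hj hij
  have h1 := (diff_bd hc i j hij (hS j hj).1).1
  have h2 := (hS i hi).2.1
  have h3 := (hS j hj).2.2
  rw [le_div_iff₀ hlam]
  linarith

/-- **second derivative test**, `λ < 1/4` -/
theorem vdc_small (hA : 1 ≤ A) {N : ℕ} (hN : 1 ≤ N) (hMN : M ≤ N) (hlam : 0 < lam) (hl4 : lam ≤ 1 / 4)
    (hc : C2 g M lam A) :
    ‖∑ n ∈ range M, ee (g n)‖ ≤ 20 * A * ((N : ℝ) * Real.sqrt lam + 1 / Real.sqrt lam) := by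
  have hN1 : (1 : ℝ) ≤ N := by exact_mod_cast hN
  set θ : ℝ := Real.sqrt lam with hθd
  have hθ : 0 < θ := Real.sqrt_pos.2 hlam
  have hθ2 : θ * θ = lam := Real.mul_self_sqrt hlam.le
  have hθh : θ ≤ 1 / 2 := by
    rw [hθd]
    calc Real.sqrt lam ≤ Real.sqrt ((1 / 2) ^ 2) := Real.sqrt_le_sqrt (by linarith)
      _ = 1 / 2 := Real.sqrt_sq (by norm_num)
  have hinv : 1 ≤ 1 / θ := by
    rw [le_div_iff₀ hθ]; linarith
  have hpos : 0 ≤ (N : ℝ) * θ := by positivity
  rcases Nat.lt_or_ge M 2 with hM | hM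
  · have h1 : ‖∑ n ∈ range M, ee (g n)‖ ≤ M := Pool.Agent.Helper153.Vdc.triv_bound M g
    have h2 : (M : ℝ) ≤ 1 := by exact_mod_cast (by omega : M ≤ 1)
    nlinarith
  obtain ⟨R, rfl⟩ : ∃ R, M = R + 2 := ⟨M - 2, by omega⟩
  -- the integer attached to an index
  set d : ℕ → ℝ := fun n => g (n + 1) - g n with hd
  set kk : ℕ → ℤ := fun n => ⌊d n + θ⌋ with hkk
  have hmono : ∀ i j : ℕ, i ≤ j → j + 1 < R + 2 → d i ≤ d j := by
    intro i j hij hj
    have h1 := (diff_bd hc i j hij hj).1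
    have h2 : (0 : ℝ) ≤ ((j : ℝ) - i) * lam := by
      have : (i : ℝ) ≤ j := by exact_mod_cast hij
      exact mul_nonneg (by linarith) hlam.le
    simp only [hd]
    linarith
  set I : Finset ℤ := Icc (kk 0) (kk R) with hI
  have hmaps : ∀ n ∈ range (R + 1), kk n ∈ I := by
    intro n hn
    rw [mem_range] at hn
    rw [hI, mem_Icc]
    constructor
    · exact Int.floor_le_floor (by linarith [hmono 0 n (by omega) (by omega)])
    · exact Int.floor_le_floor (by linarith [hmono n R (by omega) (by omega)])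
  have hfib : ∀ k ∈ I, ‖∑ n ∈ (range (R + 1)).filter (fun n => kk n = k), ee (g n)‖ ≤ 5 / θ := by
    intro k _
    set F := (range (R + 1)).filter (fun n => kk n = k) with hF
    have hFm : ∀ n, n ∈ F ↔ n + 1 < R + 2 ∧ (k : ℝ) - θ ≤ d n ∧ d n < (k : ℝ) + 1 - θ := by
      intro n
      rw [hF, mem_filter, mem_range, hkk, Int.floor_eq_iff]
      constructor
      · rintro ⟨h1, h2, h3⟩
        exact ⟨by omega, by linarith, by linarith⟩
      · rintro ⟨h1, h2, h3⟩
        exact ⟨by omega, by linarith, by linarith⟩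
    have hsplit : ∑ n ∈ F, ee (g n) = ∑ n ∈ F.filter (fun n => (k : ℝ) + θ ≤ d n), ee (g n) +
        ∑ n ∈ F.filter (fun n => ¬ (k : ℝ) + θ ≤ d n), ee (g n) :=
      (sum_filter_add_sum_filter_not F _ _).symm
    rw [hsplit]
    refine (norm_add_le _ _).trans ?_
    have h1 : ‖∑ n ∈ F.filter (fun n => (k : ℝ) + θ ≤ d n), ee (g n)‖ ≤ 2 / θ := by
      refine good_sum hlam hc hθ k _ fun n => ?_
      rw [mem_filter, hFm]
      constructor
      · rintro ⟨⟨a1, _, a3⟩, a4⟩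
        exact ⟨a1, a4, a3⟩
      · rintro ⟨a1, a2, a3⟩
        exact ⟨⟨a1, by simp only [hd]; linarith, a3⟩, a2⟩
    have h2 : ‖∑ n ∈ F.filter (fun n => ¬ (k : ℝ) + θ ≤ d n), ee (g n)‖ ≤ 2 * θ / lam + 1 := by
      refine (norm_sum_le _ _).trans ?_
      rw [sum_congr rfl fun n _ => Pool.Agent.Helper153.Vdc.ee_norm (g n), sum_const, nsmul_eq_mul, mul_one]
      refine bad_card hlam hc hθ k _ fun n hn => ?_
      rw [mem_filter, hFm] at hn
      obtain ⟨⟨a1, a2, _⟩, a4⟩ := hn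
      exact ⟨a1, a2, not_le.1 a4⟩
    have h3 : 2 * θ / lam = 2 / θ := by
      rw [← hθ2]
      field_simp
    rw [h3] at h2
    calc _ ≤ 2 / θ + (2 / θ + 1) := add_le_add h1 h2
      _ ≤ 2 / θ + (2 / θ + 1 / θ) := by linarith
      _ = 5 / θ := by ring
  have hcard : (I.card : ℝ) ≤ A * N * lam + 2 := by
    rw [hI, Int.card_Icc]
    have h1 : kk 0 ≤ kk R := Int.floor_le_floor (by linarith [hmono 0 R (by omega) (by omega)])
    have h2 : (((kk R + 1 - kk 0).toNat : ℕ) : ℝ) = (kk R : ℝ) + 1 - kk 0 := by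
      have : (((kk R + 1 - kk 0).toNat : ℕ) : ℤ) = kk R + 1 - kk 0 := Int.toNat_of_nonneg (by omega)
      exact_mod_cast this
    rw [h2]
    have h3 : (kk R : ℝ) ≤ d R + θ := Int.floor_le _
    have h4 : d 0 + θ < kk 0 + 1 := Int.lt_floor_add_one _
    have h5 := (diff_bd hc 0 R (by omega) (by omega)).2
    have h6 : (R : ℝ) ≤ N := by exact_mod_cast (by omega : R ≤ N)
    have h7 : A * (((R : ℝ) - ((0 : ℕ) : ℝ)) * lam) ≤ A * N * lam := by
      push_cast
      rw [sub_zero, ← mul_assoc]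
      gcongr
    simp only [hd] at h3 h4
    linarith
  rw [sum_range_succ, ← sum_fiberwise_of_maps_to hmaps]
  refine (norm_add_le _ _).trans ?_
  have h1 : ‖∑ k ∈ I, ∑ n ∈ (range (R + 1)).filter (fun n => kk n = k), ee (g n)‖ ≤ (A * N * lam + 2) * (5 / θ) := by
    refine (norm_sum_le _ _).trans ?_
    refine (sum_le_sum hfib).trans ?_
    rw [sum_const, nsmul_eq_mul]
    exact mul_le_mul_of_nonneg_right hcard (by positivity)
  rw [Pool.Agent.Helper153.Vdc.ee_norm]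
  have h2 : (A * N * lam + 2) * (5 / θ) = 5 * A * (N * θ) + 10 * (1 / θ) := by
    rw [← hθ2]
    field_simp
    ring
  rw [h2] at h1
  calc _ ≤ 5 * A * (N * θ) + 10 * (1 / θ) + 1 := by linarith
    _ ≤ 20 * A * (N * θ) + 20 * A * (1 / θ) := by
        have h3 : A * (N * θ) ≥ 0 := by positivity
        nlinarith
    _ = 20 * A * (N * θ + 1 / θ) := by ring

/-- **second derivative test** -/
theorem vdc_two (hA : 1 ≤ A) {N : ℕ} (hN : 1 ≤ N) (hMN : M ≤ N) (hlam : 0 < lam) (hc : C2 g M lam A) :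
    ‖∑ n ∈ range M, ee (g n)‖ ≤ 20 * A * ((N : ℝ) * Real.sqrt lam + 1 / Real.sqrt lam) := by
  have hN1 : (1 : ℝ) ≤ N := by exact_mod_cast hN
  rcases le_or_gt lam (1 / 4) with h4 | h4
  · exact vdc_small hA hN hMN hlam h4 hc
  · have h1 : ‖∑ n ∈ range M, ee (g n)‖ ≤ M := Pool.Agent.Helper153.Vdc.triv_bound M g
    have h2 : (M : ℝ) ≤ N := by exact_mod_cast hMN
    have h3 : 1 / 2 ≤ Real.sqrt lam := by
      refine Real.le_sqrt_of_sq_le ?_
      linarith
    have h5 : 0 < 1 / Real.sqrt lam := by positivity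
    have h6 : (N:ℝ) * (1 / 2) ≤ N * Real.sqrt lam := mul_le_mul_of_nonneg_left h3 (by linarith)
    have h7 : 1 * ((N : ℝ) * Real.sqrt lam + 1 / Real.sqrt lam) ≤ A * ((N : ℝ) * Real.sqrt lam + 1 / Real.sqrt lam) :=
      mul_le_mul_of_nonneg_right hA (by positivity)
    calc ‖∑ n ∈ range M, ee (g n)‖ ≤ N := h1.trans h2
      _ ≤ 20 * (1 * ((N : ℝ) * Real.sqrt lam + 1 / Real.sqrt lam)) := by linarith
      _ ≤ 20 * (A * ((N : ℝ) * Real.sqrt lam + 1 / Real.sqrt lam)) := by linarith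
      _ = _ := by ring

end Pool.Agent.KS6_54.ML
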