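import Pool.Agent.KS6_54.ML.OffB
import Pool.Graph.R_pool_sql_team_seeded_47a924f7.T6.H57.SM.S2M

set_option autoImplicit false

/-!
# The smoothed sums over a short interval
-/

namespace Pool.Agent.KS6_54.ML

open Finset Filter MeasureTheory Complex
open Pool.Agent.W184.NZ
open Pool.Agent.TH806 (Ix TT gt SF MS fS gt_nonneg)
open Pool.Agent.T6.H57.SM (gp_sum gp_cont' gp_le' cs_fS SF_fS cv cv_eval et eh eh_apply half_ne sum_BSt)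
open Pool.Agent.Y755 (IZ P1 es Bd1 BS BS_Bd BS_l1 sum_BS gpd gpd_zero es_norm_le es_diff cl_cont_zeta half_re l1'
  l1'_nonneg yT)
open Pool.Agent.H448R2.GC (cu cs sm)
open Pool.Agent.H448R2.GC.M1 (cs_cont)

noncomputable section

variable {c y a : ℝ} {z J Rs : ℕ}

/-- the smoothed sums over a short interval -/
lemma win_cs2 {N : ℕ} (hy : 1 ≤ y) (hrg : Rg c J (IZ z y) (bb y)) (hRs : 1 ≤ Rs) (ha : |a| ≤ 2) {k M3 : ℕ}
    {c' D ρ y' : ℝ} {H : ℝ} (hH : 0 < H) (U : ℝ)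
    (hM : MS k c' D * ⌊Real.exp (Real.log y * (80 * ((Rs:ℝ) + 1)))⌋₊ ≤ M3) (hN : M3 < N) {Δ : ℝ} (hΔ0 : 0 ≤ Δ)
    (hΔ : ∀ m n : ℕ, m ≠ 0 → n ≠ 0 → (m:ℝ) ≤ Real.exp (Real.log y * (80 * ((Rs:ℝ) + 1))) →
      (n:ℝ) ≤ Real.exp (Real.log y * (80 * ((Rs:ℝ) + 1))) →
      ‖SP (gS k c' D ρ) (U + y') H (MS k c' D) m n‖ ≤ Δ) :
    ∫ t in U..(U + H), ‖cs k c' D ((((1 / 2 + ρ : ℝ) : ℂ) + (y' : ℂ) * I) + (t:ℂ) * I)‖ ^ 2 * gp J a (RR Rs) (IZ z y) t ≤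
      6 * H * (∫ θ, ‖SF k c' D (((1 / 2 + ρ : ℝ) : ℂ) + (y' : ℂ) * I) θ‖ ^ 2 * gt J a (RR Rs) (IZ z y) θ ∂(TT N)) +
      6 * H * ((2 * Δ) * Real.exp (Real.log y * (180 * ((Rs:ℝ) + 1)))) := by
  set w : ℂ := ((1 / 2 + ρ : ℝ) : ℂ) + (y' : ℂ) * I with hw
  have hB : ∀ S, ∀ m ∈ (BS J a (RR Rs) (IZ z y) S).coeff.support, m ≠ 0 ∧
      m ≤ ⌊Real.exp (Real.log y * (80 * ((Rs:ℝ) + 1)))⌋₊ := by
    intro S m hm
    obtain ⟨h1, h2⟩ := BS_Bd (a := a) (Rs := Rs) hy hrg S m hm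
    exact ⟨h1, Nat.le_floor h2⟩
  have hc1 : Continuous fun t : ℝ => cs k c' D (w + (t:ℂ) * I) := (cs_cont k c' D).comp (by fun_prop)
  have hc2 : ∀ S, Continuous fun t : ℝ => ‖es (1 / 2 + (t:ℂ) * I) (BS J a (RR Rs) (IZ z y) S)‖ ^ 2 := fun S =>
    ((((es_diff (BS_Bd (a := a) (Rs := Rs) hy hrg S)).continuous.comp (by fun_prop)))).norm.pow 2
  have hiS : ∀ S ∈ (range J).powerset, Integrable (fun θ : Ix N → ℝ => ‖SF k c' D w θ‖ ^ 2 *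
      ‖et θ (BS J a (RR Rs) (IZ z y) S)‖ ^ 2) (TT N) := by
    intro S _
    have e1 : ∀ θ : Ix N → ℝ, ‖SF k c' D w θ‖ ^ 2 * ‖et θ (BS J a (RR Rs) (IZ z y) S)‖ ^ 2 =
        ‖∑ n ∈ Icc 1 M3, (cv (MS k c' D) (fS k c' D w) (BS J a (RR Rs) (IZ z y) S) n *
          (n:ℂ) ^ (-(1 / 2) : ℂ)) * Pool.Agent.TH806.chi θ n‖ ^ 2 := by
      intro θ
      have h1 := cv_eval (MS k c' D) (fS k c' D w) _ (hB S) hM (Pool.Agent.TH806.fw half_ne θ)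
      rw [← mul_pow, ← norm_mul, SF_fS]
      have h2 : (∑ h ∈ Icc 1 (MS k c' D), fS k c' D w h * ((h : ℂ) ^ (-(1 / 2) : ℂ) * Pool.Agent.TH806.chi θ h)) *
          et θ (BS J a (RR Rs) (IZ z y) S) = (∑ h ∈ Icc 1 (MS k c' D), fS k c' D w h * Pool.Agent.TH806.fw half_ne θ h) *
          eh (Pool.Agent.TH806.fw half_ne θ) (BS J a (RR Rs) (IZ z y) S) := rfl
      rw [h2, h1]
      congr 2
      refine sum_congr rfl fun n _ => ?_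
      rw [Pool.Agent.TH806.fw_apply]; ring
    simp_rw [e1]
    refine Integrable.of_bound (C := (∑ n ∈ Icc 1 M3, ‖cv (MS k c' D) (fS k c' D w) (BS J a (RR Rs) (IZ z y) S) n *
          (n:ℂ) ^ (-(1 / 2) : ℂ)‖) ^ 2) ?_ (Filter.Eventually.of_forall fun θ => ?_)
    · refine Continuous.aestronglyMeasurable ?_
      refine ((continuous_finsetSum _ fun n _ => continuous_const.mul ?_).norm).pow 2
      exact Pool.Agent.TH806.chi_cont n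
    · rw [norm_pow, norm_norm]
      refine pow_le_pow_left₀ (norm_nonneg _) ((norm_sum_le _ _).trans (sum_le_sum fun n _ => ?_)) 2
      rw [norm_mul _ (Pool.Agent.TH806.chi θ n), Pool.Agent.TH806.chi_norm, mul_one]
  have hcc : ∀ S, Continuous fun t : ℝ => ‖cs k c' D (w + (t:ℂ) * I)‖ ^ 2 *
      ‖es (1 / 2 + (t:ℂ) * I) (BS J a (RR Rs) (IZ z y) S)‖ ^ 2 := fun S => (hc1.norm.pow 2).mul (hc2 S)
  have hBl := BS_l1 hy hrg hRs ha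
  have hS : ∀ S ∈ (range J).powerset, ∫ t in U..(U + H), ‖cs k c' D (w + (t:ℂ) * I)‖ ^ 2 *
      ‖es (1 / 2 + (t:ℂ) * I) (BS J a (RR Rs) (IZ z y) S)‖ ^ 2 ≤
      6 * H * (∫ θ, ‖SF k c' D w θ‖ ^ 2 * ‖et θ (BS J a (RR Rs) (IZ z y) S)‖ ^ 2 ∂(TT N)) +
      6 * H * ((2 * Δ) * l1' (BS J a (RR Rs) (IZ z y) S) ^ 2) := by
    intro S _
    simp_rw [cs_fS, SF_fS]
    refine mv_prod2 hH U (fS k c' D w) _ (hB S) hM hN ?_
    intro m n hm hn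
    obtain ⟨h1, h2⟩ := BS_Bd (a := a) (Rs := Rs) hy hrg S m hm
    obtain ⟨h3, h4⟩ := BS_Bd (a := a) (Rs := Rs) hy hrg S n hn
    exact TT2_bound k D ρ y' U H h1 h3 _ (hΔ m n h1 h3 h2 h4) (hΔ n m h3 h1 h4 h2)
  simp_rw [gp_sum, ← sum_BSt, mul_sum]
  rw [intervalIntegral.integral_finsetSum fun S _ => (hcc S).intervalIntegrable _ _,
    integral_finsetSum _ hiS]
  refine (sum_le_sum hS).trans ?_
  rw [sum_add_distrib, ← mul_sum, ← mul_sum, ← mul_sum]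
  refine add_le_add le_rfl ?_
  gcongr

end

end Pool.Agent.KS6_54.ML
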